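import Pool.Agent.Lib.MP_33650d_pr.X.CKer
import Pool.Agent.Lib.MP_33650d_pr.Tab
import Pool.Agent.Lib.MP_33650d_pr.YTab

namespace Pool.Agent.Lib.MP_33650d_pr.X
open MeasureTheory ProbabilityTheory Real

theorem ckchk_succ (d : ℕ) {I S : ℕ} (h : rowB d = (I, S)) : rowB (d + 1) =
    (Nat.add I (Nat.shiftLeft (Nat.add I (Nat.shiftLeft (one72 d) d)) (Nat.mul 72 (Nat.pow 2 d))),
      Nat.add S (Nat.shiftLeft (Nat.add (Nat.add S (Nat.shiftLeft I (Nat.add d 1)))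
        (Nat.shiftLeft (one72 d) (Nat.mul 2 d))) (Nat.mul 72 (Nat.pow 2 d)))) := by
  have : rowB (d + 1) = Prod.rec (motive := fun _ => ℕ × ℕ) (fun I S =>
      (Nat.add I (Nat.shiftLeft (Nat.add I (Nat.shiftLeft (one72 d) d)) (Nat.mul 72 (Nat.pow 2 d))),
        Nat.add S (Nat.shiftLeft (Nat.add (Nat.add S (Nat.shiftLeft I (Nat.add d 1)))
          (Nat.shiftLeft (one72 d) (Nat.mul 2 d))) (Nat.mul 72 (Nat.pow 2 d))))) (rowB d) := rfl
  rw [this, h]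

theorem ckchk_zero : rowB 0 = (0, 0) := rfl

seal Nat.shiftRight Nat.shiftLeft Nat.mod Nat.sub Nat.add Nat.mul Nat.pow one72 h72 yC yS
  geqR rowB

theorem ckchk_row (d : ℕ) :
    rowB d = (pk 72 (2 ^ d) fun i => i, pk 72 (2 ^ d) fun i => i ^ 2) := by
  induction d with
  | zero => rw [ckchk_zero]; simp [pk]
  | succ d ih =>
    rw [ckchk_succ d ih, (one72_rep d).1]
    simp only [Nat.add_eq, nshl_eq, Nat.mul_eq, npow_eq]
    rw [pow_succ 2 d, mul_two, pk_append, pk_append, mul_comm (pk 72 (2 ^ d) fun _ => 1),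
      mul_comm (pk 72 (2 ^ d) fun _ => 1), mul_comm (pk 72 (2 ^ d) fun i => i) (2 ^ d + 2 ^ d),
      pk_mul, pk_mul, pk_mul, pk_add, pk_add, pk_add]
    congr 3
    · exact pk_congr fun i _ => by ring
    · exact pk_congr fun i _ => by ring

theorem rI_rep : Rep 72 4096 rI (fun i => i) (2 ^ 12) := by
  refine ⟨?_, fun i hi => hi.le.trans (by norm_num)⟩
  rw [rI, ckchk_row, show 2 ^ 12 = 4096 by norm_num]

theorem rS_rep : Rep 72 4096 rS (fun i => i ^ 2) (2 ^ 24) := by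
  refine ⟨?_, fun i hi => ?_⟩
  · rw [rS, ckchk_row, show 2 ^ 12 = 4096 by norm_num]
  · calc i ^ 2 ≤ 4096 ^ 2 := Nat.pow_le_pow_left hi.le 2
      _ = 2 ^ 24 := by norm_num

seal rI rS

theorem ckchk_sq2 (x : ℕ) : (sq2 x : ℝ) = ((x : ℝ) - 2 ^ 30) ^ 2 := by
  rw [sq2, cast_nadd, cast_nmul, cast_nmul]
  rcases le_total x 1073741824 with h | h
  · rw [cast_nsub (a := 1073741824) (b := x) (by exact_mod_cast h), Nat.sub_eq,
      Nat.sub_eq_zero_of_le h]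
    push_cast
    ring
  · rw [cast_nsub (a := x) (b := 1073741824) (by exact_mod_cast h), Nat.sub_eq,
      Nat.sub_eq_zero_of_le h]
    push_cast
    ring

theorem ckchk_prod {c B x y e : ℝ} (hc : |c| ≤ B) (h : |x - y| ≤ e) : c * x - c * y ≤ B * e := by
  rw [← mul_sub]
  refine (le_abs_self _).trans ?_
  rw [abs_mul]
  exact mul_le_mul hc h (abs_nonneg _) ((abs_nonneg _).trans hc)

theorem ckchk_lane {J K : ℕ} {u v : ℕ → ℕ → ℕ} (hJ : J ≤ 48)
    (hu : ∀ k ≤ 256, Rep 72 4096 (yC k) (u k) (2 ^ 32))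
    (hv : ∀ k ≤ 256, Rep 72 4096 (yS k) (v k) (2 ^ 32))
    (c1 : kcX J K ≤ 2 ^ 69) (c2 : kcY J K ≤ 2 ^ 69) :
    Rep 72 4096 (kX J K) (fun i => ∑ j ∈ Finset.range J, (kP K j * u (j + 1) i +
      kQ K j * v (j + 1) i) + kC K * 2 ^ 6 * i ^ 2 + kcX J K * 1) (2 ^ 70 + 2 ^ 69) ∧
    Rep 72 4096 (kY J K) (fun i => (∑ j ∈ Finset.range J, (u (j + 1) i + v (j + 1) i)) * 2 ^ 30 +
      kC K * 2 ^ 18 * i + kcY J K * 1) (2 ^ 70) := by
  have hu' : ∀ j, j < 256 → Rep 72 4096 (yC (Nat.add j 1)) (u (j + 1)) (2 ^ 32) :=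
    fun j hj => by rw [Nat.add_eq]; exact hu _ hj
  have hv' : ∀ j, j < 256 → Rep 72 4096 (yS (Nat.add j 1)) (v (j + 1)) (2 ^ 32) :=
    fun j hj => by rw [Nat.add_eq]; exact hv _ hj
  have hP : ∀ j, kP K j ≤ 2 ^ 31 := fun j => (bt_lt _ _ (by norm_num)).le
  have hQ : ∀ j, kQ K j ≤ 2 ^ 31 := fun j => (bt_lt _ _ (by norm_num)).le
  have hC : kC K ≤ 2 ^ 32 := (bt_lt _ _ (by norm_num)).le
  have h6 : Nat.shiftLeft (kC K) 6 ≤ 2 ^ 38 := by rw [nshl_eq]; omega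
  have h18 : Nat.shiftLeft (kC K) 18 ≤ 2 ^ 50 := by rw [nshl_eq]; omega
  have r1 := tb_rep_sum (m := J) fun j hj =>
    (Rep.mul' (hP j) (hu' j (by omega))).add (Rep.mul' (hQ j) (hv' j (by omega)))
  have r2 := (tb_rep_sum (m := J) fun j hj =>
    (hu' j (by omega)).add (hv' j (by omega))).shl 30
  have rX := (r1.add (Rep.mul' h6 rS_rep)).add (Rep.mul' c1 one72_rep')
  have rY := (r2.add (Rep.mul' h18 rI_rep)).add (Rep.mul' c2 one72_rep')
  constructor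
  · delta kX
    refine (rX.congr fun i _ => by rw [nshl_eq]).mono ?_
    rw [Finset.sum_const, Finset.card_range, smul_eq_mul]
    omega
  · delta kY kUV
    refine (rY.congr fun i _ => by rw [nshl_eq]).mono ?_
    rw [Finset.sum_const, Finset.card_range, smul_eq_mul]
    omega

theorem ckchk_kE (J K : ℕ) : (kE J K : ℝ) = kC K * 2 ^ 4 +
    316 * ∑ j ∈ Finset.range J, ((j : ℝ) + 1) ^ 2 * kR K j +
      72 * ∑ j ∈ Finset.range J, (kR K j : ℝ) := by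
  delta kE
  rw [cast_nadd, cast_shl, sumN_eq, Nat.cast_sum, add_assoc, Finset.mul_sum, Finset.mul_sum,
    ← Finset.sum_add_distrib]
  congr 1
  refine Finset.sum_congr rfl fun j _ => ?_
  simp only [cast_nadd, cast_nmul]
  push_cast
  ring

theorem ckchk_real {J K i : ℕ} {u v : ℕ → ℕ}
    (hr : ∀ j < J, |(kP K j : ℝ) - 2 ^ 30| ≤ (kR K j : ℝ) ∧
      |(kQ K j : ℝ) - 2 ^ 30| ≤ (kR K j : ℝ))
    (huv : ∀ j < J, |(u j : ℝ) - (cos (2 * π * (j + 1) * (i / 4096)) + 2) * 2 ^ 30| ≤ 36 ∧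
      |(v j : ℝ) - (sin (2 * π * (j + 1) * (i / 4096)) + 2) * 2 ^ 30| ≤ 36) :
    ((∑ j ∈ Finset.range J, (kP K j * u j + kQ K j * v j) + kC K * 2 ^ 6 * i ^ 2 +
        kcX J K * 1 : ℕ) : ℝ) -
      (((∑ j ∈ Finset.range J, (u j + v j)) * 2 ^ 30 + kC K * 2 ^ 18 * i + kcY J K * 1 : ℕ) : ℝ) +
      (kC K * 2 ^ 4 + 316 * ∑ j ∈ Finset.range J, ((j : ℝ) + 1) ^ 2 * kR K j) ≤
      hC J (aK K) (cK K) (pK K) (qK K) (i / 4096) * 2 ^ 60 := by
  have s1 : ∑ j ∈ Finset.range J, (((kP K j : ℝ) * u j + kQ K j * v j) -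
      ((u j : ℝ) + v j) * 2 ^ 30 - ((kP K j : ℝ) + kQ K j) * 2 ^ 31 + 2 ^ 62 - 72 * kR K j) ≤
      ∑ j ∈ Finset.range J, (pK K j * cos (2 * π * (j + 1) * (i / 4096)) +
        qK K j * sin (2 * π * (j + 1) * (i / 4096))) * 2 ^ 60 := by
    refine Finset.sum_le_sum fun j hj => ?_
    have hj' := Finset.mem_range.1 hj
    have e3 := ckchk_prod (hr j hj').1 (huv j hj').1
    have e4 := ckchk_prod (hr j hj').2 (huv j hj').2
    rw [pK, qK]
    linarith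
  have eX : (kcX J K : ℝ) = kA K * 2 ^ 30 + J * 2 ^ 62 := by
    delta kcX
    rw [cast_nadd, cast_shl, cast_shl]
  have eY : (kcY J K : ℝ) = (∑ j ∈ Finset.range J, ((kP K j : ℝ) + kQ K j)) * 2 ^ 31 + kE J K := by
    delta kcY
    rw [cast_nadd, cast_shl, sumN_eq, Nat.cast_sum]
    simp only [cast_nadd]
  rw [ckchk_kE] at eY
  push_cast
  rw [eX, eY, hC, aK, cK]
  simp only [Finset.sum_add_distrib, Finset.sum_sub_distrib, ← Finset.sum_mul, ← Finset.mul_sum,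
    Finset.sum_const, Finset.card_range, nsmul_eq_mul] at s1 ⊢
  linarith

theorem ckchk_fin {X Y c i E H : ℝ} (b : Y + c * 2 ^ 19 * i + 2 ^ 60 ≤ X + c * 2 ^ 31 * 1)
    (h : X - Y + E ≤ H * 2 ^ 60) : 1 + E / 2 ^ 60 ≤ H + 2 * (c / 2 ^ 30) * (1 - i / 4096) := by
  linarith

theorem chkK_sound {J K : ℕ} (hJ : J ≤ 48) (h : chkK J K = true) : KV J K := by
  have hy : ∀ k : ℕ, ∃ u v : ℕ → ℕ, k ≤ 256 → (Rep 72 4096 (yC k) u (2 ^ 32) ∧
      Rep 72 4096 (yS k) v (2 ^ 32) ∧ ∀ i < 4096,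
      |(u i : ℝ) - (cos (2 * π * k * (i / 4096)) + 2) * 2 ^ 30| ≤ 36 ∧
      |(v i : ℝ) - (sin (2 * π * k * (i / 4096)) + 2) * 2 ^ 30| ≤ 36) := by
    intro k
    by_cases hk : k ≤ 256
    · obtain ⟨u, v, h⟩ := y_spec hk
      exact ⟨u, v, fun _ => h⟩
    · exact ⟨fun _ => 0, fun _ => 0, fun h => absurd h hk⟩
  choose u v huv using hy
  simp only [chkK, band_eq] at h
  obtain ⟨c0, c1, c2, c3, c4, c5⟩ := h
  have c1' : kcX J K ≤ 2 ^ 69 := Nat.le_of_ble_eq_true c1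
  have c2' : kcY J K ≤ 2 ^ 69 := Nat.le_of_ble_eq_true c2
  have hsq : ∀ j < J, ((kP K j : ℝ) - 2 ^ 30) ^ 2 + ((kQ K j : ℝ) - 2 ^ 30) ^ 2 ≤
      (kR K j : ℝ) ^ 2 := fun j hj => by
    have a := ble_cast (allN_spec c0 j hj)
    rwa [cast_nadd, cast_nmul, ckchk_sq2, ckchk_sq2, ← sq] at a
  have hr : ∀ j < J, |(kP K j : ℝ) - 2 ^ 30| ≤ (kR K j : ℝ) ∧
      |(kQ K j : ℝ) - 2 ^ 30| ≤ (kR K j : ℝ) :=
    fun j hj => ⟨abs_le_of_sq_le_sq ((le_add_of_nonneg_right (sq_nonneg _)).trans (hsq j hj))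
        (Nat.cast_nonneg _),
      abs_le_of_sq_le_sq ((le_add_of_nonneg_left (sq_nonneg _)).trans (hsq j hj))
        (Nat.cast_nonneg _)⟩
  have hpq : ∀ j < J, pK K j ^ 2 + qK K j ^ 2 ≤ rK K j ^ 2 := fun j hj => by
    rw [pK, qK, rK, div_pow, div_pow, div_pow, ← add_div]
    exact div_le_div_of_nonneg_right (hsq j hj) (by positivity)
  obtain ⟨rX, rY⟩ := ckchk_lane hJ (fun k hk => (huv k hk).1) (fun k hk => (huv k hk).2.1) c1' c2'
  have hC' : kC K ≤ 2 ^ 32 := (bt_lt _ _ (by norm_num)).le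
  have h31 : Nat.shiftLeft (kC K) 31 ≤ 2 ^ 63 := by rw [nshl_eq]; omega
  have h19 : Nat.shiftLeft (kC K) 19 ≤ 2 ^ 51 := by rw [nshl_eq]; omega
  have rX' := rX.add (Rep.mul' h31 one72_rep')
  have rY' := (rY.add (Rep.mul' h19 rI_rep)).add (one72_rep'.shl 60)
  have hre : ∀ i < 4096, _ := fun i hi => ckchk_real (J := J) (K := K) (i := i)
    (u := fun j => u (j + 1) i) (v := fun j => v (j + 1) i) hr fun j hj => by
      have a := (huv (j + 1) (by omega)).2.2 i hi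
      push_cast at a
      exact a
  obtain ⟨T, hT⟩ : ∃ T : ℝ, T = ∑ j ∈ Finset.range J, ((j : ℝ) + 1) ^ 2 * kR K j := ⟨_, rfl⟩
  have hT0 : 0 ≤ T := by rw [hT]; positivity
  rw [← hT] at hre
  refine ⟨hpq, kv_grid (r := rK K) (e := (kC K * 2 ^ 4 + 316 * T) / 2 ^ 60)
    (by rw [cK]; positivity) (fun j _ => by rw [rK]; positivity) hpq ?_ (fun i hi => ?_)
    (fun i hi => ?_) ?_⟩
  · have s3 : ∑ j ∈ Finset.range J, (2 * π * (j + 1)) ^ 2 * rK K j = 4 * π ^ 2 / 2 ^ 30 * T := by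
      rw [hT, Finset.mul_sum]
      refine Finset.sum_congr rfl fun j _ => ?_
      rw [rK]
      ring
    have hp : π ^ 2 ≤ 316 / 32 := by nlinarith [pi_lt_d4, pi_pos]
    have h7 := mul_le_mul_of_nonneg_right hp hT0
    rw [s3, cK]
    linarith
  · have a := geqR_sound (w := 71) h72_eq rX rY (by norm_num) (by norm_num) c4 (Nat.zero_le i)
      (by omega) hi
    have b := (Nat.cast_le (α := ℝ)).2 a
    rw [div_le_iff₀ (by positivity)]
    exact (le_add_of_nonneg_left (sub_nonneg.2 b)).trans (hre i hi)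
  · have a := geqR_sound (w := 71) h72_eq rX' rY' (by norm_num) (by norm_num) c5 (Nat.zero_le i)
      (by omega) hi
    have b := (Nat.cast_le (α := ℝ)).2 a
    have c := hre i hi
    rw [Nat.cast_add, Nat.cast_add _ (Nat.shiftLeft (kC K) 19 * i),
      Nat.cast_add _ (Nat.shiftLeft (kC K) 31 * 1), Nat.cast_mul (Nat.shiftLeft (kC K) 19),
      Nat.cast_mul (Nat.shiftLeft (kC K) 31), cast_shl, cast_shl, Nat.cast_one,
      show ((1 * 2 ^ 60 : ℕ) : ℝ) = 2 ^ 60 by norm_num] at b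
    exact ckchk_fin b c
  · have a := ble_cast c3
    rw [cast_nadd, cast_shl, cast_shl, cast_nadd, cast_nadd, sumN_eq, Nat.cast_sum, ckchk_kE,
      ← hT, Nat.cast_one] at a
    have b : ∑ j ∈ Finset.range J, pK K j =
        (∑ j ∈ Finset.range J, (kP K j : ℝ)) / 2 ^ 30 - J := by
      simp only [pK, sub_div, Finset.sum_sub_distrib, Finset.sum_div, Finset.sum_const,
        Finset.card_range, nsmul_eq_mul]
      norm_num
    have c : 0 ≤ ∑ j ∈ Finset.range J, (kR K j : ℝ) := by positivity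
    rw [b, aK]
    linarith

theorem chkKT_sound {J : ℕ} (hJ : J ≤ 48) {t : BT} (h : chkKT J t = true) : t.All (KV J) := by
  induction t with
  | leaf K => exact chkK_sound hJ h
  | node l r ihl ihr =>
    have e : chkKT J (BT.node l r) = band (chkKT J l) (chkKT J r) := rfl
    rw [e, band_eq] at h
    exact ⟨ihl h.1, ihr h.2⟩

end Pool.Agent.Lib.MP_33650d_pr.X
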