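import Pool.Agent.Lib.MP_33650d_pr.X.Basic
import Pool.Agent.Lib.MP_33650d_pr.Gauss

namespace Pool.Agent.Lib.MP_33650d_pr.X
open MeasureTheory ProbabilityTheory Real

/-- The system of the summands `ρ X_k`. -/
noncomputable def Sys.scale (S : Sys) (ρ : ℝ) : Sys :=
  ⟨S.n, S.ν.map fun y => ρ * y, fun k => ρ ^ 2 * S.s k, fun k => ρ ^ 3 * S.bp k,
    fun k => ρ ^ 3 * S.bm k, fun k t => S.C k (t * ρ), fun k t => S.S k (t * ρ)⟩

theorem scale_dat (S : Sys) (ρ : ℝ) (k : Fin S.n) (t : ℝ) :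
    (S.scale ρ).dat k t = S.dat k (t * ρ) := by
  simp only [Sys.dat, Sys.scale, YD.mk.injEq, and_true]
  refine ⟨by ring, by ring, by ring⟩

theorem scale_N (S : Sys) (ρ : ℝ) : (S.scale ρ).N = ρ ^ 2 * S.N :=
  (Finset.mul_sum _ _ _).symm

theorem scale_Bp (S : Sys) (ρ : ℝ) : (S.scale ρ).Bp = ρ ^ 3 * S.Bp :=
  (Finset.mul_sum _ _ _).symm

theorem scale_Bm (S : Sys) (ρ : ℝ) : (S.scale ρ).Bm = ρ ^ 3 * S.Bm :=
  (Finset.mul_sum _ _ _).symm

theorem scale_B (S : Sys) (ρ : ℝ) : (S.scale ρ).B = ρ ^ 3 * S.B := by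
  simp only [Sys.B, scale_Bp, scale_Bm]
  ring

theorem scale_sqrt (S : Sys) {ρ : ℝ} (hρ : 0 < ρ) : √(S.scale ρ).N = ρ * √S.N := by
  rw [scale_N, sqrt_mul (sq_nonneg ρ), sqrt_sq hρ.le]

theorem Sys.Ok.scale {S : Sys} (h : S.Ok) {ρ : ℝ} (hρ : 0 < ρ) :
    (S.scale ρ).Ok ∧ (S.scale ρ).lam = S.lam ∧ ((S.scale ρ).Bound → S.Bound) := by
  have hm : Measurable fun y : ℝ => ρ * y := by fun_prop
  have hp := h.prob
  have hl : (S.scale ρ).lam = S.lam := by
    rw [Sys.lam, Sys.lam, scale_B, scale_sqrt S hρ, mul_pow,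
      mul_div_mul_left _ _ (pow_pos hρ 3).ne']
  refine ⟨⟨?_, ?_, ?_, ?_, h.npos, fun k => mul_pos (pow_pos hρ 2) (h.spos k), ?_, ?_⟩, hl, ?_⟩
  · exact Measure.isProbabilityMeasure_map hm.aemeasurable
  · exact (memLp_map_measure_iff aestronglyMeasurable_id hm.aemeasurable).2 (h.mem2.const_mul ρ)
  · change ∫ y, y ∂(S.ν.map fun y => ρ * y) = 0
    rw [integral_map hm.aemeasurable (by fun_prop), integral_const_mul, h.mean, mul_zero]
  · change ∫ y, y ^ 2 ∂(S.ν.map fun y => ρ * y) = _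
    rw [integral_map hm.aemeasurable (by fun_prop), scale_N, ← h.var, ← integral_const_mul]
    simp only [mul_pow]
  · intro k t ht
    rw [scale_dat]
    exact h.lin k _ (mul_pos ht hρ)
  · intro t ht
    change charFun (S.ν.map fun y => ρ * y) t = ∏ k : Fin S.n, ((S.scale ρ).dat k t).f
    rw [charFun_map_mul, mul_comm ρ t, h.char _ (mul_pos ht hρ)]
    exact Finset.prod_congr rfl fun k _ => by rw [scale_dat]
  · intro hb y
    have a := hb (ρ * y)
    rw [hl, scale_sqrt S hρ, mul_div_mul_left _ _ hρ.ne'] at a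
    have e : (S.scale ρ).ν.real (Set.Iic (ρ * y)) = S.ν.real (Set.Iic y) := by
      change (S.ν.map fun y => ρ * y).real _ = _
      rw [map_measureReal_apply hm measurableSet_Iic]
      congr 1
      ext x
      simp only [Set.mem_preimage, Set.mem_Iic]
      exact mul_le_mul_iff_right₀ hρ
    rwa [e] at a

theorem scale_one {P : JP} (hP : P = JI ∨ P = JIII) {s bp bm : ℝ} (h : Mom s bp bm) :
    0.67 * (bp + bm) - 9 / 16 * s ≤ Cp * (bp + bm) - s / 2 - (bp - bm) / 6 - P.J s bp bm ∧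
      Cp * (bp + bm) - s / 2 - (bp - bm) / 6 - P.J s bp bm ≤ 2 * (bp + bm) - s / 4 := by
  obtain ⟨h1, h2, h3⟩ := h.nonneg
  have h4 := h.cube
  have h5 : 0 ≤ s * √s := by positivity
  have r1 := r10_lo
  have r2 := r10_hi
  have p1 := mul_le_mul_of_nonneg_right r1.le h2
  have p2 := mul_le_mul_of_nonneg_right r2.le h2
  have m1 := mul_le_mul_of_nonneg_right r1.le h3
  have m2 := mul_le_mul_of_nonneg_right r2.le h3
  rcases hP with rfl | rfl
  · have e0 : 0 ≤ sE := by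
      unfold sE
      linarith
    have e1 : sE ≤ 1 / 4 := by
      unfold sE
      linarith
    have e2 : sE ^ 2 ≤ 1 / 16 := by nlinarith
    have e3 := mul_le_mul_of_nonneg_right e2 h1
    have e4 : 0 ≤ sE ^ 3 := by positivity
    have a1 := le_max_right ((1 / 16 + 3 * sE ^ 2) * s - sE ^ 3) 0
    have a2 : max ((1 / 16 + 3 * sE ^ 2) * s - sE ^ 3) 0 ≤ s / 4 :=
      max_le (by linarith) (by linarith)
    simp only [JP.J, JI]
    generalize max ((1 / 16 + 3 * sE ^ 2) * s - sE ^ 3) 0 = M at *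
    unfold Cp c3
    constructor <;> linarith
  · simp only [JP.J, JIII, zero_mul, sub_zero, max_self]
    unfold Cp c3
    constructor <;> linarith

theorem scale_gap (P : JP) (S : Sys) :
    Cp * S.B - (S.N / 2 + S.K / 6 + S.J P) = ∑ k, (Cp * (S.bp k + S.bm k) - S.s k / 2
      - (S.bp k - S.bm k) / 6 - P.J (S.s k) (S.bp k) (S.bm k)) := by
  simp only [Sys.B, Sys.K, Sys.N, Sys.Bp, Sys.Bm, Sys.J, Finset.sum_sub_distrib,
    ← Finset.mul_sum, ← Finset.sum_div, Finset.sum_add_distrib]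
  ring

theorem scale_two {P : JP} (hP : P = JI ∨ P = JIII) {S : Sys} (h : S.Ok) :
    0.67 * S.B - 9 / 16 * S.N ≤ Cp * S.B - (S.N / 2 + S.K / 6 + S.J P) ∧
      Cp * S.B - (S.N / 2 + S.K / 6 + S.J P) ≤ 2 * S.B - S.N / 4 := by
  rw [scale_gap]
  constructor
  · refine le_of_eq_of_le ?_ (Finset.sum_le_sum fun k _ => (scale_one hP (h.mom k)).1)
    simp only [Sys.B, Sys.N, Sys.Bp, Sys.Bm, Finset.sum_sub_distrib,
      ← Finset.mul_sum, Finset.sum_add_distrib]
  · refine le_of_le_of_eq (Finset.sum_le_sum fun k _ => (scale_one hP (h.mom k)).2) ?_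
    simp only [Sys.B, Sys.N, Sys.Bp, Sys.Bm, Finset.sum_sub_distrib,
      ← Finset.mul_sum, ← Finset.sum_div, Finset.sum_add_distrib]

theorem exists_bal {P : JP} (hP : P = JI ∨ P = JIII) {S : Sys} (h : S.Ok) :
    ∃ ρ : ℝ, 0 < ρ ∧ (S.scale ρ).Bal P := by
  obtain ⟨hN, -, -, hB, -⟩ := h.basic
  have hc : Continuous fun ρ : ℝ => Cp * (S.scale ρ).B
      - ((S.scale ρ).N / 2 + (S.scale ρ).K / 6 + (S.scale ρ).J P) := by
    simp only [scale_gap]
    change Continuous fun ρ : ℝ => ∑ k : Fin S.n, (Cp * (ρ ^ 3 * S.bp k + ρ ^ 3 * S.bm k)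
      - ρ ^ 2 * S.s k / 2 - (ρ ^ 3 * S.bp k - ρ ^ 3 * S.bm k) / 6
      - P.J (ρ ^ 2 * S.s k) (ρ ^ 3 * S.bp k) (ρ ^ 3 * S.bm k))
    unfold JP.J
    fun_prop
  have a0 : 0 < S.N / S.B := div_pos hN hB
  have a1 : S.N / S.B * S.B = S.N := div_mul_cancel₀ _ hB.ne'
  generalize S.N / S.B = r at a0 a1
  have a2 : 0 < r / 8 := by positivity
  have lo := (scale_two hP (h.scale a2).1).2
  have hi := (scale_two hP (h.scale a0).1).1
  have lo' : 2 * (S.scale (r / 8)).B - (S.scale (r / 8)).N / 4 = 0 := by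
    rw [scale_B, scale_N, ← a1]
    ring
  have hi' : 0 ≤ 0.67 * (S.scale r).B - 9 / 16 * (S.scale r).N := by
    rw [scale_B, scale_N, ← a1]
    have : 0 < r ^ 3 * S.B := by positivity
    linarith
  obtain ⟨ρ, b1, b2⟩ := intermediate_value_Icc (show r / 8 ≤ r by linarith) hc.continuousOn
    (show (0 : ℝ) ∈ Set.Icc _ _ from ⟨lo.trans lo'.le, hi'.trans hi⟩)
  exact ⟨ρ, a2.trans_le b1.1, sub_eq_zero.1 b2⟩

theorem Sys.Ok.cantelli {S : Sys} (h : S.Ok) {y : ℝ} (hy : y ≤ 0) :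
    S.ν.real (Set.Iic y) * (S.N + y ^ 2) ≤ S.N := by
  have hp := h.prob
  have hN := h.basic.1
  have i1 : Integrable (fun x : ℝ => x) S.ν := h.mem2.integrable (by norm_num)
  have i2 : Integrable (fun x : ℝ => x ^ 2) S.ν := h.mem2.integrable_sq
  have j1 := (integrable_const (S.N ^ 2)).fun_add (i1.const_mul (2 * S.N * y))
  have j2 := j1.fun_add (i2.const_mul (y ^ 2))
  have e : ∫ x, S.N ^ 2 + 2 * S.N * y * x + y ^ 2 * x ^ 2 ∂S.ν = S.N * (S.N + y ^ 2) := by
    rw [integral_add j1 (i2.const_mul _), integral_add (integrable_const _) (i1.const_mul _),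
      integral_const_mul, integral_const_mul, h.mean, h.var]
    simp only [integral_const, probReal_univ, smul_eq_mul]
    ring
  have key : S.ν.real (Set.Iic y) * (S.N + y ^ 2) ^ 2 ≤ S.N * (S.N + y ^ 2) := by
    refine le_of_le_of_eq ?_ e
    rw [← integral_indicator_one measurableSet_Iic, ← integral_mul_const]
    refine integral_mono (((integrable_const 1).indicator measurableSet_Iic).mul_const _) j2
      fun x => ?_
    by_cases hx : x ≤ y
    · have b1 : y ^ 2 ≤ y * x := by nlinarith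
      have b2 : (S.N + y ^ 2) ^ 2 ≤ (S.N + y * x) ^ 2 :=
        pow_le_pow_left₀ (by positivity) (by linarith) 2
      simp only [Set.indicator, Set.mem_Iic, hx, if_true, Pi.one_apply, one_mul]
      linarith
    · simp only [Set.indicator, Set.mem_Iic, hx, if_false, zero_mul]
      nlinarith [sq_nonneg (S.N + y * x)]
  have hq : 0 < S.N + y ^ 2 := by positivity
  refine le_of_mul_le_mul_right ?_ hq
  linarith

theorem large {S : Sys} (h : S.Ok) (hl : 1.33 ≤ S.lam) : S.Bound := by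
  have hp := h.prob
  have hN := h.basic.1
  have hs : 0 < √S.N := sqrt_pos.2 hN
  have c1 : 0.408 ≤ Cp / √(2 * π) := by
    have c2 : √(2 * π) ≤ 2.51 := sqrt_le_iff.2 ⟨by norm_num, by linarith [pi_lt_d2]⟩
    rw [le_div_iff₀ (by positivity)]
    unfold Cp
    linarith [r10_lo]
  have c3 : 0.542 ≤ Cp / √(2 * π) * S.lam :=
    le_trans (by norm_num) (mul_le_mul c1 hl (by norm_num) (by linarith))
  intro y
  refine le_trans ?_ c3
  obtain ⟨x, rfl⟩ : ∃ x, y = x * √S.N := ⟨y / √S.N, (div_mul_cancel₀ _ hs.ne').symm⟩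
  rw [mul_div_cancel_right₀ _ hs.ne']
  rcases le_total 0 x with hx | hx
  · have a1 : S.ν.real (Set.Iic (x * √S.N)) ≤ 1 := measureReal_le_one
    have a2 := Phi_mono hx
    rw [Phi_zero] at a2
    linarith
  · have a0 := h.cantelli (mul_nonpos_of_nonpos_of_nonneg hx hs.le)
    rw [mul_pow, sq_sqrt hN.le] at a0
    generalize S.ν.real (Set.Iic (x * √S.N)) = p at *
    have a1 : p * (1 + x ^ 2) ≤ 1 := le_of_mul_le_mul_right (by linarith) hN
    have a2 := ga_Phi_ge (neg_nonneg.2 hx)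
    have a3 := Phi_nonneg x
    rw [neg_neg] at a2
    have hq : 0 < 1 + x ^ 2 := by positivity
    rcases le_total x (-0.92) with hy | hy
    · have : p ≤ 0.542 := by
        refine le_of_mul_le_mul_right (a1.trans ?_) hq
        nlinarith
      linarith
    · have : p ≤ 1.042 + 0.4 * x := by
        refine le_of_mul_le_mul_right (a1.trans ?_) hq
        have := mul_nonneg (sq_nonneg (x + 0.22)) (show 0 ≤ 0.866 + 0.4 * x by linarith)
        nlinarith
      linarith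

end Pool.Agent.Lib.MP_33650d_pr.X
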