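import Pool.Agent.Lib.MP_33650d_pr.X.CSeg
import Pool.Agent.Lib.MP_33650d_pr.X.Scale

namespace Pool.Agent.Lib.MP_33650d_pr.X
open MeasureTheory ProbabilityTheory Real

variable {p : Pm} {P : JP} {c : Cel}

theorem find_CLeaf (a : ℕ → ℝ) {s : ℝ} (h0 : a 0 < s) :
    ∀ n, s ≤ a n → ∃ k < n, a k ≤ s ∧ s ≤ a (k + 1) := by
  intro n
  induction n with
  | zero => exact fun h => absurd h (not_le.2 h0)
  | succ n ih =>
    intro h
    rcases le_total s (a n) with b | b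
    · obtain ⟨k, hk, hh⟩ := ih b
      exact ⟨k, by omega, hh⟩
    · exact ⟨n, by omega, b, h⟩

theorem ln_lt_CLeaf (L : Lf) (k : ℕ) : ln L k < 4096 := bt_lt _ _ (by norm_num)

theorem kr_CLeaf (hp : p.Ok P) (L : Lf) (k : ℕ) : KV p.J (kr p L k) := by
  rw [kr, force_eq]
  exact BT.get_all _ hp.KT _

theorem mkS_CLeaf (K lo cnt : ℕ) (f : Sg → Bool) : mkS K lo cnt f = f ⟨K, lo, cnt⟩ := by
  simp only [mkS, force_eq]

theorem Gs_CLeaf (p : Pm) (L : Lf) (K : ℕ) (S : Sys) (s : ℝ) :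
    Gs p L K true S s = Gs p L K false S s - Phi (p.P * s / √S.N) := by
  simp only [Gs, if_true, Bool.false_eq_true, if_false, sub_zero]

theorem leafK_sound (hp : p.Ok P) {L : Lf} (h : leafK p c L = true) {S : Sys} (hS : In P S c) :
    S.Bound := by
  simp only [leafK, band_eq, force_eq, mkS_CLeaf] at h
  obtain ⟨⟨⟨a1, a2⟩, a3, a4⟩, a5, a6, a7, a8, a9, a10⟩ := h
  have hL : LfOK p c L := ⟨a1, a2, a3, a4, Nat.le_of_ble_eq_true a5, allN_spec a6,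
    fun v hv => Nat.le_of_ble_eq_true (allV_spec a7 hv)⟩
  have hP : (0 : ℝ) < p.P := by exact_mod_cast hp.P0
  have hN : 0 < √S.N := sqrt_pos.2 hS.ok.basic.1
  have := hS.ok.prob
  intro y
  obtain ⟨s, rfl⟩ : ∃ s, y = p.P * s := ⟨y / p.P, by field_simp⟩
  rw [hS.bal.tgt_eq]
  rcases le_or_gt s (sl (ln L 0)) with b | b
  · have g1 : Sg.Ok ⟨kr p L 0, ln L 0, 1⟩ := ⟨le_rfl, ln_lt_CLeaf L 0⟩
    have c1 := segK_lane hp hS hL g1 (kr_CLeaf hp L 0) a8 (i := 0) Nat.one_pos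
    have c2 := kernel_le hS.ok hp.P0 (kr_CLeaf hp L 0) L (sl (ln L 0))
    have c3 : S.ν.real (Set.Iic (p.P * s)) ≤ S.ν.real (Set.Iic (p.P * sl (ln L 0))) :=
      measureReal_mono (Set.Iic_subset_Iic.2 (mul_le_mul_of_nonneg_left b hP.le))
    have c4 := Phi_nonneg (p.P * s / √S.N)
    simp only [Bool.false_eq_true, if_false, add_zero] at c1
    linarith
  rcases le_total (sl (ln L (ns L))) s with d | d
  · have g1 : Sg.Ok ⟨0, ln L (ns L), 1⟩ := ⟨le_rfl, ln_lt_CLeaf L _⟩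
    have c1 := segR_lane hp hS hL g1 a9
    have c2 : Phi (p.P * sl (ln L (ns L)) / √S.N) ≤ Phi (p.P * s / √S.N) :=
      Phi_mono (div_le_div_of_nonneg_right (mul_le_mul_of_nonneg_left d hP.le) hN.le)
    have c3 : S.ν.real (Set.Iic (p.P * s)) ≤ 1 := measureReal_le_one
    dsimp only at c1
    linarith
  obtain ⟨k, hk, e1, e2⟩ := find_CLeaf (fun k => sl (ln L k)) b (ns L) d
  have f1 := allN_spec a10 k hk
  simp only [band_eq, Nat.add_eq, Nat.sub_eq, Nat.ble_eq] at f1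
  obtain ⟨f1, f2⟩ := f1
  have f3 := ln_lt_CLeaf L (k + 1)
  have g1 : Sg.Ok ⟨kr p L (k + 1), ln L k, ln L (k + 1) + 1 - ln L k⟩ :=
    ⟨by dsimp only; omega, by dsimp only; omega⟩
  have c1 := Gs_interp hS.ok hp.P0 (kr_CLeaf hp L (k + 1)) L (lo := ln L k) (hi := ln L (k + 1))
    f1 (T := tgt S.N S.K (S.J P)) (fun i i1 i2 => by
      obtain ⟨t, rfl⟩ := Nat.exists_eq_add_of_le i1
      have c2 := segK_lane hp hS hL g1 (kr_CLeaf hp L (k + 1)) f2 (i := t)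
        (by dsimp only; omega)
      simpa only [if_true] using c2) e1 e2
  have c2 := kernel_le hS.ok hp.P0 (kr_CLeaf hp L (k + 1)) L s
  rw [Gs_CLeaf] at c1
  linarith

theorem leafZ_sound (hp : p.Ok P) {n i : ℕ} (h : leafZ p c n i = true) {S : Sys}
    (hS : In P S c) : False := by
  simp only [leafZ, band_eq] at h
  obtain ⟨a1, a2, a3, a4⟩ := h
  obtain ⟨M, θ, hM⟩ := exists_mean p hS
  obtain ⟨b1, E, b2, b3⟩ := ent_mean hp hS hM (Nat.le_of_ble_eq_true a1) a2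
  have b4 := b2.2.1 b1
  have b5 : (dec (en p i)).ka = 0 := by
    have e : (dec (en p i)).ka = sv (ef p i 1) := rfl
    rw [e, Nat.eq_of_beq_eq_true a3, sv]
    norm_num
  have b6 : M (eR p n i) ≤ -(1 / 2 ^ 32) := hM.le_of fun v hv => by
    have c1 := ble_cast (allV_spec a4 hv)
    rw [eR]
    generalize (eV p n i v : ℝ) = A at c1 ⊢
    norm_num at c1 ⊢
    linarith
  rw [b5, zero_mul] at b4
  norm_num at b6
  linarith

theorem lam_CLeaf {S : Sys} (h : S.Ok) : S.B = S.lam * √S.N * S.N := by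
  have hN := h.basic.1
  have h1 : 0 < √S.N := sqrt_pos.2 hN
  have h2 : √S.N ^ 3 = √S.N * S.N := by rw [pow_succ', sq_sqrt hN.le]
  rw [Sys.lam, h2]
  field_simp

/-- Upper bound for the variance. -/
theorem hi_CLeaf {S : Sys} (h : S.Ok) {l b : ℝ} (hl : 0 ≤ l) (h0 : l ≤ S.lam)
    (h1 : S.B ≤ b * S.N) : l ^ 2 * S.N ≤ b ^ 2 := by
  have hN := h.basic.1
  rw [lam_CLeaf h] at h1
  have h2 := le_of_mul_le_mul_right h1 hN
  have h3 : l * √S.N ≤ b := (mul_le_mul_of_nonneg_right h0 (sqrt_nonneg _)).trans h2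
  have h4 := pow_le_pow_left₀ (mul_nonneg hl (sqrt_nonneg _)) h3 2
  rwa [mul_pow, sq_sqrt hN.le] at h4

/-- Lower bound for the variance. -/
theorem lo_CLeaf {S : Sys} (h : S.Ok) {l b : ℝ} (hb : 0 ≤ b) (h0 : S.lam ≤ l)
    (h1 : b * S.N ≤ S.B) : b ^ 2 ≤ l ^ 2 * S.N := by
  have hN := h.basic.1
  rw [lam_CLeaf h] at h1
  have h2 := le_of_mul_le_mul_right h1 hN
  have h3 : b ≤ l * √S.N := h2.trans (mul_le_mul_of_nonneg_right h0 (sqrt_nonneg _))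
  have h4 := pow_le_pow_left₀ hb h3 2
  rwa [mul_pow, sq_sqrt hN.le] at h4

theorem be_CLeaf (k j : ℕ) : (be k j : ℝ) = 2097152 + k + 6 * j := by
  simp only [be, cast_nadd, cast_nmul, Nat.cast_ofNat]

theorem sE_CLeaf : 178426174283 * 6 / 2 ^ 40 ≤ 4 * sE ∧ 4 * sE ≤ 178426174284 * 6 / 2 ^ 40 := by
  have h1 := r10_lo
  have h2 := r10_hi
  unfold sE
  constructor <;> norm_num at h1 h2 ⊢ <;> linarith

theorem leafO_sound (h : leafO p c = true) : CovC P p.l0 p.l1 c := by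
  intro S hS h0 h1
  exfalso
  obtain ⟨hN, -, -, hB, -, hQ⟩ := hS.ok.basic
  have e := hS.bal.B_eq
  have s0 := basic_sE_pos
  simp only [leafO, bor_eq] at h
  rcases h with h | h | h
  · have a := ble_cast h
    simp only [sqN, cast_nadd, cast_nmul, cast_shl, Nat.cast_ofNat, Nat.cast_one] at a
    have b0 : (0 : ℝ) ≤ be c.k1 c.j1 := Nat.cast_nonneg _
    have b1 : S.N / 2 + S.K / 6 + S.J P ≤ be c.k1 c.j1 / (6 * 2 ^ 20) * S.N := by
      rw [be_CLeaf]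
      linarith [hS.k1, hS.j1]
    have b2 : S.B ≤ (be c.k1 c.j1 * 178426174284 / 2 ^ 60) * S.N := by
      rw [e]
      refine (mul_le_mul_of_nonneg_left b1 (by positivity)).trans ?_
      refine (mul_le_mul_of_nonneg_right sE_CLeaf.2 (by positivity)).trans_eq ?_
      ring
    have b3 := hi_CLeaf hS.ok (by positivity) h0 b2
    have b4 := mul_le_mul_of_nonneg_left hS.n0 (sq_nonneg ((p.l0 : ℝ) / 2 ^ 20))
    generalize (be c.k1 c.j1 : ℝ) * 178426174284 = X at a b3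
    have b5 := mul_le_mul_of_nonneg_right (b4.trans b3) (show (0 : ℝ) ≤ 2 ^ 120 by positivity)
    have b6 : ((p.l0 : ℝ) / 2 ^ 20) ^ 2 * (c.n0 / 2 ^ 20) * 2 ^ 120
        = p.l0 * p.l0 * c.n0 * 2 ^ 60 := by ring
    have b7 : (X / 2 ^ 60) ^ 2 * 2 ^ 120 = X * X := by ring
    rw [b6, b7] at b5
    linarith
  · have a := ble_cast h
    simp only [sqN, cast_nadd, cast_nmul, cast_shl, Nat.cast_ofNat, Nat.cast_one] at a
    have b0 : (0 : ℝ) ≤ be c.k0 c.j0 := Nat.cast_nonneg _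
    have b1 : be c.k0 c.j0 / (6 * 2 ^ 20) * S.N ≤ S.N / 2 + S.K / 6 + S.J P := by
      rw [be_CLeaf]
      linarith [hS.k0, hS.j0]
    have b2 : (be c.k0 c.j0 * 178426174283 / 2 ^ 60) * S.N ≤ S.B := by
      rw [e]
      refine le_trans ?_ (mul_le_mul_of_nonneg_left b1 (by positivity))
      refine le_of_eq_of_le ?_ (mul_le_mul_of_nonneg_right sE_CLeaf.1 (by positivity))
      ring
    have b3 := lo_CLeaf hS.ok (by positivity) h1 b2
    have b4 := mul_le_mul_of_nonneg_left hS.n1 (sq_nonneg ((p.l1 : ℝ) / 2 ^ 20))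
    generalize (be c.k0 c.j0 : ℝ) * 178426174283 = X at a b3
    have b5 := mul_le_mul_of_nonneg_right (b3.trans b4) (show (0 : ℝ) ≤ 2 ^ 120 by positivity)
    have b6 : ((p.l1 : ℝ) / 2 ^ 20) ^ 2 * (c.n1 / 2 ^ 20) * 2 ^ 120
        = p.l1 * p.l1 * c.n1 * 2 ^ 60 := by ring
    have b7 : (X / 2 ^ 60) ^ 2 * 2 ^ 120 = X * X := by ring
    rw [b6, b7] at b5
    linarith
  · have a := ble_cast h
    simp only [cast_nadd, Nat.cast_one] at a
    have b1 : (c.q0 : ℝ) / 2 ^ 20 ≤ S.N :=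
      le_of_mul_le_mul_right (hS.q0.trans (hQ.trans_eq (sq _))) hN
    have b2 := hS.n1
    linarith

theorem CovC.sN {l0 l1 n0 n1 k0 k1 j0 j1 q0 q1 : ℕ} (m : ℕ)
    (a : CovC P l0 l1 ⟨n0, m, k0, k1, j0, j1, q0, q1⟩)
    (b : CovC P l0 l1 ⟨m, n1, k0, k1, j0, j1, q0, q1⟩) :
    CovC P l0 l1 ⟨n0, n1, k0, k1, j0, j1, q0, q1⟩ := by
  intro S h
  rcases le_total S.N ((m : ℝ) / 2 ^ 20) with d | d
  · exact a S ⟨h.ok, h.pos, h.bal, h.n0, d, h.k0, h.k1, h.j0, h.j1, h.q0, h.q1⟩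
  · exact b S ⟨h.ok, h.pos, h.bal, d, h.n1, h.k0, h.k1, h.j0, h.j1, h.q0, h.q1⟩

theorem CovC.sK {l0 l1 n0 n1 k0 k1 j0 j1 q0 q1 : ℕ} (m : ℕ)
    (a : CovC P l0 l1 ⟨n0, n1, k0, m, j0, j1, q0, q1⟩)
    (b : CovC P l0 l1 ⟨n0, n1, m, k1, j0, j1, q0, q1⟩) :
    CovC P l0 l1 ⟨n0, n1, k0, k1, j0, j1, q0, q1⟩ := by
  intro S h
  rcases le_total S.K (((m : ℝ) / 2 ^ 20 - 1) * S.N) with d | d
  · exact a S ⟨h.ok, h.pos, h.bal, h.n0, h.n1, h.k0, d, h.j0, h.j1, h.q0, h.q1⟩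
  · exact b S ⟨h.ok, h.pos, h.bal, h.n0, h.n1, d, h.k1, h.j0, h.j1, h.q0, h.q1⟩

theorem CovC.sJ {l0 l1 n0 n1 k0 k1 j0 j1 q0 q1 : ℕ} (m : ℕ)
    (a : CovC P l0 l1 ⟨n0, n1, k0, k1, j0, m, q0, q1⟩)
    (b : CovC P l0 l1 ⟨n0, n1, k0, k1, m, j1, q0, q1⟩) :
    CovC P l0 l1 ⟨n0, n1, k0, k1, j0, j1, q0, q1⟩ := by
  intro S h
  rcases le_total (S.J P) ((m : ℝ) / 2 ^ 20 * S.N) with d | d
  · exact a S ⟨h.ok, h.pos, h.bal, h.n0, h.n1, h.k0, h.k1, h.j0, d, h.q0, h.q1⟩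
  · exact b S ⟨h.ok, h.pos, h.bal, h.n0, h.n1, h.k0, h.k1, d, h.j1, h.q0, h.q1⟩

theorem CovC.sQ {l0 l1 n0 n1 k0 k1 j0 j1 q0 q1 : ℕ} (m : ℕ)
    (a : CovC P l0 l1 ⟨n0, n1, k0, k1, j0, j1, q0, m⟩)
    (b : CovC P l0 l1 ⟨n0, n1, k0, k1, j0, j1, m, q1⟩) :
    CovC P l0 l1 ⟨n0, n1, k0, k1, j0, j1, q0, q1⟩ := by
  intro S h
  rcases le_total S.Q ((m : ℝ) / 2 ^ 20 * S.N) with d | d
  · exact a S ⟨h.ok, h.pos, h.bal, h.n0, h.n1, h.k0, h.k1, h.j0, h.j1, h.q0, d⟩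
  · exact b S ⟨h.ok, h.pos, h.bal, h.n0, h.n1, h.k0, h.k1, h.j0, h.j1, d, h.q1⟩

theorem chkC_sound (hp : p.Ok P) (t : CT) : ∀ c : Cel, chkC p t c = true → CovC P p.l0 p.l1 c := by
  induction t with
  | lf u st fs sg => exact fun c h S hS _ _ => leafK_sound hp (L := ⟨u, st, fs, sg⟩) h hS
  | z n i => exact fun c h S hS _ _ => (leafZ_sound hp (n := n) (i := i) h hS).elim
  | out => exact fun c h => leafO_sound h
  | nd d l r ihl ihr =>
    rintro ⟨n0, n1, k0, k1, j0, j1, q0, q1⟩ h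
    have e : chkC p (.nd d l r) = spl d (chkC p l) (chkC p r) := rfl
    rw [e] at h
    dsimp only [spl] at h
    simp only [force_eq] at h
    cases h1 : Nat.ble d 1
    · cases h2 : Nat.ble d 2
      · rw [h1, h2, ite'_false, ite'_false, band_eq] at h
        exact CovC.sQ _ (ihl _ h.1) (ihr _ h.2)
      · rw [h1, h2, ite'_false, ite'_true, band_eq] at h
        exact CovC.sJ _ (ihl _ h.1) (ihr _ h.2)
    · cases h2 : Nat.ble d 0
      · rw [h1, h2, ite'_true, ite'_false, band_eq] at h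
        exact CovC.sK _ (ihl _ h.1) (ihr _ h.2)
      · rw [h1, h2, ite'_true, ite'_true, band_eq] at h
        exact CovC.sN _ (ihl _ h.1) (ihr _ h.2)

theorem pos_CLeaf {a b : ℝ} (h : 0 < a ^ 2 * b) : 0 < a ^ 2 :=
  (sq_nonneg a).lt_of_ne fun e => by rw [← e, zero_mul] at h; exact lt_irrefl _ h

/-- From the root cell to all systems with Lyapunov ratio in a range. -/
theorem root_cov (hP : P = JI ∨ P = JIII) {l0 l1 a b q : ℕ}
    (h : CovC P l0 l1 ⟨a, b, 0, 2097152, 0, 294912, 0, q⟩)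
    (ha : a * l1 ^ 2 * 10000 ≤ 1681 * 2 ^ 60) (hb : 7225 * 2 ^ 60 ≤ b * l0 ^ 2 * 10000)
    (hq : b ≤ q) {S : Sys} (hS : S.Ok) (h0 : (l0 : ℝ) / 2 ^ 20 ≤ S.lam)
    (h1 : S.lam ≤ (l1 : ℝ) / 2 ^ 20) : S.Bound := by
  obtain ⟨ρ, hρ, bal⟩ := exists_bal hP hS
  obtain ⟨ok, e, back⟩ := hS.scale hρ
  rw [← e] at h0 h1
  apply back
  generalize S.scale ρ = T at bal ok h0 h1 ⊢
  have pos : T.JPos P := by
    rcases hP with rfl | rfl
    · exact ok.JI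
    · exact ok.JIII
  obtain ⟨hN, -, -, -, hQ0, hQ⟩ := ok.basic
  obtain ⟨b1, b2, b3, b4, b5⟩ := bal.box hP ok
  have c1 := lo_CLeaf ok (by norm_num) h1 b1
  have c2 := hi_CLeaf ok (by positivity) h0 b2
  have ha' : (a : ℝ) * l1 ^ 2 * 10000 ≤ 1681 * 2 ^ 60 := by exact_mod_cast ha
  have hb' : (7225 : ℝ) * 2 ^ 60 ≤ b * l0 ^ 2 * 10000 := by exact_mod_cast hb
  have hq' : (b : ℝ) ≤ q := by exact_mod_cast hq
  have n0 : (a : ℝ) / 2 ^ 20 ≤ T.N := by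
    have d0 : 0 < ((l1 : ℝ) / 2 ^ 20) ^ 2 :=
      pos_CLeaf (lt_of_lt_of_le (by norm_num) c1)
    refine le_of_mul_le_mul_left (le_trans ?_ c1) d0
    have d1 : ((l1 : ℝ) / 2 ^ 20) ^ 2 * (a / 2 ^ 20) = a * l1 ^ 2 * 10000 / (10000 * 2 ^ 60) := by
      ring
    rw [d1, div_le_iff₀ (by positivity)]
    refine ha'.trans_eq ?_
    norm_num
  have n1 : T.N ≤ (b : ℝ) / 2 ^ 20 := by
    have d1 : ((l0 : ℝ) / 2 ^ 20) ^ 2 * (b / 2 ^ 20) = b * l0 ^ 2 * 10000 / (10000 * 2 ^ 60) := by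
      ring
    have d2 : (0.85 : ℝ) ^ 2 ≤ ((l0 : ℝ) / 2 ^ 20) ^ 2 * (b / 2 ^ 20) := by
      rw [d1, le_div_iff₀ (by positivity)]
      refine le_of_eq_of_le ?_ hb'
      norm_num
    have d0 : 0 < ((l0 : ℝ) / 2 ^ 20) ^ 2 :=
      pos_CLeaf (lt_of_lt_of_le (by norm_num) d2)
    exact le_of_mul_le_mul_left (c2.trans d2) d0
  refine h T ⟨ok, pos, bal, n0, n1, ?_, ?_, ?_, ?_, ?_, ?_⟩ h0 h1
  · norm_num; linarith
  · norm_num; linarith
  · simpa using pos.le_tot.1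
  · norm_num; linarith
  · simpa using hQ0.le
  · refine hQ.trans ?_
    rw [sq]
    exact mul_le_mul_of_nonneg_right (n1.trans (by dsimp only; gcongr)) hN.le

end Pool.Agent.Lib.MP_33650d_pr.X
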