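import Pool.Agent.Lib.MP_33650d_pr.X.CDef

namespace Pool.Agent.Lib.MP_33650d_pr.X

/-! Leaves with multipliers for entries that cut off impossible moments, and trees with explicit
positions of the cuts. -/

noncomputable def gr (p : Pm) (K r : ℕ) : ℕ :=
  bt K (Nat.add (Nat.add 64 (Nat.mul 96 p.J)) (Nat.mul 64 r)) 18446744073709551616
noncomputable def gi (x : ℕ) : ℕ := bt x 0 65536
noncomputable def gf (x : ℕ) : ℕ := bt x 16 256
noncomputable def gw (x : ℕ) : ℕ := Nat.shiftRight x 24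

noncomputable def gOK (p : Pm) (c : Cel) (x : ℕ) : Bool :=
  bor (Nat.beq x 0) (force (gf x) fun n => band (Nat.ble 1 n) (band (entOK p c n 1 (gi x))
    (Nat.beq (force (gi x) fun i => ef p i 1) 140737488355328)))

noncomputable def gE (p : Pm) (x : ℕ) (v : Vx) : ℕ := force (gf x) fun n => eVF p n (gi x) v
noncomputable def gT (p : Pm) (v : Vx) (x : ℕ) : ℕ :=
  ite' (Nat.beq x 0) 0 (Nat.mul (gw x) (gE p x v))
noncomputable def gP3 (p : Pm) (K : ℕ) (v : Vx) : ℕ := sumN 3 fun r => force (gr p K r) (gT p v)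
noncomputable def gN3 (p : Pm) (K : ℕ) : ℕ := Nat.shiftLeft (sumN 3 fun r => gw (gr p K r)) 44
noncomputable def gS (p : Pm) (K s : ℕ) (v : Vx) : ℕ := Nat.sub (Nat.add s (gP3 p K v)) (gN3 p K)

noncomputable def segG (p : Pm) (c : Cel) (L : Lf) (ph : Bool) (g : Sg) : Bool :=
  band (allN 3 fun r => force (gr p g.K r) (gOK p c))
  (band (bor (Bool.not ph) (Nat.ble 4294967296 (zz p c g)))
  (band (allN p.J fun j => bor (Nat.beq (nf L j) 0) (rsOK p L g j))
    (force (kC g.K) fun a => allV p c fun v => fin p c g ph (XP p L g v) (XN p L g) a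
      (gS p g.K (Nat.add (Nat.add (Nat.shiftLeft (kA g.K) 30) (mS p L g v)) (fS p L g)) v) v)))

noncomputable def leafG (p : Pm) (c : Cel) (L : Lf) : Bool :=
  band (band (band (force c.n0 hOK) (force c.n1 hOK))
    (band (force c.n0 (phOK p)) (force c.n1 (phOK p))))
  (band (Nat.ble (sumN p.J (nf L)) 64)
  (band (allN p.J (recOK p c L))
  (band (allV p c fun v => Nat.ble (sumF p L fun _ n _ x => bF p n x v) 274877906944)
  (band (mkS (kr p L 0) (ln L 0) 1 (segG p c L false))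
  (band (mkS 0 (ln L (ns L)) 1 (segR p c))
    (allN (ns L) fun k => band (Nat.ble (Nat.add (ln L k) 1) (ln L (Nat.add k 1)))
      (mkS (kr p L (Nat.add k 1)) (ln L k)
        (Nat.sub (Nat.add (ln L (Nat.add k 1)) 1) (ln L k)) (segG p c L true))))))))

inductive CU where
  | lf : ℕ → ℕ → ℕ → ℕ → CU
  | z : ℕ → ℕ → CU
  | out : CU
  | nd : ℕ → ℕ → CU → CU → CU

noncomputable def spm (d m : ℕ) (f g : Cel → Bool) (c : Cel) : Bool :=
  Cel.rec (motive := fun _ => Bool) (fun n0 n1 k0 k1 j0 j1 q0 q1 =>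
    ite' (Nat.ble d 1)
      (ite' (Nat.ble d 0)
        (band (f ⟨n0, m, k0, k1, j0, j1, q0, q1⟩) (g ⟨m, n1, k0, k1, j0, j1, q0, q1⟩))
        (band (f ⟨n0, n1, k0, m, j0, j1, q0, q1⟩) (g ⟨n0, n1, m, k1, j0, j1, q0, q1⟩)))
      (ite' (Nat.ble d 2)
        (band (f ⟨n0, n1, k0, k1, j0, m, q0, q1⟩) (g ⟨n0, n1, k0, k1, m, j1, q0, q1⟩))
        (band (f ⟨n0, n1, k0, k1, j0, j1, q0, m⟩) (g ⟨n0, n1, k0, k1, j0, j1, m, q1⟩)))) c

noncomputable def chkD (p : Pm) (t : CU) : Cel → Bool :=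
  CU.rec (motive := fun _ => Cel → Bool) (fun u st fs sg c => leafG p c ⟨u, st, fs, sg⟩)
    (fun n i c => leafZ p c n i) (fun c => leafO p c) (fun d m _ _ l r => spm d m l r) t

/-- A table with one kernel, for trees without proper leaves. -/
noncomputable def KT0 : BT := .leaf 85070591750041656494409736258475524096

end Pool.Agent.Lib.MP_33650d_pr.X
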