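import Pool.Agent.Lib.MP_33650d_pr.X.CLeaf
import Pool.Agent.Lib.MP_33650d_pr.X.CKChk
import Pool.Agent.Lib.MP_33650d_pr.X.GDef

namespace Pool.Agent.Lib.MP_33650d_pr.X
open MeasureTheory ProbabilityTheory Real

variable {p : Pm} {P : JP} {S : Sys} {c : Cel} {L : Lf}

/-- The real value of one multiplier term. -/
noncomputable def gR (p : Pm) (x : ℕ) (v : Vx) : ℝ :=
  (gw x : ℝ) * 2 ^ 32 * eR p (gf x) (gi x) v

theorem gT_eq (p : Pm) (v : Vx) (x : ℕ) : (gT p v x : ℝ) - (gw x : ℝ) * 2 ^ 44 = gR p x v := by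
  rw [gT, ite_cseg, gR, eR]
  split_ifs with h
  · have : gw x = 0 := by rw [h]; rfl
    rw [this]
    simp
  · rw [cast_nmul, gE, force_eq, eVF, force_eq]
    ring

theorem gS_ge (p : Pm) (K s : ℕ) (v : Vx) :
    (s : ℝ) + ∑ r ∈ Finset.range 3, gR p (gr p K r) v ≤ gS p K s v := by
  have h1 := cast_nsub_ge (Nat.add s (gP3 p K v)) (gN3 p K)
  have e1 : (gP3 p K v : ℝ) = ∑ r ∈ Finset.range 3, (gT p v (gr p K r) : ℝ) := by
    rw [gP3, sumN_eq, Nat.cast_sum]
    exact Finset.sum_congr rfl fun r _ => by rw [force_eq]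
  have e2 : (gN3 p K : ℝ) = ∑ r ∈ Finset.range 3, (gw (gr p K r) : ℝ) * 2 ^ 44 := by
    delta gN3
    rw [cast_shl, sumN_eq, Nat.cast_sum, Finset.sum_mul]
  have e3 : ∑ r ∈ Finset.range 3, gR p (gr p K r) v = (gP3 p K v : ℝ) - gN3 p K := by
    rw [e1, e2, ← Finset.sum_sub_distrib]
    exact Finset.sum_congr rfl fun r _ => (gT_eq p v _).symm
  rw [cast_nadd] at h1
  rw [e3, gS]
  linarith

theorem gR_mean (hp : p.Ok P) (h : In P S c) {M : (Vx → ℝ) →ₗ[ℝ] ℝ} {θ : ℝ}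
    (hM : Mean p P S c M θ) {x : ℕ} (hx : gOK p c x = true) : 0 ≤ M (gR p x) := by
  have e : gR p x = fun v => (gw x : ℝ) * 2 ^ 32 * eR p (gf x) (gi x) v := rfl
  rw [e, smul_cseg hM]
  rw [gOK, bor_eq, force_eq, band_eq, band_eq, force_eq] at hx
  rcases hx with hx | ⟨a1, a2, a3⟩
  · have : gw x = 0 := by rw [Nat.eq_of_beq_eq_true hx]; rfl
    rw [this]
    simp
  · obtain ⟨b1, E, b2, b3⟩ := ent_mean hp h hM (Nat.le_of_ble_eq_true a1) a2
    have b4 := b2.2.1 b1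
    have b5 : (dec (en p (gi x))).ka = 0 := by
      have e : (dec (en p (gi x))).ka = sv (ef p (gi x) 1) := rfl
      rw [e, Nat.eq_of_beq_eq_true a3, sv]
      norm_num
    rw [b5, zero_mul] at b4
    exact mul_nonneg (by positivity) (b4.trans b3)

theorem segG_lane (hp : p.Ok P) (h : In P S c) (hL : LfOK p c L) {g : Sg} (hg : g.Ok)
    (hK : KV p.J g.K) {ph : Bool} (hs : segG p c L ph g = true) {i : ℕ} (hi : i < g.cnt) :
    Gs p L g.K ph S (sl (g.lo + i)) + (if ph then Ms p L g.K S / (8 * 4096 ^ 2) else 0)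
      ≤ tgt S.N S.K (S.J P) := by
  obtain ⟨M, θ, hM⟩ := exists_mean p h
  rw [segG, band_eq, band_eq, band_eq, force_eq, bor_eq] at hs
  obtain ⟨hg3, hz, hr, hf⟩ := hs
  have h4 : ph = true → 2 ^ 32 ≤ zz p c g := by
    intro e
    rcases hz with hz | hz
    · rw [e] at hz
      exact absurd hz (by decide)
    · exact Nat.le_of_ble_eq_true hz
  have ha : kC g.K ≤ 2 ^ 32 := (bt_lt _ _ (by norm_num)).le
  have hc := core_cseg (G := fun v => ((kA g.K : ℝ) * 2 ^ 30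
      + 1 * ∑ j ∈ Finset.range p.J, G_cseg p L g i j v)
      + ∑ r ∈ Finset.range 3, gR p (gr p g.K r) v)
    hp h hL hg hM (fun v hv => xp_rep_cseg hL hg hv) (xn_rep_cseg hL hg) ha h4
    (fun v hv => allV_spec hf hv) hi (fun v _ => by
      have c1 := G_le_cseg p L g i v
      have c2 := gS_ge p g.K
        (Nat.add (Nat.add (Nat.shiftLeft (kA g.K) 30) (mS p L g v)) (fS p L g)) v
      linarith)
  have hG : 0 ≤ ∑ r ∈ Finset.range 3, M (gR p (gr p g.K r)) :=
    Finset.sum_nonneg fun r hr => gR_mean hp h hM (by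
      have := allN_spec hg3 r (Finset.mem_range.1 hr)
      rwa [force_eq] at this)
  rw [Mean.add', hM.aff, Mean.sum', Mean.sum', one_mul] at hc
  have hs := Finset.sum_le_sum fun j (hj : j ∈ Finset.range p.J) =>
    G_ge_cseg hp h hL hg hK hM hi (Finset.mem_range.1 hj) (allN_spec hr j (Finset.mem_range.1 hj))
  rw [← Finset.sum_mul, Finset.sum_add_distrib, ← Finset.sum_div] at hs
  have hB : 0 ≤ ∑ j ∈ Finset.range p.J,
      (if nf L j = 0 then 0 else (2 * π * (j + 1)) ^ 2 * rK g.K j) := by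
    refine Finset.sum_nonneg fun j _ => ?_
    split_ifs
    · exact le_rfl
    · rw [rK]; positivity
  rw [Gs, Ms, aK, cK, add_div]
  generalize ∑ j ∈ Finset.range p.J,
      (if nf L j = 0 then 0 else (2 * π * (j + 1)) ^ 2 * rK g.K j) = B at hs hB ⊢
  generalize ∑ j ∈ Finset.range p.J, M (G_cseg p L g i j) = D at hs hc
  generalize ∑ r ∈ Finset.range 3, M (gR p (gr p g.K r)) = U at hG hc
  generalize (kC g.K : ℝ) / 2 ^ 30
    * (S.N / (p.P : ℝ) ^ 2 + sl (g.lo + i) ^ 2 + sl (g.lo + i)) = C at hc ⊢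
  generalize 0.26 * (p.P : ℝ) ^ 2 / S.N / (8 * 4096 ^ 2) = E at hc ⊢
  cases ph
  · simp only [Bool.false_eq_true, if_false] at hc ⊢
    linarith
  · simp only [if_true] at hc ⊢
    linarith

theorem leafG_sound (hp : p.Ok P) (h : leafG p c L = true) (hS : In P S c) : S.Bound := by
  simp only [leafG, band_eq, force_eq, mkS_CLeaf] at h
  obtain ⟨⟨⟨a1, a2⟩, a3, a4⟩, a5, a6, a7, a8, a9, a10⟩ := h
  have hL : LfOK p c L := ⟨a1, a2, a3, a4, Nat.le_of_ble_eq_true a5, allN_spec a6,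
    fun v hv => Nat.le_of_ble_eq_true (allV_spec a7 hv)⟩
  have hP : (0 : ℝ) < p.P := by exact_mod_cast hp.P0
  have hN : 0 < √S.N := sqrt_pos.2 hS.ok.basic.1
  have := hS.ok.prob
  intro y
  obtain ⟨s, rfl⟩ : ∃ s, y = p.P * s := ⟨y / p.P, by field_simp⟩
  rw [hS.bal.tgt_eq]
  rcases le_or_gt s (sl (ln L 0)) with b | b
  · have g1 : Sg.Ok ⟨kr p L 0, ln L 0, 1⟩ := ⟨le_rfl, ln_lt_CLeaf L 0⟩
    have c1 := segG_lane hp hS hL g1 (kr_CLeaf hp L 0) a8 (i := 0) Nat.one_pos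
    have c2 := kernel_le hS.ok hp.P0 (kr_CLeaf hp L 0) L (sl (ln L 0))
    have c3 : S.ν.real (Set.Iic (p.P * s)) ≤ S.ν.real (Set.Iic (p.P * sl (ln L 0))) :=
      measureReal_mono (Set.Iic_subset_Iic.2 (mul_le_mul_of_nonneg_left b hP.le))
    have c4 := Phi_nonneg (p.P * s / √S.N)
    simp only [Bool.false_eq_true, if_false, add_zero] at c1
    linarith
  rcases le_total (sl (ln L (ns L))) s with d | d
  · have g1 : Sg.Ok ⟨0, ln L (ns L), 1⟩ := ⟨le_rfl, ln_lt_CLeaf L _⟩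
    have c1 := segR_lane hp hS hL g1 a9
    have c2 : Phi (p.P * sl (ln L (ns L)) / √S.N) ≤ Phi (p.P * s / √S.N) :=
      Phi_mono (div_le_div_of_nonneg_right (mul_le_mul_of_nonneg_left d hP.le) hN.le)
    have c3 : S.ν.real (Set.Iic (p.P * s)) ≤ 1 := measureReal_le_one
    dsimp only at c1
    linarith
  obtain ⟨k, hk, e1, e2⟩ := find_CLeaf (fun k => sl (ln L k)) b (ns L) d
  have f1 := allN_spec a10 k hk
  simp only [band_eq, Nat.add_eq, Nat.sub_eq, Nat.ble_eq] at f1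
  obtain ⟨f1, f2⟩ := f1
  have f3 := ln_lt_CLeaf L (k + 1)
  have g1 : Sg.Ok ⟨kr p L (k + 1), ln L k, ln L (k + 1) + 1 - ln L k⟩ :=
    ⟨by dsimp only; omega, by dsimp only; omega⟩
  have c1 := Gs_interp hS.ok hp.P0 (kr_CLeaf hp L (k + 1)) L (lo := ln L k) (hi := ln L (k + 1))
    f1 (T := tgt S.N S.K (S.J P)) (fun i i1 i2 => by
      obtain ⟨t, rfl⟩ := Nat.exists_eq_add_of_le i1
      have c2 := segG_lane hp hS hL g1 (kr_CLeaf hp L (k + 1)) f2 (i := t)
        (by dsimp only; omega)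
      simpa only [if_true] using c2) e1 e2
  have c2 := kernel_le hS.ok hp.P0 (kr_CLeaf hp L (k + 1)) L s
  rw [Gs_CLeaf] at c1
  linarith

theorem chkD_sound (hp : p.Ok P) (t : CU) :
    ∀ c : Cel, chkD p t c = true → CovC P p.l0 p.l1 c := by
  induction t with
  | lf u st fs sg => exact fun c h S hS _ _ => leafG_sound hp (L := ⟨u, st, fs, sg⟩) h hS
  | z n i => exact fun c h S hS _ _ => (leafZ_sound hp (n := n) (i := i) h hS).elim
  | out => exact fun c h => leafO_sound h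
  | nd d m l r ihl ihr =>
    rintro ⟨n0, n1, k0, k1, j0, j1, q0, q1⟩ h
    have e : chkD p (.nd d m l r) = spm d m (chkD p l) (chkD p r) := rfl
    rw [e] at h
    dsimp only [spm] at h
    cases h1 : Nat.ble d 1
    · cases h2 : Nat.ble d 2
      · rw [h1, h2, ite'_false, ite'_false, band_eq] at h
        exact CovC.sQ _ (ihl _ h.1) (ihr _ h.2)
      · rw [h1, h2, ite'_false, ite'_true, band_eq] at h
        exact CovC.sJ _ (ihl _ h.1) (ihr _ h.2)
    · cases h2 : Nat.ble d 0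
      · rw [h1, h2, ite'_true, ite'_false, band_eq] at h
        exact CovC.sK _ (ihl _ h.1) (ihr _ h.2)
      · rw [h1, h2, ite'_true, ite'_true, band_eq] at h
        exact CovC.sN _ (ihl _ h.1) (ihr _ h.2)

theorem KT0_ok : KT0.All (KV 1) := chkKT_sound (by decide) (by decide +kernel)

end Pool.Agent.Lib.MP_33650d_pr.X
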