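import Pool.Agent.Lib.MP_33650d_pr.X.Defs
import Pool.Agent.Lib.MP_33650d_pr.Law

namespace Pool.Agent.Lib.MP_33650d_pr.X
open MeasureTheory ProbabilityTheory Real

theorem r10_sq : r10 ^ 2 = 10 := by
  exact sq_sqrt (by norm_num)

theorem r10_lo : 3.16227766016837 < r10 := by
  exact lt_sqrt_of_sq_lt (by norm_num)

theorem r10_hi : r10 < 3.16227766016838 := by
  exact (sqrt_lt' (by norm_num)).2 (by norm_num)

theorem Cp_sE : Cp * (4 * sE) = 1 := by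
  unfold Cp sE
  linear_combination r10_sq

lemma basic_pE : 0 < pE := by
  unfold pE; linarith [r10_hi]

lemma basic_qE : 0 < qE := by
  unfold qE; linarith [r10_lo]

lemma basic_sE : 0.2434 ≤ sE ∧ sE ≤ 0.2435 := by
  unfold sE; constructor <;> linarith [r10_lo, r10_hi]

lemma basic_sE_pos : 0 < sE := by
  linarith [basic_sE.1]

lemma basic_c3 : 0.2412 ≤ c3 ∧ c3 ≤ 0.2413 := by
  unfold c3; constructor <;> linarith [r10_lo, r10_hi]

lemma basic_sin_sq {y : ℝ} (h : 0 ≤ y) : y - y ^ 2 / 3 ≤ sin y := by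
  have p1 := pi_gt_d2
  have p2 := pi_lt_d2
  rcases le_total y 2 with a | a
  · nlinarith [lw_sin3 h, mul_nonneg (sq_nonneg y) (sub_nonneg.2 a)]
  rw [← sin_pi_sub]
  rcases le_total y π with b | b
  · have c := lw_sin3 (sub_nonneg.2 b)
    have e : 0 ≤ (π - y) ^ 2 * (2 - (π - y)) := mul_nonneg (sq_nonneg _) (by linarith)
    have f : 0 ≤ (π - 3) * (y - 2) := mul_nonneg (by linarith) (by linarith)
    nlinarith
  · have c := le_sin (sub_nonpos.2 b)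
    nlinarith [sq_nonneg (y - 3)]

theorem YD.Lin.nonneg {d : YD} (h : d.Lin) : 0 ≤ d.s ∧ 0 ≤ d.bp ∧ 0 ≤ d.bm := by
  refine ⟨?_, ?_, ?_⟩
  · simpa using h 0 0 0 0 1 0 0 (fun w _ => by simp; positivity) fun w _ => by simp; positivity
  · simpa using h 0 0 0 0 0 1 0 (fun w _ => by simp; positivity) fun w _ => by simp
  · simpa using h 0 0 0 0 0 0 1 (fun w _ => by simp) fun w _ => by simp; positivity

theorem YD.f_re (d : YD) : ‖d.f‖ * cos (Complex.arg d.f) = d.C := by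
  rw [Complex.norm_mul_cos_arg]; simp [YD.f]

theorem YD.f_im (d : YD) : ‖d.f‖ * sin (Complex.arg d.f) = d.S := by
  rw [Complex.norm_mul_sin_arg]; simp [YD.f]

theorem YD.Lin.norm_le {d : YD} (h : d.Lin) : ‖d.f‖ ≤ 1 := by
  have := h (cos (Complex.arg d.f)) (sin (Complex.arg d.f)) 1 0 0 0 0
    (fun w _ => by rw [← cos_sub]; simpa using cos_le_one _)
    fun w _ => by rw [← cos_add]; simpa using cos_le_one _
  rw [← d.f_re, ← d.f_im] at this
  nlinarith [sin_sq_add_cos_sq (Complex.arg d.f)]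

theorem YD.Lin.cube {d : YD} (h : d.Lin) : d.s * √d.s ≤ d.bp + d.bm := by
  have a : ∀ w : ℝ, 0 ≤ w → 0 ≤ √d.s ^ 3 / 2 + -(3 / 2 * √d.s) * w ^ 2 + w ^ 3 := fun w hw => by
    nlinarith [mul_nonneg (sq_nonneg (w - √d.s)) (show 0 ≤ w + √d.s / 2 by positivity)]
  have := h 0 0 (√d.s ^ 3 / 2) 0 (-(3 / 2 * √d.s)) 1 1 (fun w hw => by linarith [a w hw])
    fun w hw => by linarith [a w hw]
  have b : d.s * √d.s = √d.s ^ 3 := by
    rw [pow_succ, sq_sqrt h.nonneg.1]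
  linarith

theorem YD.Lin.mirror {s bp bm C S : ℝ} (h : YD.Lin ⟨s, bp, bm, C, S⟩) :
    YD.Lin ⟨s, bm, bp, C, -S⟩ := by
  intro c σ c0 a m np nm h1 h2
  have := h c (-σ) c0 (-a) m nm np (fun w b => by linarith [h2 w b]) fun w b => by
    linarith [h1 w b]
  dsimp only at this ⊢
  linarith

theorem YD.Lin.S_cube {d : YD} (h : d.Lin) : -(d.bp / 6) ≤ d.S ∧ d.S ≤ d.bm / 6 := by
  have a1 := h 0 1 0 1 0 0 (1 / 6) (fun w hw => by linarith [sin_le hw]) fun w hw => by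
    linarith [lw_sin3 hw]
  have a2 := h 0 (-1) 0 (-1) 0 (1 / 6) 0 (fun w hw => by linarith [lw_sin3 hw]) fun w hw => by
    linarith [sin_le hw]
  constructor <;> linarith

theorem YD.Lin.S_sq {d : YD} (h : d.Lin) : |d.S| ≤ d.s / 3 := by
  have a1 := h 0 1 0 1 (1 / 3) 0 0 (fun w hw => by linarith [sin_le hw, sq_nonneg w])
    fun w hw => by linarith [basic_sin_sq hw]
  have a2 := h 0 (-1) 0 (-1) (1 / 3) 0 0 (fun w hw => by linarith [basic_sin_sq hw])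
    fun w hw => by linarith [sin_le hw, sq_nonneg w]
  exact abs_le.2 ⟨by linarith, by linarith⟩

theorem YD.Lin.C_ge {d : YD} (h : d.Lin) : 1 - d.s / 2 ≤ d.C ∧ d.C ≤ 1 := by
  have a1 := h (-1) 0 (-1) 0 (1 / 2) 0 0
    (fun w _ => by linarith [one_sub_sq_div_two_le_cos (x := w)])
    fun w _ => by linarith [one_sub_sq_div_two_le_cos (x := w)]
  have a2 := h 1 0 1 0 0 0 0 (fun w _ => by linarith [cos_le_one w])
    fun w _ => by linarith [cos_le_one w]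
  constructor <;> linarith

theorem YD.Lin.cos_le {d : YD} (h : d.Lin) (h1 : √d.s ≤ π / 2) : cos √d.s ≤ d.C := by
  have b := sq_sqrt h.nonneg.1
  rcases (sqrt_nonneg d.s).eq_or_lt with a | a
  · have := h.C_ge.1
    rw [← a] at b ⊢
    rw [cos_zero]
    linarith
  · have := h (-1) 0 (-(cos √d.s + sin √d.s / (2 * √d.s) * √d.s ^ 2)) 0
      (sin √d.s / (2 * √d.s)) 0 0
      (fun w hw => by linarith [lw_tang a h1 hw]) fun w hw => by linarith [lw_tang a h1 hw]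
    rw [b] at this
    linarith

/-- Polynomial inequalities can be integrated. -/
def Mom (s bp bm : ℝ) : Prop :=
  ∀ c0 a m np nm : ℝ, (∀ x : ℝ, 0 ≤ x → 0 ≤ c0 + a * x + m * x ^ 2 + np * x ^ 3) →
    (∀ x : ℝ, 0 ≤ x → 0 ≤ c0 - a * x + m * x ^ 2 + nm * x ^ 3) →
    0 ≤ c0 + m * s + np * bp + nm * bm

theorem mom_of_lin {t s bp bm C S : ℝ} (ht : 0 < t)
    (h : YD.Lin ⟨t ^ 2 * s, t ^ 3 * bp, t ^ 3 * bm, C, S⟩) : Mom s bp bm := by
  intro c0 a m np nm h1 h2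
  have t0 := ht.ne'
  have := h 0 0 c0 (a / t) (m / t ^ 2) (np / t ^ 3) (nm / t ^ 3)
    (fun y hy => by
      have b := h1 (y / t) (div_nonneg hy ht.le)
      rw [zero_mul, zero_mul, add_zero]
      refine b.trans_eq ?_
      field_simp)
    fun y hy => by
      have b := h2 (y / t) (div_nonneg hy ht.le)
      rw [zero_mul, zero_mul, sub_zero]
      refine b.trans_eq ?_
      field_simp
  rw [zero_mul, zero_mul, add_zero] at this
  refine this.trans_eq ?_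
  dsimp only
  field_simp

theorem Mom.scale {s bp bm : ℝ} (h : Mom s bp bm) {t : ℝ} (ht : 0 < t) :
    Mom (t ^ 2 * s) (t ^ 3 * bp) (t ^ 3 * bm) := by
  intro c0 a m np nm h1 h2
  have := h c0 (a * t) (m * t ^ 2) (np * t ^ 3) (nm * t ^ 3)
    (fun x hx => (h1 (t * x) (mul_nonneg ht.le hx)).trans_eq (by ring))
    fun x hx => (h2 (t * x) (mul_nonneg ht.le hx)).trans_eq (by ring)
  exact this.trans_eq (by ring)

theorem Mom.nonneg {s bp bm : ℝ} (h : Mom s bp bm) : 0 ≤ s ∧ 0 ≤ bp ∧ 0 ≤ bm := by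
  refine ⟨?_, ?_, ?_⟩
  · simpa using h 0 0 1 0 0 (fun w _ => by simp; positivity) fun w _ => by simp; positivity
  · simpa using h 0 0 0 1 0 (fun w _ => by simp; positivity) fun w _ => by simp
  · simpa using h 0 0 0 0 1 (fun w _ => by simp) fun w _ => by simp; positivity

theorem Mom.cube {s bp bm : ℝ} (h : Mom s bp bm) : s * √s ≤ bp + bm := by
  have a : ∀ w : ℝ, 0 ≤ w → 0 ≤ √s ^ 3 / 2 + -(3 / 2 * √s) * w ^ 2 + w ^ 3 := fun w hw => by
    nlinarith [mul_nonneg (sq_nonneg (w - √s)) (show 0 ≤ w + √s / 2 by positivity)]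
  have := h (√s ^ 3 / 2) 0 (-(3 / 2 * √s)) 1 1 (fun w hw => by linarith [a w hw])
    fun w hw => by linarith [a w hw]
  have b : s * √s = √s ^ 3 := by
    rw [pow_succ, sq_sqrt h.nonneg.1]
  linarith

/-- The extremal cubic. -/
theorem D_pos (x : ℝ) : x ^ 3 - c3 * x ^ 3 - 12 * sE ^ 2 * x ^ 2 + 6 * sE ^ 2 * dE * x + 4 * sE ^ 3
    = 2 * pE ^ 2 * (x - qE) ^ 2 * ((1 + 2 * qE) * x + 2 * sE) := by
  unfold c3 sE dE pE qE
  linear_combination (117 / 4 + 85 / 4 * x + 31 / 2 * x ^ 2 + 9 / 2 * x ^ 3 - 93 / 4 * r10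
    - 61 / 4 * r10 * x - 7 * r10 * x ^ 2 - 1 / 2 * r10 * x ^ 3 + 45 / 8 * r10 ^ 2
    + 25 / 8 * r10 ^ 2 * x + 1 / 2 * r10 ^ 2 * x ^ 2 - 3 / 8 * r10 ^ 3
    - 1 / 8 * r10 ^ 3 * x) * r10_sq

theorem D_neg (x : ℝ) : x ^ 3 + c3 * x ^ 3 - 12 * sE ^ 2 * x ^ 2 - 6 * sE ^ 2 * dE * x + 4 * sE ^ 3
    = 2 * qE ^ 2 * (x - pE) ^ 2 * ((1 + 2 * pE) * x + 2 * sE) := by
  unfold c3 sE dE pE qE
  linear_combination (117 / 4 - 101 / 4 * x + 37 / 2 * x ^ 2 - 9 / 2 * x ^ 3 - 93 / 4 * r10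
    + 73 / 4 * r10 * x - 8 * r10 * x ^ 2 + 1 / 2 * r10 * x ^ 3 + 45 / 8 * r10 ^ 2
    - 29 / 8 * r10 ^ 2 * x + 1 / 2 * r10 ^ 2 * x ^ 2 - 3 / 8 * r10 ^ 3
    + 1 / 8 * r10 ^ 3 * x) * r10_sq

theorem Mom.D {s bp bm : ℝ} (h : Mom s bp bm) :
    12 * sE ^ 2 * s ≤ (1 - c3) * bp + (1 + c3) * bm + 4 * sE ^ 3 := by
  have p0 := basic_pE
  have q0 := basic_qE
  have s0 := basic_sE_pos
  have := h (4 * sE ^ 3) (6 * sE ^ 2 * dE) (-(12 * sE ^ 2)) (1 - c3) (1 + c3)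
    (fun x hx => by
      have b : 0 ≤ 2 * pE ^ 2 * (x - qE) ^ 2 * ((1 + 2 * qE) * x + 2 * sE) := by positivity
      linarith [D_pos x])
    fun x hx => by
      have b : 0 ≤ 2 * qE ^ 2 * (x - pE) ^ 2 * ((1 + 2 * pE) * x + 2 * sE) := by positivity
      linarith [D_neg x]
  linarith

theorem Mom.D' {s bp bm : ℝ} (h : Mom s bp bm) :
    8 * (sE * √sE) * (s * √s) ≤ (1 - c3) * bp + (1 + c3) * bm := by
  obtain ⟨h1, h2, h3⟩ := h.nonneg
  have c := basic_c3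
  rcases h1.eq_or_lt with rfl | h1
  · have := mul_nonneg (show 0 ≤ 1 - c3 by linarith) h2
    have := mul_nonneg (show 0 ≤ 1 + c3 by linarith) h3
    simp only [zero_mul, mul_zero]
    linarith
  have a0 := sqrt_pos.2 basic_sE_pos
  have b0 := sqrt_pos.2 h1
  have a2 := sq_sqrt basic_sE_pos.le
  have b2 := sq_sqrt h1.le
  have e := (h.scale (div_pos a0 b0)).D
  generalize √sE = a at *
  generalize √s = b at *
  subst b2
  rw [← a2] at e ⊢
  have e1 : (a / b) ^ 2 * b ^ 2 = a ^ 2 := by field_simp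
  rw [e1] at e
  have e2 : 8 * a ^ 6 ≤ (a / b) ^ 3 * ((1 - c3) * bp + (1 + c3) * bm) := by linarith
  rw [div_pow, div_mul_eq_mul_div, le_div_iff₀ (by positivity)] at e2
  refine le_of_mul_le_mul_left ?_ (pow_pos a0 3)
  linarith

theorem Mom.JI_nonneg {s bp bm : ℝ} (h : Mom s bp bm) : 0 ≤ JI.J s bp bm := by
  obtain ⟨h1, h2, h3⟩ := h.nonneg
  have c := basic_c3
  have a1 := mul_nonneg (show 0 ≤ 1 - c3 by linarith) h2
  have a2 := mul_nonneg (show 0 ≤ 1 + c3 by linarith) h3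
  have a3 := h.D
  simp only [JP.J, JI]
  rw [sub_nonneg]
  exact max_le (by linarith) (by linarith)

theorem Mom.JIII_nonneg {s bp bm : ℝ} (h : Mom s bp bm) : 0 ≤ JIII.J s bp bm := by
  have a1 := h.D'
  have a2 : 0.4933 ≤ √sE := le_sqrt_of_sq_le (by linarith [basic_sE])
  have a3 : 0.12 ≤ sE * √sE :=
    le_trans (by norm_num) (mul_le_mul basic_sE.1 a2 (by norm_num) basic_sE_pos.le)
  have a4 := mul_le_mul_of_nonneg_right a3 (mul_nonneg h.nonneg.1 (sqrt_nonneg s))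
  simp only [JP.J, JIII, zero_mul, sub_zero, max_self]
  linarith

theorem Sys.Ok.mom {S : Sys} (h : S.Ok) (k : Fin S.n) : Mom (S.s k) (S.bp k) (S.bm k) := by
  exact mom_of_lin one_pos (h.lin k 1 one_pos)

theorem Sys.Ok.JI {S : Sys} (h : S.Ok) : S.JPos JI := fun k => (h.mom k).JI_nonneg

theorem Sys.Ok.JIII {S : Sys} (h : S.Ok) : S.JPos JIII := fun k => (h.mom k).JIII_nonneg

theorem Sys.Ok.basic {S : Sys} (h : S.Ok) :
    0 < S.N ∧ 0 ≤ S.Bp ∧ 0 ≤ S.Bm ∧ 0 < S.B ∧ 0 < S.Q ∧ S.Q ≤ S.N ^ 2 := by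
  have ne : (Finset.univ : Finset (Fin S.n)).Nonempty := ⟨⟨0, h.npos⟩, Finset.mem_univ _⟩
  refine ⟨Finset.sum_pos (fun k _ => h.spos k) ne,
    Finset.sum_nonneg fun k _ => (h.mom k).nonneg.2.1,
    Finset.sum_nonneg fun k _ => (h.mom k).nonneg.2.2, ?_,
    Finset.sum_pos (fun k _ => pow_pos (h.spos k) 2) ne,
    Finset.sum_sq_le_sq_sum_of_nonneg fun k _ => (h.spos k).le⟩
  rw [Sys.B, Sys.Bp, Sys.Bm, ← Finset.sum_add_distrib]
  exact Finset.sum_pos (fun k _ =>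
    (mul_pos (h.spos k) (sqrt_pos.2 (h.spos k))).trans_le (h.mom k).cube) ne

theorem Sys.Ok.le_tot {S : Sys} (h : S.Ok) (k : Fin S.n) :
    S.s k ≤ S.N ∧ S.bp k + S.bm k ≤ S.B ∧ S.s k ^ 2 ≤ S.Q := by
  refine ⟨Finset.single_le_sum (fun k _ => (h.spos k).le) (Finset.mem_univ k), ?_,
    Finset.single_le_sum (f := fun k => S.s k ^ 2) (fun k _ => sq_nonneg _) (Finset.mem_univ k)⟩
  rw [Sys.B, Sys.Bp, Sys.Bm, ← Finset.sum_add_distrib]
  exact Finset.single_le_sum (f := fun k => S.bp k + S.bm k) (fun k _ =>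
    add_nonneg (h.mom k).nonneg.2.1 (h.mom k).nonneg.2.2) (Finset.mem_univ k)

theorem Sys.JPos.le_tot {S : Sys} {P : JP} (h : S.JPos P) :
    0 ≤ S.J P ∧ ∀ k, P.J (S.s k) (S.bp k) (S.bm k) ≤ S.J P := by
  exact ⟨Finset.sum_nonneg fun k _ => h k, fun k =>
    Finset.single_le_sum (f := fun k => P.J (S.s k) (S.bp k) (S.bm k)) (fun k _ => h k)
      (Finset.mem_univ k)⟩

theorem Sys.Bal.B_eq {S : Sys} {P : JP} (h : S.Bal P) :
    S.B = 4 * sE * (S.N / 2 + S.K / 6 + S.J P) := by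
  unfold Sys.Bal at h
  linear_combination (4 * sE) * h - S.B * Cp_sE

theorem Sys.Bal.tgt_eq {S : Sys} {P : JP} (h : S.Bal P) :
    Cp / √(2 * π) * S.lam = tgt S.N S.K (S.J P) := by
  unfold Sys.Bal at h
  rw [tgt, ← h, Sys.lam, div_mul_div_comm]

/-- A priori box. -/
theorem Sys.Bal.box {S : Sys} {P : JP} (hP : P = JI ∨ P = JIII) (h : S.Ok) (hb : S.Bal P) :
    0.41 * S.N ≤ S.B ∧ S.B ≤ 0.85 * S.N ∧ -(0.85 * S.N) ≤ S.K ∧ S.K ≤ 0.85 * S.N ∧
      S.J P ≤ 0.261 * S.N := by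
  obtain ⟨n0, p0, m0, -⟩ := h.basic
  have c := basic_c3
  have j0 : 0 ≤ S.J P := by
    rcases hP with rfl | rfl
    exacts [h.JI.le_tot.1, h.JIII.le_tot.1]
  have j1 : S.J P ≤ 0.1897 * S.Bp + 0.3104 * S.Bm + 1 / 16 * S.N := by
    rw [Sys.J, Sys.Bp, Sys.Bm, Sys.N, Finset.mul_sum, Finset.mul_sum, Finset.mul_sum,
      ← Finset.sum_add_distrib, ← Finset.sum_add_distrib]
    refine Finset.sum_le_sum fun k _ => ?_
    obtain ⟨h1, h2, h3⟩ := (h.mom k).nonneg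
    have a1 := mul_le_mul_of_nonneg_right (show (1 - c3) / 4 ≤ 0.1897 by linarith) h2
    have a2 := mul_le_mul_of_nonneg_right (show (1 + c3) / 4 ≤ 0.3104 by linarith) h3
    have a3 := mul_nonneg h1 (sqrt_nonneg (S.s k))
    rcases hP with rfl | rfl
    · have a4 := le_max_right ((1 / 16 + 3 * sE ^ 2) * S.s k - sE ^ 3) 0
      simp only [JP.J, JI]
      linarith
    · simp only [JP.J, JIII, zero_mul, sub_zero, max_self]
      linarith
  have c1 : 1.027 ≤ Cp := by unfold Cp; linarith [r10_lo]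
  have c2 : Cp ≤ 1.0271 := by unfold Cp; linarith [r10_hi]
  have b1 := mul_le_mul_of_nonneg_right c1 (add_nonneg p0 m0)
  have b2 := mul_le_mul_of_nonneg_right c2 (add_nonneg p0 m0)
  unfold Sys.Bal at hb
  unfold Sys.B Sys.K at *
  refine ⟨?_, ?_, ?_, ?_, ?_⟩ <;> linarith

end Pool.Agent.Lib.MP_33650d_pr.X
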