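import Pool.Agent.Lib.MP_33650d_pr.X.Defs

namespace Pool.Agent.Lib.MP_33650d_pr.X
open MeasureTheory ProbabilityTheory Real

/-- The data of every summand come from a centred law with finite third moment. -/
def Sys.Law (S : Sys) : Prop :=
  ∀ k, ∃ μ : Measure ℝ, IsProbabilityMeasure μ ∧ MemLp id 3 μ ∧ ∫ x, x ∂μ = 0 ∧
    S.s k = ∫ x, x ^ 2 ∂μ ∧ S.bp k = ∫ x, max x 0 ^ 3 ∂μ ∧ S.bm k = ∫ x, max (-x) 0 ^ 3 ∂μ ∧
    ∀ t : ℝ, S.C k t = ∫ x, cos (t * x) ∂μ ∧ S.S k t = ∫ x, sin (t * x) ∂μ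

end Pool.Agent.Lib.MP_33650d_pr.X
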