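import Pool.Agent.Lib.MP_33650d_pr.X.Basic
import Pool.Agent.Lib.MP_33650d_pr.X.DefsL
import Pool.Agent.Lib.MP_33650d_pr.Bridge

namespace Pool.Agent.Lib.MP_33650d_pr.X
open MeasureTheory ProbabilityTheory Real

section aux

variable {Ω : Type} [MeasurableSpace Ω] {P : Measure Ω} [IsProbabilityMeasure P]

lemma brg_lin {Z : Ω → ℝ} (hm : Measurable Z) (h3 : MemLp Z 3 P) (h0 : ∫ ω, Z ω ∂P = 0) :
    YD.Lin ⟨∫ ω, Z ω ^ 2 ∂P, ∫ ω, max (Z ω) 0 ^ 3 ∂P, ∫ ω, max (-Z ω) 0 ^ 3 ∂P,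
      ∫ ω, cos (Z ω) ∂P, ∫ ω, sin (Z ω) ∂P⟩ := by
  intro c σ c0 a m np nm h1 h2
  have := br_lin hm h3 h0 c σ c0 a m 0 np nm
    (fun w _ => by
      have := h1 (w ^ 2) (sq_nonneg w)
      rw [← pow_mul, ← pow_mul] at this
      simpa using this)
    (fun w _ => by
      have := h2 (w ^ 2) (sq_nonneg w)
      rw [← pow_mul, ← pow_mul] at this
      simpa using this)
  simpa [brData] using this

/-- The system of a family of random variables. -/
noncomputable def brgSys (P : Measure Ω) {n : ℕ} (Y : Fin n → Ω → ℝ) : Sys :=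
  ⟨n, P.map fun ω => ∑ k, Y k ω, fun k => ∫ ω, Y k ω ^ 2 ∂P,
    fun k => ∫ ω, max (Y k ω) 0 ^ 3 ∂P, fun k => ∫ ω, max (-Y k ω) 0 ^ 3 ∂P,
    fun k t => ∫ ω, cos (t * Y k ω) ∂P, fun k t => ∫ ω, sin (t * Y k ω) ∂P⟩

lemma brg_ok {n : ℕ} {Y : Fin n → Ω → ℝ} (hn : 0 < n) (hm : ∀ k, Measurable (Y k))
    (hi : iIndepFun Y P) (h3 : ∀ k, MemLp (Y k) 3 P) (h0 : ∀ k, ∫ ω, Y k ω ∂P = 0)
    (h1 : ∀ k, 0 < ∫ ω, Y k ω ^ 2 ∂P) : (brgSys P Y).Ok := by
  have m1 : Measurable fun ω => ∑ k, Y k ω := Finset.measurable_fun_sum _ fun k _ => hm k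
  have h2 : ∀ k, MemLp (Y k) 2 P := fun k => (h3 k).mono_exponent (by norm_num)
  have e0 : ∫ ω, ∑ k, Y k ω ∂P = 0 := by
    rw [integral_finsetSum _ fun k _ => (h2 k).integrable (by norm_num)]
    simp [h0]
  refine ⟨Measure.isProbabilityMeasure_map m1.aemeasurable, ?_, ?_, ?_, hn, h1,
    fun k t ht => ?_, fun t ht => ?_⟩
  · simp only [brgSys]
    rw [memLp_map_measure_iff aestronglyMeasurable_id m1.aemeasurable]
    exact memLp_finsetSum Finset.univ fun k _ => h2 k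
  · simp only [brgSys]
    rw [integral_map m1.aemeasurable (by fun_prop), e0]
  · simp only [brgSys, Sys.N]
    rw [integral_map m1.aemeasurable (by fun_prop),
      ← variance_of_integral_eq_zero m1.aemeasurable e0]
    have := IndepFun.variance_sum (s := Finset.univ) (fun k _ => h2 k)
      fun i _ j _ hij => hi.indepFun hij
    rw [show (fun ω => ∑ k, Y k ω) = ∑ k, Y k from by ext; simp, this]
    exact Finset.sum_congr rfl fun k _ => variance_of_integral_eq_zero (hm k).aemeasurable (h0 k)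
  · have mx : ∀ x : ℝ, max (t * x) 0 ^ 3 = t ^ 3 * max x 0 ^ 3 := fun x => by
      rw [← mul_pow, mul_max_of_nonneg _ _ ht.le, mul_zero]
    have := brg_lin ((hm k).const_mul t) ((h3 k).const_mul t)
      (by rw [integral_const_mul, h0, mul_zero])
    simp only [mul_pow, ← mul_neg, mx, integral_const_mul] at this
    exact this
  · simp only [brgSys]
    rw [hi.charFun_map_fun_sum_eq_prod fun k => (hm k).aemeasurable, Finset.prod_apply]
    refine Finset.prod_congr rfl fun k _ => ?_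
    obtain ⟨-, -, -, i4, i5⟩ := br_sq ((hm k).const_mul t) ((h3 k).const_mul t)
    rw [charFun_apply_real, integral_map (hm k).aemeasurable (by fun_prop)]
    simp only [Sys.dat, YD.f]
    rw [← integral_complex_ofReal, ← integral_complex_ofReal, ← integral_mul_const,
      ← integral_add i4.ofReal (i5.ofReal.mul_const _)]
    refine integral_congr_ae (Filter.Eventually.of_forall fun ω => ?_)
    simp only
    rw [Complex.exp_mul_I]
    push_cast
    rfl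

lemma brg_law {n : ℕ} {Y : Fin n → Ω → ℝ} (hm : ∀ k, Measurable (Y k))
    (h3 : ∀ k, MemLp (Y k) 3 P) (h0 : ∀ k, ∫ ω, Y k ω ∂P = 0) : (brgSys P Y).Law := by
  intro k
  have a := (hm k).aemeasurable (μ := P)
  refine ⟨P.map (Y k), Measure.isProbabilityMeasure_map a, ?_, ?_, ?_, ?_, ?_, fun t => ⟨?_, ?_⟩⟩
  · rw [memLp_map_measure_iff aestronglyMeasurable_id a]
    exact h3 k
  · rw [integral_map a (by fun_prop)]
    exact h0 k
  all_goals
    rw [integral_map a (by fun_prop)]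
    rfl

lemma brg_upper (h : ∀ S : Sys, S.Ok → S.Law → S.Bound) {n : ℕ} {X : Fin n → Ω → ℝ} (hn : 0 < n)
    (hm : ∀ k, Measurable (X k)) (hi : iIndepFun X P) (h3 : ∀ k, MemLp (X k) 3 P)
    (h0 : ∀ k, ∫ ω, X k ω ∂P = 0) (h2 : ∀ k, 0 < ∫ ω, X k ω ^ 2 ∂P) (x : ℝ) :
    P.real {ω | (∑ k, X k ω) / √(∑ k, ∫ ω, X k ω ^ 2 ∂P) ≤ x} - Phi x ≤
      (3 + √10) / (6 * √(2 * π)) *
        ((∑ k, ∫ ω, |X k ω| ^ 3 ∂P) / √(∑ k, ∫ ω, X k ω ^ 2 ∂P) ^ 3) := by
  have : Nonempty (Fin n) := ⟨⟨0, hn⟩⟩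
  have v0 : 0 < ∑ k, ∫ ω, X k ω ^ 2 ∂P := Finset.sum_pos (fun k _ => h2 k) Finset.univ_nonempty
  have key : (P.map fun ω => ∑ k, X k ω).real (Set.Iic (x * √(∑ k, ∫ ω, X k ω ^ 2 ∂P))) -
      Phi (x * √(∑ k, ∫ ω, X k ω ^ 2 ∂P) / √(∑ k, ∫ ω, X k ω ^ 2 ∂P)) ≤
      (3 + √10) / 6 / √(2 * π) * ((∑ k, ∫ ω, max (X k ω) 0 ^ 3 ∂P +
        ∑ k, ∫ ω, max (-X k ω) 0 ^ 3 ∂P) / √(∑ k, ∫ ω, X k ω ^ 2 ∂P) ^ 3) :=
    h _ (brg_ok hn hm hi h3 h0 h2) (brg_law hm h3 h0) _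
  set σ := √(∑ k, ∫ ω, X k ω ^ 2 ∂P) with hσ
  have σ0 : 0 < σ := Real.sqrt_pos.2 v0
  rw [map_measureReal_apply (Finset.measurable_fun_sum _ fun k _ => hm k) measurableSet_Iic,
    ← Finset.sum_add_distrib, mul_div_cancel_right₀ _ σ0.ne', div_div] at key
  have e1 : {ω | (∑ k, X k ω) / σ ≤ x} = (fun ω => ∑ k, X k ω) ⁻¹' Set.Iic (x * σ) := by
    ext ω
    simp [div_le_iff₀ σ0]
  rw [e1]
  refine key.trans (le_of_eq ?_)
  congr 2
  refine Finset.sum_congr rfl fun k _ => ?_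
  obtain ⟨-, i2, i3, -⟩ := br_sq (hm k) (h3 k)
  rw [← integral_add i2 i3]
  refine integral_congr_ae (Filter.Eventually.of_forall fun ω => ?_)
  simp only
  rcases le_total 0 (X k ω) with h | h
  · rw [abs_of_nonneg h, max_eq_left h, max_eq_right (neg_nonpos.2 h)]
    ring
  · rw [abs_of_nonpos h, max_eq_right h, max_eq_left (neg_nonneg.2 h)]
    ring

end aux

theorem bridge (h : ∀ S : Sys, S.Ok → S.Law → S.Bound) :
    ∀ (n : ℕ) (Ω : Type) [MeasureSpace Ω]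
        [IsProbabilityMeasure (volume : Measure Ω)] (X : Fin n → Ω → ℝ),
        0 < n → (∀ k, Measurable (X k)) → iIndepFun X volume →
        (∀ k, MemLp (X k) 3 volume) → (∀ k, ∫ ω, X k ω = 0) →
        (∀ k, 0 < ∫ ω, X k ω ^ 2) →
        ∀ x : ℝ,
          |(volume {ω | (∑ k, X k ω) / Real.sqrt (∑ k, ∫ ω, X k ω ^ 2) ≤ x}).toReal
              - cdf (gaussianReal 0 1) x|
            ≤ (3 + Real.sqrt 10) / (6 * Real.sqrt (2 * Real.pi))
              * ((∑ k, ∫ ω, |X k ω| ^ 3) / Real.sqrt (∑ k, ∫ ω, X k ω ^ 2) ^ 3) := by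
  intro n Ω _ _ X hn hm hi h3 h0 h2 x
  have a1 := brg_upper h hn hm hi h3 h0 h2 x
  have a2 := brg_upper h (X := fun k ω => -X k ω) hn (fun k => (hm k).neg)
    (hi.comp (fun _ y => -y) fun _ => measurable_neg) (fun k => (h3 k).neg)
    (fun k => by rw [integral_neg, h0, neg_zero]) (fun k => by simpa using h2 k) (-x)
  simp only [neg_sq, abs_neg, Finset.sum_neg_distrib, neg_div, neg_le_neg_iff, br_Phi_neg] at a2
  set S : Ω → ℝ := fun ω => (∑ k, X k ω) / √(∑ k, ∫ ω, X k ω ^ 2) with hS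
  have mS : Measurable S := (Finset.measurable_fun_sum _ fun k _ => hm k).div_const _
  have a3 : 1 - volume.real {ω | S ω ≤ x} ≤ volume.real {ω | x ≤ S ω} := by
    rw [← probReal_compl_eq_one_sub (measurableSet_le mS measurable_const)]
    exact measureReal_mono fun ω (hω : ¬ S ω ≤ x) => (not_le.1 hω).le
  change |volume.real {ω | S ω ≤ x} - Phi x| ≤ _
  rw [abs_le]
  constructor <;> linarith

end Pool.Agent.Lib.MP_33650d_pr.X
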