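import Pool.Agent.Lib.MP_33650d_pr.X.CMean
import Pool.Agent.Lib.MP_33650d_pr.Gauss

namespace Pool.Agent.Lib.MP_33650d_pr.X
open MeasureTheory ProbabilityTheory Real

theorem chord_CChord {f f' f'' : ℝ → ℝ} {a b M θ : ℝ} (hab : a ≤ b) (hM : 0 ≤ M)
    (h1 : ∀ y, a ≤ y → HasDerivAt f (f' y) y) (h2 : ∀ y, a ≤ y → HasDerivAt f' (f'' y) y)
    (h3 : ∀ y, a ≤ y → y ≤ b → f'' y ≤ M) (t0 : 0 ≤ θ) (t1 : θ ≤ 1) :
    (1 - θ) * f a + θ * f b ≤ f ((1 - θ) * a + θ * b) + M * (b - a) ^ 2 / 8 := by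
  have d1 : ∀ y, a ≤ y → HasDerivAt (fun y => f y - M * y ^ 2 / 2) (f' y - M * y) y := by
    intro y hy
    have := (h1 y hy).sub (((hasDerivAt_pow 2 y).const_mul M).div_const 2)
    exact this.congr_deriv (by simp; ring)
  have d2 : ∀ y, a ≤ y → HasDerivAt (fun y => f' y - M * y) (f'' y - M) y := by
    intro y hy
    have := (h2 y hy).sub ((hasDerivAt_id y).const_mul M)
    exact this.congr_deriv (by simp)
  have hc : ConcaveOn ℝ (Set.Icc a b) fun y => f y - M * y ^ 2 / 2 := by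
    refine concaveOn_of_hasDerivWithinAt2_nonpos (convex_Icc a b)
      (fun y hy => (d1 y hy.1).continuousAt.continuousWithinAt)
      (fun y hy => (d1 y (interior_subset hy).1).hasDerivWithinAt)
      (fun y hy => (d2 y (interior_subset hy).1).hasDerivWithinAt) ?_
    intro y hy
    have := interior_subset hy
    linarith [h3 y this.1 this.2]
  have := hc.2 (Set.left_mem_Icc.2 hab) (Set.right_mem_Icc.2 hab)
    (show 0 ≤ 1 - θ by linarith) t0 (by ring)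
  simp only [smul_eq_mul] at this
  have e3 : 0 ≤ M * ((b - a) ^ 2 * (1 - 2 * θ) ^ 2) := by positivity
  nlinarith

theorem rs_deriv_CChord {n : ℝ} (hn : 0 < n) :
    HasDerivAt (fun n : ℝ => (√n)⁻¹) (-((√n)⁻¹ ^ 3 / 2)) n := by
  have hs : √n ≠ 0 := (sqrt_pos.2 hn).ne'
  refine ((hasDerivAt_sqrt hn.ne').inv hs).congr_deriv ?_
  field_simp

theorem D1_CChord (e y β : ℝ) {n : ℝ} (hn : 0 < n) :
    HasDerivAt (fun n : ℝ => e * Phi (y * (√n)⁻¹) + β * (√n)⁻¹)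
      ((e * ga_phi (y * (√n)⁻¹) * y + β) * -((√n)⁻¹ ^ 3 / 2)) n := by
  have h1 := rs_deriv_CChord hn
  have h2 := (ga_deriv_Phi (y * (√n)⁻¹)).comp n (h1.const_mul y)
  exact ((h2.const_mul e).add (h1.const_mul β)).congr_deriv (by ring)

theorem D2_CChord (e y β : ℝ) {n : ℝ} (hn : 0 < n) :
    HasDerivAt (fun n : ℝ => (e * ga_phi (y * (√n)⁻¹) * y + β) * -((√n)⁻¹ ^ 3 / 2))
      ((√n)⁻¹ ^ 4 * (e * ((y * (√n)⁻¹) * (3 - (y * (√n)⁻¹) ^ 2) / 4 * ga_phi (y * (√n)⁻¹))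
        + 3 / 4 * β * (√n)⁻¹)) n := by
  have h1 := rs_deriv_CChord hn
  have h2 := (ga_deriv_phi (y * (√n)⁻¹)).comp n (h1.const_mul y)
  have h3 := (((h2.const_mul e).mul_const y).add_const β).mul ((h1.pow 3).div_const 2).neg
  refine h3.congr_deriv ?_
  simp only [Function.comp, Pi.neg_apply, Pi.pow_apply]
  generalize (√n)⁻¹ = r
  push_cast
  ring

theorem g_pos1_CChord {x : ℝ} (hx : 0 ≤ x) : x * (3 - x ^ 2) / 4 * ga_phi x ≤ 0.14 := by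
  refine ga_mul_le (by norm_num) ?_
  have h := quadratic_le_exp_of_nonneg (show 0 ≤ x ^ 2 / 2 by positivity)
  nlinarith [mul_nonneg hx (sq_nonneg (x - 0.75)), sq_nonneg (x ^ 2 - 0.5625), sq_nonneg (x - 0.743)]

theorem g_pos2_CChord {x : ℝ} (hx : 0 ≤ x) : x * (3 - x ^ 2) / 4 * ga_phi x ≤ 0.3 * x := by
  have h1 := ga_phi_le x
  have h2 := ga_phi_nonneg x
  have h3 : 0 ≤ x ^ 3 * ga_phi x := by positivity
  have h4 : x * ga_phi x ≤ x * 0.4 := mul_le_mul_of_nonneg_left h1 hx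
  nlinarith

theorem g_neg1_CChord {x : ℝ} (hx : x ≤ 0) (h : x ^ 2 ≤ 3) :
    x * (3 - x ^ 2) / 4 * ga_phi x ≤ 0 := by
  have h2 := ga_phi_nonneg x
  have h3 : x * (3 - x ^ 2) / 4 ≤ 0 := by nlinarith
  exact mul_nonpos_of_nonpos_of_nonneg h3 h2

theorem g_neg2_CChord {x : ℝ} (hx : x ≤ 0) : x * (3 - x ^ 2) / 4 * ga_phi x ≤ 0.04 := by
  rcases le_total (x ^ 2) 3 with h | h
  · linarith [g_neg1_CChord hx h]
  refine ga_mul_le (by norm_num) ?_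
  have e1 : (3.85 : ℝ) ≤ exp 1.35 := by
    have := Real.sum_le_exp_of_nonneg (show (0 : ℝ) ≤ 1.35 by norm_num) 7
    simp only [Finset.sum_range_succ, Finset.range_zero, Finset.sum_empty, Nat.factorial] at this
    norm_num at this ⊢
    linarith
  have e2 : x ^ 2 / 4 - 1.35 + 1 ≤ exp (x ^ 2 / 4 - 1.35) := add_one_le_exp _
  have e3 : exp (x ^ 2 / 2) = (exp 1.35 * exp (x ^ 2 / 4 - 1.35)) ^ 2 := by
    rw [← exp_add, ← exp_nat_mul]
    congr 1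
    push_cast
    ring
  have e4 : 3.85 * (x ^ 2 / 4 - 1.35 + 1) ≤ exp 1.35 * exp (x ^ 2 / 4 - 1.35) :=
    mul_le_mul e1 e2 (by linarith) (by positivity)
  have e5 : (3.85 * (x ^ 2 / 4 - 1.35 + 1)) ^ 2 ≤ exp (x ^ 2 / 2) := by
    rw [e3]
    exact pow_le_pow_left₀ (by linarith) e4 2
  have e6 : -x ≤ 0.2146 * x ^ 2 + 1.165 := by nlinarith [sq_nonneg (x + 2.33)]
  have e7 : -x * (x ^ 2 - 3) ≤ (0.2146 * x ^ 2 + 1.165) * (x ^ 2 - 3) :=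
    mul_le_mul_of_nonneg_right e6 (by linarith)
  nlinarith [sq_nonneg (x ^ 2 - 5)]

theorem hOK_pos {N : ℕ} (h : hOK N = true) : 0 < N := by
  unfold hOK at h
  rw [band_eq] at h
  have h2 := Nat.le_of_ble_eq_true h.2
  rcases Nat.eq_zero_or_pos N with rfl | hN
  · simp at h2
  · exact hN

theorem hU_CChord {N : ℕ} (h : hOK N = true) :
    2 ^ 32 * (√((N : ℝ) / 2 ^ 20))⁻¹ ≤ hU N := by
  have hN : (0 : ℝ) < N := by exact_mod_cast hOK_pos h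
  unfold hOK at h
  rw [band_eq] at h
  have h2 := ble_cast h.2
  rw [cast_nmul, cast_nmul] at h2
  obtain ⟨U, hU'⟩ : ∃ U : ℝ, U = hU N := ⟨_, rfl⟩
  have hU0 : 0 ≤ U := by rw [hU']; positivity
  rw [← hU'] at h2 ⊢
  have hs : 0 < √((N : ℝ) / 2 ^ 20) := sqrt_pos.2 (by positivity)
  rw [← div_eq_mul_inv, div_le_iff₀ hs]
  refine abs_le_of_sq_le_sq' ?_ (by positivity) |>.2
  rw [mul_pow, sq_sqrt (by positivity)]
  push_cast at h2
  nlinarith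

theorem psi_CChord (p : Pm) (c : Cel) {g : Sg} (hg : g.Ok) (h0 : hOK c.n0 = true) {i : ℕ}
    (hi' : i < g.cnt) {b r : ℝ} (hb0 : 0 ≤ b) (hb : 6 * b * 2 ^ 20 ≤ be c.k1 c.j1) (hr0 : 0 ≤ r)
    (hr : r ≤ (√((c.n0 : ℝ) / 2 ^ 20))⁻¹) {e : ℝ} (he : e = 0 ∨ e = 1) :
    e * ((p.P * sl (g.lo + i) * r) * (3 - (p.P * sl (g.lo + i) * r) ^ 2) / 4
        * ga_phi (p.P * sl (g.lo + i) * r)) + 3 / 4 * (b / √(2 * π)) * r
      ≤ (psi p c g : ℝ) / 2 ^ 40 := by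
  have hN : (0 : ℝ) < c.n0 := by exact_mod_cast hOK_pos h0
  have hU1 := hU_CChord h0
  obtain ⟨U, hU'⟩ : ∃ U : ℕ, U = hU c.n0 := ⟨_, rfl⟩
  rw [← hU'] at hU1
  have hrU : 2 ^ 32 * r ≤ U := by linarith
  obtain ⟨x, hx⟩ : ∃ x : ℝ, x = p.P * sl (g.lo + i) * r := ⟨_, rfl⟩
  rw [← hx]
  have hP : (0 : ℝ) ≤ p.P := by positivity
  unfold psi
  rw [force_eq, ← hU', cast_nadd, cast_nadd, cast_nadd, mn_eq]
  obtain ⟨T1, hT1⟩ : ∃ T1 : ℕ, T1 = Nat.add (Nat.shiftRight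
    (Nat.mul (Nat.mul (Nat.mul p.P (Nat.sub (hi g) 2048)) U) 5) 8) 1 := ⟨_, rfl⟩
  obtain ⟨T2, hT2⟩ : ∃ T2 : ℕ, T2 = ite' (Nat.ble (Nat.mul (Nat.mul p.P p.P)
    (Nat.mul (Nat.sub 2048 g.lo) (Nat.sub 2048 g.lo))) (Nat.mul 48 c.n0)) 0 43980465112 := ⟨_, rfl⟩
  rw [← hT1, ← hT2]
  have a3 : 3 / 4 * (b / √(2 * π)) * r ≤
      (((Nat.shiftRight (Nat.mul (Nat.mul (be c.k1 c.j1) U) 13) 20 : ℕ) : ℝ) + (1 : ℕ)) / 2 ^ 40 := by
    have s1 := cast_shr_ge (Nat.mul (Nat.mul (be c.k1 c.j1) U) 13) 20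
    rw [cast_nmul, cast_nmul] at s1
    have s2 : b / √(2 * π) ≤ b / 2.5 := div_le_div_of_nonneg_left hb0 (by norm_num) ga_sqrt
    have s3 : (6 * b * 2 ^ 20) * (2 ^ 32 * r) ≤ (be c.k1 c.j1 : ℝ) * U :=
      mul_le_mul hb hrU (by positivity) (by positivity)
    have s4 : b / √(2 * π) * r ≤ b / 2.5 * r := mul_le_mul_of_nonneg_right s2 hr0
    have s5 : 0 ≤ b * r := by positivity
    have s6 : b / 2.5 * r = 0.4 * (b * r) := by ring
    push_cast at s1 ⊢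
    rw [le_div_iff₀ (by positivity)]
    nlinarith
  have a1 : 0 ≤ x → x * (3 - x ^ 2) / 4 * ga_phi x ≤ ((min 153931627889 T1 : ℕ) : ℝ) / 2 ^ 40 := by
    intro hx0
    rw [le_div_iff₀ (by positivity)]
    rcases min_choice 153931627889 T1 with hm | hm <;> rw [hm]
    · have := g_pos1_CChord hx0
      push_cast
      linarith
    · have s0 := g_pos2_CChord hx0
      have s1 := cast_shr_ge (Nat.mul (Nat.mul (Nat.mul p.P (Nat.sub (hi g) 2048)) U) 5) 8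
      rw [hT1, cast_nadd]
      rw [cast_nmul, cast_nmul, cast_nmul] at s1
      have s2 := cast_nsub_ge (hi g) 2048
      have s3 : g.lo + i ≤ hi g := by
        unfold hi
        rw [Nat.sub_eq, Nat.add_eq]
        omega
      have s4 : ((g.lo + i : ℕ) : ℝ) ≤ hi g := by exact_mod_cast s3
      have hW0 : (0 : ℝ) ≤ (Nat.sub (hi g) 2048 : ℕ) := Nat.cast_nonneg _
      generalize ((Nat.sub (hi g) 2048 : ℕ) : ℝ) = W at s1 s2 hW0
      have s5 : sl (g.lo + i) ≤ W / 4096 := by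
        unfold sl
        push_cast at s2 s4 ⊢
        linarith
      have s6 : x ≤ p.P * (W / 4096) * r := by
        rw [hx]
        exact mul_le_mul_of_nonneg_right (mul_le_mul_of_nonneg_left s5 hP) hr0
      have s7 : p.P * W * (2 ^ 32 * r) ≤ p.P * W * U :=
        mul_le_mul_of_nonneg_left hrU (mul_nonneg hP hW0)
      generalize ((Nat.shiftRight (Nat.mul (Nat.mul (Nat.mul p.P (Nat.sub (hi g) 2048)) U) 5) 8 : ℕ) : ℝ)
        = Z at s1 ⊢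
      have s8 : 0 ≤ p.P * W * r := mul_nonneg (mul_nonneg hP hW0) hr0
      push_cast at s1 ⊢
      clear hT1 hT2 hm
      nlinarith
  have a2 : x ≤ 0 → x * (3 - x ^ 2) / 4 * ga_phi x ≤ (T2 : ℝ) / 2 ^ 40 := by
    intro hx0
    cases hB : Nat.ble (Nat.mul (Nat.mul p.P p.P)
      (Nat.mul (Nat.sub 2048 g.lo) (Nat.sub 2048 g.lo))) (Nat.mul 48 c.n0)
    · rw [hT2, hB, ite'_false, le_div_iff₀ (by positivity)]
      have := g_neg2_CChord hx0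
      push_cast
      linarith
    · rw [hT2, hB, ite'_true]
      have s1 := ble_cast hB
      simp only [cast_nmul] at s1
      have s2 := cast_nsub_ge 2048 g.lo
      have hW0 : (0 : ℝ) ≤ (Nat.sub 2048 g.lo : ℕ) := Nat.cast_nonneg _
      generalize ((Nat.sub 2048 g.lo : ℕ) : ℝ) = W at s1 s2 hW0
      have s5 : -sl (g.lo + i) ≤ W / 4096 := by
        unfold sl
        have : (0 : ℝ) ≤ i := by positivity
        push_cast at s2 ⊢
        linarith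
      have s6 : -x ≤ p.P * (W / 4096) * (√((c.n0 : ℝ) / 2 ^ 20))⁻¹ := by
        have : -x = p.P * (-sl (g.lo + i)) * r := by rw [hx]; ring
        rw [this]
        exact mul_le_mul (mul_le_mul_of_nonneg_left s5 hP) hr hr0 (by positivity)
      have s7 : (-x) ^ 2 ≤ (p.P * (W / 4096) * (√((c.n0 : ℝ) / 2 ^ 20))⁻¹) ^ 2 :=
        pow_le_pow_left₀ (by linarith) s6 2
      have s8 : (p.P * (W / 4096) * (√((c.n0 : ℝ) / 2 ^ 20))⁻¹) ^ 2
          = p.P * p.P * (W * W) / (16 * c.n0) := by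
        rw [mul_pow, inv_pow, sq_sqrt (by positivity)]
        field_simp
        ring
      have s9 : p.P * p.P * (W * W) / (16 * c.n0) ≤ 3 := by
        rw [div_le_iff₀ (by positivity)]
        push_cast at s1
        linarith
      have := g_neg1_CChord hx0 (by nlinarith)
      simpa using this
  have n1 : (0 : ℝ) ≤ ((min 153931627889 T1 : ℕ) : ℝ) / 2 ^ 40 := by positivity
  have n2 : (0 : ℝ) ≤ (T2 : ℝ) / 2 ^ 40 := by positivity
  rw [add_div, add_div]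
  refine add_le_add ?_ a3
  rcases he with rfl | rfl
  · linarith
  · rcases le_total 0 x with hx0 | hx0
    · linarith [a1 hx0]
    · linarith [a2 hx0]

theorem errN_CChord (p : Pm) (c : Cel) (g : Sg) (h0 : 0 < c.n0) (h1 : c.n0 ≤ c.n1) :
    (psi p c g : ℝ) / 2 ^ 40 / ((c.n0 : ℝ) / 2 ^ 20) ^ 2
      * ((c.n1 : ℝ) / 2 ^ 20 - (c.n0 : ℝ) / 2 ^ 20) ^ 2 / 8 ≤ (errN p c g : ℝ) / 2 ^ 60 := by
  have hN : (0 : ℝ) < c.n0 := by exact_mod_cast h0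
  unfold errN
  rw [cast_nadd, ndiv_eq]
  have s1 := cast_div_gt (Nat.shiftLeft
    (Nat.mul (Nat.mul (Nat.sub c.n1 c.n0) (Nat.sub c.n1 c.n0)) (psi p c g)) 17)
    (Nat.mul c.n0 c.n0) (Nat.mul_pos h0 h0)
  rw [cast_shl, cast_nmul, cast_nmul, cast_nmul, cast_nsub (by exact_mod_cast h1)] at s1
  generalize (psi p c g : ℝ) = Y at s1 ⊢
  have e : Y / 2 ^ 40 / ((c.n0 : ℝ) / 2 ^ 20) ^ 2
      * ((c.n1 : ℝ) / 2 ^ 20 - (c.n0 : ℝ) / 2 ^ 20) ^ 2 / 8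
      = ((c.n1 : ℝ) - c.n0) * ((c.n1 : ℝ) - c.n0) * Y * 2 ^ 17 / ((c.n0 : ℝ) * c.n0) / 2 ^ 60 := by
    field_simp
    ring
  rw [e]
  gcongr
  push_cast
  linarith

/-- From the mean over the vertices to the system, for the terms that are not convex in `N`. -/
theorem chord_mean {p : Pm} {P : JP} {S : Sys} {c : Cel} {M : (Vx → ℝ) →ₗ[ℝ] ℝ} {θ : ℝ}
    (h : In P S c) (hM : Mean p P S c M θ) (h0 : hOK c.n0 = true) {g : Sg} (hg : g.Ok)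
    (ph : Bool) {i : ℕ} (hi : i < g.cnt) :
    M (fun v => (if ph then Phi (p.P * sl (g.lo + i) / √((v.n : ℝ) / 2 ^ 20)) else 0)
        + (1 / 3 + 1 / 6 * ((v.k : ℝ) / 2 ^ 20) + (v.j : ℝ) / 2 ^ 20)
          / (√(2 * π) * √((v.n : ℝ) / 2 ^ 20)))
      ≤ (if ph then Phi (p.P * sl (g.lo + i) / √S.N) else 0) + tgt S.N S.K (S.J P)
        + (errN p c g : ℝ) / 2 ^ 60 := by
  have hn0 := hOK_pos h0
  have hN0 : (0 : ℝ) < (c.n0 : ℝ) / 2 ^ 20 := by positivity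
  have hN : 0 < S.N := hN0.trans_le h.n0
  have h01 : (c.n0 : ℝ) / 2 ^ 20 ≤ (c.n1 : ℝ) / 2 ^ 20 := h.n0.trans h.n1
  have h01' : c.n0 ≤ c.n1 := by
    have : (c.n0 : ℝ) ≤ c.n1 := by linarith
    exact_mod_cast this
  obtain ⟨y, hy⟩ : ∃ y : ℝ, y = p.P * sl (g.lo + i) := ⟨_, rfl⟩
  obtain ⟨e, he⟩ : ∃ e : ℝ, e = if ph then 1 else 0 := ⟨_, rfl⟩
  have he' : e = 0 ∨ e = 1 := by cases ph <;> simp [he]
  have hif : ∀ n : ℝ, (if ph then Phi (y / √n) else 0) = e * Phi (y * (√n)⁻¹) := by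
    intro n
    cases ph <;> simp [he, div_eq_mul_inv]
  obtain ⟨b, hb⟩ : ∃ b : ℝ, b = 1 / 3 + 1 / 6 * (S.K / S.N + 1) + 1 * (S.J P / S.N) := ⟨_, rfl⟩
  have k0 : (c.k0 : ℝ) / 2 ^ 20 - 1 ≤ S.K / S.N := (le_div_iff₀ hN).2 h.k0
  have k1 : S.K / S.N ≤ (c.k1 : ℝ) / 2 ^ 20 - 1 := (div_le_iff₀ hN).2 h.k1
  have j0 : (c.j0 : ℝ) / 2 ^ 20 ≤ S.J P / S.N := (le_div_iff₀ hN).2 h.j0
  have j1 : S.J P / S.N ≤ (c.j1 : ℝ) / 2 ^ 20 := (div_le_iff₀ hN).2 h.j1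
  have hb0 : 0 ≤ b := by
    have a1 : (0 : ℝ) ≤ (c.k0 : ℝ) / 2 ^ 20 := by positivity
    have a2 : (0 : ℝ) ≤ (c.j0 : ℝ) / 2 ^ 20 := by positivity
    linarith
  have hb1 : 6 * b * 2 ^ 20 ≤ be c.k1 c.j1 := by
    unfold be
    rw [cast_nadd, cast_nadd, cast_nmul]
    push_cast
    linarith
  have m1 := hM.prod (fun n => e * Phi (y * (√((n : ℝ) / 2 ^ 20))⁻¹)) 1 0 0
  have m2 := hM.prod (fun n => (√(2 * π))⁻¹ * (√((n : ℝ) / 2 ^ 20))⁻¹) (1 / 3) (1 / 6) 1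
  rw [← hb] at m2
  have m3 : M (fun v => (if ph then Phi (p.P * sl (g.lo + i) / √((v.n : ℝ) / 2 ^ 20)) else 0)
        + (1 / 3 + 1 / 6 * ((v.k : ℝ) / 2 ^ 20) + (v.j : ℝ) / 2 ^ 20)
          / (√(2 * π) * √((v.n : ℝ) / 2 ^ 20)))
      = M (fun v => e * Phi (y * (√((v.n : ℝ) / 2 ^ 20))⁻¹)
          * (1 + 0 * ((v.k : ℝ) / 2 ^ 20) + 0 * ((v.j : ℝ) / 2 ^ 20)))
        + M (fun v => (√(2 * π))⁻¹ * (√((v.n : ℝ) / 2 ^ 20))⁻¹
          * (1 / 3 + 1 / 6 * ((v.k : ℝ) / 2 ^ 20) + 1 * ((v.j : ℝ) / 2 ^ 20))) := by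
    rw [← Mean.add']
    congr 1
    funext v
    rw [← hy, hif, div_eq_mul_inv _ (√(2 * π) * _), mul_inv]
    ring
  have hY : 0 ≤ (psi p c g : ℝ) / 2 ^ 40 / ((c.n0 : ℝ) / 2 ^ 20) ^ 2 := by positivity
  have ch := chord_CChord (f := fun n : ℝ => e * Phi (y * (√n)⁻¹) + b / √(2 * π) * (√n)⁻¹)
    h01 hY (fun n hn => D1_CChord e y _ (hN0.trans_le hn))
    (fun n hn => D2_CChord e y _ (hN0.trans_le hn)) ?_ hM.t0 hM.t1
  · rw [← hM.N] at ch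
    have er := errN_CChord p c g hn0 h01'
    have tg : tgt S.N S.K (S.J P) = b / √(2 * π) * (√S.N)⁻¹ := by
      have s1 : √S.N ≠ 0 := (sqrt_pos.2 hN).ne'
      have s2 : √(2 * π) ≠ 0 := by positivity
      have s3 : √S.N ^ 3 = S.N * √S.N := by rw [pow_succ, sq_sqrt hN.le]
      rw [tgt, s3, hb]
      field_simp
      ring
    rw [m3, m1, m2, ← hy, hif, tg]
    simp only [div_eq_mul_inv b] at ch ⊢
    linarith
  · intro n hn _
    have hn' : 0 < n := hN0.trans_le hn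
    have hr : (√n)⁻¹ ≤ (√((c.n0 : ℝ) / 2 ^ 20))⁻¹ :=
      inv_anti₀ (sqrt_pos.2 hN0) (sqrt_le_sqrt hn)
    have ps := psi_CChord p c hg h0 hi hb0 hb1 (by positivity) hr he'
    rw [← hy] at ps
    have r4 : (√n)⁻¹ ^ 4 ≤ (((c.n0 : ℝ) / 2 ^ 20) ^ 2)⁻¹ := by
      have : (√n)⁻¹ ^ 4 = (n ^ 2)⁻¹ := by
        rw [inv_pow, show (4 : ℕ) = 2 * 2 from rfl, pow_mul, sq_sqrt hn'.le]
      rw [this]
      exact inv_anti₀ (by positivity) (pow_le_pow_left₀ hN0.le hn 2)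
    refine (mul_le_mul_of_nonneg_left ps (by positivity)).trans ?_
    rw [div_eq_mul_inv _ (_ ^ 2), mul_comm]
    exact mul_le_mul_of_nonneg_left r4 (by positivity)

end Pool.Agent.Lib.MP_33650d_pr.X
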