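import Pool.Agent.Lib.MP_33650d_pr.X.EDef
import Pool.Agent.Lib.MP_33650d_pr.TabD

namespace Pool.Agent.Lib.MP_33650d_pr.X

/-- Parameters of a tree of cells: period, number of frequencies, number of terms for the normal
law, flag for a single vertex in `q`, range of the Lyapunov ratio (scale `2 ^ 20`), tables. -/
structure Pm where
  P : ℕ
  J : ℕ
  n0 : ℕ
  cq : Bool
  l0 : ℕ
  l1 : ℕ
  ET : BT
  KT : BT

/-- A cell; scale `2 ^ 20`, the coordinate `k` is shifted by one. -/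
structure Cel where
  n0 : ℕ
  n1 : ℕ
  k0 : ℕ
  k1 : ℕ
  j0 : ℕ
  j1 : ℕ
  q0 : ℕ
  q1 : ℕ

structure Vx where
  n : ℕ
  k : ℕ
  j : ℕ
  q : ℕ

/-- Data of a leaf. -/
structure Lf where
  u : ℕ
  st : ℕ
  fs : ℕ
  sg : ℕ

/-- A kernel and a range of lanes. -/
structure Sg where
  K : ℕ
  lo : ℕ
  cnt : ℕ

/-! Powers of the frequency, scale `2 ^ 64`. -/

noncomputable def tL (p : Pm) (n : ℕ) : ℕ := Nat.div (Nat.mul n 115904311329233965478) p.P
noncomputable def tU (p : Pm) (n : ℕ) : ℕ :=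
  Nat.add (Nat.div (Nat.mul n 115904311329233965479) p.P) 1
noncomputable def mD (a b : ℕ) : ℕ := Nat.shiftRight (Nat.mul a b) 64
noncomputable def mU (a b : ℕ) : ℕ := Nat.add (Nat.shiftRight (Nat.mul a b) 64) 1
noncomputable def t2L (p : Pm) (n : ℕ) : ℕ := mD (tL p n) (tL p n)
noncomputable def t2U (p : Pm) (n : ℕ) : ℕ := mU (tU p n) (tU p n)
noncomputable def t3L (p : Pm) (n : ℕ) : ℕ := mD (t2L p n) (tL p n)
noncomputable def t3U (p : Pm) (n : ℕ) : ℕ := mU (t2U p n) (tU p n)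
noncomputable def t4L (p : Pm) (n : ℕ) : ℕ := mD (t2L p n) (t2L p n)
noncomputable def t4U (p : Pm) (n : ℕ) : ℕ := mU (t2U p n) (t2U p n)

/-! Entries at a frequency. -/

noncomputable def en (p : Pm) (i : ℕ) : ℕ := p.ET.get i
noncomputable def ef (p : Pm) (i k : ℕ) : ℕ := fd (en p i) k
noncomputable def kp (p : Pm) (i : ℕ) : ℕ := Nat.sub (ef p i 1) 140737488355328
noncomputable def kn (p : Pm) (i : ℕ) : ℕ := Nat.sub 140737488355328 (ef p i 1)
noncomputable def aP (p : Pm) (n i : ℕ) : ℕ := Nat.mul (ef p i 4) (t3U p n)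
noncomputable def aM (p : Pm) (n i : ℕ) : ℕ := Nat.mul (ef p i 5) (t3U p n)
noncomputable def z3 (p : Pm) (n : ℕ) : ℕ := Nat.shiftLeft (t3L p n) 47
noncomputable def gP (p : Pm) (n i : ℕ) : ℕ :=
  Nat.mul (Nat.add (aP p n i) (aM p n i)) 22838550308278
noncomputable def gN (p : Pm) (n : ℕ) : ℕ := Nat.mul (z3 p n) 45677100616550
noncomputable def up (a b : ℕ) : ℕ :=
  Nat.add (Nat.shiftRight
    (Nat.sub (Nat.add a 191561942608236107294793378393788647952342390272950272) b) 113) 1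
noncomputable def iK (p : Pm) (n i : ℕ) : ℕ :=
  up (Nat.add (Nat.shiftLeft (aP p n i) 48) (Nat.mul 2 (gP p n i)))
    (Nat.add (Nat.shiftLeft (aM p n i) 48) (Nat.mul 2 (gN p n)))
noncomputable def iN (p : Pm) (n i : ℕ) : ℕ :=
  up (Nat.add (Nat.add (Nat.shiftLeft
      (Nat.add (Nat.mul (ef p i 2) (t2U p n)) (Nat.mul (ef p i 3) (t3U p n))) 49)
      (Nat.mul 4 (gP p n i))) (Nat.shiftLeft (aM p n i) 48))
    (Nat.add (Nat.add (Nat.shiftLeft (Nat.add (Nat.shiftLeft (t2L p n) 47) (z3 p n)) 49)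
      (Nat.mul 4 (gN p n))) (Nat.shiftLeft (aP p n i) 48))
noncomputable def iJ (p : Pm) (n i : ℕ) : ℕ :=
  up (Nat.add (Nat.shiftLeft (Nat.mul (ef p i 6) (t3U p n)) 49) (Nat.mul 12 (gP p n i)))
    (Nat.add (Nat.shiftLeft (z3 p n) 49) (Nat.mul 12 (gN p n)))
noncomputable def iQ0 (p : Pm) (n i : ℕ) : ℕ :=
  up (Nat.shiftLeft (Nat.mul (ef p i 7) (t4U p n)) 49) (Nat.shiftLeft (t4L p n) 96)
noncomputable def iQ (p : Pm) (n i : ℕ) : ℕ :=
  ite' p.cq (mx (iQ0 p n i) 18446744073709551616) (iQ0 p n i)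
noncomputable def eB (v : Vx) : ℕ :=
  Nat.shiftLeft (Nat.mul v.n (Nat.add (Nat.add (Nat.add 1048576 v.k) v.j) v.q)) 16

/-- Value of the entry `i` at the frequency `n` and the vertex `v`; scale `2 ^ 32`,
bias `2 ^ 44`. -/
noncomputable def eV (p : Pm) (n i : ℕ) (v : Vx) : ℕ :=
  Nat.sub (Nat.add (Nat.shiftRight (Nat.mul v.n (Nat.add (Nat.add (Nat.add
    (Nat.shiftLeft (iN p n i) 20) (Nat.mul (iK p n i) v.k)) (Nat.mul (iJ p n i) v.j))
    (Nat.mul (iQ p n i) v.q))) 48) 17592186044417) (eB v)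

/-- `2 ^ 20 * (3 + k + 6 j)`. -/
noncomputable def be (k j : ℕ) : ℕ := Nat.add (Nat.add 2097152 k) (Nat.mul 6 j)

/-- The restrictions of the entry `i` hold on the cell. -/
noncomputable def resOK (p : Pm) (c : Cel) (n i : ℕ) : Bool :=
  band (Nat.ble (Nat.shiftLeft (ef p i 8) 24) (tL p n))
  (band (Nat.ble (tU p n) (Nat.shiftLeft (ef p i 9) 24))
  (band (bor (Nat.beq (ef p i 10) 0)
      (bor (Nat.ble (Nat.mul (t2U p n) c.n1) (Nat.shiftLeft (ef p i 10) 52))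
        (Nat.ble (Nat.mul (t4U p n) (Nat.mul c.q1 c.n1))
          (Nat.shiftLeft (Nat.mul (ef p i 10) (ef p i 10)) 40))))
  (band (bor (Nat.beq (ef p i 11) 0)
      (Nat.ble (Nat.mul (Nat.mul (t3U p n) c.n1) (Nat.mul (be c.k1 c.j1) 178426174284))
        (Nat.shiftLeft (ef p i 11) 112)))
    (bor (Nat.beq (ef p i 12) 0)
      (Nat.ble (Nat.mul (t3U p n) (Nat.mul c.n1 c.j1)) (Nat.shiftLeft (ef p i 12) 72))))))

/-- Upper bound for `2 ^ 40 * exp ((a - b) / 2 ^ 32)`. -/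
noncomputable def ex (a b : ℕ) : ℕ :=
  ite' (Nat.ble a (Nat.add b 34359738368)) (expT (Nat.sub (Nat.add b 34359738368) a))
    (Nat.pow 2 (Nat.add a 64))

/-- Upper bound for `- ka * om m`; scale `2 ^ 32`, bias `2 ^ 44`. -/
noncomputable def cw (p : Pm) (i m : ℕ) : ℕ :=
  Nat.add (Nat.shiftRight (Nat.sub (Nat.add
    (Nat.mul (Nat.add (Nat.mul (kn p i) m) (Nat.mul (kp p i) 8192)) 115904311329233965479)
    340282366920938463463374607431768211456)
    (Nat.mul (Nat.add (Nat.mul (kp p i) m) (Nat.mul (kn p i) 8192)) 115904311329233965478)) 84) 1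

noncomputable def cT0 (m : ℕ) : ℕ := bt (yC 1) (Nat.mul 72 m) 4722366482869645213696
noncomputable def sT0 (m : ℕ) : ℕ := bt (yS 1) (Nat.mul 72 m) 4722366482869645213696
noncomputable def cT (m : ℕ) : ℕ := force (Nat.mod m 4096) cT0
noncomputable def sT (m : ℕ) : ℕ := force (Nat.mod m 4096) sT0

/-! Facets. -/

noncomputable def fO (x : ℕ) : Bool := Nat.beq (bt x 0 2) 0
noncomputable def f1 (x : ℕ) : ℕ := bt x 8 65536
noncomputable def f2 (x : ℕ) : ℕ := bt x 24 65536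
noncomputable def f3 (x : ℕ) : ℕ := bt x 40 65536
noncomputable def fm (x : ℕ) : ℕ := Nat.add (bt x 56 16384) 2048
noncomputable def fa (x : ℕ) : ℕ := bt x 72 131072
noncomputable def fg (x : ℕ) : ℕ := bt x 96 67108864
noncomputable def fp (p : Pm) (x : ℕ) : ℕ := force (f1 x) (kp p)
noncomputable def fn (p : Pm) (x : ℕ) : ℕ := force (f1 x) (kn p)

/-- `2 ^ 70 * (a + (k - l) * b)` is about `nA a b k l - nB b k l`. -/
noncomputable def nA (a b k l : ℕ) : ℕ :=
  Nat.add (Nat.add (Nat.shiftLeft a 40) (Nat.mul k b)) (Nat.shiftLeft l 31)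
noncomputable def nB (b k l : ℕ) : ℕ :=
  Nat.add (Nat.add 2361183241434822606848 (Nat.mul l b)) (Nat.shiftLeft k 31)
noncomputable def nO (x a b : ℕ) : ℕ := Nat.shiftRight (Nat.mul (fa x) (Nat.sub a b)) 56

noncomputable def nxp (p : Pm) (x : ℕ) : ℕ :=
  ite' (fO x) (nO x (nA (cT (fm x)) (sT (fm x)) (fn p x) (fp p x)) (nB (sT (fm x)) (fn p x) (fp p x)))
    (Nat.sub 2147483648 (cT (fm x)))
noncomputable def nxn (p : Pm) (x : ℕ) : ℕ :=
  ite' (fO x) (nO x (nB (sT (fm x)) (fn p x) (fp p x)) (nA (cT (fm x)) (sT (fm x)) (fn p x) (fp p x)))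
    (Nat.sub (cT (fm x)) 2147483648)
noncomputable def nyp (p : Pm) (x : ℕ) : ℕ :=
  ite' (fO x) (nO x (nA (sT (fm x)) (cT (fm x)) (fp p x) (fn p x)) (nB (cT (fm x)) (fp p x) (fn p x)))
    (Nat.sub 2147483648 (sT (fm x)))
noncomputable def nyn (p : Pm) (x : ℕ) : ℕ :=
  ite' (fO x) (nO x (nB (cT (fm x)) (fp p x) (fn p x)) (nA (sT (fm x)) (cT (fm x)) (fp p x) (fn p x)))
    (Nat.sub (sT (fm x)) 2147483648)

/-- `2 ^ 40 * (1 + |ka|)`. -/
noncomputable def fk (p : Pm) (x : ℕ) : ℕ := Nat.add (Nat.add 1099511627776 (fp p x)) (fn p x)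
noncomputable def gd (p : Pm) (x : ℕ) : ℕ :=
  Nat.add (Nat.shiftRight (Nat.mul (fk p x) (ex 8589934592 (Nat.shiftLeft (fg x) 30))) 40) 1
noncomputable def cwF (p : Pm) (i m : ℕ) : ℕ := force i fun i => force m (cw p i)
noncomputable def eVF (p : Pm) (n i : ℕ) (v : Vx) : ℕ := force i fun i => eV p n i v
noncomputable def cw1 (p : Pm) (x : ℕ) : ℕ := cwF p (f1 x) (fm x)
noncomputable def bO (p : Pm) (n x : ℕ) (v : Vx) : ℕ :=
  Nat.add 2147483795 (Nat.shiftRight (Nat.mul (fa x)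
    (mx (ex (Nat.add (eVF p n (f1 x) v) (cw1 p x)) 35184372088832) (gd p x))) 26)
noncomputable def cx (x : ℕ) : ℕ :=
  mD (Nat.sub (cT (fa x)) 2147483684) (expL (Nat.shiftLeft (fg x) 12))
noncomputable def cy (x : ℕ) : ℕ :=
  Nat.mul (cx x) (Nat.add 17596481011712 (Nat.shiftLeft (fg x) 12))
noncomputable def bI (p : Pm) (n x : ℕ) (v : Vx) : ℕ :=
  Nat.add (Nat.shiftRight (Nat.sub
    (Nat.add 9223372346092421120 (Nat.mul (cx x) (eVF p n (f1 x) v))) (cy x)) 32) 1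

/-- Offset of the facet; scale `2 ^ 30`, bias `2 ^ 31`. -/
noncomputable def bF (p : Pm) (n x : ℕ) (v : Vx) : ℕ := ite' (fO x) (bO p n x v) (bI p n x v)

noncomputable def entOK (p : Pm) (c : Cel) (n ty i : ℕ) : Bool :=
  force i fun i => band (Nat.beq (ef p i 0) ty) (resOK p c n i)

noncomputable def facOK (p : Pm) (c : Cel) (n x : ℕ) : Bool :=
  band (band (band (Nat.ble (nxp p x) 4294967296) (Nat.ble (nxn p x) 4294967296))
    (band (Nat.ble (nyp p x) 4294967296) (Nat.ble (nyn p x) 4294967296)))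
  (ite' (fO x)
    (band (entOK p c n 0 (f1 x)) (band (Nat.ble (Nat.mul (fa x) (fk p x)) 144115188075855872)
      (bor (Nat.beq (Nat.add (fp p x) (fn p x)) 0) (band (entOK p c n 0 (f2 x))
        (Nat.beq (ite' (Nat.beq (fp p x) 0) (force (f2 x) (kn p)) (force (f2 x) (kp p))) 0)))))
    (band (entOK p c n 2 (f1 x)) (band (entOK p c n 0 (f2 x)) (band (entOK p c n 0 (f3 x))
      (band (Nat.ble 1 (force (f2 x) (kp p))) (band (Nat.ble 1 (force (f3 x) (kn p)))
        (Nat.ble (fa x) 1024)))))))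

noncomputable def cw2 (p : Pm) (x : ℕ) : ℕ :=
  Nat.add (cwF p (f2 x) (ite' (Nat.beq (fp p x) 0) (Nat.add (fm x) 2048) (Nat.sub (fm x) 2048)))
    (Nat.shiftLeft (fg x) 30)
noncomputable def cw3 (p : Pm) (x : ℕ) : ℕ := cwF p (f2 x) (Nat.add (fm x) (fa x))
noncomputable def cw4 (p : Pm) (x : ℕ) : ℕ := cwF p (f3 x) (Nat.sub (fm x) (fa x))

noncomputable def facV (p : Pm) (n x : ℕ) (v : Vx) : Bool :=
  ite' (fO x)
    (bor (Nat.beq (Nat.add (fp p x) (fn p x)) 0)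
      (Nat.ble (Nat.add (eVF p n (f2 x) v) (cw2 p x)) 35192962023424))
    (band (Nat.ble (Nat.add (Nat.add (eVF p n (f2 x) v) (eVF p n (f1 x) v)) (cw3 p x))
        52776558133248)
      (Nat.ble (Nat.add (Nat.add (eVF p n (f3 x) v) (eVF p n (f1 x) v)) (cw4 p x)) 52776558133248))

/-! Records of a leaf; the index `j` stands for the frequency `j + 1`. -/

noncomputable def s0 (L : Lf) (j : ℕ) : ℕ := bt L.st (Nat.mul 8 j) 256
noncomputable def nf (L : Lf) (j : ℕ) : ℕ := Nat.sub (s0 L (Nat.add j 1)) (s0 L j)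
noncomputable def fc (L : Lf) (j i : ℕ) : ℕ :=
  bt L.fs (Nat.mul 128 (Nat.add (s0 L j) i)) 340282366920938463463374607431768211456
noncomputable def ue (L : Lf) (j : ℕ) : ℕ := bt L.u (Nat.mul 16 j) 65536

/-- Sum over all facets. -/
noncomputable def sumF (p : Pm) (L : Lf) (f : ℕ → ℕ → ℕ → ℕ → ℕ) : ℕ :=
  sumN p.J fun j => force (Nat.add j 1) fun n => sumN (nf L j) fun i => force (fc L j i) (f j n i)

/-- Upper bound for the modulus; scale `2 ^ 40`. -/
noncomputable def mV (p : Pm) (L : Lf) (j : ℕ) (v : Vx) : ℕ :=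
  force (Nat.add j 1) fun n => ex (eVF p n (ue L j) v) 17592186044416

/-! Kernels. -/

noncomputable def kA (K : ℕ) : ℕ := bt K 0 4294967296
noncomputable def kC (K : ℕ) : ℕ := bt K 32 4294967296
noncomputable def kP (K j : ℕ) : ℕ := bt K (Nat.add 64 (Nat.mul 96 j)) 2147483648
noncomputable def kQ (K j : ℕ) : ℕ := bt K (Nat.add 96 (Nat.mul 96 j)) 2147483648
noncomputable def kR (K j : ℕ) : ℕ := bt K (Nat.add 128 (Nat.mul 96 j)) 2147483648

noncomputable def rowB (d : ℕ) : ℕ × ℕ :=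
  Nat.rec (motive := fun _ => ℕ × ℕ) (0, 0)
    (fun d s => Prod.rec (motive := fun _ => ℕ × ℕ) (fun I S =>
      (Nat.add I (Nat.shiftLeft (Nat.add I (Nat.shiftLeft (one72 d) d)) (Nat.mul 72 (Nat.pow 2 d))),
        Nat.add S (Nat.shiftLeft (Nat.add (Nat.add S (Nat.shiftLeft I (Nat.add d 1)))
          (Nat.shiftLeft (one72 d) (Nat.mul 2 d))) (Nat.mul 72 (Nat.pow 2 d))))) s) d

/-- The rows with lanes `i` and `i ^ 2`. -/
noncomputable def rI : ℕ := (rowB 12).1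
noncomputable def rS : ℕ := (rowB 12).2

noncomputable def sq2 (x : ℕ) : ℕ :=
  Nat.add (Nat.mul (Nat.sub x 1073741824) (Nat.sub x 1073741824))
    (Nat.mul (Nat.sub 1073741824 x) (Nat.sub 1073741824 x))
noncomputable def kE (J K : ℕ) : ℕ :=
  Nat.add (Nat.shiftLeft (kC K) 4) (sumN J fun j =>
    Nat.mul (Nat.add (Nat.mul 316 (Nat.mul (Nat.add j 1) (Nat.add j 1))) 72) (kR K j))
noncomputable def kUV (J : ℕ) : ℕ :=
  Nat.shiftLeft (sumN J fun j => Nat.add (yC (Nat.add j 1)) (yS (Nat.add j 1))) 30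
noncomputable def kcX (J K : ℕ) : ℕ := Nat.add (Nat.shiftLeft (kA K) 30) (Nat.shiftLeft J 62)
noncomputable def kcY (J K : ℕ) : ℕ :=
  Nat.add (Nat.shiftLeft (sumN J fun j => Nat.add (kP K j) (kQ K j)) 31) (kE J K)
noncomputable def kX (J K : ℕ) : ℕ :=
  Nat.add (Nat.add (sumN J fun j => Nat.add (Nat.mul (kP K j) (yC (Nat.add j 1)))
    (Nat.mul (kQ K j) (yS (Nat.add j 1)))) (Nat.mul (Nat.shiftLeft (kC K) 6) rS))
    (Nat.mul (kcX J K) (one72 12))
noncomputable def kY (J K : ℕ) : ℕ :=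
  Nat.add (Nat.add (kUV J) (Nat.mul (Nat.shiftLeft (kC K) 18) rI)) (Nat.mul (kcY J K) (one72 12))

noncomputable def chkK (J K : ℕ) : Bool :=
  band (allN J fun j => Nat.ble (Nat.add (sq2 (kP K j)) (sq2 (kQ K j))) (Nat.mul (kR K j) (kR K j)))
  (band (Nat.ble (kcX J K) 590295810358705651712)
  (band (Nat.ble (kcY J K) 590295810358705651712)
  (band (Nat.ble (Nat.add (Nat.shiftLeft (Nat.add J 1) 60) (kE J K))
      (Nat.shiftLeft (Nat.add (kA K) (sumN J fun j => kP K j)) 30))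
  (band (geqR 72 0 4096 (kX J K) (kY J K) h72)
    (geqR 72 0 4096 (Nat.add (kX J K) (Nat.mul (Nat.shiftLeft (kC K) 31) (one72 12)))
      (Nat.add (Nat.add (kY J K) (Nat.mul (Nat.shiftLeft (kC K) 19) rI))
        (Nat.shiftLeft (one72 12) 60)) h72)))))

noncomputable def chkKT (J : ℕ) (t : BT) : Bool :=
  BT.rec (motive := fun _ => Bool) (fun K => chkK J K) (fun _ _ l r => band l r) t

/-! Lanes of a segment. -/

noncomputable def sub (g : Sg) (T : ℕ) : ℕ :=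
  Nat.mod (Nat.shiftRight T (Nat.mul 72 g.lo)) (Nat.pow 2 (Nat.mul 72 g.cnt))
noncomputable def one (g : Sg) : ℕ := Nat.mod (one72 12) (Nat.pow 2 (Nat.mul 72 g.cnt))
noncomputable def hh (g : Sg) : ℕ := Nat.shiftLeft (one g) 71
noncomputable def geq (g : Sg) (X Y : ℕ) : Bool := geqR 72 0 g.cnt X Y (hh g)
noncomputable def uu (g : Sg) (j : ℕ) : ℕ := sub g (yC (Nat.add j 1))
noncomputable def vv (g : Sg) (j : ℕ) : ℕ := sub g (yS (Nat.add j 1))

/-- Positive and negative parts of `(-1) ^ (j + 1) * (x - 2 ^ 30)`. -/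
noncomputable def sgP (j x : ℕ) : ℕ :=
  ite' (Nat.beq (Nat.mod j 2) 0) (Nat.sub 1073741824 x) (Nat.sub x 1073741824)
noncomputable def sgN (j x : ℕ) : ℕ :=
  ite' (Nat.beq (Nat.mod j 2) 0) (Nat.sub x 1073741824) (Nat.sub 1073741824 x)
noncomputable def pp (g : Sg) (j : ℕ) : ℕ := sgP j (kP g.K j)
noncomputable def pn (g : Sg) (j : ℕ) : ℕ := sgN j (kP g.K j)
noncomputable def qp (g : Sg) (j : ℕ) : ℕ := sgP j (kQ g.K j)
noncomputable def qn (g : Sg) (j : ℕ) : ℕ := sgN j (kQ g.K j)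

/-- `a X + b Y + 2 ^ 31 (c + d)`. -/
noncomputable def cmb (g : Sg) (a X b Y c d : ℕ) : ℕ :=
  Nat.add (Nat.add (Nat.mul a X) (Nat.mul b Y)) (Nat.mul (Nat.shiftLeft (Nat.add c d) 31) (one g))

noncomputable def AP (g : Sg) (j : ℕ) : ℕ :=
  cmb g (pp g j) (uu g j) (qn g j) (vv g j) (pn g j) (qp g j)
noncomputable def AM (g : Sg) (j : ℕ) : ℕ :=
  cmb g (pn g j) (uu g j) (qp g j) (vv g j) (pp g j) (qn g j)
noncomputable def BP (g : Sg) (j : ℕ) : ℕ :=
  cmb g (pp g j) (vv g j) (qp g j) (uu g j) (pn g j) (qn g j)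
noncomputable def BM (g : Sg) (j : ℕ) : ℕ :=
  cmb g (pn g j) (vv g j) (qn g j) (uu g j) (pp g j) (qp g j)

/-! The multipliers: nothing is proved about `lam0`. -/

noncomputable def m32 (g : Sg) : ℕ := Nat.mul 4294967295 (one g)
noncomputable def m42 (g : Sg) : ℕ := Nat.mul 4398046511103 (one g)
noncomputable def m46 (g : Sg) : ℕ := Nat.mul 70368744177663 (one g)
noncomputable def hat (g : Sg) (X Y : ℕ) : ℕ :=
  Nat.land (Nat.shiftRight (Nat.sub (Nat.add X (Nat.shiftLeft (one g) 61)) Y) 30) (m42 g)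
noncomputable def aH (g : Sg) (j : ℕ) : ℕ := hat g (AP g j) (AM g j)
noncomputable def bH (g : Sg) (j : ℕ) : ℕ := hat g (BP g j) (BM g j)
noncomputable def vI (p : Pm) (g : Sg) (j x : ℕ) : ℕ :=
  Nat.sub (Nat.add (hh g) (cmb g (nxp p x) (bH g j) (nyn p x) (aH g j) (nxn p x) (nyp p x)))
    (cmb g (nxn p x) (bH g j) (nyp p x) (aH g j) (nxp p x) (nyn p x))
noncomputable def tI (p : Pm) (g : Sg) (j x : ℕ) : ℕ := Nat.land (vI p g j x) (hh g)
noncomputable def kI (p : Pm) (g : Sg) (j x y : ℕ) : ℕ :=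
  Nat.sub (tI p g j x) (Nat.land (tI p g j x) (tI p g j y))
noncomputable def mI (p : Pm) (g : Sg) (j x y : ℕ) : ℕ :=
  Nat.sub (kI p g j x y) (Nat.shiftRight (kI p g j x y) 71)
noncomputable def inv (p : Pm) (x y : ℕ) : ℕ :=
  Nat.div 19807040628566084398385987584 (Nat.sub
    (Nat.add (Nat.add (Nat.mul (nxp p x) (nyp p y)) (Nat.mul (nxn p x) (nyn p y)))
      (Nat.add (Nat.mul (nyp p x) (nxn p y)) (Nat.mul (nyn p x) (nxp p y))))
    (Nat.add (Nat.add (Nat.mul (nxp p x) (nyn p y)) (Nat.mul (nxn p x) (nyp p y)))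
      (Nat.add (Nat.mul (nyp p x) (nxp p y)) (Nat.mul (nyn p x) (nxn p y)))))
noncomputable def lam0 (p : Pm) (g : Sg) (j w x y : ℕ) : ℕ :=
  Nat.shiftRight (Nat.add
    (Nat.mul (inv p x y) (Nat.land (Nat.shiftRight
      (Nat.sub (mI p g j x y) (Nat.land (vI p g j y) (mI p g j x y))) 26) (m46 g)))
    (Nat.mul (inv p w x) (Nat.land (Nat.shiftRight
      (Nat.land (vI p g j w) (mI p g j w x)) 26) (m46 g)))) 38
noncomputable def lam1 (p : Pm) (L : Lf) (g : Sg) (j i : ℕ) : ℕ :=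
  force (fc L j (Nat.mod (Nat.add i (Nat.sub (nf L j) 1)) (nf L j))) fun w =>
    force (fc L j i) fun x => force (fc L j (Nat.mod (Nat.add i 1) (nf L j))) (lam0 p g j w x)
noncomputable def lam (p : Pm) (L : Lf) (g : Sg) (j i : ℕ) : ℕ :=
  Nat.land (lam1 p L g j i) (m32 g)

noncomputable def sL (p : Pm) (L : Lf) (g : Sg) (j : ℕ) (f : ℕ → ℕ) : ℕ :=
  sumN (nf L j) fun i => Nat.mul (force (fc L j i) f) (lam p L g j i)
noncomputable def near (g : Sg) (X Y : ℕ) : Bool :=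
  force X fun X => force Y fun Y =>
    band (geq g (Nat.add X (Nat.shiftLeft (one g) 35)) Y)
      (geq g (Nat.add Y (Nat.shiftLeft (one g) 35)) X)

/-- The direction is a combination of the normals up to a small residual. -/
noncomputable def rsOK (p : Pm) (L : Lf) (g : Sg) (j : ℕ) : Bool :=
  band (near g (Nat.add (AP g j) (sL p L g j (nxn p))) (Nat.add (AM g j) (sL p L g j (nxp p))))
    (near g (Nat.add (BP g j) (sL p L g j (nyn p))) (Nat.add (BM g j) (sL p L g j (nyp p))))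

noncomputable def XN (p : Pm) (L : Lf) (g : Sg) : ℕ :=
  Nat.shiftLeft (sumF p L fun j _ i _ => lam p L g j i) 31
noncomputable def XP (p : Pm) (L : Lf) (g : Sg) (v : Vx) : ℕ :=
  sumF p L fun j n i x => Nat.mul (bF p n x v) (lam p L g j i)
noncomputable def mS (p : Pm) (L : Lf) (g : Sg) (v : Vx) : ℕ :=
  Nat.add (Nat.shiftRight (sumN p.J fun j =>
    ite' (Nat.beq (nf L j) 0) (Nat.mul (kR g.K j) (mV p L j v)) 0) 10) 1
noncomputable def fS (p : Pm) (L : Lf) (g : Sg) : ℕ :=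
  sumN p.J fun j => ite' (Nat.beq (nf L j) 0) 0 (Nat.add (Nat.mul
    (Nat.add (Nat.mul 316 (Nat.mul (Nat.add j 1) (Nat.add j 1))) 144) (kR g.K j)) 68719476736)

/-! The normal distribution function. -/

noncomputable def yL (p : Pm) (N n : ℕ) : ℕ := Nat.shiftRight (Nat.mul (t2L p n) N) 53
noncomputable def yU (p : Pm) (N n : ℕ) : ℕ :=
  Nat.add (Nat.shiftRight (Nat.mul (t2U p n) N) 53) 1
noncomputable def gL (p : Pm) (N j : ℕ) : ℕ := force (Nat.add j 1) fun n =>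
  Nat.shiftRight (Nat.div (Nat.mul (expL (yU p N n)) 349985421095) n) 74
noncomputable def gU (p : Pm) (N j : ℕ) : ℕ := force (Nat.add j 1) fun n =>
  Nat.add (Nat.shiftRight (Nat.div (Nat.mul (expU 0 (yL p N n)) 349985421096) n) 74) 1
noncomputable def phP (p : Pm) (N : ℕ) : ℕ :=
  Nat.add (Nat.shiftLeft rI 48) (sumN p.n0 fun j =>
    ite' (Nat.beq (Nat.mod j 2) 0) 0 (Nat.mul (gL p N j) (yS (Nat.add j 1))))
noncomputable def phM (p : Pm) (N : ℕ) : ℕ :=
  sumN p.n0 fun j => ite' (Nat.beq (Nat.mod j 2) 0) (Nat.mul (gL p N j) (yS (Nat.add j 1))) 0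
noncomputable def phCp (p : Pm) (N : ℕ) : ℕ :=
  sumN p.n0 fun j => ite' (Nat.beq (Nat.mod j 2) 0) (Nat.mul 3221225472 (gL p N j)) 0
noncomputable def yT (p : Pm) (N : ℕ) : ℕ := force (Nat.add p.n0 1) (yL p N)
noncomputable def phCm (p : Pm) (N : ℕ) : ℕ :=
  Nat.add (sumN p.n0 fun j => Nat.add (Nat.shiftLeft (gU p N j) 30)
      (Nat.mul (ite' (Nat.beq (Nat.mod j 2) 0) 36 1073741860) (gL p N j)))
    (Nat.add (Nat.shiftRight (expU 0 (yT p N)) 4) 1)
noncomputable def phOK (p : Pm) (N : ℕ) : Bool :=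
  band (Nat.ble (sumN p.n0 fun j => gL p N j) 34359738368)
    (Nat.ble (Nat.shiftLeft (Nat.add p.n0 1) 31) (yT p N))

/-- Last lane of a segment. -/
noncomputable def hi (g : Sg) : ℕ := Nat.sub (Nat.add g.lo g.cnt) 1
noncomputable def zz (p : Pm) (c : Cel) (g : Sg) : ℕ :=
  Nat.div (Nat.shiftLeft (Nat.mul (Nat.mul p.P p.P)
    (Nat.mul (Nat.sub 6144 (hi g)) (Nat.sub 6144 (hi g)))) 27) c.n1
noncomputable def ali (p : Pm) (c : Cel) (g : Sg) : ℕ :=
  Nat.add (Nat.shiftRight (expU 0 (zz p c g)) 4) 1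

/-! The target and the error terms; scale `2 ^ 60`. -/

/-- Approximation of `2 ^ 32 / sqrt (N / 2 ^ 20)`. -/
noncomputable def hA (N : ℕ) : ℕ :=
  force (Nat.div 19342813113834066795298816 N) fun M =>
    iter (fun x => Nat.shiftRight (Nat.add x (Nat.div M x)) 1) 12 34359738368
noncomputable def hL (N : ℕ) : ℕ := Nat.sub (hA N) 1
noncomputable def hU (N : ℕ) : ℕ := Nat.add (hA N) 2
noncomputable def hOK (N : ℕ) : Bool :=
  band (Nat.ble (Nat.mul (Nat.mul (hL N) (hL N)) N) 19342813113834066795298816)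
    (Nat.ble 19342813113834066795298816 (Nat.mul (Nat.mul (hU N) (hU N)) N))
noncomputable def tg (v : Vx) : ℕ :=
  Nat.shiftRight (Nat.mul (Nat.mul (force v.n hL) (be v.k v.j)) 73106946018) 32
noncomputable def psi (p : Pm) (c : Cel) (g : Sg) : ℕ :=
  Nat.add (Nat.add
    (mn 153931627889 (Nat.add (Nat.shiftRight
      (Nat.mul (Nat.mul (Nat.mul p.P (Nat.sub (hi g) 2048)) (force c.n0 hU)) 5) 8) 1))
    (ite' (Nat.ble (Nat.mul (Nat.mul p.P p.P) (Nat.mul (Nat.sub 2048 g.lo) (Nat.sub 2048 g.lo)))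
      (Nat.mul 48 c.n0)) 0 43980465112))
    (Nat.add (Nat.shiftRight (Nat.mul (Nat.mul (be c.k1 c.j1) (force c.n0 hU)) 13) 20) 1)
noncomputable def errN (p : Pm) (c : Cel) (g : Sg) : ℕ :=
  Nat.add (Nat.div (Nat.shiftLeft
    (Nat.mul (Nat.mul (Nat.sub c.n1 c.n0) (Nat.sub c.n1 c.n0)) (psi p c g)) 17)
    (Nat.mul c.n0 c.n0)) 1
noncomputable def errP (p : Pm) (c : Cel) (g : Sg) : ℕ :=
  Nat.add (Nat.add (Nat.div (Nat.mul (Nat.mul p.P p.P) 2341871806232658) c.n0) 1) (ali p c g)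
noncomputable def sbP (p : Pm) (g : Sg) (N : ℕ) : ℕ := sub g (phP p N)
noncomputable def sbM (p : Pm) (g : Sg) (N : ℕ) : ℕ := sub g (phM p N)
noncomputable def sbS (g : Sg) (a : ℕ) : ℕ := Nat.mul (Nat.shiftLeft a 6) (sub g rS)

noncomputable def fin2 (p : Pm) (g : Sg) (ph : Bool) (X Y a N cP cN : ℕ) : Bool :=
  band (Nat.ble cP 295147905179352825856) (band (Nat.ble cN 295147905179352825856)
    (geq g (Nat.add (Nat.add Y (ite' ph (sbP p g N) 0)) (Nat.mul cN (one g)))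
      (Nat.add (Nat.add (Nat.add X (sbS g a)) (ite' ph (sbM p g N) 0)) (Nat.mul cP (one g)))))

/-- Final comparison: `X - Y + s + a (N / P ^ 2 + s ^ 2 + s) - Phi + errors ≤ target`. -/
noncomputable def fin (p : Pm) (c : Cel) (g : Sg) (ph : Bool) (X Y a s : ℕ) (v : Vx) : Bool :=
  force v.n fun N =>
    force (Nat.add (Nat.add (Nat.add s (Nat.add
        (Nat.div (Nat.shiftLeft (Nat.mul a N) 10) (Nat.mul p.P p.P)) 1)) (errN p c g))
        (ite' ph (Nat.add (errP p c g) (phCm p N)) 0)) fun cP =>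
      force (Nat.add (Nat.add (Nat.shiftLeft a 28) (tg v)) (ite' ph (phCp p N) 0))
        (fin2 p g ph X Y a N cP)

noncomputable def allQ (b : Bool) (x y : ℕ) (f : ℕ → Bool) : Bool :=
  ite' b (f y) (band (f x) (f y))

/-- Conjunction over the vertices of a cell. -/
noncomputable def allV (p : Pm) (c : Cel) (f : Vx → Bool) : Bool :=
  Cel.rec (motive := fun _ => Bool) (fun n0 n1 k0 k1 j0 j1 q0 q1 =>
    allQ false n0 n1 fun n => allQ false k0 k1 fun k => allQ false j0 j1 fun j =>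
      allQ p.cq q0 q1 fun q => f ⟨n, k, j, q⟩) c

noncomputable def segK (p : Pm) (c : Cel) (L : Lf) (ph : Bool) (g : Sg) : Bool :=
  band (bor (Bool.not ph) (Nat.ble 4294967296 (zz p c g)))
  (band (allN p.J fun j => bor (Nat.beq (nf L j) 0) (rsOK p L g j))
    (force (kC g.K) fun a => allV p c fun v => fin p c g ph (XP p L g v) (XN p L g) a
      (Nat.add (Nat.add (Nat.shiftLeft (kA g.K) 30) (mS p L g v)) (fS p L g)) v))

noncomputable def segR (p : Pm) (c : Cel) (g : Sg) : Bool :=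
  band (Nat.ble 4294967296 (zz p c g))
    (allV p c fun v => fin p c g true 0 0 0 1152921504606846976 v)

noncomputable def ns (L : Lf) : ℕ := bt L.sg 0 256
noncomputable def ln (L : Lf) (k : ℕ) : ℕ := bt L.sg (Nat.add 8 (Nat.mul 32 k)) 4096
noncomputable def kr (p : Pm) (L : Lf) (k : ℕ) : ℕ :=
  force (bt L.sg (Nat.add 20 (Nat.mul 32 k)) 65536) p.KT.get
noncomputable def mkS (K lo cnt : ℕ) (f : Sg → Bool) : Bool :=
  force K fun K => force lo fun lo => force cnt fun cnt => f ⟨K, lo, cnt⟩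

noncomputable def recOK (p : Pm) (c : Cel) (L : Lf) (j : ℕ) : Bool :=
  force (Nat.add j 1) fun n => ite' (Nat.beq (nf L j) 0)
    (band (entOK p c n 0 (ue L j))
      (Nat.beq (force (ue L j) fun i => ef p i 1) 140737488355328))
    (band (Nat.ble (nf L j) 16) (allN (nf L j) fun i => force (fc L j i) fun x =>
      band (facOK p c n x) (allV p c (facV p n x))))

noncomputable def leafK (p : Pm) (c : Cel) (L : Lf) : Bool :=
  band (band (band (force c.n0 hOK) (force c.n1 hOK))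
    (band (force c.n0 (phOK p)) (force c.n1 (phOK p))))
  (band (Nat.ble (sumN p.J (nf L)) 64)
  (band (allN p.J (recOK p c L))
  (band (allV p c fun v => Nat.ble (sumF p L fun _ n _ x => bF p n x v) 274877906944)
  (band (mkS (kr p L 0) (ln L 0) 1 (segK p c L false))
  (band (mkS 0 (ln L (ns L)) 1 (segR p c))
    (allN (ns L) fun k => band (Nat.ble (Nat.add (ln L k) 1) (ln L (Nat.add k 1)))
      (mkS (kr p L (Nat.add k 1)) (ln L k)
        (Nat.sub (Nat.add (ln L (Nat.add k 1)) 1) (ln L k)) (segK p c L true))))))))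

noncomputable def leafZ (p : Pm) (c : Cel) (n i : ℕ) : Bool :=
  band (Nat.ble 1 n) (band (entOK p c n 1 i) (band (Nat.beq (ef p i 1) 140737488355328)
    (allV p c fun v => Nat.ble (eV p n i v) 17592186044415)))

noncomputable def sqN (x : ℕ) : ℕ := Nat.mul x x

noncomputable def leafO (p : Pm) (c : Cel) : Bool :=
  bor (Nat.ble (Nat.add (sqN (Nat.mul (be c.k1 c.j1) 178426174284)) 1)
      (Nat.shiftLeft (Nat.mul (sqN p.l0) c.n0) 60))
    (bor (Nat.ble (Nat.add (Nat.shiftLeft (Nat.mul (sqN p.l1) c.n1) 60) 1)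
        (sqN (Nat.mul (be c.k0 c.j0) 178426174283)))
      (Nat.ble (Nat.add c.n1 1) c.q0))

inductive CT where
  | lf : ℕ → ℕ → ℕ → ℕ → CT
  | z : ℕ → ℕ → CT
  | out : CT
  | nd : ℕ → CT → CT → CT

noncomputable def mid (a b : ℕ) : ℕ := Nat.shiftRight (Nat.add a b) 1

noncomputable def spl (d : ℕ) (f g : Cel → Bool) (c : Cel) : Bool :=
  Cel.rec (motive := fun _ => Bool) (fun n0 n1 k0 k1 j0 j1 q0 q1 =>
    ite' (Nat.ble d 1)
      (ite' (Nat.ble d 0)
        (force (mid n0 n1) fun m =>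
          band (f ⟨n0, m, k0, k1, j0, j1, q0, q1⟩) (g ⟨m, n1, k0, k1, j0, j1, q0, q1⟩))
        (force (mid k0 k1) fun m =>
          band (f ⟨n0, n1, k0, m, j0, j1, q0, q1⟩) (g ⟨n0, n1, m, k1, j0, j1, q0, q1⟩)))
      (ite' (Nat.ble d 2)
        (force (mid j0 j1) fun m =>
          band (f ⟨n0, n1, k0, k1, j0, m, q0, q1⟩) (g ⟨n0, n1, k0, k1, m, j1, q0, q1⟩))
        (force (mid q0 q1) fun m =>
          band (f ⟨n0, n1, k0, k1, j0, j1, q0, m⟩) (g ⟨n0, n1, k0, k1, j0, j1, m, q1⟩)))) c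

noncomputable def chkC (p : Pm) (t : CT) : Cel → Bool :=
  CT.rec (motive := fun _ => Cel → Bool) (fun u st fs sg c => leafK p c ⟨u, st, fs, sg⟩)
    (fun n i c => leafZ p c n i) (fun c => leafO p c) (fun d _ _ l r => spl d l r) t

end Pool.Agent.Lib.MP_33650d_pr.X
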