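import Pool.Agent.Lib.MP_33650d_pr.X.CInst

namespace Pool.Agent.Lib.MP_33650d_pr.X
open MeasureTheory ProbabilityTheory Real

variable {p : Pm} {P : JP} {S : Sys} {c : Cel} {M : (Vx → ℝ) →ₗ[ℝ] ℝ} {θ : ℝ}

seal Nat.shiftRight Nat.shiftLeft Nat.mod Nat.sub Nat.add Nat.mul Nat.pow
seal one72 yC yS expT expU expL cT sT ex eV cw kp kn fa fg fm f1 f2 f3

theorem cfac_spiral0 {k ψ : ℝ} (h0 : 0 ≤ ψ) (h1 : ψ ≤ π) :
    exp (k * ψ) * (cos ψ - k * sin ψ) ≤ 1 := by
  have hd : ∀ y : ℝ, HasDerivAt (fun y => exp (k * y) * (cos y - k * sin y))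
      (-((1 + k ^ 2) * (exp (k * y) * sin y))) y := by
    intro y
    have a1 : HasDerivAt (fun y => exp (k * y)) (exp (k * y) * (k * 1)) y :=
      ((hasDerivAt_id y).const_mul k).exp
    have a2 : HasDerivAt (fun y => cos y - k * sin y) (-sin y - k * cos y) y :=
      (hasDerivAt_cos y).sub ((hasDerivAt_sin y).const_mul k)
    exact (a1.mul a2).congr_deriv (by ring)
  have hA : AntitoneOn (fun y => exp (k * y) * (cos y - k * sin y)) (Set.Icc 0 π) := by
    refine antitoneOn_of_deriv_nonpos (convex_Icc 0 π)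
      (fun y _ => (hd y).continuousAt.continuousWithinAt)
      (fun y _ => (hd y).differentiableAt.differentiableWithinAt) fun y hy => ?_
    rw [interior_Icc] at hy
    rw [(hd y).deriv]
    have := sin_nonneg_of_nonneg_of_le_pi hy.1.le hy.2.le
    have h2 : 0 ≤ (1 + k ^ 2) * (exp (k * y) * sin y) := by positivity
    linarith
  have := hA ⟨le_rfl, pi_pos.le⟩ ⟨h0, h1⟩ h0
  simpa using this

theorem cfac_spiral {k φ : ℝ} (hk : 0 ≤ k) (h : -π ≤ φ) : cos φ + k * sin φ ≤ exp (k * φ) := by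
  rcases le_total 0 φ with h0 | h0
  · have a1 := cos_le_one φ
    have a2 := mul_le_mul_of_nonneg_left (sin_le h0) hk
    have a3 := add_one_le_exp (k * φ)
    linarith
  · have a := cfac_spiral0 (k := k) (ψ := -φ) (by linarith) (by linarith)
    rw [cos_neg, sin_neg] at a
    have e : exp (k * -φ) * exp (k * φ) = 1 := by
      rw [← exp_add]
      simp
    have b := mul_le_mul_of_nonneg_left a (exp_pos (k * φ)).le
    have e2 : exp (k * φ) * (exp (k * -φ) * (cos φ - k * -sin φ))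
        = (exp (k * -φ) * exp (k * φ)) * (cos φ + k * sin φ) := by ring
    rw [e2, e] at b
    linarith

theorem cfac_spiral' {k φ : ℝ} (hk : k ≤ 0) (h : φ ≤ π) : cos φ + k * sin φ ≤ exp (k * φ) := by
  have a := cfac_spiral (k := -k) (φ := -φ) (by linarith) (by linarith)
  rw [cos_neg, sin_neg] at a
  simpa using a

theorem cfac_sub_sub (a b : ℕ) : ((Nat.sub a b : ℕ) : ℝ) - (Nat.sub b a : ℕ) = a - b := by
  rcases le_total a b with h | h
  · have e : Nat.sub a b = 0 := by rw [Nat.sub_eq]; omega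
    rw [e, cast_nsub (by exact_mod_cast h)]
    simp
  · have e : Nat.sub b a = 0 := by rw [Nat.sub_eq]; omega
    rw [e, cast_nsub (by exact_mod_cast h)]
    simp

theorem cfac_nO (x A B : ℕ) :
    |((nO x A B : ℝ) - nO x B A) - fa x * ((A : ℝ) - B) / 2 ^ 56| ≤ 1 := by
  have a1 := cast_shr_le (Nat.mul (fa x) (Nat.sub A B)) 56
  have a2 := cast_shr_ge (Nat.mul (fa x) (Nat.sub A B)) 56
  have b1 := cast_shr_le (Nat.mul (fa x) (Nat.sub B A)) 56
  have b2 := cast_shr_ge (Nat.mul (fa x) (Nat.sub B A)) 56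
  rw [cast_nmul] at a1 a2 b1 b2
  rw [← cfac_sub_sub A B, mul_sub, sub_div]
  unfold nO
  rw [abs_le]
  constructor <;> linarith

theorem cfac_nrm (x a b k l : ℕ) {u v : ℝ} (ha : |(a : ℝ) - (u + 2) * 2 ^ 30| ≤ 36)
    (hb : |(b : ℝ) - (v + 2) * 2 ^ 30| ≤ 36)
    (hf : (fa x : ℝ) * (2 ^ 40 + k + l) ≤ 2 ^ 57) :
    |((nO x (nA a b k l) (nB b k l) : ℝ) - nO x (nB b k l) (nA a b k l))
      - fa x * 2 ^ 14 * (u + ((k : ℝ) - l) / 2 ^ 40 * v)| ≤ 73 := by
  have h := cfac_nO x (nA a b k l) (nB b k l)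
  have e : ((nA a b k l : ℕ) : ℝ) - nB b k l
      = ((a : ℝ) - 2 ^ 31) * 2 ^ 40 + ((k : ℝ) - l) * (b - 2 ^ 31) := by
    unfold nA nB
    simp only [cast_nadd, cast_nmul, cast_shl]
    push_cast
    ring
  rw [e] at h
  obtain ⟨d1, hd1⟩ : ∃ d : ℝ, d = (a : ℝ) - (u + 2) * 2 ^ 30 := ⟨_, rfl⟩
  obtain ⟨d2, hd2⟩ : ∃ d : ℝ, d = (b : ℝ) - (v + 2) * 2 ^ 30 := ⟨_, rfl⟩
  rw [← hd1] at ha
  rw [← hd2] at hb
  have e2 : (fa x : ℝ) * (((a : ℝ) - 2 ^ 31) * 2 ^ 40 + ((k : ℝ) - l) * (b - 2 ^ 31)) / 2 ^ 56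
      = fa x * 2 ^ 14 * (u + ((k : ℝ) - l) / 2 ^ 40 * v)
        + (fa x * 2 ^ 40 * d1 + fa x * k * d2 - fa x * l * d2) / 2 ^ 56 := by
    rw [hd1, hd2]
    ring
  rw [e2] at h
  have f0 : (0 : ℝ) ≤ fa x := Nat.cast_nonneg _
  have k0 : (0 : ℝ) ≤ fa x * k := by positivity
  have l0 : (0 : ℝ) ≤ fa x * l := by positivity
  have m0 : (0 : ℝ) ≤ fa x * 2 ^ 40 := by positivity
  obtain ⟨ha1, ha2⟩ := abs_le.1 ha
  obtain ⟨hb1, hb2⟩ := abs_le.1 hb
  have c1 := mul_le_mul_of_nonneg_left ha1 m0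
  have c2 := mul_le_mul_of_nonneg_left ha2 m0
  have c3 := mul_le_mul_of_nonneg_left hb1 k0
  have c4 := mul_le_mul_of_nonneg_left hb2 k0
  have c5 := mul_le_mul_of_nonneg_left hb1 l0
  have c6 := mul_le_mul_of_nonneg_left hb2 l0
  have hf' : fa x * 2 ^ 40 + (fa x : ℝ) * k + fa x * l ≤ 2 ^ 57 := by linarith
  have g1 : (fa x * 2 ^ 40 * d1 + fa x * k * d2 - fa x * l * d2) / 2 ^ 56 ≤ 72 := by
    rw [div_le_iff₀ (by positivity)]
    linarith
  have g2 : -72 ≤ (fa x * 2 ^ 40 * d1 + fa x * k * d2 - fa x * l * d2) / 2 ^ 56 := by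
    rw [le_div_iff₀ (by positivity)]
    linarith
  obtain ⟨h1, h2⟩ := abs_le.1 h
  rw [abs_le]
  constructor <;> linarith

theorem cfac_dot {X Y a b e R W : ℝ} (hX : |X - a| ≤ e) (hY : |Y - b| ≤ e) (h0 : 0 ≤ R)
    (h1 : R ≤ 1) : X * (R * cos W) + Y * (R * sin W) ≤ a * (R * cos W) + b * (R * sin W) + 2 * e := by
  have he : 0 ≤ e := (abs_nonneg _).trans hX
  have key : ∀ d z : ℝ, |d| ≤ e → |z| ≤ 1 → d * (R * z) ≤ e := by
    intro d z hd hz
    have a1 : |R * z| ≤ 1 := by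
      rw [abs_mul, abs_of_nonneg h0]
      exact mul_le_one₀ h1 (abs_nonneg _) hz
    calc d * (R * z) ≤ |d * (R * z)| := le_abs_self _
      _ = |d| * |R * z| := abs_mul _ _
      _ ≤ e * 1 := mul_le_mul hd a1 (abs_nonneg _) he
      _ = e := mul_one e
  have b1 := key _ _ hX (abs_cos_le_one W)
  have b2 := key _ _ hY (abs_sin_le_one W)
  linarith

theorem cfac_polar (hp : p.Ok P) (h : In P S c) {n : ℕ} (hn : 1 ≤ n) :
    (charFun S.ν (tn p n)).re = ‖charFun S.ν (tn p n)‖ * cos (S.W (tn p n)) ∧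
    (charFun S.ν (tn p n)).im = ‖charFun S.ν (tn p n)‖ * sin (S.W (tn p n)) ∧
      ‖charFun S.ν (tn p n)‖ ≤ 1 := by
  have ht : 0 < tn p n := by
    unfold tn
    have a1 : (0 : ℝ) < n := by exact_mod_cast hn
    have a2 : (0 : ℝ) < p.P := by exact_mod_cast hp.P0
    positivity
  obtain ⟨e, h1⟩ := h.ok.polar ht
  refine ⟨?_, ?_, h1⟩
  · conv_lhs => rw [e]
    rw [Complex.re_ofReal_mul, Complex.exp_ofReal_mul_I_re]
  · conv_lhs => rw [e]
    rw [Complex.im_ofReal_mul, Complex.exp_ofReal_mul_I_im]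

theorem cfac_kk (p : Pm) (i : ℕ) : kp p i = 0 ∨ kn p i = 0 := by
  unfold kp kn
  rw [Nat.sub_eq, Nat.sub_eq]
  omega

theorem cfac_fm (x : ℕ) : 2048 ≤ fm x := by
  unfold fm
  rw [Nat.add_eq]
  omega

theorem cfac_om_add (m a : ℕ) : om (Nat.add m a) = om m + 2 * π * a / 4096 := by
  unfold om
  rw [cast_nadd]
  ring

theorem cfac_om_sub {m a : ℕ} (h : a ≤ m) : om (Nat.sub m a) = om m - 2 * π * a / 4096 := by
  unfold om
  rw [cast_nsub (by exact_mod_cast h)]
  ring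

/-- A guard entry bounds the modulus. -/
theorem cfac_guard (hp : p.Ok P) (h : In P S c) (hM : Mean p P S c M θ) {n i m g : ℕ}
    (hn : 1 ≤ n) (he : entOK p c n 0 i = true)
    (hv : ∀ v, IsV p c v → Nat.ble (Nat.add (eV p n i v) (Nat.add (cw p i m)
      (Nat.shiftLeft g 30))) 35192962023424 = true)
    (hW : (dec (en p i)).ka * om m ≤ (dec (en p i)).ka * S.W (tn p n)) :
    ‖charFun S.ν (tn p n)‖ ≤ exp (2 - (g : ℝ) / 4) := by
  obtain ⟨ht, E, hC, hE⟩ := ent_mean hp h hM hn he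
  have a1 := hC.1 ht
  have a2 := cw_spec p i m
  have a3 : M (eR p n i) ≤ 2 - (g : ℝ) / 4 - ((cw p i m : ℝ) - 2 ^ 44) / 2 ^ 32 := by
    refine hM.le_of fun v hv' => ?_
    have b := ble_cast (hv v hv')
    rw [cast_nadd, cast_nadd, cast_shl] at b
    push_cast at b
    unfold eR
    linarith
  rw [← le_div_iff₀ (exp_pos _), ← exp_sub] at a1
  exact a1.trans (exp_le_exp.2 (by linarith))

theorem cfac_gd (p : Pm) (x : ℕ) :
    (2 ^ 40 + fp p x + fn p x) * exp (2 - (fg x : ℝ) / 4) ≤ gd p x := by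
  have a1 := ex_spec 8589934592 (Nat.shiftLeft (fg x) 30)
  have a2 := cast_shr_ge (Nat.mul (fk p x) (ex 8589934592 (Nat.shiftLeft (fg x) 30))) 40
  rw [cast_shl] at a1
  have e : (((8589934592 : ℕ) : ℝ) - fg x * 2 ^ 30) / 2 ^ 32 = 2 - (fg x : ℝ) / 4 := by
    push_cast
    ring
  rw [e] at a1
  have e2 : (fk p x : ℝ) = 2 ^ 40 + fp p x + fn p x := by
    unfold fk
    rw [cast_nadd, cast_nadd]
    push_cast
    norm_num
  rw [cast_nmul, e2] at a2
  unfold gd
  rw [cast_nadd]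
  have f0 : (0 : ℝ) ≤ 2 ^ 40 + fp p x + fn p x := by positivity
  have a3 := mul_le_mul_of_nonneg_left a1 f0
  have a4 : (2 ^ 40 + fp p x + fn p x) * exp (2 - (fg x : ℝ) / 4)
      ≤ (2 ^ 40 + fp p x + fn p x) * (ex 8589934592 (Nat.shiftLeft (fg x) 30) : ℝ) / 2 ^ 40 := by
    rw [le_div_iff₀ (by positivity)]
    linarith
  push_cast
  linarith

/-- The largest of the two bounds of an outer facet. -/
noncomputable def cfacB (p : Pm) (n x : ℕ) (v : Vx) : ℝ :=
  (mx (ex (Nat.add (eV p n (f1 x) v) (cw p (f1 x) (fm x))) 35184372088832) (gd p x) : ℕ)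

theorem cfac_sp (hp : p.Ok P) (h : In P S c) (hM : Mean p P S c M θ) {n x : ℕ}
    (hn : 1 ≤ n) (he : entOK p c n 0 (f1 x) = true) {φ : ℝ}
    (hs : φ ≤ exp ((dec (en p (f1 x))).ka * (S.W (tn p n) - om (fm x)))) :
    ‖charFun S.ν (tn p n)‖ * φ * 2 ^ 40 ≤ M (cfacB p n x) := by
  obtain ⟨ht, E, hC, hE⟩ := ent_mean hp h hM hn he
  have a1 := hC.1 ht
  have a2 := cw_spec p (f1 x) (fm x)
  obtain ⟨w, hw⟩ : ∃ w : ℝ, w = ((cw p (f1 x) (fm x) : ℝ) - 2 ^ 44) / 2 ^ 32 := ⟨_, rfl⟩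
  rw [← hw] at a2
  have a3 : E + w ≤ M fun v => w + 1 * eR p n (f1 x) v := by
    rw [hM.aff]
    linarith
  have a4 := hM.exp_le a3
  have a5 : M (fun v => 0 + 2 ^ 40 * exp (w + 1 * eR p n (f1 x) v)) ≤ M (cfacB p n x) := by
    refine hM.mono _ _ fun v _ => ?_
    have b := ex_spec (Nat.add (eV p n (f1 x) v) (cw p (f1 x) (fm x))) 35184372088832
    have e : ((((Nat.add (eV p n (f1 x) v) (cw p (f1 x) (fm x))) : ℕ) : ℝ)
        - ((35184372088832 : ℕ) : ℝ)) / 2 ^ 32 = w + 1 * eR p n (f1 x) v := by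
      rw [cast_nadd, hw]
      unfold eR
      push_cast
      ring
    rw [e] at b
    unfold cfacB
    rw [mx_eq, Nat.cast_max]
    exact le_max_of_le_left (by linarith)
  rw [hM.aff] at a5
  have a6 := mul_le_mul_of_nonneg_left hs (norm_nonneg (charFun S.ν (tn p n)))
  have a7 : ‖charFun S.ν (tn p n)‖ * exp ((dec (en p (f1 x))).ka * (S.W (tn p n) - om (fm x)))
      ≤ exp (E + w) := by
    rw [mul_sub, sub_eq_add_neg, exp_add, exp_add, ← mul_assoc]
    exact mul_le_mul a1 (exp_le_exp.2 a2) (exp_pos _).le (exp_pos _).le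
  linarith

theorem cfac_gu (hM : Mean p P S c M θ) {n x : ℕ} {R φ : ℝ} (h0 : 0 ≤ R)
    (hR : R ≤ exp (2 - (fg x : ℝ) / 4)) :
    R * (cos φ + ((fp p x : ℝ) - fn p x) / 2 ^ 40 * sin φ) * 2 ^ 40 ≤ M (cfacB p n x) := by
  have a1 : (gd p x : ℝ) ≤ M (cfacB p n x) := by
    rw [← hM.const (gd p x : ℝ)]
    refine hM.mono _ _ fun v _ => ?_
    unfold cfacB
    rw [mx_eq, Nat.cast_max]
    exact le_max_right _ _
  have a2 := cfac_gd p x
  have p0 : (0 : ℝ) ≤ fp p x := Nat.cast_nonneg _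
  have n0 : (0 : ℝ) ≤ fn p x := Nat.cast_nonneg _
  have a3 : (cos φ + ((fp p x : ℝ) - fn p x) / 2 ^ 40 * sin φ) * 2 ^ 40
      ≤ 2 ^ 40 + fp p x + fn p x := by
    have b1 := cos_le_one φ
    have b2 := mul_le_mul_of_nonneg_left (sin_le_one φ) p0
    have b3 := mul_le_mul_of_nonneg_left (neg_one_le_sin φ) n0
    have e : (cos φ + ((fp p x : ℝ) - fn p x) / 2 ^ 40 * sin φ) * 2 ^ 40
        = cos φ * 2 ^ 40 + fp p x * sin φ - fn p x * sin φ := by ring
    rw [e]
    linarith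
  have a4 := mul_le_mul_of_nonneg_left a3 h0
  have a5 := mul_le_mul_of_nonneg_left hR (by positivity : (0 : ℝ) ≤ 2 ^ 40 + fp p x + fn p x)
  linarith

theorem cfac_O1 (hp : p.Ok P) (h : In P S c) (hM : Mean p P S c M θ) {n x : ℕ} (hn : 1 ≤ n)
    (he : entOK p c n 0 (f1 x) = true)
    (hg : Nat.beq (Nat.add (fp p x) (fn p x)) 0 = true ∨ entOK p c n 0 (f2 x) = true ∧
      Nat.beq (ite' (Nat.beq (fp p x) 0) (kn p (f2 x)) (kp p (f2 x))) 0 = true)
    (hv : ∀ v, IsV p c v → Nat.beq (Nat.add (fp p x) (fn p x)) 0 = true ∨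
      Nat.ble (Nat.add (eV p n (f2 x) v) (cw2 p x)) 35192962023424 = true) :
    ‖charFun S.ν (tn p n)‖ * (cos (S.W (tn p n) - om (fm x))
      + ((fp p x : ℝ) - fn p x) / 2 ^ 40 * sin (S.W (tn p n) - om (fm x))) * 2 ^ 40
      ≤ M (cfacB p n x) := by
  have ek : (dec (en p (f1 x))).ka = ((fp p x : ℝ) - fn p x) / 2 ^ 40 := by
    rw [ka_eq]
    unfold fp fn
    rw [force_eq, force_eq]
  by_cases hz : Nat.beq (Nat.add (fp p x) (fn p x)) 0 = true
  · have z := Nat.eq_of_beq_eq_true hz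
    rw [Nat.add_eq] at z
    have z1 : fp p x = 0 := by omega
    have z2 : fn p x = 0 := by omega
    refine cfac_sp hp h hM hn he ?_
    rw [ek, z1, z2]
    simpa using cos_le_one _
  · obtain ⟨he2, hk⟩ := hg.resolve_left hz
    have hv' := fun v hv0 => (hv v hv0).resolve_left hz
    have ek2 := ka_eq p (f2 x)
    unfold cw2 cwF at hv'
    simp only [force_eq] at hv'
    cases hb : Nat.beq (fp p x) 0
    · have z1 : fp p x ≠ 0 := Nat.ne_of_beq_eq_false hb
      have z2 : fn p x = 0 := by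
        have := cfac_kk p (f1 x)
        unfold fp at z1
        unfold fn
        rw [force_eq] at z1 ⊢
        exact this.resolve_left z1
      rw [hb, ite'_false] at hk hv'
      have z3 : kp p (f2 x) = 0 := Nat.eq_of_beq_eq_true hk
      rcases le_total (-π) (S.W (tn p n) - om (fm x)) with hW | hW
      · refine cfac_sp hp h hM hn he ?_
        rw [ek]
        refine cfac_spiral ?_ hW
        rw [z2]
        simp only [Nat.cast_zero, sub_zero]
        positivity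
      · refine cfac_gu hM (norm_nonneg _) (cfac_guard hp h hM hn he2 hv' ?_)
        refine mul_le_mul_of_nonpos_left ?_ ?_
        · rw [cfac_om_sub (cfac_fm x)]
          push_cast
          linarith
        · rw [ek2, z3]
          simp only [Nat.cast_zero, zero_sub]
          exact div_nonpos_of_nonpos_of_nonneg (neg_nonpos.2 (Nat.cast_nonneg _)) (by positivity)
    · have z1 : fp p x = 0 := Nat.eq_of_beq_eq_true hb
      rw [hb, ite'_true] at hk hv'
      have z3 : kn p (f2 x) = 0 := Nat.eq_of_beq_eq_true hk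
      rcases le_total (S.W (tn p n) - om (fm x)) π with hW | hW
      · refine cfac_sp hp h hM hn he ?_
        rw [ek]
        refine cfac_spiral' ?_ hW
        rw [z1]
        simp only [Nat.cast_zero, zero_sub]
        exact div_nonpos_of_nonpos_of_nonneg (neg_nonpos.2 (Nat.cast_nonneg _)) (by positivity)
      · refine cfac_gu hM (norm_nonneg _) (cfac_guard hp h hM hn he2 hv' ?_)
        refine mul_le_mul_of_nonneg_left ?_ ?_
        · rw [cfac_om_add]
          push_cast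
          linarith
        · rw [ek2, z3]
          simp only [Nat.cast_zero, sub_zero]
          positivity

theorem cfac_bO (hM : Mean p P S c M θ) (n x : ℕ) :
    146 + fa x / 2 ^ 26 * M (cfacB p n x) ≤ M fun v => (bO p n x v : ℝ) - 2 ^ 31 := by
  rw [← hM.aff]
  refine hM.mono _ _ fun v _ => ?_
  unfold bO cw1 cwF eVF cfacB
  simp only [force_eq]
  generalize mx (ex (Nat.add (eV p n (f1 x) v) (cw p (f1 x) (fm x))) 35184372088832) (gd p x) = B
  have a := cast_shr_ge (Nat.mul (fa x) B) 26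
  rw [cast_nmul] at a
  rw [cast_nadd]
  push_cast
  have e : (fa x : ℝ) / 2 ^ 26 * B = fa x * B / 2 ^ 26 := by ring
  rw [e]
  linarith

/-- Two entries bound the argument. -/
theorem cfac_arg (hp : p.Ok P) (h : In P S c) (hM : Mean p P S c M θ) {n i l m : ℕ}
    (hn : 1 ≤ n) (he : entOK p c n 0 i = true) {EL : ℝ}
    (hL : exp (-EL) ≤ ‖charFun S.ν (tn p n)‖) (hE : EL ≤ M (eR p n l))
    (hv : ∀ v, IsV p c v → Nat.ble (Nat.add (Nat.add (eV p n i v) (eV p n l v)) (cw p i m))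
      52776558133248 = true) :
    (dec (en p i)).ka * S.W (tn p n) ≤ (dec (en p i)).ka * om m := by
  obtain ⟨ht, E, hC, hE2⟩ := ent_mean hp h hM hn he
  have a1 := hC.1 ht
  have a2 := cw_spec p i m
  have a3 : M (fun v => eR p n i v + eR p n l v) ≤ -(((cw p i m : ℝ) - 2 ^ 44) / 2 ^ 32) := by
    refine hM.le_of fun v hv' => ?_
    have b := ble_cast (hv v hv')
    rw [cast_nadd, cast_nadd] at b
    push_cast at b
    unfold eR
    linarith
  rw [Mean.add'] at a3
  have a4 := (mul_le_mul_of_nonneg_right hL (exp_pos _).le).trans a1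
  rw [← exp_add, exp_le_exp] at a4
  linarith

theorem cfac_cx (x : ℕ) (h : 0 ≤ cos (2 * π * fa x / 4096)) :
    (cx x : ℝ) ≤ 2 ^ 30 * cos (2 * π * fa x / 4096) * exp (-((fg x : ℝ) / 2 ^ 20)) := by
  have e : cos (om (fa x)) = cos (2 * π * fa x / 4096) := by
    have : om (fa x) = 2 * π * fa x / 4096 - (2 : ℕ) * (2 * π) := by
      unfold om
      push_cast
      ring
    rw [this, cos_sub_nat_mul_two_pi]
  have a1 := (abs_le.1 (cT_spec (fa x)).1).2
  rw [e] at a1
  have a2 : ((Nat.sub (cT (fa x)) 2147483684 : ℕ) : ℝ) ≤ 2 ^ 30 * cos (2 * π * fa x / 4096) := by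
    rcases le_total (cT (fa x)) 2147483684 with h1 | h1
    · have z : Nat.sub (cT (fa x)) 2147483684 = 0 := by rw [Nat.sub_eq]; omega
      rw [z]
      simp only [Nat.cast_zero]
      positivity
    · rw [cast_nsub (by exact_mod_cast h1)]
      push_cast
      linarith
  have a3 := expL_spec (Nat.shiftLeft (fg x) 12)
  rw [cast_shl] at a3
  have e2 : -((fg x : ℝ) * 2 ^ 12) / 2 ^ 32 = -((fg x : ℝ) / 2 ^ 20) := by ring
  rw [e2] at a3
  have a4 := cast_shr_le (Nat.mul (Nat.sub (cT (fa x)) 2147483684)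
    (expL (Nat.shiftLeft (fg x) 12))) 64
  rw [cast_nmul] at a4
  have a5 := mul_le_mul a2 a3 (Nat.cast_nonneg _) (by positivity)
  unfold cx mD
  refine a4.trans ?_
  rw [div_le_iff₀ (by positivity)]
  linarith

theorem cfac_bI (hM : Mean p P S c M θ) (n x : ℕ) :
    72 - cx x * (1 + (fg x : ℝ) / 2 ^ 20) + cx x * M (eR p n (f1 x))
      ≤ M fun v => (bI p n x v : ℝ) - 2 ^ 31 := by
  rw [← hM.aff]
  refine hM.mono _ _ fun v _ => ?_
  unfold bI eVF eR
  simp only [force_eq]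
  have a1 := cast_shr_ge (Nat.sub (Nat.add 9223372346092421120
    (Nat.mul (cx x) (eV p n (f1 x) v))) (cy x)) 32
  have a2 := cast_nsub_ge (Nat.add 9223372346092421120
    (Nat.mul (cx x) (eV p n (f1 x) v))) (cy x)
  have e : (cy x : ℝ) = cx x * (17596481011712 + fg x * 2 ^ 12) := by
    unfold cy
    rw [cast_nmul, cast_nadd, cast_shl]
    push_cast
    rfl
  rw [cast_nadd, cast_nmul, e] at a2
  rw [cast_nadd]
  generalize Nat.sub (Nat.add 9223372346092421120
    (Nat.mul (cx x) (eV p n (f1 x) v))) (cy x) = A at a1 a2 ⊢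
  generalize Nat.shiftRight A 32 = B at a1 ⊢
  push_cast at a2 ⊢
  have e2 : 72 - (cx x : ℝ) * (1 + (fg x : ℝ) / 2 ^ 20)
      + cx x * (((eV p n (f1 x) v : ℝ) - 2 ^ 44) / 2 ^ 32)
      = (9223372346092421120 + (cx x : ℝ) * eV p n (f1 x) v
        - cx x * (17596481011712 + fg x * 2 ^ 12)) / 2 ^ 32 - 2 ^ 31 := by ring
  rw [e2]
  have a3 := div_le_div_of_nonneg_right a2 (by positivity : (0 : ℝ) ≤ 2 ^ 32)
  linarith

theorem cfac_t {α : Type} {b : Bool} (h : b = true) (x y : α) : ite' b x y = x := by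
  rw [h, ite'_true]

theorem cfac_f {α : Type} {b : Bool} (h : b = false) (x y : α) : ite' b x y = y := by
  rw [h, ite'_false]

theorem cfac_I2 {C R cD cφ e0 EL : ℝ} (hC0 : 0 ≤ C) (hC : C ≤ 2 ^ 30 * cD * exp (-e0))
    (hD : 0 ≤ cD) (hφ : cD ≤ cφ) (hR : exp (-EL) ≤ R) :
    C * (1 + e0 - EL) ≤ 2 ^ 30 * (R * cφ) := by
  have R0 : 0 ≤ R := (exp_pos _).le.trans hR
  rcases le_total (1 + e0 - EL) 0 with h | h
  · have a1 := mul_nonpos_of_nonneg_of_nonpos hC0 h
    have a2 : 0 ≤ R * cφ := mul_nonneg R0 (hD.trans hφ)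
    linarith
  · have a1 := mul_le_mul_of_nonneg_right hC h
    have a2 : exp (-e0) * (1 + e0 - EL) ≤ exp (-EL) := by
      have b := add_one_le_exp (e0 - EL)
      have e : exp (-EL) = exp (-e0) * exp (e0 - EL) := by
        rw [← exp_add]
        congr 1
        ring
      rw [e]
      exact mul_le_mul_of_nonneg_left (by linarith) (exp_pos _).le
    have a3 := mul_le_mul_of_nonneg_left (a2.trans hR) hD
    have a4 := mul_le_mul_of_nonneg_left hφ R0
    linarith

theorem fac_le {n x : ℕ} (h : facOK p c n x = true) :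
    nxp p x ≤ 2 ^ 32 ∧ nxn p x ≤ 2 ^ 32 ∧ nyp p x ≤ 2 ^ 32 ∧ nyn p x ≤ 2 ^ 32 := by
  unfold facOK at h
  simp only [band_eq] at h
  obtain ⟨⟨⟨a, b⟩, c', d⟩, -⟩ := h
  exact ⟨Nat.le_of_ble_eq_true a, Nat.le_of_ble_eq_true b, Nat.le_of_ble_eq_true c',
    Nat.le_of_ble_eq_true d⟩

theorem fac_sound (hp : p.Ok P) (h : In P S c) (hM : Mean p P S c M θ) {n x : ℕ} (hn : 1 ≤ n)
    (h1 : facOK p c n x = true) (h2 : ∀ v, IsV p c v → facV p n x v = true) :
    ((nxp p x : ℝ) - nxn p x) * (charFun S.ν (tn p n)).re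
      + ((nyp p x : ℝ) - nyn p x) * (charFun S.ν (tn p n)).im
      ≤ M fun v => (bF p n x v : ℝ) - 2 ^ 31 := by
  obtain ⟨ere, eim, hR1⟩ := cfac_polar hp h hn
  have hR0 := norm_nonneg (charFun S.ν (tn p n))
  obtain ⟨tc, ts⟩ := cT_spec (fm x)
  rw [ere, eim]
  unfold facOK at h1
  rw [band_eq] at h1
  replace h1 := h1.2
  unfold facV eVF at h2
  unfold nxp nxn nyp nyn bF
  rcases Bool.eq_false_or_eq_true (fO x) with hO | hO
  swap
  · simp only [cfac_f hO, band_eq, force_eq] at h1 h2 ⊢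
    obtain ⟨e1, e2, e3, k2, k3, hfa⟩ := h1
    obtain ⟨ht, EL, hC, hE⟩ := ent_mean hp h hM hn e1
    have hL := hC.2.2 ht
    have hfa' : fa x ≤ 1024 := Nat.le_of_ble_eq_true hfa
    have hfm := cfac_fm x
    have u2 := cfac_arg hp h hM hn e2 hL hE (m := Nat.add (fm x) (fa x)) fun v hv => by
      have := (h2 v hv).1
      unfold cw3 cwF at this
      simpa only [force_eq] using this
    have u3 := cfac_arg hp h hM hn e3 hL hE (m := Nat.sub (fm x) (fa x)) fun v hv => by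
      have := (h2 v hv).2
      unfold cw4 cwF at this
      simpa only [force_eq] using this
    have k2' : 1 ≤ kp p (f2 x) := Nat.le_of_ble_eq_true k2
    have k3' : 1 ≤ kn p (f3 x) := Nat.le_of_ble_eq_true k3
    have z2 : kn p (f2 x) = 0 := (cfac_kk p (f2 x)).resolve_left (by omega)
    have z3 : kp p (f3 x) = 0 := (cfac_kk p (f3 x)).resolve_right (by omega)
    have s2 : 0 < (dec (en p (f2 x))).ka := by
      rw [ka_eq, z2]
      have : (0 : ℝ) < kp p (f2 x) := by exact_mod_cast k2'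
      simp only [Nat.cast_zero, sub_zero]
      positivity
    have s3 : (dec (en p (f3 x))).ka < 0 := by
      rw [ka_eq, z3]
      have : (0 : ℝ) < kn p (f3 x) := by exact_mod_cast k3'
      simp only [Nat.cast_zero, zero_sub]
      exact div_neg_of_neg_of_pos (by linarith) (by positivity)
    have w2 := le_of_mul_le_mul_left u2 s2
    have w3 := (mul_le_mul_left_of_neg s3).1 u3
    rw [cfac_om_add] at w2
    rw [cfac_om_sub (by omega)] at w3
    have hfa2 : (fa x : ℝ) ≤ 1024 := by exact_mod_cast hfa'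
    have hD0 : 0 ≤ 2 * π * fa x / 4096 := by positivity
    have hD1 : 2 * π * fa x / 4096 ≤ π / 2 := by
      have := mul_le_mul_of_nonneg_left hfa2 pi_pos.le
      linarith
    have hcD : 0 ≤ cos (2 * π * fa x / 4096) :=
      cos_nonneg_of_neg_pi_div_two_le_of_le (by linarith [pi_pos]) hD1
    have hcφ : cos (2 * π * fa x / 4096) ≤ cos (S.W (tn p n) - om (fm x)) := by
      rw [← cos_abs (S.W (tn p n) - om (fm x))]
      exact cos_le_cos_of_nonneg_of_le_pi (abs_nonneg _) (by linarith [pi_pos])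
        (abs_le.2 ⟨by linarith, by linarith⟩)
    have b1 := cfac_I2 (Nat.cast_nonneg (cx x)) (cfac_cx x hcD) hcD hcφ hL
    have b2 := cfac_bI hM n x
    have b3 := mul_le_mul_of_nonneg_left hE (Nat.cast_nonneg (α := ℝ) (cx x))
    rw [cfac_sub_sub, cfac_sub_sub]
    have b4 := cfac_dot (X := ((2147483648 : ℕ) : ℝ) - cT (fm x))
      (Y := ((2147483648 : ℕ) : ℝ) - sT (fm x)) (a := -(cos (om (fm x)) * 2 ^ 30))
      (b := -(sin (om (fm x)) * 2 ^ 30)) (e := 36) (W := S.W (tn p n))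
      (by
        rw [abs_sub_comm]
        convert tc using 2
        push_cast
        ring)
      (by
        rw [abs_sub_comm]
        convert ts using 2
        push_cast
        ring) hR0 hR1
    rw [cos_sub] at b1
    refine b4.trans (le_trans ?_ b2)
    linarith
  · simp only [cfac_t hO, band_eq, bor_eq, force_eq] at h1 h2 ⊢
    obtain ⟨e1, hf, hg⟩ := h1
    have b1 := cfac_O1 hp h hM hn e1 hg h2
    have b2 := cfac_bO hM n x
    have hf' := ble_cast hf
    unfold fk at hf'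
    rw [cast_nmul, cast_nadd, cast_nadd] at hf'
    push_cast at hf'
    have n1 := cfac_nrm x (cT (fm x)) (sT (fm x)) (fn p x) (fp p x) tc ts (by linarith)
    have n2 := cfac_nrm x (sT (fm x)) (cT (fm x)) (fp p x) (fn p x) ts tc (by linarith)
    have b4 := cfac_dot (W := S.W (tn p n)) n1 n2 hR0 hR1
    have b5 := mul_le_mul_of_nonneg_left b1 (by positivity : (0 : ℝ) ≤ fa x / 2 ^ 26)
    rw [cos_sub, sin_sub] at b5
    refine b4.trans (le_trans ?_ b2)
    linarith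

theorem mod_sound (hp : p.Ok P) (h : In P S c) (hM : Mean p P S c M θ) {L : Lf} {j : ℕ}
    (h1 : entOK p c (j + 1) 0 (ue L j) = true) (h2 : ef p (ue L j) 1 = 140737488355328) :
    ‖charFun S.ν (tn p (j + 1))‖ * 2 ^ 40 ≤ M fun v => (mV p L j v : ℝ) := by
  obtain ⟨ht, E, hC, hE⟩ := ent_mean hp h hM (by omega) h1
  have a1 := hC.1 ht
  have ek : (dec (en p (ue L j))).ka = 0 := by
    rw [ka_eq]
    unfold kp kn
    rw [h2, Nat.sub_eq, Nat.sub_self]
    simp
  rw [ek, zero_mul, exp_zero, mul_one] at a1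
  have a2 := hM.exp_le hE
  have a3 : M (fun v => 0 + 2 ^ 40 * exp (eR p (j + 1) (ue L j) v))
      ≤ M fun v => (mV p L j v : ℝ) := by
    refine hM.mono _ _ fun v _ => ?_
    have b := ex_spec (eV p (j + 1) (ue L j) v) 17592186044416
    unfold mV eVF eR
    simp only [force_eq, Nat.add_eq]
    have e : ((17592186044416 : ℕ) : ℝ) = 2 ^ 44 := by norm_num
    rw [e] at b
    linarith
  rw [hM.aff] at a3
  linarith

end Pool.Agent.Lib.MP_33650d_pr.X
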