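import Pool.Agent.Lib.MP_33650d_pr.X.CSpec
import Pool.Agent.Lib.MP_33650d_pr.Tab
import Pool.Agent.Lib.MP_33650d_pr.YTab

namespace Pool.Agent.Lib.MP_33650d_pr.X
open MeasureTheory ProbabilityTheory Real

seal Nat.shiftRight Nat.shiftLeft Nat.mod Nat.sub Nat.add Nat.mul Nat.pow one72 h72 yC yS
  geqR Nat.land

theorem slice_clane {w n lo cnt : ℕ} {v : ℕ → ℕ} (h : ∀ i < n, v i < 2 ^ w) (hn : lo + cnt ≤ n) :
    pk w n v / 2 ^ (w * lo) % 2 ^ (w * cnt) = pk w cnt fun i => v (lo + i) := by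
  obtain ⟨m, rfl⟩ : ∃ m, n = lo + (cnt + m) := ⟨n - lo - cnt, by omega⟩
  rw [pk_append, pk_append w cnt m]
  have h1 : pk w lo v < 2 ^ (w * lo) := pk_lt fun j hj => h j (by omega)
  have h2 : pk w cnt (fun i => v (lo + i)) < 2 ^ (w * cnt) := pk_lt fun j hj => h _ (by omega)
  rw [Nat.add_mul_div_right _ _ (by positivity), Nat.div_eq_of_lt h1, zero_add,
    Nat.add_mul_mod_self_right, Nat.mod_eq_of_lt h2]

theorem sub_rep {g : Sg} (hg : g.Ok) {T B : ℕ} {u : ℕ → ℕ} (h : Rep 72 4096 T u B)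
    (hB : B < 2 ^ 72) : Rep 72 g.cnt (sub g T) (fun i => u (g.lo + i)) B := by
  refine ⟨?_, fun i hi => h.2 _ (by have := hg.2; omega)⟩
  rw [sub, nmod_eq, nshr_eq, npow_eq, Nat.mul_eq, Nat.mul_eq, h.1]
  exact slice_clane (fun i hi => (h.2 i hi).trans_lt hB) hg.2

theorem pre_clane {w n cnt T B : ℕ} {u : ℕ → ℕ} (h : Rep w n T u B) (hB : B < 2 ^ w)
    (hn : cnt ≤ n) : Rep w cnt (Nat.mod T (Nat.pow 2 (Nat.mul w cnt))) u B := by
  refine ⟨?_, fun i hi => h.2 _ (by omega)⟩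
  have k := slice_clane (lo := 0) (cnt := cnt) (fun i hi => (h.2 i hi).trans_lt hB) (by omega)
  rw [mul_zero, pow_zero, Nat.div_one] at k
  rw [nmod_eq, npow_eq, Nat.mul_eq, h.1, k]
  exact pk_congr fun i _ => by rw [zero_add]

theorem one_rep {g : Sg} (hg : g.Ok) : Rep 72 g.cnt (one g) (fun _ => 1) 1 := by
  rw [one]
  exact pre_clane one72_rep' (by norm_num) (by have := hg.2; omega)

theorem geq_sound {g : Sg} (hg : g.Ok) {X Y B C : ℕ} {u v : ℕ → ℕ} (hX : Rep 72 g.cnt X u B)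
    (hY : Rep 72 g.cnt Y v C) (hB : B < 2 ^ 71) (hC : C < 2 ^ 71) (h : geq g X Y = true) {i : ℕ}
    (hi : i < g.cnt) : v i ≤ u i := by
  have hH : hh g = pk (71 + 1) g.cnt fun _ => 2 ^ 71 := tb_top (w := 71) (one_rep hg)
  exact geqR_sound (w := 71) (lo := 0) (cnt := g.cnt) hH hX hY hB hC h (Nat.zero_le _)
    (by omega) hi

theorem land_clane {g : Sg} (hg : g.Ok) (X : ℕ) :
    Rep 72 g.cnt (Nat.land X (m32 g)) (lv (Nat.land X (m32 g))) (2 ^ 32) := by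
  have hm : Rep 72 g.cnt (m32 g) (fun _ => 4294967295 * 1) (4294967295 * 1) :=
    (one_rep hg).mul 4294967295
  have hb : ∀ i < g.cnt, (fun _ => 4294967295 * 1 : ℕ → ℕ) i < 2 ^ 72 := fun _ _ => by norm_num
  obtain ⟨M, hM⟩ : ∃ M, M = m32 g := ⟨_, rfl⟩
  rw [← hM] at hm ⊢
  clear hM
  rw [Nat.land_eq]
  have h1 : X &&& M < 2 ^ (72 * g.cnt) := by
    refine lt_of_le_of_lt Nat.and_le_right ?_
    rw [hm.1]
    exact pk_lt hb
  refine ⟨pk_canon h1, fun i hi => ?_⟩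
  have h2 : M / 2 ^ (72 * i) % 2 ^ 72 = 4294967295 * 1 := by
    rw [hm.1]
    exact pk_lane hb hi
  rw [lv, Nat.and_div_two_pow, Nat.and_mod_two_pow, h2]
  exact Nat.and_le_right.trans (by norm_num)

theorem lam_rep {g : Sg} (hg : g.Ok) (p : Pm) (L : Lf) (j k : ℕ) :
    Rep 72 g.cnt (lam p L g j k) (lv (lam p L g j k)) (2 ^ 32) := by
  rw [lam]
  exact land_clane hg _

theorem sg_clane (j : ℕ) {x : ℕ} (hx : x < 2147483648) :
    sgP j x ≤ 2 ^ 30 ∧ sgN j x ≤ 2 ^ 30 ∧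
      (sgP j x : ℝ) - sgN j x = (-1) ^ (j + 1) * ((x : ℝ) - 2 ^ 30) := by
  have e : ((1073741824 - x : ℕ) : ℝ) - ((x - 1073741824 : ℕ) : ℝ) = 2 ^ 30 - x := by
    rcases le_total x 1073741824 with a | a
    · rw [Nat.cast_sub a, Nat.sub_eq_zero_of_le a]
      norm_num
    · rw [Nat.cast_sub a, Nat.sub_eq_zero_of_le a]
      norm_num
  unfold sgP sgN
  rw [Nat.sub_eq, Nat.sub_eq, nmod_eq]
  cases h : Nat.beq (j % 2) 0
  · have h1 : j % 2 ≠ 0 := Nat.ne_of_beq_eq_false h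
    have h2 : Even (j + 1) := by rw [Nat.even_iff]; omega
    rw [ite'_false, ite'_false, h2.neg_one_pow]
    exact ⟨by omega, by omega, by linarith⟩
  · have h1 : j % 2 = 0 := Nat.eq_of_beq_eq_true h
    have h2 : Odd (j + 1) := by rw [Nat.odd_iff]; omega
    rw [ite'_true, ite'_true, h2.neg_one_pow]
    exact ⟨by omega, by omega, by linarith⟩

theorem cmb_clane {g : Sg} (hg : g.Ok) {a X b Y c d : ℕ} {u v : ℕ → ℕ} (ha : a ≤ 2 ^ 30)
    (hb : b ≤ 2 ^ 30) (hc : c ≤ 2 ^ 30) (hd : d ≤ 2 ^ 30) (hX : Rep 72 g.cnt X u (2 ^ 32))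
    (hY : Rep 72 g.cnt Y v (2 ^ 32)) :
    Rep 72 g.cnt (cmb g a X b Y c d) (fun i => a * u i + b * v i + (c + d) * 2 ^ 31) (2 ^ 64) := by
  have h1 : Nat.shiftLeft (Nat.add c d) 31 ≤ 2 ^ 62 := by
    rw [nshl_eq, Nat.add_eq]
    omega
  have h2 := ((hX.mul' ha).add (hY.mul' hb)).add ((one_rep hg).mul' h1)
  rw [cmb]
  refine (h2.mono (by norm_num)).congr fun i _ => ?_
  rw [nshl_eq, Nat.add_eq, mul_one]

theorem sL_clane {g : Sg} (hg : g.Ok) {p : Pm} {L : Lf} {j : ℕ} (hn : nf L j ≤ 16) {f : ℕ → ℕ}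
    (hb : ∀ k < nf L j, f (fc L j k) ≤ 2 ^ 32) :
    Rep 72 g.cnt (sL p L g j f)
      (fun i => ∑ k ∈ Finset.range (nf L j), f (fc L j k) * lv (lam p L g j k) i) (2 ^ 68) := by
  rw [sL]
  refine (tb_rep_sum (B := fun _ => 2 ^ 32 * 2 ^ 32)
    (v := fun k i => f (fc L j k) * lv (lam p L g j k) i) fun k hk => ?_).mono ?_
  · rw [force_eq]
    exact (lam_rep hg p L j k).mul' (hb k hk)
  · rw [Finset.sum_const, Finset.card_range, smul_eq_mul]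
    omega

theorem near_clane {g : Sg} (hg : g.Ok) {X Y : ℕ} {u v : ℕ → ℕ} (hX : Rep 72 g.cnt X u (2 ^ 69))
    (hY : Rep 72 g.cnt Y v (2 ^ 69)) (h : near g X Y = true) {i : ℕ} (hi : i < g.cnt) :
    |(u i : ℝ) - v i| ≤ 2 ^ 35 := by
  rw [near, force_eq, force_eq, band_eq] at h
  have h1 := geq_sound hg (hX.add ((one_rep hg).shl 35)) hY (by norm_num) (by norm_num) h.1 hi
  have h2 := geq_sound hg (hY.add ((one_rep hg).shl 35)) hX (by norm_num) (by norm_num) h.2 hi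
  have h3 : (v i : ℝ) ≤ u i + 1 * 2 ^ 35 := by exact_mod_cast h1
  have h4 : (u i : ℝ) ≤ v i + 1 * 2 ^ 35 := by exact_mod_cast h2
  exact abs_le.2 ⟨by linarith, by linarith⟩

theorem fin_clane {A B S T e x y : ℝ} (h1 : |A - S| ≤ e) (h2 : |B - T| ≤ e) (hx : |x| ≤ 1)
    (hy : |y| ≤ 1) : A * x + B * y ≤ S * x + T * y + 2 * e := by
  have h0 : 0 ≤ e := (abs_nonneg _).trans h1
  have k1 : (A - S) * x ≤ e * 1 :=
    (le_abs_self _).trans ((abs_mul _ _).trans_le (mul_le_mul h1 hx (abs_nonneg _) h0))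
  have k2 : (B - T) * y ≤ e * 1 :=
    (le_abs_self _).trans ((abs_mul _ _).trans_le (mul_le_mul h2 hy (abs_nonneg _) h0))
  linarith

theorem err_clane {P Q R a b : ℝ} (hP : |P| ≤ R) (hQ : |Q| ≤ R) (ha : |a| ≤ 36) (hb : |b| ≤ 36) :
    |P * a + Q * b| ≤ 72 * R := by
  have h0 : 0 ≤ R := (abs_nonneg _).trans hP
  have k1 : |P * a| ≤ R * 36 := (abs_mul _ _).trans_le (mul_le_mul hP ha (abs_nonneg _) h0)
  have k2 : |Q * b| ≤ R * 36 := (abs_mul _ _).trans_le (mul_le_mul hQ hb (abs_nonneg _) h0)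
  linarith [abs_add_le (P * a) (Q * b)]

theorem real_clane {pp pn qp qn U V c s R σ p q SXn SXp SYn SYp x y : ℝ} (hσ : σ ^ 2 = 1)
    (hp : pp - pn = σ * (2 ^ 30 * p)) (hq : qp - qn = σ * (2 ^ 30 * q)) (hR : 0 ≤ R)
    (hr : p ^ 2 + q ^ 2 ≤ (R / 2 ^ 30) ^ 2) (hU : |U - (c + 2) * 2 ^ 30| ≤ 36)
    (hV : |V - (s + 2) * 2 ^ 30| ≤ 36)
    (h1 : |pp * U + qn * V + (pn + qp) * 2147483648 + SXn
      - (pn * U + qp * V + (pp + qn) * 2147483648 + SXp)| ≤ 2 ^ 35)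
    (h2 : |pp * V + qp * U + (pn + qn) * 2147483648 + SYn
      - (pn * V + qn * U + (pp + qp) * 2147483648 + SYp)| ≤ 2 ^ 35) (hx : |x| ≤ 1) (hy : |y| ≤ 1) :
    2 ^ 60 * ((p * (σ * c) - q * (σ * s)) * x + (p * (σ * s) + q * (σ * c)) * y)
      ≤ (SXp - SXn) * x + (SYp - SYn) * y + 144 * R + 2 ^ 36 := by
  obtain ⟨P, hP⟩ : ∃ P, P = σ * (2 ^ 30 * p) := ⟨_, rfl⟩
  obtain ⟨Q, hQ⟩ : ∃ Q, Q = σ * (2 ^ 30 * q) := ⟨_, rfl⟩
  have hs : P ^ 2 + Q ^ 2 ≤ R ^ 2 := by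
    have e : P ^ 2 + Q ^ 2 = 2 ^ 60 * (p ^ 2 + q ^ 2) := by
      rw [hP, hQ]
      linear_combination (2 ^ 60 * (p ^ 2 + q ^ 2)) * hσ
    rw [div_pow] at hr
    rw [e]
    linarith
  have aP : |P| ≤ R := abs_le_of_sq_le_sq (by nlinarith [sq_nonneg Q]) hR
  have aQ : |Q| ≤ R := abs_le_of_sq_le_sq (by nlinarith [sq_nonneg P]) hR
  have aQ' : |-Q| ≤ R := by rwa [abs_neg]
  have e1 := err_clane aP aQ' hU hV
  have e2 := err_clane aP aQ hV hU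
  rw [← hP] at hp
  rw [← hQ] at hq
  obtain rfl : pp = pn + P := by linarith
  obtain rfl : qp = qn + Q := by linarith
  have k := fin_clane (A := 2 ^ 30 * (P * c - Q * s)) (B := 2 ^ 30 * (P * s + Q * c))
    (S := SXp - SXn) (T := SYp - SYn) (e := 72 * R + 2 ^ 35)
    (by rw [abs_le] at h1 e1 ⊢; constructor <;> nlinarith [h1.1, h1.2, e1.1, e1.2])
    (by rw [abs_le] at h2 e2 ⊢; constructor <;> nlinarith [h2.1, h2.2, e2.1, e2.2]) hx hy
  rw [hP, hQ] at k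
  linarith

theorem ang_clane (j I : ℕ) :
    2 * π * ((j : ℝ) + 1) * sl I
      = 2 * π * ((j + 1 : ℕ) : ℝ) * ((I : ℝ) / 4096) - ((j + 1 : ℕ) : ℝ) * π := by
  unfold sl
  push_cast
  ring

theorem rs_sound {g : Sg} (hg : g.Ok) {p : Pm} {L : Lf} {j : ℕ} (hj : j < 48) (hn : nf L j ≤ 16)
    (hb : ∀ k < nf L j, nxp p (fc L j k) ≤ 2 ^ 32 ∧ nxn p (fc L j k) ≤ 2 ^ 32 ∧
      nyp p (fc L j k) ≤ 2 ^ 32 ∧ nyn p (fc L j k) ≤ 2 ^ 32)
    (hr : pK g.K j ^ 2 + qK g.K j ^ 2 ≤ rK g.K j ^ 2) (h : rsOK p L g j = true) {i : ℕ}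
    (hi : i < g.cnt) {x y : ℝ} (hx : |x| ≤ 1) (hy : |y| ≤ 1) :
    2 ^ 60 * (Ar g.K j (sl (g.lo + i)) * x + Br g.K j (sl (g.lo + i)) * y)
      ≤ ∑ k ∈ Finset.range (nf L j), (lv (lam p L g j k) i : ℝ)
          * (((nxp p (fc L j k) : ℝ) - nxn p (fc L j k)) * x
            + ((nyp p (fc L j k) : ℝ) - nyn p (fc L j k)) * y)
        + 144 * kR g.K j + 2 ^ 36 := by
  obtain ⟨u, v, hu, hv, huv⟩ := y_spec (k := j + 1) (by omega)
  have hU : Rep 72 g.cnt (uu g j) (fun i => u (g.lo + i)) (2 ^ 32) := by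
    rw [uu, Nat.add_eq]
    exact sub_rep hg hu (by norm_num)
  have hV : Rep 72 g.cnt (vv g j) (fun i => v (g.lo + i)) (2 ^ 32) := by
    rw [vv, Nat.add_eq]
    exact sub_rep hg hv (by norm_num)
  obtain ⟨p1, p2, p3⟩ := sg_clane j (x := kP g.K j) (bt_lt _ _ (by norm_num))
  obtain ⟨q1, q2, q3⟩ := sg_clane j (x := kQ g.K j) (bt_lt _ _ (by norm_num))
  rw [← pp] at p1 p3
  rw [← pn] at p2 p3
  rw [← qp] at q1 q3
  rw [← qn] at q2 q3
  rw [rsOK, band_eq, AP, AM, BP, BM] at h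
  have n1 := near_clane hg
    (((cmb_clane hg p1 q2 p2 q1 hU hV).add (sL_clane hg hn fun k hk => (hb k hk).2.1)).mono
      (by norm_num))
    (((cmb_clane hg p2 q1 p1 q2 hU hV).add (sL_clane hg hn fun k hk => (hb k hk).1)).mono
      (by norm_num)) h.1 hi
  have n2 := near_clane hg
    (((cmb_clane hg p1 q1 p2 q2 hV hU).add (sL_clane hg hn fun k hk => (hb k hk).2.2.2)).mono
      (by norm_num))
    (((cmb_clane hg p2 q2 p1 q1 hV hU).add (sL_clane hg hn fun k hk => (hb k hk).2.2.1)).mono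
      (by norm_num)) h.2 hi
  clear h
  push_cast at n1 n2
  obtain ⟨c1, c2⟩ := huv (g.lo + i) (by have := hg.2; omega)
  have k := real_clane (σ := (-1) ^ (j + 1)) (p := pK g.K j) (q := qK g.K j) (R := kR g.K j)
    (by rw [← pow_mul, mul_comm, pow_mul]; norm_num)
    (p3.trans (by unfold pK; field_simp)) (q3.trans (by unfold qK; field_simp))
    (Nat.cast_nonneg _) hr c1 c2 n1 n2 hx hy
  unfold Ar Br
  rw [ang_clane, cos_sub_nat_mul_pi, sin_sub_nat_mul_pi]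
  refine k.trans (le_of_eq ?_)
  rw [← Finset.sum_sub_distrib, ← Finset.sum_sub_distrib, Finset.sum_mul, Finset.sum_mul,
    ← Finset.sum_add_distrib]
  congr 2
  exact Finset.sum_congr rfl fun k _ => by ring

end Pool.Agent.Lib.MP_33650d_pr.X
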