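import Pool.Agent.Lib.MP_33650d_pr.X.Vaaler
import Pool.Agent.Lib.MP_33650d_pr.Gauss

namespace Pool.Agent.Lib.MP_33650d_pr.X
open MeasureTheory ProbabilityTheory Real

theorem int_CPhiF {f : ℝ → ℝ} (hf : Continuous f) (h : ∀ y, |f y| ≤ 1) :
    Integrable f (gaussianReal 0 1) :=
  (integrable_const (1 : ℝ)).mono' hf.aestronglyMeasurable (Filter.Eventually.of_forall h)

theorem ch_CPhiF (u a : ℝ) :
    ∫ y, cos (a - u * y) ∂gaussianReal 0 1 = exp (-(u ^ 2 / 2)) * cos a ∧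
      ∫ y, sin (a - u * y) ∂gaussianReal 0 1 = exp (-(u ^ 2 / 2)) * sin a := by
  obtain ⟨h1, h2⟩ := ga_char (gaussianReal 0 1) u
  have e : charFun (gaussianReal 0 1) u = ((exp (-(u ^ 2 / 2)) : ℝ) : ℂ) := by
    rw [charFun_gaussianReal]
    push_cast
    congr 1
    simp
  rw [e, Complex.ofReal_re] at h1
  rw [e, Complex.ofReal_im] at h2
  have i1 : Integrable (fun y => cos (u * y)) (gaussianReal 0 1) :=
    int_CPhiF (by fun_prop) fun y => abs_cos_le_one _
  have i2 : Integrable (fun y => sin (u * y)) (gaussianReal 0 1) :=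
    int_CPhiF (by fun_prop) fun y => abs_sin_le_one _
  simp only [cos_sub, sin_sub]
  rw [integral_add (i1.const_mul _) (i2.const_mul _), integral_sub (i1.const_mul _) (i2.const_mul _)]
  simp only [integral_const_mul, ← h1, ← h2]
  constructor <;> ring

theorem pt_CPhiF {J : ℕ} (hJ : 0 < J) {lam : ℝ} (hl : 1 ≤ lam) (w : ℝ) :
    1 / 2 + w - (1 / (2 * J) + ∑ n ∈ Finset.range (J - 1),
      ((1 - ((n : ℝ) + 1) / J) / J * cos (2 * π * (n + 1) * w)
        - (pw_c (((n : ℝ) + 1) / J) + 1 / π) / J * sin (2 * π * (n + 1) * w)))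
      - exp (lam * (w - 1)) ≤ if 0 ≤ w then 1 else 0 := by
  have h := vaaler hJ (Int.fract_nonneg w) (Int.fract_lt_one w).le
  have e : ∀ n : ℕ, 2 * π * (n + 1) * Int.fract w =
      2 * π * (n + 1) * w - (((n + 1 : ℕ) : ℤ) * ⌊w⌋ : ℤ) * (2 * π) := fun n => by
    rw [Int.fract]; push_cast; ring
  simp only [e, cos_sub_int_mul_two_pi, sin_sub_int_mul_two_pi] at h
  have h0 := exp_pos (lam * (w - 1))
  have h1 := Int.floor_add_fract w
  split_ifs with hw
  · rcases lt_or_ge w 1 with h2 | h2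
    · have : ⌊w⌋ = 0 := Int.floor_eq_zero_iff.2 ⟨hw, h2⟩
      rw [this] at h1
      push_cast at h1
      linarith
    · have h3 := add_one_le_exp (lam * (w - 1))
      have h4 := Int.floor_le w
      nlinarith
  · have h2 : ⌊w⌋ ≤ -1 := by
      have := Int.floor_lt.2 (show w < ((0 : ℤ) : ℝ) by simpa using hw)
      omega
    have h3 : (⌊w⌋ : ℝ) ≤ -1 := by exact_mod_cast h2
    linarith

theorem main_CPhiF {L s : ℝ} (hL : 0 < L) {J : ℕ} (hJ : 0 < J) (hl : 1 ≤ L ^ 2 * (1 - s)) :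
    1 / 2 + s - (1 / (2 * J) + ∑ n ∈ Finset.range (J - 1), exp (-((2 * π * (n + 1) / L) ^ 2 / 2)) *
      ((1 - ((n : ℝ) + 1) / J) / J * cos (2 * π * (n + 1) * s)
        - (pw_c (((n : ℝ) + 1) / J) + 1 / π) / J * sin (2 * π * (n + 1) * s)))
      - exp (-((L * (1 - s)) ^ 2 / 2)) ≤ Phi (L * s) := by
  have e1 : Phi (L * s) =
      ∫ y, (Set.Iic (L * s)).indicator (fun _ => (1 : ℝ)) y ∂gaussianReal 0 1 := by
    rw [integral_indicator measurableSet_Iic, setIntegral_const, Phi, cdf_eq_real]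
    simp
  have ic : ∀ a u : ℝ, Integrable (fun y => cos (a - u * y)) (gaussianReal 0 1) := fun a u =>
    int_CPhiF (by fun_prop) fun y => abs_cos_le_one _
  have is : ∀ a u : ℝ, Integrable (fun y => sin (a - u * y)) (gaussianReal 0 1) := fun a u =>
    int_CPhiF (by fun_prop) fun y => abs_sin_le_one _
  have iy : Integrable (fun y : ℝ => y) (gaussianReal 0 1) :=
    (memLp_id_gaussianReal 1).integrable le_rfl
  have ie := integrable_exp_mul_gaussianReal (μ := 0) (v := 1) (-(L * (1 - s)))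
  have i1 : Integrable (fun y : ℝ => 1 / 2 + s - L⁻¹ * y) (gaussianReal 0 1) :=
    (integrable_const _).sub (iy.const_mul _)
  have i2 : ∀ n : ℕ, Integrable (fun y : ℝ => (1 - ((n : ℝ) + 1) / J) / J *
      cos (2 * π * (n + 1) * s - 2 * π * (n + 1) / L * y) - (pw_c (((n : ℝ) + 1) / J) + 1 / π) / J *
      sin (2 * π * (n + 1) * s - 2 * π * (n + 1) / L * y)) (gaussianReal 0 1) := fun n =>
    ((ic _ _).const_mul _).sub ((is _ _).const_mul _)
  have i3 := integrable_finsetSum (Finset.range (J - 1)) fun n _ => i2 n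
  have i4 := (integrable_const (1 / (2 * J) : ℝ)).add i3
  have i5 := ie.const_mul (exp (-(L * (1 - s)) ^ 2))
  have key := integral_mono ((i1.sub i4).sub i5)
    ((integrable_const (1 : ℝ)).indicator (measurableSet_Iic (a := L * s))) fun y => by
      have h := pt_CPhiF hJ hl (s - L⁻¹ * y)
      have a1 : ∀ n : ℕ, 2 * π * (n + 1) * (s - L⁻¹ * y) =
          2 * π * (n + 1) * s - 2 * π * (n + 1) / L * y := fun n => by ring
      have a2 : exp (L ^ 2 * (1 - s) * (s - L⁻¹ * y - 1)) =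
          exp (-(L * (1 - s)) ^ 2) * exp (-(L * (1 - s)) * y) := by
        rw [← exp_add]
        congr 1
        field_simp
        ring
      have a3 : (0 ≤ s - L⁻¹ * y) = (y ∈ Set.Iic (L * s)) := by
        rw [Set.mem_Iic, sub_nonneg, inv_mul_le_iff₀ hL]
      simp only [a1, a2, a3] at h
      simp only [Pi.sub_apply, Pi.add_apply, Set.indicator_apply]
      linarith
  rw [integral_sub' (i1.sub i4) i5, integral_sub' i1 i4, integral_add' (integrable_const _) i3,
    integral_finsetSum _ fun n _ => i2 n, integral_sub (integrable_const _) (iy.const_mul _),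
    integral_const_mul, integral_const_mul, integral_id_gaussianReal] at key
  have e2 : ∫ y, exp (-(L * (1 - s)) * y) ∂gaussianReal 0 1 = exp ((L * (1 - s)) ^ 2 / 2) := by
    have := congrFun (mgf_fun_id_gaussianReal (μ := 0) (v := 1)) (-(L * (1 - s)))
    simpa [mgf] using this
  rw [e2, ← exp_add] at key
  simp only [integral_sub ((ic _ _).const_mul _) ((is _ _).const_mul _), integral_const_mul,
    (ch_CPhiF _ _).1, (ch_CPhiF _ _).2, integral_const, probReal_univ, one_smul] at key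
  rw [e1]
  refine le_trans (le_of_eq ?_) key
  congr 1
  · congr 1
    · ring
    · congr 1
      exact Finset.sum_congr rfl fun n _ => by ring
  · congr 1
    ring

theorem tail_CPhiF {L : ℝ} (m k : ℕ) (hm : ((m : ℝ) + 1) / 2 ≤ (2 * π * (m + 1) / L) ^ 2 / 2) :
    ∑ i ∈ Finset.range k, exp (-((2 * π * ((m + i : ℕ) + 1) / L) ^ 2 / 2)) ≤
      2 * exp (-((2 * π * (m + 1) / L) ^ 2 / 2)) := by
  obtain ⟨a, ha⟩ : ∃ a, a = (2 * π / L) ^ 2 / 2 := ⟨_, rfl⟩
  have e : ∀ x : ℝ, (2 * π * x / L) ^ 2 / 2 = a * x ^ 2 := fun x => by rw [ha]; ring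
  have a0 : 0 ≤ a := by rw [ha]; positivity
  simp only [e] at hm ⊢
  have m0 : (0 : ℝ) < m + 1 := by positivity
  have h1 : 1 / 2 ≤ a * (m + 1) := by
    refine le_of_mul_le_mul_right ?_ m0
    linarith
  have h2 : exp (-1) ≤ 1 / 2 := by
    rw [exp_neg, inv_le_comm₀ (exp_pos _) (by norm_num)]
    linarith [add_one_le_exp (1 : ℝ)]
  refine (Finset.sum_le_sum (g := fun i => (1 / 2 : ℝ) ^ i * exp (-(a * (m + 1) ^ 2)))
    fun i _ => ?_).trans ?_
  · refine le_trans ?_ (mul_le_mul_of_nonneg_right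
      (pow_le_pow_left₀ (exp_pos _).le h2 i) (exp_pos _).le)
    rw [← exp_nat_mul, ← exp_add, exp_le_exp]
    push_cast
    have i0 : (0 : ℝ) ≤ i := Nat.cast_nonneg i
    nlinarith [mul_le_mul_of_nonneg_right h1 i0, mul_nonneg a0 (sq_nonneg (i : ℝ))]
  · rw [← Finset.sum_mul]
    exact mul_le_mul_of_nonneg_right (sum_geometric_two_le k) (exp_pos _).le

/-- Fourier series lower bound for the normal distribution function. -/
theorem phi_fourier {L s z : ℝ} (hL : 0 < L) (hs : |s| ≤ 1 / 2) (m : ℕ) (hz0 : 0 ≤ z)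
    (hz : z ≤ L * (1 - s)) (hz2 : 2 ≤ z ^ 2)
    (hm : ((m : ℝ) + 1) / 2 ≤ (2 * π * (m + 1) / L) ^ 2 / 2) :
    1 / 2 + s + ∑ j ∈ Finset.range m,
        exp (-((2 * π * (j + 1) / L) ^ 2 / 2)) / (π * (j + 1)) * sin (2 * π * (j + 1) * s)
      - exp (-((2 * π * (m + 1) / L) ^ 2 / 2)) - exp (-(z ^ 2 / 2)) ≤ Phi (L * s) := by
  have hs1 := (abs_le.1 hs).1
  have z2 : z ^ 2 ≤ (L * (1 - s)) ^ 2 := pow_le_pow_left₀ hz0 hz 2
  have hl : 1 ≤ L ^ 2 * (1 - s) := by
    have h1 : 0 ≤ L ^ 2 * (1 - s) := mul_nonneg (sq_nonneg _) (by linarith [(abs_le.1 hs).2])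
    nlinarith [mul_le_mul_of_nonneg_left (show 1 - s ≤ 3 / 2 by linarith) h1]
  have z3 : exp (-((L * (1 - s)) ^ 2 / 2)) ≤ exp (-(z ^ 2 / 2)) := exp_le_exp.2 (by linarith)
  obtain ⟨g, hg⟩ : ∃ g : ℕ → ℝ, ∀ n : ℕ, exp (-((2 * π * (n + 1) / L) ^ 2 / 2)) = g n :=
    ⟨_, fun _ => rfl⟩
  have g0 : ∀ n, 0 ≤ g n := fun n => by rw [← hg]; exact (exp_pos _).le
  have g1 : ∀ n, g n ≤ 1 := fun n => by
    rw [← hg, exp_le_one_iff, neg_nonpos]; positivity
  have hπ := pi_gt_three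
  refine le_of_forall_pos_le_add fun ε hε => ?_
  obtain ⟨k, hk1, hk2⟩ : ∃ k : ℕ, m ≤ k ∧ (3 + 3 * m) / ε ≤ k :=
    ⟨max m ⌈(3 + 3 * m) / ε⌉₊, le_max_left _ _,
      (Nat.le_ceil _).trans (by exact_mod_cast le_max_right _ _)⟩
  have tl := tail_CPhiF m k hm
  have key := main_CPhiF hL (J := m + k + 1) (by omega) hl
  rw [Nat.add_sub_cancel, Finset.sum_range_add] at key
  obtain ⟨J, hJ⟩ : ∃ J : ℝ, ((m + k + 1 : ℕ) : ℝ) = J := ⟨_, rfl⟩
  have hJ' : J = m + k + 1 := by rw [← hJ]; push_cast; ring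
  have k0 : (0 : ℝ) ≤ k := Nat.cast_nonneg k
  have m0 : (0 : ℝ) ≤ m := Nat.cast_nonneg m
  have mk : (m : ℝ) ≤ k := by exact_mod_cast hk1
  have J0 : 0 < J := by linarith
  simp only [hg, hJ] at tl key ⊢
  have cb : ∀ u x : ℝ, 0 < u → u < 1 → (1 - u) / J * cos x ≤ 1 / J := fun u x h0 h1 =>
    (mul_le_of_le_one_right (div_nonneg (by linarith) J0.le) (cos_le_one x)).trans
      (div_le_div_of_nonneg_right (by linarith) J0.le)
  have ek : ∀ n : ℕ, 1 / (π * ((n + 1) / J)) / J = 1 / (π * (n + 1)) := fun n => by field_simp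
  have j0 : 0 ≤ 1 / J := by positivity
  have b1 := Finset.sum_le_sum (s := Finset.range m)
    (f := fun n : ℕ => g n * ((1 - ((n : ℝ) + 1) / J) / J * cos (2 * π * (n + 1) * s)
      - (pw_c (((n : ℝ) + 1) / J) + 1 / π) / J * sin (2 * π * (n + 1) * s)))
    (g := fun n : ℕ => 3 * (1 / J) - g n / (π * (n + 1)) * sin (2 * π * (n + 1) * s))
    fun n hn => by
      have n1 : (n : ℝ) + 1 ≤ m := by exact_mod_cast Finset.mem_range.1 hn
      have u0 : 0 < ((n : ℝ) + 1) / J := by positivity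
      have u1 : ((n : ℝ) + 1) / J ≤ 1 / 2 := by rw [div_le_iff₀ J0]; linarith
      have d0 := pw_D_nonneg u0 (by linarith)
      have d1 := pw_D_le u0 u1
      have c1 := cb _ (2 * π * (n + 1) * s) u0 (by linarith)
      have c2 : (1 - ((n : ℝ) + 1) / J) * pw_D ((n + 1) / J) / J * sin (2 * π * (n + 1) * s) ≤
          2 / J := (mul_le_of_le_one_right (div_nonneg (mul_nonneg (by linarith) d0) J0.le)
            (sin_le_one _)).trans (div_le_div_of_nonneg_right (by nlinarith) J0.le)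
      have c3 := mul_le_mul_of_nonneg_left (add_le_add c1 c2) (g0 n)
      have c4 := mul_le_of_le_one_left (show 0 ≤ 1 / J + 2 / J by positivity) (g1 n)
      have c5 : 2 / J = 2 * (1 / J) := by ring
      rw [pw_k_eq u0, sub_div (1 / (π * ((n + 1) / J))), ek, div_eq_mul_one_div (g n)]
      linarith
  have b2 := Finset.sum_le_sum (s := Finset.range k)
    (f := fun i : ℕ => g (m + i) * ((1 - (((m + i : ℕ) : ℝ) + 1) / J) / J *
      cos (2 * π * ((m + i : ℕ) + 1) * s) - (pw_c ((((m + i : ℕ) : ℝ) + 1) / J) + 1 / π) / J *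
        sin (2 * π * ((m + i : ℕ) + 1) * s)))
    (g := fun i : ℕ => g (m + i) * (1 / J + 1 / 2)) fun i hi => by
      have n1 : ((m + i : ℕ) : ℝ) + 1 < J := by
        have : (i : ℝ) < k := by exact_mod_cast Finset.mem_range.1 hi
        push_cast
        linarith
      have u0 : 0 < (((m + i : ℕ) : ℝ) + 1) / J := by positivity
      have u1 := (div_lt_one J0).2 n1
      obtain ⟨d0, d1⟩ := pw_k_bd u0 u1
      have c1 := cb _ (2 * π * ((m + i : ℕ) + 1) * s) u0 u1
      have c2 := (div_le_div_of_nonneg_right d1 J0.le).trans (ek (m + i)).le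
      have c3 : 1 / (π * (((m + i : ℕ) : ℝ) + 1)) ≤ 1 / 2 := by
        refine one_div_le_one_div_of_le (by norm_num) ?_
        nlinarith [Nat.cast_nonneg (α := ℝ) (m + i)]
      have c4 := mul_le_mul_of_nonneg_left (neg_one_le_sin (2 * π * ((m + i : ℕ) + 1) * s))
        (div_nonneg d0 J0.le)
      exact mul_le_mul_of_nonneg_left (by linarith) (g0 _)
  rw [Finset.sum_sub_distrib, Finset.sum_const, Finset.card_range, nsmul_eq_mul] at b1
  rw [← Finset.sum_mul] at b2
  have b3 := mul_le_mul_of_nonneg_right tl (show 0 ≤ 1 / J + 1 / 2 by positivity)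
  have b4 := mul_le_of_le_one_left j0 (g1 m)
  have b5 : (3 + 3 * m) * (1 / J) ≤ ε := by
    rw [div_le_iff₀ hε] at hk2
    rw [mul_one_div, div_le_iff₀ J0]
    nlinarith
  have b6 : 1 / (2 * J) = 1 / 2 * (1 / J) := by field_simp
  linarith

end Pool.Agent.Lib.MP_33650d_pr.X
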