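import Pool.Agent.Lib.MP_33650d_pr.X.CInst
import Pool.Agent.Lib.MP_33650d_pr.X.CLane
import Pool.Agent.Lib.MP_33650d_pr.X.CKChk
import Pool.Agent.Lib.MP_33650d_pr.X.CPhiF

namespace Pool.Agent.Lib.MP_33650d_pr.X
open MeasureTheory ProbabilityTheory Real

seal Nat.shiftRight Nat.shiftLeft Nat.mod Nat.sub Nat.add Nat.mul Nat.pow one72 h72 yC yS
  rI rS geqR expT expU expL

theorem par_CFin {α : Type} (j : ℕ) (x y : α) :
    ite' (Nat.beq (Nat.mod j 2) 0) x y = if j % 2 = 0 then x else y := by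
  rw [nmod_eq]
  cases h : Nat.beq (j % 2) 0
  · rw [ite'_false, if_neg (Nat.ne_of_beq_eq_false h)]
  · rw [ite'_true, if_pos (Nat.eq_of_beq_eq_true h)]

theorem div_le_CFin (a b : ℕ) : ((Nat.div a b : ℕ) : ℝ) ≤ (a : ℝ) / b := by
  rw [ndiv_eq]; exact Nat.cast_div_le

theorem div_ge_CFin (a : ℕ) {b : ℕ} (hb : 0 < b) :
    (a : ℝ) / b ≤ ((Nat.add (Nat.div a b) 1 : ℕ) : ℝ) := by
  have := cast_div_gt a b hb
  rw [cast_nadd, ndiv_eq, Nat.cast_one]; linarith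

theorem shr_ge_CFin (a k : ℕ) :
    (a : ℝ) / 2 ^ k ≤ ((Nat.add (Nat.shiftRight a k) 1 : ℕ) : ℝ) := by
  have := cast_shr_ge a k
  rw [cast_nadd, Nat.cast_one]; linarith

/-- The exponent of the Gaussian factor. -/
noncomputable def yr_CFin (p : Pm) (N n : ℕ) : ℝ := tn p n ^ 2 * ((N : ℝ) / 2 ^ 20) / 2

theorem y_CFin {p : Pm} (hp : 0 < p.P) (N n : ℕ) :
    (yL p N n : ℝ) ≤ yr_CFin p N n * 2 ^ 32 ∧ yr_CFin p N n * 2 ^ 32 ≤ yU p N n := by
  obtain ⟨-, ⟨h1, h2⟩, -⟩ := t_spec hp n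
  have hN : (0 : ℝ) ≤ N := Nat.cast_nonneg _
  have e : yr_CFin p N n * 2 ^ 32 = tn p n ^ 2 * 2 ^ 64 * N / 2 ^ 53 := by
    rw [yr_CFin]; ring
  rw [e, yL, yU]
  refine ⟨(cast_shr_le _ _).trans ?_, le_trans ?_ (shr_ge_CFin _ _)⟩ <;> rw [cast_nmul] <;> gcongr

theorem exU_CFin {y : ℕ} {r : ℝ} (h : (y : ℝ) ≤ r * 2 ^ 32) :
    exp (-r) * 2 ^ 64 ≤ expU 0 y := by
  refine le_trans ?_ (expU_spec 0 y)
  gcongr
  rw [le_div_iff₀ (by positivity), Nat.cast_zero]; linarith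

theorem tail_CFin {y : ℕ} {r : ℝ} (h : (y : ℝ) ≤ r * 2 ^ 32) :
    exp (-r) * 2 ^ 60 ≤ ((Nat.add (Nat.shiftRight (expU 0 y) 4) 1 : ℕ) : ℝ) := by
  refine le_trans ?_ (shr_ge_CFin _ _)
  have := exU_CFin h
  rw [le_div_iff₀ (by positivity)]; linarith

theorem g_CFin {p : Pm} (hp : 0 < p.P) (N j : ℕ) :
    (gL p N j : ℝ) ≤ exp (-yr_CFin p N (j + 1)) / (π * (j + 1)) * 2 ^ 30 ∧
      exp (-yr_CFin p N (j + 1)) / (π * (j + 1)) * 2 ^ 30 ≤ gU p N j := by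
  obtain ⟨h1, h2⟩ := y_CFin hp N (j + 1)
  have p1 := pi_gt_d20
  have p2 := pi_lt_d20
  have hj : (0 : ℝ) < (j : ℝ) + 1 := by positivity
  have hE := exp_pos (-yr_CFin p N (j + 1))
  rw [gL, gU, force_eq, force_eq, Nat.add_eq (x := j)]
  constructor
  · have h3 : (expL (yU p N (j + 1)) : ℝ) ≤ exp (-yr_CFin p N (j + 1)) * 2 ^ 64 := by
      refine (expL_spec _).trans ?_
      gcongr
      rw [div_le_iff₀ (by positivity)]; linarith
    refine (cast_shr_le _ _).trans ?_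
    rw [div_le_iff₀ (by positivity)]
    refine (div_le_CFin _ _).trans ?_
    rw [cast_nmul]
    generalize (expL (yU p N (j + 1)) : ℝ) = A at h3
    generalize exp (-yr_CFin p N (j + 1)) = E at h3 hE
    push_cast
    rw [show E / (π * (j + 1)) * 2 ^ 30 * 2 ^ 74 = E * 2 ^ 64 * (2 ^ 40 / π) / (j + 1) by
      field_simp]
    refine div_le_div_of_nonneg_right (mul_le_mul h3 ?_ (by norm_num) (by positivity)) hj.le
    rw [le_div_iff₀ pi_pos]; linarith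
  · have h3 := exU_CFin h1
    rw [nshr_eq, ndiv_eq, Nat.div_div_eq_div_mul, ← ndiv_eq]
    refine le_trans ?_ (div_ge_CFin _ (by positivity))
    rw [cast_nmul]
    generalize (expU 0 (yL p N (j + 1)) : ℝ) = A at h3
    generalize exp (-yr_CFin p N (j + 1)) = E at h3 hE
    push_cast
    rw [show E / (π * (j + 1)) * 2 ^ 30 = E * 2 ^ 64 * (2 ^ 40 / π) / ((j + 1) * 2 ^ 74) by
      field_simp]
    have h4 : (2 : ℝ) ^ 40 / π ≤ 349985421096 := by rw [div_le_iff₀ pi_pos]; linarith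
    have h5 := mul_le_mul h3 h4 (by positivity) (le_trans (by positivity) h3)
    rw [show (2 : ℝ) ^ 74 = 18889465931478580854784 by norm_num]
    exact div_le_div_of_nonneg_right h5 (by positivity)

theorem sin_CFin (j i : ℕ) : sin (2 * π * (j + 1) * sl i) =
    (if j % 2 = 0 then -1 else 1) * sin (2 * π * ((j + 1 : ℕ) : ℝ) * (i / 4096)) := by
  rw [show 2 * π * (j + 1) * sl i = 2 * π * ((j + 1 : ℕ) : ℝ) * (i / 4096) - (j + 1 : ℕ) * π by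
    rw [sl]; push_cast; ring, sin_sub_nat_mul_pi]
  congr 1
  split_ifs with h
  · exact Odd.neg_one_pow (Nat.odd_iff.2 (by omega))
  · exact Even.neg_one_pow (Nat.even_iff.2 (by omega))

theorem term_CFin {γ S gl gu v : ℝ} (j : ℕ) (h0 : 0 ≤ gl) (h1 : gl ≤ γ * 2 ^ 30)
    (h2 : γ * 2 ^ 30 ≤ gu) (hS : |S| ≤ 1) (hv : |v - (S + 2) * 2 ^ 30| ≤ 36) :
    (if j % 2 = 0 then 0 else gl * v) + (if j % 2 = 0 then 3221225472 * gl else 0)
      - (if j % 2 = 0 then gl * v else 0)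
      - (gu * 2 ^ 30 + (if j % 2 = 0 then 36 else 1073741860) * gl)
      ≤ γ * ((if j % 2 = 0 then -1 else 1) * S) * 2 ^ 60 := by
  obtain ⟨s1, s2⟩ := abs_le.1 hS
  obtain ⟨v1, v2⟩ := abs_le.1 hv
  split_ifs
  · have a1 := mul_le_mul_of_nonneg_left v1 h0
    have a2 := mul_le_mul_of_nonneg_right h1 (sub_nonneg.2 s2)
    nlinarith
  · have a1 := mul_le_mul_of_nonneg_left v2 h0
    have a2 := mul_le_mul_of_nonneg_right h1 (show 0 ≤ S + 1 by linarith)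
    nlinarith

theorem sl_abs_CFin {i : ℕ} (hi : i < 4096) : |sl i| ≤ 1 / 2 := by
  have h1 : (i : ℝ) ≤ 4096 := by exact_mod_cast hi.le
  have h0 : (0 : ℝ) ≤ i := Nat.cast_nonneg _
  rw [sl, abs_le]; constructor <;> linarith

/-- The rows for the normal distribution function. -/
theorem ph_rows {p : Pm} (hp : 0 < p.P) (hn : p.n0 ≤ 255) {N : ℕ} (h : phOK p N = true) :
    ∃ a b : ℕ → ℕ, Rep 72 4096 (phP p N) a (2 ^ 60 + 2 ^ 67) ∧ Rep 72 4096 (phM p N) b (2 ^ 67) ∧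
      ∀ i < 4096, ∀ z : ℝ, 0 ≤ z → 2 ≤ z ^ 2 → z ≤ p.P / √((N : ℝ) / 2 ^ 20) * (1 - sl i) →
        ((a i : ℝ) + phCp p N - b i - phCm p N) / 2 ^ 60 - exp (-(z ^ 2 / 2))
          ≤ Phi (p.P * sl i / √((N : ℝ) / 2 ^ 20)) := by
  rw [phOK, band_eq] at h
  have hs := Nat.le_of_ble_eq_true h.1
  have ht := ble_cast h.2
  rw [sumN_eq] at hs
  rw [cast_shl, cast_nadd, yT, force_eq, Nat.add_eq] at ht
  clear h
  have hy : ∀ j, ∃ v : ℕ → ℕ, j < p.n0 → Rep 72 4096 (yS (j + 1)) v (2 ^ 32) ∧ ∀ i < 4096,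
      |(v i : ℝ) - (sin (2 * π * ((j + 1 : ℕ) : ℝ) * (i / 4096)) + 2) * 2 ^ 30| ≤ 36 := by
    intro j
    by_cases hj : j < p.n0
    · obtain ⟨u, v, -, h2, h3⟩ := y_spec (k := j + 1) (by omega)
      exact ⟨v, fun _ => ⟨h2, fun i hi => (h3 i hi).2⟩⟩
    · exact ⟨fun _ => 0, fun h => absurd h hj⟩
  choose v hv using hy
  have hB : ∑ j ∈ Finset.range p.n0, gL p N j * 2 ^ 32 ≤ 2 ^ 67 := by
    rw [← Finset.sum_mul]; omega
  have r1 : ∀ j < p.n0, Rep 72 4096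
      (ite' (Nat.beq (Nat.mod j 2) 0) 0 (Nat.mul (gL p N j) (yS (Nat.add j 1))))
      (fun i => if j % 2 = 0 then 0 else gL p N j * v j i) (gL p N j * 2 ^ 32) := by
    intro j hj
    rw [par_CFin, Nat.add_eq]
    split_ifs
    · exact (Rep.zero _ _).mono (Nat.zero_le _)
    · exact Rep.mul _ (hv j hj).1
  have r2 : ∀ j < p.n0, Rep 72 4096
      (ite' (Nat.beq (Nat.mod j 2) 0) (Nat.mul (gL p N j) (yS (Nat.add j 1))) 0)
      (fun i => if j % 2 = 0 then gL p N j * v j i else 0) (gL p N j * 2 ^ 32) := by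
    intro j hj
    rw [par_CFin, Nat.add_eq]
    split_ifs
    · exact Rep.mul _ (hv j hj).1
    · exact (Rep.zero _ _).mono (Nat.zero_le _)
  refine ⟨_, _, ((rI_rep.shl 48).add (tb_rep_sum r1)).mono (by omega),
    (tb_rep_sum r2).mono hB, fun i hi z hz0 hz2 hz => ?_⟩
  obtain ⟨y1, -⟩ := y_CFin hp N (p.n0 + 1)
  have hP : (0 : ℝ) < p.P := by exact_mod_cast hp
  have hn0 : (0 : ℝ) ≤ p.n0 := Nat.cast_nonneg _
  have hN : (0 : ℝ) < (N : ℝ) / 2 ^ 20 := by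
    rcases Nat.eq_zero_or_pos N with rfl | hN
    · exfalso
      rw [yr_CFin] at y1
      push_cast at ht y1
      nlinarith
    · positivity
  have ey : ∀ n : ℕ, (2 * π * ((n : ℝ) + 1) / (p.P / √((N : ℝ) / 2 ^ 20))) ^ 2 / 2
      = yr_CFin p N (n + 1) := by
    intro n
    rw [yr_CFin, tn, div_div_eq_mul_div, mul_div_right_comm, mul_pow, sq_sqrt hN.le]
    push_cast; rfl
  have hf := phi_fourier (L := p.P / √((N : ℝ) / 2 ^ 20)) (s := sl i) (z := z) (by positivity)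
    (sl_abs_CFin hi) p.n0 hz0 hz hz2 (by rw [ey]; push_cast at ht; linarith)
  rw [div_mul_eq_mul_div] at hf
  refine le_trans ?_ hf
  simp only [ey]
  have htl := tail_CFin y1
  rw [phCp, phCm, yT, force_eq, Nat.add_eq (x := p.n0), cast_nadd, sumN_eq, sumN_eq]
  generalize ((Nat.add (Nat.shiftRight (expU 0 (yL p N (p.n0 + 1))) 4) 1 : ℕ) : ℝ) = T at htl ⊢
  have hsum := Finset.sum_le_sum (s := Finset.range p.n0) fun j hj =>
    term_CFin j (Nat.cast_nonneg (gL p N j)) (g_CFin hp N j).1 (g_CFin hp N j).2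
      (abs_sin_le_one _) ((hv j (Finset.mem_range.1 hj)).2 i hi)
  simp only [← sin_CFin] at hsum
  rw [Finset.sum_sub_distrib, Finset.sum_sub_distrib, Finset.sum_add_distrib,
    ← Finset.sum_mul] at hsum
  simp only [par_CFin, Nat.cast_add, Nat.cast_sum, Nat.cast_mul, Nat.cast_ite, cast_nadd, cast_nmul,
    cast_shl, Nat.cast_zero, Nat.cast_ofNat, Nat.cast_pow]
  have es : sl i = (i : ℝ) / 4096 - 1 / 2 := by rw [sl]; ring
  rw [sub_le_sub_iff_right, div_le_iff₀ (by positivity)]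
  linarith

theorem hL_CFin {N : ℕ} (h : hOK N = true) :
    0 < N ∧ (hL N : ℝ) * √((N : ℝ) / 2 ^ 20) ≤ 2 ^ 32 := by
  rw [hOK, band_eq] at h
  have h1 := ble_cast h.1
  have h2 := Nat.le_of_ble_eq_true h.2
  rw [cast_nmul, cast_nmul] at h1
  rw [Nat.mul_eq] at h2
  clear h
  refine ⟨Nat.pos_of_ne_zero fun h0 => by rw [h0, mul_zero] at h2; omega, ?_⟩
  generalize hL N = A at h1
  refine abs_le_of_sq_le_sq' ?_ (by positivity) |>.2
  rw [mul_pow, sq_sqrt (by positivity)]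
  push_cast at h1
  nlinarith

theorem tg_spec {v : Vx} (h : hOK v.n = true) : (tg v : ℝ) / 2 ^ 60
    ≤ (1 / 3 + 1 / 6 * ((v.k : ℝ) / 2 ^ 20) + (v.j : ℝ) / 2 ^ 20)
      / (√(2 * π) * √((v.n : ℝ) / 2 ^ 20)) := by
  obtain ⟨hN, h1⟩ := hL_CFin h
  have hr : 0 < √((v.n : ℝ) / 2 ^ 20) := by positivity
  have hq : 0 < √(2 * π) := by positivity
  have h2 : 73106946018 * √(2 * π) ≤ 2 ^ 40 / 6 := by
    refine abs_le_of_sq_le_sq' ?_ (by positivity) |>.2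
    rw [mul_pow, sq_sqrt (by positivity)]
    have := pi_lt_d20
    linarith
  have h3 := cast_shr_le (Nat.mul (Nat.mul (hL v.n) (be v.k v.j)) 73106946018) 32
  rw [tg, force_eq]
  rw [cast_nmul, cast_nmul] at h3
  have eb : (be v.k v.j : ℝ)
      = (1 / 3 + 1 / 6 * ((v.k : ℝ) / 2 ^ 20) + (v.j : ℝ) / 2 ^ 20) * (6 * 2 ^ 20) := by
    rw [be, cast_nadd, cast_nadd, cast_nmul]; push_cast; ring
  rw [eb] at h3
  have hb : 0 ≤ 1 / 3 + 1 / 6 * ((v.k : ℝ) / 2 ^ 20) + (v.j : ℝ) / 2 ^ 20 := by positivity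
  generalize 1 / 3 + 1 / 6 * ((v.k : ℝ) / 2 ^ 20) + (v.j : ℝ) / 2 ^ 20 = b at h3 hb ⊢
  generalize ((Nat.shiftRight (Nat.mul (Nat.mul (hL v.n) (be v.k v.j)) 73106946018) 32 : ℕ) : ℝ)
    = T at h3 ⊢
  have hA : (0 : ℝ) ≤ hL v.n := Nat.cast_nonneg _
  generalize (hL v.n : ℝ) = A at h1 h3 hA
  generalize √((v.n : ℝ) / 2 ^ 20) = r at h1 hr ⊢
  generalize √(2 * π) = q at h2 hq ⊢
  rw [le_div_iff₀ (by positivity)]
  have h4 := mul_le_mul h1 h2 (by positivity) (by positivity)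
  have h5 := mul_le_mul_of_nonneg_left h4 hb
  have h6 := mul_le_mul_of_nonneg_right h3 (mul_pos hq hr).le
  push_cast at h6
  nlinarith

theorem zz_CFin {p : Pm} {c : Cel} {g : Sg} (hg : g.Ok) {N i : ℕ} (hN : 0 < N) (h1 : N ≤ c.n1)
    (hi : i < g.cnt) :
    √((zz p c g : ℝ) / 2 ^ 31) ≤ p.P / √((N : ℝ) / 2 ^ 20) * (1 - sl (g.lo + i)) := by
  have hI : g.lo + i < 4096 := by have := hg.2; omega
  have hs := (abs_le.1 (sl_abs_CFin hI)).2
  have hN' : (0 : ℝ) < N := by exact_mod_cast hN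
  have h1' : (N : ℝ) ≤ c.n1 := by exact_mod_cast h1
  rw [sqrt_le_left (mul_nonneg (by positivity) (by linarith)), mul_pow, div_pow,
    sq_sqrt (by positivity), div_le_iff₀ (by positivity), zz]
  refine (div_le_CFin _ _).trans ?_
  have hh : Nat.sub 6144 (X.hi g) ≤ 6144 - (g.lo + i) := by
    rw [X.hi, Nat.sub_eq, Nat.sub_eq, Nat.add_eq]; omega
  have h2 : ((Nat.sub 6144 (X.hi g) : ℕ) : ℝ) ≤ (1 - sl (g.lo + i)) * 4096 := by
    refine (Nat.cast_le.2 hh).trans (le_of_eq ?_)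
    rw [Nat.cast_sub (by omega), sl]; push_cast; ring
  rw [cast_shl, cast_nmul, cast_nmul, cast_nmul]
  have h3 : (0 : ℝ) ≤ ((Nat.sub 6144 (X.hi g) : ℕ) : ℝ) := Nat.cast_nonneg _
  generalize ((Nat.sub 6144 (X.hi g) : ℕ) : ℝ) = A at h2 h3
  generalize 1 - sl (g.lo + i) = w at h2
  rw [show (p.P : ℝ) ^ 2 / (N / 2 ^ 20) * w ^ 2 * 2 ^ 31
    = p.P * p.P * (w * 4096 * (w * 4096)) * 2 ^ 27 / N by field_simp; ring]
  have h4 : A * A ≤ w * 4096 * (w * 4096) := mul_self_le_mul_self h3 h2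
  have h5 : 0 ≤ w * 4096 * (w * 4096) := mul_self_nonneg _
  gcongr

theorem fin2_CFin {p : Pm} {g : Sg} (hg : g.Ok) {ph : Bool} {X Y a N cP cN : ℕ}
    {x y A B : ℕ → ℕ} (hX : Rep 72 g.cnt X x (2 ^ 70)) (hY : Rep 72 g.cnt Y y (2 ^ 69))
    (ha : a ≤ 2 ^ 32) (hA : Rep 72 4096 (phP p N) A (2 ^ 60 + 2 ^ 67))
    (hB : Rep 72 4096 (phM p N) B (2 ^ 67)) (h : fin2 p g ph X Y a N cP cN = true) {i : ℕ}
    (hi : i < g.cnt) :
    x i + a * 2 ^ 6 * (g.lo + i) ^ 2 + (if ph then B (g.lo + i) else 0) + cP * 1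
      ≤ y i + (if ph then A (g.lo + i) else 0) + cN * 1 := by
  rw [fin2, band_eq, band_eq] at h
  obtain ⟨b1, b2, h⟩ := h
  have c1 := Nat.le_of_ble_eq_true b1
  have c2 := Nat.le_of_ble_eq_true b2
  have rA : Rep 72 g.cnt (ite' ph (sbP p g N) 0) (fun i => if ph then A (g.lo + i) else 0)
      (2 ^ 60 + 2 ^ 67) := by
    cases ph
    · exact (Rep.zero _ _).mono (Nat.zero_le _)
    · exact sub_rep hg hA (by norm_num)
  have rB : Rep 72 g.cnt (ite' ph (sbM p g N) 0) (fun i => if ph then B (g.lo + i) else 0)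
      (2 ^ 67) := by
    cases ph
    · exact (Rep.zero _ _).mono (Nat.zero_le _)
    · exact sub_rep hg hB (by norm_num)
  have rS' : Rep 72 g.cnt (sbS g a) (fun i => a * 2 ^ 6 * (g.lo + i) ^ 2) (2 ^ 38 * 2 ^ 24) := by
    rw [sbS, nshl_eq]
    exact Rep.mul' (by omega) (sub_rep hg rS_rep (by norm_num))
  exact geq_sound hg ((hY.add rA).add (Rep.mul' c2 (one_rep hg)))
    (((hX.add rS').add rB).add (Rep.mul' c1 (one_rep hg))) (by norm_num) (by norm_num) h hi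

theorem errP_CFin {p : Pm} {c : Cel} (g : Sg) (h0 : 0 < c.n0) :
    (0.26 * (p.P : ℝ) ^ 2 / ((c.n0 : ℝ) / 2 ^ 20) / (8 * 4096 ^ 2)
      + exp (-(√((zz p c g : ℝ) / 2 ^ 31) ^ 2 / 2))) * 2 ^ 60 ≤ errP p c g := by
  have ht := tail_CFin (y := zz p c g) (r := √((zz p c g : ℝ) / 2 ^ 31) ^ 2 / 2)
    (by rw [sq_sqrt (by positivity)]; exact le_of_eq (by ring))
  have he := div_ge_CFin (Nat.mul (Nat.mul p.P p.P) 2341871806232658) h0
  rw [cast_nmul, cast_nmul] at he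
  have h0' : (0 : ℝ) < c.n0 := by exact_mod_cast h0
  rw [errP, ali, cast_nadd, add_mul]
  refine add_le_add (le_trans ?_ he) ht
  clear he ht
  rw [show 0.26 * (p.P : ℝ) ^ 2 / ((c.n0 : ℝ) / 2 ^ 20) / (8 * 4096 ^ 2) * 2 ^ 60
    = (p.P : ℝ) * p.P * (0.26 * 2 ^ 53) / c.n0 by field_simp; ring]
  gcongr
  norm_num

theorem key_CFin {ph : Bool} {x y a I A B s D e e' m t q : ℕ}
    (h : x + a * 2 ^ 6 * I ^ 2 + (if ph then B else 0)
        + Nat.add (Nat.add (Nat.add s D) e) (ite' ph (Nat.add e' m) 0) * 1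
      ≤ y + (if ph then A else 0)
        + Nat.add (Nat.add (Nat.shiftLeft a 28) t) (ite' ph q 0) * 1) :
    (x : ℝ) - y + s + e + (D + a * 2 ^ 6 * I ^ 2 - a * 2 ^ 28)
      + (if ph then (e' : ℝ) - (A + q - B - m) else 0) ≤ t := by
  have h' := (Nat.cast_le (α := ℝ)).2 h
  clear h
  cases ph
  · rw [ite'_false, ite'_false] at h'
    simp only [Bool.false_eq_true, if_false, Nat.cast_add, Nat.cast_mul, Nat.cast_pow,
      cast_nadd, cast_shl, Nat.cast_zero, Nat.cast_ofNat, Nat.cast_one] at h' ⊢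
    linarith
  · rw [ite'_true, ite'_true] at h'
    simp only [if_true, Nat.cast_add, Nat.cast_mul, Nat.cast_pow,
      cast_nadd, cast_shl, Nat.cast_ofNat, Nat.cast_one] at h' ⊢
    linarith

theorem fin_eq_CFin (p : Pm) (c : Cel) (g : Sg) (ph : Bool) (X Y a s : ℕ) (v : Vx) :
    fin p c g ph X Y a s v = fin2 p g ph X Y a v.n (Nat.add (Nat.add (Nat.add s (Nat.add
      (Nat.div (Nat.shiftLeft (Nat.mul a v.n) 10) (Nat.mul p.P p.P)) 1)) (errN p c g))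
      (ite' ph (Nat.add (errP p c g) (phCm p v.n)) 0))
      (Nat.add (Nat.add (Nat.shiftLeft a 28) (tg v)) (ite' ph (phCp p v.n) 0)) := by
  rw [fin, force_eq, force_eq, force_eq]

theorem fin_sound {p : Pm} (hp : 0 < p.P) (hn : p.n0 ≤ 255) {c : Cel} {g : Sg} (hg : g.Ok)
    {ph : Bool} {X Y a s : ℕ} {x y : ℕ → ℕ} (hX : Rep 72 g.cnt X x (2 ^ 70))
    (hY : Rep 72 g.cnt Y y (2 ^ 69)) (ha : a ≤ 2 ^ 32) {v : Vx} (h0 : 0 < c.n0) (h1 : v.n ≤ c.n1)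
    (h2 : hOK v.n = true) (h3 : phOK p v.n = true) (h4 : ph = true → 2 ^ 32 ≤ zz p c g)
    (h : fin p c g ph X Y a s v = true) {i : ℕ} (hi : i < g.cnt) :
    ((x i : ℝ) - y i + s + errN p c g) / 2 ^ 60
      + (a : ℝ) / 2 ^ 30 * ((v.n : ℝ) / 2 ^ 20 / (p.P : ℝ) ^ 2 + sl (g.lo + i) ^ 2 + sl (g.lo + i))
      + (if ph then 0.26 * (p.P : ℝ) ^ 2 / ((c.n0 : ℝ) / 2 ^ 20) / (8 * 4096 ^ 2)
          - Phi (p.P * sl (g.lo + i) / √((v.n : ℝ) / 2 ^ 20)) else 0)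
      ≤ (1 / 3 + 1 / 6 * ((v.k : ℝ) / 2 ^ 20) + (v.j : ℝ) / 2 ^ 20)
        / (√(2 * π) * √((v.n : ℝ) / 2 ^ 20)) := by
  obtain ⟨A, B, hA, hB, hph⟩ := ph_rows hp hn h3
  have key := key_CFin (fin2_CFin hg hX hY ha hA hB ((fin_eq_CFin ..).symm.trans h) hi)
  clear h hA hB hX hY
  refine le_trans ?_ (tg_spec h2)
  have hP : (0 : ℝ) < p.P := by exact_mod_cast hp
  have hd := div_ge_CFin (Nat.shiftLeft (Nat.mul a v.n) 10) (b := Nat.mul p.P p.P)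
    (by rw [Nat.mul_eq]; positivity)
  rw [cast_shl, cast_nmul, cast_nmul] at hd
  have he := errP_CFin (p := p) g h0
  have es : (a : ℝ) / 2 ^ 30 * ((v.n : ℝ) / 2 ^ 20 / (p.P : ℝ) ^ 2 + sl (g.lo + i) ^ 2
      + sl (g.lo + i)) = ((a : ℝ) * v.n * 2 ^ 10 / (p.P * p.P)
        + a * 2 ^ 6 * ((g.lo + i : ℕ) : ℝ) ^ 2 - a * 2 ^ 28) / 2 ^ 60 := by
    rw [sl]; field_simp; ring
  rw [es]
  have hq : ph = true → ((A (g.lo + i) : ℝ) + phCp p v.n - B (g.lo + i) - phCm p v.n) / 2 ^ 60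
      - exp (-(√((zz p c g : ℝ) / 2 ^ 31) ^ 2 / 2))
      ≤ Phi (p.P * sl (g.lo + i) / √((v.n : ℝ) / 2 ^ 20)) := fun hh => by
    have hz : ((2 ^ 32 : ℕ) : ℝ) ≤ zz p c g := Nat.cast_le.2 (h4 hh)
    refine hph (g.lo + i) (by have := hg.2; omega) _ (sqrt_nonneg _) ?_
      (zz_CFin hg (hL_CFin h2).1 h1 hi)
    rw [sq_sqrt (by positivity)]
    generalize (zz p c g : ℝ) = Z at hz
    push_cast at hz
    linarith
  clear hph h2 h3 h4 es
  generalize ((Nat.add (Nat.div (Nat.shiftLeft (Nat.mul a v.n) 10) (Nat.mul p.P p.P)) 1 : ℕ) : ℝ)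
    = D at key hd
  generalize (A (g.lo + i) : ℝ) + phCp p v.n - B (g.lo + i) - phCm p v.n = U at key hq
  generalize (errP p c g : ℝ) = F at key he
  generalize (errN p c g : ℝ) = F' at key ⊢
  generalize (tg v : ℝ) = T at key ⊢
  generalize (a : ℝ) * v.n * 2 ^ 10 / (p.P * p.P) = E at hd ⊢
  generalize 0.26 * (p.P : ℝ) ^ 2 / ((c.n0 : ℝ) / 2 ^ 20) / (8 * 4096 ^ 2) = H at he ⊢
  generalize exp (-(√((zz p c g : ℝ) / 2 ^ 31) ^ 2 / 2)) = W at hq he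
  generalize Phi (p.P * sl (g.lo + i) / √((v.n : ℝ) / 2 ^ 20)) = V at hq ⊢
  generalize (a : ℝ) * 2 ^ 6 * ((g.lo + i : ℕ) : ℝ) ^ 2 = Q at key ⊢
  cases ph
  · rw [if_neg Bool.false_ne_true] at key ⊢
    linarith
  · rw [if_pos rfl] at key ⊢
    linarith [hq rfl]

end Pool.Agent.Lib.MP_33650d_pr.X
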