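import Pool.Agent.Lib.MP_33650d_pr.X.Basic

namespace Pool.Agent.Lib.MP_33650d_pr.X
open MeasureTheory ProbabilityTheory Real

theorem EntSum_norm {S : Sys} (h : S.Ok) {t : ℝ} (ht : 0 < t) :
    ‖charFun S.ν t‖ = ∏ k, ‖(S.dat k t).f‖ := by
  rw [h.char t ht, norm_prod]

theorem Sys.Ok.polar {S : Sys} (h : S.Ok) {t : ℝ} (ht : 0 < t) :
    charFun S.ν t = (‖charFun S.ν t‖ : ℂ) * Complex.exp ((S.W t : ℂ) * Complex.I) ∧
      ‖charFun S.ν t‖ ≤ 1 := by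
  constructor
  · rw [EntSum_norm h ht, h.char t ht, Sys.W]
    push_cast
    rw [Finset.sum_mul, Complex.exp_sum, ← Finset.prod_mul_distrib]
    refine Finset.prod_congr rfl fun k _ => ?_
    exact (Complex.norm_mul_exp_arg_mul_I _).symm
  · rw [EntSum_norm h ht]
    exact Finset.prod_le_one (fun k _ => norm_nonneg _) fun k _ => (h.lin k t ht).norm_le

theorem EntSum_rhs (P : JP) (e : Ent) (S : Sys) (t : ℝ) :
    e.rhs t S.N S.Bp S.Bm (S.J P) S.Q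
      = ∑ k, e.rhs t (S.s k) (S.bp k) (S.bm k) (P.J (S.s k) (S.bp k) (S.bm k)) (S.s k ^ 2) := by
  simp only [Ent.rhs, Sys.N, Sys.Bp, Sys.Bm, Sys.J, Sys.Q, Finset.mul_sum, Finset.sum_mul,
    ← Finset.sum_add_distrib]

theorem EntSum_res {P : JP} {e : Ent} {S : Sys} (h : S.Ok) (hJ : S.JPos P) {t : ℝ}
    (ht : 0 < t)
    (hS : e.Sb = 0 ∨ t ^ 2 * S.N ≤ e.Sb ∨ (0 ≤ e.Sb ∧ t ^ 4 * S.Q ≤ e.Sb ^ 2))
    (hB : e.Bb = 0 ∨ t ^ 3 * S.B ≤ e.Bb) (hj : e.Jb = 0 ∨ t ^ 3 * S.J P ≤ e.Jb) (k : Fin S.n) :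
    e.Res t (S.s k) (S.bp k + S.bm k) (P.J (S.s k) (S.bp k) (S.bm k)) := by
  obtain ⟨a1, a2, a3⟩ := h.le_tot k
  have a4 := hJ.le_tot.2 k
  have t2 : 0 ≤ t ^ 2 := by positivity
  have t3 : 0 ≤ t ^ 3 := by positivity
  have t4 : 0 ≤ t ^ 4 := by positivity
  refine ⟨?_, ?_, ?_⟩
  · rcases hS with h0 | h0 | ⟨h0, h1⟩
    · exact Or.inl h0
    · exact Or.inr ((mul_le_mul_of_nonneg_left a1 t2).trans h0)
    · refine Or.inr ?_
      have h2 : (t ^ 2 * S.s k) ^ 2 ≤ e.Sb ^ 2 := by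
        have h3 : (t ^ 2 * S.s k) ^ 2 = t ^ 4 * S.s k ^ 2 := by ring
        rw [h3]
        exact (mul_le_mul_of_nonneg_left a3 t4).trans h1
      exact (abs_le_of_sq_le_sq' h2 h0).2
  · rcases hB with h0 | h0
    · exact Or.inl h0
    · exact Or.inr ((mul_le_mul_of_nonneg_left a2 t3).trans h0)
  · rcases hj with h0 | h0
    · exact Or.inl h0
    · exact Or.inr ((mul_le_mul_of_nonneg_left a4 t3).trans h0)

theorem ent_sum {P : JP} {e : Ent} (he : e.Valid P) {S : Sys} (h : S.Ok) (hJ : S.JPos P) {t : ℝ}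
    (ht : 0 < t) (h1 : e.tl ≤ t) (h2 : t ≤ e.th)
    (hS : e.Sb = 0 ∨ t ^ 2 * S.N ≤ e.Sb ∨ (0 ≤ e.Sb ∧ t ^ 4 * S.Q ≤ e.Sb ^ 2))
    (hB : e.Bb = 0 ∨ t ^ 3 * S.B ≤ e.Bb) (hj : e.Jb = 0 ∨ t ^ 3 * S.J P ≤ e.Jb) :
    e.Cl ‖charFun S.ν t‖ (S.W t) (e.rhs t S.N S.Bp S.Bm (S.J P) S.Q) := by
  have key : ∀ k : Fin S.n, e.Cl ‖(S.dat k t).f‖ (Complex.arg (S.dat k t).f)
      (e.rhs t (S.s k) (S.bp k) (S.bm k) (P.J (S.s k) (S.bp k) (S.bm k)) (S.s k ^ 2)) :=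
    fun k => he t ht h1 h2 (S.s k) (S.bp k) (S.bm k) (S.C k t) (S.S k t) (h.spos k)
      (h.lin k t ht) (hJ k) (EntSum_res h hJ ht hS hB hj k)
  rw [EntSum_rhs, EntSum_norm h ht, Sys.W]
  refine ⟨fun h0 => ?_, fun h0 => ?_, fun h0 => ?_⟩
  · rw [Finset.mul_sum, Real.exp_sum, Real.exp_sum, ← Finset.prod_mul_distrib]
    exact Finset.prod_le_prod (fun k _ => by positivity) fun k _ => (key k).1 h0
  · rw [Finset.mul_sum]
    exact Finset.sum_le_sum fun k _ => (key k).2.1 h0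
  · rw [← Finset.sum_neg_distrib, Real.exp_sum]
    exact Finset.prod_le_prod (fun k _ => by positivity) fun k _ => (key k).2.2 h0

end Pool.Agent.Lib.MP_33650d_pr.X
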