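import Pool.Agent.Lib.MP_33650d_pr.X.CMean
import Pool.Agent.Lib.MP_33650d_pr.X.EntSum
import Pool.Agent.Lib.MP_33650d_pr.YTab

namespace Pool.Agent.Lib.MP_33650d_pr.X
open MeasureTheory ProbabilityTheory Real

seal Nat.shiftRight Nat.shiftLeft Nat.mod Nat.sub Nat.add Nat.mul Nat.pow yC yS expT

theorem mD_CInst {a b : ℕ} {x y : ℝ} (ha : (a : ℝ) ≤ x * 2 ^ 64) (hb : (b : ℝ) ≤ y * 2 ^ 64) :
    (mD a b : ℝ) ≤ x * y * 2 ^ 64 := by
  have h1 := cast_shr_le (Nat.mul a b) 64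
  rw [cast_nmul] at h1
  have h2 : (a : ℝ) * b ≤ x * 2 ^ 64 * (y * 2 ^ 64) :=
    mul_le_mul ha hb (by positivity) (le_trans (by positivity) ha)
  refine h1.trans ?_
  rw [div_le_iff₀ (by positivity)]
  linarith

theorem mU_CInst {a b : ℕ} {x y : ℝ} (hy : 0 ≤ y) (ha : x * 2 ^ 64 ≤ a) (hb : y * 2 ^ 64 ≤ b) :
    x * y * 2 ^ 64 ≤ (mU a b : ℝ) := by
  have h1 := cast_shr_ge (Nat.mul a b) 64
  rw [cast_nmul] at h1
  have h2 : x * 2 ^ 64 * (y * 2 ^ 64) ≤ (a : ℝ) * b :=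
    mul_le_mul ha hb (by positivity) (by positivity)
  have h3 : x * y * 2 ^ 64 ≤ (a : ℝ) * b / 2 ^ 64 := by
    rw [le_div_iff₀ (by positivity)]
    linarith
  rw [mU, cast_nadd, Nat.cast_one]
  linarith

theorem t_spec {p : Pm} (hp : 0 < p.P) (n : ℕ) :
    ((tL p n : ℝ) ≤ tn p n * 2 ^ 64 ∧ tn p n * 2 ^ 64 ≤ tU p n) ∧
    ((t2L p n : ℝ) ≤ tn p n ^ 2 * 2 ^ 64 ∧ tn p n ^ 2 * 2 ^ 64 ≤ t2U p n) ∧
    ((t3L p n : ℝ) ≤ tn p n ^ 3 * 2 ^ 64 ∧ tn p n ^ 3 * 2 ^ 64 ≤ t3U p n) ∧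
    ((t4L p n : ℝ) ≤ tn p n ^ 4 * 2 ^ 64 ∧ tn p n ^ 4 * 2 ^ 64 ≤ t4U p n) := by
  have hP : (0 : ℝ) < p.P := by exact_mod_cast hp
  have hn : (0 : ℝ) ≤ n := by positivity
  have t0 : 0 ≤ tn p n := by unfold tn; positivity
  have e : tn p n * 2 ^ 64 = n * (π * 2 ^ 65) / p.P := by unfold tn; ring
  have a1 : (tL p n : ℝ) ≤ tn p n * 2 ^ 64 := by
    have h : (tL p n : ℝ) ≤ ((Nat.mul n 115904311329233965478 : ℕ) : ℝ) / p.P := Nat.cast_div_le
    rw [cast_nmul] at h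
    rw [e]
    refine h.trans (div_le_div_of_nonneg_right (mul_le_mul_of_nonneg_left ?_ hn) hP.le)
    have := pi_gt_d20
    push_cast
    linarith
  have a2 : tn p n * 2 ^ 64 ≤ tU p n := by
    have h := cast_div_gt (Nat.mul n 115904311329233965479) p.P hp
    rw [cast_nmul] at h
    have h2 : n * (π * 2 ^ 65) / p.P ≤ (n : ℝ) * ((115904311329233965479 : ℕ) : ℝ) / p.P := by
      refine div_le_div_of_nonneg_right (mul_le_mul_of_nonneg_left ?_ hn) hP.le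
      have := pi_lt_d20
      push_cast
      linarith
    rw [e, tU, cast_nadd, ndiv_eq, Nat.cast_one]
    linarith
  have b1 : (t2L p n : ℝ) ≤ tn p n ^ 2 * 2 ^ 64 := (mD_CInst a1 a1).trans_eq (by ring)
  have b2 : tn p n ^ 2 * 2 ^ 64 ≤ t2U p n := (mU_CInst t0 a2 a2).trans_eq' (by ring)
  exact ⟨⟨a1, a2⟩, ⟨b1, b2⟩,
    ⟨(mD_CInst b1 a1).trans_eq (by ring), (mU_CInst t0 b2 a2).trans_eq' (by ring)⟩,
    (mD_CInst b1 b1).trans_eq (by ring), (mU_CInst (by positivity) b2 b2).trans_eq' (by ring)⟩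

theorem ka_eq (p : Pm) (i : ℕ) : (dec (en p i)).ka = ((kp p i : ℝ) - kn p i) / 2 ^ 40 := by
  show sv (ef p i 1) = _
  unfold sv kp kn
  congr 1
  generalize ef p i 1 = x
  rw [Nat.sub_eq, Nat.sub_eq]
  rcases le_total x 140737488355328 with h | h
  · rw [Nat.sub_eq_zero_of_le h, Nat.cast_sub h]
    norm_num
  · rw [Nat.sub_eq_zero_of_le h, Nat.cast_sub h]
    norm_num

theorem ex_spec (a b : ℕ) : exp (((a : ℝ) - b) / 2 ^ 32) * 2 ^ 40 ≤ ex a b := by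
  unfold ex
  cases h : Nat.ble a (Nat.add b 34359738368)
  · rw [ite'_false]
    show _ ≤ (((2 : ℕ) ^ (a + 64) : ℕ) : ℝ)
    push_cast
    rw [pow_add]
    refine mul_le_mul ?_ (by norm_num) (by positivity) (by positivity)
    have h3 : ((a : ℝ) - b) / 2 ^ 32 ≤ a * log 2 := by
      have := Real.log_two_gt_d9
      have hp : (0 : ℝ) ≤ a := by positivity
      have hn : (0 : ℝ) ≤ b := by positivity
      rw [div_le_iff₀ (by positivity)]
      nlinarith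
    calc _ ≤ exp (a * log 2) := exp_le_exp.2 h3
      _ = 2 ^ a := by rw [mul_comm, exp_mul, exp_log (by norm_num), rpow_natCast]
  · rw [ite'_true]
    have h1 := ble_cast h
    have h2 := expT_spec (Nat.sub (Nat.add b 34359738368) a)
    rw [cast_nsub h1, cast_nadd] at h2
    convert h2 using 3
    push_cast
    ring

theorem cw_spec (p : Pm) (i m : ℕ) :
    -((dec (en p i)).ka * om m) ≤ ((cw p i m : ℝ) - 2 ^ 44) / 2 ^ 32 := by
  rw [ka_eq]
  unfold cw om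
  generalize kp p i = a
  generalize kn p i = b
  have h1 := cast_shr_ge (Nat.sub (Nat.add
    (Nat.mul (Nat.add (Nat.mul b m) (Nat.mul a 8192)) 115904311329233965479)
    340282366920938463463374607431768211456)
    (Nat.mul (Nat.add (Nat.mul a m) (Nat.mul b 8192)) 115904311329233965478)) 84
  have h2 := cast_nsub_ge (Nat.add
    (Nat.mul (Nat.add (Nat.mul b m) (Nat.mul a 8192)) 115904311329233965479)
    340282366920938463463374607431768211456)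
    (Nat.mul (Nat.add (Nat.mul a m) (Nat.mul b 8192)) 115904311329233965478)
  rw [cast_nadd]
  generalize ((Nat.shiftRight _ 84 : ℕ) : ℝ) = X at h1 ⊢
  generalize ((Nat.sub _ _ : ℕ) : ℝ) = Y at h1 h2
  simp only [cast_nadd, cast_nmul] at h2
  push_cast at h2 ⊢
  have u0 : (0 : ℝ) ≤ (b : ℝ) * m + a * 8192 := by positivity
  have v0 : (0 : ℝ) ≤ (a : ℝ) * m + b * 8192 := by positivity
  have e : -(((a : ℝ) - b) / 2 ^ 40 * (2 * π * ((m : ℝ) - 8192) / 4096)) =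
      (((b : ℝ) * m + a * 8192) * π - ((a : ℝ) * m + b * 8192) * π) / 2 ^ 51 := by ring
  rw [e]
  generalize (b : ℝ) * m + a * 8192 = U at *
  generalize (a : ℝ) * m + b * 8192 = V at *
  have p1 := mul_le_mul_of_nonneg_left pi_lt_d20.le u0
  have p2 := mul_le_mul_of_nonneg_left pi_gt_d20.le v0
  generalize U * π = A at *
  generalize V * π = B at *
  linarith

theorem lane_CInst {X : ℕ} {u : ℕ → ℕ} (hu : Rep 72 4096 X u (2 ^ 32)) {i : ℕ} (hi : i < 4096) :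
    bt X (Nat.mul 72 i) 4722366482869645213696 = u i := by
  rw [bt, nmod_eq, nshr_eq, Nat.mul_eq, hu.1, show 4722366482869645213696 = 2 ^ 72 by norm_num]
  exact pk_lane (fun j hj => lt_of_le_of_lt (hu.2 j hj) (by norm_num)) hi

theorem cT_spec (m : ℕ) : |(cT m : ℝ) - (cos (om m) + 2) * 2 ^ 30| ≤ 36 ∧
    |(sT m : ℝ) - (sin (om m) + 2) * 2 ^ 30| ≤ 36 := by
  obtain ⟨u, v, hu, hv, h⟩ := y_spec (k := 1) (by norm_num)
  have hi : m % 4096 < 4096 := Nat.mod_lt _ (by norm_num)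
  have e1 : cT m = u (m % 4096) := by
    rw [cT, force_eq, cT0]
    exact lane_CInst hu hi
  have e2 : sT m = v (m % 4096) := by
    rw [sT, force_eq, sT0]
    exact lane_CInst hv hi
  have e3 : om m = 2 * π * ((1 : ℕ) : ℝ) * (((m % 4096 : ℕ) : ℝ) / 4096)
      + (((m / 4096 : ℕ) - 2 : ℤ) : ℝ) * (2 * π) := by
    have e : (m : ℝ) = 4096 * ((m / 4096 : ℕ) : ℝ) + ((m % 4096 : ℕ) : ℝ) := by
      exact_mod_cast (Nat.div_add_mod m 4096).symm
    rw [om, Int.cast_sub, Int.cast_natCast]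
    generalize ((m / 4096 : ℕ) : ℝ) = q at *
    generalize ((m % 4096 : ℕ) : ℝ) = r at *
    rw [e]
    push_cast
    ring
  rw [e1, e2, e3, cos_add_int_mul_two_pi, sin_add_int_mul_two_pi]
  exact h _ hi

/-- Real value of a coefficient. -/
noncomputable def bi_CInst (x : ℕ) : ℝ := ((x : ℝ) - 2 ^ 64) / 2 ^ 40

theorem up_CInst (a b : ℕ) : ((a : ℝ) - b) / 2 ^ 153 ≤ bi_CInst (up a b) := by
  have h1 := cast_shr_ge
    (Nat.sub (Nat.add a 191561942608236107294793378393788647952342390272950272) b) 113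
  have h2 := cast_nsub_ge (Nat.add a 191561942608236107294793378393788647952342390272950272) b
  rw [bi_CInst, up, cast_nadd]
  rw [cast_nadd] at h2
  generalize ((Nat.shiftRight _ 113 : ℕ) : ℝ) = X at h1 ⊢
  generalize ((Nat.sub _ _ : ℕ) : ℝ) = Y at h1 h2
  push_cast at h2 ⊢
  linarith

theorem iQ_CInst (p : Pm) (n i : ℕ) : bi_CInst (iQ0 p n i) ≤ bi_CInst (iQ p n i) ∧
    (p.cq = true → 0 ≤ bi_CInst (iQ p n i)) := by
  unfold iQ bi_CInst
  cases p.cq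
  · exact ⟨le_rfl, fun h => absurd h (by simp)⟩
  · rw [ite'_true, mx_eq]
    have h1 : ((iQ0 p n i : ℕ) : ℝ) ≤ ((max (iQ0 p n i) 18446744073709551616 : ℕ) : ℝ) := by
      exact_mod_cast le_max_left _ _
    have h2 : ((18446744073709551616 : ℕ) : ℝ) ≤
        ((max (iQ0 p n i) 18446744073709551616 : ℕ) : ℝ) := by
      exact_mod_cast le_max_right _ _
    generalize ((max (iQ0 p n i) 18446744073709551616 : ℕ) : ℝ) = X at *
    push_cast at h2
    exact ⟨by linarith, fun _ => by linarith⟩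

theorem eR_CInst (p : Pm) (n i : ℕ) (v : Vx) :
    (v.n : ℝ) / 2 ^ 20 * (bi_CInst (iN p n i) + bi_CInst (iK p n i) * ((v.k : ℝ) / 2 ^ 20)
      + bi_CInst (iJ p n i) * ((v.j : ℝ) / 2 ^ 20))
      + (v.n : ℝ) / 2 ^ 20 * (bi_CInst (iQ p n i) * ((v.q : ℝ) / 2 ^ 20)) ≤ eR p n i v := by
  unfold eR eV bi_CInst
  generalize iN p n i = a
  generalize iK p n i = b
  generalize iJ p n i = d
  generalize iQ p n i = e
  have h1 := cast_shr_ge (Nat.mul v.n (Nat.add (Nat.add (Nat.add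
    (Nat.shiftLeft a 20) (Nat.mul b v.k)) (Nat.mul d v.j)) (Nat.mul e v.q))) 48
  have h2 := cast_nsub_ge (Nat.add (Nat.shiftRight (Nat.mul v.n (Nat.add (Nat.add (Nat.add
    (Nat.shiftLeft a 20) (Nat.mul b v.k)) (Nat.mul d v.j)) (Nat.mul e v.q))) 48) 17592186044417)
    (eB v)
  generalize ((Nat.sub _ _ : ℕ) : ℝ) = Y at h2 ⊢
  rw [cast_nadd] at h2
  generalize ((Nat.shiftRight _ 48 : ℕ) : ℝ) = X at h1 h2
  simp only [eB, cast_nadd, cast_nmul, cast_shl] at h1 h2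
  push_cast at h1 h2
  have e1 : (v.n : ℝ) / 2 ^ 20 * (((a : ℝ) - 2 ^ 64) / 2 ^ 40
      + ((b : ℝ) - 2 ^ 64) / 2 ^ 40 * ((v.k : ℝ) / 2 ^ 20)
      + ((d : ℝ) - 2 ^ 64) / 2 ^ 40 * ((v.j : ℝ) / 2 ^ 20))
      + (v.n : ℝ) / 2 ^ 20 * (((e : ℝ) - 2 ^ 64) / 2 ^ 40 * ((v.q : ℝ) / 2 ^ 20))
      = (v.n : ℝ) * ((a : ℝ) * 2 ^ 20 + b * v.k + d * v.j + e * v.q) / 2 ^ 80
        - (v.n : ℝ) * (1048576 + (v.k : ℝ) + v.j + v.q) / 2 ^ 16 := by ring
  rw [e1]
  generalize (v.n : ℝ) * ((a : ℝ) * 2 ^ 20 + b * v.k + d * v.j + e * v.q) = U at *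
  generalize (v.n : ℝ) * (1048576 + (v.k : ℝ) + v.j + v.q) = V at *
  linarith

theorem sv_CInst {f l u : ℕ} {x : ℝ} (hl : (l : ℝ) ≤ x * 2 ^ 64) (hu : x * 2 ^ 64 ≤ u) :
    x * sv f ≤ ((f : ℝ) * u - l * 2 ^ 47) / 2 ^ 104 := by
  have h1 := mul_le_mul_of_nonneg_left hu (show (0 : ℝ) ≤ f by positivity)
  have e : x * sv f = ((f : ℝ) * (x * 2 ^ 64) - x * 2 ^ 64 * 2 ^ 47) / 2 ^ 104 := by
    unfold sv
    ring
  rw [e]
  generalize (f : ℝ) * (x * 2 ^ 64) = A at *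
  generalize (f : ℝ) * u = B at *
  generalize x * 2 ^ 64 = C at *
  linarith

theorem real_CInst {t ms mt mp mm mJ mQ N Bp Bm J Q s X Ap Am AJ AQ G aN aK aJ aQ : ℝ}
    (hN : 0 ≤ N) (hp : 0 ≤ Bp) (hm : 0 ≤ Bm) (hJ : 0 ≤ J) (hQ : 0 ≤ Q)
    (hK : 0 ≤ N + (Bp - Bm)) (hB : Bp + Bm = 4 * s * (N / 2 + (Bp - Bm) / 6 + J))
    (h1 : t ^ 2 * ms + t ^ 3 * mt ≤ X) (h2 : t ^ 3 * mp ≤ Ap) (h3 : t ^ 3 * mm ≤ Am)
    (h4 : t ^ 3 * mJ ≤ AJ) (h5 : t ^ 4 * mQ ≤ AQ) (hG : s / 3 * (Ap + Am) ≤ G)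
    (g1 : X + 2 * G - (Ap - Am) / 2 ≤ aN) (g2 : G + (Ap - Am) / 2 ≤ aK) (g3 : AJ + 6 * G ≤ aJ)
    (g4 : AQ ≤ aQ) :
    t ^ 2 * N * (ms + mt * t) + t ^ 3 * (mp * Bp + mm * Bm + mJ * J) + t ^ 4 * (mQ * Q) ≤
      aN * N + aK * (N + (Bp - Bm)) + aJ * J + aQ * Q := by
  have hT : 0 ≤ 3 * N + (Bp - Bm) + 6 * J := by linarith
  have a1 := mul_le_mul_of_nonneg_right h1 hN
  have a2 := mul_le_mul_of_nonneg_right h2 hp
  have a3 := mul_le_mul_of_nonneg_right h3 hm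
  have a4 := mul_le_mul_of_nonneg_right h4 hJ
  have a5 := mul_le_mul_of_nonneg_right (h5.trans g4) hQ
  have a6 := mul_le_mul_of_nonneg_right hG hT
  have a7 := mul_le_mul_of_nonneg_right g1 hN
  have a8 := mul_le_mul_of_nonneg_right g2 hK
  have a9 := mul_le_mul_of_nonneg_right g3 hJ
  have e : Ap * Bp + Am * Bm = s / 3 * (Ap + Am) * (3 * N + (Bp - Bm) + 6 * J)
      + (Ap - Am) / 2 * (Bp - Bm) := by
    linear_combination (Ap + Am) / 2 * hB
  linarith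

theorem rhs_CInst {p : Pm} {P : JP} {S : Sys} {c : Cel} (hp : p.Ok P) (h : In P S c) (n i : ℕ) :
    (dec (en p i)).rhs (tn p n) S.N S.Bp S.Bm (S.J P) S.Q ≤ bi_CInst (iN p n i) * S.N
      + bi_CInst (iK p n i) * (S.N + S.K) + bi_CInst (iJ p n i) * S.J P
      + bi_CInst (iQ0 p n i) * S.Q := by
  obtain ⟨-, ⟨l2, u2⟩, ⟨l3, u3⟩, l4, u4⟩ := t_spec hp.P0 n
  obtain ⟨N0, p0, m0, -, Q0, -⟩ := h.ok.basic
  have hK : 0 ≤ S.N + S.K := by
    have h1 := h.k0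
    have h2 : 0 ≤ (c.k0 : ℝ) / 2 ^ 20 * S.N := by positivity
    linarith
  have s1 : (22838550308275 : ℝ) ≤ 2 ^ 48 * (sE / 3) := by
    unfold sE
    linarith [r10_lo]
  have s2 : 2 ^ 48 * (sE / 3) ≤ (22838550308278 : ℝ) := by
    unfold sE
    linarith [r10_hi]
  have cz : (z3 p n : ℝ) = t3L p n * 2 ^ 47 := cast_shl _ _
  have cP : (aP p n i : ℝ) = ef p i 4 * t3U p n := cast_nmul _ _
  have cM : (aM p n i : ℝ) = ef p i 5 * t3U p n := cast_nmul _ _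
  have gp : (gP p n i : ℝ) = (aP p n i + aM p n i) * 22838550308278 := by
    rw [gP, cast_nmul, cast_nadd]
    norm_num
  have gn : (gN p n : ℝ) = z3 p n * 45677100616550 := by
    rw [gN, cast_nmul]
    norm_num
  have k2 := sv_CInst (f := ef p i 2) l2 u2
  have k3 := sv_CInst (f := ef p i 3) l3 u3
  have k4 := sv_CInst (f := ef p i 4) l3 u3
  have k5 := sv_CInst (f := ef p i 5) l3 u3
  have k6 := sv_CInst (f := ef p i 6) l3 u3
  have k7 := sv_CInst (f := ef p i 7) l4 u4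
  rw [← cz] at k3 k4 k5 k6
  rw [← cP] at k4
  rw [← cM] at k5
  have hG : sE / 3 * (((aP p n i : ℝ) - z3 p n) / 2 ^ 104 + ((aM p n i : ℝ) - z3 p n) / 2 ^ 104)
      ≤ ((gP p n i : ℝ) - gN p n) / 2 ^ 152 := by
    have b1 := mul_le_mul_of_nonneg_left s2
      (show (0 : ℝ) ≤ (aP p n i : ℝ) + aM p n i by positivity)
    have b2 := mul_le_mul_of_nonneg_left s1 (show (0 : ℝ) ≤ (z3 p n : ℝ) by positivity)
    rw [gp, gn]
    generalize (aP p n i : ℝ) = a at *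
    generalize (aM p n i : ℝ) = b at *
    generalize (z3 p n : ℝ) = z at *
    linarith
  refine real_CInst (ms := sv (ef p i 2)) (mt := sv (ef p i 3)) (mp := sv (ef p i 4))
    (mm := sv (ef p i 5)) (mJ := sv (ef p i 6)) (mQ := sv (ef p i 7)) N0.le p0 m0
    h.pos.le_tot.1 Q0.le hK h.bal.B_eq (add_le_add k2 k3) k4 k5 k6 k7 hG
    (le_trans (le_of_eq ?_) (up_CInst _ _)) (le_trans (le_of_eq ?_) (up_CInst _ _))
    (le_trans (le_of_eq ?_) (up_CInst _ _)) (le_trans (le_of_eq ?_) (up_CInst _ _))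
  all_goals
    simp only [cast_nadd, cast_nmul, cast_shl]
    push_cast
    ring

theorem res_CInst {p : Pm} {P : JP} {S : Sys} {c : Cel} (hp : p.Ok P) (h : In P S c) {n i : ℕ}
    (hn : 1 ≤ n) (hr : resOK p c n i = true) :
    (dec (en p i)).Cl ‖charFun S.ν (tn p n)‖ (S.W (tn p n))
      ((dec (en p i)).rhs (tn p n) S.N S.Bp S.Bm (S.J P) S.Q) := by
  obtain ⟨⟨l1, u1⟩, ⟨-, u2⟩, ⟨-, u3⟩, -, u4⟩ := t_spec hp.P0 n
  obtain ⟨N0, -, -, B0, Q0, -⟩ := h.ok.basic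
  have J0 := h.pos.le_tot.1
  have hP : (0 : ℝ) < p.P := by exact_mod_cast hp.P0
  have hn' : (0 : ℝ) < n := by exact_mod_cast hn
  have t0 : 0 < tn p n := by unfold tn; positivity
  have n1 : S.N * 2 ^ 20 ≤ c.n1 := by linarith [h.n1]
  have q1 : S.Q * 2 ^ 40 ≤ (c.q1 : ℝ) * c.n1 := by
    have a := mul_le_mul_of_nonneg_left n1 (show (0 : ℝ) ≤ c.q1 by positivity)
    have b := h.q1
    linarith
  have j1 : S.J P * 2 ^ 40 ≤ (c.n1 : ℝ) * c.j1 := by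
    have a := mul_le_mul_of_nonneg_left n1 (show (0 : ℝ) ≤ c.j1 by positivity)
    have b := h.j1
    linarith
  have b1 : S.B * 2 ^ 80 ≤ (c.n1 : ℝ) * ((be c.k1 c.j1 : ℝ) * 178426174284) := by
    have s2 : 2 ^ 40 * (4 * sE / 6) ≤ (178426174284 : ℝ) := by
      unfold sE
      linarith [r10_hi]
    have eb : (be c.k1 c.j1 : ℝ) = 2097152 + c.k1 + 6 * c.j1 := by
      rw [be, cast_nadd, cast_nadd, cast_nmul]
      norm_num
    have a1 : (3 * S.N + S.K + 6 * S.J P) * 2 ^ 20 ≤ S.N * be c.k1 c.j1 := by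
      rw [eb]
      linarith [h.k1, h.j1]
    have a2 := mul_le_mul_of_nonneg_right n1 (show (0 : ℝ) ≤ be c.k1 c.j1 by positivity)
    have a3 : (3 * S.N + S.K + 6 * S.J P) * 2 ^ 40 ≤ (c.n1 : ℝ) * be c.k1 c.j1 := by linarith
    have a4 := mul_le_mul a3 s2 (by have := basic_sE_pos; positivity) (by positivity)
    have e := h.bal.B_eq
    calc S.B * 2 ^ 80 = (3 * S.N + S.K + 6 * S.J P) * 2 ^ 40 * (2 ^ 40 * (4 * sE / 6)) := by
          rw [e]
          ring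
      _ ≤ _ := a4.trans_eq (by ring)
  simp only [resOK, band_eq, bor_eq] at hr
  obtain ⟨r1, r2, r3, r4, r5⟩ := hr
  refine ent_sum (hp.ET.get i) h.ok h.pos t0 ?_ ?_ ?_ ?_ ?_
  · have a := ble_cast r1
    rw [cast_shl] at a
    show (ef p i 8 : ℝ) / 2 ^ 40 ≤ _
    linarith
  · have a := ble_cast r2
    rw [cast_shl] at a
    show _ ≤ (ef p i 9 : ℝ) / 2 ^ 40
    linarith
  · show (ef p i 10 : ℝ) / 2 ^ 32 = 0 ∨ _ ≤ (ef p i 10 : ℝ) / 2 ^ 32 ∨
      (0 ≤ (ef p i 10 : ℝ) / 2 ^ 32 ∧ _ ≤ ((ef p i 10 : ℝ) / 2 ^ 32) ^ 2)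
    rcases r3 with r | r | r
    · left
      rw [Nat.eq_of_beq_eq_true r]
      simp
    · right
      left
      have a := ble_cast r
      rw [cast_shl, cast_nmul] at a
      have b := mul_le_mul u2 n1 (by positivity) (by positivity)
      linarith
    · right
      right
      have a := ble_cast r
      rw [cast_shl, cast_nmul, cast_nmul, cast_nmul] at a
      have b := mul_le_mul u4 q1 (by positivity) (by positivity)
      exact ⟨by positivity, by linarith⟩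
  · show (ef p i 11 : ℝ) / 2 ^ 32 = 0 ∨ _ ≤ (ef p i 11 : ℝ) / 2 ^ 32
    rcases r4 with r | r
    · left
      rw [Nat.eq_of_beq_eq_true r]
      simp
    · right
      have a := ble_cast r
      rw [cast_shl, cast_nmul, cast_nmul, cast_nmul] at a
      have b := mul_le_mul u3 b1 (by positivity) (by positivity)
      push_cast at a
      linarith
  · show (ef p i 12 : ℝ) / 2 ^ 32 = 0 ∨ _ ≤ (ef p i 12 : ℝ) / 2 ^ 32
    rcases r5 with r | r
    · left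
      rw [Nat.eq_of_beq_eq_true r]
      simp
    · right
      have a := ble_cast r
      rw [cast_shl, cast_nmul, cast_nmul] at a
      have b := mul_le_mul u3 j1 (by positivity) (by positivity)
      linarith

/-- An admissible entry bounds the characteristic function by the mean of its vertex values. -/
theorem ent_mean {p : Pm} {P : JP} {S : Sys} {c : Cel} {M : (Vx → ℝ) →ₗ[ℝ] ℝ} {θ : ℝ}
    (hp : p.Ok P) (h : In P S c) (hM : Mean p P S c M θ) {n ty i : ℕ} (hn : 1 ≤ n)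
    (hr : entOK p c n ty i = true) : (dec (en p i)).ty = ty ∧
      ∃ E : ℝ, (dec (en p i)).Cl ‖charFun S.ν (tn p n)‖ (S.W (tn p n)) E ∧ E ≤ M (eR p n i) := by
  rw [entOK, force_eq, band_eq] at hr
  obtain ⟨r0, hr⟩ := hr
  refine ⟨Nat.eq_of_beq_eq_true r0, (dec (en p i)).rhs (tn p n) S.N S.Bp S.Bm (S.J P) S.Q,
    res_CInst hp h hn hr, ?_⟩
  have N0 := h.ok.basic.1
  have e1 := hM.prod (fun n => (n : ℝ) / 2 ^ 20) (bi_CInst (iN p n i)) (bi_CInst (iK p n i))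
    (bi_CInst (iJ p n i))
  have e2 := hM.q (bi_CInst (iQ p n i)) (iQ_CInst p n i).2
  have e3 := hM.mono _ (eR p n i) fun v _ => eR_CInst p n i v
  rw [Mean.add', e1, ← hM.N] at e3
  have e4 : S.N * (bi_CInst (iN p n i) + bi_CInst (iK p n i) * (S.K / S.N + 1)
      + bi_CInst (iJ p n i) * (S.J P / S.N)) = bi_CInst (iN p n i) * S.N
      + bi_CInst (iK p n i) * (S.N + S.K) + bi_CInst (iJ p n i) * S.J P := by
    field_simp
    ring
  rw [e4] at e3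
  have e5 := rhs_CInst hp h n i
  have e6 := mul_le_mul_of_nonneg_right (iQ_CInst p n i).1 h.ok.basic.2.2.2.2.1.le
  linarith

end Pool.Agent.Lib.MP_33650d_pr.X
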