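import Pool.Agent.Lib.MP_33650d_pr.X.CSpec
import Pool.Agent.Lib.MP_33650d_pr.Gauss

namespace Pool.Agent.Lib.MP_33650d_pr.X
open MeasureTheory ProbabilityTheory Real

theorem cker_shift (J : ℕ) (a c : ℝ) (p q : ℕ → ℝ) (s : ℝ) (k : ℤ) :
    hC J a c p q (s + k) = hC J a c p q s + c * (k * (2 * s + k - 1)) := by
  have e : ∀ j : ℕ, 2 * π * (j + 1) * (s + k)
      = 2 * π * (j + 1) * s + (((j + 1) * k : ℤ) : ℝ) * (2 * π) := fun j => by
    push_cast
    ring
  simp only [hC, e, cos_add_int_mul_two_pi, sin_add_int_mul_two_pi]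
  ring

theorem cker_lin (w y : ℝ) : HasDerivAt (fun y : ℝ => w * y) w y :=
  ((hasDerivAt_id y).const_mul _).congr_deriv (mul_one _)

theorem cker_d1 (w p q y : ℝ) : HasDerivAt (fun y => p * cos (w * y) + q * sin (w * y))
    (w * q * cos (w * y) + -(w * p) * sin (w * y)) y :=
  (((cker_lin w y).cos.const_mul p).add ((cker_lin w y).sin.const_mul q)).congr_deriv (by ring)

theorem cker_d2 (w p q y : ℝ) :
    HasDerivAt (fun y => w * q * cos (w * y) + -(w * p) * sin (w * y))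
      (w ^ 2 * -(p * cos (w * y) + q * sin (w * y))) y :=
  (cker_d1 w (w * q) (-(w * p)) y).congr_deriv (by ring)

/-- From the grid to the unit interval. -/
theorem cker_unit {J : ℕ} {a c : ℝ} {p q r : ℕ → ℝ} (hc : 0 ≤ c) (hr0 : ∀ j < J, 0 ≤ r j)
    (hr : ∀ j < J, p j ^ 2 + q j ^ 2 ≤ r j ^ 2) {e : ℝ}
    (he : (2 * c + ∑ j ∈ Finset.range J, (2 * π * (j + 1)) ^ 2 * r j) / (8 * 4096 ^ 2) ≤ e)
    (b d : ℝ) (hg : ∀ i : ℕ, i ≤ 4096 → e ≤ hC J a c p q (i / 4096) + (b + d * (i / 4096)))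
    {s : ℝ} (h0 : 0 ≤ s) (h1 : s ≤ 1) : 0 ≤ hC J a c p q s + (b + d * s) := by
  obtain ⟨M, hM⟩ : ∃ M, M = 2 * c + ∑ j ∈ Finset.range J, (2 * π * (j + 1)) ^ 2 * r j := ⟨_, rfl⟩
  have M0 : 0 ≤ M := hM ▸ add_nonneg (by linarith) (Finset.sum_nonneg fun j hj =>
    mul_nonneg (sq_nonneg _) (hr0 j (Finset.mem_range.1 hj)))
  rw [← hM] at he
  obtain ⟨i, -, i1, i2, i3⟩ := exists_cell (lo := 0) (hi := 4096) (x := 4096 * s) (by norm_num)
    (by push_cast; linarith) (by push_cast; linarith)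
  have d1 : ∀ y : ℝ, HasDerivAt (fun y => hC J a c p q y + (b + d * y))
      (c * (2 * y - 1) + d + ∑ j ∈ Finset.range J, (2 * π * (j + 1) * q j * cos (2 * π * (j + 1) * y)
        + -(2 * π * (j + 1) * p j) * sin (2 * π * (j + 1) * y))) y := by
    intro y
    have := ((((((hasDerivAt_pow 2 y).sub (hasDerivAt_id y)).const_mul c).const_add a).add
      (HasDerivAt.fun_sum (u := Finset.range J) fun j _ =>
        cker_d1 (2 * π * (j + 1)) (p j) (q j) y)).add ((cker_lin d y).const_add b))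
    refine this.congr_deriv ?_
    simp only [Nat.cast_ofNat, Nat.add_one_sub_one, pow_one]
    ring
  have d2 : ∀ y : ℝ, HasDerivAt (fun y => c * (2 * y - 1) + d + ∑ j ∈ Finset.range J,
      (2 * π * (j + 1) * q j * cos (2 * π * (j + 1) * y)
        + -(2 * π * (j + 1) * p j) * sin (2 * π * (j + 1) * y)))
      (2 * c + ∑ j ∈ Finset.range J, (2 * π * (j + 1)) ^ 2 *
        -(p j * cos (2 * π * (j + 1) * y) + q j * sin (2 * π * (j + 1) * y))) y := by
    intro y
    have := ((((cker_lin 2 y).sub_const 1).const_mul c).add_const d).add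
      (HasDerivAt.fun_sum (u := Finset.range J) fun j _ =>
        cker_d2 (2 * π * (j + 1)) (p j) (q j) y)
    exact this.congr_deriv (by rw [mul_comm c])
  have e1 : (((i + 1 : ℕ) : ℝ) / 4096 - (i : ℝ) / 4096) = 1 / 4096 := by
    push_cast
    ring
  exact lerp_nonneg (a := (i : ℝ) / 4096) (b := ((i + 1 : ℕ) : ℝ) / 4096) (M := M) (x := s)
    (by push_cast; linarith) M0 d1 d2 (fun y _ _ => by
      rw [hM]
      refine add_le_add le_rfl (Finset.sum_le_sum fun j hj => ?_)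
      have hj' := Finset.mem_range.1 hj
      exact mul_le_mul_of_nonneg_left (ga_trig (hr0 j hj') (hr j hj') _) (sq_nonneg _))
    (by linarith) (by push_cast; linarith)
    (by rw [e1]; linarith [hg i (by omega)]) (by rw [e1]; linarith [hg (i + 1) i1])

theorem kv_grid {J : ℕ} {a c : ℝ} {p q r : ℕ → ℝ} (hc : 0 ≤ c) (hr0 : ∀ j < J, 0 ≤ r j)
    (hr : ∀ j < J, p j ^ 2 + q j ^ 2 ≤ r j ^ 2) {e : ℝ}
    (he : (2 * c + ∑ j ∈ Finset.range J, (2 * π * (j + 1)) ^ 2 * r j) / (8 * 4096 ^ 2) ≤ e)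
    (hA : ∀ i : ℕ, i < 4096 → e ≤ hC J a c p q (i / 4096))
    (hB : ∀ i : ℕ, i < 4096 → 1 + e ≤ hC J a c p q (i / 4096) + 2 * c * (1 - i / 4096))
    (h1 : 1 + e ≤ a + ∑ j ∈ Finset.range J, p j) (u : ℝ) :
    (if u ≤ 0 then 1 else 0) ≤ hC J a c p q u := by
  have z : hC J a c p q (((4096 : ℕ) : ℝ) / 4096) = a + ∑ j ∈ Finset.range J, p j := by
    have a2 := cker_shift J a c p q 0 1
    have a4 : (((4096 : ℕ) : ℝ) / 4096) = 0 + ((1 : ℤ) : ℝ) := by norm_num
    rw [a4, a2]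
    simp [hC]
  have kA : ∀ s : ℝ, 0 ≤ s → s ≤ 1 → 0 ≤ hC J a c p q s + (0 + 0 * s) := fun s s0 s1 =>
    cker_unit hc hr0 hr he 0 0 (fun i hi => by
      rcases hi.eq_or_lt with rfl | hi
      · rw [z]; linarith
      · linarith [hA i hi]) s0 s1
  have kB : ∀ s : ℝ, 0 ≤ s → s ≤ 1 → 0 ≤ hC J a c p q s + (2 * c - 1 + -(2 * c) * s) :=
    fun s s0 s1 => cker_unit hc hr0 hr he _ _ (fun i hi => by
      rcases hi.eq_or_lt with rfl | hi
      · rw [z]; push_cast; linarith
      · linarith [hB i hi]) s0 s1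
  have c1 := Int.le_ceil u
  have c2 := Int.ceil_lt_add_one u
  have e1 := cker_shift J a c p q (u - (⌈u⌉ - 1)) (⌈u⌉ - 1)
  push_cast at e1
  rw [sub_add_cancel] at e1
  have s0 : 0 ≤ u - (⌈u⌉ - 1) := by linarith
  have s1 : u - (⌈u⌉ - 1) ≤ 1 := by linarith
  have a0 := kA _ s0 s1
  have a1 := kB _ s0 s1
  rw [e1]
  generalize hC J a c p q (u - (⌈u⌉ - 1)) = H at *
  split_ifs with hu
  · have b1 : ⌈u⌉ ≤ 0 := Int.ceil_le.2 (by exact_mod_cast hu)
    have b3 : ((⌈u⌉ : ℤ) : ℝ) ≤ 0 := by exact_mod_cast b1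
    generalize ((⌈u⌉ : ℤ) : ℝ) = m at *
    have := mul_nonneg hc (mul_nonneg (neg_nonneg.2 b3) (show 0 ≤ m + 1 - 2 * u by linarith))
    nlinarith
  · have b1 : 0 < ⌈u⌉ := Int.ceil_pos.2 (not_le.1 hu)
    rcases (Int.add_one_le_of_lt b1).eq_or_lt with b2 | b2
    · rw [← b2]
      push_cast
      linarith
    · have b3 : (2 : ℝ) ≤ ((⌈u⌉ : ℤ) : ℝ) := by exact_mod_cast Int.add_one_le_of_lt b2
      generalize ((⌈u⌉ : ℤ) : ℝ) = m at *
      have := mul_nonneg hc (mul_nonneg (show 0 ≤ m - 1 by linarith)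
        (show 0 ≤ 2 * (u - (m - 1)) + (m - 1) - 1 by linarith))
      linarith

theorem cker_r (K j : ℕ) : 0 ≤ rK K j := by
  unfold rK
  positivity

theorem cker_AB {J K j : ℕ} (hK : KV J K) (hj : j < J) (s : ℝ) (f : ℂ) :
    Ar K j s * f.re + Br K j s * f.im ≤ rK K j * ‖f‖ := by
  refine le_trans (le_abs_self _) (abs_le_of_sq_le_sq ?_ (mul_nonneg (cker_r K j) (norm_nonneg f)))
  have e : Ar K j s ^ 2 + Br K j s ^ 2 = pK K j ^ 2 + qK K j ^ 2 := by
    unfold Ar Br
    linear_combination (pK K j ^ 2 + qK K j ^ 2) * sin_sq_add_cos_sq (2 * π * (j + 1) * s)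
  have e2 : ‖f‖ ^ 2 = f.re ^ 2 + f.im ^ 2 := by
    rw [Complex.sq_norm, Complex.normSq_apply]; ring
  have h1 := mul_le_mul_of_nonneg_right (hK.1 j hj) (sq_nonneg ‖f‖)
  rw [mul_pow]
  refine le_trans ?_ h1
  rw [← e, e2]
  nlinarith [sq_nonneg (Ar K j s * f.im - Br K j s * f.re)]

theorem kernel_le {p : Pm} {S : Sys} (h : S.Ok) (hp : 0 < p.P) {K : ℕ} (hK : KV p.J K) (L : Lf)
    (s : ℝ) : S.ν.real (Set.Iic (p.P * s)) ≤ Gs p L K false S s := by
  have := h.prob
  have hP : (0 : ℝ) < p.P := by exact_mod_cast hp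
  have j1 : Integrable (fun y : ℝ => y) S.ν := h.mem2.integrable (by norm_num)
  have j2 : Integrable (fun y : ℝ => y ^ 2) S.ν := h.mem2.integrable_sq
  obtain ⟨c0, hc0⟩ : ∃ c0, c0 = aK K + cK K * (s ^ 2 + s) := ⟨_, rfl⟩
  obtain ⟨c1, hc1⟩ : ∃ c1, c1 = -(cK K * (2 * s + 1) / p.P) := ⟨_, rfl⟩
  obtain ⟨c2, hc2⟩ : ∃ c2, c2 = cK K / (p.P : ℝ) ^ 2 := ⟨_, rfl⟩
  have j3 := (integrable_const c0).fun_add (j1.const_mul c1)
  have i1 := j3.fun_add (j2.const_mul c2)
  have i2 : ∫ y, c0 + c1 * y + c2 * y ^ 2 ∂S.ν = c0 + c2 * S.N := by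
    rw [integral_add j3 (j2.const_mul c2), integral_add (integrable_const c0) (j1.const_mul c1),
      integral_const_mul, integral_const_mul, h.mean, h.var]
    simp
  have ic : ∀ t : ℝ, Integrable (fun y => cos (t * y)) S.ν := fun t =>
    Integrable.of_bound (by fun_prop) 1 (ae_of_all _ fun y => abs_cos_le_one _)
  have is : ∀ t : ℝ, Integrable (fun y => sin (t * y)) S.ν := fun t =>
    Integrable.of_bound (by fun_prop) 1 (ae_of_all _ fun y => abs_sin_le_one _)
  have i3 : ∀ j ∈ Finset.range p.J, Integrable (fun y =>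
      Ar K j s * cos (tn p (j + 1) * y) + Br K j s * sin (tn p (j + 1) * y)) S.ν :=
    fun j _ => ((ic _).const_mul _).fun_add ((is _).const_mul _)
  have i4 := integrable_finsetSum _ i3
  have main := integral_mono
    ((integrable_const (1 : ℝ)).indicator (measurableSet_Iic (a := p.P * s)))
    (i1.fun_add i4) fun y => ?_
  · rw [integral_add i1 i4, i2, integral_finsetSum _ i3,
      integral_indicator_const _ measurableSet_Iic, smul_eq_mul, mul_one] at main
    refine main.trans ?_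
    simp only [Gs, Bool.false_eq_true, if_false, sub_zero]
    refine add_le_add (le_of_eq ?_) (Finset.sum_le_sum fun j hj => ?_)
    · rw [hc0, hc2]
      ring
    · rw [integral_add ((ic _).const_mul _) ((is _).const_mul _), integral_const_mul,
        integral_const_mul, ← (ga_char S.ν _).1, ← (ga_char S.ν _).2]
      split_ifs
      · exact cker_AB hK (Finset.mem_range.1 hj) s _
      · exact le_rfl
  · refine le_trans (le_of_eq ?_) ((hK.2 (y / p.P - s)).trans (le_of_eq ?_))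
    · simp only [Set.indicator, Set.mem_Iic, sub_nonpos, div_le_iff₀ hP, mul_comm s]
    · simp only [hC]
      congr 1
      · rw [hc0, hc1, hc2]
        field_simp
        ring
      · refine Finset.sum_congr rfl fun j _ => ?_
        have e : 2 * π * (j + 1) * (y / p.P - s) = tn p (j + 1) * y - 2 * π * (j + 1) * s := by
          simp only [tn]
          push_cast
          ring
        rw [e, cos_sub, sin_sub, Ar, Br]
        ring

/-- Interpolation between the lanes. -/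
theorem Gs_interp {p : Pm} {S : Sys} (h : S.Ok) (hp : 0 < p.P) {K : ℕ} (hK : KV p.J K) (L : Lf)
    {lo hi : ℕ} (hlh : lo < hi) {T : ℝ}
    (hg : ∀ i, lo ≤ i → i ≤ hi → Gs p L K true S (sl i) + Ms p L K S / (8 * 4096 ^ 2) ≤ T)
    {s : ℝ} (h0 : sl lo ≤ s) (h1 : s ≤ sl hi) : Gs p L K true S s ≤ T := by
  have := h.prob
  have hN : 0 < S.N := Finset.sum_pos (fun k _ => h.spos k) ⟨⟨0, h.npos⟩, Finset.mem_univ _⟩
  have hc : 0 ≤ cK K := by
    unfold cK
    positivity
  obtain ⟨w, hw⟩ : ∃ w : ℝ, w = p.P / √S.N := ⟨_, rfl⟩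
  have w2 : w ^ 2 = (p.P : ℝ) ^ 2 / S.N := by rw [hw, div_pow, sq_sqrt hN.le]
  obtain ⟨f, hf⟩ : ∃ f : ℕ → ℂ, f = fun j => charFun S.ν (tn p (j + 1)) := ⟨_, rfl⟩
  have f1 : ∀ j, ‖f j‖ ≤ 1 := fun j => by
    rw [hf]
    exact norm_charFun_le_one _
  obtain ⟨A, hA⟩ : ∃ A : ℕ → ℝ, A = fun j =>
    if nf L j = 0 then 0 else pK K j * (f j).re + qK K j * (f j).im := ⟨_, rfl⟩
  obtain ⟨B, hB⟩ : ∃ B : ℕ → ℝ, B = fun j =>
    if nf L j = 0 then 0 else pK K j * (f j).im - qK K j * (f j).re := ⟨_, rfl⟩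
  obtain ⟨C, hC⟩ : ∃ C : ℕ → ℝ, C = fun j => if nf L j = 0 then rK K j * ‖f j‖ else 0 := ⟨_, rfl⟩
  have e0 : ∀ (j : ℕ) (y : ℝ), A j * cos (2 * π * (j + 1) * y) + B j * sin (2 * π * (j + 1) * y)
      = if nf L j = 0 then 0 else Ar K j y * (f j).re + Br K j y * (f j).im := by
    intro j y
    simp only [hA, hB, Ar, Br]
    split_ifs <;> ring
  have e : ∀ y, Gs p L K true S y = aK K + cK K * (S.N / (p.P : ℝ) ^ 2 + y ^ 2 + y)
      + ∑ j ∈ Finset.range p.J, (C j + (A j * cos (2 * π * (j + 1) * y)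
        + B j * sin (2 * π * (j + 1) * y))) - Phi (w * y) := by
    intro y
    simp only [Gs, if_true, e0]
    congr 1
    · congr 1
      refine Finset.sum_congr rfl fun j _ => ?_
      simp only [hC, hf]
      split_ifs <;> simp
    · rw [hw, div_mul_eq_mul_div]
  have M0 : 0 ≤ Ms p L K S := by
    refine add_nonneg (Finset.sum_nonneg fun j _ => ?_) (by positivity)
    split_ifs
    · exact le_rfl
    · exact mul_nonneg (sq_nonneg _) (cker_r K j)
  have d1 : ∀ y : ℝ, HasDerivAt (fun y => T - Gs p L K true S y)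
      (ga_phi (w * y) * w - cK K * (2 * y + 1) - ∑ j ∈ Finset.range p.J,
        (2 * π * (j + 1) * B j * cos (2 * π * (j + 1) * y)
          + -(2 * π * (j + 1) * A j) * sin (2 * π * (j + 1) * y))) y := by
    intro y
    simp only [e]
    have := ((((((((hasDerivAt_pow 2 y).const_add (S.N / (p.P : ℝ) ^ 2)).add
      (hasDerivAt_id y)).const_mul (cK K)).const_add (aK K)).add
      (HasDerivAt.fun_sum (u := Finset.range p.J) fun j _ =>
        (cker_d1 (2 * π * (j + 1)) (A j) (B j) y).const_add (C j))).sub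
      ((ga_deriv_Phi (w * y)).comp y (cker_lin w y))).const_sub T)
    refine this.congr_deriv ?_
    simp only [Nat.cast_ofNat, Nat.add_one_sub_one, pow_one]
    ring
  have d2 : ∀ y : ℝ, HasDerivAt (fun y => ga_phi (w * y) * w - cK K * (2 * y + 1)
      - ∑ j ∈ Finset.range p.J, (2 * π * (j + 1) * B j * cos (2 * π * (j + 1) * y)
          + -(2 * π * (j + 1) * A j) * sin (2 * π * (j + 1) * y)))
      (-(w * y) * ga_phi (w * y) * w * w - cK K * 2 - ∑ j ∈ Finset.range p.J,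
        (2 * π * (j + 1)) ^ 2 *
          -(A j * cos (2 * π * (j + 1) * y) + B j * sin (2 * π * (j + 1) * y))) y := fun y =>
    ((((ga_deriv_phi (w * y)).comp y (cker_lin w y)).mul_const w).sub
      (((cker_lin 2 y).add_const 1).const_mul (cK K))).sub
      (HasDerivAt.fun_sum (u := Finset.range p.J) fun j _ =>
        cker_d2 (2 * π * (j + 1)) (A j) (B j) y)
  simp only [sl] at h0 h1
  obtain ⟨i, i0, i1, i2, i3⟩ := exists_cell (x := 4096 * s + 2048) hlh (by linarith) (by linarith)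
  have e1 : sl (i + 1) - sl i = 1 / 4096 := by
    simp only [sl]
    push_cast
    ring
  have key := lerp_nonneg (a := sl i) (b := sl (i + 1)) (M := Ms p L K S) (x := s)
    (by linarith) M0 d1 d2 (fun y _ _ => ?_) (by simp only [sl]; linarith)
    (by simp only [sl]; push_cast; linarith)
    (by rw [e1]; linarith [hg i i0 (by omega)]) (by rw [e1]; linarith [hg (i + 1) (by omega) i1])
  · linarith
  · have b1 := mul_le_mul_of_nonneg_right (ga_phi1_le (w * y)) (sq_nonneg w)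
    have b2 : -∑ j ∈ Finset.range p.J, (2 * π * (j + 1)) ^ 2 *
        -(A j * cos (2 * π * (j + 1) * y) + B j * sin (2 * π * (j + 1) * y))
        ≤ ∑ j ∈ Finset.range p.J, if nf L j = 0 then 0 else (2 * π * (j + 1)) ^ 2 * rK K j := by
      rw [← Finset.sum_neg_distrib]
      refine Finset.sum_le_sum fun j hj => ?_
      rw [e0, mul_neg, neg_neg]
      split_ifs
      · simp
      · refine mul_le_mul_of_nonneg_left ((cker_AB hK (Finset.mem_range.1 hj) y _).trans ?_)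
          (sq_nonneg _)
        exact mul_le_of_le_one_right (cker_r K j) (f1 j)
    have b3 : 0.26 * w ^ 2 = 0.26 * (p.P : ℝ) ^ 2 / S.N := by rw [w2, mul_div_assoc]
    unfold Ms
    linarith

end Pool.Agent.Lib.MP_33650d_pr.X
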