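import Pool.Agent.Lib.MP_33650d_pr.X.CSpec
import Pool.Agent.Lib.MP_33650d_pr.Tab

namespace Pool.Agent.Lib.MP_33650d_pr.X
open MeasureTheory ProbabilityTheory Real

theorem cmean_wt {a b x : ℝ} (h0 : a ≤ x) (h1 : x ≤ b) :
    ∃ t : ℝ, 0 ≤ t ∧ t ≤ 1 ∧ x = (1 - t) * a + t * b := by
  rcases eq_or_lt_of_le (h0.trans h1) with h | h
  · exact ⟨0, le_rfl, zero_le_one, by linarith⟩
  · have hp : 0 < b - a := by linarith
    refine ⟨(x - a) / (b - a), div_nonneg (by linarith) hp.le,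
      (div_le_one hp).2 (by linarith), ?_⟩
    field_simp
    ring

/-- Convex combination of two functionals. -/
noncomputable def cmeanL (t : ℝ) (A B : (Vx → ℝ) →ₗ[ℝ] ℝ) : (Vx → ℝ) →ₗ[ℝ] ℝ :=
  (1 - t) • A + t • B

theorem cmeanL_apply (t : ℝ) (A B : (Vx → ℝ) →ₗ[ℝ] ℝ) (g : Vx → ℝ) :
    cmeanL t A B g = (1 - t) * A g + t * B g := by
  simp [cmeanL]

theorem cmeanL_mono {t : ℝ} (h0 : 0 ≤ t) (h1 : t ≤ 1) {A B : (Vx → ℝ) →ₗ[ℝ] ℝ}
    {g h : Vx → ℝ} (ha : A g ≤ A h) (hb : B g ≤ B h) : cmeanL t A B g ≤ cmeanL t A B h := by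
  rw [cmeanL_apply, cmeanL_apply]
  have := mul_le_mul_of_nonneg_left ha (sub_nonneg.2 h1)
  have := mul_le_mul_of_nonneg_left hb h0
  linarith

/-- Evaluation at a vertex. -/
noncomputable def cmeanE (v : Vx) : (Vx → ℝ) →ₗ[ℝ] ℝ := LinearMap.proj v

theorem cmeanE_apply (v : Vx) (g : Vx → ℝ) : cmeanE v g = g v := rfl

noncomputable def cmeanQ (δ : ℝ) (qa qb n k j : ℕ) : (Vx → ℝ) →ₗ[ℝ] ℝ :=
  cmeanL δ (cmeanE ⟨n, k, j, qa⟩) (cmeanE ⟨n, k, j, qb⟩)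

noncomputable def cmeanJ (c : Cel) (β δ : ℝ) (qa n k : ℕ) : (Vx → ℝ) →ₗ[ℝ] ℝ :=
  cmeanL β (cmeanQ δ qa c.q1 n k c.j0) (cmeanQ δ qa c.q1 n k c.j1)

noncomputable def cmeanK (c : Cel) (α β δ : ℝ) (qa n : ℕ) : (Vx → ℝ) →ₗ[ℝ] ℝ :=
  cmeanL α (cmeanJ c β δ qa n c.k0) (cmeanJ c β δ qa n c.k1)

noncomputable def cmeanN (c : Cel) (θ α β δ : ℝ) (qa : ℕ) : (Vx → ℝ) →ₗ[ℝ] ℝ :=
  cmeanL θ (cmeanK c α β δ qa c.n0) (cmeanK c α β δ qa c.n1)

theorem exists_mean (p : Pm) {P : JP} {S : Sys} {c : Cel} (h : In P S c) :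
    ∃ (M : (Vx → ℝ) →ₗ[ℝ] ℝ) (θ : ℝ), Mean p P S c M θ := by
  have hN : 0 < S.N := by
    have : Nonempty (Fin S.n) := ⟨⟨0, h.ok.npos⟩⟩
    exact Finset.sum_pos (fun k _ => h.ok.spos k) Finset.univ_nonempty
  obtain ⟨θ, t0, t1, hθ⟩ := cmean_wt h.n0 h.n1
  have k0 : (c.k0 : ℝ) / 2 ^ 20 ≤ S.K / S.N + 1 := by
    have := (le_div_iff₀ hN).2 h.k0
    linarith
  have k1 : S.K / S.N + 1 ≤ (c.k1 : ℝ) / 2 ^ 20 := by
    have := (div_le_iff₀ hN).2 h.k1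
    linarith
  obtain ⟨α, a0, a1, hα⟩ := cmean_wt k0 k1
  obtain ⟨β, b0, b1, hβ⟩ := cmean_wt ((le_div_iff₀ hN).2 h.j0) ((div_le_iff₀ hN).2 h.j1)
  obtain ⟨δ, d0, d1, hδ⟩ := cmean_wt ((le_div_iff₀ hN).2 h.q0) ((div_le_iff₀ hN).2 h.q1)
  obtain ⟨qa, hqa, hq⟩ : ∃ qa : ℕ, (qa = c.q1 ∨ (p.cq = false ∧ qa = c.q0)) ∧
      ∀ a : ℝ, (p.cq = true → 0 ≤ a) →
        a * S.Q ≤ S.N * (a * ((1 - δ) * ((qa : ℝ) / 2 ^ 20) + δ * ((c.q1 : ℝ) / 2 ^ 20))) := by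
    cases hc : p.cq with
    | false =>
      refine ⟨c.q0, Or.inr ⟨rfl, rfl⟩, fun a _ => le_of_eq ?_⟩
      rw [← hδ]
      field_simp
    | true =>
      refine ⟨c.q1, Or.inl rfl, fun a ha => ?_⟩
      have := mul_le_mul_of_nonneg_left h.q1 (ha rfl)
      calc a * S.Q ≤ a * ((c.q1 : ℝ) / 2 ^ 20 * S.N) := this
        _ = _ := by ring
  refine ⟨cmeanN c θ α β δ qa, θ, ⟨?_, ?_, t0, t1, hθ, ?_, ?_⟩⟩
  · simp only [cmeanN, cmeanK, cmeanJ, cmeanQ, cmeanL_apply, cmeanE_apply]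
    ring
  · intro g f hgf
    have hQ : ∀ n k j : ℕ, (n = c.n0 ∨ n = c.n1) → (k = c.k0 ∨ k = c.k1) →
        (j = c.j0 ∨ j = c.j1) → cmeanQ δ qa c.q1 n k j g ≤ cmeanQ δ qa c.q1 n k j f :=
      fun n k j hn hk hj => cmeanL_mono d0 d1 (hgf ⟨n, k, j, qa⟩ ⟨hn, hk, hj, hqa⟩)
        (hgf ⟨n, k, j, c.q1⟩ ⟨hn, hk, hj, Or.inl rfl⟩)
    have hJ : ∀ n k : ℕ, (n = c.n0 ∨ n = c.n1) → (k = c.k0 ∨ k = c.k1) →
        cmeanJ c β δ qa n k g ≤ cmeanJ c β δ qa n k f :=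
      fun n k hn hk => cmeanL_mono b0 b1 (hQ n k _ hn hk (Or.inl rfl))
        (hQ n k _ hn hk (Or.inr rfl))
    have hK : ∀ n : ℕ, (n = c.n0 ∨ n = c.n1) →
        cmeanK c α β δ qa n g ≤ cmeanK c α β δ qa n f :=
      fun n hn => cmeanL_mono a0 a1 (hJ n _ hn (Or.inl rfl)) (hJ n _ hn (Or.inr rfl))
    exact cmeanL_mono t0 t1 (hK _ (Or.inl rfl)) (hK _ (Or.inr rfl))
  · intro φ a b d
    simp only [cmeanN, cmeanK, cmeanJ, cmeanQ, cmeanL_apply, cmeanE_apply]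
    rw [hα, hβ]
    ring
  · intro a ha
    refine (hq a ha).trans (le_of_eq ?_)
    simp only [cmeanN, cmeanK, cmeanJ, cmeanQ, cmeanL_apply, cmeanE_apply]
    rw [hθ]
    ring

theorem cmean_allQ {b : Bool} {x y : ℕ} {f : ℕ → Bool} (h : allQ b x y f = true) {z : ℕ}
    (hz : z = y ∨ (b = false ∧ z = x)) : f z = true := by
  cases b with
  | false =>
    have h' : band (f x) (f y) = true := h
    rw [band_eq] at h'
    rcases hz with rfl | ⟨_, rfl⟩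
    · exact h'.2
    · exact h'.1
  | true =>
    have h' : f y = true := h
    rcases hz with rfl | ⟨hb, _⟩
    · exact h'
    · exact absurd hb (by decide)

theorem cmean_allQ' {x y : ℕ} {f : ℕ → Bool} (h : allQ false x y f = true) {z : ℕ}
    (hz : z = x ∨ z = y) : f z = true :=
  cmean_allQ h (hz.elim (fun e => Or.inr ⟨rfl, e⟩) Or.inl)

theorem allV_spec {p : Pm} {c : Cel} {f : Vx → Bool} (h : allV p c f = true) {v : Vx}
    (hv : IsV p c v) : f v = true := by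
  obtain ⟨n0, n1, k0, k1, j0, j1, q0, q1⟩ := c
  obtain ⟨n, k, j, q⟩ := v
  obtain ⟨hn, hk, hj, hq⟩ := hv
  have h0 : allQ false n0 n1 (fun n => allQ false k0 k1 fun k => allQ false j0 j1 fun j =>
      allQ p.cq q0 q1 fun q => f ⟨n, k, j, q⟩) = true := h
  have h1 := cmean_allQ' h0 (z := n) hn
  have h2 := cmean_allQ' h1 (z := k) hk
  have h3 := cmean_allQ' h2 (z := j) hj
  exact cmean_allQ h3 (z := q) hq

variable {p : Pm} {P : JP} {S : Sys} {c : Cel} {M : (Vx → ℝ) →ₗ[ℝ] ℝ} {θ : ℝ}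

theorem Mean.const (hM : Mean p P S c M θ) (a : ℝ) : M (fun _ => a) = a := by
  have e : (fun _ : Vx => a) = a • (fun _ : Vx => (1 : ℝ)) := by
    funext v
    simp
  rw [e, map_smul, hM.one]
  simp

theorem Mean.le_of (hM : Mean p P S c M θ) {g : Vx → ℝ} {a : ℝ}
    (h : ∀ v, IsV p c v → g v ≤ a) : M g ≤ a := by
  have := hM.mono g (fun _ => a) h
  rwa [hM.const] at this

/-- Affine maps commute with the mean. -/
theorem Mean.aff (hM : Mean p P S c M θ) (g : Vx → ℝ) (a b : ℝ) :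
    M (fun v => a + b * g v) = a + b * M g := by
  have e : (fun v => a + b * g v) = (fun _ : Vx => a) + b • g := by
    funext v
    simp
  rw [e, map_add, map_smul, hM.const]
  simp

theorem Mean.exp_le (hM : Mean p P S c M θ) {g : Vx → ℝ} {x : ℝ} (h : x ≤ M g) :
    exp x ≤ M (fun v => exp (g v)) := by
  obtain ⟨m, hm⟩ : ∃ m, m = M g := ⟨_, rfl⟩
  have h1 : M (fun v => exp m * (1 - m) + exp m * g v) ≤ M (fun v => exp (g v)) := by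
    refine hM.mono _ _ fun v _ => ?_
    have h2 := add_one_le_exp (g v - m)
    have h3 : exp (g v) = exp m * exp (g v - m) := by
      rw [← exp_add]
      congr 1
      ring
    have h4 := mul_le_mul_of_nonneg_left h2 (exp_pos m).le
    rw [h3]
    linarith
  rw [hM.aff, ← hm] at h1
  have h5 : exp x ≤ exp m := exp_le_exp.2 (hm ▸ h)
  linarith

theorem Mean.add' (M : (Vx → ℝ) →ₗ[ℝ] ℝ) (g h : Vx → ℝ) :
    M (fun v => g v + h v) = M g + M h := by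
  exact map_add M g h

theorem Mean.sum' (M : (Vx → ℝ) →ₗ[ℝ] ℝ) (n : ℕ) (g : ℕ → Vx → ℝ) :
    M (fun v => ∑ i ∈ Finset.range n, g i v) = ∑ i ∈ Finset.range n, M (g i) := by
  rw [← map_sum]
  congr 1
  funext v
  simp

theorem sumF_eq (p : Pm) (L : Lf) (f : ℕ → ℕ → ℕ → ℕ → ℕ) : sumF p L f
    = ∑ j ∈ Finset.range p.J, ∑ i ∈ Finset.range (nf L j), f j (j + 1) i (fc L j i) := by
  unfold sumF
  rw [sumN_eq]
  refine Finset.sum_congr rfl fun j _ => ?_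
  rw [force_eq, sumN_eq]
  refine Finset.sum_congr rfl fun i _ => ?_
  rw [force_eq]

end Pool.Agent.Lib.MP_33650d_pr.X
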