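import Pool.Agent.Lib.MP_33650d_pr.X.CFac
import Pool.Agent.Lib.MP_33650d_pr.X.CFin
import Pool.Agent.Lib.MP_33650d_pr.X.CChord

namespace Pool.Agent.Lib.MP_33650d_pr.X
open MeasureTheory ProbabilityTheory Real

/-- What the common part of `leafK` gives. -/
structure LfOK (p : Pm) (c : Cel) (L : Lf) : Prop where
  h0 : hOK c.n0 = true
  h1 : hOK c.n1 = true
  p0 : phOK p c.n0 = true
  p1 : phOK p c.n1 = true
  cnt : sumN p.J (nf L) ≤ 64
  rec' : ∀ j < p.J, recOK p c L j = true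
  sb : ∀ v, IsV p c v → (sumF p L fun _ n _ x => bF p n x v) ≤ 274877906944

variable {p : Pm} {P : JP} {S : Sys} {c : Cel} {L : Lf}

theorem meanN_cseg {M : (Vx → ℝ) →ₗ[ℝ] ℝ} {θ : ℝ} (hM : Mean p P S c M θ) :
    M (fun v => (v.n : ℝ) / 2 ^ 20) = S.N := by
  have e := hM.prod (fun n => (n : ℝ) / 2 ^ 20) 1 0 0
  simp only [zero_mul, add_zero, mul_one] at e
  rw [e, hM.N]

theorem smul_cseg {M : (Vx → ℝ) →ₗ[ℝ] ℝ} {θ : ℝ} (hM : Mean p P S c M θ) (g : Vx → ℝ) (b : ℝ) :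
    M (fun v => b * g v) = b * M g := by
  have e := hM.aff g 0 b
  simpa only [zero_add] using e

theorem core_cseg (hp : p.Ok P) (h : In P S c) (hL : LfOK p c L) {g : Sg} (hg : g.Ok)
    {M : (Vx → ℝ) →ₗ[ℝ] ℝ} {θ : ℝ} (hM : Mean p P S c M θ) {ph : Bool} {X s : Vx → ℕ} {Y a : ℕ}
    {x : Vx → ℕ → ℕ} {y : ℕ → ℕ} (hX : ∀ v, IsV p c v → Rep 72 g.cnt (X v) (x v) (2 ^ 70))
    (hY : Rep 72 g.cnt Y y (2 ^ 69)) (ha : a ≤ 2 ^ 32) (h4 : ph = true → 2 ^ 32 ≤ zz p c g)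
    (hf : ∀ v, IsV p c v → fin p c g ph (X v) Y a (s v) v = true) {i : ℕ} (hi : i < g.cnt)
    {G : Vx → ℝ} (hG : ∀ v, IsV p c v → G v ≤ (x v i : ℝ) - y i + s v) :
    M G / 2 ^ 60 + (a : ℝ) / 2 ^ 30 * (S.N / (p.P : ℝ) ^ 2 + sl (g.lo + i) ^ 2 + sl (g.lo + i))
      + (if ph then 0.26 * (p.P : ℝ) ^ 2 / S.N / (8 * 4096 ^ 2)
          - Phi (p.P * sl (g.lo + i) / √S.N) else 0) ≤ tgt S.N S.K (S.J P) := by
  have h0 : 0 < c.n0 := hOK_pos hL.h0
  have h0' : (0 : ℝ) < (c.n0 : ℝ) / 2 ^ 20 := by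
    have : (0 : ℝ) < c.n0 := by exact_mod_cast h0
    positivity
  have h01 : c.n0 ≤ c.n1 := by
    have := h.n0.trans h.n1
    have : (c.n0 : ℝ) ≤ c.n1 := by linarith
    exact_mod_cast this
  have hc := chord_mean h hM hL.h0 hg ph hi
  have hE : 0.26 * (p.P : ℝ) ^ 2 / S.N / (8 * 4096 ^ 2)
      ≤ 0.26 * (p.P : ℝ) ^ 2 / ((c.n0 : ℝ) / 2 ^ 20) / (8 * 4096 ^ 2) :=
    div_le_div_of_nonneg_right (div_le_div_of_nonneg_left (by positivity) h0' h.n0) (by positivity)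
  obtain ⟨E, hEe⟩ : ∃ E : ℝ, E = 0.26 * (p.P : ℝ) ^ 2 / ((c.n0 : ℝ) / 2 ^ 20) / (8 * 4096 ^ 2) :=
    ⟨_, rfl⟩
  obtain ⟨σ, hσ⟩ : ∃ σ : ℝ, σ = sl (g.lo + i) := ⟨_, rfl⟩
  obtain ⟨e, he⟩ : ∃ e : ℝ, e = (errN p c g : ℝ) := ⟨_, rfl⟩
  have hm := hM.mono
    (fun v => ((e / 2 ^ 60 + (a : ℝ) / 2 ^ 30 * (σ ^ 2 + σ) + if ph then E else 0)
      + 1 / 2 ^ 60 * G v) + (a : ℝ) / 2 ^ 30 / (p.P : ℝ) ^ 2 * ((v.n : ℝ) / 2 ^ 20))
    (fun v => (if ph then Phi (p.P * sl (g.lo + i) / √((v.n : ℝ) / 2 ^ 20)) else 0)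
        + (1 / 3 + 1 / 6 * ((v.k : ℝ) / 2 ^ 20) + (v.j : ℝ) / 2 ^ 20)
          / (√(2 * π) * √((v.n : ℝ) / 2 ^ 20))) (by
      intro v hv
      have h1 : v.n ≤ c.n1 := by rcases hv.1 with e | e <;> omega
      have h2 : hOK v.n = true := by
        rcases hv.1 with e | e <;> rw [e]
        exacts [hL.h0, hL.h1]
      have h3 : phOK p v.n = true := by
        rcases hv.1 with e | e <;> rw [e]
        exacts [hL.p0, hL.p1]
      have hs := fin_sound hp.P0 hp.n0 hg (hX v hv) hY ha h0 h1 h2 h3 h4 (hf v hv) hi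
      have hG' := hG v hv
      rw [← hEe, ← he] at hs
      rw [← hσ] at hs ⊢
      obtain ⟨T, hT⟩ : ∃ T : ℝ, T = (1 / 3 + 1 / 6 * ((v.k : ℝ) / 2 ^ 20) + (v.j : ℝ) / 2 ^ 20)
          / (√(2 * π) * √((v.n : ℝ) / 2 ^ 20)) := ⟨_, rfl⟩
      obtain ⟨F, hF⟩ : ∃ F : ℝ, F = Phi (p.P * σ / √((v.n : ℝ) / 2 ^ 20)) := ⟨_, rfl⟩
      have e1 : (a : ℝ) / 2 ^ 30 * ((v.n : ℝ) / 2 ^ 20 / (p.P : ℝ) ^ 2 + σ ^ 2 + σ)
          = (a : ℝ) / 2 ^ 30 * (σ ^ 2 + σ)
            + (a : ℝ) / 2 ^ 30 / (p.P : ℝ) ^ 2 * ((v.n : ℝ) / 2 ^ 20) := by ring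
      rw [e1] at hs
      rw [← hT, ← hF] at hs ⊢
      generalize (a : ℝ) / 2 ^ 30 * (σ ^ 2 + σ) = A at hs ⊢
      generalize (a : ℝ) / 2 ^ 30 / (p.P : ℝ) ^ 2 * ((v.n : ℝ) / 2 ^ 20) = B at hs ⊢
      cases ph
      · simp only [Bool.false_eq_true, if_false] at hs ⊢
        linarith
      · simp only [if_true] at hs ⊢
        linarith)
  rw [Mean.add', hM.aff, smul_cseg hM, meanN_cseg hM] at hm
  have hc' := hm.trans hc
  rw [← hEe] at hE
  rw [← he, ← hσ] at hc'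
  rw [← hσ]
  have e1 : (a : ℝ) / 2 ^ 30 * (S.N / (p.P : ℝ) ^ 2 + σ ^ 2 + σ)
      = (a : ℝ) / 2 ^ 30 * (σ ^ 2 + σ) + (a : ℝ) / 2 ^ 30 / (p.P : ℝ) ^ 2 * S.N := by ring
  rw [e1]
  generalize (a : ℝ) / 2 ^ 30 * (σ ^ 2 + σ) = A at hc' ⊢
  generalize (a : ℝ) / 2 ^ 30 / (p.P : ℝ) ^ 2 * S.N = B at hc' ⊢
  generalize 0.26 * (p.P : ℝ) ^ 2 / S.N / (8 * 4096 ^ 2) = E' at hE ⊢
  cases ph
  · simp only [Bool.false_eq_true, if_false] at hc' ⊢
    linarith
  · simp only [if_true] at hc' ⊢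
    linarith

theorem xp_rep_cseg (hL : LfOK p c L) {g : Sg} (hg : g.Ok) {v : Vx} (hv : IsV p c v) :
    Rep 72 g.cnt (XP p L g v) (fun i => ∑ j ∈ Finset.range p.J, ∑ k ∈ Finset.range (nf L j),
      bF p (j + 1) (fc L j k) v * lv (lam p L g j k) i) (2 ^ 70) := by
  have e : XP p L g v = sumN p.J fun j => sumN (nf L j) fun k =>
      Nat.mul (bF p (j + 1) (fc L j k) v) (lam p L g j k) := by
    rw [XP, sumF_eq, sumN_eq]
    exact Finset.sum_congr rfl fun j _ => by rw [sumN_eq]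
  rw [e]
  refine (Rep.sumN fun j _ => Rep.sumN fun k _ =>
    (lam_rep hg p L j k).mul (bF p (j + 1) (fc L j k) v)).mono ?_
  have hb := hL.sb v hv
  rw [sumF_eq] at hb
  simp only [← Finset.sum_mul]
  calc _ ≤ 274877906944 * 2 ^ 32 := Nat.mul_le_mul_right _ hb
    _ = 2 ^ 70 := by norm_num

theorem rep2_cseg {n J B : ℕ} {m : ℕ → ℕ} {X : ℕ → ℕ → ℕ} {u : ℕ → ℕ → ℕ → ℕ}
    (h : ∀ j k, Rep 72 n (X j k) (u j k) B) (hb : sumN J m ≤ 64) (d : ℕ) :
    Rep 72 n (Nat.shiftLeft (∑ j ∈ Finset.range J, ∑ k ∈ Finset.range (m j), X j k) d)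
      (fun i => (∑ j ∈ Finset.range J, ∑ k ∈ Finset.range (m j), u j k i) * 2 ^ d)
      (64 * B * 2 ^ d) := by
  have e : ∑ j ∈ Finset.range J, ∑ k ∈ Finset.range (m j), X j k
      = sumN J fun j => sumN (m j) fun k => X j k := by
    rw [sumN_eq]
    exact Finset.sum_congr rfl fun j _ => by rw [sumN_eq]
  have h1 : Rep 72 n (sumN J fun j => sumN (m j) fun k => X j k)
      (fun i => ∑ j ∈ Finset.range J, ∑ k ∈ Finset.range (m j), u j k i)
      (∑ j ∈ Finset.range J, ∑ _k ∈ Finset.range (m j), B) :=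
    Rep.sumN fun j _ => Rep.sumN fun k _ => h j k
  rw [sumN_eq] at hb
  simp only [Finset.sum_const, Finset.card_range, smul_eq_mul, ← Finset.sum_mul] at h1
  rw [e]
  exact (h1.mono (Nat.mul_le_mul_right _ hb)).shl d

theorem xn_rep_cseg (hL : LfOK p c L) {g : Sg} (hg : g.Ok) :
    Rep 72 g.cnt (XN p L g) (fun i => (∑ j ∈ Finset.range p.J, ∑ k ∈ Finset.range (nf L j),
      lv (lam p L g j k) i) * 2 ^ 31) (2 ^ 69) := by
  have h1 := rep2_cseg (fun j k => lam_rep hg p L j k) hL.cnt 31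
  have e : 64 * 2 ^ 32 * 2 ^ 31 = 2 ^ 69 := by norm_num
  rw [e] at h1
  delta XN
  rw [sumF_eq]
  exact h1

theorem ite_cseg (n a b : ℕ) : ((ite' (Nat.beq n 0) a b : ℕ) : ℝ) = if n = 0 then (a : ℝ) else b := by
  cases n
  · simp
  · rw [if_neg (Nat.succ_ne_zero _)]
    rfl

/-- The contribution of one frequency at a vertex. -/
noncomputable def G_cseg (p : Pm) (L : Lf) (g : Sg) (i j : ℕ) (v : Vx) : ℝ :=
  ∑ k ∈ Finset.range (nf L j), (lv (lam p L g j k) i : ℝ) * ((bF p (j + 1) (fc L j k) v : ℝ) - 2 ^ 31)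
    + if nf L j = 0 then (kR g.K j : ℝ) / 2 ^ 10 * mV p L j v
      else (316 * ((j : ℝ) + 1) ^ 2 + 144) * kR g.K j + 2 ^ 36

theorem G_le_cseg (p : Pm) (L : Lf) (g : Sg) (i : ℕ) (v : Vx) :
    (kA g.K : ℝ) * 2 ^ 30 + 1 * ∑ j ∈ Finset.range p.J, G_cseg p L g i j v
      ≤ ((∑ j ∈ Finset.range p.J, ∑ k ∈ Finset.range (nf L j),
          bF p (j + 1) (fc L j k) v * lv (lam p L g j k) i : ℕ) : ℝ)
        - (((∑ j ∈ Finset.range p.J, ∑ k ∈ Finset.range (nf L j),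
          lv (lam p L g j k) i) * 2 ^ 31 : ℕ) : ℝ)
        + (Nat.add (Nat.add (Nat.shiftLeft (kA g.K) 30) (mS p L g v)) (fS p L g) : ℕ) := by
  have e1 : ∑ j ∈ Finset.range p.J, (if nf L j = 0 then (kR g.K j : ℝ) * mV p L j v else 0) / 2 ^ 10
      ≤ (mS p L g v : ℝ) := by
    have h1 := cast_shr_ge (sumN p.J fun j =>
      ite' (Nat.beq (nf L j) 0) (Nat.mul (kR g.K j) (mV p L j v)) 0) 10
    rw [mS, cast_nadd, ← Finset.sum_div]
    rw [sumN_eq, Nat.cast_sum] at h1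
    simp only [ite_cseg, cast_nmul, Nat.cast_zero] at h1
    rw [sumN_eq]
    rw [Nat.cast_one]
    linarith
  have e2 : (fS p L g : ℝ) = ∑ j ∈ Finset.range p.J,
      if nf L j = 0 then 0 else (316 * ((j : ℝ) + 1) ^ 2 + 144) * kR g.K j + 2 ^ 36 := by
    rw [fS, sumN_eq, Nat.cast_sum]
    refine Finset.sum_congr rfl fun j _ => ?_
    rw [ite_cseg]
    simp only [cast_nadd, cast_nmul]
    split_ifs
    · simp
    · push_cast
      ring
  have e3 : ∑ j ∈ Finset.range p.J, G_cseg p L g i j v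
      = (∑ j ∈ Finset.range p.J, ∑ k ∈ Finset.range (nf L j),
          (bF p (j + 1) (fc L j k) v : ℝ) * lv (lam p L g j k) i
        - (∑ j ∈ Finset.range p.J, ∑ k ∈ Finset.range (nf L j), (lv (lam p L g j k) i : ℝ)) * 2 ^ 31)
        + ∑ j ∈ Finset.range p.J, (if nf L j = 0 then (kR g.K j : ℝ) * mV p L j v else 0) / 2 ^ 10
        + ∑ j ∈ Finset.range p.J,
          if nf L j = 0 then 0 else (316 * ((j : ℝ) + 1) ^ 2 + 144) * kR g.K j + 2 ^ 36 := by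
    rw [Finset.sum_mul, ← Finset.sum_sub_distrib, ← Finset.sum_add_distrib,
      ← Finset.sum_add_distrib]
    refine Finset.sum_congr rfl fun j _ => ?_
    rw [G_cseg, Finset.sum_mul, ← Finset.sum_sub_distrib, add_assoc]
    congr 1
    · exact Finset.sum_congr rfl fun k _ => by ring
    · split_ifs <;> ring
  rw [cast_nadd, cast_nadd, cast_shl, e2, e3]
  push_cast
  linarith

theorem pi_cseg : 8 * (2 * π) ^ 2 ≤ 316 := by
  have := pi_lt_d4
  have := pi_pos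
  nlinarith

theorem G_ge_cseg (hp : p.Ok P) (h : In P S c) (hL : LfOK p c L) {g : Sg} (hg : g.Ok)
    (hK : KV p.J g.K) {M : (Vx → ℝ) →ₗ[ℝ] ℝ} {θ : ℝ} (hM : Mean p P S c M θ) {i : ℕ}
    (hi : i < g.cnt) {j : ℕ} (hj : j < p.J)
    (hr : bor (Nat.beq (nf L j) 0) (rsOK p L g j) = true) :
    ((if nf L j = 0 then rK g.K j * ‖charFun S.ν (tn p (j + 1))‖
      else Ar g.K j (sl (g.lo + i)) * (charFun S.ν (tn p (j + 1))).re
        + Br g.K j (sl (g.lo + i)) * (charFun S.ν (tn p (j + 1))).im)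
      + (if nf L j = 0 then 0 else (2 * π * (j + 1)) ^ 2 * rK g.K j) / (8 * 4096 ^ 2)) * 2 ^ 60
      ≤ M (G_cseg p L g i j) := by
  have hrec := hL.rec' j hj
  rw [recOK, force_eq] at hrec
  have hk0 : (0 : ℝ) ≤ kR g.K j := Nat.cast_nonneg _
  by_cases hn : nf L j = 0
  · have e : G_cseg p L g i j = fun v => (kR g.K j : ℝ) / 2 ^ 10 * mV p L j v := by
      funext v
      rw [G_cseg, if_pos hn, hn, Finset.sum_range_zero, zero_add]
    rw [hn] at hrec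
    rw [show Nat.beq 0 0 = true from rfl, ite'_true, band_eq, force_eq] at hrec
    have hm := mod_sound hp h hM hrec.1 (Nat.eq_of_beq_eq_true hrec.2)
    rw [e, smul_cseg hM, if_pos hn, if_pos hn, rK]
    generalize ‖charFun S.ν (tn p (j + 1))‖ = R at hm ⊢
    generalize M (fun v => (mV p L j v : ℝ)) = m at hm ⊢
    have := mul_le_mul_of_nonneg_left hm hk0
    linarith
  · have hb : Nat.beq (nf L j) 0 = false := by
      obtain ⟨m, hm⟩ := Nat.exists_eq_succ_of_ne_zero hn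
      rw [hm]; rfl
    rw [hb, ite'_false, band_eq] at hrec
    rw [hb, bor_eq] at hr
    have hr' : rsOK p L g j = true := by
      rcases hr with hr | hr
      · exact absurd hr (by decide)
      · exact hr
    have hfac : ∀ k < nf L j, facOK p c (j + 1) (fc L j k) = true ∧
        ∀ v, IsV p c v → facV p (j + 1) (fc L j k) v = true := by
      intro k hk
      have := allN_spec hrec.2 k hk
      rw [force_eq, band_eq] at this
      exact ⟨this.1, fun v hv => allV_spec this.2 hv⟩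
    have := h.ok.prob
    have hn1 : ‖charFun S.ν (tn p (j + 1))‖ ≤ 1 := norm_charFun_le_one _
    have hrs := rs_sound hg (lt_of_lt_of_le hj hp.J) (Nat.le_of_ble_eq_true hrec.1)
      (fun k hk => fac_le (hfac k hk).1) (hK.1 j hj) hr' hi
      ((Complex.abs_re_le_norm _).trans hn1) ((Complex.abs_im_le_norm _).trans hn1)
    have e : G_cseg p L g i j = fun v =>
        ((316 * ((j : ℝ) + 1) ^ 2 + 144) * kR g.K j + 2 ^ 36) + 1 * ∑ k ∈ Finset.range (nf L j),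
          (lv (lam p L g j k) i : ℝ) * ((bF p (j + 1) (fc L j k) v : ℝ) - 2 ^ 31) := by
      funext v
      rw [G_cseg, if_neg hn]
      ring
    rw [e, hM.aff, Mean.sum', if_neg hn, if_neg hn, one_mul]
    have hs : ∑ k ∈ Finset.range (nf L j), (lv (lam p L g j k) i : ℝ)
          * (((nxp p (fc L j k) : ℝ) - nxn p (fc L j k)) * (charFun S.ν (tn p (j + 1))).re
            + ((nyp p (fc L j k) : ℝ) - nyn p (fc L j k)) * (charFun S.ν (tn p (j + 1))).im)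
        ≤ ∑ k ∈ Finset.range (nf L j), M fun v =>
          (lv (lam p L g j k) i : ℝ) * ((bF p (j + 1) (fc L j k) v : ℝ) - 2 ^ 31) := by
      refine Finset.sum_le_sum fun k hk => ?_
      have hk' := Finset.mem_range.1 hk
      rw [smul_cseg hM]
      exact mul_le_mul_of_nonneg_left
        (fac_sound hp h hM (Nat.le_add_left 1 j) (hfac k hk').1 (hfac k hk').2) (Nat.cast_nonneg _)
    have h8 : (2 * π * (j + 1)) ^ 2 * rK g.K j / (8 * 4096 ^ 2) * 2 ^ 60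
        ≤ 316 * ((j : ℝ) + 1) ^ 2 * kR g.K j := by
      have h1 := mul_le_mul_of_nonneg_right pi_cseg
        (show 0 ≤ ((j : ℝ) + 1) ^ 2 * kR g.K j by positivity)
      rw [rK]
      calc _ = 8 * (2 * π) ^ 2 * (((j : ℝ) + 1) ^ 2 * kR g.K j) := by ring
        _ ≤ _ := h1
        _ = _ := by ring
    generalize (2 * π * (j + 1)) ^ 2 * rK g.K j / (8 * 4096 ^ 2) = A at h8 ⊢
    generalize Ar g.K j (sl (g.lo + i)) * (charFun S.ν (tn p (j + 1))).re
        + Br g.K j (sl (g.lo + i)) * (charFun S.ν (tn p (j + 1))).im = B at hrs ⊢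
    linarith

theorem segK_lane (hp : p.Ok P) (h : In P S c) (hL : LfOK p c L) {g : Sg} (hg : g.Ok)
    (hK : KV p.J g.K) {ph : Bool} (hs : segK p c L ph g = true) {i : ℕ} (hi : i < g.cnt) :
    Gs p L g.K ph S (sl (g.lo + i)) + (if ph then Ms p L g.K S / (8 * 4096 ^ 2) else 0)
      ≤ tgt S.N S.K (S.J P) := by
  obtain ⟨M, θ, hM⟩ := exists_mean p h
  rw [segK, band_eq, band_eq, force_eq, bor_eq] at hs
  obtain ⟨hz, hr, hf⟩ := hs
  have h4 : ph = true → 2 ^ 32 ≤ zz p c g := by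
    intro e
    rcases hz with hz | hz
    · rw [e] at hz
      exact absurd hz (by decide)
    · exact Nat.le_of_ble_eq_true hz
  have ha : kC g.K ≤ 2 ^ 32 := (bt_lt _ _ (by norm_num)).le
  have hc := core_cseg hp h hL hg hM (fun v hv => xp_rep_cseg hL hg hv) (xn_rep_cseg hL hg) ha h4
    (fun v hv => allV_spec hf hv) hi (fun v _ => G_le_cseg p L g i v)
  rw [hM.aff, Mean.sum', one_mul] at hc
  have hs := Finset.sum_le_sum fun j (hj : j ∈ Finset.range p.J) =>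
    G_ge_cseg hp h hL hg hK hM hi (Finset.mem_range.1 hj) (allN_spec hr j (Finset.mem_range.1 hj))
  rw [← Finset.sum_mul, Finset.sum_add_distrib, ← Finset.sum_div] at hs
  have hB : 0 ≤ ∑ j ∈ Finset.range p.J,
      (if nf L j = 0 then 0 else (2 * π * (j + 1)) ^ 2 * rK g.K j) := by
    refine Finset.sum_nonneg fun j _ => ?_
    split_ifs
    · exact le_rfl
    · rw [rK]; positivity
  rw [Gs, Ms, aK, cK, add_div]
  generalize ∑ j ∈ Finset.range p.J,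
      (if nf L j = 0 then 0 else (2 * π * (j + 1)) ^ 2 * rK g.K j) = B at hs hB ⊢
  generalize ∑ j ∈ Finset.range p.J, M (G_cseg p L g i j) = D at hs hc
  generalize (kC g.K : ℝ) / 2 ^ 30
    * (S.N / (p.P : ℝ) ^ 2 + sl (g.lo + i) ^ 2 + sl (g.lo + i)) = C at hc ⊢
  generalize 0.26 * (p.P : ℝ) ^ 2 / S.N / (8 * 4096 ^ 2) = E at hc ⊢
  cases ph
  · simp only [Bool.false_eq_true, if_false] at hc ⊢
    linarith
  · simp only [if_true] at hc ⊢
    linarith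

theorem segR_lane (hp : p.Ok P) (h : In P S c) (hL : LfOK p c L) {g : Sg} (hg : g.Ok)
    (hs : segR p c g = true) : 1 - Phi (p.P * sl g.lo / √S.N) ≤ tgt S.N S.K (S.J P) := by
  obtain ⟨M, θ, hM⟩ := exists_mean p h
  rw [segR, band_eq] at hs
  have hc := core_cseg (i := 0) (G := fun _ => 2 ^ 60) hp h hL hg hM
    (fun _ _ => (Rep.zero 72 g.cnt).mono (Nat.zero_le _)) ((Rep.zero 72 g.cnt).mono (Nat.zero_le _))
    (Nat.zero_le _) (fun _ => Nat.le_of_ble_eq_true hs.1) (fun v hv => allV_spec hs.2 hv) hg.1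
    (fun _ _ => by norm_num)
  have hN : 0 ≤ S.N := le_trans (by positivity) h.n0
  have hE : 0 ≤ 0.26 * (p.P : ℝ) ^ 2 / S.N / (8 * 4096 ^ 2) := by positivity
  rw [hM.const, if_pos rfl, add_zero, Nat.cast_zero, zero_div, zero_mul] at hc
  linarith

end Pool.Agent.Lib.MP_33650d_pr.X
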