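import Pool.Agent.Lib.MP_33650d_pr.X.CDef
import Pool.Agent.Lib.MP_33650d_pr.X.Basic

namespace Pool.Agent.Lib.MP_33650d_pr.X
open MeasureTheory ProbabilityTheory Real

/-- The frequency number `n`. -/
noncomputable def tn (p : Pm) (n : ℕ) : ℝ := 2 * π * n / p.P
/-- The angle number `m`. -/
noncomputable def om (m : ℕ) : ℝ := 2 * π * ((m : ℝ) - 8192) / 4096
/-- The point of the lane `i`. -/
noncomputable def sl (i : ℕ) : ℝ := ((i : ℝ) - 2048) / 4096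
/-- Lane `i` of a number. -/
def lv (X i : ℕ) : ℕ := X / 2 ^ (72 * i) % 2 ^ 72

noncomputable def hC (J : ℕ) (a c : ℝ) (p q : ℕ → ℝ) (u : ℝ) : ℝ :=
  a + c * (u ^ 2 - u) + ∑ j ∈ Finset.range J,
    (p j * cos (2 * π * (j + 1) * u) + q j * sin (2 * π * (j + 1) * u))

noncomputable def aK (K : ℕ) : ℝ := kA K / 2 ^ 30
noncomputable def cK (K : ℕ) : ℝ := kC K / 2 ^ 30
noncomputable def pK (K j : ℕ) : ℝ := ((kP K j : ℝ) - 2 ^ 30) / 2 ^ 30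
noncomputable def qK (K j : ℕ) : ℝ := ((kQ K j : ℝ) - 2 ^ 30) / 2 ^ 30
noncomputable def rK (K j : ℕ) : ℝ := kR K j / 2 ^ 30
noncomputable def Ar (K j : ℕ) (s : ℝ) : ℝ :=
  pK K j * cos (2 * π * (j + 1) * s) - qK K j * sin (2 * π * (j + 1) * s)
noncomputable def Br (K j : ℕ) (s : ℝ) : ℝ :=
  pK K j * sin (2 * π * (j + 1) * s) + qK K j * cos (2 * π * (j + 1) * s)

/-- The record `K` is a majorant of the indicator of the negative half-line. -/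
def KV (J K : ℕ) : Prop :=
  (∀ j < J, pK K j ^ 2 + qK K j ^ 2 ≤ rK K j ^ 2) ∧
    ∀ u : ℝ, (if u ≤ 0 then 1 else 0) ≤ hC J (aK K) (cK K) (pK K) (qK K) u

structure Pm.Ok (p : Pm) (P : JP) : Prop where
  P0 : 0 < p.P
  J : p.J ≤ 48
  n0 : p.n0 ≤ 255
  ET : Tab P p.ET
  KT : p.KT.All (KV p.J)

/-- The balanced system `S` lies in the cell `c`. -/
structure In (P : JP) (S : Sys) (c : Cel) : Prop where
  ok : S.Ok
  pos : S.JPos P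
  bal : S.Bal P
  n0 : (c.n0 : ℝ) / 2 ^ 20 ≤ S.N
  n1 : S.N ≤ (c.n1 : ℝ) / 2 ^ 20
  k0 : ((c.k0 : ℝ) / 2 ^ 20 - 1) * S.N ≤ S.K
  k1 : S.K ≤ ((c.k1 : ℝ) / 2 ^ 20 - 1) * S.N
  j0 : (c.j0 : ℝ) / 2 ^ 20 * S.N ≤ S.J P
  j1 : S.J P ≤ (c.j1 : ℝ) / 2 ^ 20 * S.N
  q0 : (c.q0 : ℝ) / 2 ^ 20 * S.N ≤ S.Q
  q1 : S.Q ≤ (c.q1 : ℝ) / 2 ^ 20 * S.N

/-- The bound holds on a cell. -/
def CovC (P : JP) (l0 l1 : ℕ) (c : Cel) : Prop :=
  ∀ S : Sys, In P S c → (l0 : ℝ) / 2 ^ 20 ≤ S.lam → S.lam ≤ (l1 : ℝ) / 2 ^ 20 → S.Bound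

/-- The vertices of a cell. -/
def IsV (p : Pm) (c : Cel) (v : Vx) : Prop :=
  (v.n = c.n0 ∨ v.n = c.n1) ∧ (v.k = c.k0 ∨ v.k = c.k1) ∧ (v.j = c.j0 ∨ v.j = c.j1) ∧
    (v.q = c.q1 ∨ (p.cq = false ∧ v.q = c.q0))

/-- A weighted mean over the vertices that reproduces the invariants of the system. -/
structure Mean (p : Pm) (P : JP) (S : Sys) (c : Cel) (M : (Vx → ℝ) →ₗ[ℝ] ℝ) (θ : ℝ) : Prop where
  one : M (fun _ => 1) = 1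
  mono : ∀ g h : Vx → ℝ, (∀ v, IsV p c v → g v ≤ h v) → M g ≤ M h
  t0 : 0 ≤ θ
  t1 : θ ≤ 1
  N : S.N = (1 - θ) * ((c.n0 : ℝ) / 2 ^ 20) + θ * ((c.n1 : ℝ) / 2 ^ 20)
  prod : ∀ (φ : ℕ → ℝ) (a b d : ℝ),
    M (fun v => φ v.n * (a + b * ((v.k : ℝ) / 2 ^ 20) + d * ((v.j : ℝ) / 2 ^ 20)))
      = ((1 - θ) * φ c.n0 + θ * φ c.n1) * (a + b * (S.K / S.N + 1) + d * (S.J P / S.N))
  q : ∀ a : ℝ, (p.cq = true → 0 ≤ a) →
    a * S.Q ≤ M (fun v => (v.n : ℝ) / 2 ^ 20 * (a * ((v.q : ℝ) / 2 ^ 20)))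

/-- Real value of an entry at a vertex. -/
noncomputable def eR (p : Pm) (n i : ℕ) (v : Vx) : ℝ := ((eV p n i v : ℝ) - 2 ^ 44) / 2 ^ 32

def Sg.Ok (g : Sg) : Prop := 1 ≤ g.cnt ∧ g.lo + g.cnt ≤ 4096

/-- The majorant of `F (P s) - Phi` given by a kernel. -/
noncomputable def Gs (p : Pm) (L : Lf) (K : ℕ) (ph : Bool) (S : Sys) (s : ℝ) : ℝ :=
  aK K + cK K * (S.N / (p.P : ℝ) ^ 2 + s ^ 2 + s) + ∑ j ∈ Finset.range p.J,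
    (if nf L j = 0 then rK K j * ‖charFun S.ν (tn p (j + 1))‖
      else Ar K j s * (charFun S.ν (tn p (j + 1))).re + Br K j s * (charFun S.ν (tn p (j + 1))).im)
    - if ph then Phi (p.P * s / √S.N) else 0

/-- Bound for minus the second derivative of `Gs`. -/
noncomputable def Ms (p : Pm) (L : Lf) (K : ℕ) (S : Sys) : ℝ :=
  ∑ j ∈ Finset.range p.J, (if nf L j = 0 then 0 else (2 * π * (j + 1)) ^ 2 * rK K j)
    + 0.26 * (p.P : ℝ) ^ 2 / S.N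

end Pool.Agent.Lib.MP_33650d_pr.X
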