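import Pool.Agent.Lib.MP_33650d_pr.Defs2

namespace Pool.Agent.Lib.MP_33650d_pr.X
open MeasureTheory ProbabilityTheory Real

/-- Moment data of one centred summand `Y`: `E Y^2`, `E (Y₊)^3`, `E (Y₋)^3`, `E cos Y`,
`E sin Y`. -/
structure YD where
  s : ℝ
  bp : ℝ
  bm : ℝ
  C : ℝ
  S : ℝ

/-- Every pointwise inequality (one for each sign of the variable) can be integrated. -/
def YD.Lin (d : YD) : Prop :=
  ∀ c σ c0 a m np nm : ℝ,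
    (∀ y : ℝ, 0 ≤ y → c * cos y + σ * sin y ≤ c0 + a * y + m * y ^ 2 + np * y ^ 3) →
    (∀ y : ℝ, 0 ≤ y → c * cos y - σ * sin y ≤ c0 - a * y + m * y ^ 2 + nm * y ^ 3) →
    c * d.C + σ * d.S ≤ c0 + m * d.s + np * d.bp + nm * d.bm

/-- Value of the characteristic function of one summand. -/
noncomputable def YD.f (d : YD) : ℂ := (d.C : ℂ) + (d.S : ℂ) * Complex.I

/-- A sum of `n` independent centred summands: its law, and for each summand the variance, the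
third moments of the positive and negative parts and the characteristic function. -/
structure Sys where
  n : ℕ
  ν : Measure ℝ
  s : Fin n → ℝ
  bp : Fin n → ℝ
  bm : Fin n → ℝ
  C : Fin n → ℝ → ℝ
  S : Fin n → ℝ → ℝ

/-- The data of the summand `t X_k`. -/
def Sys.dat (S : Sys) (k : Fin S.n) (t : ℝ) : YD :=
  ⟨t ^ 2 * S.s k, t ^ 3 * S.bp k, t ^ 3 * S.bm k, S.C k t, S.S k t⟩

def Sys.N (S : Sys) : ℝ := ∑ k, S.s k
def Sys.Bp (S : Sys) : ℝ := ∑ k, S.bp k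
def Sys.Bm (S : Sys) : ℝ := ∑ k, S.bm k
def Sys.B (S : Sys) : ℝ := S.Bp + S.Bm
def Sys.K (S : Sys) : ℝ := S.Bp - S.Bm
def Sys.Q (S : Sys) : ℝ := ∑ k, S.s k ^ 2

structure Sys.Ok (S : Sys) : Prop where
  prob : IsProbabilityMeasure S.ν
  mem2 : MemLp id 2 S.ν
  mean : ∫ y, y ∂S.ν = 0
  var : ∫ y, y ^ 2 ∂S.ν = S.N
  npos : 0 < S.n
  spos : ∀ k, 0 < S.s k
  lin : ∀ k t, 0 < t → (S.dat k t).Lin
  char : ∀ t, 0 < t → charFun S.ν t = ∏ k, (S.dat k t).f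

/-- The Lyapunov ratio. -/
noncomputable def Sys.lam (S : Sys) : ℝ := S.B / √S.N ^ 3

noncomputable def r10 : ℝ := √10
noncomputable def pE : ℝ := (4 - r10) / 2
noncomputable def qE : ℝ := (r10 - 2) / 2
noncomputable def sE : ℝ := (3 * r10 - 9) / 2
noncomputable def dE : ℝ := r10 - 3
noncomputable def c3 : ℝ := 54 - 17 * r10
noncomputable def Cp : ℝ := (3 + r10) / 6

/-- The one-sided Berry-Esseen bound with the constant of Esseen. -/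
def Sys.Bound (S : Sys) : Prop :=
  ∀ y : ℝ, S.ν.real (Set.Iic y) - Phi (y / √S.N) ≤ Cp / √(2 * π) * S.lam

/-- Parameters of a defect functional. -/
structure JP where
  ap : ℝ
  am : ℝ
  m : ℝ
  c : ℝ
  u : ℝ
  v : ℝ

/-- The defect of one summand. -/
noncomputable def JP.J (P : JP) (s bp bm : ℝ) : ℝ :=
  P.ap * bp + P.am * bm + P.m * s + P.c * (s * √s) - max (P.u * s - P.v) 0

noncomputable def Sys.J (S : Sys) (P : JP) : ℝ := ∑ k, P.J (S.s k) (S.bp k) (S.bm k)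

/-- The normalisation of the scale. -/
def Sys.Bal (S : Sys) (P : JP) : Prop := Cp * S.B = S.N / 2 + S.K / 6 + S.J P

/-- Every summand has nonnegative defect. -/
def Sys.JPos (S : Sys) (P : JP) : Prop := ∀ k, 0 ≤ P.J (S.s k) (S.bp k) (S.bm k)

noncomputable def JI : JP :=
  ⟨(1 - c3) / 4, (1 + c3) / 4, 1 / 16, 0, 1 / 16 + 3 * sE ^ 2, sE ^ 3⟩

noncomputable def JIII : JP := ⟨(1 - c3) / 4, (1 + c3) / 4, 0, -(6 / 25), 0, 0⟩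

/-- The target in lattice units. -/
noncomputable def tgt (N K J : ℝ) : ℝ := (N / 2 + K / 6 + J) / (√(2 * π) * √N ^ 3)

/-- Two-sided bounds for the logarithm of the characteristic function at low frequencies. -/
def Low (f : ℝ → ℂ) (N K J : ℝ) : Prop :=
  ∀ t : ℝ, 0 < t → t ≤ 3 / 5 → J * t ^ 3 ≤ 1 / 10 → ∃ a w : ℝ,
    f t = Complex.exp (((-(t ^ 2 * N / 2) + a : ℝ) : ℂ) - (w : ℂ) * Complex.I) ∧
    a ≤ t ^ 4 * (-0.02248 * N + 0.020285 * K) + (0.7 + t) * (J * t ^ 3)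
      + 0.003 * t ^ 6 * N + 0.00001 * t ^ 4 * N ∧
    t ^ 4 * (-0.02248 * N + 0.020285 * K) - (0.55 + 0.5 * t) * (J * t ^ 3)
      - 0.003 * t ^ 6 * N - 0.00001 * t ^ 4 * N ≤ a ∧
    w ≤ K * t ^ 3 / 6 + t ^ 5 * (0.000214 * N + 0.014692 * K) + (0.62 + 0.5 * t ^ 2) * (J * t ^ 3)
      + 0.001 * t ^ 7 * N + 0.00001 * t ^ 5 * N ∧
    K * t ^ 3 / 6 + t ^ 5 * (0.000214 * N + 0.014692 * K) - 1.1 * (J * t ^ 3)
      - 0.001 * t ^ 7 * N - 0.00001 * t ^ 5 * N ≤ w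

/-- Bounds for the modulus at middle frequencies. -/
def Mid (f : ℝ → ℂ) (N : ℝ) : Prop :=
  (∀ t : ℝ, 0 < t → t ≤ 3 → ‖f t‖ ≤ exp (-(t ^ 2 * (1 / 2 - 0.145 * t) * N))) ∧
    ∀ t : ℝ, 3 ≤ t → t ≤ 2 * π - 3 / 5 → ‖f t‖ ≤ exp (-(0.15 * N))

/-- Bound for the modulus just below the frequency `2 π`. -/
def High (f : ℝ → ℂ) (N : ℝ) : Prop :=
  ∀ u : ℝ, 0 < u → u ≤ 3 / 5 → ‖f (2 * π - u)‖ ≤ exp (-((u ^ 2 / 2 - u ^ 4 / 60) * N))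

/-- The range of the signed third moment and of the defect. -/
def KRange (N K J : ℝ) : Prop :=
  0 ≤ J ∧ J ≤ 0.27 * N ∧ K ≤ 0.235 * N + 18 * J ∧ K ≤ 0.33 * N + 5.5 * J ∧
    K ≤ 0.46 * N + 2.3 * J ∧ K ≤ 0.9 * N ∧ 0.09 * N - 20 * J ≤ K ∧ -(0.03 * N) - 7 * J ≤ K ∧
    -(0.2 * N) - 2.6 * J ≤ K ∧ -(0.65 * N) ≤ K

/-- An entry: a bound for `log |f| + ka * arg f` (type 0), `ka * arg f` (type 1) or `-log |f|`
(type 2), for frequencies in `[tl, th]` and summands with restricted moments. -/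
structure Ent where
  ty : ℕ
  ka : ℝ
  ms : ℝ
  mt : ℝ
  mp : ℝ
  mm : ℝ
  mJ : ℝ
  mQ : ℝ
  tl : ℝ
  th : ℝ
  Sb : ℝ
  Bb : ℝ
  Jb : ℝ

noncomputable def Ent.rhs (e : Ent) (t s bp bm J Q : ℝ) : ℝ :=
  t ^ 2 * s * (e.ms + e.mt * t) + t ^ 3 * (e.mp * bp + e.mm * bm + e.mJ * J) + t ^ 4 * (e.mQ * Q)

def Ent.Cl (e : Ent) (R W E : ℝ) : Prop :=
  (e.ty = 0 → R * exp (e.ka * W) ≤ exp E) ∧ (e.ty = 1 → e.ka * W ≤ E) ∧
    (e.ty = 2 → exp (-E) ≤ R)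

/-- The restrictions; the value `0` means no restriction. -/
def Ent.Res (e : Ent) (t s b J : ℝ) : Prop :=
  (e.Sb = 0 ∨ t ^ 2 * s ≤ e.Sb) ∧ (e.Bb = 0 ∨ t ^ 3 * b ≤ e.Bb) ∧ (e.Jb = 0 ∨ t ^ 3 * J ≤ e.Jb)

def Ent.Valid (P : JP) (e : Ent) : Prop :=
  ∀ t : ℝ, 0 < t → e.tl ≤ t → t ≤ e.th → ∀ s bp bm C S : ℝ, 0 < s →
    YD.Lin ⟨t ^ 2 * s, t ^ 3 * bp, t ^ 3 * bm, C, S⟩ → 0 ≤ P.J s bp bm →
    e.Res t s (bp + bm) (P.J s bp bm) →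
    e.Cl ‖YD.f ⟨t ^ 2 * s, t ^ 3 * bp, t ^ 3 * bm, C, S⟩‖
      (Complex.arg (YD.f ⟨t ^ 2 * s, t ^ 3 * bp, t ^ 3 * bm, C, S⟩))
      (e.rhs t s bp bm (P.J s bp bm) (s ^ 2))

/-- The argument of the characteristic function of the sum. -/
noncomputable def Sys.W (S : Sys) (t : ℝ) : ℝ := ∑ k, Complex.arg (S.dat k t).f

/-- The bound holds for balanced systems with Lyapunov ratio in `[l0, l1]` on a cell. -/
def Cov (P : JP) (l0 l1 N0 N1 k0 k1 j0 j1 q0 q1 : ℝ) : Prop :=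
  ∀ S : Sys, S.Ok → S.JPos P → S.Bal P → l0 ≤ S.lam → S.lam ≤ l1 → N0 ≤ S.N → S.N ≤ N1 →
    k0 * S.N ≤ S.K → S.K ≤ k1 * S.N → j0 * S.N ≤ S.J P → S.J P ≤ j1 * S.N →
    q0 * S.N ≤ S.Q → S.Q ≤ q1 * S.N → S.Bound

end Pool.Agent.Lib.MP_33650d_pr.X
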