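import Pool.Agent.Lib.MP_33650d_pr.X.ESide
import Pool.Agent.Lib.MP_33650d_pr.X.Basic

namespace Pool.Agent.Lib.MP_33650d_pr.X.E
open Real

theorem ectx_fd (x i : ℕ) : (fd x i : ℝ) ≤ 2 ^ 48 := by
  have h : fd x i < 281474976710656 := by
    unfold fd
    rw [nmod_eq]
    exact Nat.mod_lt _ (by norm_num)
  have h' : (fd x i : ℝ) ≤ (281474976710656 : ℕ) := by exact_mod_cast h.le
  push_cast at h'
  linarith

theorem ectx_ble0 {w : ℕ} (h : w ≠ 0) : Nat.ble w 0 = false := by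
  cases w with
  | zero => exact absurd rfl h
  | succ n => rfl

theorem ectx_w0_zero (a : ℕ) : w0 0 a = a := rfl
theorem ectx_w1_zero (a : ℕ) : w1 0 a = 0 := rfl

theorem ectx_w0_ne {w : ℕ} (h : w ≠ 0) (a : ℕ) : w0 w a = 0 := by
  rw [w0, ectx_ble0 h, ite'_false]

theorem ectx_w1_ne {w : ℕ} (h : w ≠ 0) (a : ℕ) : w1 w a = a := by
  rw [w1, ectx_ble0 h, ite'_false]

theorem ectx_w0_le (w a : ℕ) : (w0 w a : ℝ) ≤ a := by
  rcases eq_or_ne w 0 with rfl | h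
  · rw [ectx_w0_zero]
  · rw [ectx_w0_ne h]; push_cast; positivity

theorem ectx_sub_pos {a b : ℕ} (h : 0 < Nat.sub a b) : ((Nat.sub a b : ℕ) : ℝ) = a - b := by
  rw [Nat.sub_eq] at h
  exact cast_nsub (by exact_mod_cast (by omega : b ≤ a))

theorem ectx_shr_pos {a k : ℕ} (h : 0 < Nat.shiftRight a k) : 0 < a := by
  rw [nshr_eq] at h
  rcases Nat.eq_zero_or_pos a with rfl | h'
  · simp at h
  · exact h'

theorem ectx_sub_zero {a b : ℕ} (h : a ≤ b) : Nat.sub a b = 0 := by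
  rw [Nat.sub_eq, Nat.sub_eq_zero_of_le h]

theorem ectx_sub_le (a b : ℕ) : ((Nat.sub a b : ℕ) : ℝ) ≤ a := by
  rw [Nat.sub_eq]
  exact_mod_cast Nat.sub_le a b

theorem ectx_add_zero {a b : ℕ} (h : Nat.ble (Nat.add a b) 0 = true) : a = 0 ∧ b = 0 := by
  have := Nat.le_of_ble_eq_true h
  rw [Nat.add_eq] at this
  omega

theorem ectx_ap : (208555426816 : ℝ) / 2 ^ 40 ≤ (1 - c3) / 4 ∧
    (1 - c3) / 4 ≤ (208555426817 : ℝ) / 2 ^ 40 := by
  unfold c3; constructor <;> linarith [r10_lo, r10_hi]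

theorem ectx_am : (341200387071 : ℝ) / 2 ^ 40 ≤ (1 + c3) / 4 ∧
    (1 + c3) / 4 ≤ (341200387072 : ℝ) / 2 ^ 40 := by
  unfold c3; constructor <;> linarith [r10_lo, r10_hi]

theorem ectx_r10 : 3.162277660168379 < r10 := lt_sqrt_of_sq_lt (by norm_num)

theorem ectx_s2 : (195443429009 : ℝ) / 2 ^ 40 ≤ 3 * sE ^ 2 ∧
    3 * sE ^ 2 ≤ (195443429010 : ℝ) / 2 ^ 40 := by
  have e : 3 * sE ^ 2 = 3 * (171 - 54 * r10) / 4 := by
    unfold sE; linear_combination (27 / 4) * r10_sq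
  rw [e]; constructor <;> linarith [ectx_r10, r10_hi]

theorem ectx_s3 : (15858051177 : ℝ) / 2 ^ 40 ≤ sE ^ 3 ∧
    sE ^ 3 ≤ (15858051178 : ℝ) / 2 ^ 40 := by
  have e : sE ^ 3 = (999 * r10 - 3159) / 8 := by
    unfold sE; linear_combination (27 / 8 * r10 - 243 / 8) * r10_sq
  rw [e]; constructor <;> linarith [ectx_r10, r10_hi]

seal Nat.shiftRight Nat.shiftLeft Nat.mod Nat.sub Nat.add Nat.mul

theorem ectx_mu (q : ℕ) : (muP q : ℝ) - muN q = qM q - 2 ^ 47 := by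
  refine (cast_sub_sub (qM q) 140737488355328).trans ?_
  push_cast; ring

theorem ectx_mQ (y : ℕ) : (mQP y : ℝ) - mQN y = fd y 7 - 2 ^ 47 := by
  refine (cast_sub_sub (fd y 7) 140737488355328).trans ?_
  push_cast; ring

theorem ectx_muN (q : ℕ) : (muN q : ℝ) ≤ 2 ^ 47 := by
  have := ectx_sub_le 140737488355328 (qM q)
  push_cast at this
  unfold muN
  linarith

theorem ectx_muP {q : ℕ} (h : (qM q : ℝ) ≤ 2 ^ 48) : (muP q : ℝ) ≤ 2 ^ 47 := by
  unfold muP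
  rcases le_total (qM q) 140737488355328 with a | a
  · rw [ectx_sub_zero a]; push_cast; positivity
  · rw [cast_nsub (by exact_mod_cast a)]; push_cast; linarith

theorem ectx_nF_lt (w q m lo hi : ℕ) : nF w q m lo hi < 2 ^ 32 := by
  unfold nF
  rw [mn_eq]
  exact lt_of_le_of_lt (min_le_left _ _) (by norm_num)

theorem ectx_nF {w q m lo hi : ℕ} {a : ℝ} (h : Nat.ble (nNeg w q hi) (nPos q m lo) = true)
    (h1 : (lo : ℝ) / 2 ^ 40 ≤ a) (h2 : a ≤ (hi : ℝ) / 2 ^ 40) :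
    cv (nF w q m lo hi) ≤ sv m + (qX q : ℝ) / 2 ^ 24 + ((muP q : ℝ) - muN q) / 2 ^ 40 * a
      - (wC w q : ℝ) / 2 ^ 40 := by
  obtain ⟨N, hN⟩ : ∃ N, N = Nat.shiftRight (Nat.sub (nPos q m lo) (nNeg w q hi)) 56 := ⟨_, rfl⟩
  have b0 : nF w q m lo hi ≤ N := by
    rw [nF, mn_eq, ← hN]
    exact min_le_right _ _
  have b1 : (nF w q m lo hi : ℝ) ≤ N := Nat.cast_le.2 b0
  have b2 := cast_shr_le (Nat.sub (nPos q m lo) (nNeg w q hi)) 56
  rw [cast_nsub (ble_cast h), ← hN] at b2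
  unfold nPos nNeg at b2
  simp only [cast_nadd, cast_nmul, cast_shl] at b2
  have p1 := mul_le_mul_of_nonneg_left h1 (Nat.cast_nonneg (α := ℝ) (muP q))
  have p2 := mul_le_mul_of_nonneg_left h2 (Nat.cast_nonneg (α := ℝ) (muN q))
  unfold cv sv
  clear b0 hN h
  linarith

theorem ectx_alG {y a b : ℕ} {t : ℝ} (hb : (b : ℝ) ≤ 2 ^ 88)
    (h1 : (fd y 8 : ℝ) / 2 ^ 40 ≤ t) (h2 : t ≤ (fd y 9 : ℝ) / 2 ^ 40) :
    ((alG y a b : ℝ) - 2 ^ 47 - 2 ^ 56) / 2 ^ 40 ≤ sv (fd y 2) + ((a : ℝ) - b) / 2 ^ 80 * t := by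
  have e := cast_sub_sub a b
  have u1 := (ectx_sub_le b a).trans hb
  have u2 := mul_le_mul u1 (ectx_fd y 9) (Nat.cast_nonneg _) (by positivity)
  have p1 := mul_le_mul_of_nonneg_left h1 (Nat.cast_nonneg (α := ℝ) (Nat.sub a b))
  have p2 := mul_le_mul_of_nonneg_left h2 (Nat.cast_nonneg (α := ℝ) (Nat.sub b a))
  have n1 : (0 : ℝ) ≤ (fd y 2 : ℝ) := Nat.cast_nonneg _
  have n2 : (0 : ℝ) ≤ ((Nat.sub a b : ℕ) : ℝ) * (fd y 8 : ℝ) := by positivity
  have b2 := cast_shr_le (Nat.sub (Nat.add (Nat.add (Nat.shiftLeft (fd y 2) 80)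
    87112285931760246646623899502532662132736) (Nat.mul (Nat.sub a b) (fd y 8)))
    (Nat.mul (Nat.sub b a) (fd y 9))) 80
  rw [cast_nsub (by
    simp only [cast_nadd, cast_nmul, cast_shl]
    push_cast
    linarith)] at b2
  simp only [cast_nadd, cast_nmul, cast_shl] at b2
  push_cast at b2
  unfold sv alG
  rw [← e]
  generalize ((Nat.shiftRight _ 80 : ℕ) : ℝ) = N at *
  generalize ((Nat.sub a b : ℕ) : ℝ) = P at *
  generalize ((Nat.sub b a : ℕ) : ℝ) = M at *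
  linarith

theorem ectx_alA0 {y q : ℕ} {t : ℝ}
    (h1 : (fd y 8 : ℝ) / 2 ^ 40 ≤ t) (h2 : t ≤ (fd y 9 : ℝ) / 2 ^ 40) :
    ((alA 0 y q : ℝ) - 2 ^ 47 - 2 ^ 56) / 2 ^ 40 ≤
      sv (fd y 2) + sv (fd y 3) * t + ((muP q : ℝ) - muN q) / 2 ^ 40 * (t / 16) := by
  have u := ectx_muN q
  unfold alA
  refine (ectx_alG ?_ h1 h2).trans (le_of_eq ?_)
  · simp only [ectx_w0_zero, cast_nadd, cast_nmul]
    push_cast
    linarith
  · simp only [ectx_w0_zero, cast_nadd, cast_nmul, cast_shl, sv]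
    push_cast
    ring

theorem ectx_alB0 {y q : ℕ} {t : ℝ} (hq : (qM q : ℝ) ≤ 2 ^ 48) (ht : 0 ≤ t)
    (h1 : (fd y 8 : ℝ) / 2 ^ 40 ≤ t) (h2 : t ≤ (fd y 9 : ℝ) / 2 ^ 40) :
    ((alB 0 y q : ℝ) - 2 ^ 47 - 2 ^ 56) / 2 ^ 40 ≤
      sv (fd y 2) + sv (fd y 3) * t + ((muP q : ℝ) - muN q) / 2 ^ 40 * (-(3 * sE ^ 2) * t) := by
  have u := ectx_muP hq
  have p1 := mul_le_mul_of_nonneg_left ectx_s2.1
    (mul_nonneg (Nat.cast_nonneg (α := ℝ) (muN q)) ht)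
  have p2 := mul_le_mul_of_nonneg_left ectx_s2.2
    (mul_nonneg (Nat.cast_nonneg (α := ℝ) (muP q)) ht)
  unfold alB
  refine (ectx_alG ?_ h1 h2).trans ?_
  · simp only [ectx_w0_zero, cast_nadd, cast_nmul]
    push_cast
    linarith
  · simp only [ectx_w0_zero, cast_nadd, cast_nmul, cast_shl, sv]
    push_cast
    generalize 3 * sE ^ 2 = z at *
    linarith

theorem ectx_al1 {w y q : ℕ} {t : ℝ} (hw : w ≠ 0)
    (h1 : (fd y 8 : ℝ) / 2 ^ 40 ≤ t) (h2 : t ≤ (fd y 9 : ℝ) / 2 ^ 40) :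
    ((alA w y q : ℝ) - 2 ^ 47 - 2 ^ 56) / 2 ^ 40 ≤ sv (fd y 2) + sv (fd y 3) * t ∧
      ((alB w y q : ℝ) - 2 ^ 47 - 2 ^ 56) / 2 ^ 40 ≤ sv (fd y 2) + sv (fd y 3) * t := by
  unfold alA alB
  constructor
  all_goals
    refine (ectx_alG ?_ h1 h2).trans (le_of_eq ?_)
    · simp only [ectx_w0_ne hw, cast_nadd, cast_nmul]
      push_cast
      linarith
    · simp only [ectx_w0_ne hw, cast_nadd, cast_nmul, cast_shl, sv]
      push_cast
      ring

theorem ectx_pay (y q : ℕ) : (pay y q : ℝ) / 2 ^ 76 =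
    ((Nat.sub (qM q) (fd y 6) : ℕ) : ℝ) / 2 ^ 40 * ((fd y 12 : ℝ) / 2 ^ 32)
      + (qX q : ℝ) / 2 ^ 24 * ((fd y 11 : ℝ) / 2 ^ 32) := by
  unfold pay
  simp only [cast_nadd, cast_nmul, cast_shl]
  ring

theorem ectx_gaA {w y q : ℕ}
    (h : Nat.ble (Nat.add (pay y q) (gNeg w y q)) 79228162514264337593543950336 = true) :
    ((gaA y q : ℝ) - 2 ^ 96) / 2 ^ 76 = -((pay y q : ℝ) / 2 ^ 76) ∧
      (gNeg w y q : ℝ) ≤ gaA y q := by
  have a := ble_cast h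
  rw [cast_nadd] at a
  have n : (0 : ℝ) ≤ (gNeg w y q : ℝ) := Nat.cast_nonneg _
  have e : (gaA y q : ℝ) = (79228162514264337593543950336 : ℕ) - (pay y q : ℝ) :=
    cast_nsub (by linarith)
  rw [e]
  generalize (pay y q : ℝ) = A at *
  generalize (gNeg w y q : ℝ) = B at *
  push_cast at a ⊢
  constructor
  · ring
  · linarith

theorem ectx_gaB0 {y q : ℕ} {t : ℝ}
    (h : Nat.ble (Nat.add (pay y q) (gNeg 0 y q)) 79228162514264337593543950336 = true)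
    (ht : 0 ≤ t) (h1 : (fd y 8 : ℝ) / 2 ^ 40 ≤ t) (h2 : t ≤ (fd y 9 : ℝ) / 2 ^ 40) :
    ((gaB 0 y q : ℝ) - 2 ^ 96) / 2 ^ 76 ≤ -((pay y q : ℝ) / 2 ^ 76)
      + ((muP q : ℝ) - muN q) / 2 ^ 40 * (sE ^ 3 * t ^ 3) := by
  obtain ⟨a1, a2⟩ := ectx_gaA h
  have b1 := cast_shr_le (Nat.mul (Nat.mul (muP q) 15858051177) (cube (fd y 8))) 124
  have b2 := cast_shr_ge (Nat.mul (Nat.mul (muN q) 15858051178) (cube (fd y 9))) 124
  have c1 := mul_le_mul ectx_s3.1 (pow_le_pow_left₀ (by positivity) h1 3) (by positivity)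
    (pow_pos basic_sE_pos 3).le
  have c2 := mul_le_mul ectx_s3.2 (pow_le_pow_left₀ ht h2 3) (by positivity) (by positivity)
  have p1 := mul_le_mul_of_nonneg_left c1 (Nat.cast_nonneg (α := ℝ) (muP q))
  have p2 := mul_le_mul_of_nonneg_left c2 (Nat.cast_nonneg (α := ℝ) (muN q))
  have n : (0 : ℝ) ≤ ((Nat.shiftRight (Nat.mul (Nat.mul (muP q) 15858051177)
    (cube (fd y 8))) 124 : ℕ) : ℝ) := Nat.cast_nonneg _
  unfold gaB
  rw [cast_nsub (by rw [ectx_w0_zero, cast_nadd]; linarith), ectx_w0_zero, cast_nadd]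
  unfold gNeg
  rw [ectx_w0_zero, cast_nadd]
  generalize ((Nat.shiftRight (Nat.mul (Nat.mul (muP q) 15858051177)
    (cube (fd y 8))) 124 : ℕ) : ℝ) = A at *
  generalize ((Nat.shiftRight (Nat.mul (Nat.mul (muN q) 15858051178)
    (cube (fd y 9))) 124 : ℕ) : ℝ) = B at *
  simp only [cube, cast_nmul] at b1 b2
  push_cast at b1 b2 ⊢
  generalize sE ^ 3 * t ^ 3 = z at *
  clear c1 c2 a2 h
  linarith

theorem ectx_gaB1 {w : ℕ} (hw : w ≠ 0) (y q : ℕ) : (gaB w y q : ℝ) = gaA y q := by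
  unfold gaB gNeg
  rw [ectx_w0_ne hw, ectx_w0_ne hw, cast_nsub (by push_cast; positivity), cast_nadd]
  push_cast
  ring

theorem ectx_w {w : ℕ} (hw : w ≠ 0) (q : ℕ) :
    (wP w q : ℝ) - wN w q - wC w q ≤ ((muP q : ℝ) - muN q) * (-(6 / 25)) := by
  have a : (wP w q : ℝ) ≤ 6 / 25 * muN q := by
    unfold wP
    rw [ectx_w1_ne hw, ndiv_eq]
    refine Nat.cast_div_le.trans (le_of_eq ?_)
    rw [cast_nmul]
    push_cast
    ring
  have b : 6 / 25 * (muP q : ℝ) ≤ wUp q := by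
    unfold wUp
    rw [ndiv_eq, Nat.add_eq, Nat.mul_eq]
    have : 6 * muP q ≤ 25 * ((6 * muP q + 24) / 25) := by omega
    have : (6 * muP q : ℝ) ≤ 25 * (((6 * muP q + 24) / 25 : ℕ) : ℝ) := by exact_mod_cast this
    linarith
  have c : (wN w q : ℝ) + wC w q = wUp q := by
    unfold wN wC
    rw [ectx_w1_ne hw, ectx_w1_ne hw]
    cases Nat.ble (Nat.mod q 2) 0
    · rw [ite'_false, ite'_false]; push_cast; ring
    · rw [ite'_true, ite'_true]; push_cast; ring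
  linarith

/-- The slope and the constant term coded by two natural numbers. -/
noncomputable def ectxA (al : ℕ) : ℝ := ((al : ℝ) - 2 ^ 47 - 2 ^ 56) / 2 ^ 40
noncomputable def ectxG (ga : ℕ) : ℝ := ((ga : ℝ) - 2 ^ 96) / 2 ^ 76

/-- The lower bound as a function of the variance. -/
noncomputable def ectxF (w y q al ga : ℕ) (σ : ℝ) : ℝ :=
  ectxA al * σ + ectxG ga + ((wP w q : ℝ) / 2 ^ 40 - (wN w q : ℝ) / 2 ^ 40) * (σ * √σ)
    + ((mQP y : ℝ) / 2 ^ 40 - (mQN y : ℝ) / 2 ^ 40) * σ ^ 2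

theorem ectx_base {w y q : ℕ} (hq : ctxOK w y q = true) {P : JP} {t s bp bm C S : ℝ}
    (ha : Adm P (dec y) t s bp bm C S) (h1 : P.ap = (1 - c3) / 4) (h2 : P.am = (1 + c3) / 4) :
    cv (nP w y q) * (t ^ 3 * bp) + cv (nM w y q) * (t ^ 3 * bm)
      + (sv (fd y 2) + sv (fd y 3) * t) * (t ^ 2 * s) - (pay y q : ℝ) / 2 ^ 76
      + ((muP q : ℝ) - muN q) / 2 ^ 40
        * (t ^ 3 * (P.m * s + P.c * (s * √s) - max (P.u * s - P.v) 0))
      + (wC w q : ℝ) / 2 ^ 40 * (t ^ 2 * s * √(t ^ 2 * s))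
      + ((mQP y : ℝ) / 2 ^ 40 - (mQN y : ℝ) / 2 ^ 40) * (t ^ 2 * s) ^ 2
      ≤ Rhs P (dec y) t s bp bm := by
  simp only [ctxOK, band_eq, bor_eq] at hq
  obtain ⟨q1, q2, -, -, q5, q6⟩ := hq
  have n1 := ectx_nF q5 (a := (1 - c3) / 4) (by exact_mod_cast ectx_ap.1)
    (by exact_mod_cast ectx_ap.2)
  have n2 := ectx_nF q6 (a := (1 + c3) / 4) (by exact_mod_cast ectx_am.1)
    (by exact_mod_cast ectx_am.2)
  obtain ⟨-, b1, b2⟩ := ha.lin.nonneg
  have b3 := ha.lin.cube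
  dsimp only [yd] at b1 b2 b3
  have m1 := mul_le_mul_of_nonneg_right n1 b1
  have m2 := mul_le_mul_of_nonneg_right n2 b2
  have m3 := mul_le_mul_of_nonneg_left b3
    (show (0 : ℝ) ≤ (wC w q : ℝ) / 2 ^ 40 by positivity)
  obtain ⟨-, r2, r3⟩ := ha.res
  dsimp only [dec] at r2 r3
  have j0 : 0 ≤ t ^ 3 * P.J s bp bm := mul_nonneg (pow_pos ha.t0 3).le ha.jp
  have x1 : (qX q : ℝ) / 2 ^ 24 * (t ^ 3 * (bp + bm)) ≤
      (qX q : ℝ) / 2 ^ 24 * ((fd y 11 : ℝ) / 2 ^ 32) := by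
    rcases q2 with a | a
    · rw [Nat.le_zero.1 (Nat.le_of_ble_eq_true a)]; simp
    · have a' := ble_cast a
      rcases r2 with r | r
      · push_cast at a'; linarith
      · exact mul_le_mul_of_nonneg_left r (by positivity)
  have x2 : ((Nat.sub (qM q) (fd y 6) : ℕ) : ℝ) / 2 ^ 40 * (t ^ 3 * P.J s bp bm) ≤
      ((Nat.sub (qM q) (fd y 6) : ℕ) : ℝ) / 2 ^ 40 * ((fd y 12 : ℝ) / 2 ^ 32) := by
    rcases q1 with a | a
    · rw [ectx_sub_zero (Nat.le_of_ble_eq_true a)]; simp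
    · have a' := ble_cast a
      rcases r3 with r | r
      · push_cast at a'; linarith
      · exact mul_le_mul_of_nonneg_left r (by positivity)
  have x3 := mul_le_mul_of_nonneg_right (cast_nsub_ge (qM q) (fd y 6)) j0
  have e1 := ectx_mu q
  have e2 := ectx_mQ y
  have e3 : P.m * s + P.c * (s * √s) - max (P.u * s - P.v) 0
      = P.J s bp bm - (1 - c3) / 4 * bp - (1 + c3) / 4 * bm := by
    rw [JP.J, h1, h2]; ring
  rw [ectx_pay, e3, e1, ← sub_div, e2]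
  rw [e1] at m1 m2
  unfold Rhs Ent.rhs nP nM
  dsimp only [dec]
  generalize P.J s bp bm = J at *
  generalize cv (nF w q (fd y 4) 208555426816 208555426817) = np at *
  generalize cv (nF w q (fd y 5) 341200387071 341200387072) = nm at *
  generalize ((Nat.sub (qM q) (fd y 6) : ℕ) : ℝ) = D at *
  generalize t ^ 2 * s * √(t ^ 2 * s) = U at *
  unfold sv at *
  clear n1 n2 e1 e2 e3 q1 q2 q5 q6 r2 r3
  linarith

theorem ectx_lb {w y q : ℕ} (hq : ctxOK w y q = true) {t s bp bm C S : ℝ}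
    (ha : Adm (PW w) (dec y) t s bp bm C S) {X : ℝ}
    (hX : X = Rhs (PW w) (dec y) t s bp bm - cv (nP w y q) * (t ^ 3 * bp)
      - cv (nM w y q) * (t ^ 3 * bm)) :
    (ectxF w y q (alA w y q) (gaA y q) (t ^ 2 * s) ≤ X ∨
      ectxF w y q (alB w y q) (gaB w y q) (t ^ 2 * s) ≤ X) ∧
    (muP q = 0 → ectxF w y q (alA w y q) (gaA y q) (t ^ 2 * s) ≤ X ∧
      ectxF w y q (alB w y q) (gaB w y q) (t ^ 2 * s) ≤ X) := by
  have hb := ectx_base hq ha (by unfold PW; split_ifs <;> rfl) (by unfold PW; split_ifs <;> rfl)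
  simp only [ctxOK, band_eq] at hq
  obtain ⟨-, -, q3, q4, -, -⟩ := hq
  have q3' : (qM q : ℝ) ≤ 2 ^ 48 := by
    have := ble_cast q3
    push_cast at this
    linarith
  have t0 := ha.t0
  have tl : (fd y 8 : ℝ) / 2 ^ 40 ≤ t := ha.tl
  have th : t ≤ (fd y 9 : ℝ) / 2 ^ 40 := ha.th
  have s0 : 0 ≤ t ^ 2 * s := mul_nonneg (sq_nonneg t) ha.s0.le
  have t3 := (pow_pos t0 3).le
  obtain ⟨g1, -⟩ := ectx_gaA q4
  generalize Rhs (PW w) (dec y) t s bp bm = R at *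
  unfold ectxF ectxA ectxG
  generalize ((mQP y : ℝ) / 2 ^ 40 - (mQN y : ℝ) / 2 ^ 40) * (t ^ 2 * s) ^ 2 = Q at *
  rcases eq_or_ne w 0 with rfl | hw
  · have a1 := mul_le_mul_of_nonneg_right (ectx_alA0 (q := q) tl th) s0
    have a2 := mul_le_mul_of_nonneg_right (ectx_alB0 q3' t0.le tl th) s0
    have g2 := ectx_gaB0 q4 t0.le tl th
    simp only [PW, if_true, JI, wC, ectx_w1_zero] at hb
    simp only [wP, wN, ectx_w1_zero]
    rw [g1]
    generalize ((alA 0 y q : ℝ) - 2 ^ 47 - 2 ^ 56) / 2 ^ 40 = A at *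
    generalize ((alB 0 y q : ℝ) - 2 ^ 47 - 2 ^ 56) / 2 ^ 40 = B at *
    generalize ((gaB 0 y q : ℝ) - 2 ^ 96) / 2 ^ 76 = G at *
    push_cast at hb ⊢
    refine ⟨?_, fun h => ?_⟩
    · rcases le_total ((1 / 16 + 3 * sE ^ 2) * s - sE ^ 3) 0 with c | c
      · rw [max_eq_right c] at hb
        left
        linarith
      · rw [max_eq_left c] at hb
        right
        linarith
    · rw [h] at hb a1 a2 g2
      have n : (0 : ℝ) ≤ (muN q : ℝ) * t ^ 3 := by positivity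
      have c1 := mul_le_mul_of_nonneg_left
        (le_max_right ((1 / 16 + 3 * sE ^ 2) * s - sE ^ 3) 0) n
      have c2 := mul_le_mul_of_nonneg_left
        (le_max_left ((1 / 16 + 3 * sE ^ 2) * s - sE ^ 3) 0) n
      generalize max ((1 / 16 + 3 * sE ^ 2) * s - sE ^ 3) 0 = M at *
      push_cast at hb a1 a2 g2
      constructor <;> linarith
  · obtain ⟨a1, a2⟩ := ectx_al1 (q := q) hw tl th
    have a1 := mul_le_mul_of_nonneg_right a1 s0
    have a2 := mul_le_mul_of_nonneg_right a2 s0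
    have e : t ^ 2 * s * √(t ^ 2 * s) = t ^ 3 * (s * √s) := by
      rw [sqrt_mul (sq_nonneg t), sqrt_sq t0.le]; ring
    have u0 : 0 ≤ t ^ 3 * (s * √s) := mul_nonneg t3 (mul_nonneg ha.s0.le (sqrt_nonneg s))
    have c := mul_le_mul_of_nonneg_right (ectx_w hw q) u0
    simp only [PW, if_neg hw, JIII, zero_mul, sub_self, max_self] at hb
    rw [e] at hb
    rw [ectx_gaB1 hw, g1, e]
    generalize ((alA w y q : ℝ) - 2 ^ 47 - 2 ^ 56) / 2 ^ 40 = A at *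
    generalize ((alB w y q : ℝ) - 2 ^ 47 - 2 ^ 56) / 2 ^ 40 = B at *
    generalize s * √s = U at *
    have f1 : A * (t ^ 2 * s) + -((pay y q : ℝ) / 2 ^ 76)
        + ((wP w q : ℝ) / 2 ^ 40 - (wN w q : ℝ) / 2 ^ 40) * (t ^ 3 * U) + Q ≤ X := by linarith
    have f2 : B * (t ^ 2 * s) + -((pay y q : ℝ) / 2 ^ 76)
        + ((wP w q : ℝ) / 2 ^ 40 - (wN w q : ℝ) / 2 ^ 40) * (t ^ 3 * U) + Q ≤ X := by linarith
    exact ⟨Or.inl f1, fun _ => ⟨f1, f2⟩⟩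

theorem ectx_vN_le (w y q ρ r : ℕ) : vN w y q ρ r ≤ 2 ^ 97 := by
  unfold vN
  rw [mn_eq]
  exact (min_le_left _ _).trans (by norm_num)

theorem ectx_vN {w y q ρ r al ga m u : ℕ} (hu : 0 < u)
    (h : u ≤ Nat.sub (vN w y q ρ r) (Nat.mul m (sgA r)))
    (hs : selB w y q ρ (lnA w y q r) (lnB w y q r) ≤
      Nat.add (Nat.shiftLeft (Nat.mul al (sq r)) 4) ga) :
    ((u : ℝ) / 2 ^ 76 - 2 ^ 20) + cv m * ((r : ℝ) / 2 ^ 16) ^ 2 ≤
      ectxA al * ((r : ℝ) / 2 ^ 16) ^ 2 + ectxG ga + (wP w q : ℝ) / 2 ^ 40 *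
        (3 / 2 * ((ρ : ℝ) / 2 ^ 16) * ((r : ℝ) / 2 ^ 16) ^ 2 - ((ρ : ℝ) / 2 ^ 16) ^ 3 / 2)
      - (wN w q : ℝ) / 2 ^ 40 * ((r : ℝ) / 2 ^ 16) ^ 3
      + (mQP y : ℝ) / 2 ^ 40 * (2 * ((ρ : ℝ) / 2 ^ 16) ^ 2 * ((r : ℝ) / 2 ^ 16) ^ 2
        - ((ρ : ℝ) / 2 ^ 16) ^ 4) - (mQN y : ℝ) / 2 ^ 40 * ((r : ℝ) / 2 ^ 16) ^ 4 := by
  have a1 : (u : ℝ) ≤ ((Nat.sub (vN w y q ρ r) (Nat.mul m (sgA r)) : ℕ) : ℝ) := by
    exact_mod_cast h
  have a0 := a1.trans (ectx_sub_le _ _)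
  rw [ectx_sub_pos (hu.trans_le h)] at a1
  have a2 : 0 < vN w y q ρ r := hu.trans_le (by exact_mod_cast a0)
  obtain ⟨A, B, e, eA, eB⟩ : ∃ A B : ℕ, vN w y q ρ r = mn 158456325028528675187087900672
      (Nat.shiftRight (Nat.sub A B) 28) ∧ A = _ ∧ B = _ := ⟨_, _, rfl, rfl, rfl⟩
  rw [e, mn_eq] at a1 a2
  have a3 := a2.trans_le (min_le_right _ _)
  have a4 : ((min 158456325028528675187087900672 (Nat.shiftRight (Nat.sub A B) 28) : ℕ) : ℝ)
      ≤ ((Nat.shiftRight (Nat.sub A B) 28 : ℕ) : ℝ) := by exact_mod_cast min_le_right _ _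
  have a5 := cast_shr_le (Nat.sub A B) 28
  rw [ectx_sub_pos (ectx_shr_pos a3)] at a5
  have a6 := a4.trans a5
  have a7 : ((selB w y q ρ (lnA w y q r) (lnB w y q r) : ℕ) : ℝ) ≤
      ((Nat.add (Nat.shiftLeft (Nat.mul al (sq r)) 4) ga : ℕ) : ℝ) := by exact_mod_cast hs
  generalize ((min 158456325028528675187087900672 (Nat.shiftRight (Nat.sub A B) 28) : ℕ) : ℝ)
    = V at *
  rw [eA, eB] at a6
  clear a4 a5 a3 a2 e eA eB a0 h hs
  unfold sgA at a1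
  simp only [sq, cube, cast_nadd, cast_nmul, cast_shl] at a1 a6 a7
  generalize ((selB w y q ρ (lnA w y q r) (lnB w y q r) : ℕ) : ℝ) = L at *
  push_cast at a6
  unfold cv ectxA ectxG
  linarith

theorem ectx_vT {w y q ρ al m u : ℕ} (hu : 0 < u)
    (h : u ≤ Nat.sub (vT w y q ρ) (Nat.mul m 1329227995784915872903807060280344576))
    (hs : selB w y q ρ (alA w y q) (alB w y q) ≤ al) :
    wN w q = 0 ∧ mQN y = 0 ∧ cv m ≤ ectxA al + (wP w q : ℝ) / 2 ^ 40 * (3 / 2 * ((ρ : ℝ) / 2 ^ 16))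
      + (mQP y : ℝ) / 2 ^ 40 * (2 * ((ρ : ℝ) / 2 ^ 16) ^ 2) := by
  have a1 : (u : ℝ) ≤ ((Nat.sub (vT w y q ρ)
      (Nat.mul m 1329227995784915872903807060280344576) : ℕ) : ℝ) := by exact_mod_cast h
  rw [ectx_sub_pos (hu.trans_le h), cast_nmul] at a1
  have u0 : (0 : ℝ) < u := by exact_mod_cast hu
  have m0 : (0 : ℝ) ≤ m := Nat.cast_nonneg _
  obtain ⟨A, e, eA⟩ : ∃ A : ℕ, vT w y q ρ = ite' (Nat.ble (Nat.add (wN w q) (mQN y)) 0)
      (Nat.shiftLeft (Nat.shiftRight (Nat.sub A 309485009821345068724781056) 48) 120) 0 ∧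
      A = _ := ⟨_, rfl, rfl⟩
  rw [e] at a1
  cases hz : Nat.ble (Nat.add (wN w q) (mQN y)) 0
  · rw [hz, ite'_false] at a1
    push_cast at a1
    linarith
  obtain ⟨z1, z2⟩ := ectx_add_zero hz
  refine ⟨z1, z2, ?_⟩
  rw [hz, ite'_true, cast_shl] at a1
  have a5 := cast_shr_le (Nat.sub A 309485009821345068724781056) 48
  have a3 : 0 < Nat.shiftRight (Nat.sub A 309485009821345068724781056) 48 := by
    have : (0 : ℝ) < ((Nat.shiftRight (Nat.sub A 309485009821345068724781056) 48 : ℕ) : ℝ) := by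
      push_cast at a1
      linarith
    exact_mod_cast this
  rw [ectx_sub_pos (ectx_shr_pos a3)] at a5
  generalize ((Nat.shiftRight (Nat.sub A 309485009821345068724781056) 48 : ℕ) : ℝ) = V at *
  rw [eA] at a5
  have a7 : ((selB w y q ρ (alA w y q) (alB w y q) : ℕ) : ℝ) ≤ al := by exact_mod_cast hs
  clear a3 e eA h hs
  simp only [sq, cast_nadd, cast_nmul, cast_shl] at a5
  generalize ((selB w y q ρ (alA w y q) (alB w y q) : ℕ) : ℝ) = L at *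
  push_cast at a1 a5
  unfold cv ectxA
  linarith

theorem ectx_node {w y q r0 r1 al ga m u : ℕ} (hu : 0 < u)
    (h0 : u ≤ Nat.sub (vA w y q r0 r1) (Nat.mul m (sgA r0)))
    (h1 : u ≤ Nat.sub (vB w y q r0 r1) (Nat.mul m (sgB r1)))
    (hs : ∀ r, selB w y q (rho r0 r1) (lnA w y q r) (lnB w y q r) ≤
      Nat.add (Nat.shiftLeft (Nat.mul al (sq r)) 4) ga)
    (ht : selB w y q (rho r0 r1) (alA w y q) (alB w y q) ≤ al) {σ : ℝ} (hr : InR r0 r1 σ) :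
    ((u : ℝ) / 2 ^ 76 - 2 ^ 20) + cv m * σ ≤ ectxF w y q al ga σ := by
  rw [vA, force_eq] at h0
  rw [vB, force_eq, sgB] at h1
  have n0 := ectx_vN hu h0 (hs r0)
  unfold ectxF
  rcases eq_or_ne r1 0 with rfl | hr1
  · rw [show Nat.ble 0 0 = true from rfl, ite'_true, ite'_true] at h1
    obtain ⟨z1, z2, n1⟩ := ectx_vT hu h1 ht
    rw [z1, z2] at n0 ⊢
    have := p2_tail (r0 := (r0 : ℝ) / 2 ^ 16) (σ := σ) (κ := (u : ℝ) / 2 ^ 76 - 2 ^ 20)
      (γ := ectxG ga) (by positivity) (by positivity) (by positivity) hr.1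
      (by push_cast at n0; linarith) n1
    push_cast
    linarith
  · rw [ectx_ble0 hr1, ite'_false, ite'_false] at h1
    exact p2_line (by positivity) (by positivity) (by positivity) (by positivity) (by positivity)
      (by positivity) (by positivity) hr.1 (hr.2.resolve_left hr1) n0 (ectx_vN hu h1 (hs r1))

theorem core_sound {w y q r0 r1 gb c s k1 m off : ℕ} (hc : c < 2 ^ 32) (hs : s < 2 ^ 32)
    (hk : k1 < 2 ^ 32) (hm : m < 2 ^ 32) (hq : ctxOK w y q = true)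
    (h : core w y q r0 r1 gb c s k1 m off = true) {t s2 bp bm C S : ℝ}
    (ha : Adm (PW w) (dec y) t s2 bp bm C S) (hr : InR r0 r1 (t ^ 2 * s2)) :
    ov off + cv c * C + cv s * S ≤ Rhs (PW w) (dec y) t s2 bp bm := by
  obtain ⟨u, z, e, eu, ez⟩ : ∃ u z : ℕ, core w y q r0 r1 gb c s k1 m off
      = core2 gb k1 c s m (nP w y q) (nM w y q) u z ∧ u = _ ∧ z = _ := ⟨_, _, rfl, rfl, rfl⟩
  rw [e, core2, band_eq] at h
  obtain ⟨h1, h2⟩ := h
  rw [mn_eq] at eu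
  have u0 : u ≤ Nat.sub (vA w y q r0 r1) (Nat.mul m (sgA r0)) := eu ▸ min_le_left _ _
  have u1 : u ≤ Nat.sub (vB w y q r0 r1) (Nat.mul m (sgB r1)) := eu ▸ min_le_right _ _
  have zc : (z : ℝ) = off * 2 ^ 44 + c * 2 ^ 52 + (2 ^ 96 - 2 ^ 84) := by
    rw [ez]
    simp only [cast_nadd, cast_shl]
    push_cast
    ring
  have zu := ble_cast h1
  have hu : 0 < u := by
    have : (0 : ℝ) < u := by
      have : (0 : ℝ) ≤ off * 2 ^ 44 + c * 2 ^ 52 := by positivity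
      linarith
    exact_mod_cast this
  have k0 : Nat.sub u z ≤ 2 ^ 97 := by
    have a := ectx_vN_le w y q (rho r0 r1) r0
    rw [vA, force_eq, Nat.sub_eq] at u0
    rw [Nat.sub_eq]
    omega
  obtain ⟨f1, f2⟩ := side_sound k0 hk hc hs hm (ectx_nF_lt _ _ _ _ _) (ectx_nF_lt _ _ _ _ _) h2
  rw [cast_nsub zu] at f1 f2
  have l := ha.lin (cv c) (cv s) (((u : ℝ) - z) / 2 ^ 76 + cv c) (cv k1 + cv s) (cv m)
    (cv (nP w y q)) (cv (nM w y q))
    (fun x hx => by have := f1 x hx; unfold Fy at this; unfold nP; linarith)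
    fun x hx => by have := f2 x hx; unfold Fy at this; unfold nM; linarith
  dsimp only [yd] at l
  obtain ⟨X, hX⟩ : ∃ X, X = Rhs (PW w) (dec y) t s2 bp bm - cv (nP w y q) * (t ^ 3 * bp)
      - cv (nM w y q) * (t ^ 3 * bm) := ⟨_, rfl⟩
  obtain ⟨b1, b2⟩ := ectx_lb hq ha hX
  have key : ((u : ℝ) / 2 ^ 76 - 2 ^ 20) + cv m * (t ^ 2 * s2) ≤ X := by
    cases hp : Nat.ble 1 (muP q)
    · have p0 : muP q = 0 := by
        have : ¬ 1 ≤ muP q := by rw [← Nat.ble_eq]; simp [hp]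
        omega
      cases hl : Nat.ble (lnB w y q (rho r0 r1)) (lnA w y q (rho r0 r1))
      · refine (ectx_node hu u0 u1 (fun r => ?_) ?_ hr).trans (b2 p0).2
        · rw [selB, hp, hl, ite'_false, ite'_false, lnB]
        · rw [selB, hp, hl, ite'_false, ite'_false]
      · refine (ectx_node hu u0 u1 (fun r => ?_) ?_ hr).trans (b2 p0).1
        · rw [selB, hp, hl, ite'_false, ite'_true, lnA]
        · rw [selB, hp, hl, ite'_false, ite'_true]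
    · rcases b1 with b | b
      · refine (ectx_node hu u0 u1 (fun r => ?_) ?_ hr).trans b
        · rw [selB, hp, ite'_true, mn_eq]; exact min_le_left _ _
        · rw [selB, hp, ite'_true, mn_eq]; exact min_le_left _ _
      · refine (ectx_node hu u0 u1 (fun r => ?_) ?_ hr).trans b
        · rw [selB, hp, ite'_true, mn_eq]; exact min_le_right _ _
        · rw [selB, hp, ite'_true, mn_eq]; exact min_le_right _ _
  have ec : cv c = ((c : ℝ) - 2 ^ 31) / 2 ^ 24 := rfl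
  unfold ov
  generalize cv c * C = A at *
  generalize cv s * S = B at *
  generalize cv m * (t ^ 2 * s2) = M at *
  generalize cv (nP w y q) * (t ^ 3 * bp) = N1 at *
  generalize cv (nM w y q) * (t ^ 3 * bm) = N2 at *
  clear f1 f2 b1 b2
  linarith

end Pool.Agent.Lib.MP_33650d_pr.X.E
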