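import Pool.Agent.Lib.MP_33650d_pr.X.Defs
import Pool.Agent.Lib.MP_33650d_pr.Entry

namespace Pool.Agent.Lib.MP_33650d_pr.X

/-- Field number `i` (48 bits) of a packed record. -/
noncomputable def fd (x i : ℕ) : ℕ := Nat.mod (Nat.shiftRight x (Nat.mul 48 i)) 281474976710656

/-- Real value of a biased field. -/
noncomputable def sv (x : ℕ) : ℝ := ((x : ℝ) - 2 ^ 47) / 2 ^ 40

/-- The entry coded by a record of 13 fields. -/
noncomputable def dec (x : ℕ) : Ent :=
  ⟨fd x 0, sv (fd x 1), sv (fd x 2), sv (fd x 3), sv (fd x 4), sv (fd x 5), sv (fd x 6),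
    sv (fd x 7), fd x 8 / 2 ^ 40, fd x 9 / 2 ^ 40, fd x 10 / 2 ^ 32, fd x 11 / 2 ^ 32,
    fd x 12 / 2 ^ 32⟩

/-- All records of a table are valid entries. -/
def Tab (P : JP) (t : BT) : Prop := t.All fun x => (dec x).Valid P

theorem Tab.get {P : JP} {t : BT} (h : Tab P t) (i : ℕ) : (dec (t.get i)).Valid P :=
  BT.get_all t h i

end Pool.Agent.Lib.MP_33650d_pr.X
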