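import Pool.Agent.Lib.MP_33650d_pr.X.EDef
import Pool.Agent.Lib.MP_33650d_pr.X.EData

namespace Pool.Agent.Lib.MP_33650d_pr.X.E
open Real

/-- Bits of `d` from position `o` on, reduced modulo `m`. -/
noncomputable def bq (d o m : ℕ) : ℕ := Nat.mod (Nat.shiftRight d o) m

/-- The distance of two natural numbers. -/
noncomputable def absB (x b : ℕ) : ℕ := Nat.add (Nat.sub x b) (Nat.sub b x)

/-- Real value of a biased coefficient (32 bits). -/
noncomputable def cv (x : ℕ) : ℝ := ((x : ℝ) - 2 ^ 31) / 2 ^ 24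

/-- Real value of the biased offset (40 bits). -/
noncomputable def ov (x : ℕ) : ℝ := ((x : ℝ) - 2 ^ 39) / 2 ^ 32

/- Exponential function. -/

noncomputable def exQ (u : ℕ) : ℕ := Nat.add (Nat.mul u u) 1208925819614629174706176

/-- Upper bound for `2 ^ 189 * exp (8 - y / 2 ^ 40)`. -/
noncomputable def ex (y : ℕ) : ℕ :=
  Nat.mul (Nat.mul (Nat.add (bq eA (Nat.shiftLeft (Nat.shiftRight y 37) 6) 18446744073709551616) 4)
      (bq eB (Nat.land (Nat.shiftRight y 23) 16320) 18446744073709551616))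
    (exQ (Nat.sub 1099511627776 (Nat.mod y 536870912)))

/- Angles. -/

/-- The angle with index `p`. -/
noncomputable def ph (p : ℕ) : ℝ := ((p : ℝ) - 4096) * |(p : ℝ) - 4096| / 2 ^ 22

/-- `2 ^ 24 + 2 ^ 22 * ph p`. -/
noncomputable def phB (p : ℕ) : ℕ :=
  Nat.sub (Nat.add 16777216 (Nat.mul (Nat.sub p 4096) (Nat.sub p 4096)))
    (Nat.mul (Nat.sub 4096 p) (Nat.sub 4096 p))

noncomputable def cT (j : ℕ) : ℕ := bq aCo (Nat.shiftLeft j 6) 18446744073709551616
noncomputable def sT (j : ℕ) : ℕ := bq aSi (Nat.shiftLeft j 6) 18446744073709551616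

/-- Approximations of `2 ^ 52 * (1 + cos (ph p))` and `2 ^ 52 * (1 + sin (ph p))`. -/
noncomputable def coB (p : ℕ) : ℕ := cT (absB p 4096)
noncomputable def siB (p : ℕ) : ℕ :=
  ite' (Nat.ble 4096 p) (sT (Nat.sub p 4096)) (Nat.sub 9007199254740992 (sT (Nat.sub 4096 p)))

/-- Lane functions of the tables of angles. -/
noncomputable def angZ (j : ℕ) : ℕ := cexp 20 (Nat.shiftLeft (Nat.mul j j) 38)
noncomputable def lCo (j : ℕ) : ℕ :=
  Nat.sub (Nat.shiftRight (Nat.mod (angZ j) 79228162514264337593543950336) 28) 4503599627370496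
noncomputable def lSi (j : ℕ) : ℕ := Nat.sub (Nat.shiftRight (angZ j) 124) 4503599627370496

/-- Upper bound for `2 ^ 48 * exp (ph p)`; the values at the two ends are `0` and `2 ^ 48`. -/
noncomputable def Rv (p : ℕ) : ℕ :=
  ite' (Nat.ble p 0) 0 (ite' (Nat.ble 4096 p) 281474976710656
    (Nat.add (Nat.shiftRight (ex (Nat.add 8796093022208
      (Nat.shiftLeft (Nat.sub 16777216 (phB p)) 18))) 141) 1))

/- The pointwise check. -/

/-- The function whose nonnegativity is checked. -/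
noncomputable def Fy (k0 k1 c s m n y : ℝ) : ℝ :=
  k0 + k1 * y + c * (1 - cos y) + s * (y - sin y) + m * y ^ 2 + n * y ^ 3

/-- Number of lanes of one half. -/
noncomputable def gN (g : ℕ) : ℕ := Nat.pow 2 (Nat.add g 2)
/-- Numerators of the centre and of the half width of cell `j`; the denominator is
`2 ^ (2 g + 1)`. -/
noncomputable def gy (j : ℕ) : ℕ := Nat.add (Nat.mul 2 (Nat.mul j (Nat.add j 1))) 1
noncomputable def gd (j : ℕ) : ℕ := Nat.add (Nat.mul 2 j) 1
/-- Numerator of the end of the grid; the denominator is `2 ^ (2 g)`. -/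
noncomputable def gW (g : ℕ) : ℕ := Nat.mul (Nat.sub (gN g) 5) (Nat.sub (gN g) 5)
noncomputable def gE (g : ℕ) : ℕ := Nat.add (Nat.div (Nat.pow 2 (Nat.sub 54 (Nat.mul 2 g))) 12) 1
noncomputable def gZ (g j : ℕ) : ℕ := cexp 22 (Nat.shiftLeft (gy j) (Nat.sub 57 (Nat.mul 2 g)))
noncomputable def gF (g j : ℕ) : ℕ :=
  Nat.add (Nat.pow 2 (Nat.add (Nat.mul 4 g) 3)) (Nat.mul (gd j) (gd j))

/-- Lane `j` of one half: grid cell, start lane, four lanes for the tail. -/
noncomputable def pickL (g j a st b1 b2 b3 b4 : ℕ) : ℕ :=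
  ite' (Nat.ble (Nat.add j 6) (gN g)) a (ite' (Nat.ble (Nat.add j 5) (gN g)) st
    (ite' (Nat.ble (Nat.add j 4) (gN g)) b1 (ite' (Nat.ble (Nat.add j 3) (gN g)) b2
      (ite' (Nat.ble (Nat.add j 2) (gN g)) b3 b4))))

noncomputable def fOne (g j : ℕ) : ℕ := pickL g j 1 0 1 0 0 0
noncomputable def fY (g j : ℕ) : ℕ :=
  pickL g j (Nat.shiftLeft (gy j) (Nat.sub 51 (Nat.mul 2 g))) 0
    (Nat.shiftLeft (gW g) (Nat.sub 52 (Nat.mul 2 g))) 4503599627370496 0 0
noncomputable def fU1 (g j : ℕ) : ℕ :=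
  pickL g j (Nat.shiftRight (Nat.sub (Nat.add (Nat.shiftLeft 33 (Nat.add (Nat.mul 4 g) 83))
      (Nat.shiftLeft (gF g j) 81)) (Nat.mul (Nat.mod (gZ g j) 79228162514264337593543950336) (gF g j)))
      (Nat.add (Nat.mul 4 g) 31))
    146366987889541120 148618787703226368 144115188075855872 144115188075855872 144115188075855872
noncomputable def fU2 (g j : ℕ) : ℕ :=
  pickL g j (Nat.shiftRight (Nat.sub (Nat.add (Nat.add (Nat.shiftLeft 32 (Nat.add (Nat.mul 4 g) 83))
      (Nat.shiftLeft (gy j) (Nat.add (Nat.mul 2 g) 82))) (Nat.shiftLeft (gF g j) 81))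
      (Nat.mul (Nat.shiftRight (gZ g j) 96) (gF g j))) (Nat.add (Nat.mul 4 g) 31))
    (Nat.add 144115188075855872 (gE g))
    (Nat.add 144115188075855872 (Nat.shiftLeft (gW g) (Nat.sub 52 (Nat.mul 2 g)))) 148618787703226368 144115188075855872 144115188075855872
noncomputable def fY2 (g j : ℕ) : ℕ :=
  pickL g j (Nat.shiftLeft (Nat.sub (Nat.mul (gy j) (gy j)) (Nat.mul (gd j) (gd j)))
      (Nat.sub 50 (Nat.mul 4 g))) 4503599627370496
    (Nat.shiftLeft (Nat.mul (gW g) (gW g)) (Nat.sub 52 (Nat.mul 4 g)))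
    (Nat.shiftLeft (gW g) (Nat.sub 53 (Nat.mul 2 g))) 4503599627370496 0
noncomputable def fY3 (g j : ℕ) : ℕ :=
  pickL g j (Nat.sub (Nat.add 144115188075855872 (Nat.shiftLeft (Nat.mul (gy j) (Nat.mul (gy j) (gy j)))
      (Nat.sub 49 (Nat.mul 6 g)))) (Nat.shiftLeft (Nat.mul 3 (Nat.mul (gy j) (Nat.mul (gd j) (gd j))))
      (Nat.sub 49 (Nat.mul 6 g))))
    (Nat.add 144115188075855872 (Nat.mul 6 (gE g)))
    (Nat.add 144115188075855872 (Nat.shiftLeft (Nat.mul (gW g) (Nat.mul (gW g) (gW g)))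
      (Nat.sub 52 (Nat.mul 6 g))))
    (Nat.add 144115188075855872 (Nat.shiftLeft (Nat.mul 3 (Nat.mul (gW g) (gW g))) (Nat.sub 52 (Nat.mul 4 g))))
    (Nat.add 144115188075855872 (Nat.shiftLeft (Nat.mul 3 (gW g)) (Nat.sub 52 (Nat.mul 2 g)))) 148618787703226368
noncomputable def fD (g j : ℕ) : ℕ :=
  pickL g j (Nat.add (Nat.shiftRight (Nat.shiftLeft (Nat.mul (Nat.mul (gd j) (Nat.mul (gd j) (gd j)))
      (mn (Nat.add (gy j) (gd j)) (Nat.pow 2 (Nat.add (Nat.mul 2 g) 2)))) 47) (Nat.mul 8 g)) 3)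
    (Nat.pow 2 (Nat.sub 52 (Nat.mul 4 g))) 4503599627370496 0 0 0
noncomputable def fD3 (g j : ℕ) : ℕ :=
  pickL g j (Nat.shiftLeft (Nat.mul (gd j) (Nat.mul (gd j) (gd j))) (Nat.sub 48 (Nat.mul 6 g)))
    (gE g) 0 0 0 0

/-- Lane `i` of a full row, made of the two halves `a` and `b`. -/
noncomputable def two (g : ℕ) (a b : ℕ → ℕ) (i : ℕ) : ℕ :=
  ite' (Nat.ble (gN g) i) (force (Nat.sub i (gN g)) b) (a i)

noncomputable def lOne (g : ℕ) : ℕ → ℕ := two g (fOne g) (fOne g)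
noncomputable def lY (g : ℕ) : ℕ → ℕ :=
  two g (fun j => Nat.add 144115188075855872 (fY g j)) fun j => Nat.sub 144115188075855872 (fY g j)
noncomputable def lU1 (g : ℕ) : ℕ → ℕ := two g (fU1 g) (fU1 g)
noncomputable def lU2 (g : ℕ) : ℕ → ℕ := two g (fU2 g) fun j => Nat.sub 288230376151711744 (fU2 g j)
noncomputable def lY2 (g : ℕ) : ℕ → ℕ := two g (fY2 g) (fY2 g)
noncomputable def l3p (g : ℕ) : ℕ → ℕ := two g (fY3 g) fun _ => 144115188075855872
noncomputable def l3m (g : ℕ) : ℕ → ℕ := two g (fun _ => 144115188075855872) (fY3 g)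
noncomputable def lAll (_ : ℕ) : ℕ → ℕ := fun _ => 144115188075855872
noncomputable def lD (g : ℕ) : ℕ → ℕ := two g (fD g) (fD g)
noncomputable def lDp (g : ℕ) : ℕ → ℕ := two g (fD3 g) fun _ => 0
noncomputable def lDm (g : ℕ) : ℕ → ℕ := two g (fun _ => 0) (fD3 g)
noncomputable def fHn (g j : ℕ) : ℕ := pickL g j 10141204801825835211973625643008 0 10141204801825835211973625643008 10141204801825835211973625643008 10141204801825835211973625643008 10141204801825835211973625643008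
noncomputable def fHs (j : ℕ) : ℕ := ite' (Nat.ble j 1) 0 10141204801825835211973625643008
noncomputable def lHn (g : ℕ) : ℕ → ℕ := two g (fHn g) (fHn g)
noncomputable def lHs (g : ℕ) : ℕ → ℕ := two g fHs fHs

noncomputable def sideH (v h : ℕ) : Bool := Nat.beq (Nat.land v h) h

/-- Check of both pointwise inequalities with the rows given as arguments. -/
noncomputable def sideG (One Y U1 U2 Y2 T3p T3m All D Dp Dm Hc Hn Hs k0 k1 c s m np nm : ℕ) : Bool :=
  sideH (Nat.sub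
    (Nat.add (Nat.add (Nat.add (Nat.add Hc (Nat.add (Nat.mul np T3p) (Nat.mul nm T3m)))
        (Nat.mul k0 One)) (Nat.add (Nat.mul k1 Y) (Nat.mul c U1)))
      (Nat.add (Nat.mul s U2) (Nat.mul m Y2)))
    (Nat.add (Nat.add (Nat.mul (Nat.add (Nat.add k1 c) (Nat.add s (Nat.add np nm))) All)
        (Nat.mul (Nat.add (absB c 2147483648) (absB s 2147483648)) D))
      (Nat.add (Nat.mul (absB (Nat.add s (Nat.mul 6 np)) 15032385536) Dp)
        (Nat.mul (absB (Nat.mul 6 nm) (Nat.add s 10737418240)) Dm))))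
    (ite' (Nat.beq k1 2147483648) Hs Hn)

noncomputable def side (gb k0 k1 c s m np nm : ℕ) : Bool :=
  ite' (Nat.ble gb 0)
    (sideG vOne6 vY6 vU16 vU26 vY26 v3p6 v3m6 vAll6 vD6 vDp6 vDm6 vHc6 vHn6 vHs6 k0 k1 c s m np nm)
    (sideG vOne8 vY8 vU18 vU28 vY28 v3p8 v3m8 vAll8 vD8 vDp8 vDm8 vHc8 vHn8 vHs8 k0 k1 c s m np nm)

/- The context: `q` codes the flags `cub` (bit 0) and `excl` (bit 1), the multiplier of the
restriction on the third moment (32 bits) and the multiplier of the defect (48 bits). -/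

noncomputable def qX (q : ℕ) : ℕ := bq q 2 4294967296
noncomputable def qM (q : ℕ) : ℕ := Nat.shiftRight q 34
noncomputable def muP (q : ℕ) : ℕ := Nat.sub (qM q) 140737488355328
noncomputable def muN (q : ℕ) : ℕ := Nat.sub 140737488355328 (qM q)
noncomputable def w0 (w a : ℕ) : ℕ := ite' (Nat.ble w 0) a 0
noncomputable def w1 (w a : ℕ) : ℕ := ite' (Nat.ble w 0) 0 a
noncomputable def wUp (q : ℕ) : ℕ := Nat.div (Nat.add (Nat.mul 6 (muP q)) 24) 25
noncomputable def wP (w q : ℕ) : ℕ := w1 w (Nat.div (Nat.mul 6 (muN q)) 25)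
noncomputable def wN (w q : ℕ) : ℕ := w1 w (ite' (Nat.ble (Nat.mod q 2) 0) (wUp q) 0)
noncomputable def wC (w q : ℕ) : ℕ := w1 w (ite' (Nat.ble (Nat.mod q 2) 0) 0 (wUp q))
noncomputable def mQP (y : ℕ) : ℕ := Nat.sub (fd y 7) 140737488355328
noncomputable def mQN (y : ℕ) : ℕ := Nat.sub 140737488355328 (fd y 7)

noncomputable def nPos (q m lo : ℕ) : ℕ :=
  Nat.add (Nat.add (Nat.shiftLeft m 40) (Nat.shiftLeft (qX q) 56)) (Nat.mul (muP q) lo)
noncomputable def nNeg (w q hi : ℕ) : ℕ := Nat.add (Nat.mul (muN q) hi) (Nat.shiftLeft (wC w q) 40)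
noncomputable def nF (w q m lo hi : ℕ) : ℕ :=
  mn 4294967295 (Nat.shiftRight (Nat.sub (nPos q m lo) (nNeg w q hi)) 56)
noncomputable def nP (w y q : ℕ) : ℕ := nF w q (fd y 4) 208555426816 208555426817
noncomputable def nM (w y q : ℕ) : ℕ := nF w q (fd y 5) 341200387071 341200387072

noncomputable def alG (y a b : ℕ) : ℕ :=
  Nat.shiftRight (Nat.sub (Nat.add (Nat.add (Nat.shiftLeft (fd y 2) 80) 87112285931760246646623899502532662132736)
    (Nat.mul (Nat.sub a b) (fd y 8))) (Nat.mul (Nat.sub b a) (fd y 9))) 80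
noncomputable def alA (w y q : ℕ) : ℕ :=
  alG y (Nat.add (Nat.shiftLeft (fd y 3) 40) (Nat.mul (w0 w 68719476736) (muP q)))
    (Nat.add 154742504910672534362390528 (Nat.mul (w0 w 68719476736) (muN q)))
noncomputable def alB (w y q : ℕ) : ℕ :=
  alG y (Nat.add (Nat.shiftLeft (fd y 3) 40) (Nat.mul (w0 w 195443429009) (muN q)))
    (Nat.add 154742504910672534362390528 (Nat.mul (w0 w 195443429010) (muP q)))

noncomputable def cube (a : ℕ) : ℕ := Nat.mul a (Nat.mul a a)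
noncomputable def pay (y q : ℕ) : ℕ :=
  Nat.add (Nat.shiftLeft (Nat.mul (Nat.sub (qM q) (fd y 6)) (fd y 12)) 4)
    (Nat.shiftLeft (Nat.mul (qX q) (fd y 11)) 20)
noncomputable def gNeg (w y q : ℕ) : ℕ :=
  w0 w (Nat.add (Nat.shiftRight (Nat.mul (Nat.mul (muN q) 15858051178) (cube (fd y 9))) 124) 1)
noncomputable def gaA (y q : ℕ) : ℕ := Nat.sub 79228162514264337593543950336 (pay y q)
noncomputable def gaB (w y q : ℕ) : ℕ :=
  Nat.sub (Nat.add (gaA y q) (w0 w (Nat.shiftRight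
    (Nat.mul (Nat.mul (muP q) 15858051177) (cube (fd y 8))) 124))) (gNeg w y q)

noncomputable def ctxOK (w y q : ℕ) : Bool :=
  band (bor (Nat.ble (qM q) (fd y 6)) (Nat.ble 1 (fd y 12)))
    (band (bor (Nat.ble (qX q) 0) (Nat.ble 1 (fd y 11)))
      (band (Nat.ble (qM q) 281474976710656) (band (Nat.ble (Nat.add (pay y q) (gNeg w y q)) 79228162514264337593543950336)
        (band (Nat.ble (nNeg w q 208555426817) (nPos q (fd y 4) 208555426816))
          (Nat.ble (nNeg w q 341200387072) (nPos q (fd y 5) 341200387071))))))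

noncomputable def sq (a : ℕ) : ℕ := Nat.mul a a
noncomputable def lnA (w y q r : ℕ) : ℕ :=
  Nat.add (Nat.shiftLeft (Nat.mul (alA w y q) (sq r)) 4) (gaA y q)
noncomputable def lnB (w y q r : ℕ) : ℕ :=
  Nat.add (Nat.shiftLeft (Nat.mul (alB w y q) (sq r)) 4) (gaB w y q)
noncomputable def selB (w y q ρ a b : ℕ) : ℕ :=
  ite' (Nat.ble 1 (muP q)) (mn a b) (ite' (Nat.ble (lnB w y q ρ) (lnA w y q ρ)) a b)
noncomputable def rho (r0 r1 : ℕ) : ℕ :=
  ite' (Nat.ble r0 0) 0 (ite' (Nat.ble r1 0) r0 (Nat.shiftRight (Nat.add r0 r1) 1))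

/-- Value at the node `r` of the concave lower bound, scale `2 ^ 76`. -/
noncomputable def vN (w y q ρ r : ℕ) : ℕ :=
  mn 158456325028528675187087900672 (Nat.shiftRight (Nat.sub
    (Nat.add (Nat.shiftLeft (selB w y q ρ (lnA w y q r) (lnB w y q r)) 28)
      (Nat.add (Nat.shiftLeft (Nat.mul (Nat.mul 3 (wP w q)) (Nat.mul ρ (sq r))) 15)
        (Nat.mul (Nat.mul 2 (mQP y)) (Nat.mul (sq ρ) (sq r)))))
    (Nat.add (Nat.add (Nat.shiftLeft (sq r) 88) (Nat.shiftLeft (Nat.mul (wP w q) (cube ρ)) 15))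
      (Nat.add (Nat.mul (mQP y) (sq (sq ρ))) (Nat.add (Nat.shiftLeft (Nat.mul (wN w q) (cube r)) 16)
        (Nat.mul (mQN y) (sq (sq r))))))) 28)

/-- The slope at infinity. -/
noncomputable def vT (w y q ρ : ℕ) : ℕ :=
  ite' (Nat.ble (Nat.add (wN w q) (mQN y)) 0) (Nat.shiftLeft (Nat.shiftRight (Nat.sub
    (Nat.add (Nat.shiftLeft (selB w y q ρ (alA w y q) (alB w y q)) 32)
      (Nat.add (Nat.shiftLeft (Nat.mul (Nat.mul 3 (wP w q)) ρ) 15)
        (Nat.mul (Nat.mul 2 (mQP y)) (sq ρ)))) 309485009821345068724781056) 48) 120) 0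

noncomputable def vA (w y q r0 r1 : ℕ) : ℕ := force (rho r0 r1) fun ρ => vN w y q ρ r0
noncomputable def vB (w y q r0 r1 : ℕ) : ℕ :=
  force (rho r0 r1) fun ρ => ite' (Nat.ble r1 0) (vT w y q ρ) (vN w y q ρ r1)
noncomputable def sgA (r : ℕ) : ℕ := Nat.shiftLeft (sq r) 20
noncomputable def sgB (r : ℕ) : ℕ := ite' (Nat.ble r 0) 1329227995784915872903807060280344576 (sgA r)

noncomputable def core2 (gb k1 c s m np nm u z : ℕ) : Bool :=
  band (Nat.ble z u) (side gb (Nat.sub u z) k1 c s m np nm)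

/-- Check of the linear bound `ov off + cv c * C + cv s * S ≤ rhs` on a cell. -/
noncomputable def core (w y q r0 r1 gb c s k1 m off : ℕ) : Bool :=
  core2 gb k1 c s m (nP w y q) (nM w y q)
    (mn (Nat.sub (vA w y q r0 r1) (Nat.mul m (sgA r0)))
      (Nat.sub (vB w y q r0 r1) (Nat.mul m (sgB r1))))
    (Nat.add (Nat.add (Nat.shiftLeft off 44) (Nat.shiftLeft c 52)) 79208819701150503526748651520)

/- The rules for the nonlinear part. -/

/-- Lower bound for `2 ^ 40 * (1024 - ka * ph p)`. -/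
noncomputable def kq (y p : ℕ) : ℕ :=
  Nat.shiftRight (Nat.sub (Nat.add (Nat.add 2361183241434822606848 (Nat.shiftLeft (fd y 1) 24))
    (Nat.shiftLeft (phB p) 47)) (Nat.mul (fd y 1) (phB p))) 22
noncomputable def qe (p : ℕ) : ℕ :=
  Nat.add (Nat.shiftLeft (Nat.add (coB p) (siB p)) 31) 8589934593

noncomputable def endA2 (p c s cs v : ℕ) : Bool :=
  band (Nat.ble 1256741790547968 v)
    (Nat.ble (Nat.add (Nat.add (Nat.shiftRight (ex (Nat.sub v 1256741790547968)) 113) cs) (qe p))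
      (Nat.add (Nat.add (Nat.mul c (coB p)) (Nat.mul s (siB p))) 19342813113834066795298816))

/-- Check of `exp (ka * ph p - off - 1) ≤ c * cos (ph p) + s * sin (ph p)`. -/
noncomputable def endA (y p c s off : ℕ) : Bool :=
  bor (endA2 p c s (Nat.shiftLeft (Nat.add c s) 52) (Nat.add (Nat.shiftLeft off 8) (kq y p)))
    (band (Nat.beq p 4096) (band (Nat.beq c 2164260864) (Nat.beq off 545460846592)))

noncomputable def ruleA (md y pa pb c s off : ℕ) : Bool :=
  band (bor (Nat.ble (fd y 0) 0)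
      (band (Nat.beq (fd y 0) 3) (band (Nat.ble md 0) (Nat.ble 549755813889 off))))
    (band (Nat.ble (phB pb) (Nat.add (phB pa) 12582912)) (band (endA y pa c s off) (endA y pb c s off)))

noncomputable def aC (md y p : ℕ) : ℕ :=
  ite' (Nat.beq (fd y 0) 3) 1125899906842625 (ite' (Nat.ble md 0) (Nat.sub 2251799813685248 (kq y p))
    (ite' (Nat.ble p 0) 1152921504606846976 (Nat.add 1125899906842624 (Nat.shiftLeft (Nat.sub 16777216 (phB p)) 18))))
noncomputable def rC (md p : ℕ) : ℕ := ite' (Nat.ble md 0) 281474976710656 (Rv p)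

noncomputable def endC (md y p g2 o : ℕ) : Bool :=
  band (Nat.ble (aC md y p) o)
    (Nat.ble (Nat.mul (sq (rC md p)) g2) (Nat.shiftLeft (sq (Nat.sub o (aC md y p))) 64))

noncomputable def ruleC2 (md y pa pb g2 o : ℕ) : Bool :=
  band (endC md y pa g2 o) (endC md y pb g2 o)

noncomputable def ruleC (md y pa pb c s off : ℕ) : Bool :=
  ruleC2 md y pa pb (Nat.add (sq (absB c 2147483648)) (sq (absB s 2147483648)))
    (Nat.add (Nat.shiftLeft off 8) 985162418487296)

noncomputable def prR (x r0 : ℕ) : Bool :=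
  bor (band (Nat.ble 1 (fd x 10)) (Nat.ble (Nat.add (fd x 10) 1) (sq r0)))
    (band (Nat.ble 1 (fd x 11)) (Nat.ble (Nat.add (Nat.shiftLeft (fd x 11) 16) 1) (cube r0)))

noncomputable def rcL (j : ℕ) : ℕ := Nat.sub (cT j) 4503599627370498
noncomputable def b6 (x r1 : ℕ) : ℕ :=
  ite' (Nat.ble 1 (fd x 11)) (mn (Nat.mul 2 (sq r1)) (fd x 11)) (Nat.mul 2 (sq r1))
noncomputable def prW (b rc i : ℕ) : Bool :=
  band (Nat.ble 1 i) (Nat.ble (Nat.add (Nat.shiftLeft (Nat.mul b (Nat.add (cT i) 2)) 20) 1)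
    (Nat.add (Nat.mul (Nat.mul 6 rc) (Nat.sub (sT i) 4503599627370498)) (Nat.shiftLeft b 72)))

noncomputable def prP (md x r1 pa pb j : ℕ) : Bool :=
  band (Nat.ble 1 r1) (band (Nat.ble (Nat.shiftLeft r1 6) (sq j)) (band (Nat.ble j 2566)
    (ite' (Nat.ble md 0)
      (prW (b6 x r1) (rcL j) (ite' (Nat.ble 4097 pa) (Nat.sub pa 4096) (Nat.sub 4096 pb)))
      (Nat.ble (Nat.add (Nat.shiftLeft (Rv pb) 4) 1) (rcL j)))))

/- The tree. -/

/-- The record with all coefficients removed. -/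
noncomputable def zr (x : ℕ) : ℕ := Nat.add (Nat.shiftLeft (Nat.shiftRight x 384) 384) 19701003098197309598162713106702048440816031603617638148664649047487498308798232690642242951785227228349555609174019

noncomputable def nz (n : ℕ) (f : ℕ → ℕ) : ℕ :=
  Nat.rec (motive := fun _ => ℕ) 0 (fun k _ => f (Nat.succ k)) n

noncomputable def leafA (w md y q r0 r1 pa pb gb c s k1 m off : ℕ) : Bool :=
  band (ruleA md y pa pb c s off) (core w y q r0 r1 gb c s k1 m off)
noncomputable def leafC (w md y q r0 r1 pa pb gb c s k1 m off : ℕ) : Bool :=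
  band (ruleC md y pa pb c s off) (core w y q r0 r1 gb c s k1 m off)

noncomputable def rdL (f : ℕ → ℕ → ℕ → ℕ → ℕ → ℕ → Bool) (d : ℕ) : ℕ :=
  ite' (f (Nat.land d 8) (bq d 4 4294967296) (bq d 36 4294967296) (bq d 68 4294967296) (bq d 100 4294967296)
    (bq d 132 1099511627776)) (Nat.shiftRight d 172) 0

noncomputable def step (w md x : ℕ) (ih : ℕ → ℕ → ℕ → ℕ → ℕ → ℕ → ℕ → ℕ)
    (y q r0 r1 pa pb d tag : ℕ) : ℕ :=
  ite' (Nat.ble tag 1)
    (ite' (Nat.ble tag 0) (rdL (leafA w md y q r0 r1 pa pb) d)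
      (force (bq d 3 8192) fun p =>
        nz (ih y q r0 r1 pa p (Nat.shiftRight d 16)) fun e => ih y q r0 r1 p pb e))
    (ite' (Nat.ble tag 3)
      (ite' (Nat.ble tag 2)
        (force (bq d 3 4194304) fun r =>
          nz (ih y q r0 r pa pb (Nat.shiftRight d 25)) fun e => ih y q r r1 pa pb e)
        (ite' (prP md x r1 pa pb (bq d 3 4096)) (Nat.shiftRight d 15) 0))
      (ite' (Nat.ble tag 4) (rdL (leafC w md y q r0 r1 pa pb) d)
        (ite' (Nat.ble tag 5)
          (force (bq d 3 4835703278458516698824704) fun q' =>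
            force (ite' (Nat.ble (Nat.land q' 2) 0) x (zr x)) fun y' =>
              ite' (ctxOK w y' q') (ih y' q' r0 r1 pa pb (Nat.shiftRight d 85)) 0)
          (ite' (prR x r0) (Nat.shiftRight d 3) 0))))

/-- The rest of the certificate `d` after the check of a box; `0` means failure. -/
noncomputable def tr (w md x fuel : ℕ) : ℕ → ℕ → ℕ → ℕ → ℕ → ℕ → ℕ → ℕ :=
  Nat.rec (motive := fun _ => ℕ → ℕ → ℕ → ℕ → ℕ → ℕ → ℕ → ℕ) (fun _ _ _ _ _ _ _ => 0)
    (fun _ ih y q r0 r1 pa pb d => step w md x ih y q r0 r1 pa pb d (Nat.land d 7)) fuel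

/-- Check of the entry `x` against the certificate `d`. -/
noncomputable def chkE (w x d : ℕ) : Bool :=
  force x fun x => force (Nat.shiftLeft (fd x 6) 34) fun q => band (ctxOK w x q)
    (Nat.ble 1 (ite' (Nat.beq (fd x 0) 2) (tr w 1 x 80 x q 0 0 0 4096 d)
      (tr w 0 x 80 x q 0 0 466 7726 d)))

/- Real side. -/

noncomputable def PW (w : ℕ) : JP := if w = 0 then JI else JIII

def yd (t s bp bm C S : ℝ) : YD := ⟨t ^ 2 * s, t ^ 3 * bp, t ^ 3 * bm, C, S⟩

/-- The hypotheses of `Ent.Valid`. -/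
structure Adm (P : JP) (e : Ent) (t s bp bm C S : ℝ) : Prop where
  t0 : 0 < t
  tl : e.tl ≤ t
  th : t ≤ e.th
  s0 : 0 < s
  lin : (yd t s bp bm C S).Lin
  jp : 0 ≤ P.J s bp bm
  res : e.Res t s (bp + bm) (P.J s bp bm)

noncomputable def Rhs (P : JP) (e : Ent) (t s bp bm : ℝ) : ℝ :=
  e.rhs t s bp bm (P.J s bp bm) (s ^ 2)

/-- The variance lies in the cell; `r1 = 0` means that the cell is unbounded. -/
def InR (r0 r1 : ℕ) (σ : ℝ) : Prop :=
  ((r0 : ℝ) / 2 ^ 16) ^ 2 ≤ σ ∧ (r1 = 0 ∨ σ ≤ ((r1 : ℝ) / 2 ^ 16) ^ 2)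

noncomputable def crd (md p : ℕ) : ℝ := if md = 0 then ph p else (Rv p : ℝ) / 2 ^ 48
noncomputable def kap (md : ℕ) (f : ℂ) : ℝ := if md = 0 then Complex.arg f else ‖f‖

/-- The value of the characteristic function lies in the piece. -/
def InP (md pa pb : ℕ) (f : ℂ) : Prop := crd md pa ≤ kap md f ∧ kap md f ≤ crd md pb

/-- The claim of an entry; type `3` claims a contradiction when the right side is zero. -/
def Cl3 (e : Ent) (f : ℂ) (E : ℝ) : Prop := e.Cl ‖f‖ (Complex.arg f) E ∧ (e.ty = 3 → 0 < E)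

/-- The mode fits the type. -/
def ModeOK (md : ℕ) (e : Ent) : Prop := (e.ty = 2 → md ≠ 0) ∧ (e.ty ≤ 1 → md = 0)

end Pool.Agent.Lib.MP_33650d_pr.X.E
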