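import Pool.Agent.Lib.MP_33650d_pr.X.EDefs

namespace Pool.Agent.Lib.MP_33650d_pr.X.E

/-- Check of a tree of entries against a tree of certificates of the same shape. -/
noncomputable def chkT (w : ℕ) (t : BT) : BT → Bool :=
  BT.rec (motive := fun _ => BT → Bool)
    (fun x c => BT.rec (motive := fun _ => Bool) (fun d => chkE w x d) (fun _ _ _ _ => false) c)
    (fun _ _ l r c => BT.rec (motive := fun _ => Bool) (fun _ => false)
      (fun a b _ _ => band (l a) (r b)) c) t

/-- The tree of entries has a certificate. -/
def TOK (w : ℕ) (t : BT) : Prop := ∃ c, chkT w t c = true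

end Pool.Agent.Lib.MP_33650d_pr.X.E
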