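import Pool.Agent.Lib.MP_33650d_pr.X.ETree
import Pool.Agent.Lib.MP_33650d_pr.X.ETbl

namespace Pool.Agent.Lib.MP_33650d_pr.X.E

theorem Tab.node {P : JP} {l r : BT} (a : Tab P l) (b : Tab P r) : Tab P (.node l r) := ⟨a, b⟩

theorem TOK.tab {w : ℕ} {t : BT} : TOK w t → Tab (PW w) t := by
  induction t with
  | leaf x =>
    rintro ⟨c, h⟩
    cases c with
    | leaf d => exact chkE_sound (show chkE w x d = true from h)
    | node a b => exact absurd (show false = true from h) Bool.false_ne_true
  | node l r ihl ihr =>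
    rintro ⟨c, h⟩
    cases c with
    | leaf d => exact absurd (show false = true from h) Bool.false_ne_true
    | node a b =>
      have h' : band (chkT w l a) (chkT w r b) = true := h
      rw [band_eq] at h'
      exact Tab.node (ihl ⟨a, h'.1⟩) (ihr ⟨b, h'.2⟩)

theorem TOK.tabI {t : BT} (h : TOK 0 t) : Tab JI t := by
  have e : PW 0 = JI := if_pos rfl
  exact e ▸ h.tab

theorem TOK.tabIII {t : BT} (h : TOK 1 t) : Tab JIII t := by
  have e : PW 1 = JIII := if_neg one_ne_zero
  exact e ▸ h.tab

end Pool.Agent.Lib.MP_33650d_pr.X.E
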