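import Pool.Agent.Lib.MP_33650d_pr.X.EDefs

namespace Pool.Agent.Lib.MP_33650d_pr.X.E
open Real

noncomputable def etab_all (n : ℕ) (f : ℕ → Bool) : Bool :=
  Nat.rec (motive := fun _ => Bool) true (fun k ih => band (f k) ih) n

noncomputable def etab_A (a : ℕ) : ℕ := bq eA (Nat.shiftLeft a 6) 18446744073709551616
noncomputable def etab_B (b : ℕ) : ℕ := bq eB (Nat.mul 64 b) 18446744073709551616

noncomputable def etab_up (a : ℕ) : Bool :=
  Nat.ble (Nat.mul (etab_A (Nat.add a 1)) 20902899511243624353) (Nat.shiftLeft (etab_A a) 64)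

noncomputable def etab_dn (k : ℕ) : Bool :=
  Nat.ble (Nat.mul (etab_A (Nat.add k 64)) 16279194507819420737)
    (Nat.shiftLeft (etab_A (Nat.add k 65)) 64)

noncomputable def etab_bb (b : ℕ) : Bool :=
  Nat.ble (Nat.mul (etab_B b) 18437739073120195926) (Nat.shiftLeft (etab_B (Nat.add b 1)) 64)

theorem etab_up_ok : etab_all 64 etab_up = true := by decide +kernel
theorem etab_dn_ok : etab_all 255 etab_dn = true := by decide +kernel
theorem etab_bb_ok : etab_all 255 etab_bb = true := by decide +kernel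
theorem etab_A64 : Nat.ble 281474976710656 (etab_A 64) = true := by decide +kernel
theorem etab_B0 : Nat.ble 1152921504606846976 (etab_B 0) = true := by decide +kernel
theorem etab_co_ok :
    Nat.beq aCo (Nat.add (packD 64 lCo 12 0) (Nat.shiftLeft (lCo 4096) 262144)) = true := by
  decide +kernel
theorem etab_si_ok :
    Nat.beq aSi (Nat.add (packD 64 lSi 12 0) (Nat.shiftLeft (lSi 4096) 262144)) = true := by
  decide +kernel

seal Nat.shiftRight Nat.shiftLeft Nat.mod Nat.sub Nat.add Nat.mul Nat.land eA eB aCo aSi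
  etab_A etab_B lCo lSi angZ cexp

theorem etab_all_spec {n : ℕ} {f : ℕ → Bool} (h : etab_all n f = true) :
    ∀ i < n, f i = true := by
  induction n with
  | zero => intro i hi; omega
  | succ n ih =>
    have e : etab_all (n + 1) f = band (f n) (etab_all n f) := rfl
    rw [e, band_eq] at h
    intro i hi
    rcases Nat.lt_succ_iff_lt_or_eq.1 hi with h1 | rfl
    · exact ih h.2 i h1
    · exact h.1

theorem etab_ble_false {a b : ℕ} (h : b < a) : Nat.ble a b = false := by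
  cases e : Nat.ble a b
  · rfl
  · have := Nat.le_of_ble_eq_true e
    omega

theorem etab_sub_zero {a b : ℕ} (h : a ≤ b) : Nat.sub a b = 0 := by
  rw [Nat.sub_eq, Nat.sub_eq_zero_of_le h]

theorem absB_cast (x b : ℕ) : (absB x b : ℝ) = |(x : ℝ) - b| := by
  rw [absB, cast_nadd]
  rcases le_total x b with h | h
  · have h' : (x : ℝ) ≤ b := by exact_mod_cast h
    rw [etab_sub_zero h, cast_nsub h', abs_of_nonpos (by linarith), Nat.cast_zero]
    ring
  · have h' : (b : ℝ) ≤ x := by exact_mod_cast h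
    rw [etab_sub_zero h, cast_nsub h', abs_of_nonneg (by linarith), Nat.cast_zero]
    ring

theorem bq_lt (d o : ℕ) {m : ℕ} (h : 0 < m) : bq d o m < m := by
  rw [bq, nmod_eq]
  exact Nat.mod_lt _ h

theorem etab_eup : exp (1 / 8) * 2 ^ 64 ≤ 20902899511243624353 := by
  have h := (abs_le.1 (exp_bound (x := 1 / 8) (by rw [abs_of_pos] <;> norm_num) (n := 14)
    (by norm_num))).2
  rw [abs_of_pos (by norm_num)] at h
  simp only [Finset.sum_range_succ, Finset.sum_range_zero, Nat.factorial] at h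
  norm_num at h
  linarith

theorem etab_edn : exp (-(1 / 8)) * 2 ^ 64 ≤ 16279194507819420737 := by
  have h := (abs_le.1 (exp_bound (x := -(1 / 8)) (by rw [abs_neg, abs_of_pos] <;> norm_num)
    (n := 14) (by norm_num))).2
  rw [abs_neg, abs_of_pos (by norm_num)] at h
  simp only [Finset.sum_range_succ, Finset.sum_range_zero, Nat.factorial] at h
  norm_num at h
  linarith

theorem etab_eb : exp (-(1 / 2048)) * 2 ^ 64 ≤ 18437739073120195926 := by
  have h := (abs_le.1 (exp_bound (x := -(1 / 2048)) (by rw [abs_neg, abs_of_pos] <;> norm_num)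
    (n := 7) (by norm_num))).2
  rw [abs_neg, abs_of_pos (by norm_num)] at h
  simp only [Finset.sum_range_succ, Finset.sum_range_zero, Nat.factorial] at h
  norm_num at h
  linarith

theorem etab_chain {u v c : ℕ} {x d s : ℝ} (h1 : exp x * s ≤ u)
    (h2 : exp d * 2 ^ 64 ≤ c) (h3 : Nat.ble (Nat.mul u c) (Nat.shiftLeft v 64) = true) :
    exp (x + d) * s ≤ v := by
  have h4 := ble_cast h3
  rw [cast_nmul, cast_shl] at h4
  have h5 := mul_le_mul h1 h2 (by positivity) (by positivity)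
  rw [exp_add]
  have : exp x * exp d * s * 2 ^ 64 ≤ v * 2 ^ 64 := by linarith
  exact le_of_mul_le_mul_right this (by positivity)

theorem etab_A64' : exp (8 - ((64 : ℕ) : ℝ) / 8) * 2 ^ 48 ≤ etab_A 64 := by
  have h := ble_cast etab_A64
  rw [show 8 - ((64 : ℕ) : ℝ) / 8 = 0 by norm_num, exp_zero]
  refine le_trans (le_of_eq ?_) h
  norm_num

theorem etab_A_lo (k : ℕ) : ∀ a : ℕ, a + k = 64 → exp (8 - (a : ℝ) / 8) * 2 ^ 48 ≤ etab_A a := by
  induction k with
  | zero => intro a h; obtain rfl : a = 64 := by omega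
            exact etab_A64'
  | succ k ih =>
    intro a h
    have h1 := ih (a + 1) (by omega)
    have h2 := etab_all_spec etab_up_ok a (by omega)
    rw [etab_up, Nat.add_eq] at h2
    have h3 := etab_chain h1 (d := 1 / 8) (by exact_mod_cast etab_eup) h2
    rwa [show 8 - ((a + 1 : ℕ) : ℝ) / 8 + 1 / 8 = 8 - (a : ℝ) / 8 by push_cast; ring] at h3

theorem etab_A_hi (k : ℕ) (hk : k < 256) :
    exp (8 - ((k + 64 : ℕ) : ℝ) / 8) * 2 ^ 48 ≤ etab_A (k + 64) := by
  induction k with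
  | zero => rw [Nat.zero_add]; exact etab_A64'
  | succ k ih =>
    have h1 := ih (by omega)
    have h2 := etab_all_spec etab_dn_ok k (by omega)
    rw [etab_dn, Nat.add_eq, Nat.add_eq] at h2
    have h3 := etab_chain h1 (d := -(1 / 8)) (by exact_mod_cast etab_edn) h2
    rw [show k + 1 + 64 = k + 65 by omega]
    rwa [show 8 - ((k + 64 : ℕ) : ℝ) / 8 + -(1 / 8) = 8 - ((k + 65 : ℕ) : ℝ) / 8 by
      push_cast; ring] at h3

theorem etab_e32 : exp (-32) * 2 ^ 48 ≤ 4 := by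
  have h1 : (2.7182818283 : ℝ) ^ 32 ≤ exp 1 ^ 32 :=
    pow_le_pow_left₀ (by norm_num) exp_one_gt_d9.le 32
  rw [← exp_nat_mul, mul_one, Nat.cast_ofNat] at h1
  have h2 : (2 : ℝ) ^ 46 ≤ 2.7182818283 ^ 32 := by norm_num
  rw [exp_neg, inv_mul_le_iff₀ (exp_pos _)]
  linarith

theorem etab_A_spec (a : ℕ) : exp (8 - (a : ℝ) / 8) * 2 ^ 48 ≤ (etab_A a : ℝ) + 4 := by
  rcases le_total a 64 with h | h
  · have := etab_A_lo (64 - a) a (by omega)
    linarith
  · rcases lt_or_ge a 320 with h2 | h2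
    · obtain ⟨k, rfl⟩ : ∃ k, a = k + 64 := ⟨a - 64, by omega⟩
      have := etab_A_hi k (by omega)
      linarith
    · have h3 : (320 : ℝ) ≤ a := by exact_mod_cast h2
      have h4 : exp (8 - (a : ℝ) / 8) ≤ exp (-32) := exp_le_exp.2 (by linarith)
      have h5 := etab_e32
      have h6 : (0 : ℝ) ≤ etab_A a := Nat.cast_nonneg _
      have h7 := mul_le_mul_of_nonneg_right h4 (show (0 : ℝ) ≤ 2 ^ 48 by positivity)
      linarith

theorem etab_B_spec (b : ℕ) (hb : b < 256) : exp (-((b : ℝ) / 2048)) * 2 ^ 60 ≤ etab_B b := by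
  induction b with
  | zero =>
    have h := ble_cast etab_B0
    rw [Nat.cast_zero, zero_div, neg_zero, exp_zero]
    refine le_trans (le_of_eq ?_) h
    norm_num
  | succ b ih =>
    have h1 := ih (by omega)
    have h2 := etab_all_spec etab_bb_ok b (by omega)
    rw [etab_bb, Nat.add_eq] at h2
    have h3 := etab_chain h1 (d := -(1 / 2048)) (by exact_mod_cast etab_eb) h2
    rwa [show -((b : ℝ) / 2048) + -(1 / 2048) = -(((b + 1 : ℕ) : ℝ) / 2048) by
      push_cast; ring] at h3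

theorem etab_exp_neg {x : ℝ} (hx : 0 ≤ x) : exp (-x) ≤ 1 - x + x ^ 2 / 2 := by
  have h1 := quadratic_le_exp_of_nonneg hx
  have h2 : 0 < 1 - x + x ^ 2 / 2 := by nlinarith [sq_nonneg (x - 1)]
  rw [exp_neg, inv_le_iff_one_le_mul₀ (exp_pos x)]
  have := mul_le_mul_of_nonneg_left h1 h2.le
  nlinarith [sq_nonneg (x ^ 2)]

theorem etab_Q_spec {r : ℕ} (hr : r < 536870912) :
    exp (-((r : ℝ) / 2 ^ 40)) * 2 ^ 81 ≤ exQ (Nat.sub 1099511627776 r) := by
  have h1 := etab_exp_neg (x := (r : ℝ) / 2 ^ 40) (by positivity)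
  have h2 : (r : ℝ) < 536870912 := by exact_mod_cast hr
  rw [exQ, cast_nadd, cast_nmul, cast_nsub (by push_cast; linarith)]
  push_cast
  linarith

theorem etab_land (x : ℕ) : Nat.land x 16320 = Nat.mul 64 (x / 64 % 256) := by
  rw [Nat.land_eq, Nat.mul_eq]
  have h1 : (x &&& 16320) / 2 ^ 6 = x / 2 ^ 6 % 2 ^ 8 := by
    rw [Nat.and_div_two_pow, ← Nat.and_two_pow_sub_one_eq_mod]
  have h2 : (x &&& 16320) % 2 ^ 6 = 0 := by
    rw [Nat.and_mod_two_pow, show 16320 % 2 ^ 6 = 0 by norm_num, Nat.and_zero]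
  omega

theorem ex_spec (y : ℕ) : exp (8 - (y : ℝ) / 2 ^ 40) * 2 ^ 189 ≤ ex y := by
  have eb : Nat.shiftRight y 23 / 64 % 256 = y / 2 ^ 29 % 256 := by rw [nshr_eq]; omega
  have hA := etab_A_spec (Nat.shiftRight y 37)
  have hB := etab_B_spec (y / 2 ^ 29 % 256) (by omega)
  have hC := etab_Q_spec (r := Nat.mod y 536870912) (by rw [nmod_eq]; omega)
  have hy2 : y = Nat.shiftRight y 37 * 2 ^ 37 + (y / 2 ^ 29 % 256) * 2 ^ 29
      + Nat.mod y 536870912 := by
    rw [nmod_eq, nshr_eq]; omega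
  rw [ex, etab_land, eb, ← etab_A, ← etab_B, cast_nmul, cast_nmul, cast_nadd, Nat.cast_ofNat]
  obtain ⟨a, ha⟩ : ∃ a, a = Nat.shiftRight y 37 := ⟨_, rfl⟩
  obtain ⟨b, hb⟩ : ∃ b, b = y / 2 ^ 29 % 256 := ⟨_, rfl⟩
  obtain ⟨r, hr⟩ : ∃ r, r = Nat.mod y 536870912 := ⟨_, rfl⟩
  rw [← ha, ← hb, ← hr] at hy2
  rw [← ha] at hA
  rw [← hb] at hB
  rw [← hr] at hC
  rw [← ha, ← hb, ← hr]
  clear ha hb hr eb
  have e : exp (8 - (y : ℝ) / 2 ^ 40)
      = exp (8 - (a : ℝ) / 8) * exp (-((b : ℝ) / 2048)) * exp (-((r : ℝ) / 2 ^ 40)) := by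
    rw [← exp_add, ← exp_add, hy2]
    push_cast
    ring_nf
  have h1 := mul_le_mul (mul_le_mul hA hB (by positivity) (by positivity)) hC (by positivity)
    (by positivity)
  rw [e]
  refine le_trans (le_of_eq ?_) h1
  ring

theorem phB_spec {p : ℕ} (h : p ≤ 8192) : (phB p : ℝ) = 2 ^ 24 + 2 ^ 22 * ph p := by
  have _ := h
  have h0 : (0 : ℝ) ≤ p := Nat.cast_nonneg _
  rw [phB, ph]
  rcases le_total p 4096 with h1 | h1
  · have h2 : (p : ℝ) ≤ 4096 := by exact_mod_cast h1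
    have e : ((Nat.sub 4096 p : ℕ) : ℝ) = 4096 - p := by
      rw [cast_nsub (by push_cast; linarith)]; push_cast; rfl
    rw [etab_sub_zero h1, cast_nsub, cast_nadd, cast_nmul, cast_nmul, e,
      abs_of_nonpos (by linarith)]
    · push_cast; ring
    · rw [cast_nadd, cast_nmul, cast_nmul, e]; push_cast; nlinarith
  · have h2 : (4096 : ℝ) ≤ p := by exact_mod_cast h1
    have e : ((Nat.sub p 4096 : ℕ) : ℝ) = p - 4096 := by
      rw [cast_nsub (by push_cast; linarith)]; push_cast; rfl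
    rw [etab_sub_zero h1, cast_nsub, cast_nadd, cast_nmul, cast_nmul, e,
      abs_of_nonneg (by linarith)]
    · push_cast; ring
    · rw [cast_nadd, cast_nmul, cast_nmul, e]; push_cast; nlinarith

theorem etab_sub53 {A : ℕ} {c : ℝ} (hc : -1 ≤ c) (h : |(A : ℝ) / 2 ^ 80 - 2 - c| ≤ 1 / 2 ^ 53) :
    |((Nat.sub (Nat.shiftRight A 28) 4503599627370496 : ℕ) : ℝ) - (c + 1) * 2 ^ 52| ≤ 2 := by
  have h1 := cast_shr_le A 28
  have h2 := cast_shr_ge A 28
  obtain ⟨B, hB⟩ : ∃ B, B = Nat.shiftRight A 28 := ⟨_, rfl⟩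
  rw [← hB] at h1 h2 ⊢
  clear hB
  obtain ⟨h3, h4⟩ := abs_le.1 h
  rcases le_total B 4503599627370496 with h5 | h5
  · have h6 : (B : ℝ) ≤ 4503599627370496 := by exact_mod_cast h5
    rw [etab_sub_zero h5, Nat.cast_zero, abs_le]
    constructor <;> linarith
  · rw [cast_nsub (by exact_mod_cast h5), abs_le]
    push_cast
    constructor <;> linarith

theorem etab_shr124 (z : ℕ) :
    Nat.shiftRight z 124 = Nat.shiftRight (Nat.shiftRight z 96) 28 := by
  rw [nshr_eq, nshr_eq, nshr_eq, Nat.div_div_eq_div_mul, ← pow_add]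

theorem etab_parts {z : ℕ} {θ : ℝ} (h : Near z θ (1 / 2 ^ 53)) :
    |((Nat.sub (Nat.shiftRight (Nat.mod z 79228162514264337593543950336) 28)
        4503599627370496 : ℕ) : ℝ) - (cos θ + 1) * 2 ^ 52| ≤ 2 ∧
      |((Nat.sub (Nat.shiftRight z 124) 4503599627370496 : ℕ) : ℝ) - (sin θ + 1) * 2 ^ 52| ≤ 2 := by
  obtain ⟨h2, h3⟩ := parts_of_norm h
  rw [cre] at h2
  rw [cim] at h3
  rw [etab_shr124]
  exact ⟨etab_sub53 (neg_one_le_cos _) h2, etab_sub53 (neg_one_le_sin _) h3⟩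

theorem etab_near {j : ℕ} (h : j ≤ 4096) :
    Near (angZ j) ((j : ℝ) ^ 2 / 2 ^ 22) (1 / 2 ^ 53) := by
  have h0 : (0 : ℝ) ≤ j := Nat.cast_nonneg _
  have h1 : (j : ℝ) ≤ 4096 := by exact_mod_cast h
  have hn := cexp_near 20 (Nat.shiftLeft (Nat.mul j j) 38) (b := 1 / 2 ^ 18) (e := 1 / 2 ^ 53)
    (by rw [cast_shl, cast_nmul, div_le_iff₀ (by positivity)]; nlinarith) (by norm_num)
    (by norm_num) (by norm_num)
  rw [cast_shl, cast_nmul,
    show (2 : ℝ) ^ 20 * ((j : ℝ) * j * 2 ^ 38 / 2 ^ 80) = (j : ℝ) ^ 2 / 2 ^ 22 by ring] at hn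
  rw [angZ]
  exact hn

theorem etab_lCo (j : ℕ) : lCo j = Nat.sub
    (Nat.shiftRight (Nat.mod (angZ j) 79228162514264337593543950336) 28) 4503599627370496 := by
  delta lCo
  with_reducible rfl

theorem etab_lSi (j : ℕ) : lSi j = Nat.sub (Nat.shiftRight (angZ j) 124) 4503599627370496 := by
  delta lSi
  with_reducible rfl

theorem etab_ang {j : ℕ} (h : j ≤ 4096) :
    |(lCo j : ℝ) - (cos ((j : ℝ) ^ 2 / 2 ^ 22) + 1) * 2 ^ 52| ≤ 2 ∧
      |(lSi j : ℝ) - (sin ((j : ℝ) ^ 2 / 2 ^ 22) + 1) * 2 ^ 52| ≤ 2 := by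
  rw [etab_lCo, etab_lSi]
  exact etab_parts (etab_near h)

theorem etab_lt64 {u : ℕ} {c : ℝ} (hc : c ≤ 1) (h : |(u : ℝ) - (c + 1) * 2 ^ 52| ≤ 2) :
    u < 2 ^ 64 := by
  have h1 := (abs_le.1 h).2
  have : (u : ℝ) < 2 ^ 64 := by linarith
  exact_mod_cast this

theorem etab_lane {X d n k : ℕ} {f : ℕ → ℕ} (hn : n = 2 ^ d) (hk : k = 64 * n)
    (hX : Nat.beq X (Nat.add (packD 64 f d 0) (Nat.shiftLeft (f n) k)) = true)
    (hf : ∀ i < n + 1, f i < 2 ^ 64) {j : ℕ} (hj : j ≤ n) :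
    bq X (Nat.shiftLeft j 6) 18446744073709551616 = f j := by
  have e : X = pk 64 (n + 1) f := by
    rw [Nat.eq_of_beq_eq_true hX, pk_succ, packD_eq, Nat.add_eq, nshl_eq, hk, ← hn]
    simp only [Nat.zero_add]
  rw [bq, nmod_eq, nshr_eq, nshl_eq, e, show j * 2 ^ 6 = 64 * j by ring,
    show 18446744073709551616 = 2 ^ 64 by norm_num]
  exact pk_lane hf (by omega)

theorem cT_spec {j : ℕ} (h : j ≤ 4096) :
    |(cT j : ℝ) - (cos ((j : ℝ) ^ 2 / 2 ^ 22) + 1) * 2 ^ 52| ≤ 2 := by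
  rw [cT, etab_lane (by norm_num) (by norm_num) etab_co_ok
    (fun i hi => etab_lt64 (cos_le_one _) (etab_ang (by omega)).1) h]
  exact (etab_ang h).1

theorem sT_spec {j : ℕ} (h : j ≤ 4096) :
    |(sT j : ℝ) - (sin ((j : ℝ) ^ 2 / 2 ^ 22) + 1) * 2 ^ 52| ≤ 2 := by
  rw [sT, etab_lane (by norm_num) (by norm_num) etab_si_ok
    (fun i hi => etab_lt64 (sin_le_one _) (etab_ang (by omega)).2) h]
  exact (etab_ang h).2

theorem coB_spec {p : ℕ} (h : p ≤ 8192) : |(coB p : ℝ) - (cos (ph p) + 1) * 2 ^ 52| ≤ 2 := by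
  have hj : absB p 4096 ≤ 4096 := by
    rw [absB, Nat.add_eq, Nat.sub_eq, Nat.sub_eq]; omega
  have h1 := cT_spec hj
  have e : cos (((absB p 4096 : ℕ) : ℝ) ^ 2 / 2 ^ 22) = cos (ph p) := by
    rw [← cos_abs (ph p), absB_cast, ph, abs_div, abs_mul, abs_abs,
      abs_of_pos (show (0 : ℝ) < 2 ^ 22 by positivity), Nat.cast_ofNat, pow_two]
  rw [e] at h1
  rw [coB]
  exact h1

theorem siB_spec {p : ℕ} (h : p ≤ 8192) : |(siB p : ℝ) - (sin (ph p) + 1) * 2 ^ 52| ≤ 2 := by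
  rw [siB]
  rcases le_or_gt 4096 p with h1 | h1
  · have h2 : (4096 : ℝ) ≤ p := by exact_mod_cast h1
    have h3 := sT_spec (j := Nat.sub p 4096) (by rw [Nat.sub_eq]; omega)
    have e : ((Nat.sub p 4096 : ℕ) : ℝ) ^ 2 / 2 ^ 22 = ph p := by
      rw [cast_nsub (by push_cast; linarith), ph, abs_of_nonneg (by linarith)]
      push_cast; ring
    rw [e] at h3
    rw [Nat.ble_eq_true_of_le h1, ite'_true]
    exact h3
  · have h2 : (p : ℝ) < 4096 := by exact_mod_cast h1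
    have h3 := sT_spec (j := Nat.sub 4096 p) (by rw [Nat.sub_eq]; omega)
    have e : ((Nat.sub 4096 p : ℕ) : ℝ) ^ 2 / 2 ^ 22 = -ph p := by
      rw [cast_nsub (by push_cast; linarith), ph, abs_of_nonpos (by linarith)]
      push_cast; ring
    rw [e, sin_neg] at h3
    rw [etab_ble_false h1, ite'_false]
    obtain ⟨B, hB⟩ : ∃ B, B = sT (Nat.sub 4096 p) := ⟨_, rfl⟩
    rw [← hB] at h3 ⊢
    clear hB
    obtain ⟨h4, h5⟩ := abs_le.1 h3
    have h6 := neg_one_le_sin (ph p)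
    rcases le_total 9007199254740992 B with h7 | h7
    · have h8 : (9007199254740992 : ℝ) ≤ B := by exact_mod_cast h7
      rw [etab_sub_zero h7, Nat.cast_zero, abs_le]
      constructor <;> linarith
    · rw [cast_nsub (by exact_mod_cast h7), abs_le]
      push_cast
      constructor <;> linarith

theorem Rv_zero : Rv 0 = 0 := by
  rw [Rv, Nat.ble_eq_true_of_le le_rfl, ite'_true]

theorem Rv_top {p : ℕ} (h : 4096 ≤ p) : Rv p = 2 ^ 48 := by
  rw [Rv, etab_ble_false (by omega), ite'_false, Nat.ble_eq_true_of_le h, ite'_true]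
  norm_num

theorem Rv_spec {p : ℕ} (h0 : 0 < p) (h : p ≤ 4096) : exp (ph p) * 2 ^ 48 ≤ Rv p := by
  rcases h.eq_or_lt with rfl | h1
  · rw [Rv_top le_rfl, show ph 4096 = 0 by rw [ph]; norm_num, exp_zero]
    norm_num
  · have h2 : (p : ℝ) < 4096 := by exact_mod_cast h1
    have h3 := phB_spec (p := p) (by omega)
    have h4 : ph p ≤ 0 := by
      rw [ph]
      exact div_nonpos_of_nonpos_of_nonneg
        (mul_nonpos_of_nonpos_of_nonneg (by linarith) (abs_nonneg _)) (by positivity)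
    rw [Rv, etab_ble_false h0, ite'_false, etab_ble_false h1, ite'_false, cast_nadd]
    obtain ⟨y, hy⟩ : ∃ y, y = Nat.add 8796093022208
      (Nat.shiftLeft (Nat.sub 16777216 (phB p)) 18) := ⟨_, rfl⟩
    have e : 8 - (y : ℝ) / 2 ^ 40 = ph p := by
      rw [hy, cast_nadd, cast_shl, cast_nsub (by rw [h3]; push_cast; linarith), h3]
      push_cast; ring
    rw [← hy]
    have h5 := ex_spec y
    have h6 := cast_shr_ge (ex y) 141
    rw [e] at h5
    obtain ⟨E, hE⟩ : ∃ E : ℝ, E = ((ex y : ℕ) : ℝ) := ⟨_, rfl⟩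
    obtain ⟨F, hF⟩ : ∃ F : ℝ, F = ((Nat.shiftRight (ex y) 141 : ℕ) : ℝ) := ⟨_, rfl⟩
    rw [← hF] at h6 ⊢
    rw [← hE] at h5 h6
    clear hE hF e hy
    rw [Nat.cast_one]
    linarith

theorem kq_spec (y : ℕ) {p : ℕ} (h : p ≤ 8192) :
    (kq y p : ℝ) ≤ 2 ^ 40 * (1024 - (dec y).ka * ph p) := by
  have e : (dec y).ka = sv (fd y 1) := by rw [dec]
  have h1 : fd y 1 < 281474976710656 := by
    rw [fd, nmod_eq]; exact Nat.mod_lt _ (by norm_num)
  have h2 := phB_spec h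
  have h3 : (p : ℝ) ≤ 8192 := by exact_mod_cast h
  have h4 : (0 : ℝ) ≤ p := Nat.cast_nonneg _
  have h5 : |ph p| ≤ 4 := by
    have : |(p : ℝ) - 4096| ≤ 4096 := abs_le.2 ⟨by linarith, by linarith⟩
    rw [ph, abs_div, abs_mul, abs_abs, abs_of_pos (show (0 : ℝ) < 2 ^ 22 by positivity),
      div_le_iff₀ (by positivity)]
    nlinarith [abs_nonneg ((p : ℝ) - 4096)]
  rw [e, sv, kq]
  obtain ⟨k, hk⟩ : ∃ k, k = fd y 1 := ⟨_, rfl⟩
  rw [← hk] at h1 ⊢
  clear hk e
  have h6 : (k : ℝ) < 281474976710656 := by exact_mod_cast h1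
  have h7 : (0 : ℝ) ≤ k := Nat.cast_nonneg _
  obtain ⟨h8, h9⟩ := abs_le.1 h5
  refine (cast_shr_le _ _).trans (le_of_eq ?_)
  rw [cast_nsub, cast_nadd, cast_nadd, cast_shl, cast_shl, cast_nmul, h2]
  · push_cast; ring
  · rw [cast_nadd, cast_nadd, cast_shl, cast_shl, cast_nmul, h2]
    push_cast
    nlinarith [mul_nonneg h7 (sub_nonneg.2 h9), mul_nonneg (sub_nonneg.2 h6.le) (sub_nonneg.2 h8)]

end Pool.Agent.Lib.MP_33650d_pr.X.E
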