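import Pool.Agent.Lib.MP_33650d_pr.X.ESReal
import Pool.Agent.Lib.MP_33650d_pr.X.ETab
import Pool.Agent.Lib.MP_33650d_pr.X.Basic

namespace Pool.Agent.Lib.MP_33650d_pr.X.E
open Real

seal Nat.shiftRight Nat.shiftLeft Nat.mod Nat.sub Nat.add Nat.mul

theorem erule_ite (a b : ℕ) {α : Type} (x y : α) :
    ite' (Nat.ble a b) x y = if a ≤ b then x else y := by
  cases h : Nat.ble a b
  · rw [ite'_false, if_neg (by rw [← Nat.ble_eq]; simp [h])]
  · rw [ite'_true, if_pos (Nat.le_of_ble_eq_true h)]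

theorem erule_beq (a b : ℕ) {α : Type} (x y : α) :
    ite' (Nat.beq a b) x y = if a = b then x else y := by
  cases h : Nat.beq a b
  · rw [ite'_false, if_neg (Nat.ne_of_beq_eq_false h)]
  · rw [ite'_true, if_pos (Nat.eq_of_beq_eq_true h)]

theorem erule_mul {c A a : ℝ} (h0 : 0 ≤ c) (h1 : c ≤ 2 ^ 32) (h : |A - a| ≤ 2) :
    (c - 2 ^ 31) * A ≤ (c - 2 ^ 31) * a + 2 ^ 32 := by
  have b : |c - 2 ^ 31| ≤ 2 ^ 31 := abs_le.2 ⟨by linarith, by linarith⟩
  have := (le_abs_self _).trans ((abs_mul _ _).le.trans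
    (mul_le_mul b h (abs_nonneg _) (by positivity)))
  linarith

theorem erule_endA {y p c s off : ℕ} (hp : p ≤ 8192) (hc : c < 2 ^ 32) (hs : s < 2 ^ 32)
    (h : endA y p c s off = true) :
    exp ((dec y).ka * ph p - (ov off + 1)) ≤ cv c * cos (ph p) + cv s * sin (ph p) := by
  simp only [endA, endA2, bor_eq, band_eq] at h
  rcases h with ⟨h1, h2⟩ | ⟨h1, h2, h3⟩
  · have a1 := ble_cast h1
    have a2 := ble_cast h2
    have a3 := kq_spec y hp
    have a4 := ex_spec (Nat.sub (Nat.add (Nat.shiftLeft off 8) (kq y p)) 1256741790547968)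
    have a5 := cast_shr_ge
      (ex (Nat.sub (Nat.add (Nat.shiftLeft off 8) (kq y p)) 1256741790547968)) 113
    rw [cast_nsub a1, cast_nadd, cast_shl] at a4
    clear h1 h2 a1
    generalize ex (Nat.sub (Nat.add (Nat.shiftLeft off 8) (kq y p)) 1256741790547968) = X at *
    simp only [qe, cast_nadd, cast_nmul, cast_shl] at a2
    generalize Nat.shiftRight X 113 = Z at *
    have b1 := erule_mul (Nat.cast_nonneg c) (by exact_mod_cast hc.le) (coB_spec hp)
    have b2 := erule_mul (Nat.cast_nonneg s) (by exact_mod_cast hs.le) (siB_spec hp)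
    have b3 : exp ((dec y).ka * ph p - (ov off + 1)) ≤
        exp (8 - ((off : ℝ) * 2 ^ 8 + kq y p - (1256741790547968 : ℕ)) / 2 ^ 40) := by
      refine exp_le_exp.2 ?_
      unfold ov
      push_cast
      linarith
    unfold cv
    push_cast at a2
    linarith
  · rw [Nat.eq_of_beq_eq_true h1, Nat.eq_of_beq_eq_true h2, Nat.eq_of_beq_eq_true h3]
    have e1 : ph 4096 = 0 := by simp [ph]
    have e2 : cv 2164260864 = 1 := by norm_num [cv]
    have e3 : ov 545460846592 = -1 := by norm_num [ov]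
    simp [e1, e2, e3]

theorem erule_ty (y : ℕ) : (dec y).ty = fd y 0 := rfl

theorem erule_band {off c za zb z : ℝ} (ha : exp (-off - c * za) ≤ za)
    (hb : exp (-off - c * zb) ≤ zb) (h1 : za ≤ z) (h2 : z ≤ zb) : exp (-off - c * z) ≤ z := by
  rcases (h1.trans h2).eq_or_lt with rfl | hab
  · rwa [le_antisymm h2 h1]
  have D0 : 0 < zb - za := sub_pos.2 hab
  set θ := (z - za) / (zb - za) with hθ
  have t0 : 0 ≤ θ := div_nonneg (sub_nonneg.2 h1) D0.le
  have t1 : θ ≤ 1 := (div_le_one D0).2 (by linarith)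
  have t2 : θ * (zb - za) = z - za := div_mul_cancel₀ _ D0.ne'
  have u4 := convexOn_exp.2 (Set.mem_univ (-off - c * za)) (Set.mem_univ (-off - c * zb))
    (sub_nonneg.2 t1) t0 (sub_add_cancel _ _)
  simp only [smul_eq_mul] at u4
  rw [show (1 - θ) * (-off - c * za) + θ * (-off - c * zb) = -off - c * (za + θ * (zb - za)) by
    ring, t2, add_sub_cancel] at u4
  have v1 := mul_le_mul_of_nonneg_left ha (sub_nonneg.2 t1)
  have v2 := mul_le_mul_of_nonneg_left hb t0
  linarith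

theorem erule_cs (d : YD) (c s : ℝ) : -(√(c ^ 2 + s ^ 2) * ‖d.f‖) ≤ c * d.C + s * d.S := by
  have a : |c * cos (Complex.arg d.f) + s * sin (Complex.arg d.f)| ≤ √(c ^ 2 + s ^ 2) := by
    refine abs_le_sqrt ?_
    nlinarith [sin_sq_add_cos_sq (Complex.arg d.f),
      sq_nonneg (c * sin (Complex.arg d.f) - s * cos (Complex.arg d.f))]
  have b := mul_le_mul_of_nonneg_left (abs_le.1 a).1 (norm_nonneg d.f)
  rw [← d.f_re, ← d.f_im]
  linarith

theorem erule_endC {md y p c s off : ℕ}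
    (h : endC md y p (Nat.add (sq (absB c 2147483648)) (sq (absB s 2147483648)))
      (Nat.add (Nat.shiftLeft off 8) 985162418487296) = true) :
    (aC md y p : ℝ) ≤ off * 2 ^ 8 + 985162418487296 ∧ ((aC md y p : ℝ) - 2 ^ 50) / 2 ^ 40
      + √(cv c ^ 2 + cv s ^ 2) * (rC md p / 2 ^ 48) ≤ ov off := by
  simp only [endC, band_eq] at h
  have a1 := ble_cast h.1
  have a2 := ble_cast h.2
  clear h
  generalize aC md y p = A at *
  generalize rC md p = R at *
  simp only [sq, cast_nmul, cast_shl, cast_nsub a1] at a2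
  simp only [cast_nadd, cast_nmul, cast_shl, absB_cast, abs_mul_abs_self] at a1 a2
  push_cast at a1 a2
  refine ⟨a1, ?_⟩
  have g := sq_sqrt (show 0 ≤ cv c ^ 2 + cv s ^ 2 by positivity)
  have b : √(cv c ^ 2 + cv s ^ 2) * ((R : ℝ) / 2 ^ 48) ≤ ov off - ((A : ℝ) - 2 ^ 50) / 2 ^ 40 := by
    refine le_of_pow_le_pow_left₀ two_ne_zero (by unfold ov; linarith) ?_
    rw [mul_pow, g]
    unfold cv ov
    linarith
  linarith

theorem erule_Rv {p : ℕ} (h0 : 0 < p) (hp : p ≤ 8192) :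
    exp (-(((Nat.sub 16777216 (phB p) : ℕ) : ℝ) / 2 ^ 22)) ≤ Rv p / 2 ^ 48 := by
  rcases le_total p 4096 with h | h
  · have a := Rv_spec h0 h
    have b := cast_nsub_ge 16777216 (phB p)
    rw [phB_spec hp] at b
    push_cast at b
    have c : exp (-(((Nat.sub 16777216 (phB p) : ℕ) : ℝ) / 2 ^ 22)) ≤ exp (ph p) :=
      exp_le_exp.2 (by linarith)
    linarith
  · rw [Rv_top h]
    exact (exp_le_one_iff.2 (neg_nonpos.2 (by positivity))).trans (by norm_num)

theorem erule_between {k a b ω U : ℝ} (h1 : a ≤ ω) (h2 : ω ≤ b) (ha : k * a ≤ U) (hb : k * b ≤ U) :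
    k * ω ≤ U := by
  rcases le_total 0 k with u | u
  · exact (mul_le_mul_of_nonneg_left h2 u).trans hb
  · exact (mul_le_mul_of_nonpos_left h1 u).trans ha

theorem erule_B {x : ℕ} (h : 1 ≤ fd x 11) {P : JP} {t s bp bm C S : ℝ}
    (ha : Adm P (dec x) t s bp bm C S) : t ^ 3 * bp + t ^ 3 * bm ≤ fd x 11 / 2 ^ 32 := by
  have h' : (1 : ℝ) ≤ fd x 11 := by exact_mod_cast h
  rcases ha.res.2.1 with o | o
  · have o' : (fd x 11 : ℝ) / 2 ^ 32 = 0 := o
    linarith
  · have o' : t ^ 3 * (bp + bm) ≤ (fd x 11 : ℝ) / 2 ^ 32 := o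
    linarith

theorem erule_arg (d : YD) {φ rc β : ℝ} (h0 : 0 < d.C) (h1 : rc ≤ d.C) (h2 : 6 * |d.S| ≤ β)
    (h3 : 0 ≤ φ) (h4 : φ ≤ |Complex.arg d.f|) : 6 * rc * sin φ ≤ β * cos φ := by
  have b4 := Complex.abs_arg_lt_pi_div_two_iff.2
    (.inl (show 0 < d.f.re by simpa [YD.f] using h0))
  have b5 := sin_nonneg_of_nonneg_of_le_pi (sub_nonneg.2 h4) (by linarith [pi_pos])
  have b7 := mul_nonneg (norm_nonneg d.f) b5
  have b6 : ‖d.f‖ * sin |Complex.arg d.f| ≤ |d.S| := by
    rw [← d.f_im]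
    rcases abs_cases (Complex.arg d.f) with ⟨e, -⟩ | ⟨e, -⟩
    · rw [e]; exact le_abs_self _
    · rw [e, sin_neg, mul_neg]; exact neg_le_abs _
  rw [sin_sub, mul_sub, ← mul_assoc, ← mul_assoc, cos_abs, d.f_re] at b7
  have b8 : 0 ≤ cos φ := cos_nonneg_of_mem_Icc ⟨by linarith [pi_pos], by linarith⟩
  have b9 : 0 ≤ sin φ := sin_nonneg_of_nonneg_of_le_pi h3 (by linarith [pi_pos])
  have c1 := mul_le_mul_of_nonneg_right h1 b9
  have c2 := mul_le_mul_of_nonneg_right h2 b8
  have c3 := mul_le_mul_of_nonneg_right b6 b8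
  linarith

theorem erule_sub {A B : ℕ} {x : ℝ} (h0 : 0 ≤ x) (h : (A : ℝ) - B ≤ x) :
    ((Nat.sub A B : ℕ) : ℝ) ≤ x := by
  rcases le_total (B : ℝ) A with u | u
  · rwa [cast_nsub u]
  · rw [Nat.sub_eq, Nat.sub_eq_zero_of_le (by exact_mod_cast u)]
    simpa using h0

theorem erule_prW {b rc i : ℕ} (hi : i ≤ 4096) (h : prW b rc i = true)
    (hs : 0 ≤ sin ((i : ℝ) ^ 2 / 2 ^ 22)) :
    (b : ℝ) / 2 ^ 32 * cos ((i : ℝ) ^ 2 / 2 ^ 22)
      < 6 * (rc / 2 ^ 52) * sin ((i : ℝ) ^ 2 / 2 ^ 22) := by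
  simp only [prW, band_eq] at h
  have a1 := ble_cast h.2
  have a2 := (abs_le.1 (cT_spec hi)).1
  have a3 := (abs_le.1 (sT_spec hi)).2
  have a4 := erule_sub (A := sT i) (B := 4503599627370498)
    (x := sin ((i : ℝ) ^ 2 / 2 ^ 22) * 2 ^ 52) (by positivity) (by push_cast; linarith)
  clear h
  simp only [cast_nadd, cast_nmul, cast_shl] at a1
  generalize Nat.sub (sT i) 4503599627370498 = Z at *
  have b1 := mul_le_mul_of_nonneg_left a2 (Nat.cast_nonneg (α := ℝ) b)
  have b2 := mul_le_mul_of_nonneg_left a4 (Nat.cast_nonneg (α := ℝ) rc)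
  push_cast at a1
  linarith

theorem ruleA_sound {md y pa pb c s off : ℕ} (hpa : pa ≤ 8192) (hpb : pb ≤ 8192)
    (hc : c < 2 ^ 32) (hs : s < 2 ^ 32) (hm : ModeOK md (dec y))
    (h : ruleA md y pa pb c s off = true) {d : YD} (hd : d.Lin) (hp : InP md pa pb d.f) {E : ℝ}
    (hE : ov off + cv c * d.C + cv s * d.S ≤ E) : Cl3 (dec y) d.f E := by
  simp only [ruleA, band_eq, bor_eq] at h
  obtain ⟨h1, h2, h3, h4⟩ := h
  have a2 := ble_cast h2
  rw [cast_nadd, phB_spec hpa, phB_spec hpb] at a2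
  push_cast at a2
  have m0 : md = 0 := by
    rcases h1 with h1 | ⟨-, h1, -⟩
    · exact hm.2 ((Nat.le_of_ble_eq_true h1).trans (by norm_num))
    · exact Nat.le_zero.1 (Nat.le_of_ble_eq_true h1)
  subst m0
  simp only [InP, crd, kap, if_true] at hp
  have a3 := sector (by linarith) hp.1 hp.2 (erule_endA hpa hc hs h3) (erule_endA hpb hc hs h4)
  have a5 := mul_le_mul_of_nonneg_left a3 (norm_nonneg d.f)
  rw [← d.f_re, ← d.f_im] at hE
  rcases h1 with h1 | ⟨h1, -, h5⟩
  · have e : (dec y).ty = 0 := Nat.le_zero.1 (Nat.le_of_ble_eq_true h1)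
    refine ⟨⟨fun _ => ?_, fun u => by omega, fun u => by omega⟩, fun u => by omega⟩
    have a4 := add_one_le_exp (E - (ov off + 1))
    rw [exp_sub] at a4 a5
    refine le_of_mul_le_mul_right ?_ (inv_pos.2 (exp_pos (ov off + 1)))
    rw [mul_assoc, ← div_eq_mul_inv, ← div_eq_mul_inv]
    linarith
  · have e : (dec y).ty = 3 := Nat.eq_of_beq_eq_true h1
    refine ⟨⟨fun u => by omega, fun u => by omega, fun u => by omega⟩, fun _ => ?_⟩
    have a6 := ble_cast h5
    have a7 := mul_nonneg (norm_nonneg d.f) (exp_pos ((dec y).ka * Complex.arg d.f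
      - (ov off + 1))).le
    unfold ov at hE
    push_cast at a6
    linarith

theorem ruleC_sound {md y pa pb c s off : ℕ} (hpa : pa ≤ 8192) (hpb : pb ≤ 8192)
    (ho : off < 2 ^ 40) (hm : ModeOK md (dec y))
    (h : ruleC md y pa pb c s off = true) {d : YD} (hd : d.Lin) (hp : InP md pa pb d.f) {E : ℝ}
    (hE : ov off + cv c * d.C + cv s * d.S ≤ E) : Cl3 (dec y) d.f E := by
  simp only [ruleC, ruleC2, band_eq] at h
  obtain ⟨a1, a2⟩ := erule_endC h.1
  obtain ⟨b1, b2⟩ := erule_endC h.2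
  clear h
  have c1 := erule_cs d (cv c) (cv s)
  have c2 := hd.norm_le
  have g0 := sqrt_nonneg (cv c ^ 2 + cv s ^ 2)
  generalize √(cv c ^ 2 + cv s ^ 2) = γ at *
  have c3 := mul_le_mul_of_nonneg_left c2 g0
  rw [aC, erule_beq, erule_ite, erule_ite, ← erule_ty] at a1 a2 b1 b2
  rw [rC, erule_ite] at a2 b2
  by_cases m0 : md = 0
  · subst m0
    simp only [InP, crd, kap, if_true] at hp
    simp only [le_refl, if_true] at a2 b2
    by_cases e : (dec y).ty = 3
    · rw [if_pos e] at b2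
      push_cast at b2
      exact ⟨⟨fun u => by omega, fun u => by omega, fun u => by omega⟩, fun _ => by linarith⟩
    · rw [if_neg e] at a2 b2
      have k1 := cast_nsub_ge 2251799813685248 (kq y pa)
      have k2 := cast_nsub_ge 2251799813685248 (kq y pb)
      have k3 := kq_spec y hpa
      have k4 := kq_spec y hpb
      push_cast at a2 b2 k1 k2
      have k5 : (dec y).ka * Complex.arg d.f ≤ E :=
        erule_between hp.1 hp.2 (by linarith) (by linarith)
      exact ⟨⟨fun _ => (mul_le_of_le_one_left (exp_pos _).le c2).trans (exp_le_exp.2 k5),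
        fun _ => k5, fun u => absurd rfl (hm.1 u)⟩, fun u => absurd u e⟩
  · simp only [InP, crd, kap, if_neg m0] at hp
    have m1 : ¬md ≤ 0 := by omega
    simp only [if_neg m1] at a1 a2 b1 b2
    have c4 := mul_le_mul_of_nonneg_left hp.2 g0
    refine ⟨⟨fun u => absurd (hm.2 (by omega)) m0, fun u => absurd (hm.2 (by omega)) m0,
      fun u => ?_⟩, fun e => ?_⟩
    · have e : ¬(dec y).ty = 3 := by omega
      have o : (off : ℝ) < 2 ^ 40 := by exact_mod_cast ho
      rw [if_neg e] at a1 a2 b1 b2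
      have p1 : ¬pa ≤ 0 := fun v => by
        rw [if_pos v] at a1
        push_cast at a1
        linarith
      have p2 : ¬pb ≤ 0 := fun v => by
        rw [if_pos v] at b1
        push_cast at b1
        linarith
      rw [if_neg p1, cast_nadd, cast_shl] at a2
      rw [if_neg p2, cast_nadd, cast_shl] at b2
      have r1 := erule_Rv (by omega) hpa
      have r2 := erule_Rv (by omega) hpb
      generalize Nat.sub 16777216 (phB pa) = A at *
      generalize Nat.sub 16777216 (phB pb) = B at *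
      push_cast at a2 b2
      exact (exp_le_exp.2 (by linarith)).trans (erule_band (off := ov off) (c := -γ)
        ((exp_le_exp.2 (by linarith)).trans r1) ((exp_le_exp.2 (by linarith)).trans r2) hp.1 hp.2)
    · rw [if_pos e] at b2
      push_cast at b2
      linarith

theorem prR_sound {x r0 r1 : ℕ} (h : prR x r0 = true) {P : JP} {t s bp bm C S : ℝ}
    (ha : Adm P (dec x) t s bp bm C S) (hr : InR r0 r1 (t ^ 2 * s)) : False := by
  simp only [prR, band_eq, bor_eq] at h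
  have r := hr.1
  rcases h with ⟨h1, h2⟩ | ⟨h1, h2⟩
  · have a1 := ble_cast h1
    have a2 := ble_cast h2
    simp only [sq, cast_nadd, cast_nmul] at a2
    push_cast at a1 a2
    rcases ha.res.1 with o | o
    · have o' : (fd x 10 : ℝ) / 2 ^ 32 = 0 := o
      linarith
    · have o' : t ^ 2 * s ≤ (fd x 10 : ℝ) / 2 ^ 32 := o
      linarith
  · have a1 := erule_B (Nat.le_of_ble_eq_true h1) ha
    have a2 := ble_cast h2
    simp only [cube, cast_nadd, cast_nmul, cast_shl] at a2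
    push_cast at a2
    have a3 : t ^ 2 * s * √(t ^ 2 * s) ≤ t ^ 3 * bp + t ^ 3 * bm := ha.lin.cube
    have a4 := mul_le_mul r (le_sqrt_of_sq_le r) (by positivity) ((sq_nonneg _).trans r)
    linarith

theorem prP_sound {md x r0 r1 pa pb j : ℕ} (hpa : pa ≤ 8192) (hpb : pb ≤ 8192)
    (h : prP md x r1 pa pb j = true) {P : JP} {t s bp bm C S : ℝ}
    (ha : Adm P (dec x) t s bp bm C S) (hr : InR r0 r1 (t ^ 2 * s))
    (hp : InP md pa pb (yd t s bp bm C S).f) : False := by
  simp only [prP, band_eq] at h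
  obtain ⟨h1, h2, h3, h4⟩ := h
  have a1 := Nat.le_of_ble_eq_true h1
  have a2 := ble_cast h2
  have a3 := Nat.le_of_ble_eq_true h3
  have a3' : (j : ℝ) ≤ 2566 := by exact_mod_cast a3
  have r := hr.2.resolve_left (by omega)
  simp only [sq, cast_nmul, cast_shl] at a2
  have b0 : (j : ℝ) ^ 2 ≤ 2566 ^ 2 := pow_le_pow_left₀ (by positivity) a3' 2
  have b1 : √(t ^ 2 * s) ≤ (j : ℝ) ^ 2 / 2 ^ 22 :=
    (sqrt_le_iff.2 ⟨by positivity, r⟩).trans (by linarith)
  have b2 : (j : ℝ) ^ 2 / 2 ^ 22 < π / 2 := by linarith [pi_gt_d4]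
  have b3 : cos ((j : ℝ) ^ 2 / 2 ^ 22) ≤ C :=
    (cos_le_cos_of_nonneg_of_le_pi (sqrt_nonneg _) (by linarith [pi_pos]) b1).trans
      (ha.lin.cos_le (b1.trans b2.le))
  have b4 : 0 < cos ((j : ℝ) ^ 2 / 2 ^ 22) :=
    cos_pos_of_mem_Ioo ⟨lt_of_lt_of_le (by linarith [pi_pos]) (by positivity : (0 : ℝ) ≤ _), b2⟩
  have b5 : (rcL j : ℝ) ≤ cos ((j : ℝ) ^ 2 / 2 ^ 22) * 2 ^ 52 :=
    erule_sub (by positivity) (by
      have := (abs_le.1 (cT_spec (j := j) (by omega))).2
      push_cast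
      linarith)
  rw [erule_ite] at h4
  by_cases m0 : md = 0
  · subst m0
    simp only [InP, crd, kap, if_true] at hp
    rw [if_pos le_rfl] at h4
    have c1 : 6 * |S| ≤ (b6 x r1 : ℝ) / 2 ^ 32 := by
      have s1 : |S| ≤ t ^ 2 * s / 3 := ha.lin.S_sq
      have s2 : 6 * |S| ≤ ((Nat.mul 2 (sq r1) : ℕ) : ℝ) / 2 ^ 32 := by
        simp only [sq, cast_nmul]
        push_cast
        linarith
      rw [b6, erule_ite]
      split_ifs with u
      · have s3 := erule_B u ha
        have s4 : -(t ^ 3 * bp / 6) ≤ S ∧ S ≤ t ^ 3 * bm / 6 := ha.lin.S_cube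
        have s5 : 0 ≤ t ^ 3 * bp ∧ 0 ≤ t ^ 3 * bm := ha.lin.nonneg.2
        have s6 : |S| ≤ (fd x 11 : ℝ) / 2 ^ 32 / 6 :=
          abs_le.2 ⟨by linarith [s4.1, s5.2], by linarith [s4.2, s5.1]⟩
        rw [mn_eq, Nat.cast_min, ← min_div_div_right (by positivity)]
        exact le_min s2 (by linarith)
      · exact s2
    obtain ⟨i, i1, i2, i3⟩ : ∃ i : ℕ, i ≤ 4096 ∧ prW (b6 x r1) (rcL j) i = true ∧
        (i : ℝ) ^ 2 / 2 ^ 22 ≤ |Complex.arg (yd t s bp bm C S).f| := by
      rw [erule_ite] at h4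
      split_ifs at h4 with u
      · refine ⟨_, by rw [Nat.sub_eq]; omega, h4, le_trans (le_of_eq ?_)
          (hp.1.trans (le_abs_self _))⟩
        have u' : (4097 : ℝ) ≤ pa := by exact_mod_cast u
        rw [cast_nsub (by push_cast; linarith), ph, abs_of_nonneg (by linarith)]
        push_cast
        ring
      · refine ⟨_, by rw [Nat.sub_eq]; omega, h4, le_trans (le_of_eq ?_)
          ((neg_le_neg hp.2).trans (neg_le_abs _))⟩
        have v := Nat.le_of_ble_eq_true ((band_eq _ _).1 h4).1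
        rw [Nat.sub_eq] at v
        have u' : (pb : ℝ) ≤ 4096 := by exact_mod_cast (show pb ≤ 4096 by omega)
        rw [cast_nsub (by push_cast; linarith), ph, abs_of_nonpos (by linarith)]
        push_cast
        ring
    have c2 := erule_prW i1 i2 (sin_nonneg_of_nonneg_of_le_pi (by positivity)
      (i3.trans (Complex.abs_arg_le_pi _)))
    exact c2.not_ge (erule_arg (yd t s bp bm C S) (b4.trans_le b3)
      (show _ ≤ C by linarith) c1 (by positivity) i3)
  · simp only [InP, crd, kap, if_neg m0] at hp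
    rw [if_neg (by omega)] at h4
    have c1 := ble_cast h4
    have c2 : C ≤ ‖(yd t s bp bm C S).f‖ := by
      simpa [YD.f, yd] using Complex.re_le_norm (yd t s bp bm C S).f
    rw [cast_nadd, cast_shl] at c1
    push_cast at c1
    linarith [hp.2]

end Pool.Agent.Lib.MP_33650d_pr.X.E
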