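import Pool.Agent.Lib.MP_33650d_pr.X.EDefs

namespace Pool.Agent.Lib.MP_33650d_pr.X.E
open Real

lemma esreal_taylor {f f' f'' : ℝ → ℝ} {p q M a z : ℝ}
    (h1 : ∀ y, HasDerivAt f (f' y) y) (h2 : ∀ y, HasDerivAt f' (f'' y) y)
    (h3 : ∀ y, p ≤ y → y ≤ q → f'' y ≤ M) (ha : f' a = 0) (a1 : p ≤ a) (a2 : a ≤ q)
    (z1 : p ≤ z) (z2 : z ≤ q) : f z ≤ f a + M * (z - a) ^ 2 / 2 := by
  have d1 : ∀ x, HasDerivAt (fun x => M * x - f' x) (M - f'' x) x := fun x =>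
    (((hasDerivAt_id x).const_mul M).sub (h2 x)).congr_deriv (by simp)
  have d2 : ∀ x, HasDerivAt (fun x => M * (x - a) ^ 2 / 2 - f x) (M * (x - a) - f' x) x :=
    fun x => ((((((hasDerivAt_id x).sub_const a).pow 2).const_mul M).div_const 2).sub
      (h1 x)).congr_deriv (by simp; ring)
  rcases le_total a z with h | h
  · have := lw_mono (f := fun x => M * (x - a) ^ 2 / 2 - f x) (fun x _ _ => d2 x)
      (fun x b1 b2 => by
        have := lw_mono (f := fun x => M * x - f' x) (fun x _ _ => d1 x)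
          (fun w c1 c2 => by linarith [h3 w (by linarith) (by linarith)]) b1
        simp only [ha] at this
        linarith) h
    simp only [sub_self] at this
    linarith
  · have := lw_mono (f := fun x => -(M * (x - a) ^ 2 / 2 - f x)) (fun x _ _ => (d2 x).neg)
      (fun x b1 b2 => by
        have := lw_mono (f := fun x => M * x - f' x) (fun x _ _ => d1 x)
          (fun w c1 c2 => by linarith [h3 w (by linarith) (by linarith)]) b2
        simp only [ha] at this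
        linarith) h
    simp only [sub_self] at this
    linarith

lemma esreal_lip {g g' : ℝ → ℝ} {L y d z : ℝ} (h1 : ∀ x, HasDerivAt g (g' x) x) (hL : 0 ≤ L)
    (h2 : ∀ x, y - d ≤ x → x ≤ y + d → |g' x| ≤ L) (z1 : y - d ≤ z) (z2 : z ≤ y + d) :
    g z ≤ g y + d * L := by
  rcases le_total y z with h | h
  · have := lw_mono (f := fun x => L * x - g x) (f' := fun x => L - g' x)
      (fun x _ _ => (((hasDerivAt_id x).const_mul L).sub (h1 x)).congr_deriv (by simp))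
      (fun x b1 b2 => by linarith [(abs_le.1 (h2 x (by linarith) (by linarith))).2]) h
    nlinarith [mul_le_mul_of_nonneg_left (show z - y ≤ d by linarith) hL]
  · have := lw_mono (f := fun x => L * x + g x) (f' := fun x => L + g' x)
      (fun x _ _ => (((hasDerivAt_id x).const_mul L).add (h1 x)).congr_deriv (by simp))
      (fun x b1 b2 => by linarith [(abs_le.1 (h2 x (by linarith) (by linarith))).1]) h
    nlinarith [mul_le_mul_of_nonneg_left (show y - z ≤ d by linarith) hL]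

lemma esreal_d1 (k0 k1 c s m n x : ℝ) : HasDerivAt (Fy k0 k1 c s m n)
    (k1 + c * sin x + s * (1 - cos x) + 2 * m * x + 3 * n * x ^ 2) x := by
  unfold Fy
  exact (((((((hasDerivAt_id x).const_mul k1).const_add k0).add
    (((hasDerivAt_cos x).const_sub 1).const_mul c)).add
    (((hasDerivAt_id x).sub (hasDerivAt_sin x)).const_mul s)).add
    ((hasDerivAt_pow 2 x).const_mul m)).add
    ((hasDerivAt_pow 3 x).const_mul n)).congr_deriv (by simp; ring)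

lemma esreal_d2 (k1 c s m n x : ℝ) : HasDerivAt
    (fun x => k1 + c * sin x + s * (1 - cos x) + 2 * m * x + 3 * n * x ^ 2)
    (c * cos x + s * sin x + 2 * m + 6 * n * x) x :=
  ((((((hasDerivAt_sin x).const_mul c).const_add k1).add
    (((hasDerivAt_cos x).const_sub 1).const_mul s)).add
    ((hasDerivAt_id x).const_mul (2 * m))).add
    ((hasDerivAt_pow 2 x).const_mul (3 * n))).congr_deriv (by simp; ring)

lemma esreal_d3 (c s m n x : ℝ) : HasDerivAt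
    (fun x => c * cos x + s * sin x + 2 * m + 6 * n * x)
    ((s + 6 * n) - c * sin x - s * (1 - cos x)) x :=
  (((((hasDerivAt_cos x).const_mul c).add ((hasDerivAt_sin x).const_mul s)).add_const
    (2 * m)).add ((hasDerivAt_id x).const_mul (6 * n))).congr_deriv (by simp; ring)

lemma esreal_d3_le {c s n x v : ℝ} (h0 : 0 ≤ x) (h1 : x ≤ v) :
    |(s + 6 * n) - c * sin x - s * (1 - cos x)| ≤ |s + 6 * n| + (|c| + |s|) * min v 2 := by
  have a1 : |sin x| ≤ min v 2 := le_min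
    (((abs_sin_le_abs (x := x)).trans_eq (abs_of_nonneg h0)).trans h1)
    ((abs_sin_le_one x).trans one_le_two)
  have a2 : |1 - cos x| ≤ min v 2 := by
    rw [abs_of_nonneg (by linarith [cos_le_one x])]
    refine le_min ?_ (by linarith [neg_one_le_cos x])
    rcases le_total x 2 with h | h
    · nlinarith [one_sub_sq_div_two_le_cos (x := x)]
    · linarith [neg_one_le_cos x]
  have b1 : |c * sin x| ≤ |c| * min v 2 := by
    rw [abs_mul]; exact mul_le_mul_of_nonneg_left a1 (abs_nonneg _)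
  have b2 : |s * (1 - cos x)| ≤ |s| * min v 2 := by
    rw [abs_mul]; exact mul_le_mul_of_nonneg_left a2 (abs_nonneg _)
  have c1 := abs_le.1 b1
  have c2 := abs_le.1 b2
  have c3 := le_abs_self (s + 6 * n)
  have c4 := neg_abs_le (s + 6 * n)
  rw [abs_le]
  constructor <;> linarith [c1.1, c1.2, c2.1, c2.2]

lemma esreal_cube {r u : ℝ} (hr : 0 ≤ r) (hu : 0 ≤ u) :
    3 / 2 * u * r ^ 2 - u ^ 3 / 2 ≤ r ^ 3 := by
  nlinarith [mul_nonneg (sq_nonneg (r - u)) (show 0 ≤ r + u / 2 by linarith)]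

lemma esreal_four (r u : ℝ) : 2 * u ^ 2 * r ^ 2 - u ^ 4 ≤ r ^ 4 := by
  nlinarith [sq_nonneg (r ^ 2 - u ^ 2)]

theorem side_real {k0 k1 c s m n h : ℝ} (hh : 0 < h) {lo N : ℕ} (hlo : lo ≤ N)
    (h0 : ∀ y : ℝ, 0 ≤ y → y ≤ (lo * h) ^ 2 → 0 ≤ Fy k0 k1 c s m n y)
    (hc : ∀ j : ℕ, lo ≤ j → j < N → ∀ y d : ℝ, y = ((j : ℝ) ^ 2 + j + 1 / 2) * h ^ 2 →
      d = ((j : ℝ) + 1 / 2) * h ^ 2 →
      d ^ 2 / 2 * (c * cos y + s * sin y + 2 * m + 6 * n * y)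
        + d ^ 3 / 2 * (|s + 6 * n| + (|c| + |s|) * min (y + d) 2) ≤ Fy k0 k1 c s m n y)
    (ht : ∀ y : ℝ, (N * h) ^ 2 ≤ y → 0 ≤ Fy k0 k1 c s m n y) :
    ∀ y : ℝ, 0 ≤ y → 0 ≤ Fy k0 k1 c s m n y := by
  intro y0 hy0
  rcases le_total y0 ((lo * h) ^ 2) with u1 | u1
  · exact h0 y0 hy0 u1
  rcases le_total ((N * h) ^ 2) y0 with u2 | u2
  · exact ht y0 u2
  obtain ⟨w, hw, hmin⟩ := (isCompact_Icc (a := ((lo : ℝ) * h) ^ 2) (b := ((N : ℝ) * h) ^ 2)).exists_isMinOn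
    ⟨y0, u1, u2⟩ (f := Fy k0 k1 c s m n)
    (fun x _ => (esreal_d1 k0 k1 c s m n x).continuousAt.continuousWithinAt)
  have hmin' : ∀ z, ((lo : ℝ) * h) ^ 2 ≤ z → z ≤ ((N : ℝ) * h) ^ 2 →
      Fy k0 k1 c s m n w ≤ Fy k0 k1 c s m n z := fun z a b => hmin ⟨a, b⟩
  refine le_trans ?_ (hmin' y0 u1 u2)
  have hw0 : 0 ≤ w := le_trans (sq_nonneg _) hw.1
  rcases hw.1.eq_or_lt with e1 | e1
  · exact h0 w hw0 e1.ge
  rcases hw.2.eq_or_lt with e2 | e2
  · exact ht w e2.ge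
  have hloc : IsLocalMin (Fy k0 k1 c s m n) w := hmin.isLocalMin (Icc_mem_nhds e1 e2)
  have hz := hloc.hasDerivAt_eq_zero (esreal_d1 k0 k1 c s m n w)
  have hlN : lo < N := by
    rcases hlo.eq_or_lt with e | e
    · subst e; linarith
    · exact e
  have hs2 : √w ^ 2 = w := sq_sqrt hw0
  have x1 : (lo : ℝ) ≤ √w / h := by
    rw [le_div_iff₀ hh]; exact le_sqrt_of_sq_le hw.1
  have x2 : √w / h ≤ N := by
    rw [div_le_iff₀ hh]; exact sqrt_le_iff.2 ⟨by positivity, hw.2⟩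
  obtain ⟨j, j1, j2, j3, j4⟩ := exists_cell hlN x1 x2
  rw [le_div_iff₀ hh] at j3
  rw [div_le_iff₀ hh] at j4
  have j0 : (0 : ℝ) ≤ j := Nat.cast_nonneg j
  have j1' : (lo : ℝ) ≤ j := by exact_mod_cast j1
  have j2' : (j : ℝ) + 1 ≤ N := by exact_mod_cast j2
  have H := hc j j1 (by omega) _ _ rfl rfl
  obtain ⟨y, hy⟩ : ∃ y, y = ((j : ℝ) ^ 2 + j + 1 / 2) * h ^ 2 := ⟨_, rfl⟩
  obtain ⟨d, hd⟩ : ∃ d, d = ((j : ℝ) + 1 / 2) * h ^ 2 := ⟨_, rfl⟩
  rw [← hy, ← hd] at H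
  have d0 : 0 < d := by rw [hd]; positivity
  have f1 : y - d = ((j : ℝ) * h) ^ 2 := by rw [hy, hd]; ring
  have f2 : y + d = (((j : ℝ) + 1) * h) ^ 2 := by rw [hy, hd]; ring
  have g1 : y - d ≤ w := by
    rw [f1, ← hs2]; exact pow_le_pow_left₀ (by positivity) j3 2
  have g2 : w ≤ y + d := by
    rw [f2, ← hs2]; exact pow_le_pow_left₀ (sqrt_nonneg _) j4 2
  have g3 : ((lo : ℝ) * h) ^ 2 ≤ y - d := by
    rw [f1]; exact pow_le_pow_left₀ (by positivity) (mul_le_mul_of_nonneg_right j1' hh.le) 2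
  have g4 : y + d ≤ ((N : ℝ) * h) ^ 2 := by
    rw [f2]; exact pow_le_pow_left₀ (by positivity) (mul_le_mul_of_nonneg_right j2' hh.le) 2
  have g5 : 0 ≤ y - d := by rw [f1]; positivity
  obtain ⟨L, hL⟩ : ∃ L, L = |s + 6 * n| + (|c| + |s|) * min (y + d) 2 := ⟨_, rfl⟩
  have L0 : 0 ≤ L := by
    rw [hL]
    have : 0 ≤ min (y + d) 2 := le_min (by linarith) (by norm_num)
    positivity
  obtain ⟨M, hM⟩ : ∃ M, M = c * cos y + s * sin y + 2 * m + 6 * n * y + d * L := ⟨_, rfl⟩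
  have T : ∀ z, y - d ≤ z → z ≤ y + d →
      Fy k0 k1 c s m n z ≤ Fy k0 k1 c s m n w + M * (z - w) ^ 2 / 2 := fun z z1 z2 =>
    esreal_taylor (esreal_d1 k0 k1 c s m n) (esreal_d2 k1 c s m n)
      (fun x b1 b2 => hM ▸ esreal_lip (esreal_d3 c s m n) L0
        (fun x' c1 c2 => hL ▸ esreal_d3_le (by linarith) c2) b1 b2) hz g1 g2 z1 z2
  have H' : M * d ^ 2 / 2 ≤ Fy k0 k1 c s m n y := by
    rw [← hL] at H
    refine le_trans (le_of_eq ?_) H
    rw [hM]; ring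
  rcases le_or_gt 0 M with M0 | M0
  · have t1 := T y (by linarith) (by linarith)
    have t2 : (y - w) ^ 2 ≤ d ^ 2 := sq_le_sq' (by linarith) (by linarith)
    have t3 := mul_le_mul_of_nonneg_left t2 M0
    linarith
  · exfalso
    rcases g1.eq_or_lt with e | e
    · have t1 := T (y + d) (by linarith) le_rfl
      have t2 := hmin' (y + d) (by linarith) g4
      have t3 : 0 < (y + d - w) ^ 2 := pow_pos (by linarith) 2
      have t4 := mul_neg_of_neg_of_pos M0 t3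
      linarith
    · have t1 := T (y - d) le_rfl (by linarith)
      have t2 := hmin' (y - d) g3 (by linarith)
      have t3 : 0 < (y - d - w) ^ 2 := by
        rw [show (y - d - w) ^ 2 = (w - (y - d)) ^ 2 by ring]
        exact pow_pos (by linarith) 2
      have t4 := mul_neg_of_neg_of_pos M0 t3
      linarith

theorem side_tail {k0 k1 c s m n W : ℝ}
    (h1 : |c| + |s| ≤ k0 + k1 * W + c + s * W + m * W ^ 2 + n * W ^ 3)
    (h2 : 0 ≤ k1 + s + m * (2 * W) + n * (3 * W ^ 2)) (h3 : 0 ≤ m + n * (3 * W)) (h4 : 0 ≤ n) :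
    ∀ y : ℝ, W ≤ y → 0 ≤ Fy k0 k1 c s m n y := by
  intro y hy
  obtain ⟨t, rfl⟩ : ∃ t, y = W + t := ⟨y - W, by ring⟩
  have t0 : 0 ≤ t := by linarith
  have b1 : |c * cos (W + t)| ≤ |c| := by
    rw [abs_mul]; exact mul_le_of_le_one_right (abs_nonneg _) (abs_cos_le_one _)
  have b2 : |s * sin (W + t)| ≤ |s| := by
    rw [abs_mul]; exact mul_le_of_le_one_right (abs_nonneg _) (abs_sin_le_one _)
  have c1 := (abs_le.1 b1).2
  have c2 := (abs_le.1 b2).2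
  have e1 := mul_nonneg h2 t0
  have e2 := mul_nonneg h3 (sq_nonneg t)
  have e3 := mul_nonneg h4 (pow_nonneg t0 3)
  have e : Fy k0 k1 c s m n (W + t) =
      (k0 + k1 * W + c + s * W + m * W ^ 2 + n * W ^ 3) - c * cos (W + t) - s * sin (W + t)
      + (k1 + s + m * (2 * W) + n * (3 * W ^ 2)) * t + (m + n * (3 * W)) * t ^ 2 + n * t ^ 3 := by
    unfold Fy; ring
  rw [e]
  linarith

theorem side_start {k0 c s m n a e : ℝ} (h0 : 0 ≤ k0) (ha : a ≤ 1) (he : a ≤ 12 * e)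
    (h : (|c| + |s|) * (a ^ 2 / 16) + |s + 6 * n| * e ≤ c / 2 + s * e + m + n * (6 * e)) :
    ∀ y : ℝ, 0 ≤ y → y ≤ a → 0 ≤ Fy k0 0 c s m n y := by
  intro y y0 ya
  have y1 : y ≤ 1 := ya.trans ha
  have y4 : 0 ≤ y ^ 4 := by positivity
  have y5 : y ^ 5 ≤ y ^ 4 := by
    rw [pow_succ y 4]; exact mul_le_of_le_one_right y4 y1
  have y5' : 0 ≤ y ^ 5 := by positivity
  have a1 : |1 - cos y - y ^ 2 / 2| ≤ y ^ 4 / 16 := by
    rw [abs_le]
    constructor <;> linarith [lw_cos4 y0, one_sub_sq_div_two_le_cos (x := y)]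
  have a2 : |y - sin y - y ^ 3 / 6| ≤ y ^ 4 / 16 := by
    rw [abs_le]
    constructor <;> linarith [lw_sin3 y0, lw_sin5 y0]
  have b1 : |c * (1 - cos y - y ^ 2 / 2)| ≤ |c| * (y ^ 4 / 16) := by
    rw [abs_mul]; exact mul_le_mul_of_nonneg_left a1 (abs_nonneg _)
  have b2 : |s * (y - sin y - y ^ 3 / 6)| ≤ |s| * (y ^ 4 / 16) := by
    rw [abs_mul]; exact mul_le_mul_of_nonneg_left a2 (abs_nonneg _)
  have c1 := (abs_le.1 b1).1
  have c2 := (abs_le.1 b2).1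
  have c3 : (s + 6 * n) * e - |s + 6 * n| * e ≤ (s + 6 * n) * (y / 6) := by
    rcases le_total 0 (s + 6 * n) with u | u
    · rw [abs_of_nonneg u, sub_self]; positivity
    · rw [abs_of_nonpos u]
      nlinarith [mul_nonneg (neg_nonneg.2 u) (show 0 ≤ 12 * e - y by linarith)]
  have c4 : (|c| + |s|) * (y ^ 2 / 16) ≤ (|c| + |s|) * (a ^ 2 / 16) :=
    mul_le_mul_of_nonneg_left (by linarith [pow_le_pow_left₀ y0 ya 2]) (by positivity)
  have c5 : 0 ≤ c / 2 + m + (s + 6 * n) * (y / 6) - (|c| + |s|) * (y ^ 2 / 16) := by linarith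
  have c6 := mul_nonneg c5 (sq_nonneg y)
  have e : Fy k0 0 c s m n y = k0 +
      (c / 2 + m + (s + 6 * n) * (y / 6) - (|c| + |s|) * (y ^ 2 / 16)) * y ^ 2
      + (c * (1 - cos y - y ^ 2 / 2) + |c| * (y ^ 4 / 16))
      + (s * (y - sin y - y ^ 3 / 6) + |s| * (y ^ 4 / 16)) := by
    unfold Fy; ring
  rw [e]
  linarith

theorem sector {k l c s a b ω : ℝ} (hb : b ≤ a + 3) (h1 : a ≤ ω) (h2 : ω ≤ b)
    (ha' : exp (k * a - l) ≤ c * cos a + s * sin a)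
    (hb' : exp (k * b - l) ≤ c * cos b + s * sin b) :
    exp (k * ω - l) ≤ c * cos ω + s * sin ω := by
  rcases (h1.trans h2).eq_or_lt with rfl | hab'
  · rwa [le_antisymm h2 h1]
  have D0 : 0 < b - a := sub_pos.2 hab'
  have D1 : b - a ≤ π := by linarith [pi_gt_three]
  have D2 : 0 < sin (b - a) := sin_pos_of_pos_of_lt_pi D0 (by linarith [pi_gt_three])
  set θ := (ω - a) / (b - a) with hθ
  have t0 : 0 ≤ θ := div_nonneg (sub_nonneg.2 h1) D0.le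
  have t1 : θ ≤ 1 := (div_le_one D0).2 (by linarith)
  have t2 : θ * (b - a) = ω - a := div_mul_cancel₀ _ D0.ne'
  have u1 := lw_conc t0 t1 D0.le D1
  have u2 := lw_conc (sub_nonneg.2 t1) (by linarith) D0.le D1
  rw [t2] at u1
  rw [show (1 - θ) * (b - a) = b - ω by linarith] at u2
  have u3 : (c * cos ω + s * sin ω) * sin (b - a) = sin (b - ω) * (c * cos a + s * sin a) +
      sin (ω - a) * (c * cos b + s * sin b) := by simp only [sin_sub]; ring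
  have u4 := convexOn_exp.2 (Set.mem_univ (k * a - l)) (Set.mem_univ (k * b - l))
    (sub_nonneg.2 t1) t0 (sub_add_cancel _ _)
  simp only [smul_eq_mul] at u4
  rw [show (1 - θ) * (k * a - l) + θ * (k * b - l) = k * (a + θ * (b - a)) - l by ring,
    t2, add_sub_cancel] at u4
  refine le_of_mul_le_mul_right ?_ D2
  have v1 := mul_le_mul u2 ha' (exp_pos _).le (le_trans (by positivity) u2)
  have v2 := mul_le_mul u1 hb' (exp_pos _).le (le_trans (by positivity) u1)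
  nlinarith [mul_le_mul_of_nonneg_right u4 D2.le]

theorem p2_line {r0 r1 σ κ m α γ wp wn qp qn ρ : ℝ} (h0 : 0 ≤ r0) (h1 : 0 ≤ r1) (hρ : 0 ≤ ρ)
    (a1 : 0 ≤ wp) (a2 : 0 ≤ wn) (a3 : 0 ≤ qp) (a4 : 0 ≤ qn) (s0 : r0 ^ 2 ≤ σ) (s1 : σ ≤ r1 ^ 2)
    (n0 : κ + m * r0 ^ 2 ≤ α * r0 ^ 2 + γ + wp * (3 / 2 * ρ * r0 ^ 2 - ρ ^ 3 / 2) - wn * r0 ^ 3
      + qp * (2 * ρ ^ 2 * r0 ^ 2 - ρ ^ 4) - qn * r0 ^ 4)
    (n1 : κ + m * r1 ^ 2 ≤ α * r1 ^ 2 + γ + wp * (3 / 2 * ρ * r1 ^ 2 - ρ ^ 3 / 2) - wn * r1 ^ 3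
      + qp * (2 * ρ ^ 2 * r1 ^ 2 - ρ ^ 4) - qn * r1 ^ 4) :
    κ + m * σ ≤ α * σ + γ + (wp - wn) * (σ * √σ) + (qp - qn) * σ ^ 2 := by
  have σ0 : 0 ≤ σ := (sq_nonneg _).trans s0
  obtain ⟨u, hu⟩ : ∃ u, u = √σ := ⟨_, rfl⟩
  have u0 : 0 ≤ u := hu ▸ sqrt_nonneg σ
  have u2 : σ = u ^ 2 := hu ▸ (sq_sqrt σ0).symm
  rw [← hu]
  subst u2
  have b0 := mul_le_mul_of_nonneg_left (esreal_cube h0 u0) a2
  have b1 := mul_le_mul_of_nonneg_left (esreal_cube h1 u0) a2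
  have b2 := mul_le_mul_of_nonneg_left (esreal_four r0 u) a4
  have b3 := mul_le_mul_of_nonneg_left (esreal_four r1 u) a4
  have b4 := mul_le_mul_of_nonneg_left (esreal_cube u0 hρ) a1
  have b5 := mul_le_mul_of_nonneg_left (esreal_four u ρ) a3
  obtain ⟨A, hA⟩ : ∃ A, A = α - m + wp * (3 / 2 * ρ) + qp * (2 * ρ ^ 2) - wn * (3 / 2 * u)
    - qn * (2 * u ^ 2) := ⟨_, rfl⟩
  obtain ⟨B, hB⟩ : ∃ B, B = γ - κ - wp * (ρ ^ 3 / 2) - qp * ρ ^ 4 + wn * (u ^ 3 / 2)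
    + qn * u ^ 4 := ⟨_, rfl⟩
  have c0 : 0 ≤ A * r0 ^ 2 + B := by rw [hA, hB]; linarith
  have c1 : 0 ≤ A * r1 ^ 2 + B := by rw [hA, hB]; linarith
  have c2 : 0 ≤ A * u ^ 2 + B := by
    rcases le_total 0 A with hA0 | hA0
    · linarith [mul_le_mul_of_nonneg_left s0 hA0]
    · linarith [mul_le_mul_of_nonpos_left s1 hA0]
  rw [hA, hB] at c2
  linarith

theorem p2_tail {r0 σ κ m α γ wp qp ρ : ℝ} (hρ : 0 ≤ ρ)
    (a1 : 0 ≤ wp) (a3 : 0 ≤ qp) (s0 : r0 ^ 2 ≤ σ)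
    (n0 : κ + m * r0 ^ 2 ≤ α * r0 ^ 2 + γ + wp * (3 / 2 * ρ * r0 ^ 2 - ρ ^ 3 / 2)
      + qp * (2 * ρ ^ 2 * r0 ^ 2 - ρ ^ 4))
    (n1 : m ≤ α + wp * (3 / 2 * ρ) + qp * (2 * ρ ^ 2)) :
    κ + m * σ ≤ α * σ + γ + wp * (σ * √σ) + qp * σ ^ 2 := by
  have σ0 : 0 ≤ σ := (sq_nonneg _).trans s0
  obtain ⟨u, hu⟩ : ∃ u, u = √σ := ⟨_, rfl⟩
  have u0 : 0 ≤ u := hu ▸ sqrt_nonneg σ
  have u2 : σ = u ^ 2 := hu ▸ (sq_sqrt σ0).symm
  rw [← hu]
  subst u2
  have b4 := mul_le_mul_of_nonneg_left (esreal_cube u0 hρ) a1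
  have b5 := mul_le_mul_of_nonneg_left (esreal_four u ρ) a3
  have b6 := mul_le_mul_of_nonneg_left s0 (sub_nonneg.2 n1)
  linarith

end Pool.Agent.Lib.MP_33650d_pr.X.E
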