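import Pool.Agent.Lib.MP_33650d_pr.X.ESReal
import Pool.Agent.Lib.MP_33650d_pr.X.ETab

namespace Pool.Agent.Lib.MP_33650d_pr.X.E
open Real

/-- The row `v` packs the lanes `f`, all of them at most `B`. -/
noncomputable def row_eside (v : ℕ) (f : ℕ → ℕ) (d B : ℕ) : Bool :=
  band (Nat.beq v (packD 104 f d 0)) (Nat.beq (packD 0 (fun i => Nat.sub (f i) B) d 0) 0)

noncomputable def hc_eside (Hc Y U1 U2 Y2 P Q All d : ℕ) : Bool :=
  Nat.beq (Nat.add Hc (Nat.mul 2147483648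
      (Nat.add (Nat.add (Nat.add Y U1) (Nat.add U2 Y2)) (Nat.add P Q))))
    (Nat.add (Nat.mul 10737418240 All)
      (packD 104 (fun _ => 10141204801825835211973625643008) d 0))

theorem rOne6_eside : row_eside vOne6 (lOne 6) 9 1 = true := by
  decide +kernel
theorem rY6_eside : row_eside vY6 (lY 6) 9 288230376151711744 = true := by
  decide +kernel
theorem rU16_eside : row_eside vU16 (lU1 6) 9 36893488147419103232 = true := by
  decide +kernel
theorem rU26_eside : row_eside vU26 (lU2 6) 9 288230376151711744 = true := by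
  decide +kernel
theorem rY26_eside : row_eside vY26 (lY2 6) 9 36893488147419103232 = true := by
  decide +kernel
theorem r3p6_eside : row_eside v3p6 (l3p 6) 9 36893488147419103232 = true := by
  decide +kernel
theorem r3m6_eside : row_eside v3m6 (l3m 6) 9 36893488147419103232 = true := by
  decide +kernel
theorem rAll6_eside : row_eside vAll6 (lAll 6) 9 144115188075855872 = true := by
  decide +kernel
theorem rD6_eside : row_eside vD6 (lD 6) 9 36893488147419103232 = true := by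
  decide +kernel
theorem rDp6_eside : row_eside vDp6 (lDp 6) 9 36893488147419103232 = true := by
  decide +kernel
theorem rDm6_eside : row_eside vDm6 (lDm 6) 9 36893488147419103232 = true := by
  decide +kernel
theorem rHn6_eside : row_eside vHn6 (lHn 6) 9 10141204801825835211973625643008 = true := by
  decide +kernel
theorem rHs6_eside : row_eside vHs6 (lHs 6) 9 10141204801825835211973625643008 = true := by
  decide +kernel
theorem rHc6_eside : hc_eside vHc6 vY6 vU16 vU26 vY26 v3p6 v3m6 vAll6 9 = true := by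
  decide +kernel
theorem rOne8_eside : row_eside vOne8 (lOne 8) 11 1 = true := by
  decide +kernel
theorem rY8_eside : row_eside vY8 (lY 8) 11 288230376151711744 = true := by
  decide +kernel
theorem rU18_eside : row_eside vU18 (lU1 8) 11 36893488147419103232 = true := by
  decide +kernel
theorem rU28_eside : row_eside vU28 (lU2 8) 11 288230376151711744 = true := by
  decide +kernel
theorem rY28_eside : row_eside vY28 (lY2 8) 11 36893488147419103232 = true := by
  decide +kernel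
theorem r3p8_eside : row_eside v3p8 (l3p 8) 11 36893488147419103232 = true := by
  decide +kernel
theorem r3m8_eside : row_eside v3m8 (l3m 8) 11 36893488147419103232 = true := by
  decide +kernel
theorem rAll8_eside : row_eside vAll8 (lAll 8) 11 144115188075855872 = true := by
  decide +kernel
theorem rD8_eside : row_eside vD8 (lD 8) 11 36893488147419103232 = true := by
  decide +kernel
theorem rDp8_eside : row_eside vDp8 (lDp 8) 11 36893488147419103232 = true := by
  decide +kernel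
theorem rDm8_eside : row_eside vDm8 (lDm 8) 11 36893488147419103232 = true := by
  decide +kernel
theorem rHn8_eside : row_eside vHn8 (lHn 8) 11 10141204801825835211973625643008 = true := by
  decide +kernel
theorem rHs8_eside : row_eside vHs8 (lHs 8) 11 10141204801825835211973625643008 = true := by
  decide +kernel
theorem rHc8_eside : hc_eside vHc8 vY8 vU18 vU28 vY28 v3p8 v3m8 vAll8 11 = true := by
  decide +kernel
theorem v251_eside : fOne 6 251 = 0 ∧
    fY 6 251 = 0 ∧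
    fU1 6 251 = 146366987889541120 ∧
    fU2 6 251 = 144115554579731798 ∧
    fY2 6 251 = 4503599627370496 ∧
    fY3 6 251 = 144117387099111428 ∧
    fD 6 251 = 268435456 ∧
    fD3 6 251 = 366503875926 := by
  decide +kernel
theorem v252_eside : fOne 6 252 = 1 ∧
    fY 6 252 = 69270332061515776 ∧
    fU1 6 252 = 148618787703226368 ∧
    fU2 6 252 = 213385520137371648 ∧
    fY2 6 252 = 1065454147999891456 ∧
    fY3 6 252 = 16531975729614225408 ∧
    fD 6 252 = 4503599627370496 ∧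
    fD3 6 252 = 0 := by
  decide +kernel
theorem v253_eside : fOne 6 253 = 0 ∧
    fY 6 253 = 4503599627370496 ∧
    fU1 6 253 = 144115188075855872 ∧
    fU2 6 253 = 148618787703226368 ∧
    fY2 6 253 = 138540664123031552 ∧
    fY3 6 253 = 3340477632075530240 ∧
    fD 6 253 = 0 ∧
    fD3 6 253 = 0 := by
  decide +kernel
theorem v254_eside : fOne 6 254 = 0 ∧
    fY 6 254 = 0 ∧
    fU1 6 254 = 144115188075855872 ∧
    fU2 6 254 = 144115188075855872 ∧
    fY2 6 254 = 4503599627370496 ∧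
    fY3 6 254 = 351926184260403200 ∧
    fD 6 254 = 0 ∧
    fD3 6 254 = 0 := by
  decide +kernel
theorem v255_eside : fOne 6 255 = 0 ∧
    fY 6 255 = 0 ∧
    fU1 6 255 = 144115188075855872 ∧
    fU2 6 255 = 144115188075855872 ∧
    fY2 6 255 = 0 ∧
    fY3 6 255 = 148618787703226368 ∧
    fD 6 255 = 0 ∧
    fD3 6 255 = 0 := by
  decide +kernel
theorem v1019_eside : fOne 8 1019 = 0 ∧
    fY 8 1019 = 0 ∧
    fU1 8 1019 = 146366987889541120 ∧
    fU2 8 1019 = 144115210982348118 ∧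
    fY2 8 1019 = 4503599627370496 ∧
    fY3 8 1019 = 144115325514809348 ∧
    fD 8 1019 = 1048576 ∧
    fD3 8 1019 = 22906492246 := by
  decide +kernel
theorem v1020_eside : fOne 8 1020 = 1 ∧
    fY 8 1020 = 71355624583069696 ∧
    fU1 8 1020 = 148618787703226368 ∧
    fU2 8 1020 = 215470812658925568 ∧
    fY2 8 1020 = 1130567896998608896 ∧
    fY3 8 1020 = 18056981583574093968 ∧
    fD 8 1020 = 4503599627370496 ∧
    fD3 8 1020 = 0 := by
  decide +kernel
theorem v1021_eside : fOne 8 1021 = 0 ∧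
    fY 8 1021 = 4503599627370496 ∧
    fU1 8 1021 = 144115188075855872 ∧
    fU2 8 1021 = 148618787703226368 ∧
    fY2 8 1021 = 142711249166139392 ∧
    fY3 8 1021 = 3535818879071682560 ∧
    fD 8 1021 = 0 ∧
    fD3 8 1021 = 0 := by
  decide +kernel
theorem v1022_eside : fOne 8 1022 = 0 ∧
    fY 8 1022 = 0 ∧
    fU1 8 1022 = 144115188075855872 ∧
    fU2 8 1022 = 144115188075855872 ∧
    fY2 8 1022 = 4503599627370496 ∧
    fY3 8 1022 = 358182061825064960 ∧
    fD 8 1022 = 0 ∧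
    fD3 8 1022 = 0 := by
  decide +kernel
theorem v1023_eside : fOne 8 1023 = 0 ∧
    fY 8 1023 = 0 ∧
    fU1 8 1023 = 144115188075855872 ∧
    fU2 8 1023 = 144115188075855872 ∧
    fY2 8 1023 = 0 ∧
    fY3 8 1023 = 148618787703226368 ∧
    fD 8 1023 = 0 ∧
    fD3 8 1023 = 0 := by
  decide +kernel

seal Nat.shiftRight Nat.shiftLeft Nat.mod Nat.sub Nat.add Nat.mul Nat.land cexp packD
  vOne6 vY6 vU16 vU26 vY26 v3p6 v3m6 vAll6 vD6 vDp6 vDm6 vHc6 vHn6 vHs6
  vOne8 vY8 vU18 vU28 vY28 v3p8 v3m8 vAll8 vD8 vDp8 vDm8 vHc8 vHn8 vHs8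

theorem row_rep_eside {v d B : ℕ} {f : ℕ → ℕ} (h : row_eside v f d B = true) :
    Rep 104 (2 ^ d) v f B := by
  rw [row_eside, band_eq] at h
  refine packD_rep (Nat.eq_of_beq_eq_true h.1) fun i hi => ?_
  have h2 := Nat.eq_of_beq_eq_true h.2
  rw [packD_eq, pk, Finset.sum_eq_zero_iff] at h2
  have h3 := h2 i (Finset.mem_range.2 hi)
  rw [Nat.zero_mul, pow_zero, mul_one, Nat.zero_add, Nat.sub_eq] at h3
  omega

theorem mask_eside {w n X Y H Hm B C : ℕ} {u v hm : ℕ → ℕ}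
    (hH : H = pk (w + 1) n fun _ => 2 ^ w) (hX : Rep (w + 1) n X u B) (hY : Rep (w + 1) n Y v C)
    (hB : B < 2 ^ w) (hC : C < 2 ^ w) (hM : Rep (w + 1) n Hm hm (2 ^ w))
    (h : (X + H - Y) &&& Hm = Hm) {i : ℕ} (hi : i < n) (hb : hm i = 2 ^ w) : v i ≤ u i := by
  have hp : 0 < 2 ^ w := by positivity
  have hD : X + H - Y = pk (w + 1) n fun i => u i + 2 ^ w - v i := by
    rw [hX.1, hH, hY.1, pk_add, pk_sub]
    intro j hj
    have := hY.2 j hj
    omega
  have hDb : ∀ j < n, u j + 2 ^ w - v j < 2 ^ (w + 1) := by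
    intro j hj
    have := hX.2 j hj
    rw [pow_succ]; omega
  have hMb : ∀ j < n, hm j < 2 ^ (w + 1) := by
    intro j hj
    have := hM.2 j hj
    rw [pow_succ]; omega
  have h3 := congrArg (fun z => Nat.testBit z ((w + 1) * i + w)) h
  simp only [Nat.testBit_and] at h3
  have hb' : Hm.testBit ((w + 1) * i + w) = true := by
    rw [hM.1, pk_testBit hMb hi (by omega), hb]; simp
  rw [hb', Bool.and_true, hD, pk_testBit hDb hi (by omega)] at h3
  have := Nat.ge_two_pow_of_testBit h3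
  have := hY.2 _ hi
  omega

theorem absB_le_eside {x b B : ℕ} (h1 : x ≤ B) (h2 : b ≤ B) : absB x b ≤ B := by
  rw [absB, Nat.add_eq, Nat.sub_eq, Nat.sub_eq]; omega

/-- The inequality of one lane, in real terms. -/
def Lr_eside (K0 K1 C S M P Q : ℝ) (one y u1 u2 y2 p q d dp dm : ℕ) : Prop :=
  (|C| + |S|) * d + |S + 6 * P| * dp + |6 * Q - S| * dm ≤
    K0 * one * 2 ^ 52 + K1 * (y - 2 ^ 57) + C * (u1 - 2 ^ 57) + S * (u2 - 2 ^ 57) + M * y2
      + P * (p - 2 ^ 57) + Q * (q - 2 ^ 57)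

theorem lane_real_eside {k0 k1 c s m np nm one y u1 u2 y2 p q d dp dm : ℕ}
    (h : ((k1 + c + (s + (np + nm))) * 144115188075855872
          + (absB c 2147483648 + absB s 2147483648) * d
          + (absB (s + 6 * np) 15032385536 * dp + absB (6 * nm) (s + 10737418240) * dm))
        + 2147483648 * (y + u1 + (u2 + y2) + (p + q)) ≤
      np * p + nm * q + k0 * one + (k1 * y + c * u1) + (s * u2 + m * y2)
        + 10737418240 * 144115188075855872) :
    Lr_eside (k0 / 2 ^ 76) (cv k1) (cv c) (cv s) (cv m) (cv np) (cv nm)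
      one y u1 u2 y2 p q d dp dm := by
  have h' := (Nat.cast_le (α := ℝ)).2 h
  push_cast at h'
  simp only [absB_cast] at h'
  push_cast at h'
  have e1 : |cv c| = |(c : ℝ) - 2147483648| / 2 ^ 24 := by
    rw [cv, abs_div, abs_of_pos (show (0 : ℝ) < 2 ^ 24 by positivity)]; norm_num
  have e2 : |cv s| = |(s : ℝ) - 2147483648| / 2 ^ 24 := by
    rw [cv, abs_div, abs_of_pos (show (0 : ℝ) < 2 ^ 24 by positivity)]; norm_num
  have e3 : |cv s + 6 * cv np| = |(s : ℝ) + 6 * np - 15032385536| / 2 ^ 24 := by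
    rw [show cv s + 6 * cv np = ((s : ℝ) + 6 * np - 15032385536) / 2 ^ 24 by
      rw [cv, cv]; ring, abs_div, abs_of_pos (show (0 : ℝ) < 2 ^ 24 by positivity)]
  have e4 : |6 * cv nm - cv s| = |6 * (nm : ℝ) - (s + 10737418240)| / 2 ^ 24 := by
    rw [show 6 * cv nm - cv s = (6 * (nm : ℝ) - (s + 10737418240)) / 2 ^ 24 by
      rw [cv, cv]; ring, abs_div, abs_of_pos (show (0 : ℝ) < 2 ^ 24 by positivity)]
  rw [Lr_eside, e1, e2, e3, e4]
  simp only [cv]
  generalize |(c : ℝ) - 2147483648| = A1 at *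
  generalize |(s : ℝ) - 2147483648| = A2 at *
  generalize |(s : ℝ) + 6 * np - 15032385536| = A3 at *
  generalize |6 * (nm : ℝ) - (s + 10737418240)| = A4 at *
  linarith

theorem lanes_eside {n One Y U1 U2 Y2 P Q All D Dp Dm Hc Hm k0 k1 c s m np nm : ℕ}
    {one y u1 u2 y2 p q d dp dm hm : ℕ → ℕ}
    (h0 : k0 ≤ 2 ^ 97) (h1 : k1 < 2 ^ 32) (h2 : c < 2 ^ 32) (h3 : s < 2 ^ 32) (h4 : m < 2 ^ 32)
    (h5 : np < 2 ^ 32) (h6 : nm < 2 ^ 32)
    (r0 : Rep 104 n One one 1) (r1 : Rep 104 n Y y 288230376151711744)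
    (r2 : Rep 104 n U1 u1 36893488147419103232) (r3 : Rep 104 n U2 u2 288230376151711744)
    (r4 : Rep 104 n Y2 y2 36893488147419103232) (r5 : Rep 104 n P p 36893488147419103232)
    (r6 : Rep 104 n Q q 36893488147419103232)
    (r7 : Rep 104 n All (fun _ => 144115188075855872) 144115188075855872)
    (r8 : Rep 104 n D d 36893488147419103232) (r9 : Rep 104 n Dp dp 36893488147419103232)
    (r10 : Rep 104 n Dm dm 36893488147419103232)
    (rM : Rep 104 n Hm hm 10141204801825835211973625643008)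
    (hc : Hc + 2147483648 * (Y + U1 + (U2 + Y2) + (P + Q))
      = 10737418240 * All + pk 104 n fun _ => 10141204801825835211973625643008)
    (h : (Hc + (np * P + nm * Q) + k0 * One + (k1 * Y + c * U1) + (s * U2 + m * Y2)
      - ((k1 + c + (s + (np + nm))) * All + (absB c 2147483648 + absB s 2147483648) * D
        + (absB (s + 6 * np) 15032385536 * Dp + absB (6 * nm) (s + 10737418240) * Dm))) &&& Hm
      = Hm) {i : ℕ} (hi : i < n) (hb : hm i = 10141204801825835211973625643008) :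
    Lr_eside (k0 / 2 ^ 76) (cv k1) (cv c) (cv s) (cv m) (cv np) (cv nm)
      (one i) (y i) (u1 i) (u2 i) (y2 i) (p i) (q i) (d i) (dp i) (dm i) := by
  have a1 : absB c 2147483648 + absB s 2147483648 ≤ 2 ^ 33 := by
    have := absB_le_eside (x := c) (b := 2147483648) (B := 2 ^ 32) h2.le (by norm_num)
    have := absB_le_eside (x := s) (b := 2147483648) (B := 2 ^ 32) h3.le (by norm_num)
    omega
  have a2 : absB (s + 6 * np) 15032385536 ≤ 2 ^ 35 := absB_le_eside (by omega) (by norm_num)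
  have a3 : absB (6 * nm) (s + 10737418240) ≤ 2 ^ 35 := absB_le_eside (by omega) (by omega)
  have a4 : k1 + c + (s + (np + nm)) ≤ 2 ^ 35 := by omega
  have hX := (((((r5.mul' h5.le).add (r6.mul' h6.le)).add (r0.mul' h0)).add
    ((r1.mul' h1.le).add (r2.mul' h2.le))).add ((r3.mul' h3.le).add (r4.mul' h4.le))).add
    (r7.mul 10737418240)
  have hY := (((r7.mul' a4).add (r8.mul' a1)).add ((r9.mul' a2).add (r10.mul' a3))).add
    ((((r1.add r2).add (r3.add r4)).add (r5.add r6)).mul 2147483648)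
  have e : (10141204801825835211973625643008 : ℕ) = 2 ^ 103 := by norm_num
  rw [e] at hc rM hb
  refine lane_real_eside (mask_eside (w := 103) rfl hX hY (by norm_num) (by norm_num) rM ?_ hi hb)
  simp only [Nat.add_eq, Nat.mul_eq]
  refine Eq.trans ?_ h
  congr 1
  generalize pk 104 n (fun _ => 2 ^ 103) = H at hc ⊢
  generalize np * P = t1
  generalize nm * Q = t2
  generalize k0 * One = t3
  generalize k1 * Y = t4
  generalize c * U1 = t5
  generalize s * U2 = t6
  generalize m * Y2 = t7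
  generalize (k1 + c + (s + (np + nm))) * All + (absB c 2147483648 + absB s 2147483648) * D
    + (absB (s + 6 * np) 15032385536 * Dp + absB (6 * nm) (s + 10737418240) * Dm) = t8
  omega

/-- The inequality of lane `j` of one half. -/
def Lh_eside (g : ℕ) (K0 K1 C S M N : ℝ) (j : ℕ) : Prop :=
  (|C| + |S|) * fD g j + |S + 6 * N| * fD3 g j ≤
    K0 * fOne g j * 2 ^ 52 + K1 * fY g j + C * (fU1 g j - 2 ^ 57) + S * (fU2 g j - 2 ^ 57)
      + M * fY2 g j + N * (fY3 g j - 2 ^ 57)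

theorem two_lo_eside {g j : ℕ} (a b : ℕ → ℕ) (h : j < gN g) : two g a b j = a j := by
  rw [two, etab_ble_false h, ite'_false]

theorem two_hi_eside {g : ℕ} (j : ℕ) (a b : ℕ → ℕ) : two g a b (gN g + j) = b j := by
  rw [two, Nat.ble_eq_true_of_le (Nat.le_add_right _ _), ite'_true, force_eq, Nat.sub_eq,
    Nat.add_sub_cancel_left]

theorem lo_eside {g j : ℕ} {K0 K1 C S M P Q : ℝ} (hj : j < gN g)
    (h : Lr_eside K0 K1 C S M P Q (lOne g j) (lY g j) (lU1 g j) (lU2 g j) (lY2 g j) (l3p g j)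
      (l3m g j) (lD g j) (lDp g j) (lDm g j)) : Lh_eside g K0 K1 C S M P j := by
  simp only [Lr_eside, lOne, lY, lU1, lU2, lY2, l3p, l3m, lD, lDp, lDm, two_lo_eside _ _ hj,
    cast_nadd] at h
  push_cast at h
  rw [Lh_eside]
  linarith

theorem hi_eside {g j : ℕ} {K0 K1 C S M P Q : ℝ} (hj : j < gN g)
    (b1 : lY g j ≤ 288230376151711744) (b2 : lU2 g j ≤ 288230376151711744)
    (h : Lr_eside K0 K1 C S M P Q (lOne g (gN g + j)) (lY g (gN g + j)) (lU1 g (gN g + j))
      (lU2 g (gN g + j)) (lY2 g (gN g + j)) (l3p g (gN g + j)) (l3m g (gN g + j))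
      (lD g (gN g + j)) (lDp g (gN g + j)) (lDm g (gN g + j))) :
    Lh_eside g K0 (-K1) C (-S) M Q j := by
  rw [lY, two_lo_eside _ _ hj, Nat.add_eq] at b1
  rw [lU2, two_lo_eside _ _ hj] at b2
  have c1 : ((Nat.sub 144115188075855872 (fY g j) : ℕ) : ℝ) = 144115188075855872 - fY g j := by
    rw [cast_nsub (by exact_mod_cast (show fY g j ≤ 144115188075855872 by omega))]
    push_cast; rfl
  have c2 : ((Nat.sub 288230376151711744 (fU2 g j) : ℕ) : ℝ) = 288230376151711744 - fU2 g j := by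
    rw [cast_nsub (by exact_mod_cast b2)]
    push_cast; rfl
  simp only [Lr_eside, lOne, lY, lU1, lU2, lY2, l3p, l3m, lD, lDp, lDm, two_hi_eside, c1, c2] at h
  push_cast at h
  rw [Lh_eside, abs_neg, show -S + 6 * Q = 6 * Q - S by ring]
  linarith

theorem pick_eside {g j : ℕ} (h : j + 6 ≤ gN g) (a st b1 b2 b3 b4 : ℕ) :
    pickL g j a st b1 b2 b3 b4 = a := by
  rw [pickL, Nat.add_eq, Nat.ble_eq_true_of_le h, ite'_true]

theorem gN6_eside : gN 6 = 256 := by rw [gN, npow_eq, Nat.add_eq]; norm_num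
theorem gN8_eside : gN 8 = 1024 := by rw [gN, npow_eq, Nat.add_eq]; norm_num

theorem gy_eside (j : ℕ) : (gy j : ℝ) = 2 * ((j : ℝ) ^ 2 + j + 1 / 2) := by
  rw [gy, cast_nadd, cast_nmul, cast_nmul, cast_nadd]; push_cast; ring

theorem gd_eside (j : ℕ) : (gd j : ℝ) = 2 * ((j : ℝ) + 1 / 2) := by
  rw [gd, cast_nadd, cast_nmul]; push_cast; ring

theorem trig_eside {A : ℕ} {x t e u F : ℝ} (hF : 0 ≤ F) (hF2 : F ≤ 2)
    (h1 : |(A : ℝ) - (x - t * F) * 2 ^ 52| ≤ 1) (h2 : |t - u| ≤ e) (he : e ≤ 1 / 2 ^ 53) :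
    |(A : ℝ) - (x - u * F) * 2 ^ 52| ≤ 2 := by
  have h3 : |(t - u) * F| ≤ 1 / 2 ^ 53 * 2 := by
    rw [abs_mul, abs_of_nonneg hF]
    exact mul_le_mul (h2.trans he) hF2 hF (by positivity)
  obtain ⟨a1, a2⟩ := abs_le.1 h1
  obtain ⟨a3, a4⟩ := abs_le.1 h3
  rw [abs_le]
  constructor <;> linarith

theorem cell_eside {g j : ℕ} (hg : g = 6 ∨ g = 8) (hj : j + 6 ≤ gN g) {y d : ℝ}
    (hy : (gy j : ℝ) = y * 2 ^ (2 * g + 1)) (hd : (gd j : ℝ) = d * 2 ^ (2 * g + 1))
    (y0 : 0 ≤ y) (y1 : y ≤ 16) (d0 : 0 ≤ d) (d1 : d ≤ 1 / 16) (dy : d ≤ y) :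
    fOne g j = 1 ∧ (fY g j : ℝ) = y * 2 ^ 52 ∧ (fY2 g j : ℝ) = (y ^ 2 - d ^ 2) * 2 ^ 52 ∧
      (fY3 g j : ℝ) = 2 ^ 57 + (y ^ 3 - 3 * y * d ^ 2) * 2 ^ 52 ∧
      (fD3 g j : ℝ) = d ^ 3 / 2 * 2 ^ 52 ∧
      d ^ 3 / 2 * min (y + d) 2 * 2 ^ 52 + 2 ≤ fD g j ∧
      |(fU1 g j : ℝ) - (33 - cos y * (1 + d ^ 2 / 2)) * 2 ^ 52| ≤ 2 ∧
      |(fU2 g j : ℝ) - (32 + y - sin y * (1 + d ^ 2 / 2)) * 2 ^ 52| ≤ 2 := by
  have d2 : d ^ 2 ≤ 1 / 256 := by nlinarith
  have d3 : 0 ≤ d ^ 2 := sq_nonneg d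
  have d4 : y * d ^ 2 ≤ 16 * (1 / 256) := mul_le_mul y1 d2 d3 (by norm_num)
  have y3 : 0 ≤ y ^ 3 := by positivity
  have y2 : d ^ 2 ≤ y ^ 2 := pow_le_pow_left₀ d0 dy 2
  have hF : (gF g j : ℝ) = (1 + d ^ 2 / 2) * 2 ^ (4 * g + 3) := by
    rw [gF, cast_nadd, cast_nmul, hd, npow_eq, Nat.add_eq, Nat.mul_eq]
    push_cast; ring
  have hn : Near (gZ g j) y (1 / 2 ^ 53) := by
    have e : ((Nat.shiftLeft (gy j) (Nat.sub 57 (Nat.mul 2 g)) : ℕ) : ℝ) = y * 2 ^ 58 := by
      rw [cast_shl, hy, Nat.mul_eq, Nat.sub_eq]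
      rcases hg with rfl | rfl <;> ring
    have := cexp_near 22 (Nat.shiftLeft (gy j) (Nat.sub 57 (Nat.mul 2 g))) (b := 1 / 2 ^ 18)
      (e := 1 / 2 ^ 53) (by rw [e, div_le_iff₀ (by positivity)]; linarith) (by norm_num)
      (by norm_num) (by norm_num)
    rw [e, show (2 : ℝ) ^ 22 * (y * 2 ^ 58 / 2 ^ 80) = y by ring] at this
    rw [gZ]
    exact this
  obtain ⟨n1, n2⟩ := parts_of_norm hn
  have hA : ((Nat.mod (gZ g j) 79228162514264337593543950336 : ℕ) : ℝ)
      = (cre (gZ g j) + 2) * 2 ^ 80 := by rw [cre]; field_simp; ring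
  have hB : ((Nat.shiftRight (gZ g j) 96 : ℕ) : ℝ) = (cim (gZ g j) + 2) * 2 ^ 80 := by
    rw [cim]; field_simp; ring
  have t1 : cre (gZ g j) ≤ 2 := by
    have := (abs_le.1 n1).2
    have := cos_le_one y
    linarith [show (1 : ℝ) / 2 ^ 53 ≤ 1 by norm_num]
  have t2 : cim (gZ g j) ≤ 2 := by
    have := (abs_le.1 n2).2
    have := sin_le_one y
    linarith [show (1 : ℝ) / 2 ^ 53 ≤ 1 by norm_num]
  have t3 : cre (gZ g j) * (1 + d ^ 2 / 2) ≤ 2 * (1 + d ^ 2 / 2) :=
    mul_le_mul_of_nonneg_right t1 (by positivity)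
  have t4 : cim (gZ g j) * (1 + d ^ 2 / 2) ≤ 2 * (1 + d ^ 2 / 2) :=
    mul_le_mul_of_nonneg_right t2 (by positivity)
  refine ⟨?_, ?_, ?_, ?_, ?_, ?_, ?_, ?_⟩
  · rw [fOne, pick_eside hj]
  · rw [fY, pick_eside hj, cast_shl, hy, Nat.mul_eq, Nat.sub_eq]
    rcases hg with rfl | rfl <;> ring
  · rw [fY2, pick_eside hj, cast_shl, cast_nsub, cast_nmul, cast_nmul, hy, hd, Nat.mul_eq,
      Nat.sub_eq]
    · rcases hg with rfl | rfl <;> ring
    · rw [cast_nmul, cast_nmul, hy, hd]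
      have := mul_le_mul_of_nonneg_right dy (show (0 : ℝ) ≤ 2 ^ (2 * g + 1) by positivity)
      exact mul_self_le_mul_self (by positivity) this
  · have e1 : ((Nat.shiftLeft (Nat.mul (gy j) (Nat.mul (gy j) (gy j)))
        (Nat.sub 49 (Nat.mul 6 g)) : ℕ) : ℝ) = y ^ 3 * 2 ^ 52 := by
      rw [cast_shl, cast_nmul, cast_nmul, hy, Nat.mul_eq, Nat.sub_eq]
      rcases hg with rfl | rfl <;> ring
    have e2 : ((Nat.shiftLeft (Nat.mul 3 (Nat.mul (gy j) (Nat.mul (gd j) (gd j))))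
        (Nat.sub 49 (Nat.mul 6 g)) : ℕ) : ℝ) = 3 * y * d ^ 2 * 2 ^ 52 := by
      rw [cast_shl, cast_nmul, cast_nmul, cast_nmul, hy, hd, Nat.mul_eq, Nat.sub_eq]
      rcases hg with rfl | rfl <;> (push_cast; ring)
    rw [fY3, pick_eside hj, cast_nsub, cast_nadd, e1, e2]
    · push_cast; ring
    · rw [cast_nadd, e1, e2]; push_cast; linarith
  · rw [fD3, pick_eside hj, cast_shl, cast_nmul, cast_nmul, hd, Nat.mul_eq, Nat.sub_eq]
    rcases hg with rfl | rfl <;> ring
  · have e1 : ((mn (Nat.add (gy j) (gd j)) (Nat.pow 2 (Nat.add (Nat.mul 2 g) 2)) : ℕ) : ℝ)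
        = min (y + d) 2 * 2 ^ (2 * g + 1) := by
      rw [mn_eq, Nat.cast_min, cast_nadd, hy, hd, npow_eq, Nat.add_eq, Nat.mul_eq,
        min_mul_of_nonneg _ _ (by positivity)]
      congr 1
      · ring
      · push_cast; ring
    rw [fD, pick_eside hj, cast_nadd]
    refine le_trans (le_of_eq ?_) (add_le_add_left (cast_shr_ge _ _) _)
    rw [cast_shl, cast_nmul, cast_nmul, cast_nmul, e1, hd, Nat.mul_eq]
    rcases hg with rfl | rfl <;> (push_cast; ring)
  · refine trig_eside (by positivity) (by linarith) ?_ n1 le_rfl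
    rw [fU1, pick_eside hj]
    refine shr_near (by nlinarith) ?_
    rw [cast_nadd, cast_shl, cast_shl, cast_nmul, hA, hF]
    simp only [Nat.mul_eq, Nat.add_eq]
    push_cast; ring
  · refine trig_eside (by positivity) (by linarith) ?_ n2 le_rfl
    rw [fU2, pick_eside hj]
    refine shr_near (by nlinarith) ?_
    rw [cast_nadd, cast_nadd, cast_shl, cast_shl, cast_shl, cast_nmul, hB, hF, hy]
    simp only [Nat.mul_eq, Nat.add_eq]
    push_cast; ring

theorem hc_real_eside {g j : ℕ} (hg : g = 6 ∨ g = 8) (hj : j + 6 ≤ gN g) {K0 K1 C S M N : ℝ}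
    (h : Lh_eside g K0 K1 C S M N j) {y d : ℝ}
    (hy : y = ((j : ℝ) ^ 2 + j + 1 / 2) * (1 / 2 ^ g) ^ 2) (hd : d = ((j : ℝ) + 1 / 2) * (1 / 2 ^ g) ^ 2) :
    d ^ 2 / 2 * (C * cos y + S * sin y + 2 * M + 6 * N * y)
      + d ^ 3 / 2 * (|S + 6 * N| + (|C| + |S|) * min (y + d) 2) ≤ Fy K0 K1 C S M N y := by
  have j0 : (0 : ℝ) ≤ j := Nat.cast_nonneg j
  have b : y ≤ 16 ∧ d ≤ 1 / 16 := by
    rcases hg with rfl | rfl
    · rw [gN6_eside] at hj
      have : (j : ℝ) ≤ 250 := by exact_mod_cast (show j ≤ 250 by omega)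
      rw [hy, hd]; constructor <;> nlinarith
    · rw [gN8_eside] at hj
      have : (j : ℝ) ≤ 1018 := by exact_mod_cast (show j ≤ 1018 by omega)
      rw [hy, hd]; constructor <;> nlinarith
  obtain ⟨e1, e2, e3, e4, e5, e6, e7, e8⟩ := cell_eside hg hj (y := y) (d := d)
    (by rw [gy_eside, hy]; rcases hg with rfl | rfl <;> ring)
    (by rw [gd_eside, hd]; rcases hg with rfl | rfl <;> ring)
    (by rw [hy]; positivity) b.1 (by rw [hd]; positivity) b.2
    (by rw [hy, hd]; exact mul_le_mul_of_nonneg_right (by nlinarith) (by positivity))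
  rw [Lh_eside, e1, e2, e3, e4, e5] at h
  have f1 : C * ((fU1 g j : ℝ) - (33 - cos y * (1 + d ^ 2 / 2)) * 2 ^ 52) ≤ |C| * 2 :=
    (le_abs_self _).trans (by rw [abs_mul]; exact mul_le_mul_of_nonneg_left e7 (abs_nonneg _))
  have f2 : S * ((fU2 g j : ℝ) - (32 + y - sin y * (1 + d ^ 2 / 2)) * 2 ^ 52) ≤ |S| * 2 :=
    (le_abs_self _).trans (by rw [abs_mul]; exact mul_le_mul_of_nonneg_left e8 (abs_nonneg _))
  have f3 := mul_le_mul_of_nonneg_left e6 (add_nonneg (abs_nonneg C) (abs_nonneg S))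
  rw [Fy]
  push_cast at h
  linarith

theorem ends_eside {g : ℕ} (hg : g = 6 ∨ g = 8) {K0 K1 C S M N : ℝ} :
    (0 ≤ K0 → K1 = 0 → Lh_eside g K0 K1 C S M N (gN g - 5) →
      ∀ y : ℝ, 0 ≤ y → y ≤ (((2 : ℕ) : ℝ) * (1 / 2 ^ g)) ^ 2 → 0 ≤ Fy K0 K1 C S M N y) ∧
    ((∀ j, gN g - 5 < j → j < gN g → Lh_eside g K0 K1 C S M N j) →
      ∀ y : ℝ, (((gN g - 5 : ℕ) : ℝ) * (1 / 2 ^ g)) ^ 2 ≤ y → 0 ≤ Fy K0 K1 C S M N y) := by
  rcases hg with rfl | rfl
  · rw [gN6_eside]
    refine ⟨fun h0 h1 h => ?_, fun h => ?_⟩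
    · obtain ⟨a1, a2, a3, a4, a5, a6, a7, a8⟩ := v251_eside
      rw [show 256 - 5 = 251 from rfl, Lh_eside, a1, a2, a3, a4, a5, a6, a7, a8] at h
      subst h1
      push_cast at h
      exact side_start (e := 366503875926 / 2 ^ 52) h0 (by norm_num) (by norm_num)
        (by push_cast; linarith)
    · have h1 := h 252 (by norm_num) (by norm_num)
      have h2 := h 253 (by norm_num) (by norm_num)
      have h3 := h 254 (by norm_num) (by norm_num)
      have h4 := h 255 (by norm_num) (by norm_num)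
      obtain ⟨a1, a2, a3, a4, a5, a6, a7, a8⟩ := v252_eside
      rw [Lh_eside, a1, a2, a3, a4, a5, a6, a7, a8] at h1
      obtain ⟨a1, a2, a3, a4, a5, a6, a7, a8⟩ := v253_eside
      rw [Lh_eside, a1, a2, a3, a4, a5, a6, a7, a8] at h2
      obtain ⟨a1, a2, a3, a4, a5, a6, a7, a8⟩ := v254_eside
      rw [Lh_eside, a1, a2, a3, a4, a5, a6, a7, a8] at h3
      obtain ⟨a1, a2, a3, a4, a5, a6, a7, a8⟩ := v255_eside
      rw [Lh_eside, a1, a2, a3, a4, a5, a6, a7, a8] at h4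
      rw [show 256 - 5 = 251 from rfl]
      push_cast at h1 h2 h3 h4 ⊢
      exact side_tail (by linarith) (by linarith) (by linarith) (by linarith)
  · rw [gN8_eside]
    refine ⟨fun h0 h1 h => ?_, fun h => ?_⟩
    · obtain ⟨a1, a2, a3, a4, a5, a6, a7, a8⟩ := v1019_eside
      rw [show 1024 - 5 = 1019 from rfl, Lh_eside, a1, a2, a3, a4, a5, a6, a7, a8] at h
      subst h1
      push_cast at h
      exact side_start (e := 22906492246 / 2 ^ 52) h0 (by norm_num) (by norm_num)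
        (by push_cast; linarith)
    · have h1 := h 1020 (by norm_num) (by norm_num)
      have h2 := h 1021 (by norm_num) (by norm_num)
      have h3 := h 1022 (by norm_num) (by norm_num)
      have h4 := h 1023 (by norm_num) (by norm_num)
      obtain ⟨a1, a2, a3, a4, a5, a6, a7, a8⟩ := v1020_eside
      rw [Lh_eside, a1, a2, a3, a4, a5, a6, a7, a8] at h1
      obtain ⟨a1, a2, a3, a4, a5, a6, a7, a8⟩ := v1021_eside
      rw [Lh_eside, a1, a2, a3, a4, a5, a6, a7, a8] at h2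
      obtain ⟨a1, a2, a3, a4, a5, a6, a7, a8⟩ := v1022_eside
      rw [Lh_eside, a1, a2, a3, a4, a5, a6, a7, a8] at h3
      obtain ⟨a1, a2, a3, a4, a5, a6, a7, a8⟩ := v1023_eside
      rw [Lh_eside, a1, a2, a3, a4, a5, a6, a7, a8] at h4
      rw [show 1024 - 5 = 1019 from rfl]
      push_cast at h1 h2 h3 h4 ⊢
      exact side_tail (by linarith) (by linarith) (by linarith) (by linarith)

theorem half_eside {g : ℕ} (hg : g = 6 ∨ g = 8) {K0 K1 C S M N : ℝ} (h0 : 0 ≤ K0)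
    (h : (K1 = 0 ∧ ∀ j, 2 ≤ j → j < gN g → Lh_eside g K0 K1 C S M N j) ∨
      ∀ j, j < gN g → j + 5 ≠ gN g → Lh_eside g K0 K1 C S M N j) :
    ∀ y : ℝ, 0 ≤ y → 0 ≤ Fy K0 K1 C S M N y := by
  have hN : 256 ≤ gN g := by
    rcases hg with rfl | rfl
    · rw [gN6_eside]
    · rw [gN8_eside]; norm_num
  obtain ⟨e1, e2⟩ := ends_eside hg (K0 := K0) (K1 := K1) (C := C) (S := S) (M := M) (N := N)
  rcases h with ⟨h1, h⟩ | h
  · exact side_real (h := 1 / 2 ^ g) (by positivity) (lo := 2) (N := gN g - 5) (by omega)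
      (e1 h0 h1 (h _ (by omega) (by omega)))
      (fun j j1 j2 y d hy hd => hc_real_eside hg (by omega) (h j j1 (by omega)) hy hd)
      (e2 fun j j1 j2 => h j (by omega) j2)
  · refine side_real (h := 1 / 2 ^ g) (by positivity) (lo := 0) (N := gN g - 5) (by omega)
      (fun y y0 y1 => ?_)
      (fun j _ j2 y d hy hd => hc_real_eside hg (by omega) (h j (by omega) (by omega)) hy hd)
      (e2 fun j j1 j2 => h j j2 (by omega))
    obtain rfl : y = 0 := le_antisymm (by simpa using y1) y0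
    simpa [Fy] using h0

theorem fHs_eside {j : ℕ} (h : 2 ≤ j) : fHs j = 10141204801825835211973625643008 := by
  rw [fHs, etab_ble_false (by omega), ite'_false]

theorem fHn_eside {g j : ℕ} (h : j + 5 ≠ gN g) : fHn g j = 10141204801825835211973625643008 := by
  rcases le_or_gt (j + 6) (gN g) with h1 | h1
  · rw [fHn, pick_eside h1]
  · rw [fHn, pickL, Nat.add_eq, Nat.add_eq, etab_ble_false h1, ite'_false,
      etab_ble_false (by omega), ite'_false]
    cases Nat.ble (Nat.add j 4) (gN g) <;> cases Nat.ble (Nat.add j 3) (gN g) <;>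
      cases Nat.ble (Nat.add j 2) (gN g) <;> simp only [ite'_true, ite'_false]

theorem gen_eside {g d One Y U1 U2 Y2 P Q All D Dp Dm Hc Hn Hs k0 k1 c s m np nm : ℕ}
    (hg : g = 6 ∨ g = 8) (hd : 2 ^ d = gN g + gN g)
    (h0 : k0 ≤ 2 ^ 97) (h1 : k1 < 2 ^ 32) (h2 : c < 2 ^ 32) (h3 : s < 2 ^ 32) (h4 : m < 2 ^ 32)
    (h5 : np < 2 ^ 32) (h6 : nm < 2 ^ 32)
    (r0 : row_eside One (lOne g) d 1 = true) (r1 : row_eside Y (lY g) d 288230376151711744 = true)
    (r2 : row_eside U1 (lU1 g) d 36893488147419103232 = true)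
    (r3 : row_eside U2 (lU2 g) d 288230376151711744 = true)
    (r4 : row_eside Y2 (lY2 g) d 36893488147419103232 = true)
    (r5 : row_eside P (l3p g) d 36893488147419103232 = true)
    (r6 : row_eside Q (l3m g) d 36893488147419103232 = true)
    (r7 : row_eside All (lAll g) d 144115188075855872 = true)
    (r8 : row_eside D (lD g) d 36893488147419103232 = true)
    (r9 : row_eside Dp (lDp g) d 36893488147419103232 = true)
    (r10 : row_eside Dm (lDm g) d 36893488147419103232 = true)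
    (rn : row_eside Hn (lHn g) d 10141204801825835211973625643008 = true)
    (rs : row_eside Hs (lHs g) d 10141204801825835211973625643008 = true)
    (rc : hc_eside Hc Y U1 U2 Y2 P Q All d = true)
    (h : sideG One Y U1 U2 Y2 P Q All D Dp Dm Hc Hn Hs k0 k1 c s m np nm = true) :
    (∀ y : ℝ, 0 ≤ y → 0 ≤ Fy (k0 / 2 ^ 76) (cv k1) (cv c) (cv s) (cv m) (cv np) y) ∧
      ∀ y : ℝ, 0 ≤ y → 0 ≤ Fy (k0 / 2 ^ 76) (-cv k1) (cv c) (-cv s) (cv m) (cv nm) y := by
  have hc := Nat.eq_of_beq_eq_true rc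
  rw [packD_eq] at hc
  simp only [Nat.add_eq, Nat.mul_eq] at hc
  rw [sideG, sideH] at h
  have h' := Nat.eq_of_beq_eq_true h
  simp only [Nat.add_eq, Nat.mul_eq, Nat.sub_eq, Nat.land_eq] at h'
  have key : ∀ {Hm : ℕ} {hm : ℕ → ℕ}, Rep 104 (2 ^ d) Hm hm 10141204801825835211973625643008 →
      ite' (Nat.beq k1 2147483648) Hs Hn = Hm → ∀ j < gN g,
      (hm j = 10141204801825835211973625643008 →
        Lh_eside g (k0 / 2 ^ 76) (cv k1) (cv c) (cv s) (cv m) (cv np) j) ∧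
      (hm (gN g + j) = 10141204801825835211973625643008 →
        Lh_eside g (k0 / 2 ^ 76) (-cv k1) (cv c) (-cv s) (cv m) (cv nm) j) := by
    intro Hm hm rM e j hj
    rw [e] at h'
    have L := fun i hi hb => lanes_eside h0 h1 h2 h3 h4 h5 h6 (row_rep_eside r0) (row_rep_eside r1)
      (row_rep_eside r2) (row_rep_eside r3) (row_rep_eside r4) (row_rep_eside r5)
      (row_rep_eside r6) (row_rep_eside r7) (row_rep_eside r8) (row_rep_eside r9)
      (row_rep_eside r10) rM hc h' (i := i) hi hb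
    exact ⟨fun hb => lo_eside hj (L j (by omega) hb), fun hb => hi_eside hj
      ((row_rep_eside r1).2 j (by omega)) ((row_rep_eside r3).2 j (by omega))
      (L _ (by omega) hb)⟩
  have k0' : (0 : ℝ) ≤ k0 / 2 ^ 76 := by positivity
  cases e : Nat.beq k1 2147483648
  · have K := key (row_rep_eside rn) (by rw [e, ite'_false])
    refine ⟨half_eside hg k0' (Or.inr fun j j1 j2 => (K j j1).1 ?_),
      half_eside hg k0' (Or.inr fun j j1 j2 => (K j j1).2 ?_)⟩
    · rw [lHn, two_lo_eside _ _ j1, fHn_eside j2]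
    · rw [lHn, two_hi_eside, fHn_eside j2]
  · have K := key (row_rep_eside rs) (by rw [e, ite'_true])
    have z : cv k1 = 0 := by rw [Nat.eq_of_beq_eq_true e, cv]; norm_num
    refine ⟨half_eside hg k0' (Or.inl ⟨z, fun j j1 j2 => (K j j2).1 ?_⟩),
      half_eside hg k0' (Or.inl ⟨by rw [z, neg_zero], fun j j1 j2 => (K j j2).2 ?_⟩)⟩
    · rw [lHs, two_lo_eside _ _ j2, fHs_eside j1]
    · rw [lHs, two_hi_eside, fHs_eside j1]

theorem side_sound {gb k0 k1 c s m np nm : ℕ} (h0 : k0 ≤ 2 ^ 97) (h1 : k1 < 2 ^ 32)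
    (h2 : c < 2 ^ 32) (h3 : s < 2 ^ 32) (h4 : m < 2 ^ 32) (h5 : np < 2 ^ 32) (h6 : nm < 2 ^ 32)
    (h : side gb k0 k1 c s m np nm = true) :
    (∀ y : ℝ, 0 ≤ y → 0 ≤ Fy (k0 / 2 ^ 76) (cv k1) (cv c) (cv s) (cv m) (cv np) y) ∧
      ∀ y : ℝ, 0 ≤ y → 0 ≤ Fy (k0 / 2 ^ 76) (-cv k1) (cv c) (-cv s) (cv m) (cv nm) y := by
  rw [side] at h
  cases e : Nat.ble gb 0
  · rw [e, ite'_false] at h
    exact gen_eside (Or.inr rfl) (by rw [gN8_eside]; norm_num) h0 h1 h2 h3 h4 h5 h6 rOne8_eside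
      rY8_eside rU18_eside rU28_eside rY28_eside r3p8_eside r3m8_eside rAll8_eside rD8_eside
      rDp8_eside rDm8_eside rHn8_eside rHs8_eside rHc8_eside h
  · rw [e, ite'_true] at h
    exact gen_eside (Or.inl rfl) (by rw [gN6_eside]; norm_num) h0 h1 h2 h3 h4 h5 h6 rOne6_eside
      rY6_eside rU16_eside rU26_eside rY26_eside r3p6_eside r3m6_eside rAll6_eside rD6_eside
      rDp6_eside rDm6_eside rHn6_eside rHs6_eside rHc6_eside h

end Pool.Agent.Lib.MP_33650d_pr.X.E
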