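import Pool.Agent.Lib.MP_33650d_pr.X.ECtx
import Pool.Agent.Lib.MP_33650d_pr.X.ERule

namespace Pool.Agent.Lib.MP_33650d_pr.X.E
open Real

theorem etree_lo (A Z i k : ℕ) :
    (A * 2 ^ (48 * (i + 1 + k)) + Z) / 2 ^ (48 * i) % 2 ^ 48 = Z / 2 ^ (48 * i) % 2 ^ 48 := by
  have e : A * 2 ^ (48 * (i + 1 + k)) = A * 2 ^ (48 * k) * 2 ^ 48 * 2 ^ (48 * i) := by
    rw [mul_assoc, mul_assoc, ← pow_add, ← pow_add]
    congr 2
    ring
  rw [e, Nat.add_comm, Nat.add_mul_div_right _ _ (Nat.two_pow_pos _), Nat.add_mul_mod_self_right]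

theorem etree_hi {x Z n : ℕ} (j : ℕ) (h : Z < 2 ^ n) :
    (x / 2 ^ n * 2 ^ n + Z) / 2 ^ (n + j) = x / 2 ^ (n + j) := by
  rw [pow_add, ← Nat.div_div_eq_div_mul, ← Nat.div_div_eq_div_mul, Nat.add_comm,
    Nat.add_mul_div_right _ _ (Nat.two_pow_pos _), Nat.div_eq_of_lt h, Nat.zero_add]

theorem etree_fd (x i : ℕ) : fd x i = x / 2 ^ (48 * i) % 2 ^ 48 := by
  unfold fd
  rw [nmod_eq, nshr_eq]
  rfl

theorem etree_zr (x : ℕ) : zr x = x / 2 ^ 384 * 2 ^ 384 + zr 0 := by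
  unfold zr
  rw [nshl_eq, nshr_eq, nshl_eq, nshr_eq, Nat.zero_div, Nat.zero_mul, Nat.add_eq, Nat.add_eq,
    Nat.zero_add]

theorem etree_zr_lt : zr 0 < 2 ^ 384 := by decide +kernel

theorem etree_zr_val : fd (zr 0) 0 = 3 ∧ ∀ i < 7, fd (zr 0) (i + 1) = 2 ^ 47 := by
  decide +kernel

theorem etree_fd_lo (x : ℕ) {i : ℕ} (h : i ≤ 7) : fd (zr x) i = fd (zr 0) i := by
  obtain ⟨k, hk⟩ : ∃ k, 384 = 48 * (i + 1 + k) := ⟨7 - i, by omega⟩
  rw [etree_fd, etree_fd, etree_zr x]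
  generalize zr 0 = Z
  generalize x / 2 ^ 384 = A
  rw [hk, etree_lo]

theorem etree_fd_hi (x : ℕ) {i : ℕ} (h : 8 ≤ i) : fd (zr x) i = fd x i := by
  obtain ⟨j, hj⟩ : ∃ j, 48 * i = 384 + j := ⟨48 * i - 384, by omega⟩
  rw [etree_fd, etree_fd, etree_zr x, hj, etree_hi j etree_zr_lt]

theorem etree_sv (x : ℕ) {i : ℕ} (h : i < 7) : sv (fd (zr x) (i + 1)) = 0 := by
  rw [etree_fd_lo x (by omega), etree_zr_val.2 i h, sv, Nat.cast_pow, Nat.cast_ofNat, sub_self,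
    zero_div]

theorem etree_dec (x : ℕ) : dec (zr x) =
    ⟨3, 0, 0, 0, 0, 0, 0, 0, (dec x).tl, (dec x).th, (dec x).Sb, (dec x).Bb, (dec x).Jb⟩ := by
  unfold dec
  rw [etree_fd_lo x (Nat.zero_le _), etree_zr_val.1, etree_sv x (i := 0) (by omega),
    etree_sv x (i := 1) (by omega), etree_sv x (i := 2) (by omega), etree_sv x (i := 3) (by omega),
    etree_sv x (i := 4) (by omega), etree_sv x (i := 5) (by omega), etree_sv x (i := 6) (by omega),
    etree_fd_hi x (i := 8) (by omega), etree_fd_hi x (i := 9) (by omega),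
    etree_fd_hi x (i := 10) (by omega), etree_fd_hi x (i := 11) (by omega),
    etree_fd_hi x (i := 12) (by omega)]

theorem etree_adm {P : JP} {x y : ℕ} (hy : y = x ∨ y = zr x) {t s bp bm C S : ℝ}
    (h : Adm P (dec x) t s bp bm C S) : Adm P (dec y) t s bp bm C S := by
  rcases hy with rfl | rfl
  · exact h
  · rw [etree_dec]
    exact ⟨h.t0, h.tl, h.th, h.s0, h.lin, h.jp, h.res⟩

theorem etree_mode {md x y : ℕ} (hy : y = x ∨ y = zr x) (h : ModeOK md (dec x)) :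
    ModeOK md (dec y) := by
  rcases hy with rfl | rfl
  · exact h
  · rw [etree_dec]
    exact ⟨fun a : 3 = 2 => absurd a (by decide), fun a : 3 ≤ 1 => absurd a (by decide)⟩

theorem etree_cl {P : JP} {x y : ℕ} (hy : y = x ∨ y = zr x) {t s bp bm : ℝ} {f : ℂ}
    (h : Cl3 (dec y) f (Rhs P (dec y) t s bp bm)) :
    (dec x).Cl ‖f‖ (Complex.arg f) (Rhs P (dec x) t s bp bm) := by
  rcases hy with rfl | rfl
  · exact h.1
  · rw [etree_dec] at h
    have a := h.2 rfl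
    simp only [Rhs, Ent.rhs, zero_mul, add_zero, mul_zero] at a
    exact absurd a (lt_irrefl _)

/-- The claim of the entry holds on a box. -/
def ETreeGood (w md x r0 r1 pa pb : ℕ) : Prop :=
  ∀ t s bp bm C S : ℝ, Adm (PW w) (dec x) t s bp bm C S → InR r0 r1 (t ^ 2 * s) →
    InP md pa pb (yd t s bp bm C S).f →
    (dec x).Cl ‖(yd t s bp bm C S).f‖ (Complex.arg (yd t s bp bm C S).f)
      (Rhs (PW w) (dec x) t s bp bm)

theorem etree_ite {a : Bool} {u v : ℕ} (h : ite' a u v ≠ 0) : u ≠ 0 ∨ v ≠ 0 := by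
  cases a
  · exact Or.inr h
  · exact Or.inl h

theorem etree_ite0 {a : Bool} {u : ℕ} (h : ite' a u 0 ≠ 0) : a = true ∧ u ≠ 0 := by
  cases a
  · exact absurd rfl h
  · exact ⟨rfl, h⟩

theorem etree_pick (a : Bool) (u v : ℕ) : ite' a u v = u ∨ ite' a u v = v := by
  cases a
  · exact Or.inr rfl
  · exact Or.inl rfl

theorem etree_nz {n : ℕ} {f : ℕ → ℕ} (h : nz n f ≠ 0) : n ≠ 0 ∧ f n ≠ 0 := by
  cases n
  · exact absurd rfl h
  · exact ⟨Nat.succ_ne_zero _, h⟩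

theorem etree_rdL {f : ℕ → ℕ → ℕ → ℕ → ℕ → ℕ → Bool} {d : ℕ} (h : rdL f d ≠ 0) :
    ∃ gb c s k1 m off : ℕ, c < 2 ^ 32 ∧ s < 2 ^ 32 ∧ k1 < 2 ^ 32 ∧ m < 2 ^ 32 ∧ off < 2 ^ 40 ∧
      f gb c s k1 m off = true := by
  unfold rdL at h
  exact ⟨_, _, _, _, _, _, bq_lt d 4 (by norm_num), bq_lt d 36 (by norm_num),
    bq_lt d 68 (by norm_num), bq_lt d 100 (by norm_num), bq_lt d 132 (by norm_num),
    (etree_ite0 h).1⟩

theorem etree_leafA {w md x y q r0 r1 pa pb d : ℕ} (hm : ModeOK md (dec x))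
    (h : rdL (leafA w md y q r0 r1 pa pb) d ≠ 0) (hq : ctxOK w y q = true)
    (hy : y = x ∨ y = zr x) (ha : pa ≤ 8192) (hb : pb ≤ 8192) :
    ETreeGood w md x r0 r1 pa pb := by
  obtain ⟨gb, c, s, k1, m, off, h1, h2, h3, h4, -, h6⟩ := etree_rdL h
  rw [leafA, band_eq] at h6
  intro t s2 bp bm C S hA hR hP
  exact etree_cl hy (ruleA_sound ha hb h1 h2 (etree_mode hy hm) h6.1 hA.lin hP
    (core_sound h1 h2 h3 h4 hq h6.2 (etree_adm hy hA) hR))

theorem etree_leafC {w md x y q r0 r1 pa pb d : ℕ} (hm : ModeOK md (dec x))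
    (h : rdL (leafC w md y q r0 r1 pa pb) d ≠ 0) (hq : ctxOK w y q = true)
    (hy : y = x ∨ y = zr x) (ha : pa ≤ 8192) (hb : pb ≤ 8192) :
    ETreeGood w md x r0 r1 pa pb := by
  obtain ⟨gb, c, s, k1, m, off, h1, h2, h3, h4, h5, h6⟩ := etree_rdL h
  rw [leafC, band_eq] at h6
  intro t s2 bp bm C S hA hR hP
  exact etree_cl hy (ruleC_sound ha hb h5 (etree_mode hy hm) h6.1 hA.lin hP
    (core_sound h1 h2 h3 h4 hq h6.2 (etree_adm hy hA) hR))

theorem etree_splitP {w md x r0 r1 pa pb p : ℕ} (h1 : ETreeGood w md x r0 r1 pa p)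
    (h2 : ETreeGood w md x r0 r1 p pb) : ETreeGood w md x r0 r1 pa pb := by
  intro t s bp bm C S hA hR hP
  rcases le_total (kap md (yd t s bp bm C S).f) (crd md p) with a | a
  · exact h1 t s bp bm C S hA hR ⟨hP.1, a⟩
  · exact h2 t s bp bm C S hA hR ⟨a, hP.2⟩

theorem etree_splitR {w md x r0 r1 pa pb r : ℕ} (h1 : ETreeGood w md x r0 r pa pb)
    (h2 : ETreeGood w md x r r1 pa pb) : ETreeGood w md x r0 r1 pa pb := by
  intro t s bp bm C S hA hR hP
  rcases le_total (t ^ 2 * s) (((r : ℝ) / 2 ^ 16) ^ 2) with a | a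
  · exact h1 t s bp bm C S hA ⟨hR.1, Or.inr a⟩ hP
  · exact h2 t s bp bm C S hA ⟨a, hR.2⟩ hP

theorem etree_step {w md x : ℕ} (hm : ModeOK md (dec x))
    {ih : ℕ → ℕ → ℕ → ℕ → ℕ → ℕ → ℕ → ℕ}
    (H : ∀ y q r0 r1 pa pb d : ℕ, ih y q r0 r1 pa pb d ≠ 0 → ctxOK w y q = true →
      (y = x ∨ y = zr x) → pa ≤ 8192 → pb ≤ 8192 → ETreeGood w md x r0 r1 pa pb)
    {y q r0 r1 pa pb d tag : ℕ} (h : step w md x ih y q r0 r1 pa pb d tag ≠ 0)
    (hq : ctxOK w y q = true) (hy : y = x ∨ y = zr x) (ha : pa ≤ 8192) (hb : pb ≤ 8192) :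
    ETreeGood w md x r0 r1 pa pb := by
  unfold step at h
  rcases etree_ite h with h | h
  · rcases etree_ite h with h | h
    · exact etree_leafA hm h hq hy ha hb
    · rw [force_eq] at h
      have hp : bq d 3 8192 ≤ 8192 := (bq_lt d 3 (by norm_num)).le
      obtain ⟨h1, h2⟩ := etree_nz h
      exact etree_splitP (H _ _ _ _ _ _ _ h1 hq hy ha hp) (H _ _ _ _ _ _ _ h2 hq hy hp hb)
  rcases etree_ite h with h | h
  · rcases etree_ite h with h | h
    · rw [force_eq] at h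
      obtain ⟨h1, h2⟩ := etree_nz h
      exact etree_splitR (H _ _ _ _ _ _ _ h1 hq hy ha hb) (H _ _ _ _ _ _ _ h2 hq hy ha hb)
    · intro t s bp bm C S hA hR hP
      exact (prP_sound ha hb (etree_ite0 h).1 hA hR hP).elim
  rcases etree_ite h with h | h
  · exact etree_leafC hm h hq hy ha hb
  rcases etree_ite h with h | h
  · rw [force_eq, force_eq] at h
    obtain ⟨h1, h2⟩ := etree_ite0 h
    exact H _ _ _ _ _ _ _ h2 h1 (etree_pick _ _ _) ha hb
  · intro t s bp bm C S hA hR _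
    exact (prR_sound (etree_ite0 h).1 hA hR).elim

theorem etree_tr {w md x : ℕ} (hm : ModeOK md (dec x)) (fuel : ℕ) :
    ∀ y q r0 r1 pa pb d : ℕ, tr w md x fuel y q r0 r1 pa pb d ≠ 0 → ctxOK w y q = true →
      (y = x ∨ y = zr x) → pa ≤ 8192 → pb ≤ 8192 → ETreeGood w md x r0 r1 pa pb := by
  induction fuel with
  | zero => exact fun y q r0 r1 pa pb d h => absurd rfl h
  | succ n ih =>
    intro y q r0 r1 pa pb d h
    exact etree_step (ih := tr w md x n) (d := d) (tag := Nat.land d 7) hm ih h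

theorem etree_root0 (f : ℂ) : InP 0 466 7726 f := by
  have p := pi_lt_d6
  have a := Complex.neg_pi_lt_arg f
  have b := Complex.arg_le_pi f
  have e1 : ph 466 = -(13176900 / 4194304) := by
    rw [ph, abs_of_neg (by norm_num)]
    norm_num
  have e2 : ph 7726 = 13176900 / 4194304 := by
    rw [ph, abs_of_pos (by norm_num)]
    norm_num
  unfold InP crd kap
  rw [if_pos rfl, if_pos rfl, if_pos rfl, e1, e2]
  constructor <;> linarith

theorem etree_root1 {f : ℂ} (h : ‖f‖ ≤ 1) : InP 1 0 4096 f := by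
  unfold InP crd kap
  rw [if_neg one_ne_zero, if_neg one_ne_zero, if_neg one_ne_zero, Rv_zero, Rv_top le_rfl,
    Nat.cast_zero, Nat.cast_pow, Nat.cast_ofNat, zero_div, div_self (by positivity)]
  exact ⟨norm_nonneg f, h⟩

theorem chkE_sound {w x d : ℕ} (h : chkE w x d = true) : (dec x).Valid (PW w) := by
  unfold chkE at h
  rw [force_eq, force_eq, band_eq] at h
  obtain ⟨hq, h⟩ := h
  have h1 := Nat.one_le_iff_ne_zero.1 (Nat.le_of_ble_eq_true h)
  intro t t0 tl th s bp bm C S s0 lin jp res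
  have hA : Adm (PW w) (dec x) t s bp bm C S := ⟨t0, tl, th, s0, lin, jp, res⟩
  have hR : InR 0 0 (t ^ 2 * s) := ⟨by
    rw [Nat.cast_zero, zero_div, zero_pow two_ne_zero]
    positivity, Or.inl rfl⟩
  have ty : (dec x).ty = fd x 0 := rfl
  cases e : Nat.beq (fd x 0) 2
  · rw [e, ite'_false] at h1
    have hm : ModeOK 0 (dec x) :=
      ⟨fun a => absurd (ty ▸ a) (Nat.ne_of_beq_eq_false e), fun _ => rfl⟩
    exact etree_tr hm 80 _ _ _ _ _ _ _ h1 hq (Or.inl rfl) (by norm_num) (by norm_num)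
      t s bp bm C S hA hR (etree_root0 _)
  · rw [e, ite'_true] at h1
    have e2 := Nat.eq_of_beq_eq_true e
    have hm : ModeOK 1 (dec x) := ⟨fun _ => one_ne_zero, fun a => by omega⟩
    exact etree_tr hm 80 _ _ _ _ _ _ _ h1 hq (Or.inl rfl) (by norm_num) (by norm_num)
      t s bp bm C S hA hR (etree_root1 hA.lin.norm_le)

end Pool.Agent.Lib.MP_33650d_pr.X.E
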