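import Pool.Agent.Lib.MP_33650d_pr.X.Basic
import Pool.Agent.Lib.MP_33650d_pr.Lerp

namespace Pool.Agent.Lib.MP_33650d_pr.X
open MeasureTheory ProbabilityTheory Real

theorem cos8_hf (ψ : ℝ) :
    cos ψ ≤ 1 - ψ ^ 2 / 2 + ψ ^ 4 / 24 - ψ ^ 6 / 720 + ψ ^ 8 / 40320 ∧
      cos ψ ≤ 1 - ψ ^ 2 / 2 + ψ ^ 4 / 24 := by
  have h6 : ∀ y : ℝ, 0 ≤ y → 1 - y ^ 2 / 2 + y ^ 4 / 24 - y ^ 6 / 720 ≤ cos y := fun y h => by
    have := lw_mono (f := fun x => cos x + x ^ 2 / 2 - x ^ 4 / 24 + x ^ 6 / 720)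
      (f' := fun x => -sin x + x - x ^ 3 / 6 + x ^ 5 / 120) (fun x _ _ =>
        ((((hasDerivAt_cos x).add ((hasDerivAt_pow 2 x).div_const 2)).sub
          ((hasDerivAt_pow 4 x).div_const 24)).add
          ((hasDerivAt_pow 6 x).div_const 720)).congr_deriv (by ring))
      (fun x a _ => by linarith [lw_sin5 a]) h
    simp at this
    linarith
  have h7 : ∀ y : ℝ, 0 ≤ y → y - y ^ 3 / 6 + y ^ 5 / 120 - y ^ 7 / 5040 ≤ sin y := fun y h => by
    have := lw_mono (f := fun x => sin x - x + x ^ 3 / 6 - x ^ 5 / 120 + x ^ 7 / 5040)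
      (f' := fun x => cos x - 1 + x ^ 2 / 2 - x ^ 4 / 24 + x ^ 6 / 720) (fun x _ _ =>
        (((((hasDerivAt_sin x).sub (hasDerivAt_id x)).add ((hasDerivAt_pow 3 x).div_const 6)).sub
          ((hasDerivAt_pow 5 x).div_const 120)).add
          ((hasDerivAt_pow 7 x).div_const 5040)).congr_deriv (by ring))
      (fun x a _ => by linarith [h6 x a]) h
    simp at this
    linarith
  have h8 : ∀ y : ℝ, 0 ≤ y →
      cos y ≤ 1 - y ^ 2 / 2 + y ^ 4 / 24 - y ^ 6 / 720 + y ^ 8 / 40320 := fun y h => by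
    have := lw_mono (f := fun x => -cos x - x ^ 2 / 2 + x ^ 4 / 24 - x ^ 6 / 720 + x ^ 8 / 40320)
      (f' := fun x => sin x - x + x ^ 3 / 6 - x ^ 5 / 120 + x ^ 7 / 5040) (fun x _ _ =>
        (((((hasDerivAt_cos x).neg.sub ((hasDerivAt_pow 2 x).div_const 2)).add
          ((hasDerivAt_pow 4 x).div_const 24)).sub ((hasDerivAt_pow 6 x).div_const 720)).add
          ((hasDerivAt_pow 8 x).div_const 40320)).congr_deriv (by ring))
      (fun x a _ => by linarith [h7 x a]) h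
    simp at this
    linarith
  rcases le_total 0 ψ with h | h
  · exact ⟨h8 ψ h, lw_cos4 h⟩
  · have a1 := h8 (-ψ) (by linarith)
    have a2 := lw_cos4 (y := -ψ) (by linarith)
    rw [cos_neg] at a1 a2
    exact ⟨by linarith, by linarith⟩

/-- A lower bound, with rational coefficients, of the pointwise expression at `u = 3 / 5`. -/
noncomputable def Fhf (A x g z a : ℝ) : ℝ :=
  1 - cos ((2 * π - 3 / 5) * x + g) + A * x ^ 3 - (4.4212 - 1.8114 * z) * x ^ 2 + a * x -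
    0.1088 * z

def redHf (t : ℤ) : ℤ := if t ≤ 402000000 then t else t - 804247680

def tayHf (w : ℤ) : ℤ :=
  (((917504000000000000 - w) * w - 450971566080000000000000000000000000) * w +
    88664617663856640000000000000000000000000000000000000) * w

def sqHf (p : ℤ) : ℤ := tayHf (p * p)

def ptHf (A g z a m i : ℤ) : Bool :=
  decide (0 ≤ sqHf (redHf (5683185 * i + 4000000 * g)) +
    1385384650997760000000000000000000000000000000000000000000 *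
      (((A * i - 128 * (4421200 - 18114 * z)) * i + 16384 * a) * i -
        2097152 * (1088 * z + m + 522)))

def segHf (A g z a m : ℤ) (lo n : ℕ) : Bool :=
  (List.range (n + 1)).all fun k => ptHf A g z a m ((lo + k : ℕ) : ℤ)

def fromHf (A g z a m : ℤ) (lo : ℕ) : Bool :=
  segHf A g z a m lo (128 - lo) && decide (0 ≤ A - (4421200 - 18114 * z)) &&
    decide (1088 * z + m ≤ A - (4421200 - 18114 * z) + a)

theorem pt_hf {A g z a m i : ℤ} (h : ptHf A g z a m i = true) (h0 : 0 ≤ i) (h1 : i ≤ 128) :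
    (m : ℝ) / 10 ^ 6 + 520 / 10 ^ 6 ≤ Fhf (A / 10 ^ 6) (i / 128) (g / 32) (z / 100) (a / 10 ^ 6) := by
  have h2 := of_decide_eq_true h
  obtain ⟨p, hp⟩ : ∃ p, p = redHf (5683185 * i + 4000000 * g) := ⟨_, rfl⟩
  rw [← hp] at h2
  have h3 : (0 : ℝ) ≤ ((sqHf p + 1385384650997760000000000000000000000000000000000000000000 *
      (((A * i - 128 * (4421200 - 18114 * z)) * i + 16384 * a) * i -
        2097152 * (1088 * z + m + 522)) : ℤ) : ℝ) := by exact_mod_cast h2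
  unfold sqHf tayHf at h3
  push_cast at h3
  have i0 : (0 : ℝ) ≤ i := by exact_mod_cast h0
  have i1 : (i : ℝ) ≤ 128 := by exact_mod_cast h1
  have p1 := pi_gt_d6
  have p2 := pi_lt_d6
  have a1 : 0 ≤ (π - 3.141592) * i := mul_nonneg (by linarith) i0
  have a2 : 0 ≤ (3.141593 - π) * i := mul_nonneg (by linarith) i0
  have lip : ∀ s t : ℝ, |s - t| ≤ 2 / 10 ^ 6 → cos s ≤ cos t + 2 / 10 ^ 6 := fun s t hs => by
    linarith [(abs_le.1 ((abs_cos_sub_cos_le s t).trans hs)).2]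
  have key : cos ((2 * π - 3 / 5) * (i / 128) + g / 32) ≤ cos (p / 128000000) + 2 / 10 ^ 6 := by
    unfold redHf at hp
    split_ifs at hp
    · refine lip _ _ ?_
      rw [hp, abs_le]
      push_cast
      constructor <;> linarith
    · rw [← cos_sub_two_pi]
      refine lip _ _ ?_
      rw [hp, abs_le]
      push_cast
      constructor <;> linarith
  have h4 := (cos8_hf (p / 128000000)).1
  unfold Fhf
  linarith

theorem seg_hf {A g z a m : ℤ} {lo n : ℕ} (h : segHf A g z a m lo n = true) (hn : 0 < n)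
    (hl : lo + n ≤ 128) (hA0 : 0 ≤ A) (hA : A ≤ 6670000) (hz : z ≤ 100) {x : ℝ}
    (h1 : (lo : ℝ) / 128 ≤ x) (h2 : x ≤ (lo + n : ℕ) / 128) :
    (m : ℝ) / 10 ^ 6 ≤ Fhf (A / 10 ^ 6) x (g / 32) (z / 100) (a / 10 ^ 6) := by
  obtain ⟨i, i1, i2, i3, i4⟩ := exists_cell (lo := lo) (hi := lo + n) (x := 128 * x) (by omega)
    (by linarith) (by linarith)
  have hk : ∀ j : ℕ, lo ≤ j → j ≤ lo + n → (m : ℝ) / 10 ^ 6 + 520 / 10 ^ 6 ≤
      Fhf (A / 10 ^ 6) (j / 128) (g / 32) (z / 100) (a / 10 ^ 6) := fun j j1 j2 => by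
    have := List.all_eq_true.1 h (j - lo) (List.mem_range.2 (by omega))
    rw [show lo + (j - lo) = j by omega] at this
    simpa using pt_hf this (by omega) (by omega)
  have e1 := hk i i1 (by omega)
  have e2 := hk (i + 1) (by omega) i2
  have A0 : (0 : ℝ) ≤ A := by exact_mod_cast hA0
  have A1 : (A : ℝ) ≤ 6670000 := by exact_mod_cast hA
  have z1 : (z : ℝ) ≤ 100 := by exact_mod_cast hz
  have i5 : (i : ℝ) + 1 ≤ 128 := by exact_mod_cast (by omega : i + 1 ≤ 128)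
  have p1 := pi_gt_d6
  have p2 := pi_lt_d6
  obtain ⟨w, hw⟩ : ∃ w, w = 2 * π - 3 / 5 := ⟨_, rfl⟩
  have hw2 : w ^ 2 ≤ 33 := by nlinarith
  unfold Fhf at e1 e2 ⊢
  rw [← hw] at e1 e2 ⊢
  push_cast at e2
  have := lerp_nonneg (a := i / 128) (b := (i + 1) / 128) (M := 68) (x := x)
    (f := fun y => 1 - cos (w * y + g / 32) + A / 10 ^ 6 * y ^ 3 -
      (4.4212 - 1.8114 * (z / 100)) * y ^ 2 + a / 10 ^ 6 * y - 0.1088 * (z / 100) - m / 10 ^ 6)
    (f' := fun y => sin (w * y + g / 32) * w + A / 10 ^ 6 * (3 * y ^ 2) -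
      (4.4212 - 1.8114 * (z / 100)) * (2 * y) + a / 10 ^ 6)
    (f'' := fun y => cos (w * y + g / 32) * w ^ 2 + A / 10 ^ 6 * (6 * y) -
      (4.4212 - 1.8114 * (z / 100)) * 2) (by linarith) (by norm_num)
    (fun y => ((((((((((hasDerivAt_id y).const_mul w).add_const _).cos).const_sub 1).add
      ((hasDerivAt_pow 3 y).const_mul _)).sub ((hasDerivAt_pow 2 y).const_mul _)).add
      ((hasDerivAt_id y).const_mul _)).sub_const _).sub_const _).congr_deriv (by simp))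
    (fun y => ((((((((hasDerivAt_id y).const_mul w).add_const _).sin).mul_const w).add
      (((hasDerivAt_pow 2 y).const_mul 3).const_mul _)).sub
      (((hasDerivAt_id y).const_mul 2).const_mul _)).add_const _).congr_deriv (by simp; ring))
    (fun y _ y2 => by
      have b1 : cos (w * y + g / 32) * w ^ 2 ≤ 1 * w ^ 2 :=
        mul_le_mul_of_nonneg_right (cos_le_one _) (sq_nonneg w)
      have b2 : (A : ℝ) * y ≤ A * 1 := mul_le_mul_of_nonneg_left (by linarith) A0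
      linarith)
    (by linarith) (by linarith) (by linarith) (by linarith)
  linarith

theorem from_hf {A g z a m : ℤ} {lo : ℕ} (h : fromHf A g z a m lo = true) (hl : lo < 128)
    (hA0 : 0 ≤ A) (hA : A ≤ 6670000) (hz0 : 0 ≤ z) (hz : z ≤ 100) (hm : 0 ≤ m) {x : ℝ}
    (h1 : (lo : ℝ) / 128 ≤ x) :
    (m : ℝ) / 10 ^ 6 ≤ Fhf (A / 10 ^ 6) x (g / 32) (z / 100) (a / 10 ^ 6) := by
  simp only [fromHf, Bool.and_eq_true, decide_eq_true_eq] at h
  obtain ⟨⟨h2, h3⟩, h4⟩ := h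
  rcases le_total x 1 with hx | hx
  · refine seg_hf h2 (by omega) (by omega) hA0 hA hz h1 ?_
    rw [show lo + (128 - lo) = 128 by omega]
    push_cast
    linarith
  · have A0 : (0 : ℝ) ≤ A := by exact_mod_cast hA0
    have z0 : (0 : ℝ) ≤ z := by exact_mod_cast hz0
    have m0 : (0 : ℝ) ≤ m := by exact_mod_cast hm
    have b3 : (0 : ℝ) ≤ A - (4421200 - 18114 * z) := by exact_mod_cast h3
    have b4 : (1088 * z + m : ℝ) ≤ A - (4421200 - 18114 * z) + a := by exact_mod_cast h4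
    have c0 : 0 ≤ x - 1 := by linarith
    have c1 : 0 ≤ A * (x ^ 2 * (x - 1)) := by positivity
    have c2 : 0 ≤ (A - (4421200 - 18114 * z)) * (x * (x - 1)) :=
      mul_nonneg b3 (mul_nonneg (by linarith) c0)
    have c3 : 0 ≤ (A - (4421200 - 18114 * z) + a) * (x - 1) := mul_nonneg (by linarith) c0
    have c4 := cos_le_one ((2 * π - 3 / 5) * x + g / 32)
    unfold Fhf
    linarith

theorem cell_hf {A x g1 z1 a1 g2 z2 a2 t : ℝ} (h0 : 0 ≤ t) (h1 : t ≤ 1)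
    (e1 : (g2 - g1) ^ 2 / 8 ≤ Fhf A x g1 z1 a1) (e2 : (g2 - g1) ^ 2 / 8 ≤ Fhf A x g2 z2 a2) :
    0 ≤ Fhf A x (g1 + t * (g2 - g1)) (z1 + t * (z2 - z1)) (a1 + t * (a2 - a1)) := by
  unfold Fhf at *
  obtain ⟨w, hw⟩ : ∃ w, w = (2 * π - 3 / 5) * x := ⟨_, rfl⟩
  rw [← hw] at e1 e2 ⊢
  obtain ⟨d, hd⟩ : ∃ d, d = g2 - g1 := ⟨_, rfl⟩
  obtain rfl : g2 = g1 + d := by linarith
  rw [add_sub_cancel_left] at e1 e2 ⊢
  have := lerp_nonneg (a := 0) (b := 1) (M := d ^ 2) (x := t)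
    (f := fun y => -cos (d * y + (w + g1)) +
      ((1.8114 * x ^ 2 - 0.1088) * (z2 - z1) + (a2 - a1) * x) * y +
      (1 + A * x ^ 3 - (4.4212 - 1.8114 * z1) * x ^ 2 + a1 * x - 0.1088 * z1))
    (f' := fun y => sin (d * y + (w + g1)) * d +
      ((1.8114 * x ^ 2 - 0.1088) * (z2 - z1) + (a2 - a1) * x))
    (f'' := fun y => cos (d * y + (w + g1)) * d ^ 2) one_pos (sq_nonneg d)
    (fun y => (((((((hasDerivAt_id y).const_mul d).add_const _).cos).neg).add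
      ((hasDerivAt_id y).const_mul _)).add_const _).congr_deriv (by simp))
    (fun y => ((((((hasDerivAt_id y).const_mul d).add_const _).sin).mul_const d).add_const
      _).congr_deriv (by simp; ring))
    (fun y _ _ => by
      have b1 := mul_le_mul_of_nonneg_right (cos_le_one (d * y + (w + g1))) (sq_nonneg d)
      linarith) h0 h1
    (by
      rw [show d * 0 + (w + g1) = w + g1 by ring]
      linarith)
    (by
      rw [show d * 1 + (w + g1) = w + (g1 + d) by ring]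
      linarith)
  rw [show d * t + (w + g1) = w + (g1 + t * d) by ring] at this
  linarith

def GoodHf (γ : ℝ) : Prop :=
  ∃ z a : ℝ, 0 ≤ z ∧ z ≤ 1 ∧ ∀ x, 0 ≤ x → 0 ≤ Fhf 5.0569 x γ z a ∧ 0 ≤ Fhf 6.6606 x (-γ) z (-a)

def nodeHf (g z a m : ℤ) : Bool :=
  fromHf 5056900 g z a m 0 && fromHf 6660600 (-g) z (-a) m 0 && decide (0 ≤ z ∧ z ≤ 100 ∧ 0 ≤ m)

theorem node_hf {g z a m : ℤ} (h : nodeHf g z a m = true) :
    0 ≤ (z : ℝ) / 100 ∧ (z : ℝ) / 100 ≤ 1 ∧ ∀ x : ℝ, 0 ≤ x →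
      (m : ℝ) / 10 ^ 6 ≤ Fhf 5.0569 x (g / 32) (z / 100) (a / 10 ^ 6) ∧
      (m : ℝ) / 10 ^ 6 ≤ Fhf 6.6606 x (-(g / 32)) (z / 100) (-(a / 10 ^ 6)) := by
  simp only [nodeHf, Bool.and_eq_true, decide_eq_true_eq] at h
  obtain ⟨⟨h1, h2⟩, h3, h4, h5⟩ := h
  have z0 : (0 : ℝ) ≤ z := by exact_mod_cast h3
  have z1 : (z : ℝ) ≤ 100 := by exact_mod_cast h4
  refine ⟨by linarith, by linarith, fun x hx => ⟨?_, ?_⟩⟩
  · convert from_hf (x := x) h1 (by norm_num) (by norm_num) (by norm_num) h3 h4 h5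
      (by simpa using hx) using 2
    norm_num
  · convert from_hf (x := x) h2 (by norm_num) (by norm_num) (by norm_num) h3 h4 h5
      (by simpa using hx) using 2
    · norm_num
    · push_cast; ring
    · push_cast; ring

theorem par_hf {g1 g2 γ : ℝ} (h : g1 < g2) (h1 : g1 ≤ γ) (h2 : γ ≤ g2) :
    ∃ t, 0 ≤ t ∧ t ≤ 1 ∧ γ = g1 + t * (g2 - g1) :=
  ⟨(γ - g1) / (g2 - g1), div_nonneg (by linarith) (by linarith),
    (div_le_one (by linarith)).2 (by linarith), by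
      rw [div_mul_cancel₀ _ (by linarith)]; ring⟩

theorem wid_hf {g1 g2 m : ℤ} (h : (g2 - g1) * (g2 - g1) * 1000000 ≤ 8192 * m) :
    ((g2 : ℝ) / 32 - g1 / 32) ^ 2 / 8 ≤ m / 10 ^ 6 ∧
      (-((g2 : ℝ) / 32) - -(g1 / 32)) ^ 2 / 8 ≤ m / 10 ^ 6 := by
  have h1 : ((g2 : ℝ) - g1) * (g2 - g1) * 1000000 ≤ 8192 * m := by exact_mod_cast h
  constructor <;> linarith

def chainHf (e g z a m : ℤ) : List (ℤ × ℤ × ℤ × ℤ) → Bool
  | [] => nodeHf g z a m && decide (e ≤ g)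
  | n :: l => nodeHf g z a m && decide (g < n.1 ∧ (n.1 - g) * (n.1 - g) * 1000000 ≤ 8192 * m ∧
      (n.1 - g) * (n.1 - g) * 1000000 ≤ 8192 * n.2.2.2) && chainHf e n.1 n.2.1 n.2.2.1 n.2.2.2 l

theorem chain_hf (e : ℤ) (l : List (ℤ × ℤ × ℤ × ℤ)) : ∀ g z a m : ℤ, chainHf e g z a m l = true →
    nodeHf g z a m = true ∧ ∀ γ : ℝ, (g : ℝ) / 32 ≤ γ → γ < e / 32 → GoodHf γ := by
  induction l with
  | nil =>
    intro g z a m h
    simp only [chainHf, Bool.and_eq_true, decide_eq_true_eq] at h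
    refine ⟨h.1, fun γ h1 h2 => ?_⟩
    have : (e : ℝ) ≤ g := by exact_mod_cast h.2
    linarith
  | cons n l ih =>
    intro g z a m h
    simp only [chainHf, Bool.and_eq_true, decide_eq_true_eq] at h
    obtain ⟨⟨h1, h2, h3, h4⟩, h5⟩ := h
    obtain ⟨h6, h7⟩ := ih _ _ _ _ h5
    refine ⟨h1, fun γ g1 g2 => ?_⟩
    rcases le_total γ (n.1 / 32) with c | c
    · have h8 : (g : ℝ) < n.1 := by exact_mod_cast h2
      obtain ⟨t, t0, t1, rfl⟩ := par_hf (by linarith) g1 c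
      obtain ⟨a0, a1, a2⟩ := node_hf h1
      obtain ⟨b0, b1, b2⟩ := node_hf h6
      refine ⟨z / 100 + t * (n.2.1 / 100 - z / 100),
        a / 10 ^ 6 + t * (n.2.2.1 / 10 ^ 6 - a / 10 ^ 6), by nlinarith, by nlinarith,
        fun x hx => ⟨cell_hf t0 t1 ((wid_hf h3).1.trans (a2 x hx).1)
          ((wid_hf h4).1.trans (b2 x hx).1), ?_⟩⟩
      convert cell_hf t0 t1 ((wid_hf h3).2.trans (a2 x hx).2) ((wid_hf h4).2.trans (b2 x hx).2)
        using 2 <;> ring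
    · exact h7 γ c g2

theorem neg_hf : chainHf (-12) (-101) 100 190000 12400 [(-91, 100, 386000, 34000),
    (-75, 100, 731000, 85000), (-49, 100, 1438000, 100000), (-24, 80, 2176000, 100000),
    (-12, 0, 1500000, 61000)] = true := by decide +kernel

theorem pos_hf : chainHf 69 8 0 (-500000) 13000 [(16, 50, -1075000, 10500),
    (24, 100, -1516000, 38000), (40, 100, -1043000, 54000), (52, 100, -753000, 38000),
    (62, 100, -538000, 20000), (69, 100, -398000, 9900)] = true := by decide +kernel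

theorem win0_hf {A x γ k : ℝ} (hA : 0 ≤ A) (h0 : 0 ≤ x) (h1 : x ≤ 6 / 128) (hγ : |γ| ≤ 3 / 8)
    (k0 : 2 ≤ k) (k1 : k ≤ 4) : 0 ≤ Fhf A x γ 0 (-(k * γ)) := by
  have p1 := pi_gt_d6
  have p2 := pi_lt_d6
  unfold Fhf
  obtain ⟨θ, hθ⟩ : ∃ θ, θ = (2 * π - 3 / 5) * x + γ := ⟨_, rfl⟩
  obtain ⟨g0, g1⟩ := abs_le.1 hγ
  have a1 : 0 ≤ (π - 3.141592) * x := mul_nonneg (by linarith) h0
  have a2 : 0 ≤ (3.141593 - π) * x := mul_nonneg (by linarith) h0
  have a3 : θ ^ 2 ≤ 0.65 ^ 2 := sq_le_sq' (by linarith) (by linarith)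
  have a4 : θ ^ 2 * θ ^ 2 ≤ 0.65 ^ 2 * θ ^ 2 := mul_le_mul_of_nonneg_right a3 (sq_nonneg θ)
  have a5 := (cos8_hf θ).2
  have a6 : 0 ≤ A * x ^ 3 := by positivity
  have a7 : 0 ≤ k * x * ((π - 3.141592) * x) := by positivity
  have a8 : 0 ≤ (k - 2) * x ^ 2 := mul_nonneg (by linarith) (sq_nonneg x)
  have a9 : 0 ≤ (4 - k) * k * x ^ 2 := mul_nonneg (mul_nonneg (by linarith) (by linarith)) (sq_nonneg x)
  have b1 := sq_nonneg (0.96 * θ - k * x)
  have b2 := sq_nonneg θ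
  have b3 := sq_nonneg x
  rw [← hθ, show γ = θ - (2 * π - 3 / 5) * x by linarith]
  linarith

theorem zero_hf : fromHf 5056900 0 0 0 17600 6 = true ∧ fromHf 6660600 0 0 0 17600 6 = true ∧
    nodeHf (-12) 0 1500000 61000 = true := by decide +kernel

theorem orig_hf {g k t : ℝ} (hg : |g| ≤ 3 / 8) (k0 : 2 ≤ k) (k1 : k ≤ 4) (t0 : 0 ≤ t) (t1 : t ≤ 1)
    (h : ∀ x, 0 ≤ x → g ^ 2 / 8 ≤ Fhf 5.0569 x g 0 (-(k * g)) ∧
      g ^ 2 / 8 ≤ Fhf 6.6606 x (-g) 0 (k * g)) : GoodHf (t * g) := by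
  have hg2 : g ^ 2 ≤ (3 / 8) ^ 2 := sq_le_sq' (abs_le.1 hg).1 (abs_le.1 hg).2
  refine ⟨0, -(k * (t * g)), le_rfl, zero_le_one, fun x hx => ?_⟩
  rcases le_total x (6 / 128) with c | c
  · have h1 : |t * g| ≤ 3 / 8 := by
      rw [abs_mul, abs_of_nonneg t0]
      nlinarith [abs_nonneg g]
    refine ⟨win0_hf (by norm_num) hx c h1 k0 k1, ?_⟩
    convert win0_hf (A := 6.6606) (γ := -(t * g)) (by norm_num) hx c (by rwa [abs_neg]) k0 k1
      using 2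
    ring
  · have b1 := from_hf (x := x) zero_hf.1 (by norm_num) (by norm_num) (by norm_num) le_rfl
      (by norm_num) (by norm_num) (by simpa using c)
    have b2 := from_hf (x := x) zero_hf.2.1 (by norm_num) (by norm_num) (by norm_num) le_rfl
      (by norm_num) (by norm_num) (by simpa using c)
    norm_num at b1 b2
    constructor
    · convert cell_hf (A := 5.0569) (x := x) (g1 := 0) (z1 := 0) (a1 := 0) (g2 := g) (z2 := 0)
        (a2 := -(k * g)) t0 t1 (by norm_num; linarith) (by rw [sub_zero]; exact (h x hx).1)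
        using 2 <;> ring
    · convert cell_hf (A := 6.6606) (x := x) (g1 := 0) (z1 := 0) (a1 := 0) (g2 := -g) (z2 := 0)
        (a2 := k * g) t0 t1 (by norm_num; linarith) (by rw [sub_zero, neg_sq]; exact (h x hx).2)
        using 2 <;> ring

theorem good_hf {γ : ℝ} (h0 : -π ≤ γ) (h1 : γ < 69 / 32) : GoodHf γ := by
  have p2 := pi_lt_d6
  rcases lt_or_ge γ (-12 / 32) with c1 | c1
  · exact (chain_hf _ _ _ _ _ _ neg_hf).2 γ (by push_cast; linarith) (by push_cast; linarith)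
  rcases le_total γ 0 with c2 | c2
  · rw [show γ = -(8 / 3 * γ) * (-3 / 8) by ring]
    refine orig_hf (k := 4) (by rw [abs_le]; norm_num) (by norm_num) le_rfl (by linarith)
      (by linarith) fun x hx => ?_
    have := (node_hf zero_hf.2.2).2.2 x hx
    norm_num at this ⊢
    exact ⟨by linarith [this.1], by linarith [this.2]⟩
  rcases le_total γ (8 / 32) with c3 | c3
  · rw [show γ = 4 * γ * (1 / 4) by ring]
    refine orig_hf (k := 2) (by rw [abs_le]; norm_num) le_rfl (by norm_num) (by linarith)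
      (by linarith) fun x hx => ?_
    have := (node_hf (chain_hf _ _ _ _ _ _ pos_hf).1).2.2 x hx
    norm_num at this ⊢
    exact ⟨by linarith [this.1], by linarith [this.2]⟩
  · exact (chain_hf _ _ _ _ _ _ pos_hf).2 γ (by push_cast; linarith) (by push_cast; linarith)

def nodeEHf (g m : ℤ) : Bool :=
  segHf 5056900 g 100 (18750 * g - 1687900) m 0 64 &&
    fromHf 5056900 g 100 (18750 * g - 1687900) m 84 &&
    segHf 6660600 (-g) 100 (1687800 - 18750 * g) m 0 42 &&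
    fromHf 6660600 (-g) 100 (1687800 - 18750 * g) m 64

theorem nodeE_hf {g m : ℤ} (h : nodeEHf g m = true) (hm : 0 ≤ m) {x : ℝ} (hx : 0 ≤ x) :
    (x ≤ 1 / 2 ∨ 84 / 128 ≤ x →
      (m : ℝ) / 10 ^ 6 ≤ Fhf 5.0569 x (g / 32) 1 (0.6 * (g / 32) - 1.6879)) ∧
    (x ≤ 42 / 128 ∨ 1 / 2 ≤ x →
      (m : ℝ) / 10 ^ 6 ≤ Fhf 6.6606 x (-(g / 32)) 1 (1.6878 - 0.6 * (g / 32))) := by
  simp only [nodeEHf, Bool.and_eq_true] at h
  obtain ⟨⟨⟨h1, h2⟩, h3⟩, h4⟩ := h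
  refine ⟨fun c => ?_, fun c => ?_⟩ <;> rcases c with c | c
  · convert seg_hf (x := x) h1 (by norm_num) (by norm_num) (by norm_num) (by norm_num) le_rfl
      (by simpa using hx) (by push_cast; linarith) using 2 <;> push_cast <;> ring
  · convert from_hf (x := x) h2 (by norm_num) (by norm_num) (by norm_num) (by norm_num) le_rfl hm
      (by push_cast; linarith) using 2 <;> push_cast <;> ring
  · convert seg_hf (x := x) h3 (by norm_num) (by norm_num) (by norm_num) (by norm_num) le_rfl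
      (by simpa using hx) (by push_cast; linarith) using 2 <;> push_cast <;> ring
  · convert from_hf (x := x) h4 (by norm_num) (by norm_num) (by norm_num) (by norm_num) le_rfl hm
      (by push_cast; linarith) using 2 <;> push_cast <;> ring

theorem ess_hf : nodeEHf 69 13000 = true ∧ nodeEHf 79 18000 = true ∧ nodeEHf 91 18000 = true ∧
    nodeEHf 101 13000 = true := by decide +kernel

theorem cellE_hf {g1 g2 m1 m2 : ℤ} (h1 : nodeEHf g1 m1 = true) (h2 : nodeEHf g2 m2 = true)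
    (hg : g1 < g2) (w1 : (g2 - g1) * (g2 - g1) * 1000000 ≤ 8192 * m1)
    (w2 : (g2 - g1) * (g2 - g1) * 1000000 ≤ 8192 * m2) {γ x : ℝ} (c1 : (g1 : ℝ) / 32 ≤ γ)
    (c2 : γ ≤ g2 / 32) (hx : 0 ≤ x) :
    (x ≤ 1 / 2 ∨ 84 / 128 ≤ x → 0 ≤ Fhf 5.0569 x γ 1 (0.6 * γ - 1.6879)) ∧
      (x ≤ 42 / 128 ∨ 1 / 2 ≤ x → 0 ≤ Fhf 6.6606 x (-γ) 1 (1.6878 - 0.6 * γ)) := by
  have h8 : (g1 : ℝ) < g2 := by exact_mod_cast hg
  obtain ⟨t, t0, t1, rfl⟩ := par_hf (by linarith) c1 c2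
  have a := nodeE_hf h1 (by nlinarith [mul_self_nonneg (g2 - g1)]) hx
  have b := nodeE_hf h2 (by nlinarith [mul_self_nonneg (g2 - g1)]) hx
  refine ⟨fun c => ?_, fun c => ?_⟩
  · convert cell_hf t0 t1 ((wid_hf w1).1.trans (a.1 c)) ((wid_hf w2).1.trans (b.1 c))
      using 2 <;> ring
  · convert cell_hf t0 t1 ((wid_hf w1).2.trans (a.2 c)) ((wid_hf w2).2.trans (b.2 c))
      using 2 <;> ring

theorem goodE_hf {γ x : ℝ} (h0 : 69 / 32 ≤ γ) (h1 : γ ≤ π) (hx : 0 ≤ x) :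
    (x ≤ 1 / 2 ∨ 84 / 128 ≤ x → 0 ≤ Fhf 5.0569 x γ 1 (0.6 * γ - 1.6879)) ∧
      (x ≤ 42 / 128 ∨ 1 / 2 ≤ x → 0 ≤ Fhf 6.6606 x (-γ) 1 (1.6878 - 0.6 * γ)) := by
  have p2 := pi_lt_d6
  obtain ⟨e1, e2, e3, e4⟩ := ess_hf
  rcases le_total γ (79 / 32) with c1 | c1
  · exact cellE_hf e1 e2 (by norm_num) (by norm_num) (by norm_num) (by push_cast; linarith)
      (by push_cast; linarith) hx
  rcases le_total γ (91 / 32) with c2 | c2
  · exact cellE_hf e2 e3 (by norm_num) (by norm_num) (by norm_num) (by push_cast; linarith)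
      (by push_cast; linarith) hx
  · exact cellE_hf e3 e4 (by norm_num) (by norm_num) (by norm_num) (by push_cast; linarith)
      (by push_cast; linarith) hx

/-- The pointwise expression. -/
noncomputable def Ghf (α u x γ z a : ℝ) : ℝ :=
  1 - cos ((2 * π - u) * x + γ) - (u ^ 2 / 2 - u ^ 4 / 60) * x ^ 2 +
    u * (4 * π * (α * x ^ 3 - 9 / 16 * x ^ 2 + z * ((1 / 16 + 3 * sE ^ 2) * x ^ 2 - sE ^ 3)) + a * x)

theorem sE_hf : 0.243416 ≤ sE ∧ sE ≤ 0.243417 := by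
  unfold sE
  constructor <;> linarith [r10_lo, r10_hi]

theorem ofF_hf {A α u x γ z a a' : ℝ} (hx : 0 ≤ x) (hz : 0 ≤ z) (hA : A ≤ 12 / 5 * π * α)
    (ha : a' ≤ 3 / 5 * a) (h : 0 ≤ Fhf A x γ z a') (u0 : 0 < u) (u1 : u ≤ 3 / 5) :
    0 ≤ Ghf α u x γ z a := by
  have p1 := pi_gt_d6
  have p2 := pi_lt_d6
  obtain ⟨s1, s2⟩ := sE_hf
  have s3 : 0.05925 ≤ sE ^ 2 := by nlinarith
  have s4 : sE ^ 3 ≤ 0.243417 ^ 3 := pow_le_pow_left₀ (by linarith) s2 3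
  have s5 : 0 ≤ sE ^ 3 := pow_nonneg (by linarith) 3
  have b1 : 1.8114 ≤ 12 / 5 * π * (1 / 16 + 3 * sE ^ 2) := by nlinarith
  have b2 : 12 / 5 * π * sE ^ 3 ≤ 0.1088 := by nlinarith
  have c1 := mul_le_mul_of_nonneg_right hA (pow_nonneg hx 3)
  have c2 := mul_le_mul_of_nonneg_right ha hx
  have c3 := mul_le_mul_of_nonneg_right b1 (mul_nonneg hz (sq_nonneg x))
  have c4 := mul_le_mul_of_nonneg_right b2 hz
  have c5 := mul_le_mul_of_nonneg_right p2.le (sq_nonneg x)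
  have c6 := sq_nonneg x
  unfold Fhf at h
  unfold Ghf
  obtain ⟨R, hR⟩ : ∃ R, R = 4 * π * (α * x ^ 3 - 9 / 16 * x ^ 2 +
    z * ((1 / 16 + 3 * sE ^ 2) * x ^ 2 - sE ^ 3)) + a * x := ⟨_, rfl⟩
  rw [← hR]
  have := lerp_nonneg (a := 0) (b := 3 / 5) (M := 0) (x := u)
    (f := fun y => -cos (-x * y + (2 * π * x + γ)) - x ^ 2 / 2 * y ^ 2 + R * y + 1)
    (f' := fun y => sin (-x * y + (2 * π * x + γ)) * -x - x ^ 2 * y + R)
    (f'' := fun y => cos (-x * y + (2 * π * x + γ)) * x ^ 2 - x ^ 2) (by norm_num) le_rfl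
    (fun y => ((((((((hasDerivAt_id y).const_mul (-x)).add_const _).cos).neg).sub
      ((hasDerivAt_pow 2 y).const_mul _)).add ((hasDerivAt_id y).const_mul _)).add_const
        _).congr_deriv (by simp; ring))
    (fun y => (((((((hasDerivAt_id y).const_mul (-x)).add_const _).sin).mul_const (-x)).sub
      ((hasDerivAt_id y).const_mul _)).add_const _).congr_deriv (by simp; ring))
    (fun y _ _ => by
      have b1 := mul_le_mul_of_nonneg_right (cos_le_one (-x * y + (2 * π * x + γ))) c6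
      linarith) u0.le u1
    (by linarith [cos_le_one (-x * 0 + (2 * π * x + γ))])
    (by
      rw [show -x * (3 / 5) + (2 * π * x + γ) = (2 * π - 3 / 5) * x + γ by ring, hR]
      linarith)
  rw [show -x * u + (2 * π * x + γ) = (2 * π - u) * x + γ by ring] at this
  have c7 : 0 ≤ u ^ 4 * x ^ 2 := by positivity
  linarith

theorem bq_hf {φ y : ℝ} (h1 : |φ| ≤ 1.1) (h2 : 0 ≤ y) (h3 : y ≤ 0.4) :
    -(y ^ 4 / 22) ≤ 1 - cos (φ - y) - y ^ 2 / 2 + y * φ := by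
  obtain ⟨f0, f1⟩ := abs_le.1 h1
  have a1 := (cos8_hf (φ - y)).2
  have a2 : φ ^ 2 ≤ 1.1 ^ 2 := sq_le_sq' f0 f1
  have a3 : y ^ 2 ≤ 0.4 ^ 2 := pow_le_pow_left₀ h2 h3 2
  have a4 : 0 ≤ y * (φ + 1.1) := mul_nonneg h2 (by linarith)
  have a5 : 0 ≤ φ ^ 2 * (4 - (φ ^ 2 - 4 * y * φ + 6 * y ^ 2)) :=
    mul_nonneg (sq_nonneg φ) (by linarith)
  have a6 : 0 ≤ y ^ 4 * (0.4 ^ 2 - y ^ 2) := mul_nonneg (by positivity) (by linarith)
  have a7 := sq_nonneg (φ + y ^ 3 / 4)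
  have a8 : 0 ≤ y ^ 4 := by positivity
  linarith

theorem sm_hf {u x : ℝ} (h0 : 0 ≤ x) (h1 : x ≤ 3 / 5) : (u * x) ^ 4 / 22 ≤ u ^ 4 / 60 * x ^ 2 := by
  have a1 : x ^ 2 ≤ (3 / 5) ^ 2 := pow_le_pow_left₀ h0 h1 2
  have a2 : 0 ≤ u ^ 4 * x ^ 2 := by positivity
  have a3 := mul_le_mul_of_nonneg_left a1 a2
  linarith

theorem win1_hf {u x γ : ℝ} (u0 : 0 < u) (u1 : u ≤ 3 / 5) (h0 : 1 / 2 ≤ x) (h1 : x ≤ 84 / 128)
    (g0 : 69 / 32 ≤ γ) (g1 : γ ≤ π) :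
    0 ≤ Ghf ((163 - 49 * r10) / 12) u x γ 1 (γ - 2 * π * (pE + 2 * sE ^ 3)) := by
  have p1 := pi_gt_d6
  have p2 := pi_lt_d6
  have r1 := r10_lo
  have r2 := r10_hi
  obtain ⟨s1, s2⟩ := sE_hf
  have id : 2 * ((163 - 49 * r10) / 12 * x ^ 3 - 9 / 16 * x ^ 2 +
      ((1 / 16 + 3 * sE ^ 2) * x ^ 2 - sE ^ 3)) - (pE + 2 * sE ^ 3) * x - x ^ 2 + x =
      (x - qE) ^ 2 * (2 * ((163 - 49 * r10) / 12) * x - 2 * pE ^ 2 * sE) := by
    unfold pE qE sE
    linear_combination (-117 / 8 + 93 / 8 * r10 - 45 / 16 * r10 ^ 2 + 3 / 16 * r10 ^ 3 +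
      (-197 / 24 + 121 / 24 * r10 - 3 / 4 * r10 ^ 2) * x + (-35 / 12 + 3 / 4 * r10) * x ^ 2) * r10_sq
  have b := bq_hf (φ := 2 * π * x + γ - 2 * π) (y := u * x)
    (abs_le.2 ⟨by nlinarith, by nlinarith⟩) (by positivity) (by nlinarith)
  rw [show 2 * π * x + γ - 2 * π - u * x = (2 * π - u) * x + γ - 2 * π by ring,
    cos_sub_two_pi] at b
  have q1 : pE ^ 2 ≤ 0.419 ^ 2 :=
    pow_le_pow_left₀ (by unfold pE; linarith) (by unfold pE; linarith) 2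
  have q2 : pE ^ 2 * sE ≤ 0.419 ^ 2 * 0.243417 := mul_le_mul q1 s2 (by linarith) (by norm_num)
  have q3 : 0 ≤ (163 - 49 * r10 - 8.04) * x := mul_nonneg (by linarith) (by linarith)
  obtain ⟨T, hT⟩ : ∃ T, T = (x - qE) ^ 2 * (2 * ((163 - 49 * r10) / 12) * x - 2 * pE ^ 2 * sE) :=
    ⟨_, rfl⟩
  have e : Ghf ((163 - 49 * r10) / 12) u x γ 1 (γ - 2 * π * (pE + 2 * sE ^ 3)) =
      1 - cos ((2 * π - u) * x + γ) - (u * x) ^ 2 / 2 + u * x * (2 * π * x + γ - 2 * π) +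
        u ^ 4 / 60 * x ^ 2 + 2 * π * T * u := by
    rw [hT, ← id]
    unfold Ghf
    ring
  rw [e]
  rcases le_total x (3 / 5) with c | c
  · have t0 : 0 ≤ T := hT ▸ mul_nonneg (sq_nonneg _) (by linarith)
    have t1 : 0 ≤ 2 * π * T * u := by positivity
    linarith [sm_hf (u := u) (by linarith) c]
  · have t2 : 0.0188 ^ 2 ≤ (x - qE) ^ 2 :=
      pow_le_pow_left₀ (by norm_num) (by unfold qE; linarith) 2
    have t0 : 0.0188 ^ 2 * 0.7 ≤ T := hT ▸ mul_le_mul t2 (by linarith) (by norm_num) (sq_nonneg _)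
    have t1 : 0.0015 * u ≤ 2 * π * T * u := mul_le_mul_of_nonneg_right (by nlinarith) u0.le
    have t3 : x ^ 2 ≤ (84 / 128) ^ 2 := pow_le_pow_left₀ (by linarith) h1 2
    have t4 : u ^ 3 ≤ (3 / 5) ^ 3 := pow_le_pow_left₀ u0.le u1 3
    have t5 : u ^ 3 * x ^ 2 ≤ (3 / 5) ^ 3 * (84 / 128) ^ 2 :=
      mul_le_mul t4 t3 (sq_nonneg x) (by norm_num)
    have t6 := mul_le_mul_of_nonneg_left t5 u0.le
    have t7 : 0 ≤ u ^ 4 * x ^ 2 := by positivity
    have t8 := mul_le_mul_of_nonneg_left t3 t7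
    linarith

theorem win2_hf {u x γ : ℝ} (u0 : 0 < u) (u1 : u ≤ 3 / 5) (h0 : 42 / 128 ≤ x) (h1 : x ≤ 1 / 2)
    (g0 : 69 / 32 ≤ γ) (g1 : γ ≤ π) :
    0 ≤ Ghf ((53 * r10 - 157) / 12) u x (-γ) 1 (-(γ - 2 * π * (pE + 2 * sE ^ 3))) := by
  have p1 := pi_gt_d6
  have p2 := pi_lt_d6
  have r1 := r10_lo
  have r2 := r10_hi
  obtain ⟨s1, s2⟩ := sE_hf
  have id : 2 * ((53 * r10 - 157) / 12 * x ^ 3 - 9 / 16 * x ^ 2 +
      ((1 / 16 + 3 * sE ^ 2) * x ^ 2 - sE ^ 3)) + (pE + 2 * sE ^ 3) * x - x ^ 2 =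
      (x - pE) ^ 2 * (2 * ((53 * r10 - 157) / 12) * x - 2 * qE ^ 2 * sE) := by
    unfold pE qE sE
    linear_combination (-117 / 8 + 93 / 8 * r10 - 45 / 16 * r10 ^ 2 + 3 / 16 * r10 ^ 3 +
      (95 / 24 - 89 / 24 * r10 + 3 / 4 * r10 ^ 2) * x + (-7 / 12 + 3 / 4 * r10) * x ^ 2) * r10_sq
  have b := bq_hf (φ := 2 * π * x - γ) (y := u * x)
    (abs_le.2 ⟨by nlinarith, by nlinarith⟩) (by positivity) (by nlinarith)
  rw [show 2 * π * x - γ - u * x = (2 * π - u) * x + -γ by ring] at b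
  have q1 : qE ^ 2 ≤ 0.582 ^ 2 :=
    pow_le_pow_left₀ (by unfold qE; linarith) (by unfold qE; linarith) 2
  have q2 : qE ^ 2 * sE ≤ 0.582 ^ 2 * 0.243417 := mul_le_mul q1 s2 (by linarith) (by norm_num)
  have q3 : 0 ≤ (53 * r10 - 157 - 10.6) * x := mul_nonneg (by linarith) (by linarith)
  obtain ⟨T, hT⟩ : ∃ T, T = (x - pE) ^ 2 * (2 * ((53 * r10 - 157) / 12) * x - 2 * qE ^ 2 * sE) :=
    ⟨_, rfl⟩
  have e : Ghf ((53 * r10 - 157) / 12) u x (-γ) 1 (-(γ - 2 * π * (pE + 2 * sE ^ 3))) =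
      1 - cos ((2 * π - u) * x + -γ) - (u * x) ^ 2 / 2 + u * x * (2 * π * x - γ) +
        u ^ 4 / 60 * x ^ 2 + 2 * π * T * u := by
    rw [hT, ← id]
    unfold Ghf
    ring
  rw [e]
  have t0 : 0 ≤ T := hT ▸ mul_nonneg (sq_nonneg _) (by linarith)
  have t1 : 0 ≤ 2 * π * T * u := by positivity
  linarith [sm_hf (u := u) (x := x) (by linarith) (by linarith)]

theorem pw_hf {γ : ℝ} (h0 : -π ≤ γ) (h1 : γ ≤ π) : ∃ z a : ℝ, 0 ≤ z ∧ z ≤ 1 ∧
    ∀ u x, 0 < u → u ≤ 3 / 5 → 0 ≤ x → 0 ≤ Ghf ((163 - 49 * r10) / 12) u x γ z a ∧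
      0 ≤ Ghf ((53 * r10 - 157) / 12) u x (-γ) z (-a) := by
  have p1 := pi_gt_d6
  have p2 := pi_lt_d6
  have r1 := r10_lo
  have r2 := r10_hi
  have A1 : 5.0569 ≤ 12 / 5 * π * ((163 - 49 * r10) / 12) := by nlinarith
  have A2 : 6.6606 ≤ 12 / 5 * π * ((53 * r10 - 157) / 12) := by nlinarith
  rcases lt_or_ge γ (69 / 32) with c | c
  · obtain ⟨z, a, z0, z1, h⟩ := good_hf h0 c
    exact ⟨z, 5 / 3 * a, z0, z1, fun u x u0 u1 hx =>
      ⟨ofF_hf hx z0 A1 (by linarith) (h x hx).1 u0 u1,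
        ofF_hf hx z0 A2 (by linarith) (h x hx).2 u0 u1⟩⟩
  · obtain ⟨s1, s2⟩ := sE_hf
    have s4 : sE ^ 3 ≤ 0.243417 ^ 3 := pow_le_pow_left₀ (by linarith) s2 3
    have s5 : 0.243416 ^ 3 ≤ sE ^ 3 := pow_le_pow_left₀ (by norm_num) s1 3
    have k0 : 0.447706 ≤ pE + 2 * sE ^ 3 := by unfold pE; linarith
    have k1 : pE + 2 * sE ^ 3 ≤ 0.447708 := by unfold pE; linarith
    have k2 : 3.141592 * 0.447706 ≤ π * (pE + 2 * sE ^ 3) :=
      mul_le_mul p1.le k0 (by norm_num) pi_pos.le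
    have k3 : π * (pE + 2 * sE ^ 3) ≤ 3.141593 * 0.447708 :=
      mul_le_mul p2.le k1 (by linarith) (by norm_num)
    refine ⟨1, γ - 2 * π * (pE + 2 * sE ^ 3), zero_le_one, le_rfl, fun u x u0 u1 hx => ⟨?_, ?_⟩⟩
    · by_cases d : x ≤ 1 / 2 ∨ 84 / 128 ≤ x
      · exact ofF_hf hx zero_le_one A1 (by linarith) ((goodE_hf c h1 hx).1 d) u0 u1
      · rw [not_or, not_le, not_le] at d
        exact win1_hf u0 u1 d.1.le d.2.le c h1
    · by_cases d : x ≤ 42 / 128 ∨ 1 / 2 ≤ x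
      · exact ofF_hf hx zero_le_one A2 (by linarith) ((goodE_hf c h1 hx).2 d) u0 u1
      · rw [not_or, not_le, not_le] at d
        exact win2_hf u0 u1 d.1.le d.2.le c h1

theorem one_hf {u s bp bm C S : ℝ} (u0 : 0 < u) (u1 : u ≤ 3 / 5)
    (h : YD.Lin ⟨(2 * π - u) ^ 2 * s, (2 * π - u) ^ 3 * bp, (2 * π - u) ^ 3 * bm, C, S⟩) :
    ‖YD.f ⟨(2 * π - u) ^ 2 * s, (2 * π - u) ^ 3 * bp, (2 * π - u) ^ 3 * bm, C, S⟩‖ ≤
      exp (-((u ^ 2 / 2 - u ^ 4 / 60) * s) +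
        4 * π * u * (Cp * (bp + bm) - s / 2 - (bp - bm) / 6 - JI.J s bp bm)) := by
  have p1 := pi_gt_three
  obtain ⟨t, ht⟩ : ∃ t, t = 2 * π - u := ⟨_, rfl⟩
  have t0 : 0 < t := by linarith
  rw [← ht] at h ⊢
  have e1 := YD.f_re ⟨t ^ 2 * s, t ^ 3 * bp, t ^ 3 * bm, C, S⟩
  have e2 := YD.f_im ⟨t ^ 2 * s, t ^ 3 * bp, t ^ 3 * bm, C, S⟩
  obtain ⟨f, hf⟩ : ∃ f, f = YD.f ⟨t ^ 2 * s, t ^ 3 * bp, t ^ 3 * bm, C, S⟩ := ⟨_, rfl⟩
  rw [← hf] at e1 e2 ⊢
  obtain ⟨z, a, z0, z1, hG⟩ := pw_hf (γ := -Complex.arg f) (neg_le_neg (Complex.arg_le_pi f))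
    (by linarith [Complex.neg_pi_lt_arg f])
  have k := h (cos (Complex.arg f)) (sin (Complex.arg f)) (1 - 4 * π * u * z * sE ^ 3) (u * a / t)
    ((-(u ^ 2 / 2 - u ^ 4 / 60) + 4 * π * u * (z * (1 / 16 + 3 * sE ^ 2) - 9 / 16)) / t ^ 2)
    (4 * π * u * ((163 - 49 * r10) / 12) / t ^ 3) (4 * π * u * ((53 * r10 - 157) / 12) / t ^ 3)
    (fun y hy => by
      obtain ⟨x, rfl⟩ : ∃ x, y = t * x := ⟨y / t, by field_simp⟩
      have b := (hG u x u0 u1 (nonneg_of_mul_nonneg_right hy t0)).1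
      unfold Ghf at b
      rw [← ht, ← sub_eq_add_neg, cos_sub] at b
      rw [mul_pow, mul_pow, ← mul_assoc, ← mul_assoc, ← mul_assoc, div_mul_cancel₀ _ t0.ne',
        div_mul_cancel₀ _ (pow_pos t0 2).ne', div_mul_cancel₀ _ (pow_pos t0 3).ne']
      linarith)
    (fun y hy => by
      obtain ⟨x, rfl⟩ : ∃ x, y = t * x := ⟨y / t, by field_simp⟩
      have b := (hG u x u0 u1 (nonneg_of_mul_nonneg_right hy t0)).2
      unfold Ghf at b
      rw [← ht, neg_neg, cos_add] at b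
      rw [mul_pow, mul_pow, ← mul_assoc, ← mul_assoc, ← mul_assoc, div_mul_cancel₀ _ t0.ne',
        div_mul_cancel₀ _ (pow_pos t0 2).ne', div_mul_cancel₀ _ (pow_pos t0 3).ne']
      linarith)
  dsimp only at k e1 e2
  rw [← mul_assoc, ← mul_assoc, ← mul_assoc, div_mul_cancel₀ _ (pow_pos t0 2).ne',
    div_mul_cancel₀ _ (pow_pos t0 3).ne', div_mul_cancel₀ _ (pow_pos t0 3).ne', ← e1, ← e2] at k
  have e3 : cos f.arg * (‖f‖ * cos f.arg) + sin f.arg * (‖f‖ * sin f.arg) = ‖f‖ := by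
    linear_combination ‖f‖ * cos_sq_add_sin_sq f.arg
  rw [e3] at k
  refine le_trans (k.trans ?_) (add_one_le_exp _)
  have m1 : z * ((1 / 16 + 3 * sE ^ 2) * s - sE ^ 3) ≤
      max ((1 / 16 + 3 * sE ^ 2) * s - sE ^ 3) 0 :=
    (mul_le_mul_of_nonneg_left (le_max_left _ 0) z0).trans
      (mul_le_of_le_one_left (le_max_right _ _) z1)
  have m2 := mul_le_mul_of_nonneg_left m1 (by positivity : 0 ≤ 4 * π * u)
  simp only [JP.J, JI, Cp, c3]
  linarith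

theorem high {S : Sys} (h : S.Ok) (hb : S.Bal JI) : High (charFun S.ν) S.N := by
  intro u u0 u1
  have t0 : 0 < 2 * π - u := by linarith [pi_gt_three]
  rw [h.char _ t0, norm_prod]
  refine (Finset.prod_le_prod (fun k _ => norm_nonneg _)
    fun k _ => one_hf u0 u1 (h.lin k _ t0)).trans (le_of_eq ?_)
  rw [← exp_sum]
  congr 1
  have e : Cp * (∑ k, S.bp k + ∑ k, S.bm k) = (∑ k, S.s k) / 2 + (∑ k, S.bp k - ∑ k, S.bm k) / 6 +
      ∑ k, JI.J (S.s k) (S.bp k) (S.bm k) := hb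
  simp only [Finset.sum_add_distrib, Finset.sum_sub_distrib, Finset.sum_neg_distrib,
    ← Finset.mul_sum, ← Finset.sum_div, Sys.N]
  linear_combination 4 * π * u * e

end Pool.Agent.Lib.MP_33650d_pr.X
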