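import Pool.Agent.Lib.MP_33650d_pr.Prawitz

namespace Pool.Agent.Lib.MP_33650d_pr.RM
open MeasureTheory ProbabilityTheory Real Set

/-- The integrand of the smoothing inequality with `T = 2 π`, at the frequency `t`. -/
noncomputable def kI (f : ℝ → ℂ) (y t : ℝ) : ℝ :=
  (1 - t / (2 * π)) * (Complex.exp (-((t * y : ℝ) : ℂ) * Complex.I) * f t).re
    - (pw_c (t / (2 * π)) + 1 / π) * (Complex.exp (-((t * y : ℝ) : ℂ) * Complex.I) * f t).im

/-- The integrand of the inversion formula for the normal law. -/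
noncomputable def sg (x τ : ℝ) : ℝ := exp (-τ ^ 2 / 2) * (sin (τ * x) / τ) / π

theorem r1a_inner (ν : Measure ℝ) [IsProbabilityMeasure ν] (y u : ℝ) :
    ∫ z, ((1 - u) * cos (u * ((z - y) * (2 * π))) - (pw_c u + 1 / π) *
      sin (u * ((z - y) * (2 * π)))) ∂ν = kI (charFun ν) y (2 * π * u) := by
  have c1 : Integrable (fun z => cos (2 * π * u * z)) ν := Integrable.of_bound (by fun_prop) 1
    (ae_of_all _ fun y => abs_cos_le_one _)
  have c2 : Integrable (fun z => sin (2 * π * u * z)) ν := Integrable.of_bound (by fun_prop) 1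
    (ae_of_all _ fun y => abs_sin_le_one _)
  have a2 : ∫ z, ((1 - u) * cos (u * ((z - y) * (2 * π))) - (pw_c u + 1 / π) *
      sin (u * ((z - y) * (2 * π)))) ∂ν = ((1 - u) * cos (2 * π * u * y) + (pw_c u + 1 / π) *
      sin (2 * π * u * y)) * ∫ z, cos (2 * π * u * z) ∂ν + ((1 - u) * sin (2 * π * u * y) -
      (pw_c u + 1 / π) * cos (2 * π * u * y)) * ∫ z, sin (2 * π * u * z) ∂ν := by
    rw [← integral_const_mul, ← integral_const_mul, ← integral_add (c1.const_mul _)
      (c2.const_mul _)]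
    congr 1
    funext z
    rw [show u * ((z - y) * (2 * π)) = 2 * π * u * z - 2 * π * u * y by ring, cos_sub, sin_sub]
    ring
  rw [a2, kI, mul_div_cancel_left₀ _ (by positivity : (2 * π : ℝ) ≠ 0), pw_char,
    ← Complex.ofReal_neg]
  simp only [Complex.mul_re, Complex.mul_im, Complex.exp_ofReal_mul_I_re,
    Complex.exp_ofReal_mul_I_im, Complex.add_re, Complex.add_im, Complex.ofReal_re,
    Complex.ofReal_im, Complex.I_re, Complex.I_im, cos_neg, sin_neg]
  ring

/-- The smoothing inequality, folded at `π` and rescaled. -/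
theorem r1_fold (ν : Measure ℝ) [IsProbabilityMeasure ν] (h1 : Integrable (fun y : ℝ => y) ν)
    {h : ℝ} (hh : 0 < h) (x : ℝ) (β : ℝ → ℝ) (hβ : IntegrableOn β (Ioi 0))
    (hlo : ∀ τ : ℝ, 0 < τ → h * τ < π → h / (2 * π) * (kI (charFun ν) (x / h) (h * τ)
      + kI (charFun ν) (x / h) (2 * π - h * τ)) ≤ sg x τ + β τ)
    (hhi : ∀ τ : ℝ, π ≤ h * τ → 0 ≤ sg x τ + β τ) :
    ν.real (Iic (x / h)) - Phi x ≤ ∫ τ in Ioi 0, β τ := by
  obtain ⟨f1, f2⟩ := pw_fubini ν h1 (2 * π) (x / h)
  simp only [r1a_inner] at f1 f2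
  rw [if_pos (by positivity), mul_one, ← intervalIntegral.integral_of_le zero_le_one] at f2
  set F : ℝ → ℝ := fun u => kI (charFun ν) (x / h) (2 * π * u) with hF
  have i0 : IntervalIntegrable F volume 0 1 :=
    (intervalIntegrable_iff_integrableOn_Ioc_of_le zero_le_one).2 f1
  have i1 : IntervalIntegrable F volume 0 (1 / 2) :=
    i0.mono_set (uIcc_subset_uIcc_left (by rw [uIcc_of_le zero_le_one]; constructor <;> norm_num))
  have i2 : IntervalIntegrable F volume (1 / 2) 1 :=
    i0.mono_set (uIcc_subset_uIcc_right (by rw [uIcc_of_le zero_le_one]; constructor <;> norm_num))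
  have i3 : IntervalIntegrable (fun u => F (1 - u)) volume 0 (1 / 2) := by
    have := (i2.comp_sub_left 1).symm
    rwa [sub_self, show (1 : ℝ) - 1 / 2 = 1 / 2 by norm_num] at this
  have e1 : ∫ u in (0 : ℝ)..1, F u = ∫ u in (0 : ℝ)..1 / 2, (F u + F (1 - u)) := by
    rw [intervalIntegral.integral_add i1 i3, intervalIntegral.integral_comp_sub_left F 1, sub_zero,
      show (1 : ℝ) - 1 / 2 = 1 / 2 by norm_num,
      intervalIntegral.integral_add_adjacent_intervals i1 i2]
  have hc : 0 < h / (2 * π) := by positivity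
  have ha : 0 < π / h := by positivity
  have e2 : h / (2 * π) * (π / h) = 1 / 2 := by field_simp
  set G : ℝ → ℝ := fun τ => h / (2 * π) * (F (h / (2 * π) * τ) + F (1 - h / (2 * π) * τ)) with hG
  have i4 : IntervalIntegrable G volume 0 (π / h) := by
    have := ((i1.add i3).comp_mul_left (c := h / (2 * π))).const_mul (h / (2 * π))
    rwa [zero_div, show 1 / 2 / (h / (2 * π)) = π / h by field_simp] at this
  have e3 : ∫ τ in (0 : ℝ)..π / h, G τ = ∫ u in (0 : ℝ)..1 / 2, (F u + F (1 - u)) := by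
    rw [hG, intervalIntegral.integral_const_mul,
      intervalIntegral.mul_integral_comp_mul_left (f := fun u => F u + F (1 - u)), mul_zero, e2]
  have j1 : IntegrableOn (sg x) (Ioi 0) := (pw_sinc_int x).integrableOn
  have j2 : IntegrableOn (fun τ => sg x τ + β τ) (Ioi 0) := j1.add hβ
  have r1 : ∫ τ in Ioo 0 (π / h), G τ ≤ ∫ τ in Ioo 0 (π / h), (sg x τ + β τ) := by
    refine setIntegral_mono_on ((intervalIntegrable_iff_integrableOn_Ioo_of_le ha.le).1 i4)
      (j2.mono_set Ioo_subset_Ioi_self) measurableSet_Ioo fun τ hτ => ?_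
    have := hlo τ hτ.1 ((lt_div_iff₀' hh).1 hτ.2)
    simp only [hG, hF]
    rwa [show 2 * π * (h / (2 * π) * τ) = h * τ by field_simp,
      show 2 * π * (1 - h / (2 * π) * τ) = 2 * π - h * τ by field_simp]
  have r2 : ∫ τ in Ioo 0 (π / h), (sg x τ + β τ) ≤ ∫ τ in Ioi 0, (sg x τ + β τ) := by
    rw [← Ioo_union_Ici_eq_Ioi ha, setIntegral_union (Iio_disjoint_Ici le_rfl |>.mono_left
      Ioo_subset_Iio_self) measurableSet_Ici (j2.mono_set Ioo_subset_Ioi_self)
      (j2.mono_set (Ici_subset_Ioi.2 ha))]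
    exact le_add_of_nonneg_right (setIntegral_nonneg measurableSet_Ici fun τ hτ =>
      hhi τ ((div_le_iff₀' hh).1 hτ))
  rw [integral_add j1 hβ] at r2
  rw [e1, ← e3, intervalIntegral.integral_of_le ha.le, integral_Ioc_eq_integral_Ioo] at f2
  have p1 : Phi x = 1 / 2 + ∫ τ in Ioi 0, sg x τ := pw_Phi x
  linarith

end Pool.Agent.Lib.MP_33650d_pr.RM
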