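import Pool.Agent.Lib.MP_33650d_pr.Prawitz

namespace Pool.Agent.Lib.MP_33650d_pr.RM
open Real

theorem r1b_deriv (z : ℂ) (n : ℕ) (s : ℝ) :
    HasDerivAt (fun s : ℝ => Complex.exp (s * z) -
        ∑ k ∈ Finset.range (n + 1), ((s : ℂ) * z) ^ k / (k.factorial : ℂ))
      (z * (Complex.exp (s * z) - ∑ k ∈ Finset.range n, ((s : ℂ) * z) ^ k / (k.factorial : ℂ))) s := by
  have h1 : HasDerivAt (fun w : ℂ => Complex.exp w -
        ∑ k ∈ Finset.range (n + 1), w ^ k / (k.factorial : ℂ))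
      (Complex.exp (s * z) - ∑ k ∈ Finset.range n, ((s : ℂ) * z) ^ k / (k.factorial : ℂ))
      (s * z) := by
    refine (Complex.hasDerivAt_exp _).sub ?_
    simp only [Finset.sum_range_succ', pow_zero]
    refine HasDerivAt.add_const _ (HasDerivAt.fun_sum fun k _ => ?_)
    refine ((hasDerivAt_pow (k + 1) ((s : ℂ) * z)).div_const _).congr_deriv ?_
    have h2 : ((k : ℂ) + 1) ≠ 0 := Nat.cast_add_one_ne_zero k
    have h3 : (k.factorial : ℂ) ≠ 0 := Nat.cast_ne_zero.2 k.factorial_ne_zero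
    rw [Nat.factorial_succ]
    push_cast
    field_simp
  have h2 : HasDerivAt (fun s : ℝ => (s : ℂ) * z) z s := by
    simpa using (Complex.ofRealCLM.hasDerivAt (x := s)).mul_const z
  simpa [Function.comp_def] using h1.scomp s h2

theorem r1b_rem (z : ℂ) (n : ℕ) : ∀ s ∈ Set.Icc (0 : ℝ) 1,
    ‖Complex.exp (s * z) - ∑ k ∈ Finset.range n, ((s : ℂ) * z) ^ k / (k.factorial : ℂ)‖
      ≤ (s * ‖z‖) ^ n / n.factorial * exp (max z.re 0) := by
  induction n with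
  | zero =>
    intro s hs
    simp only [Finset.range_zero, Finset.sum_empty, sub_zero, pow_zero, Nat.factorial_zero,
      Nat.cast_one, div_one, one_mul, Complex.norm_exp, Complex.re_ofReal_mul, exp_le_exp]
    calc s * z.re ≤ s * max z.re 0 := mul_le_mul_of_nonneg_left (le_max_left _ _) hs.1
      _ ≤ max z.re 0 := mul_le_of_le_one_left (le_max_right _ _) hs.2
  | succ n ih =>
    have hB : ∀ s : ℝ, HasDerivAt
        (fun s : ℝ => (s * ‖z‖) ^ (n + 1) / (n + 1).factorial * exp (max z.re 0))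
        (‖z‖ * ((s * ‖z‖) ^ n / n.factorial * exp (max z.re 0))) s := fun s => by
      refine (((((hasDerivAt_id s).mul_const ‖z‖).pow (n + 1)).div_const _).mul_const _).congr_deriv ?_
      have h2 : ((n : ℝ) + 1) ≠ 0 := Nat.cast_add_one_ne_zero n
      have h3 : (n.factorial : ℝ) ≠ 0 := Nat.cast_ne_zero.2 n.factorial_ne_zero
      rw [Nat.factorial_succ]
      push_cast
      simp only [id]
      field_simp
    intro s hs
    refine image_norm_le_of_norm_deriv_right_le_deriv_boundary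
      (fun x _ => (r1b_deriv z n x).continuousAt.continuousWithinAt)
      (fun x _ => (r1b_deriv z n x).hasDerivWithinAt) ?_ hB (fun x hx => ?_) hs
    · simp [Finset.sum_range_succ']
    · rw [norm_mul]
      exact mul_le_mul_of_nonneg_left (ih x ⟨hx.1, hx.2.le⟩) (norm_nonneg _)

/-- The remainder of the exponential series. -/
theorem r1_exp_rem (z : ℂ) (n : ℕ) :
    ‖Complex.exp z - ∑ k ∈ Finset.range n, z ^ k / (k.factorial : ℂ)‖
      ≤ ‖z‖ ^ n / n.factorial * exp (max z.re 0) := by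
  simpa using r1b_rem z n 1 ⟨zero_le_one, le_rfl⟩

theorem r1b_sin {z : ℝ} (hz : 0 ≤ z) :
    |sin z - (z - z ^ 3 / 6 + z ^ 5 / 120 - z ^ 7 / 5040 + z ^ 9 / 362880 - z ^ 11 / 39916800)|
      ≤ z ^ 13 / 6227020800 := by
  have h := (Complex.abs_im_le_norm _).trans (r1_exp_rem (z * Complex.I) 13)
  have e : ∑ k ∈ Finset.range 13, ((z : ℂ) * Complex.I) ^ k / (k.factorial : ℂ) =
      ((1 - z ^ 2 / 2 + z ^ 4 / 24 - z ^ 6 / 720 + z ^ 8 / 40320 - z ^ 10 / 3628800 +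
        z ^ 12 / 479001600 : ℝ) : ℂ) +
      ((z - z ^ 3 / 6 + z ^ 5 / 120 - z ^ 7 / 5040 + z ^ 9 / 362880 - z ^ 11 / 39916800 : ℝ) : ℂ) *
        Complex.I := by
    simp only [Finset.sum_range_succ, Finset.range_zero, Finset.sum_empty, Nat.factorial, mul_pow]
    have i2 : Complex.I ^ 2 = -1 := Complex.I_sq
    push_cast
    grind
  rw [e, Complex.sub_im, Complex.exp_ofReal_mul_I_im, Complex.add_im, Complex.ofReal_im,
    Complex.mul_I_im, Complex.ofReal_re, zero_add] at h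
  simpa [abs_of_nonneg hz, Nat.factorial] using h

theorem r1b_cos {z : ℝ} (hz : 0 ≤ z) :
    |cos z - (1 - z ^ 2 / 2 + z ^ 4 / 24 - z ^ 6 / 720 + z ^ 8 / 40320 - z ^ 10 / 3628800)|
      ≤ z ^ 12 / 479001600 := by
  have h := (Complex.abs_re_le_norm _).trans (r1_exp_rem (z * Complex.I) 12)
  have e : ∑ k ∈ Finset.range 12, ((z : ℂ) * Complex.I) ^ k / (k.factorial : ℂ) =
      ((1 - z ^ 2 / 2 + z ^ 4 / 24 - z ^ 6 / 720 + z ^ 8 / 40320 - z ^ 10 / 3628800 : ℝ) : ℂ) +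
      ((z - z ^ 3 / 6 + z ^ 5 / 120 - z ^ 7 / 5040 + z ^ 9 / 362880 - z ^ 11 / 39916800 : ℝ) : ℂ) *
        Complex.I := by
    simp only [Finset.sum_range_succ, Finset.range_zero, Finset.sum_empty, Nat.factorial, mul_pow]
    have i2 : Complex.I ^ 2 = -1 := Complex.I_sq
    push_cast
    grind
  rw [e, Complex.sub_re, Complex.exp_ofReal_mul_I_re, Complex.add_re, Complex.ofReal_re,
    Complex.mul_I_re, Complex.ofReal_im, neg_zero, add_zero] at h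
  simpa [abs_of_nonneg hz, Nat.factorial] using h

/-- Replace sine and cosine by polynomials. -/
theorem r1b_poly {z g : ℝ} (hz : 0 ≤ z) (hg : |g| ≤ 1) :
    |g * sin z - z * cos z -
      (g * (z - z ^ 3 / 6 + z ^ 5 / 120 - z ^ 7 / 5040 + z ^ 9 / 362880 - z ^ 11 / 39916800) -
        z * (1 - z ^ 2 / 2 + z ^ 4 / 24 - z ^ 6 / 720 + z ^ 8 / 40320 - z ^ 10 / 3628800))|
      ≤ z ^ 13 / 6227020800 + z * (z ^ 12 / 479001600) := by
  have h1 := mul_le_mul hg (r1b_sin hz) (abs_nonneg _) zero_le_one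
  have h2 := mul_le_mul_of_nonneg_left (r1b_cos hz) hz
  rw [← abs_mul, one_mul] at h1
  have h3 := abs_mul z (cos z -
    (1 - z ^ 2 / 2 + z ^ 4 / 24 - z ^ 6 / 720 + z ^ 8 / 40320 - z ^ 10 / 3628800))
  rw [abs_of_nonneg hz] at h3
  rw [← h3] at h2
  rw [abs_le] at h1 h2 ⊢
  constructor <;> linarith [h1.1, h1.2, h2.1, h2.2]

theorem r1b_D {t : ℝ} (h0 : 0 < t) (h1 : t ≤ π) :
    0 < sin (t / 2) ∧ (t / 2) ^ 2 ≤ 5 / 2 ∧
      pw_D (t / (2 * π)) = (sin (t / 2) - t / 2 * cos (t / 2)) / (t / 2 * sin (t / 2)) := by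
  have e : π * (t / (2 * π)) = t / 2 := by field_simp
  have hs : 0 < sin (t / 2) := sin_pos_of_pos_of_lt_pi (by linarith) (by linarith [pi_pos])
  refine ⟨hs, by nlinarith [pi_lt_d2], ?_⟩
  rw [pw_D, e]
  field_simp

theorem r1_D_lo {t : ℝ} (h0 : 0 < t) (h1 : t ≤ π) : t / 6 + t ^ 3 / 360 ≤ pw_D (t / (2 * π)) := by
  obtain ⟨hs, hw, e⟩ := r1b_D h0 h1
  obtain ⟨z, rfl⟩ : ∃ z, t = 2 * z := ⟨t / 2, by ring⟩
  rw [mul_div_cancel_left₀ z two_ne_zero] at hs hw e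
  have hz : 0 < z := by linarith
  rw [e, le_div_iff₀ (mul_pos hz hs)]
  have hw0 := sq_nonneg z
  have h := (abs_le.1 (r1b_poly (g := 1 - z ^ 2 / 3 - z ^ 4 / 45) hz.le
    (abs_le.2 ⟨by nlinarith, by nlinarith⟩))).1
  have q : 0 ≤ z ^ 7 * (2 / 945 - 2 / 14175 * z ^ 2 + 1 / 267300 * (z ^ 2) ^ 2 -
      103 / 1868106240 * (z ^ 2) ^ 3 + 1 / 1796256000 * (z ^ 2) ^ 4) := by
    refine mul_nonneg (by positivity) ?_
    generalize z ^ 2 = w at hw hw0
    have a1 := mul_nonneg (sq_nonneg w) (sub_nonneg.2 hw)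
    have a2 := pow_nonneg hw0 4
    have a3 := sq_nonneg w
    linarith
  linarith

theorem r1_D_hi {t : ℝ} (h0 : 0 < t) (h1 : t ≤ π) :
    pw_D (t / (2 * π)) ≤ t / 6 + t ^ 3 / 360 + t ^ 5 / 11000 := by
  obtain ⟨hs, hw, e⟩ := r1b_D h0 h1
  obtain ⟨z, rfl⟩ : ∃ z, t = 2 * z := ⟨t / 2, by ring⟩
  rw [mul_div_cancel_left₀ z two_ne_zero] at hs hw e
  have hz : 0 < z := by linarith
  rw [e, div_le_iff₀ (mul_pos hz hs)]
  have hw0 := sq_nonneg z
  have hw2 : (z ^ 2) ^ 2 ≤ (5 / 2) ^ 2 := pow_le_pow_left₀ hw0 hw 2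
  have hw3 : (z ^ 2) ^ 3 ≤ (5 / 2) ^ 3 := pow_le_pow_left₀ hw0 hw 3
  have h := (abs_le.1 (r1b_poly (g := 1 - z ^ 2 / 3 - z ^ 4 / 45 - 32 * z ^ 6 / 11000) hz.le
    (abs_le.2 ⟨by linarith, by linarith [pow_nonneg hz.le 4, pow_nonneg hz.le 6]⟩))).2
  have q : 0 ≤ z ^ 7 * (206 / 259875 - 268 / 779625 * z ^ 2 + 137 / 6682500 * (z ^ 2) ^ 2 -
      122959 / 233513280000 * (z ^ 2) ^ 3 + 67 / 8981280000 * (z ^ 2) ^ 4 -
      1 / 13721400000 * (z ^ 2) ^ 5) := by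
    refine mul_nonneg (by positivity) ?_
    generalize z ^ 2 = w at hw hw0
    have a0 := sub_nonneg.2 hw
    have a1 := mul_nonneg (sq_nonneg w) a0
    have a2 := pow_nonneg hw0 4
    have a3 := mul_nonneg a2 a0
    have a4 := mul_nonneg a0 a0
    linarith
  linarith

theorem r1b_bern {u a b : ℝ} (h0 : a ≤ u) (h1 : u ≤ b) (i j : ℕ) : 0 ≤ (u - a) ^ i * (b - u) ^ j :=
  mul_nonneg (pow_nonneg (sub_nonneg.2 h0) _) (pow_nonneg (sub_nonneg.2 h1) _)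

theorem r1b_six {u : ℝ} (h0 : 0 ≤ u) (h1 : u ≤ 1 / 2) :
    987 / 100 * (u ^ 2 * (1 - u) ^ 2) - 6578 / 1000 * (u ^ 2 * (1 - u)) +
      1083 / 100 * (u ^ 4 * (1 - u) ^ 2) ≤ 71225 / 1000000 := by
  rcases le_total u (1 / 4) with h | h
  · have b := r1b_bern h0 h
    linarith [b 0 6, b 1 5, b 2 4, b 3 3, b 4 2, b 5 1, b 6 0]
  · have b := r1b_bern h h1
    linarith [b 0 6, b 1 5, b 2 4, b 3 3, b 4 2, b 5 1, b 6 0]

/-- The squared modulus of the kernel, times `(t / 2) ^ 2`. -/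
theorem r1_K_le {t : ℝ} (h0 : 0 < t) (h1 : t ≤ π) :
    (1 - (1 - t / (2 * π)) * (t / 2 * pw_D (t / (2 * π)))) ^ 2 + ((1 - t / (2 * π)) * (t / 2)) ^ 2
      ≤ min ((1 + t ^ 2 / 24) ^ 2) (1.035 ^ 2) := by
  have hD : t / 6 ≤ pw_D (t / (2 * π)) := le_trans (by linarith [pow_pos h0 3]) (r1_D_lo h0 h1)
  obtain ⟨u, hu⟩ : ∃ u, u = t / (2 * π) := ⟨_, rfl⟩
  rw [← hu] at hD ⊢
  have hp := pi_pos
  have e : π * u = t / 2 := by rw [hu]; field_simp
  have u0 : 0 < u := by rw [hu]; positivity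
  have u1 : u ≤ 1 / 2 := by rw [hu, div_le_iff₀ (by positivity)]; linarith
  have s0 : 0 ≤ 1 - u := by linarith
  have a1 : 0 ≤ 1 - (1 - u) * (t / 2 * pw_D u) := by
    have b1 := (pw_k_bd u0 (by linarith)).1
    rw [pw_k_eq u0, e, sub_nonneg, le_div_iff₀ (by linarith)] at b1
    linarith
  have a2 : 1 - (1 - u) * (t / 2 * pw_D u) ≤ 1 - (1 - u) * (t ^ 2 / 12) := by
    have b1 := mul_le_mul_of_nonneg_left hD (show 0 ≤ t / 2 by linarith)
    have b2 := mul_le_mul_of_nonneg_left b1 s0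
    linarith
  have a3 := pow_le_pow_left₀ a1 a2 2
  have p1 : 39.47 ≤ 4 * π ^ 2 := by nlinarith [pi_gt_d4]
  have p2 : 4 * π ^ 2 ≤ 39.48 := by nlinarith [pi_lt_d4]
  have e2 : t ^ 2 = 4 * π ^ 2 * u ^ 2 := by
    have : t = 2 * (π * u) := by linarith
    rw [this]; ring
  have c1 : 39.47 * u ^ 2 ≤ t ^ 2 := e2 ▸ mul_le_mul_of_nonneg_right p1 (sq_nonneg u)
  have c2 : t ^ 2 ≤ 39.48 * u ^ 2 := e2 ▸ mul_le_mul_of_nonneg_right p2 (sq_nonneg u)
  rw [mul_pow]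
  rw [div_pow t]
  have w0 := sq_nonneg t
  generalize t ^ 2 = w at a3 c1 c2 w0 ⊢
  refine le_min ?_ ?_
  · have d1 : (1 - u) ^ 2 ≤ 1 := pow_le_one₀ s0 (by linarith)
    have d2 : (1 - u) ^ 2 * w ≤ 1 * (39.48 * u ^ 2) := mul_le_mul d1 c2 w0 zero_le_one
    have d3 : (1 - u) ^ 2 * w / 144 ≤ (3 * (1 - u) + 1) * u / 12 := by nlinarith
    have d4 := mul_le_mul_of_nonneg_right d3 w0
    linarith [sq_nonneg w]
  · have d1 := mul_le_mul_of_nonneg_left c1 s0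
    have d2 := mul_le_mul_of_nonneg_left c2 (sq_nonneg (1 - u))
    have d3 := mul_le_mul_of_nonneg_left (pow_le_pow_left₀ w0 c2 2) (sq_nonneg (1 - u))
    have d4 := r1b_six u0.le u1
    have d5 : 0 ≤ u ^ 2 * (1 - u) := by positivity
    have d6 : 0 ≤ u ^ 4 * (1 - u) ^ 2 := by positivity
    norm_num at d1 d2 d3 ⊢
    linarith

end Pool.Agent.Lib.MP_33650d_pr.RM
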