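import Pool.Agent.Lib.MP_33650d_pr.Prawitz

namespace Pool.Agent.Lib.MP_33650d_pr.RM
open MeasureTheory ProbabilityTheory Real Set Filter Topology

/-- The Gaussian weight with rate `l`. -/
noncomputable def gw (l τ : ℝ) : ℝ := exp (-(l * τ ^ 2 / 2))

theorem gw_pos (l τ : ℝ) : 0 < gw l τ := exp_pos _

theorem gw_cont (l : ℝ) : Continuous (gw l) := by
  unfold gw
  fun_prop

theorem gw_one (τ : ℝ) : gw 1 τ = exp (-τ ^ 2 / 2) := by
  unfold gw
  congr 1
  ring

theorem gw_int {l : ℝ} (hl : 0 < l) (m : ℕ) : Integrable fun τ : ℝ => τ ^ m * gw l τ := by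
  have := integrable_rpow_mul_exp_neg_mul_sq (b := l / 2) (by positivity) (s := (m : ℝ))
    (by have : (0 : ℝ) ≤ m := Nat.cast_nonneg m; linarith)
  refine this.congr (ae_of_all _ fun t => ?_)
  simp only [rpow_natCast, gw]
  congr 2
  ring

theorem gw_int_bd {l : ℝ} (hl : 0 < l) (m : ℕ) {g : ℝ → ℝ} (hg : Continuous g)
    (hb : ∀ τ, |g τ| ≤ 1) : Integrable fun τ : ℝ => τ ^ m * gw l τ * g τ :=
  (gw_int hl m).mul_bdd (c := 1) hg.aestronglyMeasurable (ae_of_all _ hb)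

theorem gw_lim {l : ℝ} (hl : 0 < l) (m : ℕ) :
    Tendsto (fun τ : ℝ => τ ^ m * gw l τ) atTop (𝓝 0) := by
  have h := (rpow_mul_exp_neg_mul_sq_isLittleO_exp_neg (b := l / 2) (by positivity)
    (m : ℝ)).trans_tendsto (tendsto_exp_atBot.comp
      (tendsto_id.const_mul_atTop_of_neg (show (-(1 / 2) : ℝ) < 0 by norm_num)))
  refine h.congr fun t => ?_
  simp only [rpow_natCast, gw]
  congr 2
  ring

theorem gw_lim_bd {l : ℝ} (hl : 0 < l) (m : ℕ) {g : ℝ → ℝ} (hb : ∀ τ, |g τ| ≤ 1) :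
    Tendsto (fun τ : ℝ => τ ^ m * gw l τ * g τ) atTop (𝓝 0) := by
  refine squeeze_zero_norm' ?_ (gw_lim hl m)
  filter_upwards [eventually_ge_atTop 0] with τ hτ
  have h1 : 0 ≤ τ ^ m * gw l τ := mul_nonneg (pow_nonneg hτ m) (gw_pos l τ).le
  rw [norm_eq_abs, abs_mul, abs_of_nonneg h1]
  exact mul_le_of_le_one_right h1 (hb τ)

theorem gw_deriv (l τ : ℝ) : HasDerivAt (gw l) (-(l * τ) * gw l τ) τ := by
  have h : HasDerivAt (fun τ : ℝ => -(l * τ ^ 2 / 2)) (-(l * τ)) τ :=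
    ((((hasDerivAt_pow 2 τ).const_mul l).div_const 2).neg).congr_deriv (by simp; ring)
  exact h.exp.congr_deriv (by simp only [gw]; ring)

/-- Gaussian moments on a half line. -/
noncomputable def gm (l a : ℝ) (m : ℕ) : ℝ := ∫ τ in Ioi a, τ ^ m * gw l τ

theorem gm_rec {l : ℝ} (hl : 0 < l) (a : ℝ) (m : ℕ) :
    l * gm l a (m + 2) = (m + 1) * gm l a m + a ^ (m + 1) * gw l a := by
  have hd : ∀ τ ∈ Ici a, HasDerivAt (fun τ : ℝ => τ ^ (m + 1) * gw l τ)
      ((m + 1) * (τ ^ m * gw l τ) - l * (τ ^ (m + 2) * gw l τ)) τ := fun τ _ =>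
    ((hasDerivAt_pow (m + 1) τ).mul (gw_deriv l τ)).congr_deriv (by push_cast; simp; ring)
  have i1 := ((gw_int hl m).const_mul ((m : ℝ) + 1)).integrableOn (s := Ioi a)
  have i2 := ((gw_int hl (m + 2)).const_mul l).integrableOn (s := Ioi a)
  have h := integral_Ioi_of_hasDerivAt_of_tendsto' hd (i1.sub i2) (gw_lim hl (m + 1))
  rw [integral_sub i1 i2, integral_const_mul, integral_const_mul] at h
  unfold gm
  linarith

theorem gm_one {l : ℝ} (hl : 0 < l) (a : ℝ) : l * gm l a 1 = gw l a := by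
  have hd : ∀ τ ∈ Ici a, HasDerivAt (gw l) (-l * (τ ^ 1 * gw l τ)) τ := fun τ _ =>
    (gw_deriv l τ).congr_deriv (by ring)
  have i2 := ((gw_int hl 1).const_mul (-l)).integrableOn (s := Ioi a)
  have h0 : Tendsto (gw l) atTop (𝓝 0) := by simpa using gw_lim hl 0
  have h := integral_Ioi_of_hasDerivAt_of_tendsto' hd i2 h0
  rw [integral_const_mul] at h
  unfold gm
  linarith

theorem gm_zero {l : ℝ} (hl : 0 < l) : gm l 0 0 = √(π / 2) / √l := by
  have h := integral_gaussian_Ioi (l / 2)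
  have e : gm l 0 0 = ∫ x in Ioi (0 : ℝ), exp (-(l / 2) * x ^ 2) := by
    unfold gm gw
    congr 1
    funext τ
    rw [pow_zero, one_mul]
    congr 1
    ring
  rw [e, h, show π / (l / 2) = 2 ^ 2 * (π / 2 / l) by field_simp, sqrt_mul (by norm_num),
    sqrt_sq zero_le_two, sqrt_div (by positivity)]
  ring

theorem gm_nonneg (l : ℝ) {a : ℝ} (ha : 0 ≤ a) (m : ℕ) : 0 ≤ gm l a m :=
  setIntegral_nonneg measurableSet_Ioi fun τ hτ =>
    mul_nonneg (pow_nonneg (ha.trans (le_of_lt hτ)) m) (gw_pos l τ).le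

/-- Cosine transforms. -/
noncomputable def gc (x : ℝ) (m : ℕ) : ℝ := ∫ τ in Ioi (0 : ℝ), τ ^ m * gw 1 τ * cos (τ * x)

/-- Sine transforms. -/
noncomputable def gs (x : ℝ) (m : ℕ) : ℝ := ∫ τ in Ioi (0 : ℝ), τ ^ m * gw 1 τ * sin (τ * x)

theorem gc_int (x : ℝ) (m : ℕ) : Integrable fun τ : ℝ => τ ^ m * gw 1 τ * cos (τ * x) :=
  gw_int_bd one_pos m (by fun_prop) fun _ => abs_cos_le_one _

theorem gs_int (x : ℝ) (m : ℕ) : Integrable fun τ : ℝ => τ ^ m * gw 1 τ * sin (τ * x) :=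
  gw_int_bd one_pos m (by fun_prop) fun _ => abs_sin_le_one _

theorem gc_rec (x : ℝ) (m : ℕ) : gc x (m + 2) = (m + 1) * gc x m - x * gs x (m + 1) := by
  have hd : ∀ τ ∈ Ici (0 : ℝ), HasDerivAt (fun τ : ℝ => τ ^ (m + 1) * gw 1 τ * cos (τ * x))
      ((m + 1) * (τ ^ m * gw 1 τ * cos (τ * x)) - τ ^ (m + 2) * gw 1 τ * cos (τ * x)
        - x * (τ ^ (m + 1) * gw 1 τ * sin (τ * x))) τ := fun τ _ =>
    (((hasDerivAt_pow (m + 1) τ).mul (gw_deriv 1 τ)).mul
      ((hasDerivAt_id' τ).mul_const x).cos).congr_deriv (by push_cast; simp; ring)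
  have i1 := ((gc_int x m).const_mul ((m : ℝ) + 1)).integrableOn (s := Ioi 0)
  have i2 := (gc_int x (m + 2)).integrableOn (s := Ioi 0)
  have i3 := ((gs_int x (m + 1)).const_mul x).integrableOn (s := Ioi 0)
  have h := integral_Ioi_of_hasDerivAt_of_tendsto' hd ((i1.sub i2).sub i3)
    (gw_lim_bd one_pos (m + 1) fun _ => abs_cos_le_one _)
  rw [integral_sub (Integrable.sub' i1 i2) i3, integral_sub i1 i2, integral_const_mul, integral_const_mul] at h
  simp only [ne_eq, Nat.add_eq_zero_iff, one_ne_zero, and_false, not_false_eq_true, zero_pow,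
    zero_mul, sub_zero] at h
  unfold gc gs
  linarith

theorem gs_rec (x : ℝ) (m : ℕ) : gs x (m + 2) = (m + 1) * gs x m + x * gc x (m + 1) := by
  have hd : ∀ τ ∈ Ici (0 : ℝ), HasDerivAt (fun τ : ℝ => τ ^ (m + 1) * gw 1 τ * sin (τ * x))
      ((m + 1) * (τ ^ m * gw 1 τ * sin (τ * x)) - τ ^ (m + 2) * gw 1 τ * sin (τ * x)
        + x * (τ ^ (m + 1) * gw 1 τ * cos (τ * x))) τ := fun τ _ =>
    (((hasDerivAt_pow (m + 1) τ).mul (gw_deriv 1 τ)).mul
      ((hasDerivAt_id' τ).mul_const x).sin).congr_deriv (by push_cast; simp; ring)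
  have i1 := ((gs_int x m).const_mul ((m : ℝ) + 1)).integrableOn (s := Ioi 0)
  have i2 := (gs_int x (m + 2)).integrableOn (s := Ioi 0)
  have i3 := ((gc_int x (m + 1)).const_mul x).integrableOn (s := Ioi 0)
  have h := integral_Ioi_of_hasDerivAt_of_tendsto' hd ((i1.sub i2).add i3)
    (gw_lim_bd one_pos (m + 1) fun _ => abs_sin_le_one _)
  rw [integral_add (Integrable.sub' i1 i2) i3, integral_sub i1 i2, integral_const_mul, integral_const_mul] at h
  simp only [ne_eq, Nat.add_eq_zero_iff, one_ne_zero, and_false, not_false_eq_true, zero_pow,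
    zero_mul, sub_zero] at h
  unfold gc gs
  linarith

theorem gs_one (x : ℝ) : gs x 1 = x * gc x 0 := by
  have hd : ∀ τ ∈ Ici (0 : ℝ), HasDerivAt (fun τ : ℝ => τ ^ 0 * gw 1 τ * sin (τ * x))
      (x * (τ ^ 0 * gw 1 τ * cos (τ * x)) - τ ^ 1 * gw 1 τ * sin (τ * x)) τ := fun τ _ =>
    (((hasDerivAt_pow 0 τ).mul (gw_deriv 1 τ)).mul
      ((hasDerivAt_id' τ).mul_const x).sin).congr_deriv (by simp; ring)
  have i2 := (gs_int x 1).integrableOn (s := Ioi 0)
  have i3 := ((gc_int x 0).const_mul x).integrableOn (s := Ioi 0)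
  have h := integral_Ioi_of_hasDerivAt_of_tendsto' hd (i3.sub i2)
    (gw_lim_bd one_pos 0 fun _ => abs_sin_le_one _)
  rw [integral_sub i3 i2, integral_const_mul] at h
  simp only [zero_mul, sin_zero, mul_zero, sub_zero] at h
  unfold gc gs
  linarith

theorem gc_zero (x : ℝ) : gc x 0 = √(π / 2) * exp (-x ^ 2 / 2) := by
  have hp : ∀ y, gaussianPDFReal 0 1 y = (√(2 * π))⁻¹ * exp (-y ^ 2 / 2) := fun y => by
    simp [gaussianPDFReal]
  have h4 : exp (-x ^ 2 / 2) = ∫ t, cos (x * t) ∂gaussianReal 0 1 := by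
    have := congrArg Complex.re ((charFun_gaussianReal (μ := 0) (v := 1) x).symm.trans (pw_char _ x))
    simp only [Complex.add_re, Complex.ofReal_re, Complex.mul_re, Complex.I_re, Complex.ofReal_im,
      Complex.I_im, mul_zero, mul_one, sub_self, add_zero] at this
    rw [← this, ← Complex.exp_ofReal_re]
    congr 2
    push_cast
    ring
  have h6 : ∫ t, cos (x * t) ∂gaussianReal 0 1 =
      2 * ∫ t in Ioi (0 : ℝ), (√(2 * π))⁻¹ * (t ^ 0 * gw 1 t * cos (t * x)) := by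
    rw [integral_gaussianReal_eq_integral_smul one_ne_zero, ← integral_comp_abs]
    congr 1
    funext t
    rw [hp, smul_eq_mul, gw_one, sq_abs, mul_comm x]
    rcases abs_cases t with h | h <;> simp [h.1, mul_assoc]
  rw [h4, h6, integral_const_mul, show 2 * π = 2 ^ 2 * (π / 2) by ring, sqrt_mul (by norm_num),
    sqrt_sq zero_le_two]
  have : 0 < √(π / 2) := by positivity
  unfold gc
  generalize ∫ τ in Ioi (0 : ℝ), τ ^ 0 * gw 1 τ * cos (τ * x) = I
  field_simp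

/-- The signed Hermite polynomials as functions of the square of the variable: even ones, and odd
ones divided by the variable. -/
def he (X : ℝ) : ℕ → ℝ × ℝ
  | 0 => (1, 1)
  | m + 1 => ((2 * m + 1) * (he X m).1 - X * (he X m).2,
      (2 * m + 1) * (he X m).1 - X * (he X m).2 + (2 * m + 2) * (he X m).2)

theorem gc_gs_he (x : ℝ) (m : ℕ) : gc x (2 * m) = gc x 0 * (he (x ^ 2) m).1 ∧
    gs x (2 * m + 1) = x * gc x 0 * (he (x ^ 2) m).2 := by
  induction m with
  | zero => simp [he, gs_one]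
  | succ m ih =>
    have h1 : gc x (2 * (m + 1)) = gc x 0 * (he (x ^ 2) (m + 1)).1 := by
      rw [show 2 * (m + 1) = 2 * m + 2 by ring, gc_rec, ih.1, ih.2, he]
      push_cast
      ring
    refine ⟨h1, ?_⟩
    rw [show 2 * (m + 1) + 1 = (2 * m + 1) + 2 by ring, gs_rec, ih.2,
      show 2 * m + 1 + 1 = 2 * (m + 1) by ring, h1, he]
    push_cast
    ring

end Pool.Agent.Lib.MP_33650d_pr.RM
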