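import Pool.Agent.Lib.MP_33650d_pr.X.R1A
import Pool.Agent.Lib.MP_33650d_pr.X.R1B
import Pool.Agent.Lib.MP_33650d_pr.X.R1H

namespace Pool.Agent.Lib.MP_33650d_pr.RM
open Real

/-- The cotangent defect at the frequency `t`. -/
noncomputable def dd (t : ℝ) : ℝ := pw_D (t / (2 * π))

/-- The real part of the kernel, times `t / 2`. -/
noncomputable def kA (t : ℝ) : ℝ := (1 - t / (2 * π)) * (t / 2)

/-- The imaginary part of the kernel, times `t / 2`. -/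
noncomputable def kV (t : ℝ) : ℝ := 1 - (1 - t / (2 * π)) * (t / 2 * dd t)

/-- The rotation by the angle `-ψ`. -/
noncomputable def rot (ψ : ℝ) (F : ℂ) : ℂ := Complex.exp (-(ψ : ℂ) * Complex.I) * F

theorem rot_re (ψ : ℝ) (F : ℂ) : (rot ψ F).re = cos ψ * F.re + sin ψ * F.im := by
  rw [rot, ← Complex.ofReal_neg, Complex.mul_re, Complex.exp_ofReal_mul_I_re,
    Complex.exp_ofReal_mul_I_im, cos_neg, sin_neg]
  ring

theorem rot_im (ψ : ℝ) (F : ℂ) : (rot ψ F).im = cos ψ * F.im - sin ψ * F.re := by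
  rw [rot, ← Complex.ofReal_neg, Complex.mul_im, Complex.exp_ofReal_mul_I_re,
    Complex.exp_ofReal_mul_I_im, cos_neg, sin_neg]
  ring

theorem rot_norm (ψ : ℝ) (F : ℂ) : ‖rot ψ F‖ = ‖F‖ := by
  rw [rot, norm_mul, ← Complex.ofReal_neg, Complex.norm_exp_ofReal_mul_I, one_mul]

/-- The full kernel applied to a value, times `t / 2`. -/
noncomputable def kN (t ψ : ℝ) (F : ℂ) : ℝ := kA t * (rot ψ F).re - kV t * (rot ψ F).im

/-- The lattice part of the kernel. -/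
noncomputable def kL (t ψ : ℝ) (F : ℂ) : ℝ :=
  t / 2 * (rot ψ F).re - (1 - t / 2 * dd t) * (rot ψ F).im

/-- The remaining part of the kernel. -/
noncomputable def kR (t ψ : ℝ) (F : ℂ) : ℝ :=
  t ^ 2 / (4 * π) * (-(rot ψ F).re - dd t * (rot ψ F).im)

theorem kN_split (t ψ : ℝ) (F : ℂ) : kN t ψ F = kL t ψ F + kR t ψ F := by
  unfold kN kL kR kA kV
  field_simp
  ring

theorem kN_add (t ψ : ℝ) (F G : ℂ) : kN t ψ (F + G) = kN t ψ F + kN t ψ G := by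
  simp only [kN, rot_re, rot_im, Complex.add_re, Complex.add_im]
  ring

theorem kI_low (f : ℝ → ℂ) (y : ℝ) {t : ℝ} (ht : 0 < t) :
    t / 2 * kI f y t = kN t (t * y) (f t) := by
  have h := pw_k_eq (u := t / (2 * π)) (by positivity)
  unfold kI kN kA kV dd rot
  rw [h]
  field_simp

theorem r1_cs (p q : ℝ) (G : ℂ) {K : ℝ} (hK : 0 ≤ K) (h : p ^ 2 + q ^ 2 ≤ K ^ 2) :
    p * G.re - q * G.im ≤ K * ‖G‖ := by
  refine le_trans (le_abs_self _) (abs_le_of_sq_le_sq ?_ (by positivity))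
  have e : ‖G‖ ^ 2 = G.re ^ 2 + G.im ^ 2 := by rw [Complex.sq_norm, Complex.normSq_apply]; ring
  rw [mul_pow, e]
  nlinarith [sq_nonneg (p * G.im + q * G.re), mul_le_mul_of_nonneg_right h
    (show 0 ≤ G.re ^ 2 + G.im ^ 2 by positivity)]

theorem kI_top (f : ℝ → ℂ) (y : ℝ) {t : ℝ} (ht : 0 < t) :
    t / 2 * kI f y (2 * π - t) ≤ t ^ 2 / (4 * π) * ((1 + dd t ^ 2 / 2) * ‖f (2 * π - t)‖) := by
  have e : (2 * π - t) / (2 * π) = 1 - t / (2 * π) := by field_simp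
  have h0 : 0 < t / (2 * π) := by positivity
  have h := pw_k_eq' (u := 1 - t / (2 * π)) (by linarith)
  have h1 := r1_cs 1 (dd t) (rot ((2 * π - t) * y) (f (2 * π - t))) (K := 1 + dd t ^ 2 / 2)
    (by positivity) (by nlinarith [sq_nonneg (dd t ^ 2)])
  rw [rot_norm] at h1
  have h2 := mul_le_mul_of_nonneg_left h1 (show 0 ≤ t ^ 2 / (4 * π) by positivity)
  refine le_of_eq_of_le ?_ h2
  unfold kI rot dd
  rw [e, h, sub_sub_cancel]
  field_simp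
  ring

theorem kN_le {t : ℝ} (ψ : ℝ) (F : ℂ) {K : ℝ} (hK : 0 ≤ K) (h : kV t ^ 2 + kA t ^ 2 ≤ K ^ 2) :
    kN t ψ F ≤ K * ‖F‖ := by
  have := r1_cs (kA t) (kV t) (rot ψ F) hK (by linarith)
  rwa [rot_norm] at this

theorem kK_quad {t : ℝ} (h0 : 0 < t) (h1 : t ≤ π) : kV t ^ 2 + kA t ^ 2 ≤ (1 + t ^ 2 / 24) ^ 2 :=
  (r1_K_le h0 h1).trans (min_le_left _ _)

theorem kK_const {t : ℝ} (h0 : 0 < t) (h1 : t ≤ π) : kV t ^ 2 + kA t ^ 2 ≤ 1.035 ^ 2 :=
  (r1_K_le h0 h1).trans (min_le_right _ _)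

/-- The polynomial part of the lattice kernel. -/
noncomputable def bP (t : ℝ) : ℂ :=
  ((1 - t ^ 2 / 12 - t ^ 4 / 720 : ℝ) : ℂ) - ((t / 2 : ℝ) : ℂ) * Complex.I

theorem bP_norm {t : ℝ} (h0 : 0 < t) (h1 : t ≤ π) : ‖bP t‖ ≤ 1 + t ^ 2 / 8 := by
  refine abs_le_of_sq_le_sq' ?_ (by positivity) |>.2
  have h2 : t ^ 2 ≤ 10 := by nlinarith [pi_lt_d2]
  have e : ‖bP t‖ ^ 2 = (1 - t ^ 2 / 12 - t ^ 4 / 720) ^ 2 + (t / 2) ^ 2 := by
    rw [Complex.sq_norm, Complex.normSq_apply, bP]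
    simp only [Complex.sub_re, Complex.ofReal_re, Complex.mul_re, Complex.I_re, Complex.ofReal_im,
      Complex.I_im, Complex.sub_im, Complex.mul_im]
    ring
  rw [e]
  have h3 : 0 ≤ t ^ 2 := by positivity
  have h4 : t ^ 4 = (t ^ 2) ^ 2 := by ring
  rw [h4, div_pow]
  generalize t ^ 2 = s at *
  have h5 : (1 - s / 12 - s ^ 2 / 720) ^ 2 ≤ 1 := by
    rw [sq_le_one_iff_abs_le_one, abs_le]
    constructor <;> nlinarith
  nlinarith

/-- The lattice part of the main term. -/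
theorem kL_main {t : ℝ} (h0 : 0 < t) (h1 : t ≤ π) (ψ G : ℝ) (hG : 0 ≤ G) (γ : ℂ) (n : ℕ) :
    kL t ψ (G * Complex.exp γ)
      ≤ G * ((bP t * ∑ k ∈ Finset.range n, γ ^ k / (k.factorial : ℂ)).re * sin ψ
        - (bP t * ∑ k ∈ Finset.range n, γ ^ k / (k.factorial : ℂ)).im * cos ψ)
      + G * exp (max γ.re 0) * ((1 + t ^ 2 / 8) * (‖γ‖ ^ n / n.factorial) + t ^ 6 / 22000) := by
  have r1 := r1_exp_rem γ n
  have d1 := r1_D_lo h0 h1
  have d2 := r1_D_hi h0 h1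
  have b1 := bP_norm h0 h1
  have n1 : ‖Complex.exp γ‖ ≤ exp (max γ.re 0) := by
    rw [Complex.norm_exp]
    exact exp_le_exp.2 (le_max_left _ _)
  generalize ∑ k ∈ Finset.range n, γ ^ k / (k.factorial : ℂ) = T at *
  generalize Complex.exp γ = e at *
  generalize exp (max γ.re 0) = m at *
  generalize ‖γ‖ ^ n / n.factorial = ρ at *
  have a1 := r1_cs (sin ψ) (cos ψ) (bP t * (e - T)) zero_le_one (by simp)
  have a2 := r1_cs (sin ψ) (cos ψ) (-e) zero_le_one (by simp)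
  rw [one_mul, norm_mul] at a1
  rw [one_mul, norm_neg] at a2
  have a3 : ‖bP t‖ * ‖e - T‖ ≤ (1 + t ^ 2 / 8) * (ρ * m) :=
    mul_le_mul b1 r1 (norm_nonneg _) (by positivity)
  have a4 : 0 ≤ t / 2 * dd t - t ^ 2 / 12 - t ^ 4 / 720 := by unfold dd; nlinarith
  have a5 : t / 2 * dd t - t ^ 2 / 12 - t ^ 4 / 720 ≤ t ^ 6 / 22000 := by unfold dd; nlinarith
  have e1 : kL t ψ (G * e) = G * ((bP t * T).re * sin ψ - (bP t * T).im * cos ψ)
      + G * ((sin ψ * (bP t * (e - T)).re - cos ψ * (bP t * (e - T)).im)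
        + (t / 2 * dd t - t ^ 2 / 12 - t ^ 4 / 720) * (sin ψ * (-e).re - cos ψ * (-e).im)) := by
    simp only [kL, rot_re, rot_im, bP, Complex.sub_re, Complex.ofReal_re, Complex.mul_re,
      Complex.I_re, Complex.ofReal_im, Complex.I_im, Complex.sub_im, Complex.mul_im,
      Complex.neg_re, Complex.neg_im]
    ring
  have a7 : (t / 2 * dd t - t ^ 2 / 12 - t ^ 4 / 720) * (sin ψ * (-e).re - cos ψ * (-e).im)
      ≤ t ^ 6 / 22000 * m :=
    (mul_le_mul_of_nonneg_left (a2.trans n1) a4).trans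
      (mul_le_mul_of_nonneg_right a5 ((norm_nonneg _).trans n1))
  rw [e1, mul_assoc G m]
  refine add_le_add le_rfl (mul_le_mul_of_nonneg_left ?_ hG)
  linarith

theorem rot_polar (ψ R w : ℝ) :
    (rot ψ (R * Complex.exp (-(w : ℂ) * Complex.I))).re = R * cos (ψ + w) ∧
    (rot ψ (R * Complex.exp (-(w : ℂ) * Complex.I))).im = -(R * sin (ψ + w)) := by
  have e : (R : ℂ) * Complex.exp (-(w : ℂ) * Complex.I) = rot w R := by rw [rot, mul_comm]
  rw [e]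
  simp only [rot_re, rot_im, Complex.ofReal_re, Complex.ofReal_im, cos_add, sin_add]
  constructor <;> ring

theorem dd_bd {t T : ℝ} (h0 : 0 < t) (h1 : t ≤ T) (h2 : T ≤ π) {d3 d4 : ℝ}
    (h3 : 1 / 360 + T ^ 2 / 11000 ≤ d3) (h4 : d3 / 6 + d3 ^ 2 * T ^ 2 / 2 ≤ d4) :
    t / 6 ≤ dd t ∧ dd t ≤ t / 6 + d3 * t ^ 3 ∧ dd t ^ 2 / 2 ≤ t ^ 2 / 72 + d4 * t ^ 4 := by
  have d1 := r1_D_lo h0 (h1.trans h2)
  have d2 := r1_D_hi h0 (h1.trans h2)
  have p3 : 0 < t ^ 3 := by positivity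
  have p2 : t ^ 2 ≤ T ^ 2 := pow_le_pow_left₀ h0.le h1 2
  have a1 : t / 6 ≤ dd t := by unfold dd; linarith
  have a2 : dd t ≤ t / 6 + d3 * t ^ 3 := by
    have := mul_le_mul_of_nonneg_right (show 1 / 360 + t ^ 2 / 11000 ≤ d3 by linarith) p3.le
    unfold dd
    linarith
  refine ⟨a1, a2, ?_⟩
  have a3 := pow_le_pow_left₀ (by linarith) a2 2
  have a4 := mul_le_mul_of_nonneg_left p2 (sq_nonneg d3)
  have a5 := mul_le_mul_of_nonneg_right (show d3 / 6 + d3 ^ 2 * t ^ 2 / 2 ≤ d4 by linarith)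
    (show 0 ≤ t ^ 4 by positivity)
  linarith

theorem r1_sin_le (θ : ℝ) : sin θ ≤ θ + |θ| ^ 3 / 6 := by
  rcases le_total 0 θ with h | h
  · have := sin_le h
    have : 0 ≤ |θ| ^ 3 / 6 := by positivity
    linarith
  · have h1 := r1_exp_rem (((-θ : ℝ) : ℂ) * Complex.I) 3
    have h2 := (neg_le_abs _).trans ((Complex.abs_im_le_norm _).trans h1)
    simp [Finset.sum_range_succ, Complex.exp_im, pow_two, Nat.factorial] at h2
    linarith

/-- The remaining part of the main term together with the top frequencies, near the centre. -/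
theorem kR_near {t d3 d4 : ℝ} (h0 : 0 < t) (h1 : t / 6 ≤ dd t) (h2 : dd t ≤ t / 6 + d3 * t ^ 3)
    (h3 : dd t ^ 2 / 2 ≤ t ^ 2 / 72 + d4 * t ^ 4) (hd4 : 0 ≤ d4) {ψ R w M δ E θ : ℝ} (hR : 0 ≤ R)
    (hδ : 0 ≤ δ) (hM0 : 0 ≤ M) (hM : M ≤ R * exp δ) (hE : R * exp δ ≤ E) (hθ : |ψ + w| ≤ θ) :
    kR t ψ (R * Complex.exp (-(w : ℂ) * Complex.I)) + t ^ 2 / (4 * π) * ((1 + dd t ^ 2 / 2) * M)
      ≤ t ^ 2 / (4 * π) * (E * (δ * (1 + t ^ 2 / 72) + (ψ + w + t / 6) ^ 2 / 2 + t * θ ^ 3 / 36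
        + d3 * t ^ 3 + d4 * t ^ 4)) := by
  obtain ⟨e1, e2⟩ := rot_polar ψ R w
  rw [kR, e1, e2, ← mul_add]
  refine mul_le_mul_of_nonneg_left ?_ (by positivity)
  generalize ψ + w = φ at *
  have a1 := one_sub_sq_div_two_le_cos (x := φ)
  have a2 := r1_sin_le φ
  have a3 := pow_le_pow_left₀ (abs_nonneg _) hθ 3
  have a4 : dd t * sin φ ≤ t / 6 * sin φ + d3 * t ^ 3 := by
    have := mul_le_mul_of_nonneg_left (sin_le_one φ) (sub_nonneg.2 h1)
    linarith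
  have a5 : t / 6 * sin φ ≤ t / 6 * (φ + θ ^ 3 / 6) :=
    mul_le_mul_of_nonneg_left (by linarith) (by positivity)
  have a6 : 1 ≤ exp δ := one_le_exp hδ
  have a7 : R ≤ E := le_trans (le_mul_of_one_le_right hR a6) hE
  have a8 : exp δ - 1 ≤ δ * exp δ := by
    have := add_one_le_exp (-δ)
    have h := mul_le_mul_of_nonneg_right this (exp_pos δ).le
    rw [← exp_add, neg_add_cancel, exp_zero] at h
    linarith
  have a9 : M - R ≤ δ * E := by
    have := mul_le_mul_of_nonneg_left a8 hR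
    have := mul_le_mul_of_nonneg_left hE hδ
    linarith
  have θ0 : 0 ≤ θ := (abs_nonneg _).trans hθ
  have d30 : 0 ≤ d3 * t ^ 3 := by linarith
  have b1 : (1 + dd t ^ 2 / 2) * M ≤ (1 + t ^ 2 / 72 + d4 * t ^ 4) * M :=
    mul_le_mul_of_nonneg_right (by linarith) hM0
  have b2 : d4 * t ^ 4 * M ≤ d4 * t ^ 4 * E :=
    mul_le_mul_of_nonneg_left (hM.trans hE) (by positivity)
  have b3 : (1 + t ^ 2 / 72) * (M - R) ≤ (1 + t ^ 2 / 72) * (δ * E) :=
    mul_le_mul_of_nonneg_left a9 (by positivity)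
  have b4 : R * (-cos φ + dd t * sin φ + (1 + t ^ 2 / 72))
      ≤ R * ((φ + t / 6) ^ 2 / 2 + t * θ ^ 3 / 36 + d3 * t ^ 3) :=
    mul_le_mul_of_nonneg_left (by linarith) hR
  have b5 : R * ((φ + t / 6) ^ 2 / 2 + t * θ ^ 3 / 36 + d3 * t ^ 3)
      ≤ E * ((φ + t / 6) ^ 2 / 2 + t * θ ^ 3 / 36 + d3 * t ^ 3) :=
    mul_le_mul_of_nonneg_right a7 (by positivity)
  linarith

/-- The remaining part of the main term, far from the centre. -/
theorem kR_far (t ψ : ℝ) (F : ℂ) : kR t ψ F ≤ t ^ 2 / (4 * π) * ((1 + dd t ^ 2 / 2) * ‖F‖) := by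
  have h1 := r1_cs (-1) (dd t) (rot ψ F) (K := 1 + dd t ^ 2 / 2)
    (by positivity) (by nlinarith [sq_nonneg (dd t ^ 2)])
  rw [rot_norm] at h1
  exact mul_le_mul_of_nonneg_left (by linarith) (by positivity)

/-- The two components of the kernel at the angle `θ`. -/
noncomputable def kP (t θ : ℝ) : ℝ := kA t * cos θ + kV t * sin θ
noncomputable def kQ (t θ : ℝ) : ℝ := kV t * cos θ - kA t * sin θ

theorem kN_pert (t ψ R w : ℝ) (z : ℂ) : kN t ψ (R * Complex.exp (-(w : ℂ) * Complex.I) * z)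
    = R * (kP t (ψ + w) * z.re - kQ t (ψ + w) * z.im) := by
  obtain ⟨e1, e2⟩ := rot_polar ψ R w
  have e : rot ψ (R * Complex.exp (-(w : ℂ) * Complex.I) * z)
      = rot ψ (R * Complex.exp (-(w : ℂ) * Complex.I)) * z := by simp only [rot]; ring
  rw [kN, e, Complex.mul_re, Complex.mul_im, e1, e2, kP, kQ]
  ring

theorem kPQ_sq (t θ : ℝ) : kP t θ ^ 2 + kQ t θ ^ 2 = kV t ^ 2 + kA t ^ 2 := by
  unfold kP kQ
  linear_combination (kV t ^ 2 + kA t ^ 2) * sin_sq_add_cos_sq θ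

theorem kVA_bd {t : ℝ} (h0 : 0 < t) (h1 : t ≤ π) :
    0 ≤ kV t ∧ kV t ≤ 1 ∧ 1 - kV t ≤ t / 2 * dd t ∧ 0 ≤ kA t ∧ kA t ≤ t / 2 := by
  have u0 : 0 < t / (2 * π) := by positivity
  have u1 : t / (2 * π) ≤ 1 / 2 := by
    rw [div_le_iff₀ (by positivity)]
    linarith
  have d0 : 0 ≤ t / 2 * dd t := mul_nonneg (by positivity) (pw_D_nonneg u0 (by linarith))
  have d2 := r1_D_hi h0 h1
  have h2 : t ^ 2 ≤ 10 := by nlinarith [pi_lt_d2]
  have d3 : t / 2 * dd t ≤ 2 := by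
    have a := mul_le_mul_of_nonneg_left d2 (show 0 ≤ t / 2 by positivity)
    have b : t ^ 4 ≤ 100 := by nlinarith
    have c : t ^ 6 ≤ 1000 := by nlinarith
    unfold dd
    linarith
  have hk := (pw_k_bd u0 (by linarith)).1
  rw [pw_k_eq u0] at hk
  have hv : kV t = t / 2 * (1 / (π * (t / (2 * π))) - (1 - t / (2 * π)) * pw_D (t / (2 * π))) := by
    unfold kV dd
    field_simp
  refine ⟨by rw [hv]; positivity, ?_, ?_, ?_, ?_⟩
  · unfold kV
    nlinarith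
  · unfold kV
    nlinarith
  · unfold kA
    exact mul_nonneg (by linarith) (by positivity)
  · unfold kA
    nlinarith

theorem kP_bd {t : ℝ} (h0 : 0 < t) (h1 : t ≤ π) {φ θ : ℝ} (hθ : |φ| ≤ θ) :
    |kP t φ| ≤ θ + t / 2 := by
  obtain ⟨v0, v1, -, a0, a1⟩ := kVA_bd h0 h1
  have b1 : |kA t * cos φ| ≤ t / 2 := by
    rw [abs_mul, abs_of_nonneg a0]
    exact (mul_le_of_le_one_right a0 (abs_cos_le_one φ)).trans a1
  have b2 : |kV t * sin φ| ≤ θ := by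
    rw [abs_mul, abs_of_nonneg v0]
    exact (mul_le_of_le_one_left (abs_nonneg _) v1).trans (abs_sin_le_abs.trans hθ)
  have := abs_add_le (kA t * cos φ) (kV t * sin φ)
  unfold kP
  linarith

theorem kQ_bd {t : ℝ} (h0 : 0 < t) (h1 : t ≤ π) {φ θ : ℝ} (hθ : |φ| ≤ θ) :
    -kQ t φ ≤ -1 + t / 2 * dd t + θ ^ 2 / 2 + t * θ / 2 := by
  obtain ⟨v0, v1, v2, a0, a1⟩ := kVA_bd h0 h1
  have b1 : kA t * sin φ ≤ t / 2 * θ :=
    (mul_le_mul_of_nonneg_left ((le_abs_self _).trans (abs_sin_le_abs.trans hθ)) a0).trans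
      (mul_le_mul_of_nonneg_right a1 ((abs_nonneg _).trans hθ))
  have b2 := mul_le_mul_of_nonneg_left (one_sub_sq_div_two_le_cos (x := φ)) v0
  have b3 : φ ^ 2 ≤ θ ^ 2 := sq_le_sq' (by linarith [neg_abs_le φ]) ((le_abs_self _).trans hθ)
  have b4 := mul_le_of_le_one_left (sq_nonneg φ) v1
  unfold kQ
  linarith

end Pool.Agent.Lib.MP_33650d_pr.RM
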