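import Pool.Agent.Lib.MP_33650d_pr.X.R1I
import Pool.Agent.Lib.MP_33650d_pr.X.R1P

namespace Pool.Agent.Lib.MP_33650d_pr.RM
open MeasureTheory Real Set Iv

/-- A pair of polynomials `E`, `O` in `τ ^ 2`, standing for `E + i h τ O`. -/
def SemC (h : ℝ) (A : List Iv × List Iv) (F : ℝ → ℂ) : Prop :=
  ∃ E O : ℝ → ℝ, Sem A.1 E ∧ Sem A.2 O ∧
    ∀ τ : ℝ, F τ = (E (τ ^ 2) : ℂ) + (h * τ * O (τ ^ 2) : ℝ) * Complex.I

def cadd (A B : List Iv × List Iv) : List Iv × List Iv := (padd A.1 B.1, padd A.2 B.2)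

def csm (c : Iv) (A : List Iv × List Iv) : List Iv × List Iv := (psm c A.1, psm c A.2)

def cmul (H : Iv) (A B : List Iv × List Iv) : List Iv × List Iv :=
  (psub (pmul A.1 B.1) (psh (psm H (pmul A.2 B.2))), padd (pmul A.1 B.2) (pmul A.2 B.1))

variable {h : ℝ} {A B : List Iv × List Iv} {F G : ℝ → ℂ} {H : Iv}

theorem SemC.congr (hF : SemC h A F) (e : ∀ τ, F τ = G τ) : SemC h A G := by
  rwa [← show F = G from funext e]

theorem SemC.mk' {P Q : List Iv} {E O : ℝ → ℝ} (h1 : Sem P E) (h2 : Sem Q O) :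
    SemC h (P, Q) fun τ => (E (τ ^ 2) : ℂ) + (h * τ * O (τ ^ 2) : ℝ) * Complex.I :=
  ⟨E, O, h1, h2, fun _ => rfl⟩

theorem SemC.add (hF : SemC h A F) (hG : SemC h B G) : SemC h (cadd A B) fun τ => F τ + G τ := by
  obtain ⟨E, O, a1, a2, e⟩ := hF
  obtain ⟨E', O', b1, b2, e'⟩ := hG
  refine ⟨_, _, a1.add b1, a2.add b2, fun τ => ?_⟩
  simp only [e, e']
  push_cast
  ring

theorem SemC.sm {a : Iv} {c : ℝ} (ha : a.Mem c) (hF : SemC h A F) :
    SemC h (csm a A) fun τ => c * F τ := by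
  obtain ⟨E, O, a1, a2, e⟩ := hF
  refine ⟨_, _, a1.sm ha, a2.sm ha, fun τ => ?_⟩
  simp only [e]
  push_cast
  ring

theorem SemC.mul (hH : H.Mem (h ^ 2)) (hF : SemC h A F) (hG : SemC h B G) :
    SemC h (cmul H A B) fun τ => F τ * G τ := by
  obtain ⟨E, O, a1, a2, e⟩ := hF
  obtain ⟨E', O', b1, b2, e'⟩ := hG
  refine ⟨_, _, (a1.mul b1).sub ((a2.mul b2).sm hH).sh, (a1.mul b2).add (a2.mul b1), fun τ => ?_⟩
  simp only [e, e']
  push_cast
  linear_combination ((h : ℂ) ^ 2 * τ ^ 2 * O (τ ^ 2) * O' (τ ^ 2)) * Complex.I_sq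

theorem SemC.one : SemC h ([nat 1], []) fun _ => 1 :=
  (SemC.mk' Sem.one Sem.nil).congr fun τ => by simp

/-- The tail of the exponential series in nested form. -/
noncomputable def horC (z : ℂ) : ℕ → ℕ → ℂ
  | _, 0 => 1
  | m, r + 1 => 1 + ((1 / (m + 1) : ℝ) : ℂ) * (z * horC z (m + 1) r)

theorem horC_sum (z : ℂ) (m r : ℕ) : ∑ k ∈ Finset.range (m + r + 1), z ^ k / (k.factorial : ℂ)
    = ∑ k ∈ Finset.range m, z ^ k / (k.factorial : ℂ) + z ^ m / m.factorial * horC z m r := by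
  induction r generalizing m with
  | zero => simp [horC, Finset.sum_range_succ]
  | succ r ih =>
    rw [show m + (r + 1) + 1 = m + 1 + r + 1 by ring, ih, Finset.sum_range_succ, horC,
      Nat.factorial_succ]
    have : (m.factorial : ℂ) ≠ 0 := by exact_mod_cast m.factorial_ne_zero
    have : (m : ℂ) + 1 ≠ 0 := by exact_mod_cast m.succ_ne_zero
    push_cast
    field_simp
    ring

def hor (H : Iv) (A : List Iv × List Iv) : ℕ → ℕ → List Iv × List Iv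
  | _, 0 => ([nat 1], [])
  | m, r + 1 => cadd ([nat 1], []) (csm (rat 1 (m + 1)) (cmul H A (hor H A (m + 1) r)))

theorem SemC.hor (hH : H.Mem (h ^ 2)) (hF : SemC h A F) (m r : ℕ) :
    SemC h (hor H A m r) fun τ => horC (F τ) m r := by
  induction r generalizing m with
  | zero => exact SemC.one
  | succ r ih =>
    refine (SemC.one.add ((hF.mul hH (ih (m + 1))).sm (mem_rat 1 m.succ_pos))).congr fun τ => ?_
    simp [horC]

/-- The phase divided by `h τ`. -/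
def wP (H c3 : Iv) (W : List Iv) : List Iv := psh (padd [c3] (psm H W))

/-- The squared modulus of the exponent divided by `h ^ 2 τ ^ 2`. -/
def qP (H : Iv) (A W : List Iv) : List Iv := padd (psm H (psh (pmul A A))) (pmul W W)

/-- The polynomial part of the cotangent defect. -/
def dP (H n : Iv) : List Iv := [n * n * rat 1 12, H * (n * n * (n * n)) * rat 1 720]

/-- The terms of second and higher order of the main term. -/
def mainY (H n c3 : Iv) (A W : List Iv) (r : ℕ) : List Iv × List Iv :=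
  cadd (cmul H (cadd (A, pneg W) (cmul H
      (psub (psm H (psh (pmul A A))) (pmul (wP H c3 W) (wP H c3 W)),
        psm (-nat 2) (pmul A (wP H c3 W)))
      (csm (rat 1 2) (hor H (psm H (psh A), pneg (wP H c3 W)) 2 r))))
    (psub [nat 1] (psh (psm H (dP H n))), [-(n * rat 1 2)]))
  (pneg (padd (dP H n) [zero, c3 * n * rat 1 2]), psh (psm c3 (dP H n)))

/-- The exponent of the main term. -/
noncomputable def gam (h c : ℝ) (a w : ℝ → ℝ) (τ : ℝ) : ℂ :=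
  ((h ^ 2 * (τ ^ 2 * a (τ ^ 2)) : ℝ) : ℂ)
    - ((h * τ * (τ ^ 2 * (c + h ^ 2 * w (τ ^ 2))) : ℝ) : ℂ) * Complex.I

theorem Sem.wP {c3 : Iv} {c : ℝ} {W : List Iv} {w : ℝ → ℝ} (hH : H.Mem (h ^ 2)) (hc : c3.Mem c)
    (hw : Sem W w) : Sem (wP H c3 W) fun u => u * (c + h ^ 2 * w u) :=
  ((Sem.const hc).add (hw.sm hH)).sh

theorem mainY_sem {n c3 : Iv} {η c : ℝ} {P W : List Iv} {a w : ℝ → ℝ} (hH : H.Mem (h ^ 2))
    (hn : n.Mem η) (hc : c3.Mem c) (ha : Sem P a) (hw : Sem W w) (r : ℕ) :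
    ∃ E O : ℝ → ℝ, Sem (mainY H n c3 P W r).1 E ∧ Sem (mainY H n c3 P W r).2 O ∧ ∀ τ : ℝ,
      (bP (h * η * τ) * ∑ k ∈ Finset.range (r + 3), gam h c a w τ ^ k / (k.factorial : ℂ)).re
        = 1 + h ^ 2 * τ ^ 2 * E (τ ^ 2) ∧
      (bP (h * η * τ) * ∑ k ∈ Finset.range (r + 3), gam h c a w τ ^ k / (k.factorial : ℂ)).im
        = -(h * τ * (η / 2 + c * τ ^ 2)) + h ^ 2 * τ ^ 2 * (h * τ * O (τ ^ 2)) := by
  have hp := Sem.wP hH hc hw
  have r2 := mem_rat 1 (d := 2) (by norm_num)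
  have hD := Sem.cons ((hn.mul hn).mul (mem_rat 1 (d := 12) (by norm_num)))
    (Sem.const ((hH.mul ((hn.mul hn).mul (hn.mul hn))).mul (mem_rat 1 (d := 720) (by norm_num))))
  have hg : SemC h (psm H (psh P), pneg (RM.wP H c3 W)) (gam h c a w) :=
    (SemC.mk' (ha.sh.sm hH) hp.neg).congr fun τ => by
      simp only [gam]
      push_cast
      ring
  have h1 := (((SemC.mk' (h := h) ha hw.neg).add ((SemC.mk' ((((ha.mul ha).sh).sm hH).sub (hp.mul hp))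
    ((ha.mul hp).sm (mem_nat 2).neg)).mul hH ((hg.hor hH 2 r).sm r2))).mul hH
    (SemC.mk' (Sem.one.sub (hD.sm hH).sh) (Sem.const (hn.mul r2).neg))).add
    (SemC.mk' (hD.add (Sem.cons mem_zero (Sem.const ((hc.mul hn).mul r2)))).neg (hD.sm hc).sh)
  obtain ⟨E, O, a1, a2, e⟩ := h1
  refine ⟨E, O, a1, a2, fun τ => ?_⟩
  have e1 := e τ
  have e2 : bP (h * η * τ) * ∑ k ∈ Finset.range (r + 3), gam h c a w τ ^ k / (k.factorial : ℂ)
      = ((1 + h ^ 2 * τ ^ 2 * E (τ ^ 2) : ℝ) : ℂ) + ((-(h * τ * (η / 2 + c * τ ^ 2))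
        + h ^ 2 * τ ^ 2 * (h * τ * O (τ ^ 2)) : ℝ) : ℂ) * Complex.I := by
    rw [show r + 3 = 2 + r + 1 by ring, horC_sum]
    simp only [Finset.sum_range_succ, Finset.range_zero, Finset.sum_empty, Nat.factorial] at e1 ⊢
    generalize horC (gam h c a w τ) 2 r = S at *
    simp only [gam, bP] at e1 ⊢
    push_cast at e1 ⊢
    generalize (a (τ ^ 2) : ℂ) = α at *
    generalize (w (τ ^ 2) : ℂ) = ω at *
    generalize (E (τ ^ 2) : ℂ) = ε at *
    generalize (O (τ ^ 2) : ℂ) = o at *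
    generalize (h : ℂ) = ι at *
    generalize (τ : ℂ) = σ at *
    generalize (c : ℂ) = κ at *
    generalize (η : ℂ) = ν at *
    linear_combination ι ^ 2 * σ ^ 2 * e1 + (ι ^ 2 * σ ^ 4 * κ * ν / 2 + ι ^ 2 * σ ^ 2 *
      (σ ^ 2 * (κ + ι ^ 2 * ω)) ^ 2 * S / 2 * (1 - ι ^ 2 * ν ^ 2 * σ ^ 2 / 12
        - ι ^ 4 * ν ^ 4 * σ ^ 4 / 720 - ι * ν * σ / 2 * Complex.I)) * Complex.I_sq
  rw [e2]
  simp only [Complex.add_re, Complex.ofReal_re, Complex.mul_re, Complex.I_re, Complex.ofReal_im,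
    Complex.I_im, Complex.add_im, Complex.mul_im]
  constructor <;> ring

theorem gam_re (h c : ℝ) (a w : ℝ → ℝ) (τ : ℝ) :
    (gam h c a w τ).re = h ^ 2 * (τ ^ 2 * a (τ ^ 2)) := by
  simp only [gam, Complex.sub_re, Complex.ofReal_re, Complex.mul_re, Complex.I_re,
    Complex.ofReal_im, Complex.I_im]
  ring

theorem gam_sq (h c : ℝ) (a w : ℝ → ℝ) (τ : ℝ) : ‖gam h c a w τ‖ ^ 2 = h ^ 2 * τ ^ 2 *
    (h ^ 2 * (τ ^ 2 * (a (τ ^ 2) * a (τ ^ 2))) + τ ^ 2 * (c + h ^ 2 * w (τ ^ 2))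
      * (τ ^ 2 * (c + h ^ 2 * w (τ ^ 2)))) := by
  rw [Complex.sq_norm, Complex.normSq_apply]
  simp only [gam, Complex.sub_re, Complex.ofReal_re, Complex.mul_re, Complex.I_re,
    Complex.ofReal_im, Complex.I_im, Complex.sub_im, Complex.mul_im]
  ring

theorem gam_exp (h c : ℝ) (a w : ℝ → ℝ) (τ G : ℝ) : G * Complex.exp (gam h c a w τ)
    = ((G * exp (h ^ 2 * (τ ^ 2 * a (τ ^ 2))) : ℝ) : ℂ)
      * Complex.exp (-((h * τ * (τ ^ 2 * (c + h ^ 2 * w (τ ^ 2))) : ℝ) : ℂ) * Complex.I) := by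
  rw [Complex.ofReal_mul G, Complex.ofReal_exp, mul_assoc, ← Complex.exp_add, gam]
  congr 2
  ring

end Pool.Agent.Lib.MP_33650d_pr.RM
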