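import Pool.Agent.Lib.MP_33650d_pr.X.R1K

namespace Pool.Agent.Lib.MP_33650d_pr.RM
open MeasureTheory Real Set Iv

/-- The constants of the hypotheses on the characteristic function. -/
structure Cfg where
  th : List Iv
  et : List Iv
  T0 : ℕ
  A4 : Iv
  B4 : Iv
  A5 : Iv
  B5 : Iv
  A6 : Iv
  B6 : Iv
  cub : List (ℕ × ℕ × List Iv × List Iv)
  low : List (ℕ × ℕ × List Iv × List Iv)
  top : List (ℕ × ℕ × List Iv × List Iv)
  nt : List (ℕ × Iv × Iv × Iv)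

/-- The main term of the characteristic function. -/
noncomputable def mainG (a4 b4 a5 b5 a6 b6 N K t : ℝ) : ℂ :=
  Complex.exp (((-(N * t ^ 2 / 2) + (a4 * N + b4 * K) * t ^ 4 / 24
    - (a6 * N + b6 * K) * t ^ 6 / 720 : ℝ) : ℂ)
    - ((K * t ^ 3 / 6 - (a5 * N + b5 * K) * t ^ 5 / 120 : ℝ) : ℂ) * Complex.I)

def ModOk (F : ℝ → ℝ) (N J : ℝ) (e : ℕ × ℕ × List Iv × List Iv) : Prop :=
  ∃ μ ν : ℝ → ℝ, Sem e.2.2.1 μ ∧ Sem e.2.2.2 ν ∧ ∀ t : ℝ, e.1 / 10000 < t → t ≤ e.2.1 / 10000 →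
    0 ≤ ν t ∧ F t ≤ exp (-(N * μ t) + J * ν t)

/-- The hypotheses on the characteristic function. -/
structure Hyp (C : Cfg) (f : ℝ → ℂ) (N K J a4 b4 a5 b5 a6 b6 : ℝ) : Prop where
  ma4 : C.A4.Mem a4
  mb4 : C.B4.Mem b4
  ma5 : C.A5.Mem a5
  mb5 : C.B5.Mem b5
  ma6 : C.A6.Mem a6
  mb6 : C.B6.Mem b6
  disc : ∃ θ η : ℝ → ℝ, Sem C.th θ ∧ Sem C.et η ∧ ∀ t : ℝ, 0 < t → t ≤ C.T0 / 10000 →
    ‖f t - mainG a4 b4 a5 b5 a6 b6 N K t‖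
      ≤ ‖mainG a4 b4 a5 b5 a6 b6 N K t‖ * (exp (θ t * t ^ 3 * J + η t * t ^ 7 * N) - 1)
  cub : ∀ e ∈ C.cub, ∃ μ ν : ℝ → ℝ, Sem e.2.2.1 μ ∧ Sem e.2.2.2 ν ∧ ∀ t : ℝ, e.1 / 10000 < t →
    t ≤ e.2.1 / 10000 → 0 ≤ ν t ∧ ‖f t‖ ≤ exp (-(N * (t ^ 2 * μ t)) + J * (t ^ 3 * ν t))
  low : ∀ e ∈ C.low, ModOk (fun t => ‖f t‖) N J e
  top : ∀ e ∈ C.top, ModOk (fun t => ‖f (2 * π - t)‖) N J e
  nt : ∀ e ∈ C.nt, ∃ m4 m6 c : ℝ, e.2.1.Mem m4 ∧ e.2.2.1.Mem m6 ∧ e.2.2.2.Mem c ∧ 0 ≤ c ∧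
    ∀ v : ℝ, 0 < v → v ≤ e.1 / 10000 → ‖f (2 * π - v)‖
      ≤ exp (N * (-(v ^ 2 / 2) + m4 * v ^ 4 + m6 * v ^ 6) + c * J * v ^ 4)

/-- A box of parameters with the data of its certificate; unit `1 / 10000`. -/
structure Bx where
  e0 : ℕ
  e1 : ℕ
  n0 : ℕ
  n1 : ℕ
  j0 : ℕ
  j1 : ℕ
  t1 : ℕ
  mA : Bool
  p : ℕ
  nt : ℕ
  nb : ℕ
  v0 : ℕ
  T : ℕ
  jm : ℕ
  r1 : ℕ
  r2 : ℕ
  r3 : ℕ
  r4 : ℕ
  a3 : ℕ
  last : ℕ
  tn : List (ℕ × ℕ)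
  ln : List (ℕ × ℕ)
  pn : List (ℕ × ℕ)

/-- The parameters lie in the box. -/
structure Bx.In (B : Bx) (ε η j N J : ℝ) : Prop where
  e : 0 < ε
  n : 0 < η
  e0 : B.e0 / 10000 ≤ ε
  e1 : ε ≤ B.e1 / 10000
  n0 : B.n0 / 10000 ≤ η
  n1 : η ≤ B.n1 / 10000
  j0 : B.j0 / 10000 ≤ j
  j1 : j ≤ B.j1 / 10000
  N : N * (ε * η) ^ 2 = 1
  J : J * (ε * η) ^ 3 = ε * j

namespace Bx

def eI (B : Bx) : Iv := hull (nd B.e0) (nd B.e1)
def HI (B : Bx) : Iv := hull (nd B.e0 * nd B.e0) (nd B.e1 * nd B.e1)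
def nI (B : Bx) : Iv := hull (nd B.n0) (nd B.n1)
def jI (B : Bx) : Iv := hull (nd B.j0) (nd B.j1)
def hI (B : Bx) : Iv := B.eI * B.nI
def q (B : Bx) : ℕ := if B.mA then 0 else 3 * B.p
/-- The denominator of the weight, in units of `10 ^ (-16)`. -/
def wd (B : Bx) : ℕ := if B.mA then B.e0 * 10 ^ 12 else B.e1 * B.t1 ^ 3
def wI (B : Bx) : Iv := rat (10 ^ (16 * B.p)) (B.wd ^ B.p)
noncomputable def wR (B : Bx) : ℝ := (10 ^ 16 / B.wd) ^ B.p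
def uJ (B : Bx) : Bool := decide (B.j1 * 10000 ≤ B.jm * B.n0)
def good (B : Bx) (ε τ : ℝ) : Prop :=
  if B.mA then τ ≤ B.t1 / 10000 else ε * τ ^ 3 ≤ B.e1 / 10000 * (B.t1 / 10000) ^ 3
def ML (B : Bx) : List Iv :=
  if B.mA then momL B.r1 10000 B.t1 10000 110 else momF B.r1 10000 50
noncomputable def l1 (B : Bx) : ℝ := ((10000 : ℕ) / B.r1 : ℝ) ^ 2
noncomputable def ph (B : Bx) : ℝ → ℝ :=
  if B.mA then gl B.l1 (B.t1 / (10000 : ℕ)) else gi B.l1 0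

/-- The elementary tests on a box. -/
def ok0 (B : Bx) (C : Cfg) : Bool :=
  decide (0 < B.wd) && decide (0 < B.t1) && decide (1 ≤ B.p) && decide (B.p ≤ 4) &&
  decide (10000 ≤ B.r1) && expOk (momY B.r1 10000 B.t1 10000) &&
  decide (B.e1 * B.n1 * B.t1 ≤ C.T0 * 10 ^ 8) && decide (C.T0 ≤ 31415) &&
  (B.mA || decide (B.e1 * B.n1 * B.t1 ≤ B.v0 * 10 ^ 8)) && decide (B.T ≤ 31415) &&
  decide (B.v0 ≤ 31415)

variable {B : Bx} {C : Cfg} {ε η j N J τ : ℝ}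

theorem In.eI (h : B.In ε η j N J) : B.eI.Mem ε := (nd_mem _).hull (nd_mem _) h.e0 h.e1
theorem In.nI (h : B.In ε η j N J) : B.nI.Mem η := (nd_mem _).hull (nd_mem _) h.n0 h.n1
theorem In.jI (h : B.In ε η j N J) : B.jI.Mem j := (nd_mem _).hull (nd_mem _) h.j0 h.j1
theorem In.hI (h : B.In ε η j N J) : B.hI.Mem (ε * η) := h.eI.mul h.nI
theorem In.HI (h : B.In ε η j N J) : B.HI.Mem (ε ^ 2) :=
  ((nd_mem _).mul (nd_mem _)).hull ((nd_mem _).mul (nd_mem _))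
    (by rw [← sq]; exact pow_le_pow_left₀ (by positivity) h.e0 2)
    (by rw [← sq]; exact pow_le_pow_left₀ h.e.le h.e1 2)
theorem In.h (h : B.In ε η j N J) : 0 < ε * η := mul_pos h.e h.n
theorem In.jn (h : B.In ε η j N J) : 0 ≤ j := le_trans (by positivity) h.j0
theorem In.Np (h : B.In ε η j N J) : 0 < N :=
  (mul_pos_iff_of_pos_right (pow_pos h.h 2)).1 (h.N ▸ one_pos)
theorem In.h1 (h : B.In ε η j N J) : ε * η ≤ B.e1 / 10000 * (B.n1 / 10000) :=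
  mul_le_mul h.e1 h.n1 h.n.le (by positivity)

theorem In.uJ (h : B.In ε η j N J) (hu : B.uJ = true) : J ≤ B.jm / 10000 * N := by
  have h1 : (B.j1 : ℝ) * 10000 ≤ B.jm * B.n0 := by exact_mod_cast of_decide_eq_true hu
  have h2 : j ≤ B.jm / 10000 * η := by
    have := mul_le_mul_of_nonneg_left h.n0 (show (0 : ℝ) ≤ B.jm / 10000 by positivity)
    linarith [h.j1]
  refine le_of_mul_le_mul_right ?_ (pow_pos h.h 3)
  rw [h.J, show B.jm / 10000 * N * (ε * η) ^ 3 = N * (ε * η) ^ 2 * (ε * (B.jm / 10000 * η)) by ring,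
    h.N, one_mul]
  exact mul_le_mul_of_nonneg_left h2 h.e.le

theorem wI_mem (h : 0 < B.wd) : B.wI.Mem B.wR :=
  (mem_rat _ (pow_pos h _)).congr (by rw [wR, div_pow, ← pow_mul]; push_cast; rfl)

theorem wR_nonneg (B : Bx) : 0 ≤ B.wR := by unfold wR; positivity

/-- What the elementary tests give. -/
structure Ok0 (B : Bx) (C : Cfg) (ε η : ℝ) : Prop where
  w : B.wI.Mem B.wR
  t1 : 0 < B.t1
  p1 : 1 ≤ B.p
  p4 : B.p ≤ 4
  r1 : 10000 ≤ B.r1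
  T : (B.T : ℝ) / 10000 < π
  v0 : (B.v0 : ℝ) / 10000 < π
  T0 : (C.T0 : ℝ) / 10000 < π
  ml : Mo mu0 √(π / 2) (fun τ => τ) B.ML B.ph
  mlen : 50 ≤ B.ML.length
  ph0 : ∀ τ, 0 ≤ B.ph τ
  ph : ∀ τ, 0 < τ → B.good ε τ → B.ph τ = gw B.l1 τ
  g1 : ∀ τ, 0 < τ → B.good ε τ → ε * τ ^ 3 ≤ B.e1 / 10000 * (B.t1 / 10000) ^ 3
  g2 : ∀ τ, 0 < τ → B.good ε τ → ε * τ ≤ B.e1 / 10000 * (B.t1 / 10000)
  g3 : ∀ τ, 0 < τ → B.good ε τ → ε * η * τ ≤ C.T0 / 10000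
  b1 : ∀ τ, 0 < τ → ¬ B.good ε τ → B.t1 / 10000 < τ ∧ 1 ≤ ε ^ B.p * B.wR * τ ^ B.q
  b2 : ∀ τ, 0 < τ → B.good ε τ → B.v0 / 10000 < ε * η * τ → 1 ≤ ε ^ B.p * B.wR * τ ^ B.q

theorem genL_length (l g b : Iv) (n m : ℕ) (p : Iv) : (genL l g b n m p).2.2.length = n := by
  induction n generalizing m p with
  | zero => rfl
  | succ n ih => simp [genL, ih]

theorem In.ok0 (h : B.In ε η j N J) (hk : B.ok0 C = true) : B.Ok0 C ε η := by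
  simp only [Bx.ok0, Bool.and_eq_true, decide_eq_true_eq, Bool.or_eq_true] at hk
  obtain ⟨⟨⟨⟨⟨⟨⟨⟨⟨⟨k1, k2⟩, k3⟩, k4⟩, k5⟩, k6⟩, k7⟩, k8⟩, k9⟩, k10⟩, k11⟩ := hk
  have pi' : ∀ n : ℕ, n ≤ 31415 → (n : ℝ) / 10000 < π := fun n hn => by
    have : (n : ℝ) ≤ 31415 := by exact_mod_cast hn
    linarith [pi_gt_d4]
  have t0 : (0 : ℝ) < B.t1 / 10000 := by positivity
  have e0 := h.e
  have g1 : ∀ τ, 0 < τ → B.good ε τ → ε * τ ^ 3 ≤ B.e1 / 10000 * (B.t1 / 10000) ^ 3 := by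
    intro τ h0 hg
    unfold good at hg
    split_ifs at hg
    · exact mul_le_mul h.e1 (pow_le_pow_left₀ h0.le hg 3) (by positivity) (by positivity)
    · exact hg
  have g2 : ∀ τ, 0 < τ → B.good ε τ → ε * τ ≤ B.e1 / 10000 * (B.t1 / 10000) := by
    intro τ h0 hg
    refine le_of_pow_le_pow_left₀ three_ne_zero (by positivity) ?_
    have := mul_le_mul (pow_le_pow_left₀ e0.le h.e1 2) (g1 τ h0 hg) (by positivity) (by positivity)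
    linarith
  have g3 : ∀ τ, 0 < τ → B.good ε τ → ∀ n : ℕ, B.e1 * B.n1 * B.t1 ≤ n * 10 ^ 8 →
      ε * η * τ ≤ n / 10000 := by
    intro τ h0 hg n hn
    have a1 : (B.e1 : ℝ) * B.n1 * B.t1 ≤ n * 10 ^ 8 := by exact_mod_cast hn
    have := mul_le_mul (g2 τ h0 hg) h.n1 h.n.le (by positivity)
    linarith
  have wA : B.mA = true → ∀ τ : ℝ, 1 ≤ ε ^ B.p * B.wR * τ ^ B.q := by
    intro hA τ
    have a0 : (0 : ℝ) < B.wd := by exact_mod_cast k1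
    rw [q, if_pos hA, pow_zero, mul_one, wR, ← mul_pow]
    refine one_le_pow₀ ?_
    rw [← mul_div_assoc, one_le_div a0, wd, if_pos hA]
    push_cast
    linarith [h.e0]
  refine ⟨wI_mem k1, k2, k3, k4, k5, pi' _ k10, pi' _ k11, pi' _ k8, ?_, ?_, fun τ => ?_,
    fun τ h0 hg => ?_, g1, g2, fun τ h0 hg => g3 τ h0 hg _ k7, fun τ h0 hg => ?_,
    fun τ h0 hg hv => ?_⟩
  · unfold ML ph
    split_ifs
    · exact momL_mo (by omega) (by norm_num) (by norm_num) k6 _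
    · exact momF_mo (by omega) (by norm_num) _
  · unfold ML
    split_ifs
    · rw [momL, genL_length]
      norm_num
    · rw [momF, genM_length]
  · unfold ph
    split_ifs
    · exact indicator_nonneg (fun τ _ => (gw_pos _ τ).le) τ
    · exact gi_nonneg _ _ _
  · unfold ph
    unfold good at hg
    split_ifs at hg ⊢
    · exact indicator_of_mem (by simpa using hg) _
    · exact gi_of _ h0
  · by_cases hA : B.mA = true
    · rw [good, if_pos hA, not_le] at hg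
      exact ⟨hg, wA hA τ⟩
    · rw [good, if_neg hA, not_le] at hg
      have a0 : (0 : ℝ) < B.wd := by exact_mod_cast k1
      refine ⟨lt_of_pow_lt_pow_left₀ 3 h0.le (lt_of_mul_lt_mul_left (hg.trans_le
        (mul_le_mul_of_nonneg_right h.e1 (by positivity))) (by positivity)), ?_⟩
      rw [q, if_neg hA, pow_mul, wR, ← mul_pow, ← mul_pow]
      refine one_le_pow₀ ?_
      rw [mul_right_comm, ← mul_div_assoc, one_le_div a0, wd, if_neg hA]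
      push_cast
      linarith
  · rcases k9 with hA | hv'
    · exact wA hA τ
    · exact absurd (g3 τ h0 hg _ hv') (not_le.2 hv)

end Bx

end Pool.Agent.Lib.MP_33650d_pr.RM
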