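import Pool.Agent.Lib.MP_33650d_pr.X.R1M

namespace Pool.Agent.Lib.MP_33650d_pr.RM
open MeasureTheory Real Set Iv

/-- A nonnegative error term with a bound for its normalised integral. -/
def Er (e : ℝ → ℝ) (c : ℝ) : Prop :=
  Integrable e mu0 ∧ (∀ τ, 0 < τ → 0 ≤ e τ) ∧ ∫ τ, e τ ∂mu0 ≤ √(π / 2) * c

variable {e e' : ℝ → ℝ} {c c' : ℝ}

theorem Er.zero : Er (fun _ => 0) 0 := ⟨integrable_zero _ _ _, fun _ _ => le_rfl, by simp⟩

theorem Er.add (h : Er e c) (h' : Er e' c') : Er (fun τ => e τ + e' τ) (c + c') :=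
  ⟨h.1.add h'.1, fun τ hτ => add_nonneg (h.2.1 τ hτ) (h'.2.1 τ hτ), by
    rw [integral_add h.1 h'.1, mul_add]
    exact add_le_add h.2.2 h'.2.2⟩

theorem Er.mono (h : Er e c) (hc : c ≤ c') : Er e c' :=
  ⟨h.1, h.2.1, h.2.2.trans (mul_le_mul_of_nonneg_left hc (sqrt_nonneg _))⟩

theorem Er.mul (h : Er e c) {a : ℝ} (ha : 0 ≤ a) : Er (fun τ => a * e τ) (a * c) :=
  ⟨h.1.const_mul a, fun τ hτ => mul_nonneg ha (h.2.1 τ hτ), by
    rw [integral_const_mul, mul_left_comm]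
    exact mul_le_mul_of_nonneg_left h.2.2 ha⟩

theorem Er.nonneg (h : Er e c) : 0 ≤ c := by
  have h1 : 0 ≤ ∫ τ, e τ ∂mu0 := setIntegral_nonneg measurableSet_Ioi fun τ hτ => h.2.1 τ hτ
  exact nonneg_of_mul_nonneg_right (h1.trans h.2.2) (by positivity)

theorem Er.scale (h : Er e c) {a : ℝ} (ha : 0 < a) : Er (fun τ => a * e (a * τ)) c := by
  refine ⟨?_, fun τ hτ => mul_nonneg ha.le (h.2.1 _ (mul_pos ha hτ)), ?_⟩
  · refine Integrable.const_mul ?_ a
    have := (integrableOn_Ioi_comp_mul_left_iff e 0 ha).2 (by rw [mul_zero]; exact h.1)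
    exact this
  · rw [integral_const_mul, integral_comp_mul_left_Ioi e 0 ha, mul_zero, smul_eq_mul, ← mul_assoc,
      mul_inv_cancel₀ ha.ne', one_mul]
    exact h.2.2

theorem Er.dot {P M : List Iv} {F φ : ℝ → ℝ} (h : Sem P F) (hM : Mo mu0 √(π / 2) (fun τ => τ) M φ)
    (hl : P.length ≤ M.length) (h0 : ∀ τ, 0 < τ → 0 ≤ F τ * φ τ) :
    ∃ c, (dot P M).Mem c ∧ Er (fun τ => F τ * φ τ) c := by
  obtain ⟨i, c, hc, ec⟩ := h.dot hM hl
  exact ⟨c, hc, i, h0, ec.le⟩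

theorem pval_nonneg (P : List Iv) {u : ℝ} (hu : 0 ≤ u) : 0 ≤ pval (pabs P) u := by
  induction P with
  | nil => exact le_rfl
  | cons a P ih =>
    have : 0 ≤ a.mag.val := by unfold val mag; positivity
    rw [pabs, pval]
    positivity

theorem pval_mono (P : List Iv) {u v : ℝ} (hu : 0 ≤ u) (h : u ≤ v) :
    pval (pabs P) u ≤ pval (pabs P) v := by
  induction P with
  | nil => exact le_rfl
  | cons a P ih =>
    rw [pabs, pval, pval]
    exact add_le_add le_rfl (mul_le_mul h ih (pval_nonneg P hu) (hu.trans h))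

theorem Sem.le_pval {P : List Iv} {F : ℝ → ℝ} (h : Sem P F) {u v : ℝ} (hu : 0 ≤ u) (huv : u ≤ v) :
    |F u| ≤ pval (RM.pabs P) v := (h.abs_le hu).trans (pval_mono P hu huv)

def pscale (c : Iv) : List Iv → List Iv
  | [] => []
  | a :: P => a :: psm c (pscale c P)

theorem Sem.scale {P : List Iv} {F : ℝ → ℝ} {a : Iv} (ha : a.Mem c) (h : Sem P F) :
    Sem (pscale a P) fun u => F (c * u) := by
  induction P generalizing F with
  | nil => exact fun u => h _
  | cons b P ih =>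
    obtain ⟨d, F', hb, hF, eF⟩ := h
    exact (Sem.cons hb ((ih hF).sm ha)).congr fun u => by rw [eF]; ring

def pdiv (v : Iv) : List Iv → List Iv
  | [] => []
  | _ :: P => peval P v :: pdiv v P

theorem Sem.div {P : List Iv} {F : ℝ → ℝ} {v : Iv} (hv : v.Mem c) (h : Sem P F) :
    ∃ G, Sem (pdiv v P) G ∧ ∀ u, F u = F c + (u - c) * G u := by
  induction P generalizing F with
  | nil => exact ⟨_, Sem.nil, fun u => by simp [h _]⟩
  | cons b P ih =>
    obtain ⟨d, F', hb, hF, eF⟩ := h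
    obtain ⟨G, hG, eG⟩ := ih hF
    exact ⟨_, Sem.cons (hF.eval hv) hG, fun u => by rw [eF, eF, eG u]; ring⟩

/-- A node, in units of `1 / 10000`. -/
def nd (a : ℕ) : Iv := rat a 10000

theorem nd_mem (a : ℕ) : (nd a).Mem (a / 10000) := (mem_rat a (by norm_num)).congr (by simp)

/-- A lower bound for the slope of `μ` on a cell, or zero. -/
def cellS (mu : List Iv) (a b : ℕ) : Iv :=
  ⟨max (peval (pdiv (nd a) mu) (hull (nd a) (nd b))).lo 0, 0⟩

/-- A lower bound for `μ` at the left end of a cell, or on the cell. -/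
def cellP (mu : List Iv) (a b : ℕ) : Iv :=
  (peval mu (nd a) + ⟨min (peval (pdiv (nd a) mu) (hull (nd a) (nd b))).lo 0, 0⟩ * (nd b - nd a)).dn

theorem cellS_nonneg (mu : List Iv) (a b : ℕ) : 0 ≤ (cellS mu a b).val := by
  unfold val cellS
  have : (0 : ℝ) ≤ (max (peval (pdiv (nd a) mu) (hull (nd a) (nd b))).lo 0 : ℤ) := by
    exact_mod_cast le_max_right _ _
  positivity

theorem cell_le {mu : List Iv} {μ : ℝ → ℝ} (h : Sem mu μ) {a b : ℕ} {s : ℝ} (h1 : a / 10000 ≤ s)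
    (h2 : s ≤ b / 10000) : (cellP mu a b).val + (cellS mu a b).val * (s - a / 10000) ≤ μ s := by
  have hs := (nd_mem a).hull (nd_mem b) h1 h2
  obtain ⟨G, hG, eG⟩ := h.div (nd_mem a)
  have a1 := ((h.eval (nd_mem a)).add ((mem_val
    (min (peval (pdiv (nd a) mu) (hull (nd a) (nd b))).lo 0)).mul
    ((nd_mem b).sub (nd_mem a)))).dn_le
  have a2 := mul_le_mul_of_nonneg_right (hG.eval hs).dn_le (sub_nonneg.2 h1)
  unfold cellP cellS
  rw [eG s]
  unfold dn at a2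
  generalize (peval (pdiv (nd a) mu) (hull (nd a) (nd b))).lo = z at *
  rcases le_total 0 z with hz | hz
  · rw [max_eq_left hz]
    rw [min_eq_right hz] at a1 ⊢
    have : val ⟨0, 0⟩ = 0 := by simp [val]
    rw [this] at a1
    linarith
  · rw [max_eq_right hz]
    rw [min_eq_left hz] at a1 ⊢
    have a3 : val ⟨0, 0⟩ = 0 := by simp [val]
    have a4 : val ⟨z, 0⟩ ≤ 0 := div_nonpos_of_nonpos_of_nonneg (by exact_mod_cast hz) (by positivity)
    have a5 := mul_le_mul_of_nonpos_left (sub_le_sub_right h2 (a / 10000)) a4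
    rw [a3]
    linarith

/-- The majorant on one cell. -/
noncomputable def cellF (a b σ s : ℝ) : ℝ :=
  (Ioc a b).indicator (fun s => 1 - σ * (s - a) + (σ * (s - a)) ^ 2 / 2) s

theorem cellF_er {a b : ℝ} (σ : ℝ) (h0 : 0 ≤ a) (h : a ≤ b) : Er (cellF a b σ)
    ((√(π / 2))⁻¹ * ((b - a) * (1 - σ * (b - a) / 2 + (σ * (b - a)) ^ 2 / 6))) := by
  have hc : Continuous fun s : ℝ => 1 - σ * (s - a) + (σ * (s - a)) ^ 2 / 2 := by fun_prop
  refine ⟨((integrable_indicator_iff measurableSet_Ioc).2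
    (hc.integrableOn_Icc.mono_set Ioc_subset_Icc_self)).integrableOn, fun τ _ =>
      indicator_nonneg (fun s _ => by nlinarith [sq_nonneg (σ * (s - a) - 1)]) τ, ?_⟩
  have hd : ∀ s ∈ uIcc a b, HasDerivAt
      (fun s : ℝ => (s - a) - σ * (s - a) ^ 2 / 2 + σ ^ 2 * (s - a) ^ 3 / 6)
      (1 - σ * (s - a) + (σ * (s - a)) ^ 2 / 2) s := fun s _ => by
    have h1 := (hasDerivAt_id' s).sub_const a
    exact ((h1.sub (((h1.pow 2).const_mul σ).div_const 2)).add
      (((h1.pow 3).const_mul (σ ^ 2)).div_const 6)).congr_deriv (by simp; ring)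
  unfold cellF
  rw [setIntegral_indicator measurableSet_Ioc, inter_eq_right.2 (show Ioc a b ⊆ Ioi 0 from fun s hs => h0.trans_lt hs.1),
    ← intervalIntegral.integral_of_le h,
    intervalIntegral.integral_eq_sub_of_hasDerivAt hd (hc.intervalIntegrable _ _),
    ← mul_assoc, mul_inv_cancel₀ (by positivity)]
  exact le_of_eq (by ring)

theorem r1_exp_le_quad {y : ℝ} (hy : 0 ≤ y) : exp (-y) ≤ 1 - y + y ^ 2 / 2 := by
  have h1 := quadratic_le_exp_of_nonneg hy
  rw [exp_neg, inv_le_iff_one_le_mul₀ (exp_pos y)]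
  have h2 : 0 ≤ 1 - y + y ^ 2 / 2 := by nlinarith [sq_nonneg (y - 1)]
  nlinarith [mul_le_mul_of_nonneg_left h1 h2, sq_nonneg (y ^ 2)]

/-- The normalised integral of `exp (-μ)` over a cell. -/
def cellI (mu : List Iv) (a b : ℕ) : Iv :=
  expNeg (cellP mu a b) * (csI * ((nd b - nd a) * (nat 1 - cellS mu a b * (nd b - nd a) * rat 1 2
    + sqn 1 (cellS mu a b * (nd b - nd a)) * rat 1 6)))

def cellOk (mu : List Iv) (a b lo : ℕ) : Bool :=
  decide (a ≤ b) && expOk (cellP mu a b) && le (nat lo) (cellP mu a b)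

theorem cell_er {mu : List Iv} {μ : ℝ → ℝ} (h : Sem mu μ) {a b lo : ℕ}
    (hk : cellOk mu a b lo = true) : ∃ e c, (cellI mu a b).Mem c ∧ Er e c ∧
      ∀ s : ℝ, a / 10000 < s → s ≤ b / 10000 → exp (-μ s) ≤ e s ∧ lo ≤ μ s := by
  simp only [cellOk, Bool.and_eq_true, decide_eq_true_eq] at hk
  obtain ⟨⟨h1, h2⟩, h3⟩ := hk
  have p1 : (cellP mu a b).Mem (cellP mu a b).val := mem_dn _
  have p2 : (cellS mu a b).Mem (cellS mu a b).val := mem_val _
  have p3 := (mem_nat lo).le p1 h3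
  have p4 := exp_neg_le p1 ((Nat.cast_nonneg lo).trans p3) h2
  have p5 := (nd_mem b).sub (nd_mem a)
  have p6 : (a : ℝ) / 10000 ≤ b / 10000 := by gcongr
  have p0 : 0 ≤ (expNeg (cellP mu a b)).val := (exp_pos _).le.trans p4
  refine ⟨_, _, ((mem_val _).mul (csI_mem.mul (p5.mul (((mem_nat 1).sub ((p2.mul p5).mul
    (mem_rat 1 (d := 2) (by norm_num)))).add ((mem_sqn 1 (p2.mul p5)).mul
    (mem_rat 1 (d := 6) (by norm_num))))))).congr ?_,
    (cellF_er (cellS mu a b).val (by positivity) p6).mul p0, fun s s1 s2 => ?_⟩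
  · change (expNeg (cellP mu a b)).val * _ = _
    push_cast
    ring
  · have q1 := cell_le h s1.le s2
    have q2 : 0 ≤ (cellS mu a b).val * (s - a / 10000) :=
      mul_nonneg (cellS_nonneg _ _ _) (by linarith)
    refine ⟨?_, by linarith⟩
    rw [cellF, indicator_of_mem (show s ∈ Ioc _ _ from ⟨s1, s2⟩)]
    refine le_trans ?_ (mul_le_mul p4 (r1_exp_le_quad q2) (exp_pos _).le p0)
    rw [← exp_add]
    exact exp_le_exp.2 (by linarith)

/-- A chain of cells: the test, the sum and the last node. -/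
def chain (step : ℕ → ℕ → ℕ → Bool × Iv) : ℕ → List (ℕ × ℕ) → Bool × Iv × ℕ
  | a, [] => (true, zero, a)
  | a, (b, ty) :: l => ((step a b ty).1 && (chain step b l).1,
      (step a b ty).2 + (chain step b l).2.1, (chain step b l).2.2)

theorem chain_er {step : ℕ → ℕ → ℕ → Bool × Iv} {C : ℝ → Prop} {F : ℝ → ℝ} {w : ℝ}
    (hs : ∀ a b ty, (step a b ty).1 = true → ∃ e c, (step a b ty).2.Mem c ∧ Er e (w * c) ∧
      ∀ s : ℝ, a / 10000 < s → s ≤ b / 10000 → C s → F s ≤ e s) (a : ℕ) (l : List (ℕ × ℕ))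
    (hk : (chain step a l).1 = true) : ∃ e c, (chain step a l).2.1.Mem c ∧ Er e (w * c) ∧
      ∀ s : ℝ, 0 < s → a / 10000 < s → s ≤ (chain step a l).2.2 / 10000 → C s → F s ≤ e s := by
  induction l generalizing a with
  | nil =>
    exact ⟨_, 0, mem_zero, by rw [mul_zero]; exact Er.zero,
      fun s _ h1 h2 _ => absurd (h1.trans_le h2) (lt_irrefl _)⟩
  | cons p l ih =>
    obtain ⟨b, ty⟩ := p
    simp only [chain, Bool.and_eq_true] at hk
    obtain ⟨e1, c1, m1, r1, f1⟩ := hs a b ty hk.1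
    obtain ⟨e2, c2, m2, r2, f2⟩ := ih b hk.2
    refine ⟨_, _, m1.add m2, by rw [mul_add]; exact r1.add r2, fun s s0 s1 s2 hC => ?_⟩
    rcases le_or_gt s (b / 10000) with h | h
    · exact (f1 s s1 h hC).trans (le_add_of_nonneg_right (r2.2.1 s s0))
    · exact (f2 s s0 h s2 hC).trans (le_add_of_nonneg_left (r1.2.1 s s0))

/-- The Gaussian weight cut off above `b`. -/
noncomputable def gl (l b τ : ℝ) : ℝ := (Iic b).indicator (gw l) τ

theorem gl_eq (l : ℝ) (b τ : ℝ) : gl l b τ = gw l τ - gi l b τ := by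
  by_cases h : b < τ <;> simp [gl, gi, h, not_le.2, not_lt.1]

theorem gl_int {l b : ℝ} (hl : 0 < l) (hb : 0 ≤ b) (m : ℕ) :
    Integrable (fun τ => τ ^ m * gl l b τ) mu0 ∧
      ∫ τ, τ ^ m * gl l b τ ∂mu0 = gm l 0 m - gm l b m := by
  obtain ⟨i1, i2⟩ := gi_int hl hb m
  have i3 : Integrable (fun τ => τ ^ m * gw l τ) mu0 := (gw_int hl m).integrableOn
  simp only [gl_eq, mul_sub]
  exact ⟨i3.sub i1, by rw [integral_sub i3 i1, i2]; rfl⟩

theorem gl_crude {l b : ℝ} (hl : 0 < l) (hb : 0 ≤ b) (m : ℕ) :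
    0 ≤ gm l 0 m - gm l b m ∧ gm l 0 m - gm l b m ≤ b ^ (m + 1) := by
  obtain ⟨i1, i2⟩ := gl_int hl hb m
  rw [← i2]
  refine ⟨setIntegral_nonneg measurableSet_Ioi fun τ hτ => mul_nonneg (pow_nonneg (le_of_lt hτ) m)
    (indicator_nonneg (fun τ _ => (gw_pos l τ).le) τ), ?_⟩
  have h1 := (cellF_er 0 le_rfl hb).mul (pow_nonneg hb m)
  refine (setIntegral_mono_on i1 h1.1 measurableSet_Ioi fun τ hτ => ?_).trans (h1.2.2.trans_eq ?_)
  · by_cases h : τ ≤ b
    · have : gw l τ ≤ 1 := exp_le_one_iff.2 (neg_nonpos.2 (by positivity))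
      simp only [gl, cellF, indicator_of_mem (mem_Iic.2 h), indicator_of_mem (mem_Ioc.2 ⟨hτ, h⟩)]
      refine mul_le_mul (pow_le_pow_left₀ (le_of_lt hτ) h m) (by simpa using this) (gw_pos l τ).le
        (pow_nonneg hb m)
    · rw [gl, indicator_of_notMem (by simpa using h), mul_zero]
      exact h1.2.1 τ hτ
  · field_simp
    ring

def genL (l g b : Iv) : ℕ → ℕ → Iv → Iv × Iv × List Iv
  | 0, _, p => (hull zero p, hull zero (p * b), [])
  | n + 1, m, p => ((l * (genL l g b n (m + 1) (p * b)).2.1 + p * g) * rat 1 (m + 1),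
      (genL l g b n (m + 1) (p * b)).1,
      ((l * (genL l g b n (m + 1) (p * b)).2.1 + p * g) * rat 1 (m + 1)) ::
        (genL l g b n (m + 1) (p * b)).2.2)

theorem genL_mo {lI g b : Iv} {l β : ℝ} (hl : 0 < l) (hβ : 0 ≤ β) (hr : lI.Mem l)
    (hg : g.Mem (gw l β * (√(π / 2))⁻¹)) (hb : b.Mem β) (n m : ℕ) {p : Iv}
    (hp : p.Mem (β ^ (m + 1))) :
    (genL lI g b n m p).1.Mem ((gm l 0 m - gm l β m) * (√(π / 2))⁻¹) ∧
    (genL lI g b n m p).2.1.Mem ((gm l 0 (m + 1) - gm l β (m + 1)) * (√(π / 2))⁻¹) ∧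
    Mo mu0 √(π / 2) (fun τ => τ) (genL lI g b n m p).2.2 fun τ => τ ^ m * gl l β τ := by
  have h0 : 1 ≤ √(π / 2) := le_sqrt_of_sq_le (by linarith [pi_gt_three])
  have h1 : (√(π / 2))⁻¹ ≤ 1 := inv_le_one_of_one_le₀ h0
  induction n generalizing m p with
  | zero =>
    obtain ⟨a1, a2⟩ := gl_crude hl hβ m
    obtain ⟨a3, a4⟩ := gl_crude hl hβ (m + 1)
    exact ⟨mem_zero.hull hp (by positivity) ((mul_le_of_le_one_right a1 h1).trans a2),
      mem_zero.hull (hp.mul hb) (by positivity) ((mul_le_of_le_one_right a3 h1).trans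
        (a4.trans_eq (by ring))), trivial⟩
  | succ n ih =>
    obtain ⟨a1, a2, a3⟩ := ih (m + 1) ((hp.mul hb).congr (by ring))
    have a4 : ((lI * (genL lI g b n (m + 1) (p * b)).2.1 + p * g) * rat 1 (m + 1)).Mem
        ((gm l 0 m - gm l β m) * (√(π / 2))⁻¹) := by
      refine (((hr.mul a2).add (hp.mul hg)).mul (mem_rat 1 m.succ_pos)).congr ?_
      have r1 := gm_rec hl 0 m
      have r2 := gm_rec hl β m
      rw [zero_pow m.succ_ne_zero, zero_mul, add_zero] at r1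
      push_cast
      field_simp
      linarith
    obtain ⟨i1, i2⟩ := gl_int hl hβ m
    refine ⟨a4, a1, i1, ⟨_, a4, by rw [i2]; field_simp⟩, ?_⟩
    convert a3 using 2
    ring

/-- The normalised moments up to the cut `a / b` for the rate `(d / n) ^ 2`. -/
def momL (n d a b k : ℕ) : List Iv :=
  (genL (rat d n * rat d n) (momG n d a b) (rat a b) k 0 (rat a b)).2.2

theorem momL_mo {n d a b : ℕ} (hn : 0 < n) (hd : 0 < d) (hb : 0 < b)
    (hy : expOk (momY n d a b) = true) (k : ℕ) :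
    Mo mu0 √(π / 2) (fun τ => τ) (momL n d a b k) (gl ((d / n : ℝ) ^ 2) (a / b)) := by
  have hl : (0 : ℝ) < (d / n : ℝ) ^ 2 := by positivity
  have r3 : (rat d n).Mem (d / n : ℝ) := (mem_rat d hn).congr (by simp)
  have r4 : (rat a b).Mem (a / b : ℝ) := (mem_rat a hb).congr (by simp)
  have y1 : (momY n d a b).Mem ((d / n : ℝ) ^ 2 * (a / b) ^ 2 / 2) :=
    (((r4.mul r4).mul (r3.mul r3)).mul (mem_rat 1 (d := 2) (by norm_num))).congr (by push_cast; ring)
  have g1 : (momG n d a b).Mem (gw ((d / n : ℝ) ^ 2) (a / b) * (√(π / 2))⁻¹) :=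
    (mem_zero.hull (mem_val _) (gw_pos _ _).le (exp_neg_le y1 (by positivity) hy)).mul csI_mem
  have := (genL_mo hl (by positivity) ((r3.mul r3).congr (by ring)) g1 r4 k 0
    (r4.congr (by simp))).2.2
  simpa [momL] using this

/-- The exponential series cut after six terms. -/
theorem r1_T6 (z : ℂ) {b : ℝ} (hb : 0 ≤ b) (h : z.re ≤ b) :
    ‖∑ k ∈ Finset.range 6, z ^ k / (k.factorial : ℂ)‖
      ≤ 1 + b * (1 + 1 / 2 * (b * (1 + 1 / 3 * (b * (1 + 1 / 4 * (b * (1 + 1 / 5 * b)))))))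
        + 1 / 720 * ((1 + 2 * b) * (‖z‖ ^ 2 + 2 * b)) ^ 3 := by
  obtain ⟨y, rfl⟩ : ∃ y, z = y + b := ⟨z - b, by ring⟩
  have hy : y.re ≤ 0 := by simpa using h
  have k : ∀ n : ℕ, ‖∑ k ∈ Finset.range n, y ^ k / (k.factorial : ℂ)‖
      ≤ 1 + ‖y‖ ^ n / n.factorial := fun n => by
    have h1 := r1_exp_rem y n
    rw [max_eq_right hy, exp_zero, mul_one] at h1
    have h2 : ‖Complex.exp y‖ ≤ 1 := by rw [Complex.norm_exp]; exact exp_le_one_iff.2 hy
    have h3 := norm_sub_le (Complex.exp y)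
      (Complex.exp y - ∑ k ∈ Finset.range n, y ^ k / (k.factorial : ℂ))
    rw [sub_sub_cancel] at h3
    linarith
  have m : ∀ (r : ℝ) (n : ℕ), 0 ≤ r → ‖(r : ℂ) * ∑ k ∈ Finset.range n, y ^ k / (k.factorial : ℂ)‖
      ≤ r * (1 + ‖y‖ ^ n / n.factorial) := fun r n hr => by
    rw [norm_mul, Complex.norm_real, norm_of_nonneg hr]
    exact mul_le_mul_of_nonneg_left (k n) hr
  have e : ∑ k ∈ Finset.range 6, (y + b) ^ k / (k.factorial : ℂ)
      = ((1 : ℝ) : ℂ) * ∑ k ∈ Finset.range 6, y ^ k / (k.factorial : ℂ)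
      + (b : ℂ) * ∑ k ∈ Finset.range 5, y ^ k / (k.factorial : ℂ)
      + ((b ^ 2 / 2 : ℝ) : ℂ) * ∑ k ∈ Finset.range 4, y ^ k / (k.factorial : ℂ)
      + ((b ^ 3 / 6 : ℝ) : ℂ) * ∑ k ∈ Finset.range 3, y ^ k / (k.factorial : ℂ)
      + ((b ^ 4 / 24 : ℝ) : ℂ) * ∑ k ∈ Finset.range 2, y ^ k / (k.factorial : ℂ)
      + ((b ^ 5 / 120 : ℝ) : ℂ) * ∑ k ∈ Finset.range 1, y ^ k / (k.factorial : ℂ) := by
    simp only [Finset.sum_range_succ, Finset.range_zero, Finset.sum_empty, Nat.factorial]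
    push_cast
    ring
  have n1 := norm_add_le_of_le (norm_add_le_of_le (norm_add_le_of_le (norm_add_le_of_le
    (norm_add_le_of_le (m 1 6 zero_le_one) (m b 5 hb)) (m (b ^ 2 / 2) 4 (by positivity)))
    (m (b ^ 3 / 6) 3 (by positivity))) (m (b ^ 4 / 24) 2 (by positivity)))
    (m (b ^ 5 / 120) 1 (by positivity))
  rw [e]
  refine n1.trans ?_
  have n2 : ‖y‖ ≤ ‖y + b‖ + b := by
    have := norm_sub_le (y + b) b
    rwa [add_sub_cancel_right, Complex.norm_real, norm_of_nonneg hb] at this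
  have n3 : (‖y‖ + b) ^ 2 ≤ (1 + 2 * b) * (‖y + b‖ ^ 2 + 2 * b) := by
    have := pow_le_pow_left₀ (by positivity) (show ‖y‖ + b ≤ ‖y + b‖ + 2 * b by linarith) 2
    nlinarith [mul_nonneg hb (sq_nonneg (‖y + b‖ - 1))]
  have n4 := pow_le_pow_left₀ (by positivity) n3 3
  have n5 : 0 ≤ b ^ 6 := by positivity
  simp only [Nat.factorial]
  push_cast
  linarith

theorem r1_expm1 {r R : ℝ} (h0 : 0 ≤ r) (h1 : r ≤ R) (h3 : R ≤ 3) : exp r - 1 ≤ r * (1 + r / 2
    + r ^ 2 * (1 / 6 + R * (1 / 24 + R * (1 / 120 + R * (1 / 720 + R * (1 / 5040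
      + R * (21 / 40320))))))) := by
  have a1 := r1_exp_rem (r : ℂ) 8
  rw [Complex.ofReal_re, max_eq_left h0, Complex.norm_real, norm_of_nonneg h0] at a1
  have a2 : |exp r - ∑ k ∈ Finset.range 8, r ^ k / (k.factorial : ℝ)|
      ≤ r ^ 8 / (8 : ℕ).factorial * exp r := by
    rw [← Real.norm_eq_abs, ← Complex.norm_real]
    push_cast at a1 ⊢
    exact a1
  have a3 : exp r ≤ 21 := by
    have b1 : exp r ≤ exp 1 ^ 3 := by
      rw [← exp_nat_mul]
      exact exp_le_exp.2 (by push_cast; linarith)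
    exact b1.trans ((pow_le_pow_left₀ (exp_pos 1).le exp_one_lt_d9.le 3).trans (by norm_num))
  have a4 := mul_le_mul_of_nonneg_left a3 (show 0 ≤ r ^ 8 / (8 : ℕ).factorial by positivity)
  have a5 := (abs_le.1 a2).2
  have a6 : 1 / 6 + r * (1 / 24 + r * (1 / 120 + r * (1 / 720 + r * (1 / 5040 + r * (21 / 40320)))))
      ≤ 1 / 6 + R * (1 / 24 + R * (1 / 120 + R * (1 / 720 + R * (1 / 5040
        + R * (21 / 40320))))) := by
    have := h0.trans h1
    gcongr
  have a7 := mul_le_mul_of_nonneg_left a6 (pow_nonneg h0 3)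
  simp only [Finset.sum_range_succ, Finset.range_zero, Finset.sum_empty, Nat.factorial] at a4 a5
  push_cast at a4 a5
  linarith

end Pool.Agent.Lib.MP_33650d_pr.RM
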