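import Pool.Agent.Lib.MP_33650d_pr.X.R1L
import Pool.Agent.Lib.MP_33650d_pr.Y.Defs3

namespace Pool.Agent.Lib.MP_33650d_pr.RM
open MeasureTheory Real Set Iv

def dI : Iv := hull (rat 16227766 100000000) (rat 16227767 100000000)
/-- The polynomial `2 π - v`. -/
def tpP : List Iv := [hull (rat 62831853 10000000) (rat 62831854 10000000), -nat 1]
/-- Lower and upper Taylor polynomials of `1 - cos v`. -/
def c8P : List Iv := [rat 1 2, zero, rat (-1) 24, zero, rat 1 720, zero, rat (-1) 40320]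
def a8P : List Iv := pshn 2 c8P
def a6P : List Iv := [zero, zero, rat 1 2, zero, rat (-1) 24, zero, rat 1 720]

def c2P : List Iv := padd c8P (psm (rat 22 100) (pshn 2 (pmul c8P c8P)))

/-- The constants of the small range. -/
def CF : Cfg where
  th := [rat 45 100, rat 3 10, rat 21 100, zero, zero, zero, rat 22 100]
  et := [rat 3 10000, rat 55 100000, rat 5 100000, rat 1 10000]
  T0 := 16000
  A4 := -((nat 1 + nat 3 * (dI * dI)) * rat 1 2)
  B4 := nat 3 * dI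
  A5 := -(nat 6 * (dI * dI) * dI)
  B5 := nat 9 * (dI * dI) - nat 2
  A6 := nat 1 - rat 45 2 * (dI * dI) * (dI * dI) + rat 15 2 * (dI * dI)
  B6 := nat 30 * (dI * dI) * dI - nat 15 * dI
  cub := [(0, 70000, [rat 1 2, rat (-1) 10], [rat 1 5]),
    (0, 20000, [rat 285 1000, rat (-65) 1000], []),
    (10000, 50000, psm (rat 99 100) c8P, [rat 2 5]), (10000, 23000, c2P, [nat 2])]
  low := [(0, 70000, pshn 2 [rat 1 2, rat (-1) 10], pshn 3 [rat 1 5]),
    (0, 20000, pshn 2 [rat 285 1000, rat (-65) 1000], []),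
    (10000, 50000, pshn 2 (psm (rat 99 100) c8P), pshn 3 [rat 2 5]),
    (10000, 23000, pshn 2 c2P, pshn 3 [nat 2]),
    (20000, 50000, [rat 6 10], [])]
  top := [(11700, 42831, [rat 6 10], []),
    (0, 62831, psub (psm (rat 1 2) (pmul tpP tpP)) (psm (rat 1 10) (pmul tpP (pmul tpP tpP))),
      psm (rat 1 5) (pmul tpP (pmul tpP tpP))),
    (0, 9831, padd a8P (psm (rat 22 100) (pmul a8P a8P)), psm (nat 5) (pmul a6P a6P)),
    (0, 12831, a8P, []),
    (0, 52831, psm (rat 99 100) a8P, psm (rat 2 5) (pmul tpP (pmul tpP tpP))),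
    (9831, 17831, padd a8P (psm (rat 22 100) (pmul a8P a8P)),
      psub [rat 2564 10] (psm (nat 48) tpP))]
  nt := [(12831, rat 1 24, rat (-134) 100000, zero),
    (9831, rat 1 24 - rat 55 1000, rat 778 100000, rat 5 4),
    (17831, rat 1 24 - rat 55 1000, rat 778 100000, rat 61 10)]

theorem dI_mem : dI.Mem X.dE :=
  (mem_rat _ (by norm_num)).hull (mem_rat _ (by norm_num))
    (by unfold X.dE; push_cast; linarith [X.r10_lo]) (by unfold X.dE; push_cast; linarith [X.r10_hi])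

theorem mq_r1g (n : ℤ) (d : ℕ) : (rat n (d + 1)).Mem ((n : ℝ) / (d + 1 : ℕ)) :=
  mem_rat n d.succ_pos

noncomputable def c8_r1g (u : ℝ) : ℝ := 1 / 2 - u ^ 2 / 24 + u ^ 4 / 720 - u ^ 6 / 40320
noncomputable def a6_r1g (u : ℝ) : ℝ := u ^ 2 / 2 - u ^ 4 / 24 + u ^ 6 / 720

theorem c8_sem_r1g : Sem c8P c8_r1g :=
  (Sem.cons (mq_r1g 1 1) (Sem.cons mem_zero (Sem.cons (mq_r1g (-1) 23) (Sem.cons mem_zero
    (Sem.cons (mq_r1g 1 719) (Sem.cons mem_zero (Sem.const (mq_r1g (-1) 40319)))))))).congr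
    fun u => by unfold c8_r1g; push_cast; ring

theorem a8_sem_r1g : Sem a8P fun u => u ^ 2 * c8_r1g u := c8_sem_r1g.shn 2

theorem a6_sem_r1g : Sem a6P a6_r1g :=
  (Sem.cons mem_zero (Sem.cons mem_zero (Sem.cons (mq_r1g 1 1) (Sem.cons mem_zero
    (Sem.cons (mq_r1g (-1) 23) (Sem.cons mem_zero (Sem.const (mq_r1g 1 719)))))))).congr
    fun u => by unfold a6_r1g; push_cast; ring

theorem tp_sem_r1g : Sem tpP fun u => 2 * π - u :=
  (Sem.cons (c := 2 * π) ((mem_rat _ (by norm_num)).hull (mem_rat _ (by norm_num))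
    (by push_cast; linarith [pi_gt_d20]) (by push_cast; linarith [pi_lt_d20]))
    (Sem.const (mem_nat 1).neg)).congr fun u => by push_cast; ring

theorem lin_sem_r1g (a b : ℤ) (c d : ℕ) : Sem [rat a (c + 1), rat b (d + 1)]
    fun u => (a : ℝ) / (c + 1 : ℕ) + u * ((b : ℝ) / (d + 1 : ℕ)) :=
  Sem.cons (mq_r1g a c) (Sem.const (mq_r1g b d))

theorem cos_r1g {v : ℝ} (h0 : 0 ≤ v) (h1 : v ≤ 6.3) :
    v ^ 2 * c8_r1g v ≤ 1 - cos v ∧ 1 - cos v ≤ a6_r1g v := by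
  have h := _root_.abs_le.1 (r1b_cos h0)
  have w1 : v ^ 2 ≤ 40 := by nlinarith
  have w2 : v ^ 4 ≤ 1600 := by nlinarith [sq_nonneg v]
  have a1 := mul_le_mul_of_nonneg_left w1 (show 0 ≤ v ^ 10 by positivity)
  have a2 := mul_le_mul_of_nonneg_left w1 (show 0 ≤ v ^ 8 by positivity)
  have a3 := mul_le_mul_of_nonneg_left w2 (show 0 ≤ v ^ 8 by positivity)
  have a4 : 0 ≤ v ^ 10 := by positivity
  have a5 : 0 ≤ v ^ 8 := by positivity
  unfold c8_r1g a6_r1g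
  constructor <;> linarith [h.1, h.2]

theorem low_r1g {v : ℝ} (h0 : 0 ≤ v) (h1 : v ≤ 3) :
    0 ≤ v ^ 2 / 2 - v ^ 4 / 24 ∧ v ^ 2 / 2 - v ^ 4 / 24 ≤ v ^ 2 * c8_r1g v := by
  have w1 : v ^ 2 ≤ 9 := by nlinarith
  have a1 := mul_le_mul_of_nonneg_left w1 (show 0 ≤ v ^ 2 by positivity)
  have a2 := mul_le_mul_of_nonneg_left w1 (show 0 ≤ v ^ 6 by positivity)
  have a3 : 0 ≤ v ^ 6 := by positivity
  have a4 : 0 ≤ v ^ 2 := by positivity
  unfold c8_r1g
  constructor <;> linarith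

theorem ex_r1g {x N J a b a' b' : ℝ} (hN : 0 ≤ N) (hJ : 0 ≤ J) (h : x ≤ exp (-(a * N) + b * J))
    (ha : a' ≤ a) (hb : b ≤ b') : x ≤ exp (-(N * a') + J * b') := by
  refine h.trans (exp_le_exp.2 ?_)
  linarith [mul_le_mul_of_nonneg_left ha hN, mul_le_mul_of_nonneg_left hb hJ]

theorem ex0_r1g {x N J a : ℝ} (h : x ≤ exp (-(a * N))) : x ≤ exp (-(a * N) + 0 * J) := by
  rwa [zero_mul, add_zero]

theorem c2_sem_r1g : Sem c2P fun u => c8_r1g u
    + (22 : ℤ) / (99 + 1 : ℕ) * (u ^ 2 * (c8_r1g u * c8_r1g u)) :=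
  c8_sem_r1g.add (((c8_sem_r1g.mul c8_sem_r1g).shn 2).sm (mq_r1g 22 99))

theorem sq_r1g {v : ℝ} (h0 : 0 ≤ v) (h1 : v ≤ 3) : v ^ 2 * c8_r1g v
    + 22 / 100 * (v ^ 2 * c8_r1g v * (v ^ 2 * c8_r1g v)) ≤ 1 - cos v + 0.22 * (1 - cos v) ^ 2 := by
  have a1 := (cos_r1g h0 (by linarith)).1
  obtain ⟨a3, a4⟩ := low_r1g h0 h1
  have a5 := mul_self_le_mul_self (a3.trans a4) a1
  linarith

section
variable {f : ℝ → ℂ} {N J : ℝ}

theorem cub_r1g (hN : 0 ≤ N) (hJ : 0 ≤ J) (hM : Y.Modu f N J) (hM3 : Y.Modu3 f N J) :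
    ∀ e ∈ CF.cub, ∃ μ ν : ℝ → ℝ, Sem e.2.2.1 μ ∧ Sem e.2.2.2 ν ∧ ∀ t : ℝ, e.1 / 10000 < t →
      t ≤ e.2.1 / 10000 → 0 ≤ ν t ∧ ‖f t‖ ≤ exp (-(N * (t ^ 2 * μ t)) + J * (t ^ 3 * ν t)) := by
  simp only [CF, List.forall_mem_cons, List.not_mem_nil, IsEmpty.forall_iff, implies_true, and_true]
  refine ⟨⟨_, _, lin_sem_r1g 1 (-1) 1 9, Sem.const (mq_r1g 1 4), fun t h0 h1 => ?_⟩,
    ⟨_, _, lin_sem_r1g 285 (-65) 999 999, Sem.nil, fun t h0 h1 => ?_⟩,
    ⟨_, _, c8_sem_r1g.sm (mq_r1g 99 99), Sem.const (mq_r1g 2 4), fun t h0 h1 => ?_⟩,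
    ⟨_, _, c2_sem_r1g, Sem.const (mem_nat 2), fun t h0 h1 => ?_⟩⟩ <;>
    push_cast at h0 h1 ⊢
  · exact ⟨by norm_num, ex_r1g hN hJ (hM.b t (by linarith)) (by linarith) (by linarith)⟩
  · exact ⟨le_rfl, ex_r1g hN hJ (ex0_r1g (hM.z1 t (by linarith) (by linarith))) (by linarith)
      (by linarith)⟩
  · have := (cos_r1g (v := t) (by linarith) (by linarith)).1
    exact ⟨by norm_num, ex_r1g hN hJ (hM.c t (by linarith) (by linarith)) (by linarith)
      (by linarith)⟩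
  · have := sq_r1g (v := t) (by linarith) (by linarith)
    exact ⟨by norm_num, ex_r1g hN hJ (hM3.c2 t (by linarith) (by linarith)) (by linarith)
      (by linarith)⟩

theorem lowE_r1g (hN : 0 ≤ N) (hJ : 0 ≤ J) (hM : Y.Modu f N J) (hM3 : Y.Modu3 f N J) :
    ∀ e ∈ CF.low, ModOk (fun t => ‖f t‖) N J e := by
  simp only [CF, List.forall_mem_cons, List.not_mem_nil, IsEmpty.forall_iff, implies_true, and_true]
  refine ⟨⟨_, _, (lin_sem_r1g 1 (-1) 1 9).shn 2, (Sem.const (mq_r1g 1 4)).shn 3,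
      fun t h0 h1 => ?_⟩,
    ⟨_, _, (lin_sem_r1g 285 (-65) 999 999).shn 2, Sem.nil, fun t h0 h1 => ?_⟩,
    ⟨_, _, (c8_sem_r1g.sm (mq_r1g 99 99)).shn 2, (Sem.const (mq_r1g 2 4)).shn 3,
      fun t h0 h1 => ?_⟩,
    ⟨_, _, c2_sem_r1g.shn 2, (Sem.const (mem_nat 2)).shn 3, fun t h0 h1 => ?_⟩,
    ⟨_, _, Sem.const (mq_r1g 6 9), Sem.nil, fun t h0 h1 => ?_⟩⟩ <;>
    push_cast at h0 h1 ⊢
  · have t0 : 0 < t := by linarith
    exact ⟨by positivity, ex_r1g hN hJ (hM.b t t0) (by linarith) (by linarith)⟩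
  · exact ⟨le_rfl, ex_r1g hN hJ (ex0_r1g (hM.z1 t (by linarith) (by linarith))) (by linarith)
      le_rfl⟩
  · have t0 : 0 < t := by linarith
    have := (cos_r1g (v := t) (by linarith) (by linarith)).1
    exact ⟨by positivity, ex_r1g hN hJ (hM.c t (by linarith) (by linarith)) (by linarith)
      (by linarith)⟩
  · have t0 : 0 < t := by linarith
    have := sq_r1g (v := t) (by linarith) (by linarith)
    exact ⟨by positivity, ex_r1g hN hJ (hM3.c2 t (by linarith) (by linarith)) (by linarith)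
      (by linarith)⟩
  · exact ⟨le_rfl, ex_r1g hN hJ (ex0_r1g (hM.z2 t (by linarith) (by linarith))) (by linarith)
      le_rfl⟩

theorem topE_r1g (hN : 0 ≤ N) (hJ : 0 ≤ J) (hM : Y.Modu f N J) (hM3 : Y.Modu3 f N J) :
    ∀ e ∈ CF.top, ModOk (fun t => ‖f (2 * π - t)‖) N J e := by
  have p0 := pi_gt_d6
  have p1 := pi_lt_d6
  have s3 := tp_sem_r1g.mul (tp_sem_r1g.mul tp_sem_r1g)
  simp only [CF, List.forall_mem_cons, List.not_mem_nil, IsEmpty.forall_iff, implies_true, and_true]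
  refine ⟨⟨_, _, Sem.const (mq_r1g 6 9), Sem.nil, fun v h0 h1 => ?_⟩,
    ⟨_, _, ((tp_sem_r1g.mul tp_sem_r1g).sm (mq_r1g 1 1)).sub (s3.sm (mq_r1g 1 9)),
      s3.sm (mq_r1g 1 4), fun v h0 h1 => ?_⟩,
    ⟨_, _, a8_sem_r1g.add ((a8_sem_r1g.mul a8_sem_r1g).sm (mq_r1g 22 99)),
      (a6_sem_r1g.mul a6_sem_r1g).sm (mem_nat 5), fun v h0 h1 => ?_⟩,
    ⟨_, _, a8_sem_r1g, Sem.nil, fun v h0 h1 => ?_⟩,
    ⟨_, _, a8_sem_r1g.sm (mq_r1g 99 99), s3.sm (mq_r1g 2 4), fun v h0 h1 => ?_⟩,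
    ⟨_, _, a8_sem_r1g.add ((a8_sem_r1g.mul a8_sem_r1g).sm (mq_r1g 22 99)),
      (Sem.const (mq_r1g 2564 9)).sub (tp_sem_r1g.sm (mem_nat 48)), fun v h0 h1 => ?_⟩⟩ <;>
    push_cast at h0 h1 ⊢
  · refine ⟨le_rfl, ?_⟩
    rcases le_total 5 (2 * π - v) with g | g
    · have a1 := (cos_r1g (v := v) (by linarith) (by linarith)).1
      have a2 := (low_r1g (v := v) (by linarith) (by linarith)).2
      have a3 : 1.3689 ≤ v ^ 2 := by nlinarith
      have a4 : v ^ 2 ≤ 1.7 := by nlinarith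
      refine ex_r1g hN hJ (ex0_r1g (hM.t1 _ g (by linarith))) ?_ le_rfl
      rw [cos_two_pi_sub]
      nlinarith [mul_nonneg (sub_nonneg.2 a3) (sub_nonneg.2 a4)]
    · exact ex_r1g hN hJ (ex0_r1g (hM.z2 _ (by linarith) g)) (by linarith) le_rfl
  · have t0 : 0 < 2 * π - v := by linarith
    exact ⟨by positivity, ex_r1g hN hJ (hM.b _ t0) (by linarith) (by linarith)⟩
  · obtain ⟨a1, a2⟩ := cos_r1g (v := v) (by linarith) (by linarith)
    obtain ⟨a3, a4⟩ := low_r1g (v := v) (by linarith) (by linarith)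
    have a5 := mul_self_le_mul_self (a3.trans a4) a1
    have a6 := mul_self_le_mul_self ((a3.trans a4).trans a1) a2
    refine ⟨by linarith [mul_self_nonneg (a6_r1g v)],
      ex_r1g hN hJ (hM.t2 _ (by linarith) (by linarith)) ?_ ?_⟩ <;> rw [cos_two_pi_sub] <;> linarith
  · refine ⟨le_rfl, ex_r1g hN hJ (ex0_r1g (hM.t1 _ (by linarith) (by linarith))) ?_ le_rfl⟩
    rw [cos_two_pi_sub]
    exact (cos_r1g (v := v) (by linarith) (by linarith)).1
  · have t0 : 0 < 2 * π - v := by linarith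
    have a1 := (cos_r1g (v := v) (by linarith) (by linarith)).1
    have a2 := cos_le_one v
    refine ⟨by positivity, ?_⟩
    rcases le_total 5 (2 * π - v) with g | g
    · refine ex_r1g hN hJ (ex0_r1g (hM.t1 _ g (by linarith))) ?_ (by positivity)
      rw [cos_two_pi_sub]
      linarith
    · refine ex_r1g hN hJ (hM.c _ (by linarith) g) ?_ (by linarith)
      rw [cos_two_pi_sub]
      linarith
  · have a1 := sq_r1g (v := v) (by linarith) (by linarith)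
    refine ⟨by linarith, ?_⟩
    rcases le_total 5.3 (2 * π - v) with g | g
    · have a2 := one_sub_sq_div_two_le_cos (x := v)
      have a3 : v ^ 2 ≤ 1 := by nlinarith
      have a4 := mul_self_le_mul_self (sub_nonneg.2 (cos_le_one v))
        (show 1 - cos v ≤ 1 / 2 by linarith)
      refine ex_r1g hN hJ (hM.t2 _ g (by linarith)) ?_ ?_ <;> rw [cos_two_pi_sub] <;> linarith
    · refine ex_r1g hN hJ (hM3.t3 _ (by linarith) g) ?_ (by linarith)
      rw [cos_two_pi_sub]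
      linarith

theorem nt_r1g (hN : 0 ≤ N) (hJ : 0 ≤ J) (hM : Y.Modu f N J) (hM3 : Y.Modu3 f N J) :
    ∀ e ∈ CF.nt, ∃ m4 m6 c : ℝ, e.2.1.Mem m4 ∧ e.2.2.1.Mem m6 ∧ e.2.2.2.Mem c ∧ 0 ≤ c ∧
      ∀ v : ℝ, 0 < v → v ≤ e.1 / 10000 → ‖f (2 * π - v)‖
        ≤ exp (N * (-(v ^ 2 / 2) + m4 * v ^ 4 + m6 * v ^ 6) + c * J * v ^ 4) := by
  have p0 := pi_gt_d6
  simp only [CF, List.forall_mem_cons, List.not_mem_nil, IsEmpty.forall_iff, implies_true, and_true]
  refine ⟨⟨_, _, _, mq_r1g 1 23, mq_r1g (-134) 99999, mem_zero, le_rfl, fun v h0 h1 => ?_⟩,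
    ⟨_, _, _, (mq_r1g 1 23).sub (mq_r1g 55 999), mq_r1g 778 99999, mq_r1g 5 3, by positivity,
      fun v h0 h1 => ?_⟩,
    ⟨_, _, _, (mq_r1g 1 23).sub (mq_r1g 55 999), mq_r1g 778 99999, mq_r1g 61 9, by positivity,
      fun v h0 h1 => ?_⟩⟩ <;> push_cast at h1 ⊢
  · have a1 := (cos_r1g (v := v) h0.le (by linarith)).1
    have a2 : v ^ 2 ≤ 1.65 := by nlinarith
    have a3 := mul_le_mul_of_nonneg_left a2 (show 0 ≤ v ^ 6 by positivity)
    have a4 : 0 ≤ v ^ 6 := by positivity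
    refine (ex_r1g (a' := v ^ 2 / 2 - v ^ 4 / 24 + 134 / 100000 * v ^ 6) hN hJ
      (ex0_r1g (hM.t1 _ (by linarith) (by linarith))) ?_ le_rfl).trans_eq (by congr 1; ring)
    rw [cos_two_pi_sub]
    unfold c8_r1g at a1
    linarith
  · have a1 := (cos_r1g (v := v) h0.le (by linarith)).1
    obtain ⟨a3, a4⟩ := low_r1g (v := v) h0.le (by linarith)
    have a5 := mul_self_le_mul_self a3 (a4.trans a1)
    have a6 := mul_self_le_mul_self ((a3.trans a4).trans a1)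
      (show 1 - cos v ≤ v ^ 2 / 2 by linarith [one_sub_sq_div_two_le_cos (x := v)])
    have a7 : 0 ≤ v ^ 6 := by positivity
    have a8 : 0 ≤ v ^ 8 := by positivity
    unfold c8_r1g at a1
    refine (ex_r1g (a' := v ^ 2 / 2 - (1 / 24 - 55 / 1000) * v ^ 4 - 778 / 100000 * v ^ 6)
      (b' := 5 / 4 * v ^ 4) hN hJ (hM.t2 _ (by linarith) (by linarith)) ?_ ?_).trans_eq
      (by congr 1; ring) <;> rw [cos_two_pi_sub] <;> linarith
  · have a1 := (cos_r1g (v := v) h0.le (by linarith)).1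
    obtain ⟨a3, a4⟩ := low_r1g (v := v) h0.le (by linarith)
    have a5 := mul_self_le_mul_self a3 (a4.trans a1)
    have a6 := mul_self_le_mul_self ((a3.trans a4).trans a1)
      (show 1 - cos v ≤ v ^ 2 / 2 by linarith [one_sub_sq_div_two_le_cos (x := v)])
    have a7 : 0 ≤ v ^ 6 := by positivity
    have a8 : 0 ≤ v ^ 8 := by positivity
    have a9 : 0 ≤ v ^ 4 := by positivity
    have p1 := pi_lt_d6
    unfold c8_r1g at a1
    rcases le_total 5.3 (2 * π - v) with g | g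
    · refine (ex_r1g (a' := v ^ 2 / 2 - (1 / 24 - 55 / 1000) * v ^ 4 - 778 / 100000 * v ^ 6)
        (b' := 61 / 10 * v ^ 4) hN hJ (hM.t2 _ g (by linarith)) ?_ ?_).trans_eq
        (by congr 1; ring) <;> rw [cos_two_pi_sub] <;> linarith
    · refine (ex_r1g (a' := v ^ 2 / 2 - (1 / 24 - 55 / 1000) * v ^ 4 - 778 / 100000 * v ^ 6)
        (b' := 61 / 10 * v ^ 4) hN hJ (hM3.t3 _ (by linarith) g) ?_ ?_).trans_eq
        (by congr 1; ring)
      · rw [cos_two_pi_sub]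
        linarith
      · nlinarith [sq_nonneg (v ^ 2 - 1.5704), sq_nonneg (v - 1.2531)]

end

theorem hyp_CF {f : ℝ → ℂ} {N K J : ℝ} (hN : 0 ≤ N) (hJ : 0 ≤ J) (hD : Y.Disc f N K J)
    (hM : Y.Modu f N J) (hM3 : Y.Modu3 f N J) : Hyp CF f N K J Y.A4 Y.B4 Y.A5 Y.B5 Y.A6 Y.B6 := by
  have dd := dI_mem.mul dI_mem
  refine ⟨?_, ?_, ?_, ?_, ?_, ?_, ?_, cub_r1g hN hJ hM hM3, lowE_r1g hN hJ hM hM3,
    topE_r1g hN hJ hM hM3, nt_r1g hN hJ hM hM3⟩
  · exact (((mem_nat 1).add ((mem_nat 3).mul dd)).mul (mq_r1g 1 1)).neg.congr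
      (by unfold Y.A4; push_cast; ring)
  · exact ((mem_nat 3).mul dI_mem).congr (by unfold Y.B4; push_cast; ring)
  · exact (((mem_nat 6).mul dd).mul dI_mem).neg.congr (by unfold Y.A5; push_cast; ring)
  · exact (((mem_nat 9).mul dd).sub (mem_nat 2)).congr (by unfold Y.B5; push_cast; ring)
  · exact (((mem_nat 1).sub (((mq_r1g 45 1).mul dd).mul dd)).add ((mq_r1g 15 1).mul dd)).congr
      (by unfold Y.A6; push_cast; ring)
  · exact ((((mem_nat 30).mul dd).mul dI_mem).sub ((mem_nat 15).mul dI_mem)).congr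
      (by unfold Y.B6; push_cast; ring)
  · refine ⟨Y.thE, fun t => 0.0003 + 0.00055 * t + 0.00005 * t ^ 2 + 0.0001 * t ^ 3,
      (Sem.cons (mq_r1g 45 99) (Sem.cons (mq_r1g 3 9) (Sem.cons (mq_r1g 21 99) (Sem.cons mem_zero
        (Sem.cons mem_zero (Sem.cons mem_zero (Sem.const (mq_r1g 22 99)))))))).congr
        fun u => by unfold Y.thE; push_cast; ring,
      (Sem.cons (mq_r1g 3 9999) (Sem.cons (mq_r1g 55 99999) (Sem.cons (mq_r1g 5 99999)
        (Sem.const (mq_r1g 1 9999))))).congr fun u => by push_cast; ring, fun t h0 h1 => ?_⟩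
    have e1 : mainG Y.A4 Y.B4 Y.A5 Y.B5 Y.A6 Y.B6 N K t = Complex.exp (Y.Wf N K 0 t) := by
      unfold mainG Y.Wf
      congr 1
      push_cast
      ring
    have e2 : (0.0003 + 0.00055 * t + 0.00005 * t ^ 2 + 0.0001 * t ^ 3) * t ^ 7 = Y.etaE t := by
      unfold Y.etaE
      ring
    have h2 : t ≤ 8 / 5 := by
      simp only [CF] at h1
      push_cast at h1
      linarith
    rw [e1, e2]
    exact hD t h0 h2

end Pool.Agent.Lib.MP_33650d_pr.RM
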