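import Mathlib

namespace Pool.Agent.Lib.MP_33650d_pr.RM
open MeasureTheory

/-- An interval in midpoint-radius form, in units of `2 ^ (-256)`. -/
structure Iv where
  m : ℤ
  r : ℕ

namespace Iv

def Mem (a : Iv) (x : ℝ) : Prop := |x * 2 ^ 256 - (a.m : ℝ)| ≤ (a.r : ℝ)

def add (a b : Iv) : Iv := ⟨a.m + b.m, a.r + b.r⟩
def neg (a : Iv) : Iv := ⟨-a.m, a.r⟩
def mul (a b : Iv) : Iv :=
  ⟨(a.m * b.m) >>> (256 : ℕ), (a.m.natAbs * b.r + (b.m.natAbs + b.r) * a.r) >>> (256 : ℕ) + 2⟩

instance : Add Iv := ⟨add⟩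
instance : Neg Iv := ⟨neg⟩
instance : Mul Iv := ⟨mul⟩
instance : Sub Iv := ⟨fun a b => add a (neg b)⟩

/-- The rational number `n / d`. -/
def rat (n : ℤ) (d : ℕ) : Iv := ⟨n * 2 ^ 256 / d, 1⟩
def nat (n : ℕ) : Iv := ⟨(n <<< 256 : ℕ), 0⟩
def zero : Iv := ⟨0, 0⟩
def hi (a : Iv) : ℤ := a.m + a.r
def lo (a : Iv) : ℤ := a.m - a.r
/-- The largest absolute value, as a point. -/
def mag (a : Iv) : Iv := ⟨(a.m.natAbs + a.r : ℕ), 0⟩
/-- The upper end, as a point. -/
def up (a : Iv) : Iv := ⟨a.hi, 0⟩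
/-- The lower end, as a point. -/
def dn (a : Iv) : Iv := ⟨a.lo, 0⟩
/-- The hull from the lower end of `a` to the upper end of `b`. -/
def hull (a b : Iv) : Iv := ⟨(a.lo + b.hi) >>> (1 : ℕ), (b.hi - a.lo).natAbs >>> (1 : ℕ) + 1⟩
/-- A symmetric interval. -/
def sym (a : Iv) : Iv := ⟨0, a.m.natAbs + a.r⟩
def isZ (a : Iv) : Bool := a.m == 0 && a.r == 0
def le (a b : Iv) : Bool := decide (a.hi ≤ b.lo)
/-- The real number at the midpoint. -/
noncomputable def val (a : Iv) : ℝ := a.m / 2 ^ 256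

theorem add_def (a b : Iv) : a + b = ⟨a.m + b.m, a.r + b.r⟩ := rfl
theorem neg_def (a : Iv) : -a = ⟨-a.m, a.r⟩ := rfl
theorem sub_def (a b : Iv) : a - b = a + -b := rfl
theorem mul_def (a b : Iv) : a * b =
  ⟨(a.m * b.m) >>> (256 : ℕ), (a.m.natAbs * b.r + (b.m.natAbs + b.r) * a.r) >>> (256 : ℕ) + 2⟩ := rfl

variable {a b : Iv} {x y : ℝ}

theorem Mem.add (ha : a.Mem x) (hb : b.Mem y) : (a + b).Mem (x + y) := by
  unfold Mem at *
  rw [add_def]
  push_cast
  rw [show (x + y) * 2 ^ 256 - (a.m + b.m) = (x * 2 ^ 256 - a.m) + (y * 2 ^ 256 - b.m) by ring]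
  exact (abs_add_le _ _).trans (add_le_add ha hb)

theorem Mem.neg (ha : a.Mem x) : (-a).Mem (-x) := by
  unfold Mem at *
  rw [neg_def]
  push_cast
  rwa [show -x * 2 ^ 256 - -(a.m : ℝ) = -(x * 2 ^ 256 - a.m) by ring, abs_neg]

theorem Mem.sub (ha : a.Mem x) (hb : b.Mem y) : (a - b).Mem (x - y) := by
  rw [sub_eq_add_neg x]
  exact ha.add hb.neg

theorem div_bd (z : ℤ) {d : ℕ} (hd : 0 < d) : |(z : ℝ) / d - ((z / d : ℤ) : ℝ)| ≤ 1 := by
  have h1 := Int.emod_nonneg z (show (d : ℤ) ≠ 0 by positivity)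
  have h2 := Int.emod_lt_of_pos z (show (0 : ℤ) < d by positivity)
  have h3 := Int.mul_ediv_add_emod z d
  have h4 : (0 : ℝ) < d := by positivity
  have e : (z : ℝ) / d - ((z / d : ℤ) : ℝ) = ((z % d : ℤ) : ℝ) / d := by
    have : (z : ℝ) = d * ((z / d : ℤ) : ℝ) + ((z % d : ℤ) : ℝ) := by exact_mod_cast h3.symm
    field_simp
    linarith
  have h5 : (0 : ℝ) ≤ ((z % d : ℤ) : ℝ) := by exact_mod_cast h1
  have h6 : ((z % d : ℤ) : ℝ) < d := by exact_mod_cast h2
  rw [e, abs_of_nonneg (by positivity), div_le_one h4]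
  exact h6.le

theorem nat_shift (n k : ℕ) : (n : ℝ) / 2 ^ k ≤ ((n >>> k : ℕ) : ℝ) + 1 := by
  have := div_bd (n : ℤ) (d := 2 ^ k) (by positivity)
  rw [Nat.shiftRight_eq_div_pow]
  have e : (((n : ℤ) / ((2 ^ k : ℕ) : ℤ) : ℤ) : ℝ) = ((n / 2 ^ k : ℕ) : ℝ) := by norm_cast
  rw [e] at this
  push_cast at this
  linarith [(abs_le.1 this).2]

theorem int_shift (z : ℤ) (k : ℕ) : |(z : ℝ) / 2 ^ k - ((z >>> k : ℤ) : ℝ)| ≤ 1 := by
  have := div_bd z (d := 2 ^ k) (by positivity)
  rw [Int.shiftRight_eq_div_pow]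
  push_cast at this ⊢
  exact this

theorem Mem.mul (ha : a.Mem x) (hb : b.Mem y) : (a * b).Mem (x * y) := by
  unfold Mem at *
  rw [mul_def]
  have h1 := int_shift (a.m * b.m) 256
  have h2 := nat_shift (a.m.natAbs * b.r + (b.m.natAbs + b.r) * a.r) 256
  push_cast at h1 h2 ⊢
  simp only [Nat.cast_natAbs, Int.cast_abs] at h2
  generalize ((a.m * b.m) >>> (256 : ℕ) : ℤ) = z at *
  generalize (a.m.natAbs * b.r + (b.m.natAbs + b.r) * a.r) >>> (256 : ℕ) = w at *
  have hs : (0 : ℝ) < 2 ^ 256 := by positivity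
  generalize (2 : ℝ) ^ 256 = s at *
  have e : x * y * s - z = ((a.m : ℝ) * (y * s - b.m) + (y * s) * (x * s - a.m)) / s
      + ((a.m : ℝ) * b.m / s - z) := by field_simp; ring
  have h3 : |y * s| ≤ |(b.m : ℝ)| + b.r := by
    have := abs_add_le (b.m : ℝ) (y * s - b.m)
    rw [add_sub_cancel] at this
    linarith
  have h4 : |(a.m : ℝ) * (y * s - b.m) + (y * s) * (x * s - a.m)|
      ≤ |(a.m : ℝ)| * b.r + (|(b.m : ℝ)| + b.r) * a.r := by
    refine (abs_add_le _ _).trans (add_le_add ?_ ?_)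
    · rw [abs_mul]
      exact mul_le_mul_of_nonneg_left hb (abs_nonneg _)
    · rw [abs_mul]
      exact mul_le_mul h3 ha (abs_nonneg _) (by positivity)
  rw [e]
  refine (abs_add_le _ _).trans ?_
  rw [abs_div, abs_of_pos hs]
  have := div_le_div_of_nonneg_right h4 hs.le
  linarith

theorem mem_rat (n : ℤ) {d : ℕ} (hd : 0 < d) : (rat n d).Mem (n / d) := by
  have := div_bd (n * 2 ^ 256) hd
  unfold Mem rat
  rw [Int.cast_mul, Int.cast_pow, Int.cast_ofNat] at this
  rwa [show (n : ℝ) / d * 2 ^ 256 = n * 2 ^ 256 / d by ring, Nat.cast_one]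

theorem mem_nat (n : ℕ) : (nat n).Mem n := by
  unfold Mem nat
  rw [Nat.shiftLeft_eq, Int.cast_natCast, Nat.cast_mul, Nat.cast_pow, Nat.cast_ofNat, sub_self,
    abs_zero, Nat.cast_zero]

theorem mem_zero : zero.Mem 0 := by simp [Mem, zero]

theorem mem_val (m : ℤ) : (⟨m, 0⟩ : Iv).Mem (val ⟨m, 0⟩) := by simp [Mem, val]

theorem Mem.le_hi (ha : a.Mem x) : x * 2 ^ 256 ≤ a.hi := by
  unfold Mem hi at *
  push_cast
  linarith [(abs_le.1 ha).2]

theorem Mem.lo_le (ha : a.Mem x) : (a.lo : ℝ) ≤ x * 2 ^ 256 := by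
  unfold Mem lo at *
  push_cast
  linarith [(abs_le.1 ha).1]

theorem Mem.le (ha : a.Mem x) (hb : b.Mem y) (h : le a b = true) : x ≤ y := by
  have h1 := ha.le_hi
  have h2 := hb.lo_le
  have h3 : (a.hi : ℝ) ≤ b.lo := by exact_mod_cast of_decide_eq_true h
  exact le_of_mul_le_mul_right (h1.trans (h3.trans h2)) (by positivity)

theorem Mem.le_up (ha : a.Mem x) : x ≤ a.up.val := by
  rw [val, le_div_iff₀ (by positivity)]
  exact ha.le_hi

theorem Mem.dn_le (ha : a.Mem x) : a.dn.val ≤ x := by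
  rw [val, div_le_iff₀ (by positivity)]
  exact ha.lo_le

theorem Mem.abs_le (ha : a.Mem x) : |x| ≤ a.mag.val := by
  unfold Mem at ha
  rw [val, le_div_iff₀ (by positivity), mag]
  have := abs_add_le (a.m : ℝ) (x * 2 ^ 256 - a.m)
  rw [add_sub_cancel, abs_mul, abs_of_pos (show (0 : ℝ) < 2 ^ 256 by positivity)] at this
  rw [Int.cast_natCast, Nat.cast_add, Nat.cast_natAbs, Int.cast_abs]
  linarith

theorem mem_up (a : Iv) : a.up.Mem a.up.val := mem_val _
theorem mem_dn (a : Iv) : a.dn.Mem a.dn.val := mem_val _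
theorem mem_mag (a : Iv) : a.mag.Mem a.mag.val := mem_val _

theorem Mem.hull (ha : a.Mem x) (hb : b.Mem y) {z : ℝ} (h1 : x ≤ z) (h2 : z ≤ y) :
    (hull a b).Mem z := by
  have a1 := ha.lo_le
  have a2 := hb.le_hi
  have hs : (0 : ℝ) < 2 ^ 256 := by positivity
  have a3 := mul_le_mul_of_nonneg_right h1 hs.le
  have a4 := mul_le_mul_of_nonneg_right h2 hs.le
  unfold Mem Iv.hull
  generalize a.lo = l at *
  generalize b.hi = u at *
  have a5 : l ≤ u := by exact_mod_cast (show (l : ℝ) ≤ u by linarith)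
  have a6 : (l + u) >>> (1 : ℕ) - (((u - l).natAbs >>> (1 : ℕ) + 1 : ℕ) : ℤ) ≤ l ∧
      u ≤ (l + u) >>> (1 : ℕ) + (((u - l).natAbs >>> (1 : ℕ) + 1 : ℕ) : ℤ) := by
    rw [Int.shiftRight_eq_div_pow, Nat.shiftRight_eq_div_pow]
    omega
  generalize (l + u) >>> (1 : ℕ) = c at *
  generalize (u - l).natAbs >>> (1 : ℕ) + 1 = r at *
  have a7 : (c : ℝ) - r ≤ l := by exact_mod_cast a6.1
  have a8 : (u : ℝ) ≤ c + r := by exact_mod_cast a6.2
  rw [_root_.abs_le]
  constructor <;> linarith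

theorem Mem.sym (ha : a.Mem x) (h : |y| ≤ |x|) : a.sym.Mem y := by
  have h1 := ha.abs_le
  rw [val, le_div_iff₀ (by positivity), mag] at h1
  unfold Mem Iv.sym
  have hs : (0 : ℝ) < 2 ^ 256 := by positivity
  simp only [Int.cast_zero, sub_zero, abs_mul, abs_of_pos hs]
  exact (mul_le_mul_of_nonneg_right h hs.le).trans (by exact_mod_cast h1)

theorem Mem.eq_zero (ha : a.Mem x) (h : a.isZ = true) : x = 0 := by
  simp only [isZ, Bool.and_eq_true, beq_iff_eq] at h
  unfold Mem at ha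
  rw [h.1, h.2, Int.cast_zero, Nat.cast_zero, sub_zero, abs_nonpos_iff] at ha
  exact (mul_eq_zero.1 ha).resolve_right (by positivity)

theorem Mem.congr (ha : a.Mem x) (h : x = y) : a.Mem y := h ▸ ha

end Iv

open Iv

/-- `F` is a polynomial function whose coefficients lie in the listed intervals. -/
def Sem : List Iv → (ℝ → ℝ) → Prop
  | [], F => ∀ u, F u = 0
  | a :: P, F => ∃ c G, a.Mem c ∧ Sem P G ∧ ∀ u, F u = c + u * G u

def padd : List Iv → List Iv → List Iv
  | [], Q => Q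
  | a :: P, [] => a :: P
  | a :: P, b :: Q => (a + b) :: padd P Q

def psm (c : Iv) : List Iv → List Iv
  | [] => []
  | a :: P => (if a.isZ then zero else c * a) :: psm c P

def pneg : List Iv → List Iv
  | [] => []
  | a :: P => (-a) :: pneg P

def psub (P Q : List Iv) : List Iv := padd P (pneg Q)

def psh (P : List Iv) : List Iv := zero :: P

def pshn : ℕ → List Iv → List Iv
  | 0, P => P
  | n + 1, P => zero :: pshn n P

def pmul : List Iv → List Iv → List Iv
  | [], _ => []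
  | a :: P, Q => if a.isZ then psh (pmul P Q) else padd (psm a Q) (psh (pmul P Q))

def ppow (P : List Iv) : ℕ → List Iv
  | 0 => [nat 1]
  | n + 1 => pmul P (ppow P n)

def pabs : List Iv → List Iv
  | [] => []
  | a :: P => a.mag :: pabs P

def psq : List Iv → List Iv
  | [] => []
  | a :: P => a :: zero :: psq P

/-- The value of a polynomial with point coefficients. -/
noncomputable def pval : List Iv → ℝ → ℝ
  | [], _ => 0
  | a :: P, u => a.val + u * pval P u

def peval : List Iv → Iv → Iv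
  | [], _ => zero
  | a :: P, v => a + v * peval P v

variable {P Q : List Iv} {F G : ℝ → ℝ} {a : Iv} {c : ℝ}

theorem Sem.congr (h : Sem P F) (e : ∀ u, F u = G u) : Sem P G := by
  rwa [← show F = G from funext e]

theorem Sem.nil : Sem [] fun _ => 0 := fun _ => rfl

theorem Sem.cons (ha : a.Mem c) (h : Sem P F) : Sem (a :: P) fun u => c + u * F u :=
  ⟨c, F, ha, h, fun _ => rfl⟩

theorem Sem.const (ha : a.Mem c) : Sem [a] fun _ => c :=
  (Sem.cons ha Sem.nil).congr fun u => by simp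

theorem Sem.add (h1 : Sem P F) (h2 : Sem Q G) : Sem (padd P Q) fun u => F u + G u := by
  induction P generalizing Q F G with
  | nil => exact h2.congr fun u => by simp [h1 u]
  | cons a P ih =>
    cases Q with
    | nil => exact h1.congr fun u => by simp [h2 u]
    | cons b Q =>
      obtain ⟨c, F', ha, hF, eF⟩ := h1
      obtain ⟨d, G', hb, hG, eG⟩ := h2
      exact (Sem.cons (ha.add hb) (ih hF hG)).congr fun u => by rw [eF, eG]; ring

theorem Sem.sm (ha : a.Mem c) (h : Sem P F) : Sem (psm a P) fun u => c * F u := by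
  induction P generalizing F with
  | nil => exact fun u => by simp [h u]
  | cons b P ih =>
    obtain ⟨d, F', hb, hF, eF⟩ := h
    have : (if b.isZ then zero else a * b).Mem (c * d) := by
      split_ifs with hz
      · rw [hb.eq_zero hz, mul_zero]
        exact mem_zero
      · exact ha.mul hb
    exact (Sem.cons this (ih hF)).congr fun u => by rw [eF]; ring

theorem Sem.neg (h : Sem P F) : Sem (pneg P) fun u => -F u := by
  induction P generalizing F with
  | nil => exact fun u => by simp [h u]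
  | cons b P ih =>
    obtain ⟨d, F', hb, hF, eF⟩ := h
    exact (Sem.cons hb.neg (ih hF)).congr fun u => by rw [eF]; ring

theorem Sem.sub (h1 : Sem P F) (h2 : Sem Q G) : Sem (psub P Q) fun u => F u - G u :=
  (h1.add h2.neg).congr fun u => by ring

theorem Sem.sh (h : Sem P F) : Sem (psh P) fun u => u * F u :=
  (Sem.cons mem_zero h).congr fun u => by ring

theorem Sem.shn (n : ℕ) (h : Sem P F) : Sem (pshn n P) fun u => u ^ n * F u := by
  induction n with
  | zero => exact h.congr fun u => by simp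
  | succ n ih => exact (Sem.cons mem_zero ih).congr fun u => by ring

theorem Sem.mul (h1 : Sem P F) (h2 : Sem Q G) : Sem (pmul P Q) fun u => F u * G u := by
  induction P generalizing F with
  | nil => exact fun u => by simp [h1 u]
  | cons a P ih =>
    obtain ⟨c, F', ha, hF, eF⟩ := h1
    unfold pmul
    split_ifs with hz
    · exact (ih hF).sh.congr fun u => by rw [eF, ha.eq_zero hz]; ring
    · exact ((h2.sm ha).add (ih hF).sh).congr fun u => by rw [eF]; ring

theorem Sem.one : Sem [nat 1] fun _ => 1 := (Sem.const (mem_nat 1)).congr fun _ => by simp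

theorem Sem.pow (h : Sem P F) (n : ℕ) : Sem (ppow P n) fun u => F u ^ n := by
  induction n with
  | zero => exact Sem.one.congr fun u => by simp
  | succ n ih => exact (h.mul ih).congr fun u => by ring

theorem Sem.sq (h : Sem P F) : Sem (psq P) fun u => F (u ^ 2) := by
  induction P generalizing F with
  | nil => exact fun u => h _
  | cons a P ih =>
    obtain ⟨c, F', ha, hF, eF⟩ := h
    exact (Sem.cons ha (Sem.cons mem_zero (ih hF))).congr fun u => by rw [eF]; ring

theorem Sem.pabs (P : List Iv) : Sem (pabs P) (pval (pabs P)) := by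
  induction P with
  | nil => exact fun _ => rfl
  | cons a P ih => exact Sem.cons (mem_mag a) ih

theorem Sem.abs_le (h : Sem P F) {u : ℝ} (hu : 0 ≤ u) : |F u| ≤ pval (RM.pabs P) u := by
  induction P generalizing F with
  | nil => simp [h u, RM.pabs, pval]
  | cons a P ih =>
    obtain ⟨c, F', ha, hF, eF⟩ := h
    rw [eF, RM.pabs, pval]
    refine (abs_add_le _ _).trans (add_le_add ha.abs_le ?_)
    rw [abs_mul, abs_of_nonneg hu]
    exact mul_le_mul_of_nonneg_left (ih hF) hu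

theorem Sem.eval (h : Sem P F) {v : Iv} {u : ℝ} (hv : v.Mem u) : (peval P v).Mem (F u) := by
  induction P generalizing F with
  | nil => exact mem_zero.congr (h u).symm
  | cons a P ih =>
    obtain ⟨c, F', ha, hF, eF⟩ := h
    exact (ha.add (hv.mul (ih hF))).congr (eF u).symm

/-- The pairing of coefficients with moments. -/
def dot : List Iv → List Iv → Iv
  | a :: P, b :: M => if a.isZ then dot P M else a * b + dot P M
  | _, _ => zero

/-- The listed intervals contain the integrals of `v ^ m * φ`, divided by `s`. -/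
def Mo (μ : Measure ℝ) (s : ℝ) (v : ℝ → ℝ) : List Iv → (ℝ → ℝ) → Prop
  | [], _ => True
  | b :: M, φ => Integrable φ μ ∧ (∃ c, b.Mem c ∧ ∫ τ, φ τ ∂μ = s * c) ∧
      Mo μ s v M fun τ => v τ * φ τ

theorem Sem.dot {μ : Measure ℝ} {s : ℝ} {v φ : ℝ → ℝ} {M : List Iv} (h : Sem P F)
    (hM : Mo μ s v M φ) (hl : P.length ≤ M.length) : Integrable (fun τ => F (v τ) * φ τ) μ ∧
      ∃ c, (dot P M).Mem c ∧ ∫ τ, F (v τ) * φ τ ∂μ = s * c := by
  induction P generalizing F M φ with
  | nil =>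
    have : (fun τ => F (v τ) * φ τ) = fun _ => 0 := funext fun τ => by simp [h _]
    rw [this]
    refine ⟨integrable_zero _ _ _, 0, ?_, by simp⟩
    cases M <;> exact mem_zero
  | cons a P ih =>
    obtain ⟨c, F', ha, hF, eF⟩ := h
    cases M with
    | nil => simp at hl
    | cons b M =>
      obtain ⟨i1, ⟨d, hb, ed⟩, hM⟩ := hM
      obtain ⟨i2, e, h2, ee⟩ := ih hF hM (by simpa using hl)
      have : (fun τ => F (v τ) * φ τ) = fun τ => c * φ τ + F' (v τ) * (v τ * φ τ) :=
        funext fun τ => by rw [eF]; ring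
      rw [this]
      refine ⟨(i1.const_mul c).add i2, c * d + e, ?_, ?_⟩
      · rw [RM.dot]
        split_ifs with hz
        · rwa [ha.eq_zero hz, zero_mul, zero_add]
        · exact (ha.mul hb).add h2
      · rw [integral_add (i1.const_mul c) i2, integral_const_mul, ed, ee]
        ring

/-- An upper bound for the inverse. -/
def Iv.invUp (a : Iv) : Iv := ⟨2 ^ 512 / a.lo + 1, 0⟩

theorem Iv.Mem.inv_le {x : ℝ} (ha : a.Mem x) (h0 : 0 < a.lo) : x⁻¹ ≤ a.invUp.val := by
  have h1 := ha.lo_le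
  obtain ⟨n, hn⟩ := Int.eq_ofNat_of_zero_le h0.le
  have h2 := div_bd (2 ^ 512) (d := n) (by omega)
  have h3 : (0 : ℝ) < n := by exact_mod_cast (show 0 < n by omega)
  rw [val, invUp, hn, Int.cast_add, Int.cast_one, le_div_iff₀ (by positivity)]
  rw [hn, Int.cast_natCast] at h1
  rw [Int.cast_pow, Int.cast_ofNat, show (2 : ℝ) ^ 512 = 2 ^ 256 * 2 ^ 256 by rw [← pow_add]] at h2
  have hs : (0 : ℝ) < 2 ^ 256 := by positivity
  generalize (2 : ℝ) ^ 256 = s at *
  have hx : 0 < x := (mul_pos_iff_of_pos_right hs).1 (h3.trans_le h1)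
  have h4 : x⁻¹ * s ≤ s * s / n := by
    rw [le_div_iff₀ h3, inv_mul_eq_div, div_mul_eq_mul_div, div_le_iff₀ hx]
    nlinarith
  linarith [(_root_.abs_le.1 h2).2]

def sqn : ℕ → Iv → Iv
  | 0, a => a
  | k + 1, a => sqn k (a * a)

theorem mem_sqn (k : ℕ) {x : ℝ} (ha : a.Mem x) : (sqn k a).Mem (x ^ 2 ^ k) := by
  induction k generalizing a x with
  | zero => simpa [sqn] using ha
  | succ k ih => exact (ih (ha.mul ha)).congr (by ring)

/-- An upper bound for `exp (-y)`. -/
def expNeg (y : Iv) : Iv := (sqn 14 (nat 1 + y * rat 1 16384)).invUp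

def expOk (y : Iv) : Bool := decide (0 < (sqn 14 (nat 1 + y * rat 1 16384)).lo)

theorem exp_neg_le {y : Iv} {x : ℝ} (hy : y.Mem x) (hx : 0 ≤ x) (h : expOk y = true) :
    Real.exp (-x) ≤ (expNeg y).val := by
  have h1 := mem_sqn 14 ((mem_nat 1).add (hy.mul (mem_rat 1 (d := 16384) (by norm_num))))
  refine le_trans ?_ (h1.inv_le (of_decide_eq_true h))
  rw [Real.exp_neg]
  refine inv_anti₀ (by positivity) ?_
  have h2 : Real.exp x = Real.exp (x / 16384) ^ 2 ^ 14 := by
    rw [← Real.exp_nat_mul]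
    congr 1
    push_cast
    ring
  rw [h2]
  refine pow_le_pow_left₀ (by positivity) ?_ _
  have := Real.add_one_le_exp (x / 16384)
  push_cast
  linarith

end Pool.Agent.Lib.MP_33650d_pr.RM
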