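import Pool.Agent.Lib.MP_33650d_pr.X.R1E

namespace Pool.Agent.Lib.MP_33650d_pr.RM
open MeasureTheory Real Set Iv

/-- The contribution of the frequency `h τ`. -/
noncomputable def lowF (f : ℝ → ℂ) (h x τ : ℝ) : ℝ := kN (h * τ) (τ * x) (f (h * τ)) / τ

/-- A bound for the contribution of the frequency `2 π - h τ`. -/
noncomputable def topF (f : ℝ → ℂ) (h τ : ℝ) : ℝ :=
  (h * τ) ^ 2 / (4 * π) * ((1 + dd (h * τ) ^ 2 / 2) * ‖f (2 * π - h * τ)‖) / τ

theorem core_fold (ν : Measure ℝ) [IsProbabilityMeasure ν] (h1 : Integrable (fun y : ℝ => y) ν)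
    {h : ℝ} (hh : 0 < h) (x : ℝ) {bm e : ℝ → ℝ} {c0 c : ℝ} (ib : Integrable bm mu0)
    (eb : ∫ τ, bm τ ∂mu0 = √(π / 2) * c0) (he : Er e c)
    (hlo : ∀ τ, 0 < τ → h * τ < π →
      lowF (charFun ν) h x τ + topF (charFun ν) h τ ≤ π * sg x τ + bm τ + e τ)
    (hhi : ∀ τ, π ≤ h * τ → 0 ≤ π * sg x τ + bm τ + e τ) :
    ν.real (Iic (x / h)) - Phi x ≤ (c0 + c) / √(2 * π) := by
  have hp := pi_pos
  refine (r1_fold ν h1 hh x (fun τ => (bm τ + e τ) / π) ((ib.add he.1).div_const π)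
    (fun τ h0 hτ => ?_) fun τ hτ => ?_).trans ?_
  · have t0 : 0 < h * τ := mul_pos hh h0
    have a1 := kI_low (charFun ν) (x / h) t0
    have a2 := div_le_div_of_nonneg_right (kI_top (charFun ν) (x / h) t0) h0.le
    have a3 := hlo τ h0 hτ
    rw [show h * τ * (x / h) = τ * x by field_simp] at a1
    rw [lowF, topF, ← a1] at a3
    generalize kI (charFun ν) (x / h) (h * τ) = A at *
    generalize kI (charFun ν) (x / h) (2 * π - h * τ) = B at *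
    rw [show h * τ / 2 * A / τ = h / 2 * A by field_simp] at a3
    rw [show h * τ / 2 * B / τ = h / 2 * B by field_simp] at a2
    rw [show h / (2 * π) * (A + B) = (h / 2 * A + h / 2 * B) / π by field_simp,
      show sg x τ + (bm τ + e τ) / π = (π * sg x τ + bm τ + e τ) / π by field_simp; ring]
    exact div_le_div_of_nonneg_right (by linarith) hp.le
  · rw [show sg x τ + (bm τ + e τ) / π = (π * sg x τ + bm τ + e τ) / π by field_simp; ring]
    exact div_nonneg (hhi τ hτ) hp.le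
  · rw [integral_div, integral_add ib he.1, eb]
    refine (div_le_div_of_nonneg_right (add_le_add le_rfl he.2.2) hp.le).trans_eq ?_
    have h0 : 0 < √(π / 2) := by positivity
    have h2 : √(π / 2) ^ 2 = π / 2 := sq_sqrt (by positivity)
    rw [show 2 * π = 2 ^ 2 * (π / 2) by ring, sqrt_mul (by norm_num), sqrt_sq zero_le_two]
    generalize √(π / 2) = s at *
    field_simp
    rw [h2]
    ring

/-- The main term as a function of the frequency. -/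
noncomputable def mmF (h x : ℝ) (γ : ℝ → ℂ) (τ : ℝ) : ℝ :=
  gw 1 τ * ((bP (h * τ) * ∑ k ∈ Finset.range 6, γ τ ^ k / (k.factorial : ℂ)).re * sin (τ * x)
    - (bP (h * τ) * ∑ k ∈ Finset.range 6, γ τ ^ k / (k.factorial : ℂ)).im * cos (τ * x)) / τ

/-- The tables of Hermite polynomials. -/
def heT (X : Iv) (n : ℕ) : List (Iv × Iv) := genH X n 0 (nat 1) (nat 1)

theorem main_int {ε η c : ℝ} {γ : ℝ → ℂ} {E O : ℝ → ℝ} (x : ℝ)
    (hY : ∀ τ : ℝ,
      (bP (ε * η * τ) * ∑ k ∈ Finset.range 6, γ τ ^ k / (k.factorial : ℂ)).re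
        = 1 + ε ^ 2 * τ ^ 2 * E (τ ^ 2) ∧
      (bP (ε * η * τ) * ∑ k ∈ Finset.range 6, γ τ ^ k / (k.factorial : ℂ)).im
        = -(ε * τ * (η / 2 + c * τ ^ 2)) + ε ^ 2 * τ ^ 2 * (ε * τ * O (τ ^ 2)))
    (i1 : Integrable (fun τ => E (τ ^ 2) * (τ ^ 1 * gw 1 τ * sin (τ * x))) mu0)
    (i2 : Integrable (fun τ => O (τ ^ 2) * (τ ^ 2 * gw 1 τ * cos (τ * x))) mu0) :
    ∃ bm : ℝ → ℝ, Integrable bm mu0 ∧ (∀ τ, 0 < τ → mmF (ε * η) x γ τ = π * sg x τ + bm τ) ∧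
      ∫ τ, bm τ ∂mu0 = √(π / 2) * (ε * ((η / 2 + c * (1 - x ^ 2)) * exp (-(x ^ 2 / 2))))
        + ε ^ 2 * ∫ τ, E (τ ^ 2) * (τ ^ 1 * gw 1 τ * sin (τ * x)) ∂mu0
        - ε ^ 3 * ∫ τ, O (τ ^ 2) * (τ ^ 2 * gw 1 τ * cos (τ * x)) ∂mu0 := by
  have j0 : Integrable _ mu0 := ((gc_int x 0).const_mul (ε * η / 2)).integrableOn
  have j2 : Integrable _ mu0 := ((gc_int x 2).const_mul (ε * c)).integrableOn
  have j3 := i1.const_mul (ε ^ 2)
  have j4 := i2.const_mul (ε ^ 3)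
  refine ⟨_, ((j0.fun_add j2).fun_add j3).sub' j4, fun τ hτ => ?_, ?_⟩
  · rw [mmF, (hY τ).1, (hY τ).2, sg, ← gw_one]
    field_simp
    ring
  · rw [integral_sub ((j0.fun_add j2).fun_add j3) j4, integral_add (j0.fun_add j2) j3,
      integral_add j0 j2, integral_const_mul, integral_const_mul, integral_const_mul,
      integral_const_mul]
    have g2 := (gc_gs_he x 1).1
    have g0 := gc_zero x
    simp only [he, mul_one, Nat.cast_zero, mul_zero, zero_add] at g2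
    rw [g0] at g2
    unfold gc at g0 g2
    rw [g0, g2, neg_div]
    ring

theorem main_near {P Q : List Iv} {E O : ℝ → ℝ} (hE : Sem P E) (hO : Sem Q O) {X : Iv} {x : ℝ}
    (hX : X.Mem (x ^ 2)) {n : ℕ} (h1 : P.length ≤ n) (h2 : Q.length ≤ n) :
    Integrable (fun τ => E (τ ^ 2) * (τ ^ 1 * gw 1 τ * sin (τ * x))) mu0 ∧
    Integrable (fun τ => O (τ ^ 2) * (τ ^ 2 * gw 1 τ * cos (τ * x))) mu0 ∧
    ∃ g2 g3, (dot P ((heT X n).map Prod.fst)).Mem g2 ∧ (dot Q ((heT X n).map Prod.snd)).Mem g3 ∧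
      ∫ τ, E (τ ^ 2) * (τ ^ 1 * gw 1 τ * sin (τ * x)) ∂mu0
        = √(π / 2) * (x * exp (-(x ^ 2 / 2)) * g2) ∧
      ∫ τ, O (τ ^ 2) * (τ ^ 2 * gw 1 τ * cos (τ * x)) ∂mu0
        = √(π / 2) * (exp (-(x ^ 2 / 2)) * g3) := by
  obtain ⟨m1, m2⟩ := genH_mo hX n 0 ((mem_nat 1).congr (by simp [he]))
    ((mem_nat 1).congr (by simp [he]))
  obtain ⟨i1, g2, a1, e1⟩ := hE.dot m1 (by simpa [genH_length] using h1)
  obtain ⟨i2, g3, a2, e2⟩ := hO.dot m2 (by simpa [genH_length] using h2)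
  refine ⟨i1, i2, g2, g3, a1, a2, e1.trans ?_, e2.trans ?_⟩ <;> rw [gc_zero, neg_div] <;> ring

theorem gw_anti {l l' : ℝ} (h : l ≤ l') (τ : ℝ) : gw l' τ ≤ gw l τ :=
  exp_le_exp.2 (by nlinarith [sq_nonneg τ])

theorem Sem.cont {P : List Iv} {F : ℝ → ℝ} (h : Sem P F) : Continuous F := by
  induction P generalizing F with
  | nil => exact (show F = fun _ => 0 from funext h) ▸ continuous_const
  | cons a P ih =>
    obtain ⟨c, G, -, hG, e⟩ := h
    have := ih hG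
    rw [show F = fun u => c + u * G u from funext e]
    fun_prop

theorem main_far {P M : List Iv} {E : ℝ → ℝ} (hE : Sem P E) {l : ℝ} (hl : l ≤ 1) (m : ℕ)
    (hM : Mo mu0 √(π / 2) (fun τ => τ) M (gi l 0))
    (h1 : (pshn m (psq (pabs P))).length ≤ M.length) {g : ℝ → ℝ} (hg : Continuous g)
    (hb : ∀ τ, |g τ| ≤ 1) : Integrable (fun τ => E (τ ^ 2) * (τ ^ m * gw 1 τ * g τ)) mu0 ∧
    ∃ c, (dot (pshn m (psq (pabs P))) M).Mem c ∧
      |∫ τ, E (τ ^ 2) * (τ ^ m * gw 1 τ * g τ) ∂mu0| ≤ √(π / 2) * c := by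
  obtain ⟨c, hc, i, -, e⟩ := Er.dot ((Sem.pabs P).sq.shn m) hM h1 fun τ hτ =>
    mul_nonneg (mul_nonneg (pow_nonneg hτ.le m) (pval_nonneg P (sq_nonneg τ))) (gi_nonneg _ _ _)
  have hb : ∀ᵐ τ ∂mu0, ‖E (τ ^ 2) * (τ ^ m * gw 1 τ * g τ)‖
      ≤ τ ^ m * pval (pabs P) (τ ^ 2) * gi l 0 τ :=
    ae_restrict_of_forall_mem measurableSet_Ioi fun τ hτ => by
      have t0 : 0 ≤ τ ^ m := pow_nonneg (le_of_lt hτ) m
      rw [norm_eq_abs, abs_mul, abs_mul, abs_of_nonneg (mul_nonneg t0 (gw_pos _ _).le),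
        gi_of l hτ, mul_comm (τ ^ m) (pval _ _), mul_assoc (pval _ _)]
      exact mul_le_mul (hE.abs_le (sq_nonneg τ)) ((mul_le_of_le_one_right
        (mul_nonneg t0 (gw_pos _ _).le) (hb τ)).trans
        (mul_le_mul_of_nonneg_left (gw_anti hl τ) t0))
        (mul_nonneg (mul_nonneg t0 (gw_pos _ _).le) (abs_nonneg _)) (pval_nonneg P (sq_nonneg τ))
  have := hE.cont
  have := gw_cont 1
  exact ⟨i.mono' (Continuous.aestronglyMeasurable (by fun_prop)) hb, c, hc,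
    (norm_integral_le_of_norm_le i hb).trans e⟩

end Pool.Agent.Lib.MP_33650d_pr.RM
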