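import Pool.Agent.Lib.MP_33650d_pr.X.R1D

namespace Pool.Agent.Lib.MP_33650d_pr.RM
open MeasureTheory Real Set Iv

/-- The positive part of the upper end, as a point. -/
def Iv.pos (a : Iv) : Iv := ⟨max a.hi 0, 0⟩

theorem Iv.mem_pos (a : Iv) : a.pos.Mem a.pos.val := mem_val _

theorem Iv.pos_nonneg (a : Iv) : 0 ≤ a.pos.val :=
  div_nonneg (by exact_mod_cast le_max_right _ _) (by positivity)

theorem Iv.Mem.le_pos {a : Iv} {x : ℝ} (h : a.Mem x) : x ≤ a.pos.val :=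
  h.le_up.trans (div_le_div_of_nonneg_right (by exact_mod_cast le_max_left _ _) (by positivity))

theorem mem_ratn (n : ℕ) {d : ℕ} (hd : 0 < d) : (rat n d).Mem ((n : ℝ) / d) :=
  (mem_rat n hd).congr (by simp)

theorem mem_r1 {d : ℕ} (hd : 0 < d) : (rat 1 d).Mem (1 / (d : ℝ)) := (mem_rat 1 hd).congr (by simp)

/-- The test that a rate is admissible. -/
def rateOk (P : List Iv) (V : Iv) (r : ℕ) : Bool :=
  le (nat 2 * ((peval P V).pos * V) + sqn 1 (rat 10000 r)) (nat 1)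

theorem rate_le {P : List Iv} {F : ℝ → ℝ} (h : Sem P F) {V : Iv} {v : ℝ} (hv : V.Mem v)
    (h0 : 0 ≤ v) {r : ℕ} (hr : 0 < r) (hk : rateOk P V r = true) :
    F v * v ≤ (1 - ((10000 : ℕ) / r : ℝ) ^ 2) / 2 := by
  have h1 := (((mem_nat 2).mul ((mem_pos _).mul hv)).add (mem_sqn 1 (mem_ratn 10000 hr))).le
    (mem_nat 1) hk
  have h2 := mul_le_mul_of_nonneg_right (h.eval hv).le_pos h0
  norm_num at h1 ⊢
  linarith

theorem gw_mul_le {l a τ : ℝ} (h : a ≤ (1 - l) / 2 * τ ^ 2) : gw 1 τ * exp a ≤ gw l τ := by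
  rw [gw, gw, ← exp_add]
  exact exp_le_exp.2 (by linarith)

def d4I : Iv := rat 7 10000
def d3I : Iv := rat 37 10000

theorem dd_pi {t : ℝ} (h0 : 0 < t) (h1 : t ≤ π) : t / 6 ≤ dd t ∧
    dd t ≤ t / 6 + 37 / 10000 * t ^ 3 ∧ dd t ^ 2 / 2 ≤ t ^ 2 / 72 + 7 / 10000 * t ^ 4 := by
  have h2 : π ^ 2 ≤ 10 := by nlinarith [pi_lt_d2, pi_pos]
  exact dd_bd h0 h1 le_rfl (by linarith) (by linarith)

namespace Bx

variable {B : Bx} {C : Cfg} {f : ℝ → ℂ} {ε η j k N K J a4 b4 a5 b5 a6 b6 : ℝ}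

def T1 (B : Bx) : Iv := hull zero (nd B.e1 * nd B.n1 * nd B.t1)
def zz (B : Bx) (C : Cfg) : Iv :=
  (B.jI * peval (pabs C.th) B.T1 + B.nI * sqn 2 B.T1 * peval (pabs C.et) B.T1).pos
def RR (B : Bx) (C : Cfg) : Iv := (B.zz C * (nd B.e1 * (nd B.t1 * nd B.t1 * nd B.t1))).pos
def KE (B : Bx) (C : Cfg) : List Iv :=
  pmul [nat 1, zero, B.hI * B.hI * rat 1 24] [nat 1, zero, zero, B.eI * B.zz C * rat 1 2, zero, zero,
    sqn 1 (B.eI * B.zz C) * peval [rat 1 6, rat 1 24, rat 1 120, rat 1 720, rat 1 5040,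
      rat 21 40320] (B.RR C)]
def P1a (B : Bx) (C : Cfg) : List Iv := pshn 2 (pmul (B.KE C) (pscale B.hI (pabs C.th)))
def P3a (B : Bx) (C : Cfg) : List Iv := psm (B.nI * B.nI * B.nI * (B.hI * B.hI))
  (pshn 6 (pmul (B.KE C) (pscale B.hI (pabs C.et))))
def discOk (B : Bx) (C : Cfg) : Bool :=
  le (B.RR C) (nat 3) && decide ((B.P1a C).length ≤ 50) && decide ((B.P3a C).length ≤ 50)

theorem disc_er (h : B.In ε η j N J) (o : B.Ok0 C ε η) (hy : Hyp C f N K J a4 b4 a5 b5 a6 b6)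
    (hk : B.discOk C = true) : ∃ e c1 c3, (dot (B.P1a C) B.ML).Mem c1 ∧
      (dot (B.P3a C) B.ML).Mem c3 ∧ Er e (ε * j * c1 + ε ^ 3 * c3) ∧ ∀ τ, 0 < τ → B.good ε τ →
      ‖mainG a4 b4 a5 b5 a6 b6 N K (ε * η * τ)‖ ≤ gw B.l1 τ → ∀ ψ, kN (ε * η * τ) ψ
        (f (ε * η * τ) - mainG a4 b4 a5 b5 a6 b6 N K (ε * η * τ)) / τ ≤ e τ := by
  simp only [discOk, Bool.and_eq_true, decide_eq_true_eq] at hk
  obtain ⟨⟨k1, k2⟩, k3⟩ := hk
  obtain ⟨θ, ζ, s1, s2, hd⟩ := hy.disc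
  have e0 := h.e
  have n0 := h.n
  have j0 := h.jn
  have z0 := pos_nonneg (B.jI * peval (pabs C.th) B.T1 + B.nI * sqn 2 B.T1 * peval (pabs C.et) B.T1)
  have R0 := pos_nonneg (B.zz C * (nd B.e1 * (nd B.t1 * nd B.t1 * nd B.t1)))
  have mz : (B.zz C).Mem (B.zz C).val := mem_pos _
  have mR : (B.RR C).Mem (B.RR C).val := mem_pos _
  have R3 := mR.le (mem_nat 3) k1
  have R1 : (B.zz C).val * (B.e1 / 10000 * (B.t1 / 10000) ^ 3) ≤ (B.RR C).val :=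
    ((mz.mul ((nd_mem B.e1).mul (((nd_mem B.t1).mul (nd_mem B.t1)).mul (nd_mem B.t1)))).congr
      (by ring)).le_pos
  change 0 ≤ (B.zz C).val at z0
  change 0 ≤ (B.RR C).val at R0
  have g3 := (Sem.cons (mem_r1 (d := 6) (by norm_num)) (Sem.cons (mem_r1 (d := 24) (by norm_num))
    (Sem.cons (mem_r1 (d := 120) (by norm_num)) (Sem.cons (mem_r1 (d := 720) (by norm_num))
    (Sem.cons (mem_r1 (d := 5040) (by norm_num))
    (Sem.const (mem_ratn 21 (d := 40320) (by norm_num)))))))).eval mR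
  have hz := h.eI.mul mz
  have sK : Sem (B.KE C) fun τ => (1 + (ε * η * τ) ^ 2 / 24) * (1 + ε * (B.zz C).val * τ ^ 3 / 2
      + (ε * (B.zz C).val * τ ^ 3) ^ 2 * (1 / 6 + (B.RR C).val * (1 / 24 + (B.RR C).val * (1 / 120
      + (B.RR C).val * (1 / 720 + (B.RR C).val * (1 / 5040 + (B.RR C).val * (21 / 40320))))))) :=
    ((Sem.cons (mem_nat 1) (Sem.cons mem_zero (Sem.const ((h.hI.mul h.hI).mul
      (mem_r1 (d := 24) (by norm_num)))))).mul (Sem.cons (mem_nat 1) (Sem.cons mem_zero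
      (Sem.cons mem_zero (Sem.cons (hz.mul (mem_r1 (d := 2) (by norm_num))) (Sem.cons mem_zero
      (Sem.cons mem_zero (Sem.const ((mem_sqn 1 hz).mul g3))))))))).congr fun τ => by
        push_cast
        ring
  generalize (B.RR C).val = R at *
  have p1 := fun τ (h0 : 0 < τ) => pval_nonneg C.th (show 0 ≤ ε * η * τ by positivity)
  have p2 := fun τ (h0 : 0 < τ) => pval_nonneg C.et (show 0 ≤ ε * η * τ by positivity)
  obtain ⟨c1, m1, r1⟩ := Er.dot ((sK.mul ((Sem.pabs C.th).scale h.hI)).shn 2) o.ml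
    (k2.trans o.mlen) fun τ h0 => by have := p1 τ h0; have := o.ph0 τ; positivity
  obtain ⟨c3, m3, r3⟩ := Er.dot (((sK.mul ((Sem.pabs C.et).scale h.hI)).shn 6).sm
    (((h.nI.mul h.nI).mul h.nI).mul (h.hI.mul h.hI))) o.ml
    (k3.trans o.mlen) fun τ h0 => by have := p2 τ h0; have := o.ph0 τ; positivity
  refine ⟨_, c1, c3, m1, m3, (r1.mul (mul_nonneg e0.le j0)).add (r3.mul (pow_nonneg e0.le 3)),
    fun τ h0 hg hG ψ => ?_⟩
  have t0 : 0 < ε * η * τ := by positivity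
  have t1 := o.g3 τ h0 hg
  have mt : B.T1.Mem (ε * η * τ) := mem_zero.hull (((nd_mem B.e1).mul (nd_mem B.n1)).mul
    (nd_mem B.t1)) t0.le (by
      have := mul_le_mul (o.g2 τ h0 hg) h.n1 n0.le (by positivity)
      linarith)
  have a1 : j * pval (pabs C.th) (ε * η * τ) + η * (ε * η * τ) ^ 4 * pval (pabs C.et) (ε * η * τ)
      ≤ (B.zz C).val := ((h.jI.mul ((Sem.pabs C.th).eval mt)).add ((h.nI.mul (mem_sqn 2 mt)).mul
        ((Sem.pabs C.et).eval mt))).le_pos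
  have a2 := (le_abs_self _).trans (s1.abs_le t0.le)
  have a3 := (le_abs_self _).trans (s2.abs_le t0.le)
  have a8 := p1 τ h0
  have a9 := p2 τ h0
  have a10 := kN_le ψ (f (ε * η * τ) - mainG a4 b4 a5 b5 a6 b6 N K (ε * η * τ))
    (K := 1 + (ε * η * τ) ^ 2 / 24) (by positivity) (kK_quad t0 (t1.trans o.T0.le))
  have a7 := hd _ t0 t1
  have eJ : (ε * η * τ) ^ 3 * J = ε * j * τ ^ 3 := by rw [← h.J]; ring
  have eN : (ε * η * τ) ^ 7 * N = ε * η * τ ^ 3 * (ε * η * τ) ^ 4 := by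
    linear_combination (ε * η) ^ 5 * τ ^ 7 * h.N
  rw [mul_assoc (θ _), mul_assoc (ζ _), eJ, eN] at a7
  simp only [o.ph τ h0 hg]
  generalize pval (pabs C.th) (ε * η * τ) = x at *
  generalize pval (pabs C.et) (ε * η * τ) = y at *
  generalize (B.zz C).val = z at *
  have b0 : 0 ≤ ε * τ ^ 3 := by positivity
  have b1 : θ (ε * η * τ) * (ε * j * τ ^ 3) + ζ (ε * η * τ) * (ε * η * τ ^ 3 * (ε * η * τ) ^ 4)
      ≤ ε * τ ^ 3 * (j * x + η * (ε * η * τ) ^ 4 * y) := by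
    have := mul_le_mul_of_nonneg_right a2 (show 0 ≤ ε * j * τ ^ 3 by positivity)
    have := mul_le_mul_of_nonneg_right a3
      (show 0 ≤ ε * η * τ ^ 3 * (ε * η * τ) ^ 4 by positivity)
    linarith
  have b2 := mul_le_mul_of_nonneg_left a1 b0
  have b3 := mul_le_mul_of_nonneg_left (o.g1 τ h0 hg) z0
  have b4 : 0 ≤ ε * τ ^ 3 * (j * x + η * (ε * η * τ) ^ 4 * y) := by positivity
  have b5 := r1_expm1 b4 (R := R) (by linarith) (by exact_mod_cast R3)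
  have b6 := exp_le_exp.2 b1
  have eq : ε * j * (τ ^ 2 * x) + ε ^ 3 * (η * η * η * (ε * η * (ε * η)) * (τ ^ 6 * y))
      = ε * τ ^ 3 * (j * x + η * (ε * η * τ) ^ 4 * y) / τ := by
    field_simp
  generalize ε * τ ^ 3 * (j * x + η * (ε * η * τ) ^ 4 * y) = r at *
  generalize hg3 : 1 / 6 + R * (1 / 24 + R * (1 / 120 + R * (1 / 720 + R * (1 / 5040
    + R * (21 / 40320))))) = g at *
  have g0 : 0 ≤ g := by rw [← hg3]; positivity
  have b7 : r * (1 + r / 2 + r ^ 2 * g) ≤ r * (1 + ε * z * τ ^ 3 / 2 + (ε * z * τ ^ 3) ^ 2 * g) := by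
    have : r ≤ ε * z * τ ^ 3 := by linarith
    gcongr
  generalize 1 + ε * z * τ ^ 3 / 2 + (ε * z * τ ^ 3) ^ 2 * g = E at *
  have b8 := (a7.trans (mul_le_mul_of_nonneg_left (sub_le_sub_right b6 1) (norm_nonneg _))).trans
    (mul_le_mul hG (b5.trans b7) (sub_nonneg.2 (one_le_exp b4)) (gw_pos _ _).le)
  have b9 := a10.trans (mul_le_mul_of_nonneg_left b8 (by positivity))
  refine (div_le_div_of_nonneg_right b9 h0.le).trans_eq ?_
  generalize 1 + (ε * η * τ) ^ 2 / 24 = κ at *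
  linear_combination (-(κ * E * gw B.l1 τ)) * eq

/-- The coefficients of the exponent. -/
def kI (k0 k1 : ℤ) : Iv := hull (rat k0 10000) (rat k1 10000)
def c3I (k : Iv) : Iv := k * rat 1 6
def c4I (B : Bx) (C : Cfg) (k : Iv) : Iv := (C.A4 * B.nI + C.B4 * k) * B.nI * rat 1 24
def c5I (B : Bx) (C : Cfg) (k : Iv) : Iv := (C.A5 * B.nI + C.B5 * k) * (B.nI * B.nI) * rat 1 120
def c6I (B : Bx) (C : Cfg) (k : Iv) : Iv :=
  (C.A6 * B.nI + C.B6 * k) * (B.nI * B.nI * B.nI) * rat 1 720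
def aP (B : Bx) (C : Cfg) (k : Iv) : List Iv := [zero, B.c4I C k, -(B.HI * B.c6I C k)]
def wQ (B : Bx) (C : Cfg) (k : Iv) : List Iv := [zero, -B.c5I C k]

/-- The coefficients lie in their intervals. -/
structure Co (B : Bx) (C : Cfg) (κ : Iv) (ε c3 c4 c5 c6 : ℝ) : Prop where
  m3 : (c3I κ).Mem c3
  m4 : (B.c4I C κ).Mem c4
  m5 : (B.c5I C κ).Mem c5
  m6 : (B.c6I C κ).Mem c6
  a : Sem (B.aP C κ) fun u => u * (c4 - ε ^ 2 * c6 * u)
  w : Sem (B.wQ C κ) fun u => -c5 * u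

theorem In.co (h : B.In ε η j N J) (hy : Hyp C f N K J a4 b4 a5 b5 a6 b6) {κ : Iv}
    (hk : κ.Mem k) : B.Co C κ ε (k / 6) ((a4 * η + b4 * k) * η / 24)
      ((a5 * η + b5 * k) * η ^ 2 / 120) ((a6 * η + b6 * k) * η ^ 3 / 720) := by
  have m4 : (B.c4I C κ).Mem ((a4 * η + b4 * k) * η / 24) := ((((hy.ma4.mul h.nI).add
    (hy.mb4.mul hk)).mul h.nI).mul (mem_r1 (by norm_num))).congr (by push_cast; ring)
  have m5 : (B.c5I C κ).Mem ((a5 * η + b5 * k) * η ^ 2 / 120) := ((((hy.ma5.mul h.nI).add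
    (hy.mb5.mul hk)).mul (h.nI.mul h.nI)).mul (mem_r1 (by norm_num))).congr (by push_cast; ring)
  have m6 : (B.c6I C κ).Mem ((a6 * η + b6 * k) * η ^ 3 / 720) := ((((hy.ma6.mul h.nI).add
    (hy.mb6.mul hk)).mul ((h.nI.mul h.nI).mul h.nI)).mul (mem_r1 (by norm_num))).congr
      (by push_cast; ring)
  exact ⟨(hk.mul (mem_r1 (by norm_num))).congr (by push_cast; ring), m4, m5, m6,
    (Sem.cons mem_zero (Sem.cons m4 (Sem.const (h.HI.mul m6).neg))).congr fun u => by ring,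
    (Sem.cons mem_zero (Sem.const m5.neg)).congr fun u => by ring⟩

/-- The exponent in the scaled variable. -/
noncomputable def gm4 (ε c3 c4 c5 c6 : ℝ) : ℝ → ℂ :=
  gam ε c3 (fun u => u * (c4 - ε ^ 2 * c6 * u)) fun u => -c5 * u

theorem In.mainG (h : B.In ε η j N J) (hK : K * (ε * η) ^ 3 = ε * k) (τ : ℝ) :
    mainG a4 b4 a5 b5 a6 b6 N K (ε * η * τ) = gw 1 τ * Complex.exp (gm4 ε (k / 6)
      ((a4 * η + b4 * k) * η / 24) ((a5 * η + b5 * k) * η ^ 2 / 120)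
      ((a6 * η + b6 * k) * η ^ 3 / 720) τ) := by
  rw [RM.mainG, gw, Complex.ofReal_exp, ← Complex.exp_add, gm4, gam, ← add_sub_assoc,
    ← Complex.ofReal_add]
  congr 3
  · linear_combination (-(τ ^ 2 / 2) + a4 * (ε * η) ^ 2 * τ ^ 4 / 24
      - a6 * (ε * η) ^ 4 * τ ^ 6 / 720) * h.N + (b4 * (ε * η) * τ ^ 4 / 24
      - b6 * (ε * η) ^ 3 * τ ^ 6 / 720) * hK
  · congr 1
    linear_combination (-(a5 * (ε * η) ^ 3 * τ ^ 5 / 120)) * h.N + (τ ^ 3 / 6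
      - b5 * (ε * η) ^ 2 * τ ^ 5 / 120) * hK

variable {κ : Iv} {c3 c4 c5 c6 : ℝ}

def Om (B : Bx) : Iv := hull zero (sqn 1 (nd B.e1 * nd B.t1))

theorem Ok0.om (o : B.Ok0 C ε η) (he : 0 < ε) {τ : ℝ} (h0 : 0 < τ) (hg : B.good ε τ) :
    B.Om.Mem (ε ^ 2 * τ ^ 2) :=
  mem_zero.hull (mem_sqn 1 ((nd_mem B.e1).mul (nd_mem B.t1))) (by positivity) (by
    rw [← mul_pow]
    exact pow_le_pow_left₀ (by positivity) (o.g2 τ h0 hg) 2)

def qQ (B : Bx) (C : Cfg) (κ : Iv) : List Iv := qP B.HI (B.aP C κ) (wP B.HI (c3I κ) (B.wQ C κ))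

theorem Co.q (h : B.In ε η j N J) (c : B.Co C κ ε c3 c4 c5 c6) : ∃ q, Sem (B.qQ C κ) q ∧
    (∀ u, 0 ≤ u → 0 ≤ q u) ∧ ∀ τ, ‖gm4 ε c3 c4 c5 c6 τ‖ ^ 2 = ε ^ 2 * τ ^ 2 * q (τ ^ 2) :=
  ⟨_, ((c.a.mul c.a).sh.sm h.HI).add ((Sem.wP h.HI c.m3 c.w).mul (Sem.wP h.HI c.m3 c.w)),
    fun _ hu => add_nonneg (mul_nonneg (sq_nonneg _) (mul_nonneg hu (mul_self_nonneg _)))
      (mul_self_nonneg _), fun _ => gam_sq _ _ _ _ _⟩

def Prem (B : Bx) (C : Cfg) (κ : Iv) : List Iv :=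
  padd (psm (B.eI * B.HI * rat 1 720) (pshn 5 (pmul (psq (ppow (B.qQ C κ) 3))
    [nat 1, zero, B.hI * B.hI * rat 1 8])))
    (pshn 5 [B.nI * B.nI * B.nI * (B.hI * (B.hI * B.hI)) * rat 1 22000])

def remOk (B : Bx) (C : Cfg) (κ : Iv) : Bool :=
  rateOk [B.c4I C κ, -B.c6I C κ] B.Om B.r1 && decide ((B.Prem C κ).length ≤ 50)

theorem rem_er (h : B.In ε η j N J) (o : B.Ok0 C ε η) (c : B.Co C κ ε c3 c4 c5 c6)
    (hk : B.remOk C κ = true) : ∃ e r, (dot (B.Prem C κ) B.ML).Mem r ∧ Er e (ε ^ 3 * r) ∧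
      ∀ τ, 0 < τ → B.good ε τ → ‖gw 1 τ * Complex.exp (gm4 ε c3 c4 c5 c6 τ)‖ ≤ gw B.l1 τ ∧
        ∀ x, kL (ε * η * τ) (τ * x) (gw 1 τ * Complex.exp (gm4 ε c3 c4 c5 c6 τ)) / τ
          ≤ mmF (ε * η) x (gm4 ε c3 c4 c5 c6) τ + e τ := by
  simp only [remOk, Bool.and_eq_true, decide_eq_true_eq] at hk
  obtain ⟨q, sq, q0, eq⟩ := c.q h
  have e0 := h.e
  have n0 := h.n
  obtain ⟨r, m, er⟩ := Er.dot (((((sq.pow 3).sq.mul (Sem.cons (mem_nat 1) (Sem.cons mem_zero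
    (Sem.const ((h.hI.mul h.hI).mul (mem_r1 (d := 8) (by norm_num))))))).shn 5).sm
    ((h.eI.mul h.HI).mul (mem_r1 (d := 720) (by norm_num)))).add ((Sem.const
    ((((h.nI.mul h.nI).mul h.nI).mul (h.hI.mul (h.hI.mul h.hI))).mul
    (mem_r1 (d := 22000) (by norm_num)))).shn 5)) o.ml (hk.2.trans o.mlen) fun τ h0 => by
      have := q0 _ (sq_nonneg τ)
      have := o.ph0 τ
      positivity
  refine ⟨_, r, m, er.mul (pow_nonneg e0.le 3), fun τ h0 hg => ?_⟩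
  have t0 : 0 < ε * η * τ := by positivity
  have a1 := rate_le (Sem.cons c.m4 (Sem.const c.m6.neg)) (o.om e0 h0 hg) (by positivity)
    (by have := o.r1; omega) hk.1
  have a2 : B.l1 ≤ 1 := by
    have : ((10000 : ℕ) : ℝ) ≤ B.r1 := by exact_mod_cast o.r1
    exact pow_le_one₀ (by positivity) (div_le_one_of_le₀ this (by positivity))
  have a3 : max (gm4 ε c3 c4 c5 c6 τ).re 0 ≤ (1 - B.l1) / 2 * τ ^ 2 := by
    refine max_le ?_ (mul_nonneg (by linarith) (sq_nonneg τ))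
    have := mul_le_mul_of_nonneg_right a1 (sq_nonneg τ)
    rw [gm4, gam_re, l1]
    linarith
  have a4 := gw_mul_le a3
  refine ⟨?_, fun x => ?_⟩
  · rw [norm_mul, Complex.norm_real, norm_of_nonneg (gw_pos _ _).le, Complex.norm_exp]
    exact gw_mul_le ((le_max_left _ _).trans a3)
  have a5 := kL_main t0 ((o.g3 τ h0 hg).trans o.T0.le) (τ * x) (gw 1 τ) (gw_pos _ _).le
    (gm4 ε c3 c4 c5 c6 τ) 6
  have a6 := mul_le_mul_of_nonneg_right a4 (show 0 ≤ (1 + (ε * η * τ) ^ 2 / 8) *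
    (‖gm4 ε c3 c4 c5 c6 τ‖ ^ 6 / (6 : ℕ).factorial) + (ε * η * τ) ^ 6 / 22000 by positivity)
  refine (div_le_div_of_nonneg_right (a5.trans (add_le_add le_rfl a6)) h0.le).trans_eq ?_
  rw [add_div, mmF, show ‖gm4 ε c3 c4 c5 c6 τ‖ ^ 6 = (‖gm4 ε c3 c4 c5 c6 τ‖ ^ 2) ^ 3 by ring, eq]
  simp only [o.ph τ h0 hg, Nat.factorial]
  congr 1
  push_cast
  field_simp
  ring

end Bx

end Pool.Agent.Lib.MP_33650d_pr.RM
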