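import Pool.Agent.Lib.MP_33650d_pr.X.R1C

namespace Pool.Agent.Lib.MP_33650d_pr.RM
open MeasureTheory Real Set Iv

/-- The Gaussian weight cut off below `a`. -/
noncomputable def gi (l a τ : ℝ) : ℝ := (Ioi a).indicator (gw l) τ

/-- Lebesgue measure on the positive half line. -/
noncomputable abbrev mu0 : Measure ℝ := volume.restrict (Ioi 0)

theorem gi_nonneg (l a τ : ℝ) : 0 ≤ gi l a τ := indicator_nonneg (fun τ _ => (gw_pos l τ).le) τ

theorem gi_of {a τ : ℝ} (l : ℝ) (h : a < τ) : gi l a τ = gw l τ := indicator_of_mem h _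

theorem gi_int {l a : ℝ} (hl : 0 < l) (ha : 0 ≤ a) (m : ℕ) :
    Integrable (fun τ => τ ^ m * gi l a τ) mu0 ∧ ∫ τ, τ ^ m * gi l a τ ∂mu0 = gm l a m := by
  have e : (fun τ => τ ^ m * gi l a τ) = (Ioi a).indicator fun τ => τ ^ m * gw l τ := by
    funext τ
    by_cases hτ : τ ∈ Ioi a <;> simp [gi, hτ]
  rw [e]
  refine ⟨((gw_int hl m).indicator measurableSet_Ioi).integrableOn, ?_⟩
  rw [setIntegral_indicator measurableSet_Ioi, Ioi_inter_Ioi, max_eq_right ha, gm]

def genM (r2 g a : Iv) : ℕ → ℕ → Iv → Iv → Iv → List Iv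
  | 0, _, _, _, _ => []
  | n + 1, m, x, y, p => x :: genM r2 g a n (m + 1) y (r2 * (nat (m + 1) * x + p * g)) (p * a)

theorem genM_length (r2 g a : Iv) (n m : ℕ) (x y p : Iv) : (genM r2 g a n m x y p).length = n := by
  induction n generalizing m x y p with
  | zero => rfl
  | succ n ih => simp [genM, ih]

theorem genM_mo {r2 g a : Iv} {l α s cg : ℝ} (hl : 0 < l) (hα : 0 ≤ α) (hr : r2.Mem l⁻¹)
    (hg : g.Mem cg) (eg : gw l α = s * cg) (ha : a.Mem α) (n m : ℕ) {x y p : Iv} {cx cy : ℝ}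
    (hx : x.Mem cx) (ex : gm l α m = s * cx) (hy : y.Mem cy) (ey : gm l α (m + 1) = s * cy)
    (hp : p.Mem (α ^ (m + 1))) :
    Mo mu0 s (fun τ => τ) (genM r2 g a n m x y p) fun τ => τ ^ m * gi l α τ := by
  induction n generalizing m x y p cx cy with
  | zero => trivial
  | succ n ih =>
    obtain ⟨i1, i2⟩ := gi_int hl hα m
    refine ⟨i1, ⟨cx, hx, i2.trans ex⟩, ?_⟩
    have e : (fun τ => τ * (τ ^ m * gi l α τ)) = fun τ => τ ^ (m + 1) * gi l α τ :=
      funext fun τ => by ring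
    rw [e]
    refine ih (m + 1) hy ey (hr.mul (((mem_nat (m + 1)).mul hx).add (hp.mul hg))) ?_
      ((hp.mul ha).congr (by ring))
    have := gm_rec hl α m
    rw [ex, eg] at this
    push_cast
    field_simp
    linarith

def csI : Iv := hull (rat 79788456 100000000) (rat 79788457 100000000)
def i4I : Iv := hull (rat 7957747 100000000) (rat 7957748 100000000)

theorem csI_mem : csI.Mem (√(π / 2))⁻¹ := by
  have h0 : 0 < √(π / 2) := by positivity
  have h1 : √(π / 2) ^ 2 = π / 2 := sq_sqrt (by positivity)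
  have := pi_gt_d20
  have := pi_lt_d20
  refine (mem_rat _ (by norm_num)).hull (mem_rat _ (by norm_num)) ?_ ?_
  · rw [le_inv_comm₀ (by norm_num) h0]
    refine sqrt_le_iff.2 ⟨by norm_num, ?_⟩
    norm_num
    linarith
  · rw [inv_le_comm₀ h0 (by norm_num)]
    refine le_sqrt_of_sq_le ?_
    norm_num
    linarith

theorem i4I_mem : i4I.Mem (4 * π)⁻¹ := by
  have := pi_gt_d20
  have := pi_lt_d20
  refine (mem_rat _ (by norm_num)).hull (mem_rat _ (by norm_num)) ?_ ?_
  · rw [le_inv_comm₀ (by norm_num) (by positivity)]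
    norm_num
    linarith
  · rw [inv_le_comm₀ (by positivity) (by norm_num)]
    norm_num
    linarith

/-- The normalised moments for the rate `(d / n) ^ 2`. -/
def momF (n d k : ℕ) : List Iv :=
  genM (rat n d * rat n d) csI zero k 0 (rat n d) (rat n d * rat n d * csI) zero

theorem momF_mo {n d : ℕ} (hn : 0 < n) (hd : 0 < d) (k : ℕ) :
    Mo mu0 √(π / 2) (fun τ => τ) (momF n d k) (gi ((d / n : ℝ) ^ 2) 0) := by
  have h0 : 0 < √(π / 2) := by positivity
  have hl : (0 : ℝ) < (d / n : ℝ) ^ 2 := by positivity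
  have r1 : (rat n d).Mem (n / d : ℝ) := (mem_rat n hd).congr (by simp)
  have r2 : (rat n d * rat n d).Mem ((d / n : ℝ) ^ 2)⁻¹ := (r1.mul r1).congr (by field_simp)
  have eg : gw ((d / n : ℝ) ^ 2) 0 = √(π / 2) * (√(π / 2))⁻¹ := by
    rw [mul_inv_cancel₀ h0.ne']
    simp [gw]
  have := genM_mo hl le_rfl r2 csI_mem eg mem_zero k 0 r1
    (by rw [gm_zero hl, sqrt_sq (by positivity)]; field_simp) (r2.mul csI_mem)
    (by
      have := gm_one hl 0
      rw [eg] at this
      rw [zero_add, mul_left_comm, ← this]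
      field_simp)
    (mem_zero.congr (by simp))
  simpa [momF] using this

/-- The exponent of the Gaussian weight at the cut. -/
def momY (n d a b : ℕ) : Iv := rat a b * rat a b * (rat d n * rat d n) * rat 1 2

/-- The normalised Gaussian weight at the cut. -/
def momG (n d a b : ℕ) : Iv := hull zero (expNeg (momY n d a b)) * csI

/-- The normalised incomplete moments for the rate `(d / n) ^ 2` and the cut `a / b`. -/
def momT (n d a b k : ℕ) : List Iv :=
  genM (rat n d * rat n d) (momG n d a b) (rat a b) k 0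
    (hull zero (rat n d * rat n d * momG n d a b * rat b a)) (rat n d * rat n d * momG n d a b)
    (rat a b)

theorem gm_zero_le {l a : ℝ} (hl : 0 < l) (ha : 0 < a) : gm l a 0 ≤ gm l a 1 / a := by
  rw [gm, gm, ← integral_div]
  refine setIntegral_mono_on (gw_int hl 0).integrableOn ((gw_int hl 1).div_const a).integrableOn
    measurableSet_Ioi fun τ hτ => ?_
  rw [pow_zero, pow_one, mul_div_right_comm]
  exact mul_le_mul_of_nonneg_right ((one_le_div ha).2 (le_of_lt hτ)) (gw_pos l τ).le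

theorem momT_mo {n d a b : ℕ} (hn : 0 < n) (hd : 0 < d) (ha : 0 < a) (hb : 0 < b)
    (hy : expOk (momY n d a b) = true) (k : ℕ) :
    Mo mu0 √(π / 2) (fun τ => τ) (momT n d a b k) (gi ((d / n : ℝ) ^ 2) (a / b)) := by
  have h0 : 0 < √(π / 2) := by positivity
  have hl : (0 : ℝ) < (d / n : ℝ) ^ 2 := by positivity
  have ha' : (0 : ℝ) < a / b := by positivity
  have r1 : (rat n d).Mem (n / d : ℝ) := (mem_rat n hd).congr (by simp)
  have r3 : (rat d n).Mem (d / n : ℝ) := (mem_rat d hn).congr (by simp)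
  have r4 : (rat a b).Mem (a / b : ℝ) := (mem_rat a hb).congr (by simp)
  have r5 : (rat b a).Mem (a / b : ℝ)⁻¹ := (mem_rat b ha).congr (by simp)
  have r2 : (rat n d * rat n d).Mem ((d / n : ℝ) ^ 2)⁻¹ := (r1.mul r1).congr (by field_simp)
  have y1 : (momY n d a b).Mem ((d / n : ℝ) ^ 2 * (a / b) ^ 2 / 2) :=
    (((r4.mul r4).mul (r3.mul r3)).mul (mem_rat 1 (d := 2) (by norm_num))).congr (by push_cast; ring)
  have g1 : (momG n d a b).Mem (gw ((d / n : ℝ) ^ 2) (a / b) * (√(π / 2))⁻¹) :=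
    (mem_zero.hull (mem_val _) (gw_pos _ _).le (exp_neg_le y1 (by positivity) hy)).mul csI_mem
  have e1 : gm ((d / n : ℝ) ^ 2) (a / b) 1 = √(π / 2) * (((d / n : ℝ) ^ 2)⁻¹
      * (gw ((d / n : ℝ) ^ 2) (a / b) * (√(π / 2))⁻¹)) := by
    rw [← gm_one hl]
    field_simp
  have x1 := mem_zero.hull ((r2.mul g1).mul r5)
    (z := gm ((d / n : ℝ) ^ 2) (a / b) 0 * (√(π / 2))⁻¹)
    (mul_nonneg (gm_nonneg _ ha'.le 0) (by positivity)) (by
      have := gm_zero_le hl ha'
      rw [e1] at this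
      rw [mul_inv_le_iff₀ h0]
      refine this.trans_eq ?_
      field_simp)
  have := genM_mo (s := √(π / 2)) hl ha'.le r2 g1 (by field_simp) r4 k 0 x1 (by field_simp)
    (r2.mul g1) e1 (r4.congr (by simp))
  simpa [momT] using this

def genH (X : Iv) : ℕ → ℕ → Iv → Iv → List (Iv × Iv)
  | 0, _, _, _ => []
  | n + 1, m, c, s => (s, nat (2 * m + 1) * c - X * s) :: genH X n (m + 1)
      (nat (2 * m + 1) * c - X * s) (nat (2 * m + 1) * c - X * s + nat (2 * m + 2) * s)

theorem genH_length (X : Iv) (n m : ℕ) (c s : Iv) : (genH X n m c s).length = n := by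
  induction n generalizing m c s with
  | zero => rfl
  | succ n ih => simp [genH, ih]

theorem genH_mo {X : Iv} {x : ℝ} (hX : X.Mem (x ^ 2)) (n m : ℕ) {c s : Iv}
    (hc : c.Mem (he (x ^ 2) m).1) (hs : s.Mem (he (x ^ 2) m).2) :
    Mo mu0 (x * gc x 0) (fun τ => τ ^ 2) ((genH X n m c s).map Prod.fst)
      (fun τ => τ ^ (2 * m + 1) * gw 1 τ * sin (τ * x)) ∧
    Mo mu0 (gc x 0) (fun τ => τ ^ 2) ((genH X n m c s).map Prod.snd)
      (fun τ => τ ^ (2 * (m + 1)) * gw 1 τ * cos (τ * x)) := by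
  induction n generalizing m c s with
  | zero => exact ⟨trivial, trivial⟩
  | succ n ih =>
    have h1 : (nat (2 * m + 1) * c - X * s).Mem (he (x ^ 2) (m + 1)).1 :=
      (((mem_nat _).mul hc).sub (hX.mul hs)).congr (by rw [he]; push_cast; ring)
    have h2 : (nat (2 * m + 1) * c - X * s + nat (2 * m + 2) * s).Mem (he (x ^ 2) (m + 1)).2 :=
      (h1.add ((mem_nat _).mul hs)).congr (by rw [he]; push_cast; ring)
    obtain ⟨i1, i2⟩ := ih (m + 1) h1 h2
    refine ⟨⟨(gs_int x _).integrableOn, ⟨_, hs, (gc_gs_he x m).2⟩, ?_⟩,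
      ⟨(gc_int x _).integrableOn, ⟨_, h1, (gc_gs_he x (m + 1)).1⟩, ?_⟩⟩
    · convert i1 using 2
      ring
    · convert i2 using 2
      ring

/-- The polynomial part of `(1 - exp (-s)) / s`. -/
def e1P : List Iv := [nat 1, rat (-1) 2, rat 1 6, rat (-1) 24, rat 1 120, rat (-1) 720,
  rat 1 5040, rat (-1) 40320, rat 1 362880, rat (-1) 3628800]

def e1I (s : Iv) : Iv := peval e1P s + (sqn 1 (s * sqn 2 s) * rat 1 39916800).sym

theorem e1I_mem {s : Iv} {x : ℝ} (hs : s.Mem x) (hx : 0 ≤ x) :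
    ∃ e, (e1I s).Mem e ∧ exp (-x) = 1 - x * e := by
  have r := fun (n : ℤ) (d : ℕ) (hd : 0 < d) => mem_rat n hd
  have h1 := (Sem.cons (mem_nat 1) (Sem.cons (r (-1) 2 (by norm_num)) (Sem.cons (r 1 6 (by norm_num))
    (Sem.cons (r (-1) 24 (by norm_num)) (Sem.cons (r 1 120 (by norm_num))
    (Sem.cons (r (-1) 720 (by norm_num)) (Sem.cons (r 1 5040 (by norm_num))
    (Sem.cons (r (-1) 40320 (by norm_num)) (Sem.cons (r 1 362880 (by norm_num))
    (Sem.const (r (-1) 3628800 (by norm_num)))))))))))).eval hs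
  have h2 := (mem_sqn 1 (hs.mul (mem_sqn 2 hs))).mul (r 1 39916800 (by norm_num))
  have h3 : |exp (-x) - ∑ k ∈ Finset.range 11, (-x) ^ k / (k.factorial : ℝ)|
      ≤ x ^ 11 / (11 : ℕ).factorial := by
    have := r1_exp_rem ((-x : ℝ) : ℂ) 11
    rw [Complex.ofReal_re, max_eq_right (by linarith), exp_zero, mul_one, Complex.norm_real,
      norm_neg, norm_of_nonneg hx] at this
    rw [← Real.norm_eq_abs, ← Complex.norm_real]
    push_cast at this ⊢
    exact this
  rcases hx.eq_or_lt with rfl | hx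
  · exact ⟨_, h1.add (h2.sym (y := 0) (by simp)), by simp⟩
  refine ⟨_, h1.add (h2.sym (y := -(exp (-x) - ∑ k ∈ Finset.range 11,
    (-x) ^ k / (k.factorial : ℝ)) / x) ?_), ?_⟩
  · rw [abs_div, abs_neg, abs_of_pos hx, div_le_iff₀ hx]
    refine h3.trans_eq ?_
    rw [abs_of_nonneg (by positivity)]
    simp only [Nat.factorial]
    push_cast
    ring
  · simp only [Finset.sum_range_succ, Finset.range_zero, Finset.sum_empty, Nat.factorial]
    push_cast
    field_simp
    ring

end Pool.Agent.Lib.MP_33650d_pr.RM
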