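import Pool.Agent.Lib.MP_33650d_pr.X.R1L

namespace Pool.Agent.Lib.MP_33650d_pr.RM
open MeasureTheory Real Set Iv

namespace Bx

variable {B : Bx} {C : Cfg} {f : ℝ → ℂ} {ε η j k N K J a4 b4 a5 b5 a6 b6 : ℝ}

def ddP (B : Bx) : List Iv :=
  [nat 1, zero, B.hI * B.hI * rat 1 72, zero, sqn 1 (B.hI * B.hI) * d4I]

theorem In.ddP (h : B.In ε η j N J) :
    Sem B.ddP fun τ => 1 + ((ε * η * τ) ^ 2 / 72 + 7 / 10000 * (ε * η * τ) ^ 4) :=
  (Sem.cons (mem_nat 1) (Sem.cons mem_zero (Sem.cons ((h.hI.mul h.hI).mul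
    (mem_r1 (d := 72) (by norm_num))) (Sem.cons mem_zero (Sem.const ((mem_sqn 1
    (h.hI.mul h.hI)).mul (mem_ratn 7 (d := 10000) (by norm_num)))))))).congr fun τ => by
      push_cast
      ring

def PB3 (B : Bx) : List Iv := psm (i4I * (B.hI * B.hI)) (pshn (1 + B.q) B.ddP)
def B3I (B : Bx) : Iv := B.wI * dot B.PB3 (momT B.r3 10000 B.a3 10000 20)
def b3Ok (B : Bx) (C : Cfg) : Bool :=
  match C.nt[B.nb]? with
  | none => false
  | some e => decide (B.v0 ≤ e.1) && (e.2.2.2.isZ || B.uJ) && decide (B.r1 ≤ B.r3) &&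
    decide (B.a3 ≤ B.t1) && decide (B.a3 * B.e1 * B.n1 ≤ B.v0 * 10 ^ 8) && decide (0 < B.a3) &&
    rateOk [e.2.1 + e.2.2.2 * nd B.jm, e.2.2.1] (hull zero (sqn 1 (nd B.v0))) B.r3 &&
    expOk (momY B.r3 10000 B.a3 10000) && decide (B.PB3.length ≤ 20)

theorem rate_anti {a b : ℕ} (ha : 0 < a) (h : a ≤ b) (τ : ℝ) :
    gw (((10000 : ℕ) / a : ℝ) ^ 2) τ ≤ gw (((10000 : ℕ) / b : ℝ) ^ 2) τ :=
  gw_anti (by gcongr) τ

theorem b3_er (h : B.In ε η j N J) (o : B.Ok0 C ε η) (hy : Hyp C f N K J a4 b4 a5 b5 a6 b6)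
    (hk : B.b3Ok C = true) : ∃ e c, B.B3I.Mem c ∧ Er e (ε ^ B.p * c) ∧ ∀ τ, 0 < τ →
      ε * η * τ < π → (¬ B.good ε τ → ε * η * τ ≤ B.v0 / 10000 → topF f (ε * η) τ ≤ e τ) ∧
      (B.good ε τ → B.v0 / 10000 < ε * η * τ → ∀ G : ℂ, ‖G‖ ≤ gw B.l1 τ → ∀ ψ,
        kR (ε * η * τ) ψ G / τ ≤ e τ) := by
  unfold b3Ok at hk
  split at hk
  · exact absurd hk Bool.false_ne_true
  rename_i en hen
  simp only [Bool.and_eq_true, decide_eq_true_eq, Bool.or_eq_true] at hk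
  obtain ⟨⟨⟨⟨⟨⟨⟨⟨k1, k2⟩, k3⟩, k4⟩, k5⟩, k6⟩, k7⟩, k8⟩, k9⟩ := hk
  obtain ⟨m4, m6, c, s4, s6, sc, c0, hb⟩ := hy.nt en (List.mem_of_getElem? hen)
  have e0 := h.e
  have n0 := h.n
  have r1 : 0 < B.r1 := by have := o.r1; omega
  have r3 : 0 < B.r3 := by omega
  have w0 := B.wR_nonneg
  obtain ⟨c3, m3, er⟩ := Er.dot ((h.ddP.shn (1 + B.q)).sm (i4I_mem.mul (h.hI.mul h.hI)))
    (momT_mo r3 (by norm_num) k6 (by norm_num) k8 20) (by rwa [momT, genM_length])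
    fun τ h0 => by
      have := gi_nonneg (((10000 : ℕ) / B.r3 : ℝ) ^ 2) (B.a3 / (10000 : ℕ)) τ
      positivity
  refine ⟨_, _, o.w.mul m3, (er.mul (show 0 ≤ ε ^ B.p * B.wR by positivity)).mono
    (le_of_eq (mul_assoc _ _ _)), fun τ h0 hp => ?_⟩
  have t0 : 0 < ε * η * τ := by positivity
  have key : ∀ M, 0 ≤ M → M ≤ gw (((10000 : ℕ) / B.r3 : ℝ) ^ 2) τ → (B.a3 : ℝ) / 10000 < τ →
      1 ≤ ε ^ B.p * B.wR * τ ^ B.q →
      (ε * η * τ) ^ 2 / (4 * π) * ((1 + dd (ε * η * τ) ^ 2 / 2) * M) / τ ≤ ε ^ B.p * B.wR *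
        ((4 * π)⁻¹ * (ε * η * (ε * η)) * (τ ^ (1 + B.q) * (1 + ((ε * η * τ) ^ 2 / 72
          + 7 / 10000 * (ε * η * τ) ^ 4))) *
          gi (((10000 : ℕ) / B.r3 : ℝ) ^ 2) (B.a3 / (10000 : ℕ)) τ) := by
    intro M M0 hM ha hw
    rw [gi_of _ (by exact_mod_cast ha)]
    have a1 := mul_le_mul (add_le_add (le_refl 1) (dd_pi t0 hp.le).2.2) hM M0 (by positivity)
    have a2 := (gw_pos (((10000 : ℕ) / B.r3 : ℝ) ^ 2) τ).le
    generalize gw _ τ = g at *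
    refine (div_le_div_of_nonneg_right (mul_le_mul_of_nonneg_left a1 (by positivity)) h0.le).trans
      ((le_mul_of_one_le_left (by positivity) hw).trans_eq ?_)
    field_simp
    ring
  refine ⟨fun hg hv => ?_, fun hg hv G hG ψ => ?_⟩
  · obtain ⟨b1, b2⟩ := o.b1 τ h0 hg
    refine key _ (norm_nonneg _) ((hb _ t0 (hv.trans (by gcongr))).trans ?_)
      (lt_of_le_of_lt (by gcongr) b1) b2
    have a1 := rate_le (Sem.cons (s4.add (sc.mul (nd_mem B.jm))) (Sem.const s6))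
      (mem_zero.hull (mem_sqn 1 (nd_mem B.v0)) (z := (ε * η * τ) ^ 2) (by positivity)
        (pow_le_pow_left₀ t0.le hv 2)) (by positivity) r3 k7
    have a2 : c * J ≤ c * (B.jm / 10000) * N := by
      rcases k2 with hz | hu
      · simp [sc.eq_zero hz]
      · rw [mul_assoc]
        exact mul_le_mul_of_nonneg_left (h.uJ hu) c0
    have a3 := mul_le_mul_of_nonneg_right a2 (pow_nonneg t0.le 4)
    have a4 : N * (ε * η * τ) ^ 2 = τ ^ 2 := by linear_combination τ ^ 2 * h.N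
    refine le_trans ?_ (gw_mul_le (mul_le_mul_of_nonneg_right a1 (sq_nonneg τ)))
    rw [gw, ← exp_add, ← a4]
    refine exp_le_exp.2 ?_
    linarith
  · refine (div_le_div_of_nonneg_right (kR_far _ ψ G) h0.le).trans (key _ (norm_nonneg _)
      (hG.trans (rate_anti r1 k3 τ)) ?_ (o.b2 τ h0 hg hv))
    have a1 : (B.a3 : ℝ) * B.e1 * B.n1 ≤ B.v0 * 10 ^ 8 := by exact_mod_cast k5
    have a2 := mul_le_mul_of_nonneg_right h.h1 h0.le
    refine lt_of_mul_lt_mul_left (a := (B.e1 : ℝ) / 10000 * (B.n1 / 10000)) ?_ (by positivity)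
    linarith

def iH (B : Bx) : Iv := rat (10 ^ 16) ((B.e1 * B.n1) ^ 2)
def we (B : Bx) : Iv := rat (10000 ^ B.p) (B.e1 ^ B.p)

/-- One cell in the unscaled frequency. -/
def tstep (B : Bx) (ents : List (ℕ × ℕ × List Iv × List Iv)) (pre : ℕ → ℕ → Iv) (a b ty : ℕ) :
    Bool × Iv :=
  match ents[ty]? with
  | none => (false, zero)
  | some e => (decide (0 < a) && decide (e.1 ≤ a) && decide (b ≤ e.2.1) &&
      (e.2.2.2.isEmpty || B.uJ) &&
      cellOk (psm B.iH (psub e.2.2.1 (psm (nd B.jm) e.2.2.2))) a b 2,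
    pre a b * cellI (psm B.iH (psub e.2.2.1 (psm (nd B.jm) e.2.2.2))) a b)

theorem exp_scale {u y : ℝ} (h0 : 0 < u) (h1 : u ≤ 1) (hy : 2 ≤ y) :
    exp (-(y / u)) ≤ u ^ 2 * exp (-y) := by
  have a1 : 1 ≤ u⁻¹ := (one_le_inv₀ h0).2 h1
  have a2 := add_one_le_exp (u⁻¹ - 1)
  have a3 : exp (-(y / u)) = exp (-(y * (u⁻¹ - 1))) * exp (-y) := by
    rw [← exp_add]
    congr 1
    ring
  rw [a3]
  refine mul_le_mul_of_nonneg_right ?_ (exp_pos _).le
  have a4 : exp (-(y * (u⁻¹ - 1))) ≤ (exp (u⁻¹ - 1))⁻¹ ^ 2 := by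
    rw [← exp_neg, ← exp_nat_mul]
    exact exp_le_exp.2 (by push_cast; nlinarith)
  refine a4.trans (pow_le_pow_left₀ (by positivity) ?_ 2)
  rw [inv_le_comm₀ (exp_pos _) h0]
  linarith

theorem tch_er (h : B.In ε η j N J) (p4 : B.p ≤ 4) {F g : ℝ → ℝ}
    {ents : List (ℕ × ℕ × List Iv × List Iv)} (hE : ∀ e ∈ ents, ModOk F N J e)
    (F0 : ∀ s, 0 ≤ F s) {pre : ℕ → ℕ → Iv} (hp : ∀ a b, 0 < a → ∃ c, (pre a b).Mem c ∧ 0 ≤ c ∧
      ∀ s : ℝ, a / 10000 < s → s ≤ b / 10000 → s < π → g s ≤ c) (a : ℕ) (l : List (ℕ × ℕ))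
    (hk : (chain (B.tstep ents pre) a l).1 = true)
    (hl : 31416 ≤ (chain (B.tstep ents pre) a l).2.2) :
    ∃ e c, (B.we * (chain (B.tstep ents pre) a l).2.1).Mem c ∧ Er e (ε ^ B.p * c) ∧
      ∀ τ, 0 < τ → a / 10000 < ε * η * τ → ε * η * τ < π →
        ε * η * (g (ε * η * τ) * F (ε * η * τ)) ≤ e τ := by
  have e0 := h.e
  have n0 := h.n
  have e1 : (0 : ℝ) < B.e1 := by linarith [h.e1]
  have n1 : (0 : ℝ) < B.n1 := by linarith [h.n1]
  have e2 : 0 < B.e1 := by exact_mod_cast e1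
  have n2 : 0 < B.n1 := by exact_mod_cast n1
  have u1 : ε * (10000 / B.e1) ≤ 1 := by
    rw [← mul_div_assoc, div_le_one e1]
    linarith [h.e1]
  have u2 : η * (10000 / B.n1) ≤ 1 := by
    rw [← mul_div_assoc, div_le_one n1]
    linarith [h.n1]
  have mi : B.iH.Mem (10 ^ 16 / (B.e1 * B.n1) ^ 2) :=
    (mem_rat _ (by positivity)).congr (by norm_num)
  obtain ⟨e, c, m, er, hb⟩ := chain_er (step := B.tstep ents pre) (C := fun s => s < π)
    (F := fun s => g s * F s) (w := (ε * (10000 / B.e1)) ^ B.p) (fun a b ty hk => by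
      unfold tstep at hk ⊢
      split at hk
      · exact absurd hk Bool.false_ne_true
      rename_i en hen
      simp only [Bool.and_eq_true, decide_eq_true_eq, Bool.or_eq_true] at hk
      obtain ⟨⟨⟨⟨k1, k2⟩, k3⟩, k4⟩, k5⟩ := hk
      obtain ⟨μ, ν, s1, s2, hb⟩ := hE en (List.mem_of_getElem? hen)
      obtain ⟨e, c, m, er, hc⟩ := cell_er ((s1.sub (s2.sm (nd_mem B.jm))).sm mi) k5
      obtain ⟨d, md, d0, hd⟩ := hp a b k1
      refine ⟨_, _, md.mul m, (er.mul (show 0 ≤ (ε * (10000 / B.e1)) ^ B.p * d by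
        positivity)).mono (le_of_eq (mul_assoc _ _ _)), fun s h1 h2 h3 => ?_⟩
      obtain ⟨b1, b2⟩ := hb s (lt_of_le_of_lt (by gcongr) h1) (h2.trans (by gcongr))
      obtain ⟨b3, b4⟩ := hc s h1 h2
      have b5 : J * ν s ≤ B.jm / 10000 * N * ν s := by
        rcases k4 with hz | hu
        · rw [List.isEmpty_iff] at hz
          rw [hz] at s2
          simp [s2 s]
        · exact mul_le_mul_of_nonneg_right (h.uJ hu) b1
      have b6 := exp_scale (u := (ε * (10000 / B.e1) * (η * (10000 / B.n1))) ^ 2) (by positivity)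
        (pow_le_one₀ (by positivity) (mul_le_one₀ u1 (by positivity) u2)) (b4.trans' (by norm_num))
      have b7 : ((ε * (10000 / B.e1) * (η * (10000 / B.n1))) ^ 2) ^ 2
          ≤ (ε * (10000 / B.e1)) ^ B.p := by
        rw [← pow_mul]
        exact (pow_le_pow_left₀ (by positivity) (mul_le_of_le_one_right (by positivity) u2) _).trans
          (pow_le_pow_of_le_one (by positivity) u1 p4)
      have b8 : F s ≤ (ε * (10000 / B.e1)) ^ B.p * e s := by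
        refine b2.trans (le_trans (exp_le_exp.2 ?_) (b6.trans
          (mul_le_mul b7 b3 (exp_pos _).le (by positivity))))
        have : N = ((ε * η) ^ 2)⁻¹ := eq_inv_of_mul_eq_one_left h.N
        refine (add_le_add le_rfl b5).trans_eq ?_
        rw [this]
        field_simp
        ring
      refine (mul_le_mul (hd s h1 h2 h3) b8 (F0 s) d0).trans_eq ?_
      ring) a l hk
  refine ⟨_, _, ((mem_rat _ (pow_pos e2 _)).mul m), (er.scale h.h).mono (le_of_eq ?_),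
    fun τ h0 h1 h2 => mul_le_mul_of_nonneg_left (hb _ (by positivity) h1 ?_ h2) h.h.le⟩
  · rw [mul_pow, div_pow]
    push_cast
    ring
  · have : (31416 : ℝ) ≤ (chain (B.tstep ents pre) a l).2.2 := by exact_mod_cast hl
    linarith [pi_lt_d4]

def preL (a _b : ℕ) : Iv := rat 10350 a
def preT (_a b : ℕ) : Iv := nd b * peval [nat 1, zero, rat 1 72, zero, d4I] (nd b) * i4I
def chL (B : Bx) (C : Cfg) : Bool × Iv × ℕ := chain (B.tstep C.low preL) B.T B.ln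
def chT (B : Bx) (C : Cfg) : Bool × Iv × ℕ := chain (B.tstep C.top preT) B.v0 B.pn
def b4Ok (B : Bx) (C : Cfg) : Bool :=
  (B.chL C).1 && decide (31416 ≤ (B.chL C).2.2) && (B.chT C).1 && decide (31416 ≤ (B.chT C).2.2)
def B4I (B : Bx) (C : Cfg) : Iv := B.we * (B.chL C).2.1 + B.we * (B.chT C).2.1

theorem b4_er (h : B.In ε η j N J) (o : B.Ok0 C ε η) (hy : Hyp C f N K J a4 b4 a5 b5 a6 b6)
    (hk : B.b4Ok C = true) : ∃ (e1 e2 : ℝ → ℝ) (c : ℝ), (B.B4I C).Mem c ∧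
      Er (fun τ => e1 τ + e2 τ) (ε ^ B.p * c) ∧ ∀ τ, 0 < τ → 0 ≤ e1 τ ∧ 0 ≤ e2 τ ∧
      (ε * η * τ < π → (B.T / 10000 < ε * η * τ → ∀ x, lowF f (ε * η) x τ ≤ e1 τ) ∧
      (B.v0 / 10000 < ε * η * τ → topF f (ε * η) τ ≤ e2 τ)) := by
  simp only [b4Ok, Bool.and_eq_true, decide_eq_true_eq] at hk
  obtain ⟨⟨⟨k1, k2⟩, k3⟩, k4⟩ := hk
  obtain ⟨e1, c1, m1, r1, f1⟩ := tch_er h o.p4 (g := fun s => 1.035 / s) hy.low
    (fun _ => norm_nonneg _) (pre := preL) (fun a b ha => ⟨_, mem_ratn 10350 ha, by positivity,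
      fun s h1 _ _ => by
        have a0 : (0 : ℝ) < a / 10000 := by positivity
        refine (div_le_div_of_nonneg_left (by norm_num) a0 h1.le).trans_eq ?_
        push_cast
        field_simp
        norm_num⟩) _ _ k1 k2
  obtain ⟨e2, c2, m2, r2, f2⟩ := tch_er h o.p4 (g := fun s => s * (1 + dd s ^ 2 / 2) * (4 * π)⁻¹)
    hy.top (fun _ => norm_nonneg _) (pre := preT) (fun a b ha => ⟨_, ((nd_mem b).mul
      ((Sem.cons (mem_nat 1) (Sem.cons mem_zero (Sem.cons (mem_r1 (d := 72) (by norm_num))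
      (Sem.cons mem_zero (Sem.const (mem_ratn 7 (d := 10000) (by norm_num))))))).eval
      (nd_mem b))).mul i4I_mem, by positivity, fun s h1 h2 h3 => by
        have s0 : 0 < s := lt_of_le_of_lt (by positivity) h1
        have a1 := (dd_pi s0 h3.le).2.2
        have a2 := pow_le_pow_left₀ s0.le h2 2
        have a3 := pow_le_pow_left₀ s0.le h2 4
        refine mul_le_mul_of_nonneg_right (mul_le_mul h2 ?_ (by positivity) (by positivity))
          (by positivity)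
        push_cast
        linarith⟩) _ _ k3 k4
  refine ⟨e1, e2, _, m1.add m2, (r1.add r2).mono (le_of_eq (mul_add _ _ _).symm), fun τ h0 =>
    ⟨r1.2.1 τ h0, r2.2.1 τ h0, fun hp => ⟨fun ht x => ?_, fun hv => ?_⟩⟩⟩
  · have t0 := mul_pos h.h h0
    refine (div_le_div_of_nonneg_right (kN_le _ _ (by norm_num) (kK_const t0 hp.le)) h0.le).trans
      (le_of_eq_of_le ?_ (f1 τ h0 ht hp))
    have := h.e
    have := h.n
    field_simp
  · refine le_of_eq_of_le ?_ (f2 τ h0 hv hp)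
    rw [topF]
    field_simp

end Bx

end Pool.Agent.Lib.MP_33650d_pr.RM
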