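import Pool.Agent.Lib.MP_33650d_pr.X.R1S

namespace Pool.Agent.Lib.MP_33650d_pr.RM
open MeasureTheory Real Set Iv

/-- A term with its exact normalised integral. -/
def Ex (e : ℝ → ℝ) (c : ℝ) : Prop := Integrable e mu0 ∧ ∫ τ, e τ ∂mu0 = √(π / 2) * c

theorem Ex.add {e e' : ℝ → ℝ} {c c' : ℝ} (h : Ex e c) (h' : Ex e' c') :
    Ex (fun τ => e τ + e' τ) (c + c') :=
  ⟨h.1.add h'.1, by rw [integral_add h.1 h'.1, mul_add, h.2, h'.2]⟩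

theorem Ex.mul {e : ℝ → ℝ} {c : ℝ} (h : Ex e c) (a : ℝ) : Ex (fun τ => a * e τ) (a * c) :=
  ⟨h.1.const_mul a, by rw [integral_const_mul, h.2, mul_left_comm]⟩

theorem Ex.dot {P M : List Iv} {F φ : ℝ → ℝ} (h : Sem P F) (hM : Mo mu0 √(π / 2) (fun τ => τ) M φ)
    (hl : P.length ≤ M.length) : ∃ c, (dot P M).Mem c ∧ Ex (fun τ => F τ * φ τ) c := by
  obtain ⟨i, c, hc, ec⟩ := h.dot hM hl
  exact ⟨c, hc, i, ec⟩

theorem Ex.er {e e' : ℝ → ℝ} {c c' : ℝ} (h : Ex e c) (he : ∀ τ, e τ = e' τ) (hc : c = c')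
    (h0 : ∀ τ, 0 < τ → 0 ≤ e' τ) : Er e' c' := by
  rw [← show e = e' from funext he, ← hc] at *
  exact ⟨h.1, h0, h.2.le⟩

namespace Bx

variable {B : Bx} {C : Cfg} {f : ℝ → ℂ} {ε η j k N K J a4 b4 a5 b5 a6 b6 : ℝ}
  {κ κ' : Iv} {c3 c4 c5 c6 : ℝ}

def MF (B : Bx) : List Iv := momF B.r2 10000 50
def wpQ (B : Bx) (C : Cfg) (κ : Iv) : List Iv := wP B.HI (c3I κ) (B.wQ C κ)
def thP (B : Bx) (C : Cfg) (κ : Iv) : List Iv := psh (psm B.eI (psq (pabs (B.wpQ C κ))))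
def fI (B : Bx) : Iv := B.nI * B.nI * B.nI * i4I * rat 1 36
def W3 (B : Bx) (C : Cfg) (κ : Iv) : List Iv :=
  [B.fI * dot (pshn 2 (ppow (B.thP C κ) 3)) B.MF,
    B.fI * nat 3 * dot (pshn 3 (ppow (B.thP C κ) 2)) B.MF,
    B.fI * nat 3 * dot (pshn 4 (B.thP C κ)) B.MF, B.fI * dot (pshn 5 [nat 1]) B.MF]
def pre (B : Bx) : Iv := B.eI * (B.nI * B.nI) * i4I
def RX (B : Bx) : Iv := B.pre * dot (pshn 3 [rat 1 2]) B.MF
def Rs (B : Bx) : Iv :=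
  B.pre * dot (psm (B.nI * B.nI * B.nI * B.eI) (pshn 4 [d3I, B.hI * d4I])) B.MF
def Ff (B : Bx) : Iv := nat 2 * (B.nI * B.nI) * i4I * dot (psh B.ddP) B.MF
def Om2 (B : Bx) : Iv :=
  if B.n0 = 0 then B.Om else hull zero
    (sqn 1 (rat (min (B.e1 * B.t1 * B.n0) (B.v0 * 10 ^ 8) : ℕ) (B.n0 * 10 ^ 8)))
def rs1Ok (B : Bx) (C : Cfg) (κ : Iv) : Bool :=
  decide (B.r1 ≤ B.r2) && decide ((pshn 2 (ppow (B.thP C κ) 3)).length ≤ 50) &&
    decide ((pshn 3 (ppow (B.thP C κ) 2)).length ≤ 50) && decide ((pshn 4 (B.thP C κ)).length ≤ 50)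

def ntE (B : Bx) (C : Cfg) : ℕ × Iv × Iv × Iv := C.nt.getD B.nt (0, zero, zero, zero)
def d0I (B : Bx) (C : Cfg) (κ : Iv) : Iv := ((B.ntE C).2.1 * (B.nI * B.nI) - B.c4I C κ).pos
def d1I (B : Bx) (C : Cfg) (κ : Iv) : Iv :=
  ((B.ntE C).2.2.1 * (B.nI * B.nI * (B.nI * B.nI)) + B.c6I C κ).pos
def cjn (B : Bx) (C : Cfg) : Iv := (B.ntE C).2.2.2 * B.nI
def k72 (B : Bx) : List Iv := [nat 1, zero, B.hI * B.hI * rat 1 72]
def omP (B : Bx) (C : Cfg) (κ : Iv) : List Iv := psq (padd [B.nI * rat 1 6] (B.wpQ C κ))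
def R1 (B : Bx) (C : Cfg) (κ : Iv) : Iv := B.pre * dot (pshn 3 (B.omP C κ)) B.MF
def PRd (B : Bx) (C : Cfg) (κ : Iv) : List Iv :=
  padd (psm (rat 1 2) (pshn 3 (pmul (B.omP C κ) (B.omP C κ))))
    (pshn 5 (pmul B.k72 [B.d0I C κ, zero, B.HI * B.d1I C κ]))
def R2 (B : Bx) (C : Cfg) (κ : Iv) : Iv := B.pre * dot (B.PRd C κ) B.MF + B.Rs
def E1b (B : Bx) (C : Cfg) : Iv := B.pre * dot (psm (B.HI * B.cjn C) (pshn 5 B.k72)) B.MF
def rs2Ok (B : Bx) (C : Cfg) (κ : Iv) : Bool :=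
  decide (B.nt < C.nt.length) && decide (B.v0 ≤ (B.ntE C).1) &&
    rateOk [B.c4I C κ + B.d0I C κ + B.jI * B.cjn C, B.d1I C κ - B.c6I C κ] B.Om2 B.r2 &&
    decide ((pshn 3 (B.omP C κ)).length ≤ 50) && decide ((B.PRd C κ).length ≤ 50)

noncomputable def l2 (B : Bx) : ℝ := ((10000 : ℕ) / B.r2 : ℝ) ^ 2

theorem Ok0.om2 (h : B.In ε η j N J) (o : B.Ok0 C ε η) {τ : ℝ} (h0 : 0 < τ) (hg : B.good ε τ)
    (hv : ε * η * τ ≤ B.v0 / 10000) : B.Om2.Mem (ε ^ 2 * τ ^ 2) := by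
  unfold Om2
  split_ifs with hn
  · exact o.om h.e h0 hg
  have n0 : 0 < B.n0 := Nat.pos_of_ne_zero hn
  have e0 := h.e
  refine mem_zero.hull (mem_sqn 1 (mem_ratn _ (by positivity))) (by positivity) ?_
  rw [← mul_pow]
  refine pow_le_pow_left₀ (by positivity) ?_ 2
  have a1 := mul_le_mul_of_nonneg_right (o.g2 τ h0 hg) (show (0 : ℝ) ≤ B.n0 by positivity)
  have a2 := mul_le_mul_of_nonneg_left h.n0 (show 0 ≤ ε * τ by positivity)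
  rw [le_div_iff₀ (by positivity)]
  push_cast
  exact le_min (by linarith) (by linarith)

theorem rest_er (h : B.In ε η j N J) (o : B.Ok0 C ε η) (hy : Hyp C f N K J a4 b4 a5 b5 a6 b6)
    (c : B.Co C κ ε c3 c4 c5 c6) (c' : B.Co C κ' ε c3 c4 c5 c6) (hk : B.rs1Ok C κ = true)
    (hk' : B.rs2Ok C κ' = true) : ∃ (rx r1 r2 e1 ff : ℝ) (w3 : ℝ → ℝ), B.RX.Mem rx ∧
      (B.R1 C κ').Mem r1 ∧ (B.R2 C κ').Mem r2 ∧ (B.E1b C).Mem e1 ∧ B.Ff.Mem ff ∧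
      Sem (B.W3 C κ) w3 ∧ 0 ≤ e1 ∧
      (∀ x x1, |x| ≤ x1 → ∃ e, Er e (ε * (x ^ 2 * rx + x * ε * r1 + ε ^ 2 * (r2 + w3 x1) + j * e1)) ∧
        ∀ τ, 0 < τ → B.good ε τ → ε * η * τ ≤ B.v0 / 10000 →
          kR (ε * η * τ) (τ * x) (gw 1 τ * Complex.exp (gm4 ε c3 c4 c5 c6 τ)) / τ
            + topF f (ε * η) τ ≤ e τ) ∧
      ∃ e, Er e (ε * (ε * ff)) ∧ ∀ τ, 0 < τ → B.good ε τ → ε * η * τ ≤ B.v0 / 10000 → ∀ x,
          kR (ε * η * τ) (τ * x) (gw 1 τ * Complex.exp (gm4 ε c3 c4 c5 c6 τ)) / τ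
            + topF f (ε * η) τ ≤ e τ := by
  simp only [rs1Ok, rs2Ok, Bool.and_eq_true, decide_eq_true_eq] at hk hk'
  obtain ⟨⟨⟨k1, k2⟩, k3⟩, k4⟩ := hk
  obtain ⟨⟨⟨⟨k5, k6⟩, k7⟩, k8⟩, k9⟩ := hk'
  obtain ⟨m4, m6, cc, s4, s6, sc, c0, hb⟩ := hy.nt (B.ntE C) (by
    rw [ntE, List.getD_eq_getElem _ _ k5]
    exact List.getElem_mem _)
  have e0 := h.e
  have n0 := h.n
  have j0 := h.jn
  have r := fun (d : ℕ) (hd : 0 < d) => mem_r1 hd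
  have r2 : 0 < B.r2 := by have := o.r1; omega
  have mf : Mo mu0 √(π / 2) (fun τ => τ) B.MF (gi B.l2 0) := momF_mo r2 (by norm_num) 50
  have ml : B.MF.length = 50 := by rw [MF, momF, genM_length]
  have nn := h.nI.mul h.nI
  have hh := h.hI.mul h.hI
  have mp : B.pre.Mem (ε * (η * η) * (4 * π)⁻¹) := (h.eI.mul nn).mul i4I_mem
  have mfi : B.fI.Mem (η * η * η * (4 * π)⁻¹ * (1 / (36 : ℕ))) :=
    ((nn.mul h.nI).mul i4I_mem).mul (r 36 (by norm_num))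
  have st : Sem (B.thP C κ) fun τ => τ * (ε * pval (pabs (B.wpQ C κ)) (τ ^ 2)) :=
    ((Sem.pabs _).sq.sm h.eI).sh
  have so : Sem (B.omP C κ') _ := ((Sem.const (h.nI.mul (r 6 (by norm_num)))).add
    (Sem.wP h.HI c'.m3 c'.w)).sq
  have sk : Sem B.k72 _ := Sem.cons (mem_nat 1) (Sem.cons mem_zero
    (Sem.const (hh.mul (r 72 (by norm_num)))))
  have md0 : (B.d0I C κ').Mem (B.d0I C κ').val := mem_pos _
  have md1 : (B.d1I C κ').Mem (B.d1I C κ').val := mem_pos _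
  have pd0 : 0 ≤ (B.d0I C κ').val := pos_nonneg _
  have pd1 : 0 ≤ (B.d1I C κ').val := pos_nonneg _
  have ld0 : m4 * (η * η) - c4 ≤ (B.d0I C κ').val := ((s4.mul nn).sub c'.m4).le_pos
  have ld1 : m6 * (η * η * (η * η)) + c6 ≤ (B.d1I C κ').val :=
    ((s6.mul (nn.mul nn)).add c'.m6).le_pos
  have mc : (B.cjn C).Mem (cc * η) := sc.mul h.nI
  obtain ⟨i1, m1, x1⟩ := Ex.dot ((Sem.const (r 2 (by norm_num))).shn 3) mf (by rw [ml]; decide)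
  obtain ⟨i2, m2, x2⟩ := Ex.dot (so.shn 3) mf (ml ▸ k8)
  obtain ⟨i3, m3, x3⟩ := Ex.dot ((((so.mul so).shn 3).sm (r 2 (by norm_num))).add ((sk.mul
    (Sem.cons md0 (Sem.cons mem_zero (Sem.const (h.HI.mul md1))))).shn 5)) mf (ml ▸ k9)
  obtain ⟨i4, m4', x4⟩ := Ex.dot (((Sem.cons (mem_ratn 37 (d := 10000) (by norm_num)) (Sem.const
    (h.hI.mul (mem_ratn 7 (d := 10000) (by norm_num))))).shn 4).sm ((nn.mul h.nI).mul h.eI)) mf
    (by rw [ml]; simp [psm, pshn])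
  obtain ⟨i5, m5, x5⟩ := Ex.dot ((sk.shn 5).sm (h.HI.mul mc)) mf
    (by rw [ml]; simp [psm, pshn, k72])
  obtain ⟨i6, m6', x6⟩ := Ex.dot ((st.pow 3).shn 2) mf (ml ▸ k2)
  obtain ⟨i7, m7, x7⟩ := Ex.dot ((st.pow 2).shn 3) mf (ml ▸ k3)
  obtain ⟨i8, m8, x8⟩ := Ex.dot (st.shn 4) mf (ml ▸ k4)
  obtain ⟨i9, m9, x9⟩ := Ex.dot (Sem.one.shn 5) mf (by rw [ml]; decide)
  obtain ⟨i10, m10, x10⟩ := Ex.dot h.ddP.sh mf (by rw [ml]; simp [psh, Bx.ddP])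
  have g0 := gi_nonneg B.l2 0
  have tp := fun τ : ℝ => pval_nonneg (B.wpQ C κ) (sq_nonneg τ)
  have key : ∀ τ, 0 < τ → B.good ε τ → ε * η * τ ≤ B.v0 / 10000 →
      ‖f (2 * π - ε * η * τ)‖ ≤ gw 1 τ * exp (ε ^ 2 * (τ ^ 2 * (τ ^ 2 * (c4 - ε ^ 2 * c6 * τ ^ 2))))
        * exp (ε ^ 2 * τ ^ 4 * ((B.d0I C κ').val + ε ^ 2 * τ ^ 2 * (B.d1I C κ').val + j * (cc * η)))
      ∧ gw 1 τ * exp (ε ^ 2 * (τ ^ 2 * (τ ^ 2 * (c4 - ε ^ 2 * c6 * τ ^ 2))))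
        * exp (ε ^ 2 * τ ^ 4 * ((B.d0I C κ').val + ε ^ 2 * τ ^ 2 * (B.d1I C κ').val + j * (cc * η)))
        ≤ gi B.l2 0 τ := by
    intro τ h0 hg hv
    constructor
    · refine (hb _ (by positivity) (hv.trans (by gcongr))).trans ?_
      rw [gw, ← exp_add, ← exp_add]
      refine exp_le_exp.2 ?_
      have a1 := mul_le_mul_of_nonneg_left ld0 (show 0 ≤ ε ^ 2 * τ ^ 4 by positivity)
      have a2 := mul_le_mul_of_nonneg_left ld1 (show 0 ≤ ε ^ 4 * τ ^ 6 by positivity)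
      have a3 : N * (-((ε * η * τ) ^ 2 / 2) + m4 * (ε * η * τ) ^ 4 + m6 * (ε * η * τ) ^ 6)
          + cc * J * (ε * η * τ) ^ 4 = -(τ ^ 2 / 2) + ε ^ 2 * τ ^ 4 * (m4 * (η * η))
          + ε ^ 4 * τ ^ 6 * (m6 * (η * η * (η * η))) + ε ^ 2 * τ ^ 4 * (j * (cc * η)) := by
        linear_combination (-(τ ^ 2 / 2) + m4 * (ε * η) ^ 2 * τ ^ 4 + m6 * (ε * η) ^ 4 * τ ^ 6) * h.N
          + cc * (ε * η) * τ ^ 4 * h.J
      linarith
    · have a1 := mul_le_mul_of_nonneg_right (rate_le (Sem.cons ((c'.m4.add md0).add (h.jI.mul mc))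
        (Sem.const (md1.sub c'.m6))) (o.om2 h h0 hg hv) (by positivity) r2 k7) (sq_nonneg τ)
      rw [gi_of _ h0, mul_assoc, ← exp_add]
      exact gw_mul_le (le_of_eq_of_le (by ring) a1)
  refine ⟨_, _, _, _, _, _, mp.mul m1, mp.mul m2, (mp.mul m3).add (mp.mul m4'), mp.mul m5,
    (((mem_nat 2).mul nn).mul i4I_mem).mul m10, Sem.cons (mfi.mul m6') (Sem.cons
    ((mfi.mul (mem_nat 3)).mul m7) (Sem.cons ((mfi.mul (mem_nat 3)).mul m8)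
    (Sem.const (mfi.mul m9)))), mul_nonneg (by positivity) (x5.er (fun _ => rfl) rfl fun τ h0 => by
      have := g0 τ
      positivity).nonneg, fun x y hx => ?_, ?_⟩
  · have y0 := (abs_nonneg x).trans hx
    refine ⟨fun τ => (ε * η) ^ 2 * τ * (4 * π)⁻¹ * (gi B.l2 0 τ * (ε ^ 2 * τ ^ 4 *
      ((B.d0I C κ').val + ε ^ 2 * τ ^ 2 * (B.d1I C κ').val + j * (cc * η))
      * (1 + (ε * η * τ) ^ 2 / 72) + (τ * x + ε * τ * (τ ^ 2 * (c3 + ε ^ 2 * (-c5 * τ ^ 2)))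
      + ε * η * τ / 6) ^ 2 / 2 + ε * η * τ * (τ * y + τ * (ε * pval (pabs (B.wpQ C κ))
      (τ ^ 2))) ^ 3 / 36 + 37 / 10000 * (ε * η * τ) ^ 3 + 7 / 10000 * (ε * η * τ) ^ 4)),
      ((((((x1.mul (x ^ 2)).add (x2.mul (x * ε))).add ((x3.add x4).mul (ε ^ 2))).add
      (x5.mul j)).mul (ε * (ε * (η * η) * (4 * π)⁻¹))).add ((((x6.add (x7.mul (3 * y))).add
      (x8.mul (3 * y ^ 2))).add (x9.mul (y ^ 3))).mul
      (ε ^ 3 * (η * η * η * (4 * π)⁻¹ / 36)))).er (fun τ => ?_) ?_ fun τ h0 => ?_,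
      fun τ h0 hg hv => ?_⟩
    · push_cast
      ring
    · push_cast
      ring
    · have := g0 τ
      have := tp τ
      positivity
    · have t0 : 0 < ε * η * τ := by positivity
      obtain ⟨d1, d2, d3⟩ := dd_pi t0 (hv.trans o.v0.le)
      obtain ⟨b1, b2⟩ := key τ h0 hg hv
      have b3 := (Sem.wP h.HI c.m3 c.w).abs_le (sq_nonneg τ)
      have b4 := kR_near t0 d1 d2 d3 (by norm_num) (ψ := τ * x)
        (w := ε * τ * (τ ^ 2 * (c3 + ε ^ 2 * (-c5 * τ ^ 2))))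
        (θ := τ * y + τ * (ε * pval (pabs (B.wpQ C κ)) (τ ^ 2)))
        (mul_pos (gw_pos _ _) (exp_pos _)).le (by positivity) (norm_nonneg _) b1 b2 (by
          refine (abs_add_le _ _).trans (add_le_add ?_ ?_)
          · rw [abs_mul, abs_of_pos h0]
            exact mul_le_mul_of_nonneg_left hx h0.le
          · rw [abs_mul, abs_of_pos (mul_pos e0 h0)]
            exact (mul_le_mul_of_nonneg_left b3 (mul_pos e0 h0).le).trans_eq (by rw [wpQ]; ring))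
      rw [gm4, gam_exp, topF, ← add_div]
      refine (div_le_div_of_nonneg_right b4 h0.le).trans_eq ?_
      field_simp
  · refine ⟨_, (x10.mul (ε * (ε * (2 * (η * η) * (4 * π)⁻¹)))).er (fun _ => rfl) (by push_cast; ring)
      fun τ h0 => by have := g0 τ; positivity, fun τ h0 hg hv x => ?_⟩
    have t0 : 0 < ε * η * τ := by positivity
    obtain ⟨b1, b2⟩ := key τ h0 hg hv
    have b3 : ‖gw 1 τ * Complex.exp (gm4 ε c3 c4 c5 c6 τ)‖ ≤ gi B.l2 0 τ := by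
      rw [norm_mul, Complex.norm_real, norm_of_nonneg (gw_pos _ _).le, Complex.norm_exp, gm4,
        gam_re]
      exact (le_mul_of_one_le_right (mul_pos (gw_pos _ _) (exp_pos _)).le
        (one_le_exp (by positivity))).trans b2
    have b4 := add_le_add (le_refl 1) (dd_pi t0 (hv.trans o.v0.le)).2.2
    have b5 := mul_le_mul_of_nonneg_left (mul_le_mul b4 b3 (norm_nonneg _) (by positivity))
      (show 0 ≤ (ε * η * τ) ^ 2 / (4 * π) by positivity)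
    have b6 := mul_le_mul_of_nonneg_left (mul_le_mul b4 (b1.trans b2) (norm_nonneg _)
      (by positivity)) (show 0 ≤ (ε * η * τ) ^ 2 / (4 * π) by positivity)
    rw [topF, ← add_div]
    refine (div_le_div_of_nonneg_right (add_le_add ((kR_far _ _ _).trans b5) b6) h0.le).trans_eq ?_
    field_simp
    ring

end Bx

end Pool.Agent.Lib.MP_33650d_pr.RM
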