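import Pool.Agent.Lib.MP_33650d_pr.X.R1N

namespace Pool.Agent.Lib.MP_33650d_pr.RM
open MeasureTheory Real Set Iv

theorem bP_all (t : ℝ) : ‖bP t‖ ≤ 1 + t ^ 2 * (1 / 8 + t ^ 2 / 720) := by
  refine abs_le_of_sq_le_sq' ?_ (by positivity) |>.2
  have e : ‖bP t‖ ^ 2 = (1 - t ^ 2 / 12 - (t ^ 2) ^ 2 / 720) ^ 2 + t ^ 2 / 4 := by
    rw [Complex.sq_norm, Complex.normSq_apply, bP]
    simp only [Complex.sub_re, Complex.ofReal_re, Complex.mul_re, Complex.I_re, Complex.ofReal_im,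
      Complex.I_im, Complex.sub_im, Complex.mul_im]
    ring
  rw [e]
  have h3 : 0 ≤ t ^ 2 := by positivity
  generalize t ^ 2 = s at *
  nlinarith [mul_nonneg h3 h3, mul_nonneg h3 (mul_nonneg h3 h3)]

theorem mmF_le (h x : ℝ) (γ : ℝ → ℂ) {τ : ℝ} (h0 : 0 < τ) : -mmF h x γ τ ≤ gw 1 τ *
    (‖bP (h * τ)‖ * ‖∑ k ∈ Finset.range 6, γ τ ^ k / (k.factorial : ℂ)‖) / τ := by
  rw [mmF, ← neg_div, ← mul_neg, ← norm_mul]
  refine div_le_div_of_nonneg_right (mul_le_mul_of_nonneg_left ?_ (gw_pos _ _).le) h0.le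
  have := r1_cs (-sin (τ * x)) (-cos (τ * x))
    (bP (h * τ) * ∑ k ∈ Finset.range 6, γ τ ^ k / (k.factorial : ℂ)) zero_le_one (by simp)
  linarith

namespace Bx

variable {B : Bx} {C : Cfg} {f : ℝ → ℂ} {ε η j k N K J a4 b4 a5 b5 a6 b6 : ℝ}
  {κ : Iv} {c3 c4 c5 c6 : ℝ}

def bQ (B : Bx) (C : Cfg) (κ : Iv) : List Iv :=
  pshn 2 (psm B.HI [(B.c4I C κ).pos, B.HI * (-B.c6I C κ).pos])
def t6Q (b : List Iv) : List Iv :=
  padd [nat 1] (pmul b (padd [nat 1] (psm (rat 1 2) (pmul b (padd [nat 1] (psm (rat 1 3) (pmul b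
    (padd [nat 1] (psm (rat 1 4) (pmul b (padd [nat 1] (psm (rat 1 5) b))))))))))))
def N1 (B : Bx) (C : Cfg) (κ : Iv) : List Iv :=
  pmul [nat 1, B.hI * B.hI * rat 1 8, sqn 1 (B.hI * B.hI) * rat 1 720] (padd (t6Q (B.bQ C κ))
    (psm (rat 1 720) (ppow (pmul (padd [nat 1] (psm (nat 2) (B.bQ C κ)))
      (padd (psm B.HI (psh (B.qQ C κ))) (psm (nat 2) (B.bQ C κ)))) 3)))

theorem n1_le (h : B.In ε η j N J) (c : B.Co C κ ε c3 c4 c5 c6) (x : ℝ) {τ : ℝ} (h0 : 0 < τ) :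
    -mmF (ε * η) x (gm4 ε c3 c4 c5 c6) τ ≤ gw 1 τ * pval (pabs (B.N1 C κ)) (τ ^ 2) / τ := by
  obtain ⟨q, sq, q0, eq⟩ := c.q h
  have r := fun (d : ℕ) (hd : 0 < d) => mem_r1 hd
  have sb := ((Sem.cons (mem_pos (B.c4I C κ)) (Sem.const (h.HI.mul
    (mem_pos (-B.c6I C κ))))).sm h.HI).shn 2
  have p4 := pos_nonneg (B.c4I C κ)
  have p6 := pos_nonneg (-B.c6I C κ)
  have l4 := c.m4.le_pos
  have l6 := c.m6.neg.le_pos
  have hh := h.hI.mul h.hI
  have sN := ((Sem.cons (mem_nat 1) (Sem.cons (hh.mul (r 8 (by norm_num))) (Sem.const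
    ((mem_sqn 1 hh).mul (r 720 (by norm_num)))))).mul ((Sem.one.add (sb.mul (Sem.one.add
    ((sb.mul (Sem.one.add ((sb.mul (Sem.one.add ((sb.mul (Sem.one.add
    (sb.sm (r 5 (by norm_num))))).sm (r 4 (by norm_num))))).sm (r 3 (by norm_num))))).sm
    (r 2 (by norm_num)))))).add ((((Sem.one.add (sb.sm (mem_nat 2))).mul ((sq.sh.sm h.HI).add
    (sb.sm (mem_nat 2)))).pow 3).sm (r 720 (by norm_num))))).abs_le (sq_nonneg τ)
  refine (mmF_le _ x _ h0).trans (div_le_div_of_nonneg_right (mul_le_mul_of_nonneg_left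
    (le_trans ?_ ((le_abs_self _).trans sN)) (gw_pos _ _).le) h0.le)
  generalize (B.c4I C κ).pos.val = u at *
  generalize (-B.c6I C κ).pos.val = v at *
  have a1 := r1_T6 (gm4 ε c3 c4 c5 c6 τ) (b := (τ ^ 2) ^ 2 * (ε ^ 2 * (u + τ ^ 2 * (ε ^ 2 * v))))
    (by positivity) (by
      rw [gm4, gam_re]
      have := mul_le_mul_of_nonneg_left l4 (show 0 ≤ ε ^ 2 * τ ^ 4 by positivity)
      have := mul_le_mul_of_nonneg_left l6 (show 0 ≤ ε ^ 4 * τ ^ 6 by positivity)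
      linarith)
  rw [eq] at a1
  refine (mul_le_mul (bP_all _) a1 (norm_nonneg _) (by positivity)).trans_eq ?_
  generalize (τ ^ 2) ^ 2 * (ε ^ 2 * (u + τ ^ 2 * (ε ^ 2 * v))) = b
  push_cast
  ring

def muC (B : Bx) (mu nu : List Iv) : List Iv :=
  psub (pshn 2 (pscale B.hI mu)) (psm (B.eI * B.jI) (pshn 3 (pscale B.hI nu)))
def preC (B : Bx) (a b : ℕ) : Iv :=
  if B.mA then rat 10000 a else rat (b ^ (B.q - 1)) (10000 ^ (B.q - 1))

/-- One cell in the scaled frequency. -/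
def cstep (B : Bx) (C : Cfg) (P : List Iv) (a b ty : ℕ) : Bool × Iv :=
  match C.cub[ty]? with
  | none => (false, zero)
  | some e => (decide (0 < a) && decide (min (B.T * 10 ^ 8) (b * B.e1 * B.n1) ≤ e.2.1 * 10 ^ 8) &&
      decide (e.1 * 10 ^ 8 ≤ a * B.e0 * B.n0) && cellOk (B.muC e.2.2.1 e.2.2.2) a b 0 &&
      cellOk [zero, zero, rat 1 2] a b 0,
    B.preC a b * (rat 1035 1000 * cellI (B.muC e.2.2.1 e.2.2.2) a b
      + peval (pabs P) (nd b * nd b) * cellI [zero, zero, rat 1 2] a b))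

/-- The majorant beyond the cut, times the frequency. -/
noncomputable def tl (B : Bx) (f : ℝ → ℂ) (P : List Iv) (h τ : ℝ) : ℝ :=
  (if h * τ ≤ B.T / 10000 then 1.035 * ‖f (h * τ)‖ else 0) + pval (pabs P) (τ ^ 2) * gw 1 τ

theorem tl_nonneg (B : Bx) (f : ℝ → ℂ) (P : List Iv) (h τ : ℝ) : 0 ≤ B.tl f P h τ :=
  add_nonneg (by split_ifs <;> positivity) (mul_nonneg (pval_nonneg _ (sq_nonneg _)) (gw_pos _ _).le)

theorem In.lo (h : B.In ε η j N J) {a l : ℕ} (hl : l * 10 ^ 8 ≤ a * B.e0 * B.n0) {τ : ℝ}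
    (ha : a / 10000 < τ) : l / 10000 < ε * η * τ := by
  have a1 : (l : ℝ) * 10 ^ 8 ≤ a * B.e0 * B.n0 := by exact_mod_cast hl
  have a2 := mul_le_mul_of_nonneg_right (mul_le_mul h.e0 h.n0 (by positivity) h.e.le)
    (show (0 : ℝ) ≤ a / 10000 by positivity)
  have a3 := mul_lt_mul_of_pos_left ha h.h
  linarith

theorem q_pos (o : B.Ok0 C ε η) (hA : ¬ B.mA = true) : B.q = B.q - 1 + 1 := by
  have := o.p1
  rw [q, if_neg hA]
  omega

theorem cstep_er (h : B.In ε η j N J) (o : B.Ok0 C ε η) (hy : Hyp C f N K J a4 b4 a5 b5 a6 b6)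
    (P : List Iv) (a b ty : ℕ) (hk : (B.cstep C P a b ty).1 = true) :
    ∃ e c, (B.cstep C P a b ty).2.Mem c ∧ Er e (ε ^ B.p * B.wR * c) ∧ ∀ s : ℝ, a / 10000 < s →
      s ≤ b / 10000 → 1 ≤ ε ^ B.p * B.wR * s ^ B.q → B.tl f P (ε * η) s / s ≤ e s := by
  unfold cstep at hk ⊢
  split at hk
  · exact absurd hk Bool.false_ne_true
  rename_i en hen
  simp only [Bool.and_eq_true, decide_eq_true_eq] at hk
  obtain ⟨⟨⟨⟨k1, k2⟩, k3⟩, k4⟩, k5⟩ := hk
  obtain ⟨μ, ν, s1, s2, hb⟩ := hy.cub en (List.mem_of_getElem? hen)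
  obtain ⟨e1, c1, m1, r1, f1⟩ := cell_er (((s1.scale h.hI).shn 2).sub
    (((s2.scale h.hI).shn 3).sm (h.eI.mul h.jI))) k4
  obtain ⟨e2, c2, m2, r2, f2⟩ := cell_er (Sem.cons mem_zero (Sem.cons mem_zero
    (Sem.const (mem_r1 (d := 2) (by norm_num))))) k5
  have a0 : (0 : ℝ) < a / 10000 := by positivity
  obtain ⟨d, md, d0, hd⟩ : ∃ d, (B.preC a b).Mem d ∧ 0 ≤ d ∧ ∀ s : ℝ, a / 10000 < s →
      s ≤ b / 10000 → s ^ B.q / s ≤ d := by
    unfold preC
    split_ifs with hA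
    · refine ⟨_, mem_ratn 10000 k1, by positivity, fun s h1 _ => ?_⟩
      rw [q, if_pos hA, pow_zero]
      exact (one_div_le_one_div_of_le a0 h1.le).trans_eq (by simp)
    · refine ⟨_, mem_rat _ (by positivity), by positivity, fun s h1 h2 => ?_⟩
      have s0 := a0.trans h1
      rw [q_pos o hA, pow_succ, mul_div_cancel_right₀ _ s0.ne', Nat.add_sub_cancel]
      refine (pow_le_pow_left₀ s0.le h2 _).trans_eq ?_
      push_cast
      rw [div_pow]
  have w0 : 0 ≤ ε ^ B.p * B.wR := mul_nonneg (pow_nonneg h.e.le _) B.wR_nonneg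
  have p0 := pval_nonneg P (show (0 : ℝ) ≤ b / 10000 * (b / 10000) by positivity)
  refine ⟨_, _, md.mul (((mem_ratn 1035 (by norm_num)).mul m1).add (((Sem.pabs P).eval
    ((nd_mem b).mul (nd_mem b))).mul m2)), (((r1.mul (by positivity)).add (r2.mul p0)).mul
    (mul_nonneg w0 d0)).mono (le_of_eq (mul_assoc _ _ _)), fun s h1 h2 hw => ?_⟩
  have s0 := a0.trans h1
  have t0 := B.tl_nonneg f P (ε * η) s
  have b1 : B.tl f P (ε * η) s ≤ (1035 : ℕ) / (1000 : ℕ) * e1 s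
      + pval (pabs P) (b / 10000 * (b / 10000)) * e2 s := by
    refine add_le_add ?_ (mul_le_mul (pval_mono P (sq_nonneg _) (by
      rw [← sq]; exact pow_le_pow_left₀ s0.le h2 2)) (le_trans (le_of_eq ?_) (f2 s h1 h2).1)
      (gw_pos _ _).le p0)
    · split_ifs with hT
      · refine mul_le_mul (by norm_num) ((hb _ (h.lo k3 h1) ?_).2.trans
          (le_trans (le_of_eq ?_) (f1 s h1 h2).1)) (norm_nonneg _) (by positivity)
        · have := mul_le_mul h.h1 h2 s0.le (by positivity)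
          rcases min_le_iff.1 k2 with k | k
          · have : (B.T : ℝ) * 10 ^ 8 ≤ en.2.1 * 10 ^ 8 := by exact_mod_cast k
            linarith
          · have : (b : ℝ) * B.e1 * B.n1 ≤ en.2.1 * 10 ^ 8 := by exact_mod_cast k
            linarith
        · congr 1
          linear_combination (-(s ^ 2 * μ (ε * η * s))) * h.N + s ^ 3 * ν (ε * η * s) * h.J
      · exact mul_nonneg (by positivity) (r1.2.1 s s0)
    · rw [gw]
      congr 1
      push_cast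
      ring
  have b2 := mul_le_mul (mul_le_mul_of_nonneg_left (hd s h1 h2) w0) b1 t0 (mul_nonneg w0 d0)
  refine le_trans ?_ b2
  rw [← mul_div_assoc, div_mul_eq_mul_div]
  exact div_le_div_of_nonneg_right (le_mul_of_one_le_left t0 hw) s0.le

def ql (B : Bx) : ℕ := if B.mA then 1 else B.q - 1
def preE (B : Bx) (a : ℕ) : Iv := if B.mA then rat (10 ^ 8) (a * a) else nat 1
def lastOk (B : Bx) (C : Cfg) (a : ℕ) : Bool :=
  decide (B.T * 10 ^ 8 ≤ a * B.e0 * B.n0) ||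
  match C.cub[B.last]? with
  | none => false
  | some e => decide (B.T ≤ e.2.1) && decide (e.1 * 10 ^ 8 ≤ a * B.e0 * B.n0) &&
      (e.2.2.2.isEmpty || B.uJ) && decide (0 < B.r4) && expOk (momY B.r4 10000 a 10000) &&
      le (sqn 1 (rat 10000 B.r4))
        (nat 2 * peval (psub e.2.2.1 (psm (nd B.jm) (psh e.2.2.2))) (hull zero (nd B.T)))
def lastI (B : Bx) (a : ℕ) : Iv :=
  if B.T * 10 ^ 8 ≤ a * B.e0 * B.n0 then zero
  else rat 1035 1000 * dot (pshn B.ql [nat 1]) (momT B.r4 10000 a 10000 (B.ql + 1))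

theorem pshn_length (n : ℕ) (P : List Iv) : (pshn n P).length = n + P.length := by
  induction n with
  | zero => simp [pshn]
  | succ n ih => simp [pshn, ih]; ring

theorem last_er (h : B.In ε η j N J) (hy : Hyp C f N K J a4 b4 a5 b5 a6 b6) {a : ℕ} (ha : 0 < a)
    (hk : B.lastOk C a = true) : ∃ e c, (B.lastI a).Mem c ∧ Er e c ∧ ∀ s : ℝ, a / 10000 < s →
      s ^ B.ql * (if ε * η * s ≤ B.T / 10000 then 1.035 * ‖f (ε * η * s)‖ else 0) ≤ e s := by
  unfold lastI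
  split_ifs with hT
  · exact ⟨_, _, mem_zero, Er.zero, fun s hs => by rw [if_neg (not_le.2 (h.lo hT hs)), mul_zero]⟩
  rw [lastOk, decide_eq_false hT, Bool.false_or] at hk
  split at hk
  · exact absurd hk Bool.false_ne_true
  rename_i en hen
  simp only [Bool.and_eq_true, decide_eq_true_eq, Bool.or_eq_true] at hk
  obtain ⟨⟨⟨⟨⟨k1, k2⟩, k3⟩, k4⟩, k5⟩, k6⟩ := hk
  obtain ⟨μ, ν, s1, s2, hb⟩ := hy.cub en (List.mem_of_getElem? hen)
  obtain ⟨c, m, er⟩ := Er.dot (Sem.one.shn B.ql) (momT_mo k4 (by norm_num) ha (by norm_num) k5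
    (B.ql + 1)) (by rw [momT, genM_length, pshn_length]; rfl) fun τ h0 => by
      have := gi_nonneg (((10000 : ℕ) / B.r4 : ℝ) ^ 2) (a / (10000 : ℕ)) τ
      positivity
  refine ⟨_, _, (mem_ratn 1035 (by norm_num)).mul m, er.mul (by positivity), fun s hs => ?_⟩
  have s0 : 0 < s := lt_of_le_of_lt (by positivity) hs
  have t0 := mul_pos h.h s0
  split_ifs with ht
  swap
  · rw [mul_zero]
    exact mul_nonneg (by positivity) (er.2.1 s s0)
  obtain ⟨b1, b2⟩ := hb _ (h.lo k2 hs) (ht.trans (by gcongr))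
  have b3 := (mem_sqn 1 (mem_ratn 10000 k4)).le ((mem_nat 2).mul ((s1.sub (s2.sh.sm
    (nd_mem B.jm))).eval (mem_zero.hull (nd_mem B.T) t0.le ht))) k6
  have b5 : J * ν (ε * η * s) ≤ B.jm / 10000 * N * ν (ε * η * s) := by
    rcases k3 with hz | hu
    · rw [List.isEmpty_iff] at hz
      rw [hz] at s2
      simp [s2 _]
    · exact mul_le_mul_of_nonneg_right (h.uJ hu) b1
  have b6 := mul_le_mul_of_nonneg_left b5 (pow_nonneg t0.le 3)
  have b7 := mul_le_mul_of_nonneg_right b3 (sq_nonneg s)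
  have a4 : N * (ε * η * s) ^ 2 = s ^ 2 := by linear_combination s ^ 2 * h.N
  have b8 : ‖f (ε * η * s)‖ ≤ gw (((10000 : ℕ) / B.r4 : ℝ) ^ 2) s := by
    refine b2.trans (exp_le_exp.2 ?_)
    generalize ε * η * s = t at *
    rw [← a4] at b7 ⊢
    push_cast at b7 ⊢
    linarith
  rw [gi_of _ (by exact_mod_cast hs)]
  refine (mul_le_mul_of_nonneg_left (mul_le_mul_of_nonneg_left b8 (by norm_num))
    (pow_nonneg s0.le _)).trans_eq ?_
  push_cast
  ring

def chC (B : Bx) (C : Cfg) (κ : Iv) : Bool × Iv × ℕ := chain (B.cstep C (B.N1 C κ)) B.t1 B.tn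
def PS (B : Bx) (C : Cfg) (κ : Iv) : List Iv := pshn B.ql (psq (pabs (B.N1 C κ)))
def chOk (B : Bx) (C : Cfg) (κ : Iv) : Bool :=
  (B.chC C κ).1 && decide (0 < (B.chC C κ).2.2) && B.lastOk C (B.chC C κ).2.2 &&
    expOk (momY 10000 10000 (B.chC C κ).2.2 10000)
def chI (B : Bx) (C : Cfg) (κ : Iv) : Iv :=
  B.wI * ((B.chC C κ).2.1 + B.preE (B.chC C κ).2.2 * (B.lastI (B.chC C κ).2.2
    + dot (B.PS C κ) (momT 10000 10000 (B.chC C κ).2.2 10000 (B.PS C κ).length)))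

theorem ch_er (h : B.In ε η j N J) (o : B.Ok0 C ε η) (hy : Hyp C f N K J a4 b4 a5 b5 a6 b6)
    (c : B.Co C κ ε c3 c4 c5 c6) (hk : B.chOk C κ = true) : ∃ e r, (B.chI C κ).Mem r ∧
      Er e (ε ^ B.p * r) ∧ ∀ τ, 0 < τ → ¬ B.good ε τ → ∀ x,
        (if ε * η * τ ≤ B.T / 10000 then lowF f (ε * η) x τ else 0)
          ≤ mmF (ε * η) x (gm4 ε c3 c4 c5 c6) τ + e τ := by
  simp only [chOk, Bool.and_eq_true, decide_eq_true_eq] at hk
  obtain ⟨⟨⟨k1, k2⟩, k3⟩, k4⟩ := hk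
  obtain ⟨e1, c1, m1, r1, f1⟩ := chain_er (cstep_er h o hy (B.N1 C κ)) _ _ k1
  obtain ⟨e2, c2, m2, r2, f2⟩ := last_er h hy k2 k3
  obtain ⟨c3', m3, r3⟩ := Er.dot ((Sem.pabs (B.N1 C κ)).sq.shn B.ql) (momT_mo (by norm_num)
    (by norm_num) k2 (by norm_num) k4 (B.PS C κ).length) (by rw [momT, genM_length]; rfl)
    fun τ h0 => by
      have := gi_nonneg ((((10000 : ℕ) : ℝ) / (10000 : ℕ)) ^ 2) ((B.chC C κ).2.2 / (10000 : ℕ)) τ
      have := pval_nonneg (B.N1 C κ) (sq_nonneg τ)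
      positivity
  unfold chI
  change ∀ s : ℝ, 0 < s → _ → s ≤ (B.chC C κ).2.2 / 10000 → _ at f1
  generalize (B.chC C κ).2.2 = a at *
  have a0 : (0 : ℝ) < a / 10000 := by positivity
  obtain ⟨d, md, d0, hd⟩ : ∃ d, (B.preE a).Mem d ∧ 0 ≤ d ∧ ∀ s : ℝ, a / 10000 < s →
      s ^ B.q / s ≤ d * s ^ B.ql := by
    unfold preE ql
    split_ifs with hA
    · refine ⟨_, mem_rat _ (by positivity), by positivity, fun s h1 => ?_⟩
      have := pow_le_pow_left₀ a0.le h1.le 2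
      rw [q, if_pos hA, pow_zero, div_le_iff₀ (a0.trans h1), div_mul_eq_mul_div,
        div_mul_eq_mul_div, le_div_iff₀ (by positivity)]
      push_cast
      linarith
    · refine ⟨_, mem_nat 1, by positivity, fun s h1 => le_of_eq ?_⟩
      rw [q_pos o hA, pow_succ, mul_div_cancel_right₀ _ (a0.trans h1).ne', Nat.add_sub_cancel,
        Nat.cast_one, one_mul]
  have w0 : 0 ≤ ε ^ B.p * B.wR := mul_nonneg (pow_nonneg h.e.le _) B.wR_nonneg
  have r4 := (r2.add r3).mul (mul_nonneg w0 d0)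
  refine ⟨_, _, o.w.mul (m1.add (md.mul (m2.add m3))), (r1.add r4).mono (le_of_eq (by ring)),
    fun τ h0 hg x => ?_⟩
  obtain ⟨b1, b2⟩ := o.b1 τ h0 hg
  have t0 := B.tl_nonneg f (B.N1 C κ) (ε * η) τ
  have b3 : (if ε * η * τ ≤ B.T / 10000 then lowF f (ε * η) x τ else 0)
      ≤ mmF (ε * η) x (gm4 ε c3 c4 c5 c6) τ + B.tl f (B.N1 C κ) (ε * η) τ / τ := by
    have := n1_le h c x h0
    rw [tl, add_div, mul_comm (pval _ _)]
    split_ifs with hT
    · have := div_le_div_of_nonneg_right (kN_le (τ * x) (f (ε * η * τ)) (by norm_num)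
        (kK_const (mul_pos h.h h0) (hT.trans o.T.le))) h0.le
      unfold lowF
      linarith
    · rw [zero_div]
      linarith
  refine b3.trans (add_le_add le_rfl ?_)
  rcases le_or_gt τ (a / 10000) with ha | ha
  · exact (f1 τ h0 b1 ha b2).trans (le_add_of_nonneg_right (r4.2.1 τ h0))
  refine le_trans ?_ (le_add_of_nonneg_left (r1.2.1 τ h0))
  have b4 := mul_le_mul_of_nonneg_right (mul_le_mul_of_nonneg_left (hd τ ha) w0) t0
  have b5 := mul_le_mul_of_nonneg_left (f2 τ ha) (mul_nonneg w0 d0)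
  have b6 := div_le_div_of_nonneg_right (le_mul_of_one_le_left t0 b2) h0.le
  rw [gi_of _ (by exact_mod_cast ha), div_self (by norm_num), one_pow]
  refine b6.trans ((le_of_eq (by ring)).trans (b4.trans ?_))
  unfold tl
  linarith

end Bx

end Pool.Agent.Lib.MP_33650d_pr.RM
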