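import Pool.Agent.Lib.MP_33650d_pr.X.R1G

namespace Pool.Agent.Lib.MP_33650d_pr.RM
open MeasureTheory Real Set Iv

/-- The scaled parameters satisfy the constraints of the small range. -/
structure Rng (ε η j k : ℝ) : Prop where
  lam : ε * (η / 2 + k / 6 + j) ≤ X.Cp * 0.175
  up : ∀ b : ℝ, 1 + X.dE ≤ b → k ≤ (X.dE + 3 * X.dE / b) * η + b * j
  dn : ∀ b : ℝ, 1 - X.dE ≤ b → -k ≤ (-X.dE + 3 * X.dE / b) * η + b * j

/-- A property holds on a box of parameters. -/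
def Cov (P : ℝ → ℝ → ℝ → ℝ → Prop) (e0 e1 n0 n1 j0 j1 : ℕ) : Prop :=
  ∀ ε η j k : ℝ, 0 < ε → 0 < η → e0 / 10000 ≤ ε → ε ≤ e1 / 10000 → n0 / 10000 ≤ η →
    η ≤ n1 / 10000 → j0 / 10000 ≤ j → j ≤ j1 / 10000 → Rng ε η j k → P ε η j k

/-- The test that `k` lies between `k0 / 10000` and `k1 / 10000` on a box. -/
def kOk (e0 n0 n1 j0 j1 : ℕ) (k0 k1 : ℤ) (bl bu : ℕ) : Bool :=
  decide (8378 ≤ bl) && le ((nat 3 * dI * rat 10000 bl - dI) * hull (nd n0) (nd n1) + nd bl * nd j1)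
    (rat (-k0) 10000) &&
  (decide (11623 ≤ bu) && le ((dI + nat 3 * dI * rat 10000 bu) * hull (nd n0) (nd n1)
    + nd bu * nd j1) (rat k1 10000) ||
  decide (0 < e0) && le (nat 6 * (rat 179734 1000000 * rat 10000 e0 - nd n0 * rat 1 2 - nd j0))
    (rat k1 10000))

theorem kOk_sound {e0 n0 n1 j0 j1 : ℕ} {k0 k1 : ℤ} {bl bu : ℕ}
    (h : kOk e0 n0 n1 j0 j1 k0 k1 bl bu = true) {ε η j k : ℝ} (he : 0 < ε) (hn : 0 < η)
    (h1 : e0 / 10000 ≤ ε) (h2 : n0 / 10000 ≤ η) (h3 : η ≤ n1 / 10000) (h4 : j0 / 10000 ≤ j)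
    (h5 : j ≤ j1 / 10000) (hr : Rng ε η j k) : (k0 : ℝ) / 10000 ≤ k ∧ k ≤ (k1 : ℝ) / 10000 := by
  have d1 := X.r10_lo
  have d2 := X.r10_hi
  have hη := (nd_mem n0).hull (nd_mem n1) h2 h3
  simp only [kOk, Bool.and_eq_true, Bool.or_eq_true, decide_eq_true_eq] at h
  obtain ⟨⟨a1, a2⟩, a3⟩ := h
  constructor
  · have b0 : 0 < bl := by omega
    have b1 : (8378 : ℝ) ≤ bl := by exact_mod_cast a1
    have c1 := (((((mem_nat 3).mul dI_mem).mul (mem_ratn 10000 b0)).sub dI_mem).mul hη).add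
      ((nd_mem bl).mul (nd_mem j1))
    have c2 := c1.le (mem_rat (-k0) (d := 10000) (by norm_num)) a2
    have c3 := hr.dn (bl / 10000) (by unfold X.dE; linarith)
    have c4 : (bl : ℝ) / 10000 * j ≤ bl / 10000 * (j1 / 10000) :=
      mul_le_mul_of_nonneg_left h5 (by positivity)
    have c5 : 3 * X.dE / ((bl : ℝ) / 10000) = 3 * X.dE * (10000 / bl) := by
      field_simp
    rw [c5] at c3
    push_cast at c2
    linarith
  · rcases a3 with ⟨a3, a4⟩ | ⟨a3, a4⟩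
    · have b0 : 0 < bu := by omega
      have b1 : (11623 : ℝ) ≤ bu := by exact_mod_cast a3
      have c1 := ((dI_mem.add (((mem_nat 3).mul dI_mem).mul (mem_ratn 10000 b0))).mul hη).add
        ((nd_mem bu).mul (nd_mem j1))
      have c2 := c1.le (mem_rat k1 (d := 10000) (by norm_num)) a4
      have c3 := hr.up (bu / 10000) (by unfold X.dE; linarith)
      have c4 : (bu : ℝ) / 10000 * j ≤ bu / 10000 * (j1 / 10000) :=
        mul_le_mul_of_nonneg_left h5 (by positivity)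
      have c5 : 3 * X.dE / ((bu : ℝ) / 10000) = 3 * X.dE * (10000 / bu) := by
        field_simp
      rw [c5] at c3
      push_cast at c2
      linarith
    · have b1 : (0 : ℝ) < e0 := by exact_mod_cast a3
      have c1 := (mem_nat 6).mul ((((mem_rat 179734 (d := 1000000) (by norm_num)).mul
        (mem_ratn 10000 a3)).sub ((nd_mem n0).mul (mem_r1 (d := 2) (by norm_num)))).sub
        (nd_mem j0))
      have c2 := c1.le (mem_rat k1 (d := 10000) (by norm_num)) a4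
      have c3 : ε * (η / 2 + k / 6 + j) ≤ 0.179734 := hr.lam.trans (by unfold X.Cp; linarith)
      have c4 : 1 ≤ ε * (10000 / e0) := by
        rw [← mul_div_assoc, le_div_iff₀ b1]
        linarith
      have c5 : η / 2 + k / 6 + j ≤ 0.179734 * (10000 / e0) := by
        refine le_of_mul_le_mul_left (c3.trans ?_) he
        nlinarith
      push_cast at c2
      linarith

/-- A tree of subdivisions. -/
inductive Tr
  | emp (k0 k1 : ℤ) (bl bu : ℕ)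
  | box (B : Bx) (k0 k1 : ℤ) (bl bu : ℕ) (ks : List (ℤ × List ℕ))
  | se (m : ℕ) (l r : Tr)
  | sn (m : ℕ) (l r : Tr)
  | sj (m : ℕ) (l r : Tr)

def Tr.ok (ck : Bx → ℤ → ℤ → List (ℤ × List ℕ) → Bool) : Tr → ℕ → ℕ → ℕ → ℕ → ℕ → ℕ → Bool
  | emp k0 k1 bl bu, e0, _, n0, n1, j0, j1 => kOk e0 n0 n1 j0 j1 k0 k1 bl bu && decide (k1 < k0)
  | box B k0 k1 bl bu ks, e0, e1, n0, n1, j0, j1 => kOk e0 n0 n1 j0 j1 k0 k1 bl bu &&
      decide (B.e0 ≤ e0) && decide (e1 ≤ B.e1) && decide (B.n0 ≤ n0) && decide (n1 ≤ B.n1) &&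
      decide (B.j0 ≤ j0) && decide (j1 ≤ B.j1) && ck B k0 k1 ks
  | se m l r, e0, e1, n0, n1, j0, j1 => l.ok ck e0 m n0 n1 j0 j1 && r.ok ck m e1 n0 n1 j0 j1
  | sn m l r, e0, e1, n0, n1, j0, j1 => l.ok ck e0 e1 n0 m j0 j1 && r.ok ck e0 e1 m n1 j0 j1
  | sj m l r, e0, e1, n0, n1, j0, j1 => l.ok ck e0 e1 n0 n1 j0 m && r.ok ck e0 e1 n0 n1 m j1

variable {P : ℝ → ℝ → ℝ → ℝ → Prop} {e0 e1 n0 n1 j0 j1 m : ℕ}

theorem Cov.se (h1 : Cov P e0 m n0 n1 j0 j1) (h2 : Cov P m e1 n0 n1 j0 j1) :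
    Cov P e0 e1 n0 n1 j0 j1 := by
  intro ε η j k a b c d e f g i r
  rcases le_total ε (m / 10000) with h | h
  · exact h1 ε η j k a b c h e f g i r
  · exact h2 ε η j k a b h d e f g i r

theorem Cov.sn (h1 : Cov P e0 e1 n0 m j0 j1) (h2 : Cov P e0 e1 m n1 j0 j1) :
    Cov P e0 e1 n0 n1 j0 j1 := by
  intro ε η j k a b c d e f g i r
  rcases le_total η (m / 10000) with h | h
  · exact h1 ε η j k a b c d e h g i r
  · exact h2 ε η j k a b c d h f g i r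

theorem Cov.sj (h1 : Cov P e0 e1 n0 n1 j0 m) (h2 : Cov P e0 e1 n0 n1 m j1) :
    Cov P e0 e1 n0 n1 j0 j1 := by
  intro ε η j k a b c d e f g i r
  rcases le_total j (m / 10000) with h | h
  · exact h1 ε η j k a b c d e f g h r
  · exact h2 ε η j k a b c d e f h i r

/-- The test of a box is sound for the property. -/
def Snd (ck : Bx → ℤ → ℤ → List (ℤ × List ℕ) → Bool) (P : ℝ → ℝ → ℝ → ℝ → Prop) : Prop :=
  ∀ B k0 k1 ks, ck B k0 k1 ks = true → ∀ ε η j k : ℝ, 0 < ε → 0 < η →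
    B.e0 / 10000 ≤ ε → ε ≤ B.e1 / 10000 → B.n0 / 10000 ≤ η → η ≤ B.n1 / 10000 →
    B.j0 / 10000 ≤ j → j ≤ B.j1 / 10000 → (k0 : ℝ) / 10000 ≤ k → k ≤ (k1 : ℝ) / 10000 → P ε η j k

theorem Tr.sound {ck : Bx → ℤ → ℤ → List (ℤ × List ℕ) → Bool} (hs : Snd ck P) (T : Tr)
    (h : T.ok ck e0 e1 n0 n1 j0 j1 = true) : Cov P e0 e1 n0 n1 j0 j1 := by
  have mono : ∀ {a b : ℕ}, a ≤ b → (a : ℝ) / 10000 ≤ b / 10000 := fun h =>
    div_le_div_of_nonneg_right (by exact_mod_cast h) (by norm_num)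
  induction T generalizing e0 e1 n0 n1 j0 j1 with
  | emp k0 k1 bl bu =>
    simp only [Tr.ok, Bool.and_eq_true, decide_eq_true_eq] at h
    intro ε η j k a b c d e f g i r
    obtain ⟨p, q⟩ := kOk_sound h.1 a b c e f g i r
    have : (k1 : ℝ) < k0 := by exact_mod_cast h.2
    linarith
  | box B k0 k1 bl bu ks =>
    simp only [Tr.ok, Bool.and_eq_true, decide_eq_true_eq] at h
    obtain ⟨⟨⟨⟨⟨⟨⟨h0, h1⟩, h2⟩, h3⟩, h4⟩, h5⟩, h6⟩, h7⟩ := h
    intro ε η j k a b c d e f g i r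
    obtain ⟨p, q⟩ := kOk_sound h0 a b c e f g i r
    exact hs B k0 k1 ks h7 ε η j k a b ((mono h1).trans c) (d.trans (mono h2))
      ((mono h3).trans e) (f.trans (mono h4)) ((mono h5).trans g) (i.trans (mono h6)) p q
  | se m l r ih1 ih2 =>
    simp only [Tr.ok, Bool.and_eq_true] at h
    exact Cov.se (ih1 h.1) (ih2 h.2)
  | sn m l r ih1 ih2 =>
    simp only [Tr.ok, Bool.and_eq_true] at h
    exact Cov.sn (ih1 h.1) (ih2 h.2)
  | sj m l r ih1 ih2 =>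
    simp only [Tr.ok, Bool.and_eq_true] at h
    exact Cov.sj (ih1 h.1) (ih2 h.2)

/-- The bound for all laws with the given scaled parameters. -/
def Goal (ε η j k : ℝ) : Prop :=
  ∀ (ν : Measure ℝ) [IsProbabilityMeasure ν], Integrable (fun y : ℝ => y) ν → ∀ N K J : ℝ,
    N * (ε * η) ^ 2 = 1 → K * (ε * η) ^ 3 = ε * k → J * (ε * η) ^ 3 = ε * j →
    Hyp CF (charFun ν) N K J Y.A4 Y.B4 Y.A5 Y.B5 Y.A6 Y.B6 → ∀ x : ℝ,
    ν.real (Iic (x / (ε * η))) - Phi x ≤ ε * (η / 2 + k / 6 + j) / √(2 * π)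

theorem rng_r1t {N K J h s : ℝ} (hh : 0 < h) (hs : 0 < s) (e : N * h ^ 2 = 1)
    (hl : (N / 2 + K / 6 + J) * h ^ 3 ≤ X.Cp * 0.175) (hK : Y.KR N K J) :
    Rng (h * s) (1 / s) (J * h ^ 2 / s) (K * h ^ 2 / s) := by
  have p : 0 ≤ h ^ 2 / s := by positivity
  refine ⟨le_of_eq_of_le ?_ hl, fun b hb => ?_, fun b hb => ?_⟩
  · field_simp
    linear_combination (-6) * e
  · have := mul_le_mul_of_nonneg_right (hK.2.1 b hb) p
    refine le_of_eq_of_le (by ring) (this.trans_eq ?_)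
    linear_combination ((X.dE + 3 * X.dE / b) / s) * e
  · have := mul_le_mul_of_nonneg_right (hK.2.2 b hb) p
    refine le_of_eq_of_le (by ring) (this.trans_eq ?_)
    linear_combination ((-X.dE + 3 * X.dE / b) / s) * e

theorem goal_r1t {N K J s : ℝ} (hN : 0 < N) (hs : 0 < s)
    (hG : Goal ((√N)⁻¹ * s) (1 / s) (J * (√N)⁻¹ ^ 2 / s) (K * (√N)⁻¹ ^ 2 / s))
    (ν : Measure ℝ) [IsProbabilityMeasure ν] (h1 : Integrable (fun y : ℝ => y) ν)
    (hy : Hyp CF (charFun ν) N K J Y.A4 Y.B4 Y.A5 Y.B5 Y.A6 Y.B6) (y : ℝ) :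
    ν.real (Iic y) - Phi (y / √N) ≤ X.tgt N K J := by
  have hq : 0 < √N := sqrt_pos.2 hN
  have e : N = √N ^ 2 := (sq_sqrt hN.le).symm
  have e1 : (√N)⁻¹ * s * (1 / s) = (√N)⁻¹ := by field_simp
  have key := hG ν h1 N K J (by rw [e1, inv_pow, ← e, mul_inv_cancel₀ hN.ne'])
    (by rw [e1]; field_simp) (by rw [e1]; field_simp) hy (y / √N)
  rw [e1, show y / √N / (√N)⁻¹ = y by field_simp] at key
  refine key.trans_eq ?_
  unfold X.tgt
  generalize √(2 * π) = c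
  generalize √N = q at *
  rw [e]
  rcases eq_or_ne c 0 with rfl | hc
  · simp
  · field_simp

theorem master_of_cov (hH : Cov Goal 0 4000 10000 10000 0 10000)
    (hX : Cov Goal 0 2600 0 10000 10000 10000)
    (ν : Measure ℝ) [IsProbabilityMeasure ν] (h1 : Integrable (fun y : ℝ => y) ν)
    {N K J : ℝ} (hN : 0 < N) (hl : N / 2 + K / 6 + J ≤ X.Cp * 0.175 * √N ^ 3)
    (hD : Y.Disc (charFun ν) N K J) (hM : Y.Modu (charFun ν) N J)
    (hM3 : Y.Modu3 (charFun ν) N J) (hK : Y.KR N K J) (y : ℝ) :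
    ν.real (Iic y) - Phi (y / √N) ≤ X.tgt N K J := by
  have d1 := X.r10_lo
  have d2 := X.r10_hi
  have hq : 0 < √N := sqrt_pos.2 hN
  have hh : 0 < (√N)⁻¹ := inv_pos.2 hq
  have e : N * (√N)⁻¹ ^ 2 = 1 := by rw [inv_pow, sq_sqrt hN.le, mul_inv_cancel₀ hN.ne']
  have hl' : (N / 2 + K / 6 + J) * (√N)⁻¹ ^ 3 ≤ X.Cp * 0.175 := by
    rw [inv_pow, ← div_eq_mul_inv, div_le_iff₀ (by positivity)]
    exact hl
  have hy := hyp_CF hN.le hK.1 hD hM hM3
  have hc : X.Cp * 0.175 ≤ 0.179734 := by unfold X.Cp; linarith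
  have hd : 0.16 ≤ X.dE ∧ X.dE ≤ 0.17 := by unfold X.dE; constructor <;> linarith
  have hJ : 0 ≤ J * (√N)⁻¹ ^ 2 := mul_nonneg hK.1 (by positivity)
  rcases le_or_gt (J * (√N)⁻¹ ^ 2) 1 with hj | hj
  · have r := rng_r1t hh one_pos e hl' hK
    refine goal_r1t hN one_pos (hH _ _ _ _ (by positivity) (by positivity)
      (by simpa using hq.le) ?_ (by norm_num) (by norm_num) (by simpa using hJ)
      (by simpa using hj) r) ν h1 hy y
    have a1 := r.lam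
    have a2 := r.dn 6 (by linarith [hd.1])
    simp only [div_one, mul_one] at a1 a2 ⊢
    generalize (√N)⁻¹ = h at *
    have a3 : 1 / 2 ≤ 1 / 2 + K * h ^ 2 / 6 + J * h ^ 2 := by linarith [hd.1]
    have a4 := mul_le_mul_of_nonneg_left a3 hh.le
    push_cast
    linarith
  · have hs : 0 < J * (√N)⁻¹ ^ 2 := by linarith
    have r := rng_r1t hh hs e hl' hK
    have a0 : 0 < 1 / (J * (√N)⁻¹ ^ 2) := by positivity
    have a5 : 0 < (√N)⁻¹ * (J * (√N)⁻¹ ^ 2) := by positivity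
    refine goal_r1t hN hs (hX _ _ _ _ a5 a0 (by rw [Nat.cast_zero, zero_div]; exact a5.le) ?_
      (by rw [Nat.cast_zero, zero_div]; exact a0.le) ?_ ?_ ?_ r) ν h1 hy y
    · have a1 := r.lam
      have a2 := r.dn 1 (by linarith [hd.1])
      rw [div_self hs.ne'] at a1 a2
      generalize K * (√N)⁻¹ ^ 2 / (J * (√N)⁻¹ ^ 2) = k at *
      generalize 1 / (J * (√N)⁻¹ ^ 2) = η at *
      generalize (√N)⁻¹ * (J * (√N)⁻¹ ^ 2) = ε at *
      have a6 := mul_le_mul_of_nonneg_right hd.2 a0.le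
      have a3 : 5 / 6 ≤ η / 2 + k / 6 + 1 := by linarith
      have a4 := mul_le_mul_of_nonneg_left a3 a5.le
      push_cast
      linarith
    · rw [show ((10000 : ℕ) : ℝ) / 10000 = 1 by norm_num, div_le_one hs]
      exact hj.le
    · rw [div_self hs.ne']
      norm_num
    · rw [div_self hs.ne']
      norm_num

end Pool.Agent.Lib.MP_33650d_pr.RM
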