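import Pool.Agent.Lib.MP_33650d_pr.X.R1U0
import Pool.Agent.Lib.MP_33650d_pr.X.R1U1
import Pool.Agent.Lib.MP_33650d_pr.X.R1U2
import Pool.Agent.Lib.MP_33650d_pr.X.R1U3
import Pool.Agent.Lib.MP_33650d_pr.X.R1U4
import Pool.Agent.Lib.MP_33650d_pr.X.R1U5
import Pool.Agent.Lib.MP_33650d_pr.X.R1U6
import Pool.Agent.Lib.MP_33650d_pr.X.R1U7
import Pool.Agent.Lib.MP_33650d_pr.X.R1U8
import Pool.Agent.Lib.MP_33650d_pr.X.R1U9
import Pool.Agent.Lib.MP_33650d_pr.X.R1U10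
import Pool.Agent.Lib.MP_33650d_pr.X.R1U11

namespace Pool.Agent.Lib.MP_33650d_pr.RM

theorem snd : Snd (Bx.check CF) Goal :=
  fun _ _ _ _ hk _ _ _ _ a1 a2 a3 a4 a5 a6 a7 a8 a9 a10 ν _ h1 _ _ _ hN hK hJ hy x =>
    Bx.check_sound ν h1 ⟨a1, a2, a3, a4, a5, a6, a7, a8, hN, hJ⟩ hK hy hk a9 a10 x

theorem covH : Cov Goal 0 4000 10000 10000 0 10000 :=
  (Cov.se (Cov.sj (Cov.sj (Cov.sj (Cov.sj (Cov.sj (Cov.sj (Tr.sound snd _ tr1_ok)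
    (Tr.sound snd _ tr2_ok))
    (Cov.sj (Tr.sound snd _ tr3_ok)
    (Tr.sound snd _ tr4_ok)))
    (Tr.sound snd _ tr5_ok))
    (Tr.sound snd _ tr6_ok))
    (Tr.sound snd _ tr7_ok))
    (Cov.sj (Cov.sj (Tr.sound snd _ tr8_ok)
    (Tr.sound snd _ tr9_ok))
    (Cov.sj (Cov.se (Tr.sound snd _ tr10_ok)
    (Tr.sound snd _ tr11_ok))
    (Cov.se (Tr.sound snd _ tr12_ok)
    (Tr.sound snd _ tr13_ok)))))
    (Cov.sj (Cov.sj (Cov.sj (Cov.sj (Cov.sj (Cov.se (Tr.sound snd _ tr14_ok)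
    (Cov.se (Cov.sj (Tr.sound snd _ tr15_ok)
    (Cov.sj (Tr.sound snd _ tr16_ok)
    (Tr.sound snd _ tr17_ok)))
    (Tr.sound snd _ tr18_ok)))
    (Cov.se (Cov.sj (Tr.sound snd _ tr19_ok)
    (Cov.sj (Tr.sound snd _ tr20_ok)
    (Tr.sound snd _ tr21_ok)))
    (Cov.sj (Cov.se (Cov.sj (Tr.sound snd _ tr22_ok)
    (Cov.sj (Tr.sound snd _ tr23_ok)
    (Tr.sound snd _ tr24_ok)))
    (Tr.sound snd _ tr25_ok))
    (Cov.sj (Cov.se (Cov.sj (Tr.sound snd _ tr26_ok)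
    (Cov.se (Tr.sound snd _ tr27_ok)
    (Tr.sound snd _ tr28_ok)))
    (Tr.sound snd _ tr29_ok))
    (Cov.se (Cov.sj (Cov.se (Tr.sound snd _ tr30_ok)
    (Tr.sound snd _ tr31_ok))
    (Cov.se (Cov.sj (Tr.sound snd _ tr32_ok)
    (Cov.sj (Tr.sound snd _ tr33_ok)
    (Tr.sound snd _ tr34_ok)))
    (Tr.sound snd _ tr35_ok)))
    (Tr.sound snd _ tr36_ok))))))
    (Cov.se (Cov.sj (Cov.sj (Tr.sound snd _ tr37_ok)
    (Tr.sound snd _ tr38_ok))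
    (Tr.sound snd _ tr39_ok))
    (Cov.sj (Cov.sj (Cov.se (Cov.sj (Cov.se (Cov.sj (Tr.sound snd _ tr40_ok)
    (Tr.sound snd _ tr41_ok))
    (Tr.sound snd _ tr42_ok))
    (Cov.se (Cov.sj (Tr.sound snd _ tr43_ok)
    (Tr.sound snd _ tr44_ok))
    (Cov.sj (Tr.sound snd _ tr45_ok)
    (Tr.sound snd _ tr46_ok))))
    (Tr.sound snd _ tr47_ok))
    (Cov.se (Cov.sj (Cov.se (Cov.sj (Tr.sound snd _ tr48_ok)
    (Tr.sound snd _ tr49_ok))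
    (Tr.sound snd _ tr50_ok))
    (Cov.se (Tr.sound snd _ tr51_ok)
    (Tr.sound snd _ tr52_ok)))
    (Tr.sound snd _ tr53_ok)))
    (Cov.sj (Cov.se (Cov.sj (Cov.se (Tr.sound snd _ tr54_ok)
    (Tr.sound snd _ tr55_ok))
    (Cov.se (Tr.sound snd _ tr56_ok)
    (Cov.sj (Tr.sound snd _ tr57_ok)
    (Tr.sound snd _ tr58_ok))))
    (Tr.sound snd _ tr59_ok))
    (Cov.se (Cov.sj (Cov.se (Tr.sound snd _ tr60_ok)
    (Tr.sound snd _ tr61_ok))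
    (Cov.se (Tr.sound snd _ tr62_ok)
    (Cov.sj (Tr.sound snd _ tr63_ok)
    (Tr.sound snd _ tr64_ok))))
    (Tr.sound snd _ tr65_ok))))))
    (Cov.se (Cov.sj (Tr.sound snd _ tr66_ok)
    (Tr.sound snd _ tr67_ok))
    (Cov.sj (Cov.sj (Cov.se (Cov.sj (Cov.se (Tr.sound snd _ tr68_ok)
    (Cov.sj (Tr.sound snd _ tr69_ok)
    (Tr.sound snd _ tr70_ok)))
    (Cov.se (Tr.sound snd _ tr71_ok)
    (Cov.sj (Tr.sound snd _ tr72_ok)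
    (Cov.se (Cov.sj (Tr.sound snd _ tr73_ok)
    (Tr.sound snd _ tr74_ok))
    (Tr.sound snd _ tr75_ok)))))
    (Tr.sound snd _ tr76_ok))
    (Cov.se (Cov.sj (Cov.se (Tr.sound snd _ tr77_ok)
    (Cov.sj (Cov.se (Cov.sj (Tr.sound snd _ tr78_ok)
    (Tr.sound snd _ tr79_ok))
    (Tr.sound snd _ tr80_ok))
    (Tr.sound snd _ tr81_ok)))
    (Cov.se (Tr.sound snd _ tr82_ok)
    (Tr.sound snd _ tr83_ok)))
    (Tr.sound snd _ tr84_ok)))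
    (Cov.sj (Cov.se (Cov.sj (Tr.sound snd _ tr85_ok)
    (Tr.sound snd _ tr86_ok))
    (Tr.sound snd _ tr87_ok))
    (Cov.se (Cov.sj (Cov.se (Tr.sound snd _ tr88_ok)
    (Cov.sj (Tr.sound snd _ tr89_ok)
    (Tr.sound snd _ tr90_ok)))
    (Tr.sound snd _ tr91_ok))
    (Tr.sound snd _ tr92_ok))))))
    (Cov.se (Cov.sj (Cov.sj (Tr.sound snd _ tr93_ok)
    (Tr.sound snd _ tr94_ok))
    (Cov.sj (Cov.se (Tr.sound snd _ tr95_ok)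
    (Tr.sound snd _ tr96_ok))
    (Tr.sound snd _ tr97_ok)))
    (Cov.sj (Cov.sj (Tr.sound snd _ tr98_ok)
    (Tr.sound snd _ tr99_ok))
    (Tr.sound snd _ tr100_ok))))
    (Tr.sound snd _ tr101_ok)))

theorem covX : Cov Goal 0 2600 0 10000 10000 10000 :=
  (Cov.sn (Cov.sn (Cov.sn (Tr.sound snd _ tr102_ok)
    (Tr.sound snd _ tr103_ok))
    (Cov.sn (Tr.sound snd _ tr104_ok)
    (Tr.sound snd _ tr105_ok)))
    (Cov.sn (Cov.sn (Tr.sound snd _ tr106_ok)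
    (Tr.sound snd _ tr107_ok))
    (Cov.sn (Tr.sound snd _ tr108_ok)
    (Cov.sn (Tr.sound snd _ tr109_ok)
    (Tr.sound snd _ tr110_ok)))))

end Pool.Agent.Lib.MP_33650d_pr.RM
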