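import Pool.Agent.Lib.MP_33650d_pr.X.R1R

namespace Pool.Agent.Lib.MP_33650d_pr.RM
open MeasureTheory Real Set Iv

/-- Three sufficient tests for a quadratic inequality on a zone. -/
def crit (A B C m E x0 x1 : Iv) : Bool :=
  decide (0 < A.lo) && le (B * B * (E * E)) (nat 4 * A * (m - C * (E * E))) ||
  le zero A && le (B * E) (nat 2 * A * x0) && le (B * x0 * E + C * (E * E) - A * (x0 * x0)) m ||
  le (B * x1 * E + C.pos * (E * E) - A * (x0 * x0)) m &&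
    le (B * x1 * E + C.pos * (E * E) - A * (x1 * x1)) m

theorem crit_le {A B C m E x0 x1 : Iv} {a b c μ e y0 y1 : ℝ} (hA : A.Mem a) (hB : B.Mem b)
    (hC : C.Mem c) (hm : m.Mem μ) (hE : E.Mem e) (h0 : x0.Mem y0) (h1 : x1.Mem y1) (b0 : 0 ≤ b)
    (m0 : 0 ≤ μ) (hk : crit A B C m E x0 x1 = true) {ε y : ℝ} (e0 : 0 < ε) (e1 : ε ≤ e)
    (p0 : 0 ≤ y0) (p1 : y0 ≤ y) (p2 : y ≤ y1) : -(a * y ^ 2) + b * y * ε + c * ε ^ 2 ≤ μ := by
  simp only [crit, Bool.and_eq_true, decide_eq_true_eq, Bool.or_eq_true] at hk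
  have ee := hE.mul hE
  have e2 : 0 < e := e0.trans_le e1
  have e3 : ε ^ 2 ≤ e ^ 2 := pow_le_pow_left₀ e0.le e1 2
  have y2 := p0.trans p1
  rcases hk with (⟨k1, k2⟩ | ⟨⟨k1, k2⟩, k3⟩) | ⟨k1, k2⟩
  · have a0 : 0 < a := by
      have : (0 : ℝ) < A.lo := by exact_mod_cast k1
      exact (mul_pos_iff_of_pos_right (by positivity)).1 (this.trans_le hA.lo_le)
    have a1 := ((hB.mul hB).mul ee).le (((mem_nat 4).mul hA).mul (hm.sub (hC.mul ee))) k2
    push_cast at a1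
    refine le_of_mul_le_mul_left ?_ (show 0 < 4 * a by positivity)
    have a2 := sq_nonneg (2 * a * y - b * ε)
    rcases le_total 0 (b ^ 2 + 4 * a * c) with h | h
    · have := mul_le_mul_of_nonneg_left e3 h
      linarith
    · have := mul_nonpos_of_nonpos_of_nonneg h (sq_nonneg ε)
      have := mul_nonneg a0.le m0
      linarith
  · have a0 := mem_zero.le hA k1
    have a1 := (hB.mul hE).le (((mem_nat 2).mul hA).mul h0) k2
    have a2 := ((((hB.mul h0).mul hE).add (hC.mul ee)).sub (hA.mul (h0.mul h0))).le hm k3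
    push_cast at a1
    refine le_of_mul_le_mul_left ?_ (pow_pos e2 2)
    have a3 : y0 * ε ≤ y * e := mul_le_mul p1 e1 e0.le y2
    have a4 := mul_le_mul_of_nonneg_right a1 e0.le
    have a5 := mul_le_mul_of_nonneg_left a3 a0
    have a6 := mul_nonneg (sub_nonneg.2 a3) (show 0 ≤ a * (y * e + y0 * ε) - b * e * ε by linarith)
    have a7 := mul_le_mul_of_nonneg_left a2 (sq_nonneg ε)
    have a8 := mul_le_mul_of_nonneg_right e3 m0
    linarith
  · have a1 := ((((hB.mul h1).mul hE).add ((mem_pos C).mul ee)).sub (hA.mul (h0.mul h0))).le hm k1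
    have a2 := ((((hB.mul h1).mul hE).add ((mem_pos C).mul ee)).sub (hA.mul (h1.mul h1))).le hm k2
    have a3 := mul_le_mul (mul_le_mul_of_nonneg_left p2 b0) e1 e0.le (mul_nonneg b0 (y2.trans p2))
    have a4 := (mul_le_mul_of_nonneg_right hC.le_pos (sq_nonneg ε)).trans
      (mul_le_mul_of_nonneg_left e3 (pos_nonneg C))
    rcases le_total 0 a with h | h
    · have := mul_le_mul_of_nonneg_left (pow_le_pow_left₀ p0 p1 2) h
      linarith
    · have := mul_le_mul_of_nonpos_left (pow_le_pow_left₀ y2 p2 2) h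
      linarith

theorem far_le {a c X Y : ℝ} (h : X ≤ Y) (hc : 0 ≤ c ∨ 0 ≤ a - c * X + 2 * c) :
    (a - c * Y) * exp (-(Y / 2)) ≤ max ((a - c * X) * exp (-(X / 2))) 0 := by
  obtain ⟨s, rfl⟩ : ∃ s, Y = X + s := ⟨Y - X, by ring⟩
  have s0 : 0 ≤ s := by linarith
  have e1 : exp (-((X + s) / 2)) = exp (-(s / 2)) * exp (-(X / 2)) := by
    rw [← exp_add]
    congr 1
    ring
  rcases le_total (a - c * (X + s)) 0 with h1 | h1
  · exact (mul_nonpos_of_nonpos_of_nonneg h1 (exp_pos _).le).trans (le_max_right _ _)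
  refine le_trans ?_ (le_max_left _ _)
  rw [e1, ← mul_assoc]
  refine mul_le_mul_of_nonneg_right ?_ (exp_pos _).le
  rw [exp_neg, mul_inv_le_iff₀ (exp_pos _)]
  have e2 := add_one_le_exp (s / 2)
  rcases le_total 0 c with h2 | h2
  · have := mul_nonneg h2 s0
    nlinarith
  · rcases hc with hc | hc
    · have := mul_nonneg hc s0
      nlinarith
    · have := mul_nonneg hc s0
      nlinarith

namespace Bx

variable {B : Bx} {C : Cfg} {f : ℝ → ℂ} {ε η j k N K J a4 b4 a5 b5 a6 b6 : ℝ}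
  {κ κ' : Iv} {c3 c4 c5 c6 : ℝ}

def E1 (B : Bx) (C : Cfg) : Iv := dot (B.P1a C) B.ML + B.E1b C
def tails (B : Bx) (C : Cfg) (κ : Iv) : Iv := B.chI C κ + B.B3I + B.B4I C
def Cc (B : Bx) (C : Cfg) (κ : Iv) : Iv :=
  dot (B.P3a C) B.ML + dot (B.Prem C κ) B.ML + if B.p = 3 then B.tails C κ else zero
def mI (B : Bx) (C : Cfg) (κ : Iv) : Iv :=
  if B.p = 3 then ⟨max ((nat 1 - B.E1 C) * nd B.j0).lo 0, 0⟩
  else ((nat 1 - B.E1 C) * nd B.j0 - B.tails C κ).dn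
def ok1 (B : Bx) (C : Cfg) (κ : Iv) : Bool :=
  B.ok0 C && B.discOk C && B.remOk C κ && B.b3Ok C && B.b4Ok C && B.chOk C κ && B.rs1Ok C κ &&
    le (B.E1 C) (nat 1) && le zero (B.mI C κ) && (decide (B.p = 3) || decide (B.p = 1))

theorem lev1 (h : B.In ε η j N J) (hy : Hyp C f N K J a4 b4 a5 b5 a6 b6)
    (c : B.Co C κ ε c3 c4 c5 c6) (hG : ∀ τ, mainG a4 b4 a5 b5 a6 b6 N K (ε * η * τ)
      = gw 1 τ * Complex.exp (gm4 ε c3 c4 c5 c6 τ)) (hk : B.ok1 C κ = true) {e1 : ℝ}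
    (m1 : (B.E1b C).Mem e1) : ∃ (e : ℝ → ℝ) (cc μ : ℝ), (B.Cc C κ).Mem cc ∧ (B.mI C κ).Mem μ ∧ 0 ≤ μ ∧
      Er e (ε * (ε ^ 2 * cc + j - μ - j * e1)) ∧ ∀ (x : ℝ) (e' : ℝ → ℝ), (∀ τ, 0 < τ → 0 ≤ e' τ) →
      (∀ τ, 0 < τ → B.good ε τ → ε * η * τ ≤ B.v0 / 10000 →
        kR (ε * η * τ) (τ * x) (gw 1 τ * Complex.exp (gm4 ε c3 c4 c5 c6 τ)) / τ
          + topF f (ε * η) τ ≤ e' τ) →
      (∀ τ, 0 < τ → ε * η * τ < π → lowF f (ε * η) x τ + topF f (ε * η) τ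
        ≤ mmF (ε * η) x (gm4 ε c3 c4 c5 c6) τ + (e τ + e' τ)) ∧
      ∀ τ, 0 < τ → π ≤ ε * η * τ → 0 ≤ mmF (ε * η) x (gm4 ε c3 c4 c5 c6) τ + (e τ + e' τ) := by
  simp only [ok1, Bool.and_eq_true, decide_eq_true_eq, Bool.or_eq_true] at hk
  obtain ⟨⟨⟨⟨⟨⟨⟨⟨⟨k0, k1⟩, k2⟩, k3⟩, k4⟩, k5⟩, -⟩, k7⟩, k8⟩, k9⟩ := hk
  have o := h.ok0 k0
  obtain ⟨ea, u1, u3, n1, n3, ra, fa⟩ := disc_er h o hy k1
  obtain ⟨eb, u4, n4, rb, fb⟩ := rem_er h o c k2
  obtain ⟨ec, u5, n5, rc, fc⟩ := b3_er h o hy k3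
  obtain ⟨ed, ee, u6, n6, rd, fd⟩ := b4_er h o hy k4
  obtain ⟨ef, u7, n7, rf, ff⟩ := ch_er h o hy c k5
  have nt : (B.tails C κ).Mem (u7 + u5 + u6) := (n7.add n5).add n6
  have a1 : u1 + e1 ≤ (1 : ℕ) := (n1.add m1).le (mem_nat 1) k7
  have a2 := ((mem_nat 1).sub (n1.add m1)).mul (nd_mem B.j0)
  have a3 := mul_le_mul_of_nonneg_left h.j0 (sub_nonneg.2 a1)
  have e0 := h.e
  have rr := (((ra.add rb).add rc).add rd).add rf
  obtain ⟨cc, μ, q1, q2, q3⟩ : ∃ cc μ, (B.Cc C κ).Mem cc ∧ (B.mI C κ).Mem μ ∧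
      ε * j * u1 + ε ^ 3 * u3 + ε ^ 3 * u4 + ε ^ B.p * u5 + ε ^ B.p * u6 + ε ^ B.p * u7
        ≤ ε * (ε ^ 2 * cc + j - μ - j * e1) := by
    unfold Cc mI
    split_ifs with hp
    · refine ⟨_, _, (n3.add n4).add nt, mem_val _, ?_⟩
      have a4 : val ⟨max ((nat 1 - B.E1 C) * nd B.j0).lo 0, 0⟩ ≤ ((1 : ℕ) - (u1 + e1)) * j := by
        rcases le_total ((nat 1 - B.E1 C) * nd B.j0).lo 0 with h1 | h1
        · rw [max_eq_right h1]
          simpa [val] using mul_nonneg (sub_nonneg.2 a1) h.jn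
        · rw [max_eq_left h1]
          exact a2.dn_le.trans a3
      have := mul_le_mul_of_nonneg_left a4 e0.le
      rw [hp]
      push_cast at this
      linarith
    · refine ⟨_, _, (n3.add n4).add mem_zero, mem_dn _, ?_⟩
      have := mul_le_mul_of_nonneg_left ((a2.sub nt).dn_le.trans (sub_le_sub_right a3 _)) e0.le
      rw [k9.resolve_left hp]
      push_cast at this
      unfold E1
      linarith
  refine ⟨_, cc, μ, q1, q2, mem_zero.le q2 k8, rr.mono q3, fun x e' p0 hr => ⟨fun τ h0 hp => ?_,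
    fun τ h0 hp => ?_⟩⟩
  all_goals
    have p1 := ra.2.1 τ h0
    have p2 := rb.2.1 τ h0
    have p3 := rc.2.1 τ h0
    have p4 := rf.2.1 τ h0
    have p5 := p0 τ h0
    obtain ⟨p6, p7, p8⟩ := fd τ h0
  · obtain ⟨z1, z2⟩ := fc τ h0 hp
    obtain ⟨z3, z4⟩ := p8 hp
    by_cases hg : B.good ε τ
    · obtain ⟨z5, z6⟩ := fb τ h0 hg
      have z7 := fa τ h0 hg (hG τ ▸ z5) (τ * x)
      have z8 := z6 x
      have z9 : lowF f (ε * η) x τ = kN (ε * η * τ) (τ * x)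
          (f (ε * η * τ) - mainG a4 b4 a5 b5 a6 b6 N K (ε * η * τ)) / τ
          + kL (ε * η * τ) (τ * x) (gw 1 τ * Complex.exp (gm4 ε c3 c4 c5 c6 τ)) / τ
          + kR (ε * η * τ) (τ * x) (gw 1 τ * Complex.exp (gm4 ε c3 c4 c5 c6 τ)) / τ := by
        rw [add_assoc, ← add_div, ← add_div, ← kN_split, ← kN_add, hG, sub_add_cancel, lowF]
      rcases le_or_gt (ε * η * τ) (B.v0 / 10000) with hv | hv
      · have := hr τ h0 hg hv
        linarith
      · have := z2 hg hv _ z5 (τ * x)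
        have := z4 hv
        linarith
    · have z5 := ff τ h0 hg x
      have z6 : topF f (ε * η) τ ≤ ec τ + ee τ := by
        rcases le_or_gt (ε * η * τ) (B.v0 / 10000) with hv | hv
        · linarith [z1 hg hv]
        · linarith [z4 hv]
      split_ifs at z5 with hT
      · linarith
      · linarith [z3 (not_le.1 hT) x]
  · have z5 := ff τ h0 (fun hg => absurd (hp.trans (o.g3 τ h0 hg)) (not_le.2 o.T0)) x
    rw [if_neg fun hT => absurd (hp.trans hT) (not_le.2 o.T)] at z5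
    linarith

def YY (B : Bx) (C : Cfg) (κ : Iv) : List Iv × List Iv :=
  mainY B.HI B.nI (c3I κ) (B.aP C κ) (B.wQ C κ) 3
def sxI (x0 x1 : ℕ) : Iv := hull (nd x0 * nd x0) (nd x1 * nd x1) * rat 1 2
def exI (x0 x1 : ℕ) : Iv := nat 1 - sxI x0 x1 * e1I (sxI x0 x1)
def nearOk (B : Bx) (C : Cfg) (κ κ' : Iv) (x0 x1 : ℕ) : Bool :=
  crit ((B.nI * rat 1 2 + c3I κ') * e1I (sxI x0 x1) * rat 1 2 + c3I κ' * exI x0 x1 - B.RX).dn
    (exI x0 x1 * dot (B.YY C κ').1 ((heT (hull (nd x0 * nd x0) (nd x1 * nd x1)) 20).map Prod.fst)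
      + B.R1 C κ').mag
    (B.R2 C κ' + B.Cc C κ + peval (B.W3 C κ) (nd x1) - exI x0 x1 *
      dot (B.YY C κ').2 ((heT (hull (nd x0 * nd x0) (nd x1 * nd x1)) 20).map Prod.snd)).up
    (B.mI C κ) (nd B.e1) (nd x0) (nd x1)
def farR (B : Bx) (C : Cfg) (κ κ' : Iv) : Iv :=
  B.eI * (dot (pshn 1 (psq (pabs (B.YY C κ').1))) B.MF + B.Ff)
    + B.HI * (dot (pshn 2 (psq (pabs (B.YY C κ').2))) B.MF + B.Cc C κ) - B.mI C κ
def farOk (B : Bx) (C : Cfg) (κ κ' : Iv) (x : ℕ) : Bool :=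
  (decide (17321 ≤ x) || le zero (c3I κ') ||
    le zero (B.nI * rat 1 2 + c3I κ' * (nat 3 - nd x * nd x))) &&
  le (B.farR C κ κ') ((B.nI * rat 1 2 + c3I κ') * (nd x * nd x * rat 1 2)
    * e1I (nd x * nd x * rat 1 2) + c3I κ' * (nd x * nd x)
    * (nat 1 - nd x * nd x * rat 1 2 * e1I (nd x * nd x * rat 1 2))) &&
  le (B.farR C κ κ') (B.nI * rat 1 2 + c3I κ')
def zones (B : Bx) (C : Cfg) (κ κ' : Iv) : ℕ → List ℕ → Bool
  | a, [] => B.farOk C κ κ' a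
  | a, b :: l => B.nearOk C κ κ' a b && zones B C κ κ' b l
def ok2 (B : Bx) (C : Cfg) (κ κ' : Iv) (z : List ℕ) : Bool :=
  B.rs2Ok C κ' && decide ((B.YY C κ').1.length ≤ 20) && decide ((B.YY C κ').2.length ≤ 20) &&
    B.zones C κ κ' 0 z

theorem psq_length (P : List Iv) : (psq (pabs P)).length = 2 * P.length := by
  induction P with
  | nil => rfl
  | cons a P ih => simp [psq, pabs, ih]; ring

theorem lev2 (ν : Measure ℝ) [IsProbabilityMeasure ν] (h1 : Integrable (fun y : ℝ => y) ν)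
    (h : B.In ε η j N J) (hy : Hyp C (charFun ν) N K J a4 b4 a5 b5 a6 b6)
    (c : B.Co C κ ε c3 c4 c5 c6) (c' : B.Co C κ' ε c3 c4 c5 c6)
    (hG : ∀ τ, mainG a4 b4 a5 b5 a6 b6 N K (ε * η * τ)
      = gw 1 τ * Complex.exp (gm4 ε c3 c4 c5 c6 τ)) (hk : B.ok1 C κ = true) {z : List ℕ}
    (hk' : B.ok2 C κ κ' z = true) (x : ℝ) :
    ν.real (Iic (x / (ε * η))) - Phi x ≤ ε * (η / 2 + c3 + j) / √(2 * π) := by
  have hk1 := hk
  simp only [ok1, ok2, Bool.and_eq_true, decide_eq_true_eq] at hk1 hk'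
  obtain ⟨⟨⟨⟨⟨⟨⟨⟨⟨k0, -⟩, -⟩, -⟩, -⟩, -⟩, k1⟩, -⟩, -⟩, -⟩ := hk1
  obtain ⟨⟨⟨k2, k3⟩, k4⟩, k5⟩ := hk'
  have o := h.ok0 k0
  have e0 := h.e
  obtain ⟨rx, r1, r2, e1, ff, w3, mx, m1, m2, me, mf, sw, p1, hn, ef, rf, hf⟩ :=
    rest_er h o hy c c' k1 k2
  obtain ⟨e, cc, μ, mc, mm, m0, re, he⟩ := lev1 h hy c hG hk me
  obtain ⟨E, O, sE, sO, hY⟩ := mainY_sem h.HI h.nI c'.m3 c'.a c'.w 3
  have r12 := mem_r1 (d := 2) (by norm_num)
  have F0 := (h.nI.mul r12).add c'.m3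
  have s0 : 0 < √(π / 2) := by positivity
  have core : ∀ (e' : ℝ → ℝ) (d g2 g3 : ℝ), Er e' (ε * d) → (∀ τ, 0 < τ → B.good ε τ →
      ε * η * τ ≤ B.v0 / 10000 →
      kR (ε * η * τ) (τ * x) (gw 1 τ * Complex.exp (gm4 ε c3 c4 c5 c6 τ)) / τ
        + topF (charFun ν) (ε * η) τ ≤ e' τ) →
      Integrable (fun τ => E (τ ^ 2) * (τ ^ 1 * gw 1 τ * sin (τ * x))) mu0 →
      Integrable (fun τ => O (τ ^ 2) * (τ ^ 2 * gw 1 τ * cos (τ * x))) mu0 →
      ∫ τ, E (τ ^ 2) * (τ ^ 1 * gw 1 τ * sin (τ * x)) ∂mu0 = √(π / 2) * g2 →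
      ∫ τ, O (τ ^ 2) * (τ ^ 2 * gw 1 τ * cos (τ * x)) ∂mu0 = √(π / 2) * g3 →
      (η / 2 + c3 - c3 * x ^ 2) * exp (-(x ^ 2 / 2)) + ε * g2 - ε ^ 2 * g3
        + (ε ^ 2 * cc - μ - j * e1) + d ≤ η / 2 + c3 →
      ν.real (Iic (x / (ε * η))) - Phi x ≤ ε * (η / 2 + c3 + j) / √(2 * π) := by
    intro e' d g2 g3 r' h' i1 i2 q1 q2 q3
    obtain ⟨bm, ib, hb, eb⟩ := main_int x hY i1 i2
    obtain ⟨a1, a2⟩ := he x e' r'.2.1 h'
    refine (core_fold ν h1 h.h x ib (c0 := ε * ((η / 2 + c3 * (1 - x ^ 2)) * exp (-(x ^ 2 / 2)))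
      + ε ^ 2 * g2 - ε ^ 3 * g3) (by rw [eb, q1, q2]; ring) (re.add r')
      (fun τ h0 hp => hb τ h0 ▸ a1 τ h0 hp) fun τ hp => ?_).trans
      (div_le_div_of_nonneg_right ?_ (sqrt_nonneg _))
    · have h0 : 0 < τ := (mul_pos_iff_of_pos_left h.h).1 (pi_pos.trans_le hp)
      exact hb τ h0 ▸ a2 τ h0 hp
    · have := mul_le_mul_of_nonneg_left q3 e0.le
      linarith
  suffices H : ∀ a : ℕ, B.zones C κ κ' a z = true → a / 10000 ≤ |x| →
      ν.real (Iic (x / (ε * η))) - Phi x ≤ ε * (η / 2 + c3 + j) / √(2 * π) from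
    H 0 k5 (by simp)
  clear k5
  induction z with
  | nil =>
    intro a hz ha
    simp only [zones, farOk, Bool.and_eq_true, decide_eq_true_eq, Bool.or_eq_true] at hz
    obtain ⟨⟨z1, z2⟩, z3⟩ := hz
    have r2' : 10000 ≤ B.r2 := by
      simp only [rs1Ok, Bool.and_eq_true, decide_eq_true_eq] at k1
      exact o.r1.trans k1.1.1.1
    have l1 : B.l2 ≤ 1 := by
      have : ((10000 : ℕ) : ℝ) ≤ B.r2 := by exact_mod_cast r2'
      exact pow_le_one₀ (by positivity) (div_le_one_of_le₀ this (by positivity))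
    have mf' : Mo mu0 √(π / 2) (fun τ => τ) B.MF (gi B.l2 0) :=
      momF_mo (by omega) (by norm_num) 50
    have ml : B.MF.length = 50 := by rw [MF, momF, genM_length]
    obtain ⟨i1, u1, n1, b1⟩ := main_far sE l1 1 mf' (by
      rw [ml, pshn_length, psq_length]; unfold YY at k3; omega) (g := fun τ => sin (τ * x))
      (by fun_prop) fun τ => abs_sin_le_one _
    obtain ⟨i2, u2, n2, b2⟩ := main_far sO l1 2 mf' (by
      rw [ml, pshn_length, psq_length]; unfold YY at k4; omega) (g := fun τ => cos (τ * x))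
      (by fun_prop) fun τ => abs_cos_le_one _
    have mX := (nd_mem a).mul (nd_mem a)
    obtain ⟨t, mt, et⟩ := e1I_mem (mX.mul r12) (by positivity)
    have mR : (B.farR C κ κ').Mem _ :=
      ((h.eI.mul (n1.add mf)).add (h.HI.mul (n2.add mc))).sub mm
    have b3 := mR.le (((F0.mul (mX.mul r12)).mul mt).add ((c'.m3.mul mX).mul
      ((mem_nat 1).sub ((mX.mul r12).mul mt)))) z2
    have b4 := mR.le F0 z3
    have b5 := far_le (a := η / 2 + c3) (c := c3) (X := a / 10000 * (a / 10000)) (Y := x ^ 2) (by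
      rw [← sq, ← sq_abs x]
      exact pow_le_pow_left₀ (by positivity) ha 2) (by
      rcases z1 with (z | z) | z
      · have : (17321 : ℝ) ≤ a := by exact_mod_cast z
        refine (le_total 0 c3).imp_right fun h3 => ?_
        have := mul_nonneg_of_nonpos_of_nonpos h3
          (show 3 - (a : ℝ) / 10000 * (a / 10000) ≤ 0 by nlinarith)
        linarith [h.n]
      · exact Or.inl (mem_zero.le c'.m3 z)
      · have := mem_zero.le ((h.nI.mul r12).add (c'.m3.mul ((mem_nat 3).sub mX))) z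
        push_cast at this
        exact Or.inr (by linarith))
    refine core ef (ε * ff + j * e1) _ _ (rf.mono ?_) (fun τ h0 hg hv => hf τ h0 hg hv x) i1 i2
      (mul_div_cancel₀ _ s0.ne').symm (mul_div_cancel₀ _ s0.ne').symm ?_
    · exact mul_le_mul_of_nonneg_left (le_add_of_nonneg_right (mul_nonneg h.jn p1)) e0.le
    · have b6 := mul_le_mul_of_nonneg_left ((div_le_iff₀' s0).2 (abs_le.1 b1).2) e0.le
      have b7 := mul_le_mul_of_nonneg_left ((le_div_iff₀' s0).2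
        ((mul_neg _ u2).trans_le (abs_le.1 b2).1)) (sq_nonneg ε)
      push_cast at b3 b4 et
      rw [show (a : ℝ) / 10000 * (a / 10000) / 2 = a / 10000 * (a / 10000) * (1 / 2) by ring,
        et] at b5
      rcases le_max_iff.1 b5 with b8 | b8 <;> linarith
  | cons b z ih =>
    intro a hz ha
    simp only [zones, Bool.and_eq_true] at hz
    rcases le_total (b / 10000 : ℝ) |x| with hb | hb
    · exact ih b hz.2 hb
    have mX : (hull (nd a * nd a) (nd b * nd b)).Mem (x ^ 2) :=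
      ((nd_mem a).mul (nd_mem a)).hull ((nd_mem b).mul (nd_mem b))
        (by rw [← sq, ← sq_abs x]; exact pow_le_pow_left₀ (by positivity) ha 2)
        (by rw [← sq, ← sq_abs x]; exact pow_le_pow_left₀ (abs_nonneg _) hb 2)
    obtain ⟨i1, i2, g2, g3, n2, n3, q2, q3⟩ := main_near sE sO mX k3 k4
    obtain ⟨t, mt, et⟩ := e1I_mem (mX.mul r12) (by positivity)
    have me' : (exI a b).Mem (exp (-(x ^ 2 / 2))) :=
      ((mem_nat 1).sub ((mX.mul r12).mul mt)).congr (by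
        rw [Nat.cast_one, ← et]; congr 2; push_cast; ring)
    obtain ⟨e', r', h'⟩ := hn x _ hb
    refine core e' _ _ _ r' h' i1 i2 q2 q3 ?_
    have bA := ((((F0.mul mt).mul r12).add (c'.m3.mul me')).sub mx).dn_le
    have bB := ((me'.mul n2).add m1).abs_le
    have bC := (((m2.add mc).add (sw.eval (nd_mem b))).sub (me'.mul n3)).le_up
    have b1 := crit_le (mem_dn _) (mem_mag _) (mem_up _) mm (nd_mem B.e1) (nd_mem a) (nd_mem b)
      ((abs_nonneg _).trans bB) m0 hz.1 e0 h.e1 (by positivity) ha hb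
    have b2 := mul_le_mul_of_nonneg_right bA (sq_nonneg x)
    have b3 := mul_le_mul_of_nonneg_right ((le_abs_self _).trans ((abs_mul _ x).trans_le
      (mul_le_mul_of_nonneg_right bB (abs_nonneg x)))) e0.le
    have b4 := mul_le_mul_of_nonneg_right bC (sq_nonneg ε)
    rw [sq_abs] at b1
    have et' : exp (-(x ^ 2 / 2)) = 1 - x ^ 2 / 2 * t := by
      rw [show x ^ 2 / 2 = x ^ 2 * (1 / (2 : ℕ)) by push_cast; ring, et]
    have b5 : (η / 2 + c3) * exp (-(x ^ 2 / 2)) = (η / 2 + c3) * (1 - x ^ 2 / 2 * t) := by rw [← et']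
    push_cast at b2
    unfold YY sxI at b1
    linarith

def kch (B : Bx) (C : Cfg) (κ : Iv) (k1 : ℤ) : ℤ → List (ℤ × List ℕ) → Bool
  | _, [] => false
  | a, (b, z) :: l => B.ok2 C κ (Bx.kI a b) z && (decide (k1 ≤ b) || kch B C κ k1 b l)

/-- The test of a box. -/
def check (C : Cfg) (B : Bx) (k0 k1 : ℤ) (ks : List (ℤ × List ℕ)) : Bool :=
  B.ok1 C (Bx.kI k0 k1) && B.kch C (Bx.kI k0 k1) k1 k0 ks

theorem kI_mem {a b : ℤ} (h1 : (a : ℝ) / 10000 ≤ k) (h2 : k ≤ (b : ℝ) / 10000) :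
    (Bx.kI a b).Mem k :=
  (mem_rat a (by norm_num)).hull (mem_rat b (by norm_num)) (by simpa using h1) (by simpa using h2)

theorem check_sound (ν : Measure ℝ) [IsProbabilityMeasure ν] (h1 : Integrable (fun y : ℝ => y) ν)
    (h : B.In ε η j N J) (hK : K * (ε * η) ^ 3 = ε * k)
    (hy : Hyp C (charFun ν) N K J a4 b4 a5 b5 a6 b6) {k0 k1 : ℤ} {ks : List (ℤ × List ℕ)}
    (hk : check C B k0 k1 ks = true) (p0 : (k0 : ℝ) / 10000 ≤ k) (p1 : k ≤ (k1 : ℝ) / 10000)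
    (x : ℝ) : ν.real (Iic (x / (ε * η))) - Phi x ≤ ε * (η / 2 + k / 6 + j) / √(2 * π) := by
  rw [check, Bool.and_eq_true] at hk
  obtain ⟨q1, q2⟩ := hk
  have c := h.co hy (kI_mem p0 p1)
  generalize Bx.kI k0 k1 = κ at *
  induction ks generalizing k0 with
  | nil => exact absurd q2 Bool.false_ne_true
  | cons p l ih =>
    obtain ⟨b, z⟩ := p
    simp only [kch, Bool.and_eq_true, Bool.or_eq_true, decide_eq_true_eq] at q2
    rcases le_total k (b / 10000) with hb | hb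
    · exact lev2 ν h1 h hy c (h.co hy (kI_mem p0 hb)) (h.mainG hK) q1 q2.1 x
    · rcases q2.2 with q | q
      · exact lev2 ν h1 h hy c (h.co hy (kI_mem p0 (p1.trans (by gcongr)))) (h.mainG hK) q1 q2.1 x
      · exact ih hb q

end Bx

end Pool.Agent.Lib.MP_33650d_pr.RM
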