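import Pool.Agent.Lib.MP_33650d_pr.Prawitz

namespace Pool.Agent.Lib.MP_33650d_pr.X
open MeasureTheory ProbabilityTheory Real

theorem va_dir (x : ℝ) (N : ℕ) :
    sin x * (1 + 2 * ∑ n ∈ Finset.range N, cos (2 * (n + 1) * x)) = sin ((2 * N + 1) * x) := by
  induction N with
  | zero => simp
  | succ N ih =>
    rw [Finset.sum_range_succ]
    have e1 : (2 * N + 1) * x = 2 * (N + 1) * x - x := by ring
    have e2 : (2 * ((N + 1 : ℕ) : ℝ) + 1) * x = 2 * (N + 1) * x + x := by push_cast; ring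
    rw [e1, sin_sub] at ih
    rw [e2, sin_add]
    linear_combination ih

theorem va_fej (x : ℝ) (K : ℕ) :
    sin x ^ 2 * ((K + 1) + 2 * ∑ n ∈ Finset.range K, ((K : ℝ) - n) * cos (2 * (n + 1) * x))
      = sin ((K + 1) * x) ^ 2 := by
  induction K with
  | zero => simp
  | succ K ih =>
    have h1 := va_dir x (K + 1)
    have h2 : ∑ n ∈ Finset.range (K + 1), (((K + 1 : ℕ) : ℝ) - n) * cos (2 * (n + 1) * x)
        = ∑ n ∈ Finset.range K, ((K : ℝ) - n) * cos (2 * (n + 1) * x)
          + ∑ n ∈ Finset.range (K + 1), cos (2 * (n + 1) * x) := by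
      have h3 : ∑ n ∈ Finset.range K, ((K : ℝ) - n) * cos (2 * (n + 1) * x)
          = ∑ n ∈ Finset.range (K + 1), ((K : ℝ) - n) * cos (2 * (n + 1) * x) := by
        rw [Finset.sum_range_succ, sub_self, zero_mul, add_zero]
      rw [h3, ← Finset.sum_add_distrib]
      exact Finset.sum_congr rfl fun n _ => by push_cast; ring
    rw [h2]
    have e1 : (2 * ((K + 1 : ℕ) : ℝ) + 1) * x = 2 * ((K + 1) * x) + x := by push_cast; ring
    have e2 : (((K + 1 : ℕ) : ℝ) + 1) * x = (K + 1) * x + x := by push_cast; ring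
    rw [e1, sin_add, sin_two_mul, cos_two_mul] at h1
    rw [e2, sin_add]
    push_cast
    have s1 := sin_sq_add_cos_sq x
    have s2 := sin_sq_add_cos_sq ((K + 1) * x)
    linear_combination ih + sin x * h1 - sin ((K + 1) * x) ^ 2 * s1 + sin x ^ 2 * s2

theorem va_conj (x : ℝ) (K : ℕ) :
    sin x * (∑ n ∈ Finset.range K, sin (2 * (n + 1) * x) + sin (2 * ((K + 1) * x)) / 2)
      = cos x * sin ((K + 1) * x) ^ 2 := by
  induction K with
  | zero => simp [sin_two_mul]; ring
  | succ K ih =>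
    rw [Finset.sum_range_succ]
    have e1 : 2 * ((K : ℝ) + 1) * x = 2 * ((K + 1) * x) := by ring
    have e2 : (((K + 1 : ℕ) : ℝ) + 1) * x = (K + 1) * x + x := by push_cast; ring
    rw [e1, e2, sin_two_mul ((K + 1) * x + x), sin_add, cos_add]
    rw [sin_two_mul] at ih ⊢
    have s1 := sin_sq_add_cos_sq x
    have s2 := sin_sq_add_cos_sq ((K + 1) * x)
    linear_combination ih - (sin x * sin ((K + 1) * x) * cos ((K + 1) * x)
      + cos x * sin ((K + 1) * x) ^ 2) * s1

theorem va_zero (a θ : ℝ) (J n : ℕ) (h : J * θ = n * π) (hs : sin θ ≠ 0) :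
    ∑ m ∈ Finset.range J, cos (a + 2 * m * θ) = 0 := by
  have h1 : ∀ N : ℕ, 2 * sin θ * ∑ m ∈ Finset.range N, cos (a + 2 * m * θ)
      = sin (a + 2 * N * θ - θ) - sin (a - θ) := fun N => by
    induction N with
    | zero => simp
    | succ N ih =>
      have e : a + 2 * ((N + 1 : ℕ) : ℝ) * θ - θ = a + 2 * N * θ + θ := by push_cast; ring
      rw [Finset.sum_range_succ, e, sin_add (a + 2 * N * θ)]
      rw [sin_sub (a + 2 * N * θ)] at ih
      linear_combination ih
  have h2 := h1 J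
  rw [show a + 2 * J * θ - θ = a - θ + n * (2 * π) by linear_combination 2 * h,
    sin_add_nat_mul_two_pi, sub_self] at h2
  exact (mul_eq_zero.1 h2).resolve_left (mul_ne_zero two_ne_zero hs)

theorem va_cot {x : ℝ} (h0 : 0 < x) (h1 : x < π) : x * cos x ≤ sin x := by
  rcases le_or_gt (π / 2) x with h | h
  · exact (mul_nonpos_of_nonneg_of_nonpos h0.le
      (cos_nonpos_of_pi_div_two_le_of_le h (by linarith))).trans
        (sin_nonneg_of_nonneg_of_le_pi h0.le h1.le)
  · have h2 := le_tan h0.le h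
    rwa [tan_eq_sin_div_cos, le_div_iff₀ (cos_pos_of_mem_Ioo ⟨by linarith, h⟩)] at h2

/-- The tangent line inequality for the concave function `y * cot y`. -/
theorem va_tan {x y : ℝ} (h0 : -π < x) (hxy : x < y) (h1 : y < π) (hx : x ≠ 0) (hy : y ≠ 0) :
    y * (cos y / sin y) - x * (cos x / sin x) ≤ (cos x / sin x - x / sin x ^ 2) * (y - x) := by
  rcases hx.lt_or_gt with hx | hx
  · have sx : 0 < sin (-x) := sin_pos_of_pos_of_lt_pi (by linarith) (by linarith)
    rcases hy.lt_or_gt with hy | hy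
    · obtain ⟨q, rfl⟩ : ∃ q, y = -q := ⟨-y, by ring⟩
      obtain ⟨d, rfl⟩ : ∃ d, x = -(q + d) := ⟨-x - q, by ring⟩
      rw [neg_neg] at sx
      have hq : 0 < q := by linarith
      have hd : 0 < d := by linarith
      have sq : 0 < sin q := sin_pos_of_pos_of_lt_pi hq (by linarith)
      have sd : 0 < sin d := sin_pos_of_pos_of_lt_pi hd (by linarith)
      have a1 := va_cot hq (by linarith)
      have a2 := sin_le hd.le
      have a3 : q * sin (q + d) ≤ (q + d) * sin q := by
        rw [sin_add]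
        nlinarith [mul_le_mul_of_nonneg_right a1 sd.le, mul_le_mul_of_nonneg_left a2 sq.le,
          mul_le_mul_of_nonneg_left (cos_le_one d) (mul_pos hq sq).le]
      have a4 : q * sin (q + d) * sin d ≤ (q + d) * sin q * d :=
        mul_le_mul a3 a2 sd.le (by positivity)
      have a5 : sin d = sin (q + d) * cos q - cos (q + d) * sin q := by
        rw [← sin_sub]; congr 1; ring
      rw [sin_neg, cos_neg, sin_neg, cos_neg, ← sub_nonneg]
      have e : (cos (q + d) / -sin (q + d) - -(q + d) / (-sin (q + d)) ^ 2) * (-q - -(q + d))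
          - (-q * (cos q / -sin q) - -(q + d) * (cos (q + d) / -sin (q + d)))
          = ((q + d) * sin q * d - q * sin (q + d) * sin d) / (sin (q + d) ^ 2 * sin q) := by
        rw [a5]; field_simp; ring
      rw [e]
      exact div_nonneg (by linarith) (by positivity)
    · obtain ⟨p, rfl⟩ : ∃ p, x = -p := ⟨-x, by ring⟩
      rw [neg_neg] at sx
      have hp : 0 < p := by linarith
      have sy : 0 < sin y := sin_pos_of_pos_of_lt_pi hy h1
      have a1 : y * (cos y / sin y) ≤ 1 := by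
        rw [← mul_div_assoc, div_le_one sy]; exact va_cot hy h1
      have a2 := sin_le hp.le
      have a3 : sin p * cos p ≤ p := by nlinarith [cos_le_one p]
      have a4 : 1 ≤ p ^ 2 / sin p ^ 2 := by
        rw [one_le_div (by positivity)]; exact pow_le_pow_left₀ sx.le a2 2
      have a5 : 0 ≤ (p - sin p * cos p) / sin p ^ 2 * y :=
        mul_nonneg (div_nonneg (by linarith) (by positivity)) hy.le
      rw [sin_neg, cos_neg]
      have e : (cos p / -sin p - -p / (-sin p) ^ 2) * (y - -p) + -p * (cos p / -sin p)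
          = p ^ 2 / sin p ^ 2 + (p - sin p * cos p) / sin p ^ 2 * y := by
        field_simp; ring
      linarith
  · obtain ⟨d, rfl⟩ : ∃ d, y = x + d := ⟨y - x, by ring⟩
    have hd : 0 < d := by linarith
    have sx : 0 < sin x := sin_pos_of_pos_of_lt_pi hx (by linarith)
    have sd : 0 < sin d := sin_pos_of_pos_of_lt_pi hd (by linarith)
    have sy : 0 < sin (x + d) := sin_pos_of_pos_of_lt_pi (by linarith) h1
    have a1 := va_cot hx (by linarith)
    have a2 := va_cot hd (by linarith)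
    have a4 : x * d * sin (x + d) ≤ (x + d) * sin d * sin x := by
      rw [sin_add]
      nlinarith [mul_le_mul_of_nonneg_left a1 (mul_pos hd sd).le,
        mul_le_mul_of_nonneg_left a2 (mul_pos hx sx).le]
    have a5 : sin d = sin (x + d) * cos x - cos (x + d) * sin x := by
      rw [← sin_sub]; congr 1; ring
    rw [← sub_nonneg]
    have e : (cos x / sin x - x / sin x ^ 2) * (x + d - x)
        - ((x + d) * (cos (x + d) / sin (x + d)) - x * (cos x / sin x))
        = ((x + d) * sin d * sin x - x * d * sin (x + d)) / (sin x ^ 2 * sin (x + d)) := by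
      rw [a5]; field_simp; ring
    rw [e]
    exact div_nonneg (by linarith) (by positivity)

theorem va_avg {D A : ℝ → ℝ} {h : ℝ} (hs : ∀ u, D (u + h) = D u - A u) (u : ℝ) (N : ℕ) :
    D (u + N * h) = D u - ∑ m ∈ Finset.range N, A (u + m * h) ∧
      N * D u = ∑ m ∈ Finset.range N, (D (u + m * h) + ((N : ℝ) - 1 - m) * A (u + m * h)) := by
  induction N with
  | zero => simp
  | succ N ih =>
    constructor
    · rw [Finset.sum_range_succ, show u + ((N + 1 : ℕ) : ℝ) * h = u + N * h + h by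
        push_cast; ring, hs, ih.1]
      ring
    · have e : ∑ m ∈ Finset.range N, (D (u + m * h) + (((N + 1 : ℕ) : ℝ) - 1 - m) * A (u + m * h))
          = ∑ m ∈ Finset.range N, (D (u + m * h) + ((N : ℝ) - 1 - m) * A (u + m * h))
            + ∑ m ∈ Finset.range N, A (u + m * h) := by
        rw [← Finset.sum_add_distrib]
        exact Finset.sum_congr rfl fun m _ => by push_cast; ring
      rw [Finset.sum_range_succ, e, ← ih.2, ih.1]
      push_cast; ring

/-- The cosine part. -/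
noncomputable def va_C (K : ℕ) (u : ℝ) : ℝ := ∑ n ∈ Finset.range K,
  (1 - ((n : ℝ) + 1) / (K + 1)) / (K + 1) * cos (2 * π * (n + 1) * u)

/-- The cotangent part. -/
noncomputable def va_S (K : ℕ) (u : ℝ) : ℝ := ∑ n ∈ Finset.range K,
  pw_c (((n : ℝ) + 1) / (K + 1)) / (K + 1) * sin (2 * π * (n + 1) * u)

/-- The sine part. -/
noncomputable def va_Z (K : ℕ) (u : ℝ) : ℝ := ∑ n ∈ Finset.range K, sin (2 * π * (n + 1) * u)

theorem va_sin {K n : ℕ} (hn : n ∈ Finset.range K) : sin (π * ((n + 1) / (K + 1))) ≠ 0 := by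
  have : (n : ℝ) < K := by exact_mod_cast Finset.mem_range.1 hn
  exact (pw_sin_pos (by positivity) (by rw [div_lt_one (by positivity)]; linarith)).ne'

theorem va_step (K : ℕ) (u : ℝ) :
    va_S K (u + 1 / (K + 1)) = va_S K u + va_C K u + va_C K (u + 1 / (K + 1)) := by
  unfold va_S va_C
  rw [← Finset.sum_add_distrib, ← Finset.sum_add_distrib]
  refine Finset.sum_congr rfl fun n hn => ?_
  have hs := va_sin hn
  unfold pw_c
  rw [show 2 * π * (n + 1) * (u + 1 / (K + 1))
    = 2 * π * (n + 1) * u + 2 * (π * ((n + 1) / (K + 1))) by ring, sin_add, cos_add, sin_two_mul,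
    cos_two_mul]
  generalize π * (((n : ℝ) + 1) / (K + 1)) = θ at hs
  generalize (1 - ((n : ℝ) + 1) / (K + 1)) = c
  have s1 := sin_sq_add_cos_sq θ
  have hK : (K : ℝ) + 1 ≠ 0 := by positivity
  field_simp
  linear_combination (2 * c * cos θ * sin (2 * π * (n + 1) * u)) * s1

theorem va_sum (K : ℕ) (c : ℕ → ℝ) (b u : ℝ) : ∑ m ∈ Finset.range (K + 1), ∑ n ∈ Finset.range K,
    c n * cos (2 * π * (n + 1) * (u + m * (1 / (K + 1))) - b) = 0 := by
  rw [Finset.sum_comm]
  refine Finset.sum_eq_zero fun n hn => ?_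
  rw [← Finset.mul_sum]
  refine mul_eq_zero_of_right _ ?_
  rw [← va_zero (2 * π * (n + 1) * u - b) (π * ((n + 1) / (K + 1))) (K + 1) (n + 1)
    (by push_cast; field_simp) (va_sin hn)]
  exact Finset.sum_congr rfl fun m _ => by congr 1; ring

theorem va_id (K : ℕ) (u : ℝ) : (K + 1) * (1 / (2 * (K + 1)) + va_C K u - va_S K u - u + 1 / 2)
    = ∑ m ∈ Finset.range (K + 1), (K + 1 - (K + 1) * u - m) *
      (2 * va_C K (u + m * (1 / (K + 1))) + 1 / (K + 1)) := by
  have hK : (K : ℝ) + 1 ≠ 0 := by positivity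
  have h1 := (va_avg (D := fun u => 1 / (2 * (K + 1)) + va_C K u - va_S K u - u + 1 / 2)
    (A := fun u => 2 * va_C K u + 1 / (K + 1)) (h := 1 / (K + 1)) (fun u => by
      simp only [va_step]; ring) u (K + 1)).2
  have hC : ∑ m ∈ Finset.range (K + 1), va_C K (u + m * (1 / (K + 1))) = 0 := by
    simpa only [sub_zero, va_C] using
      va_sum K (fun n => (1 - ((n : ℝ) + 1) / (K + 1)) / (K + 1)) 0 u
  have hS : ∑ m ∈ Finset.range (K + 1), va_S K (u + m * (1 / (K + 1))) = 0 := by
    simpa only [cos_sub_pi_div_two, va_S] using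
      va_sum K (fun n => pw_c (((n : ℝ) + 1) / (K + 1)) / (K + 1)) (π / 2) u
  have hm : ∑ m ∈ Finset.range (K + 1), (m : ℝ) = (K + 1) * K / 2 := by
    have := Finset.sum_range_id_mul_two (K + 1)
    rw [Nat.add_sub_cancel] at this
    have h2 : ((∑ i ∈ Finset.range (K + 1), i : ℕ) : ℝ) * 2 = (K + 1) * K := by exact_mod_cast this
    push_cast at h2
    linarith
  push_cast at h1
  rw [h1, ← sub_eq_zero, ← Finset.sum_sub_distrib]
  have e : ∀ m ∈ Finset.range (K + 1), (1 / (2 * (K + 1)) + va_C K (u + m * (1 / (K + 1)))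
      - va_S K (u + m * (1 / (K + 1))) - (u + m * (1 / (K + 1))) + 1 / 2 + ((K : ℝ) + 1 - 1 - m) *
        (2 * va_C K (u + m * (1 / (K + 1))) + 1 / (K + 1))) - (K + 1 - (K + 1) * u - m) *
      (2 * va_C K (u + m * (1 / (K + 1))) + 1 / (K + 1))
      = (2 * (K + 1) * u - 1) * va_C K (u + m * (1 / (K + 1))) - va_S K (u + m * (1 / (K + 1)))
        - 1 / (K + 1) * m + K / (2 * (K + 1)) := fun m _ => by
    field_simp; ring
  rw [Finset.sum_congr rfl e, Finset.sum_add_distrib, Finset.sum_sub_distrib,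
    Finset.sum_sub_distrib, ← Finset.mul_sum, ← Finset.mul_sum, hC, hS, hm, Finset.sum_const,
    Finset.card_range, nsmul_eq_mul]
  push_cast
  field_simp; ring

theorem va_C_eq (K : ℕ) (w : ℝ) (hw : sin (π * w) ≠ 0) : 2 * va_C K w + 1 / (K + 1)
    = sin ((K + 1) * (π * w)) ^ 2 / ((K + 1) ^ 2 * sin (π * w) ^ 2) := by
  have hK : (K : ℝ) + 1 ≠ 0 := by positivity
  rw [← va_fej, va_C, show ∑ n ∈ Finset.range K, (1 - ((n : ℝ) + 1) / (K + 1)) / (K + 1) *
    cos (2 * π * (n + 1) * w) = (∑ n ∈ Finset.range K, ((K : ℝ) - n) *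
      cos (2 * (n + 1) * (π * w))) / (K + 1) ^ 2 by
    rw [Finset.sum_div]
    refine Finset.sum_congr rfl fun n _ => ?_
    rw [show 2 * π * (n + 1) * w = 2 * (n + 1) * (π * w) by ring]
    field_simp; ring]
  generalize ∑ n ∈ Finset.range K, ((K : ℝ) - n) * cos (2 * (n + 1) * (π * w)) = Q
  generalize sin (π * w) = s at hw
  field_simp; ring

theorem va_Z_eq (K : ℕ) (w : ℝ) (hw : sin (π * w) ≠ 0) : va_Z K w
    = sin ((K + 1) * (π * w)) ^ 2 * (cos (π * w) / sin (π * w))
      - sin (2 * ((K + 1) * (π * w))) / 2 := by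
  have h := va_conj (π * w) K
  rw [va_Z, Finset.sum_congr rfl fun n _ => by
    rw [show 2 * π * (n + 1) * w = 2 * (n + 1) * (π * w) by ring]]
  generalize ∑ n ∈ Finset.range K, sin (2 * (n + 1) * (π * w)) = Q at h
  generalize sin (2 * ((K + 1) * (π * w))) = r at h
  generalize sin ((K + 1) * (π * w)) = t at h
  generalize π * w = x at h hw
  field_simp
  linear_combination 2 * h

theorem va_gen (K : ℕ) {u : ℝ} (h0 : 0 < u) (h1 : u < 1) (hu : sin ((K + 1) * (π * u)) ≠ 0) :
    u - 1 / 2 ≤ 1 / (2 * (K + 1)) + va_C K u - va_S K u - va_Z K u / (π * (K + 1)) := by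
  have hK : (0 : ℝ) < K + 1 := by positivity
  obtain ⟨y, hy⟩ : ∃ y : ℕ → ℝ, y = fun m : ℕ => π * (u + m * (1 / (K + 1))) - π := ⟨_, rfl⟩
  have ey : ∀ m : ℕ, π * (u + m * (1 / (K + 1))) = y m + π := fun m => by rw [hy]; ring
  have e1 : ∀ m : ℕ, (K + 1) * (π * (u + m * (1 / (K + 1)))) = (K + 1) * (π * u) + m * π :=
    fun m => by field_simp
  have s1 : ∀ m : ℕ, sin ((K + 1) * (π * (u + m * (1 / (K + 1))))) ^ 2
      = sin ((K + 1) * (π * u)) ^ 2 := fun m => by
    rw [e1, sin_add_nat_mul_pi, mul_pow, ← pow_mul, mul_comm m 2, pow_mul, neg_one_sq, one_pow,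
      one_mul]
  have s2 : ∀ m : ℕ, sin (2 * ((K + 1) * (π * (u + m * (1 / (K + 1))))))
      = sin (2 * ((K + 1) * (π * u))) := fun m => by
    rw [e1, mul_add, show 2 * (m * π) = m * (2 * π) by ring, sin_add_nat_mul_two_pi]
  have s3 : ∀ m : ℕ, sin (π * (u + m * (1 / (K + 1)))) ≠ 0 := fun m h => by
    obtain ⟨k, hk⟩ := sin_eq_zero_iff.1 h
    have h2 := s1 m
    rw [← hk, show (K + 1) * (k * π) = (((K + 1) * k : ℤ) : ℝ) * π by push_cast; ring,
      sin_int_mul_pi] at h2
    exact hu (pow_eq_zero_iff two_ne_zero |>.1 (by rw [← h2]; norm_num))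
  have s4 : ∀ m, y m ≠ 0 := fun m h => s3 m (by rw [ey, h, zero_add, sin_pi])
  have d1 : ∀ m, y (m + 1) - y m = π / (K + 1) := fun m => by rw [hy]; push_cast; ring
  have tn : ∀ m ∈ Finset.range (K + 1), y (m + 1) * (cos (y (m + 1)) / sin (y (m + 1)))
      - y m * (cos (y m) / sin (y m))
        ≤ (cos (y m) / sin (y m) - y m / sin (y m) ^ 2) * (π / (K + 1)) := fun m hm => by
    have hm' : (m : ℝ) + 1 ≤ K + 1 := by exact_mod_cast Finset.mem_range.1 hm
    rw [← d1 m]
    refine va_tan ?_ (by linarith [d1 m, div_pos pi_pos hK]) ?_ (s4 _) (s4 _)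
    · have : 0 < π * (u + m * (1 / (K + 1))) := by positivity
      linarith [ey m]
    · have h2 : ((m : ℝ) + 1) * (1 / (K + 1)) ≤ 1 := by
        rw [mul_one_div, div_le_one hK]; exact hm'
      have h3 := ey (m + 1)
      push_cast at h3
      nlinarith [pi_pos]
  have h2 := Finset.sum_le_sum tn
  rw [Finset.sum_range_sub fun m => y m * (cos (y m) / sin (y m)), ← Finset.sum_mul] at h2
  have y0 : y 0 = π * u - π := by rw [hy]; simp
  have y1 : y (K + 1) = π * u := by rw [hy]; push_cast; field_simp; ring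
  rw [y0, y1, sin_sub_pi, cos_sub_pi, neg_div_neg_eq] at h2
  have hZ : ∑ m ∈ Finset.range (K + 1), va_Z K (u + m * (1 / (K + 1))) = 0 := by
    simpa only [cos_sub_pi_div_two, va_Z, one_mul] using va_sum K (fun _ => 1) (π / 2) u
  have h3 := va_id K u
  have su : sin (π * u) ≠ 0 := (pw_sin_pos h0 h1).ne'
  have h4 : ∑ m ∈ Finset.range (K + 1), ((K + 1 - (K + 1) * u - m) *
      (2 * va_C K (u + m * (1 / (K + 1))) + 1 / (K + 1))
        + va_Z K (u + m * (1 / (K + 1))) / (π * (K + 1)))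
      = sin ((K + 1) * (π * u)) ^ 2 / (π * (K + 1)) *
        ∑ m ∈ Finset.range (K + 1), (cos (y m) / sin (y m) - y m / sin (y m) ^ 2)
          - sin (2 * ((K + 1) * (π * u))) / (2 * π) := by
    rw [Finset.mul_sum, show sin (2 * ((K + 1) * (π * u))) / (2 * π) = ∑ _m ∈ Finset.range (K + 1),
      sin (2 * ((K + 1) * (π * u))) / (2 * π * (K + 1)) by
        rw [Finset.sum_const, Finset.card_range, nsmul_eq_mul]; push_cast; field_simp,
      ← Finset.sum_sub_distrib]
    refine Finset.sum_congr rfl fun m _ => ?_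
    have h5 := s3 m
    rw [va_C_eq K _ h5, va_Z_eq K _ h5, s1, s2, show (K : ℝ) + 1 - (K + 1) * u - m
      = -((K + 1) * y m / π) by rw [hy]; field_simp; ring]
    rw [ey, sin_add_pi] at h5
    rw [ey, sin_add_pi, cos_add_pi]
    have h6 : sin (y m) ≠ 0 := fun h => h5 (by rw [h, neg_zero])
    field_simp; ring
  rw [Finset.sum_add_distrib, ← Finset.sum_div, hZ, zero_div, add_zero, ← h3] at h4
  rw [va_Z_eq K u su]
  generalize ∑ m ∈ Finset.range (K + 1), (cos (y m) / sin (y m) - y m / sin (y m) ^ 2) = Q at h2 h4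
  have h7 : (K + 1) * (cos (π * u) / sin (π * u)) ≤ Q := by
    refine le_of_mul_le_mul_right (le_trans (le_of_eq ?_) h2) (div_pos pi_pos hK)
    field_simp; ring
  have h8 := mul_le_mul_of_nonneg_left h7
    (show 0 ≤ sin ((K + 1) * (π * u)) ^ 2 / (π * (K + 1)) by positivity)
  refine le_of_mul_le_mul_left ?_ hK
  have h9 : (K + 1) * ((sin ((K + 1) * (π * u)) ^ 2 * (cos (π * u) / sin (π * u))
      - sin (2 * ((K + 1) * (π * u))) / 2) / (π * (K + 1)))
      = sin ((K + 1) * (π * u)) ^ 2 / (π * (K + 1)) * ((K + 1) * (cos (π * u) / sin (π * u)))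
        - sin (2 * ((K + 1) * (π * u))) / (2 * π) := by field_simp
  linarith

/-- The trigonometric majorant of Vaaler for the sawtooth function. -/
theorem vaaler {J : ℕ} (hJ : 0 < J) {u : ℝ} (h0 : 0 ≤ u) (h1 : u ≤ 1) :
    u - 1 / 2 ≤ 1 / (2 * J) + ∑ n ∈ Finset.range (J - 1),
      ((1 - ((n : ℝ) + 1) / J) / J * cos (2 * π * (n + 1) * u)
        - (pw_c (((n : ℝ) + 1) / J) + 1 / π) / J * sin (2 * π * (n + 1) * u)) := by
  obtain ⟨K, rfl⟩ : ∃ K, J = K + 1 := ⟨J - 1, by omega⟩
  have hK : (K : ℝ) + 1 ≠ 0 := by positivity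
  have hd : Dense {u : ℝ | sin ((K + 1) * (π * u)) ≠ 0} := by
    have h3 : Dense (Set.range fun k : ℤ => (k : ℝ) / (K + 1))ᶜ :=
      (Set.countable_range _).dense_compl ℝ
    refine h3.mono ?_
    intro u hu h
    apply hu
    obtain ⟨k, hk⟩ := sin_eq_zero_iff.1 h
    refine ⟨k, ?_⟩
    have h2 : (k : ℝ) = (K + 1) * u := mul_right_cancel₀ pi_ne_zero (by linear_combination hk)
    simp only [h2]
    field_simp
  have hc : IsClosed {u : ℝ | u - 1 / 2 ≤
      1 / (2 * (K + 1)) + va_C K u - va_S K u - va_Z K u / (π * (K + 1))} := by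
    unfold va_C va_S va_Z
    exact isClosed_le (by fun_prop) (by fun_prop)
  have h2 := hc.closure_subset_iff.2 ((hd.open_subset_closure_inter
    (isOpen_Ioo (a := (0 : ℝ)) (b := 1))).trans
      (hc.closure_subset_iff.2 fun u hu => va_gen K hu.1.1 hu.1.2 hu.2))
  rw [closure_Ioo zero_ne_one] at h2
  refine le_trans (h2 ⟨h0, h1⟩) (le_of_eq ?_)
  rw [Nat.add_sub_cancel, va_C, va_S, va_Z, Finset.sum_div, add_sub_assoc, add_sub_assoc,
    ← Finset.sum_sub_distrib, ← Finset.sum_sub_distrib]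
  push_cast
  congr 1
  exact Finset.sum_congr rfl fun n _ => by field_simp; ring

end Pool.Agent.Lib.MP_33650d_pr.X
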